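import Pool.Agent.Work.MP_b5407d_t3.Interface

/-!
# MP_b5407d_gt, block LAMC: continuity and symmetries of the chord length
-/

set_option autoImplicit false

open MeasureTheory Set Filter Topology

namespace Pool.T3

namespace LAMC_

lemma cr_anti (a b : R3) : cr b a = -cr a b := by
  ext l
  fin_cases l <;> simp [cr] <;> ring

lemma cr_neg_right (a b : R3) : cr a (-b) = -cr a b := by
  ext l
  fin_cases l <;> simp [cr] <;> ring

lemma cr_neg_left (a b : R3) : cr (-a) b = -cr a b := by
  ext l
  fin_cases l <;> simp [cr] <;> ring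

lemma dt_neg_neg (a b : R3) : dt (-a) (-b) = dt a b := by
  simp [dt]

lemma dt_neg_left (a b : R3) : dt (-a) b = -dt a b := by
  simp [dt]; ring

lemma dt_neg_right (a b : R3) : dt a (-b) = -dt a b := by
  simp [dt]; ring

lemma de_anti (a b c : R3) : de b a c = -de a b c := by
  unfold de
  rw [cr_anti, dt_neg_left]

lemma pt_symm {ι : Type} (u : ι → R3) (i j : ι) (α β : ℝ) : pt u j i β α = pt u i j α β := by
  unfold pt
  rw [cr_anti (u i) (u j), dt_neg_neg, cr_neg_right, cr_neg_left,
    cr_anti (cr (u i) (u j)) (u i), cr_anti (u j) (cr (u i) (u j))]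
  simp only [neg_neg]
  rw [add_comm]

lemma pt_neg {ι : Type} (u : ι → R3) (i j : ι) (α β : ℝ) :
    pt u i j (-α) (-β) = -pt u i j α β := by
  unfold pt
  rw [← smul_neg]
  congr 1
  rw [neg_smul, neg_smul, neg_add]

lemma pt_smul {ι : Type} (u : ι → R3) (i j : ι) (α β c : ℝ) :
    pt u i j (c * α) (c * β) = c • pt u i j α β := by
  unfold pt
  rw [smul_comm c]
  congr 1
  rw [mul_smul, mul_smul, smul_add]

lemma dt_smul (a b : R3) (c : ℝ) : dt a (c • b) = c * dt a b := by
  simp [dt]; ring

lemma mid_cont {ι : Type} (u : ι → R3) (i j m : ι) :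
    Continuous (fun p : ℝ × ℝ × (ι → ℝ) => mid u i j p.1 p.2.1 m) := by
  unfold mid dt pt
  simp only [Pi.smul_apply, Pi.add_apply, smul_eq_mul]
  fun_prop

lemma rad_cont {ι : Type} (u : ι → R3) (i j m : ι) :
    Continuous (fun p : ℝ × ℝ × (ι → ℝ) => rad u i j p.2.2 m) := by
  unfold rad
  fun_prop

end LAMC_

open LAMC_

theorem stmt_LAMC (hLAMF : Stmt_LAMF) : Stmt_LAMC := by
  intro ι _ _ u hu i j hij
  obtain ⟨hM, hF⟩ := hLAMF ι u hu i j hij
  refine ⟨?_, ?_, ?_, ?_, ?_, ?_⟩
  · have h1 : (fun p : ℝ × ℝ × (ι → ℝ) => Lam u i j p.1 p.2.1 p.2.2) =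
        fun p => max 0
        ((oth i j).inf' hM (fun m => mid u i j p.1 p.2.1 m + rad u i j p.2.2 m) -
          (oth i j).sup' hM (fun m => mid u i j p.1 p.2.1 m - rad u i j p.2.2 m)) := by
      funext p
      exact hF hM _ _ _
    rw [h1]
    refine continuous_const.max (Continuous.sub ?_ ?_)
    · exact Continuous.finset_inf'_apply hM (fun m _ => (mid_cont u i j m).add (rad_cont u i j m))
    · exact Continuous.finset_sup'_apply hM (fun m _ => (mid_cont u i j m).sub (rad_cont u i j m))
  · intro α β h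
    exact ENNReal.toReal_nonneg
  · intro α β h
    have hs : {c : ℝ | ∀ m, m ≠ j → m ≠ i →
        |dt (u m) (pt u j i β α) + c * de (u j) (u i) (u m)| ≤ h m} =
        Neg.neg ⁻¹' {c : ℝ | ∀ m, m ≠ i → m ≠ j →
        |dt (u m) (pt u i j α β) + c * de (u i) (u j) (u m)| ≤ h m} := by
      ext c
      simp only [mem_setOf_eq, mem_preimage]
      constructor
      · intro hc m h1 h2
        have := hc m h2 h1
        rw [pt_symm, de_anti] at this
        rwa [neg_mul, ← mul_neg]
      · intro hc m h1 h2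
        have := hc m h2 h1
        rw [pt_symm, de_anti]
        rwa [mul_neg, ← neg_mul]
    unfold Lam
    rw [hs, Measure.measure_preimage_neg]
  · intro α β h
    have hs : {c : ℝ | ∀ m, m ≠ i → m ≠ j →
        |dt (u m) (pt u i j (-α) (-β)) + c * de (u i) (u j) (u m)| ≤ h m} =
        Neg.neg ⁻¹' {c : ℝ | ∀ m, m ≠ i → m ≠ j →
        |dt (u m) (pt u i j α β) + c * de (u i) (u j) (u m)| ≤ h m} := by
      ext c
      simp only [mem_setOf_eq, mem_preimage]
      have e : ∀ m, |dt (u m) (pt u i j (-α) (-β)) + c * de (u i) (u j) (u m)| =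
          |dt (u m) (pt u i j α β) + -c * de (u i) (u j) (u m)| := by
        intro m
        rw [pt_neg, dt_neg_right, ← abs_neg]
        congr 1
        ring
      simp only [e]
    unfold Lam
    rw [hs, Measure.measure_preimage_neg]
  · intro α β h h' hh
    unfold Lam
    congr 2
    ext c
    simp only [mem_setOf_eq]
    constructor
    · intro hc m h1 h2
      rw [← hh m h1 h2]
      exact hc m h1 h2
    · intro hc m h1 h2
      rw [hh m h1 h2]
      exact hc m h1 h2
  · intro α β h c hc
    have hs : {x : ℝ | ∀ m, m ≠ i → m ≠ j →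
        |dt (u m) (pt u i j (c * α) (c * β)) + x * de (u i) (u j) (u m)| ≤ (c • h) m} =
        (fun x => c⁻¹ * x) ⁻¹' {c : ℝ | ∀ m, m ≠ i → m ≠ j →
        |dt (u m) (pt u i j α β) + c * de (u i) (u j) (u m)| ≤ h m} := by
      ext x
      simp only [mem_setOf_eq, mem_preimage]
      have e : ∀ m, |dt (u m) (pt u i j (c * α) (c * β)) + x * de (u i) (u j) (u m)| =
          c * |dt (u m) (pt u i j α β) + c⁻¹ * x * de (u i) (u j) (u m)| := by
        intro m
        have e1 : c * dt (u m) (pt u i j α β) + x * de (u i) (u j) (u m) =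
            c * (dt (u m) (pt u i j α β) + c⁻¹ * x * de (u i) (u j) (u m)) := by
          field_simp
        rw [pt_smul, dt_smul, e1, abs_mul, abs_of_pos hc]
      simp only [e, Pi.smul_apply, smul_eq_mul]
      constructor
      · intro h1 m h2 h3
        exact le_of_mul_le_mul_left (h1 m h2 h3) hc
      · intro h1 m h2 h3
        exact mul_le_mul_of_nonneg_left (h1 m h2 h3) hc.le
    unfold Lam
    rw [hs, Real.volume_preimage_mul_left (inv_ne_zero hc.ne'), inv_inv, ENNReal.toReal_mul,
      abs_of_pos hc, ENNReal.toReal_ofReal hc.le]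

end Pool.T3
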