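import Pool.Agent.Work.MP_b5407d_t3.InterfaceL

/-!
# T3, block `GPD`: admissible families are dense (helper54)
-/

set_option autoImplicit false

open MeasureTheory Set Filter Topology

namespace Pool.T3

namespace GPD_

/-- a cubic with nonzero leading coefficient has finitely many zeros -/
lemma cubic_finite (a b c d : ℝ) (hd : d ≠ 0) :
    {s : ℝ | a + b * s + c * s ^ 2 + d * s ^ 3 = 0}.Finite := by
  classical
  let p : Polynomial ℝ := Polynomial.C a + Polynomial.C b * Polynomial.X +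
    Polynomial.C c * Polynomial.X ^ 2 + Polynomial.C d * Polynomial.X ^ 3
  have hp : p ≠ 0 := by
    intro h
    have h3 : p.coeff 3 = 0 := by rw [h]; simp
    have h4 : p.coeff 3 = d := by
      simp only [p, Polynomial.coeff_add, Polynomial.coeff_C_mul, Polynomial.coeff_X_pow,
        Polynomial.coeff_C, Polynomial.coeff_X]
      norm_num
    exact hd (h4 ▸ h3)
  have hfin := Polynomial.finite_setOfPred_isRoot hp
  refine hfin.subset ?_
  intro s hs
  have hs : a + b * s + c * s ^ 2 + d * s ^ 3 = 0 := hs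
  change p.IsRoot s
  simp only [Polynomial.IsRoot.def, p, Polynomial.eval_add, Polynomial.eval_mul,
    Polynomial.eval_C, Polynomial.eval_X, Polynomial.eval_pow]
  exact hs

/-- near a point, a finite set is avoided -/
lemma ev_not_mem (F : Set ℝ) (hF : F.Finite) : ∀ᶠ s : ℝ in 𝓝[>] 0, s ∉ F := by
  have h1 : (F \ {0}).Finite := hF.subset sdiff_subset
  have h2 : (F \ {0})ᶜ ∈ 𝓝 (0 : ℝ) :=
    h1.isClosed.isOpen_compl.mem_nhds (by simp)
  have h3 : ∀ᶠ s : ℝ in 𝓝[>] 0, s ∈ (F \ {0})ᶜ := nhdsWithin_le_nhds h2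
  have h4 : ∀ᶠ s : ℝ in 𝓝[>] 0, 0 < s := self_mem_nhdsWithin
  filter_upwards [h3, h4] with s hs hs0 hsF
  exact hs ⟨hsF, by simpa using hs0.ne'⟩

/-- the perturbing vectors -/
def g {N : ℕ} (i : Fin N) : R3 := ![1, (i : ℝ), (i : ℝ) ^ 2]

/-- the perturbed vector -/
def w {N : ℕ} (θ : Fin N → R3) (s : ℝ) (i : Fin N) : R3 := fun k => θ i k + s * g i k

lemma de_cubic {N : ℕ} (θ : Fin N → R3) (i j k : Fin N) :
    ∃ a b c : ℝ, ∀ s : ℝ, de (w θ s i) (w θ s j) (w θ s k) =
      a + b * s + c * s ^ 2 + (((j : ℝ) - i) * ((k : ℝ) - i) * ((k : ℝ) - j)) * s ^ 3 := by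
  refine ⟨de (θ i) (θ j) (θ k),
    de (g i) (θ j) (θ k) + de (θ i) (g j) (θ k) + de (θ i) (θ j) (g k),
    de (g i) (g j) (θ k) + de (g i) (θ j) (g k) + de (θ i) (g j) (g k), ?_⟩
  intro s
  simp only [de, dt, cr, w, g, Matrix.cons_val_zero, Matrix.cons_val_one, Matrix.cons_val]
  ring

lemma de_smul (a b c : ℝ) (x y z : R3) :
    de (fun k => x k * a) (fun k => y k * b) (fun k => z k * c) = a * b * c * de x y z := by
  simp only [de, dt, cr, Matrix.cons_val_zero, Matrix.cons_val_one, Matrix.cons_val]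
  ring

lemma w_cont {N : ℕ} (θ : Fin N → R3) (i : Fin N) (k : Fin 3) :
    Continuous fun s : ℝ => w θ s i k := by
  unfold w
  exact continuous_const.add (continuous_id.mul continuous_const)

lemma nn_cont {N : ℕ} (θ : Fin N → R3) (i : Fin N) :
    Continuous fun s : ℝ => dt (w θ s i) (w θ s i) := by
  unfold dt
  exact (((w_cont θ i 0).mul (w_cont θ i 0)).add ((w_cont θ i 1).mul (w_cont θ i 1))).add
    ((w_cont θ i 2).mul (w_cont θ i 2))

lemma w_zero {N : ℕ} (θ : Fin N → R3) (i : Fin N) : w θ 0 i = θ i := by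
  funext k
  simp [w]

end GPD_

open GPD_ in
theorem stmt_GPD : Stmt_GPD := by
  intro N θ hN hθ η hη
  -- independence for small positive `s`
  have hA : ∀ᶠ s : ℝ in 𝓝[>] 0, ∀ i j k : Fin N, i ≠ j → i ≠ k → j ≠ k →
      de (w θ s i) (w θ s j) (w θ s k) ≠ 0 := by
    rw [Filter.eventually_all]; intro i
    rw [Filter.eventually_all]; intro j
    rw [Filter.eventually_all]; intro k
    by_cases hij : i ≠ j
    swap
    · exact Filter.Eventually.of_forall fun s h => absurd h hij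
    by_cases hik : i ≠ k
    swap
    · exact Filter.Eventually.of_forall fun s _ h => absurd h hik
    by_cases hjk : j ≠ k
    swap
    · exact Filter.Eventually.of_forall fun s _ _ h => absurd h hjk
    obtain ⟨a, b, c, habc⟩ := de_cubic θ i j k
    have hd : ((j : ℝ) - i) * ((k : ℝ) - i) * ((k : ℝ) - j) ≠ 0 := by
      refine mul_ne_zero (mul_ne_zero ?_ ?_) ?_
      · rw [sub_ne_zero]
        exact fun h => hij (Fin.ext (by exact_mod_cast h.symm))
      · rw [sub_ne_zero]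
        exact fun h => hik (Fin.ext (by exact_mod_cast h.symm))
      · rw [sub_ne_zero]
        exact fun h => hjk (Fin.ext (by exact_mod_cast h.symm))
    filter_upwards [ev_not_mem _ (cubic_finite a b c _ hd)] with s hs _ _ _ h0
    apply hs
    rw [habc s] at h0
    exact h0
  -- positive norms
  have hB : ∀ᶠ s : ℝ in 𝓝[>] 0, ∀ i : Fin N, 0 < dt (w θ s i) (w θ s i) := by
    rw [Filter.eventually_all]; intro i
    have h1 : Tendsto (fun s : ℝ => dt (w θ s i) (w θ s i)) (𝓝 0) (𝓝 1) := by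
      have := (nn_cont θ i).tendsto 0
      rwa [w_zero, hθ] at this
    exact nhdsWithin_le_nhds (h1.eventually (lt_mem_nhds one_pos))
  -- closeness
  have hC : ∀ᶠ s : ℝ in 𝓝[>] 0, ∀ (i : Fin N) (k : Fin 3),
      |w θ s i k * (Real.sqrt (dt (w θ s i) (w θ s i)))⁻¹ - θ i k| < η := by
    rw [Filter.eventually_all]; intro i
    rw [Filter.eventually_all]; intro k
    have h1 : Tendsto (fun s : ℝ => w θ s i k * (Real.sqrt (dt (w θ s i) (w θ s i)))⁻¹ - θ i k)
        (𝓝 0) (𝓝 (θ i k * (Real.sqrt 1)⁻¹ - θ i k)) := by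
      have ha : Tendsto (fun s : ℝ => w θ s i k) (𝓝 0) (𝓝 (θ i k)) := by
        have := (w_cont θ i k).tendsto 0
        rwa [w_zero] at this
      have hb : Tendsto (fun s : ℝ => dt (w θ s i) (w θ s i)) (𝓝 0) (𝓝 1) := by
        have := (nn_cont θ i).tendsto 0
        rwa [w_zero, hθ] at this
      have hc : Tendsto (fun s : ℝ => Real.sqrt (dt (w θ s i) (w θ s i))) (𝓝 0)
          (𝓝 (Real.sqrt 1)) := (Real.continuous_sqrt.tendsto 1).comp hb
      exact (ha.mul (hc.inv₀ (by simp))).sub tendsto_const_nhds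
    simp only [Real.sqrt_one, inv_one, mul_one, sub_self] at h1
    have h2 := h1.abs
    rw [abs_zero] at h2
    exact nhdsWithin_le_nhds (h2.eventually (gt_mem_nhds hη))
  obtain ⟨s, hsA, hsB, hsC⟩ := (hA.and (hB.and hC)).exists
  refine ⟨fun i k => w θ s i k * (Real.sqrt (dt (w θ s i) (w θ s i)))⁻¹, ⟨?_, ?_, ?_⟩, hsC⟩
  · intro i
    have h1 := hsB i
    have h2 := Real.mul_self_sqrt h1.le
    have h3 : Real.sqrt (dt (w θ s i) (w θ s i)) ≠ 0 := (Real.sqrt_pos.mpr h1).ne'
    have h4 : dt (fun k => w θ s i k * (Real.sqrt (dt (w θ s i) (w θ s i)))⁻¹)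
        (fun k => w θ s i k * (Real.sqrt (dt (w θ s i) (w θ s i)))⁻¹) =
        dt (w θ s i) (w θ s i) * ((Real.sqrt (dt (w θ s i) (w θ s i)))⁻¹ *
          (Real.sqrt (dt (w θ s i) (w θ s i)))⁻¹) := by
      simp only [dt]; ring
    rw [h4, ← mul_inv, h2]
    exact mul_inv_cancel₀ h1.ne'
  · intro i j k hij hik hjk
    rw [de_smul]
    have hp : ∀ i : Fin N, (Real.sqrt (dt (w θ s i) (w θ s i)))⁻¹ ≠ 0 := fun i =>
      inv_ne_zero (Real.sqrt_pos.mpr (hsB i)).ne'
    exact mul_ne_zero (mul_ne_zero (mul_ne_zero (hp i) (hp j)) (hp k)) (hsA i j k hij hik hjk)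
  · refine ⟨⟨0, by omega⟩, ⟨1, by omega⟩, ⟨2, by omega⟩, ?_, ?_, ?_⟩ <;>
      simp [Fin.ext_iff]

end Pool.T3
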