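import Pool.Agent.Work.MP_b5407d_t3.Interface

/-!
# MP_b5407d_t3: block BND
-/

set_option autoImplicit false

open MeasureTheory Set Filter Topology

namespace Pool.T3

theorem BND_dt_cont (a : R3) : Continuous (fun x : R3 => dt a x) := by
  unfold dt
  fun_prop

/-- Cramer's rule. -/
theorem BND_cramer (a b c x : R3) (l : Fin 3) :
    de a b c * x l = dt a x * cr b c l + dt b x * cr c a l + dt c x * cr a b l := by
  fin_cases l <;>
  · simp [de, dt, cr]
    ring

theorem stmt_BND : Stmt_BND := by
  intro ι _ u hu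
  obtain ⟨i, j, k, hij, hik, hjk⟩ := hu.three
  have hd := hu.ind i j k hij hik hjk
  set B : ℝ := ∑ l : Fin 3, (|cr (u j) (u k) l| + |cr (u k) (u i) l| + |cr (u i) (u j) l|) with hB
  have hB0 : 0 ≤ B := by positivity
  -- bound of the coordinates
  have hbd : ∀ (h : ι → ℝ) (M : ℝ), (∀ i, h i ≤ M) → ∀ x ∈ K u h, ∀ l,
      |x l| ≤ (B + 1) / |de (u i) (u j) (u k)| * M := by
    intro h M hM x hx l
    have hxi : |dt (u i) x| ≤ M := (hx i).trans (hM i)
    have hxj : |dt (u j) x| ≤ M := (hx j).trans (hM j)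
    have hxk : |dt (u k) x| ≤ M := (hx k).trans (hM k)
    have hM0 : 0 ≤ M := (abs_nonneg _).trans hxi
    have hc := BND_cramer (u i) (u j) (u k) x l
    have hle : |cr (u j) (u k) l| + |cr (u k) (u i) l| + |cr (u i) (u j) l| ≤ B := by
      rw [hB]
      exact Finset.single_le_sum (f := fun l : Fin 3 =>
        |cr (u j) (u k) l| + |cr (u k) (u i) l| + |cr (u i) (u j) l|)
        (fun l _ => by positivity) (Finset.mem_univ l)
    have h1 : |de (u i) (u j) (u k)| * |x l| ≤ (B + 1) * M := by
      rw [← abs_mul, hc]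
      have t1 := abs_add_le (dt (u i) x * cr (u j) (u k) l + dt (u j) x * cr (u k) (u i) l)
        (dt (u k) x * cr (u i) (u j) l)
      have t2 := abs_add_le (dt (u i) x * cr (u j) (u k) l) (dt (u j) x * cr (u k) (u i) l)
      rw [abs_mul] at t1
      rw [abs_mul, abs_mul] at t2
      have s1 := mul_le_mul_of_nonneg_right hxi (abs_nonneg (cr (u j) (u k) l))
      have s2 := mul_le_mul_of_nonneg_right hxj (abs_nonneg (cr (u k) (u i) l))
      have s3 := mul_le_mul_of_nonneg_right hxk (abs_nonneg (cr (u i) (u j) l))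
      have s4 : M * (|cr (u j) (u k) l| + |cr (u k) (u i) l| + |cr (u i) (u j) l|) ≤ M * B :=
        mul_le_mul_of_nonneg_left hle hM0
      linarith
    have hp : 0 < |de (u i) (u j) (u k)| := abs_pos.2 hd
    have e : (B + 1) / |de (u i) (u j) (u k)| * M = (B + 1) * M / |de (u i) (u j) (u k)| := by
      ring
    rw [e, le_div_iff₀ hp]
    linarith
  have hp : 0 < |de (u i) (u j) (u k)| := abs_pos.2 hd
  have hclosed : ∀ h : ι → ℝ, IsClosed (K u h) := by
    intro h
    have e : K u h = ⋂ i, {x : R3 | |dt (u i) x| ≤ h i} := by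
      ext x
      simp [K]
    rw [e]
    exact isClosed_iInter fun i => isClosed_le (BND_dt_cont (u i)).abs continuous_const
  refine ⟨fun h => ⟨?_, ?_⟩, (B + 1) / |de (u i) (u j) (u k)|, by positivity, hbd⟩
  · -- compact
    set M : ℝ := ∑ i, |h i| with hM
    have hMi : ∀ i, h i ≤ M := fun i => (le_abs_self _).trans
      (Finset.single_le_sum (f := fun i => |h i|) (fun i _ => abs_nonneg _) (Finset.mem_univ i))
    refine Metric.isCompact_of_isClosed_isBounded (hclosed h) ?_
    refine (Metric.isBounded_closedBall (x := (0 : R3))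
      (r := (B + 1) / |de (u i) (u j) (u k)| * M)).subset ?_
    intro x hx
    rw [mem_closedBall_zero_iff]
    have h0 : 0 ≤ (B + 1) / |de (u i) (u j) (u k)| * M :=
      (abs_nonneg (x 0)).trans (hbd h M hMi x hx 0)
    refine (pi_norm_le_iff_of_nonneg h0).2 fun l => ?_
    rw [Real.norm_eq_abs]
    exact hbd h M hMi x hx l
  · -- convex
    intro x hx y hy a b ha hb hab i
    have e : dt (u i) (a • x + b • y) = a * dt (u i) x + b * dt (u i) y := by
      simp only [dt, Pi.add_apply, Pi.smul_apply, smul_eq_mul]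
      ring
    rw [e]
    calc |a * dt (u i) x + b * dt (u i) y| ≤ |a * dt (u i) x| + |b * dt (u i) y| := abs_add_le _ _
      _ = a * |dt (u i) x| + b * |dt (u i) y| := by
          rw [abs_mul, abs_mul, abs_of_nonneg ha, abs_of_nonneg hb]
      _ ≤ a * h i + b * h i :=
          add_le_add (mul_le_mul_of_nonneg_left (hx i) ha) (mul_le_mul_of_nonneg_left (hy i) hb)
      _ = h i := by rw [← add_mul, hab, one_mul]

end Pool.T3
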