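import Pool.Agent.Work.MP_b5407d_t3.Interface

/-!
`COO`: coordinates `(α, β, c)` with Jacobian one.
-/

set_option autoImplicit false

open MeasureTheory Set Filter Topology

namespace Pool.T3

namespace COO_

theorem dt_self_pos {t : R3} (ht : t ≠ 0) : 0 < dt t t := by
  have h : t 0 ≠ 0 ∨ t 1 ≠ 0 ∨ t 2 ≠ 0 := by
    by_contra hc
    push Not at hc
    apply ht
    funext i
    fin_cases i
    · exact hc.1
    · exact hc.2.1
    · exact hc.2.2
  have h0 := mul_self_nonneg (t 0)
  have h1 := mul_self_nonneg (t 1)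
  have h2 := mul_self_nonneg (t 2)
  unfold dt
  rcases h with h | h | h
  · have := mul_self_pos.2 h
    linarith
  · have := mul_self_pos.2 h
    linarith
  · have := mul_self_pos.2 h
    linarith

theorem dt_add_smul (a x y : R3) (c : ℝ) : dt a (x + c • y) = dt a x + c * dt a y := by
  simp [dt]; ring

theorem dt_smul (a x : R3) (c : ℝ) : dt a (c • x) = c * dt a x := by
  simp [dt]; ring

theorem dt_pt {ι : Type} (u : ι → R3) (i j : ι) (a : R3) (α β : ℝ) : dt a (pt u i j α β) =
    (1 / dt (cr (u i) (u j)) (cr (u i) (u j))) *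
      (α * dt a (cr (u j) (cr (u i) (u j))) + β * dt a (cr (cr (u i) (u j)) (u i))) := by
  unfold pt
  rw [dt_smul]
  congr 1
  simp [dt]; ring

theorem id1 (a b : R3) : dt a (cr b (cr a b)) = dt (cr a b) (cr a b) := by
  simp [dt, cr]; ring

theorem id2 (a b : R3) : dt a (cr (cr a b) a) = 0 := by
  simp [dt, cr]; ring

theorem id3 (a b : R3) : dt b (cr b (cr a b)) = 0 := by
  simp [dt, cr]; ring

theorem id4 (a b : R3) : dt b (cr (cr a b) a) = dt (cr a b) (cr a b) := by
  simp [dt, cr]; ring

theorem id5 (a b : R3) : dt a (cr a b) = 0 := by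
  simp [dt, cr]; ring

theorem id6 (a b : R3) : dt b (cr a b) = 0 := by
  simp [dt, cr]; ring

theorem id7 (a b t : R3) : dt t (cr (cr b t) (cr t a)) =
    dt t t * dt a (cr b t) := by
  simp [dt, cr]; ring

/-- The matrix with columns `a`, `b`, `t`. -/
def mat (a b t : R3) : Matrix (Fin 3) (Fin 3) ℝ := Matrix.of fun k l => ![a k, b k, t k] l

theorem det_mat (a b t : R3) : (mat a b t).det = dt t (cr a b) := by
  simp [mat, Matrix.det_fin_three, dt, cr]; ring

theorem dt_cr_smul (t a b : R3) (c d : ℝ) : dt t (cr (c • a) (d • b)) = c * d * dt t (cr a b) := by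
  simp [dt, cr]; ring

/-- `ℝ × ℝ × ℝ` and `Fin 3 → ℝ`. -/
def eq3 (p : ℝ × ℝ × ℝ) : R3 := ![p.1, p.2.1, p.2.2]

theorem mp_eq3 : MeasurePreserving eq3 volume volume := by
  have h1 : MeasurePreserving (MeasurableEquiv.piFinTwo fun _ : Fin 2 => ℝ).symm volume volume :=
    (volume_preserving_piFinTwo fun _ : Fin 2 => ℝ).symm
  have h2 : MeasurePreserving (Prod.map (id : ℝ → ℝ)
      (MeasurableEquiv.piFinTwo fun _ : Fin 2 => ℝ).symm)
      (volume : Measure (ℝ × ℝ × ℝ)) (volume : Measure (ℝ × (Fin 2 → ℝ))) :=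
    (MeasurePreserving.id (volume : Measure ℝ)).prod h1
  have h3 : MeasurePreserving (MeasurableEquiv.piFinSuccAbove (fun _ : Fin 3 => ℝ) 0).symm
      (volume : Measure (ℝ × (Fin 2 → ℝ))) (volume : Measure (Fin 3 → ℝ)) :=
    (volume_preserving_piFinSuccAbove (fun _ : Fin 3 => ℝ) 0).symm
  have h4 := h3.comp h2
  have h5 : (⇑(MeasurableEquiv.piFinSuccAbove (fun _ : Fin 3 => ℝ) 0).symm ∘
      (Prod.map (id : ℝ → ℝ) (MeasurableEquiv.piFinTwo fun _ : Fin 2 => ℝ).symm)) = eq3 := by
    funext p i
    fin_cases i <;> rfl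
  rw [h5] at h4
  exact h4

theorem mp_mat {M : Matrix (Fin 3) (Fin 3) ℝ} (hM : M.det = 1) :
    MeasurePreserving (Matrix.toLin' M) (volume : Measure R3) volume := by
  refine ⟨(Matrix.toLin' M).continuous_of_finiteDimensional.measurable, ?_⟩
  rw [Real.map_matrix_volume_pi_eq_smul_volume_pi (by rw [hM]; exact one_ne_zero), hM]
  simp

end COO_

open COO_ in
theorem stmt_COO : Stmt_COO := by
  refine ⟨fun ι u i j ht => ?_, fun ι u i j hu hij h0 => ?_⟩
  · have hN := dt_self_pos ht
    refine ⟨?_, fun α β c => ⟨?_, ?_, fun m => ?_⟩⟩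
    · set t := cr (u i) (u j) with ht'
      set N := dt t t with hN'
      have hd : (mat ((1 / N) • cr (u j) t) ((1 / N) • cr t (u i)) t).det = 1 := by
        rw [det_mat, dt_cr_smul, id7, ← hN', ht', id1, ← ht', ← hN']
        field_simp
      have h := (mp_mat hd).comp mp_eq3
      have e : (⇑(Matrix.toLin' (mat ((1 / N) • cr (u j) t) ((1 / N) • cr t (u i)) t)) ∘ eq3) =
          fun p : ℝ × ℝ × ℝ => pt u i j p.1 p.2.1 + p.2.2 • t := by
        funext p k
        simp only [Function.comp_apply, Matrix.toLin'_apply, Matrix.mulVec, dotProduct,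
          Fin.sum_univ_three, mat, Matrix.of_apply, eq3, pt, Pi.add_apply, Pi.smul_apply,
          smul_eq_mul, Matrix.cons_val_zero, Matrix.cons_val_one, Matrix.cons_val]
        rw [← ht', ← hN']
        ring
      rw [e] at h
      exact h
    · rw [dt_add_smul, dt_pt, id1, id2, id5]
      field_simp
      ring
    · rw [dt_add_smul, dt_pt, id3, id4, id6]
      field_simp
      ring
    · rw [dt_add_smul]
      have : dt (u m) (cr (u i) (u j)) = de (u i) (u j) (u m) := by
        simp [de, dt]; ring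
      rw [this]
  · obtain ⟨a, b, c, hab, hac, hbc⟩ := hu.three
    have hk : ∃ k, i ≠ k ∧ j ≠ k := by
      by_contra hcon
      push Not at hcon
      have h1 := hcon a
      have h2 := hcon b
      have h3 := hcon c
      by_cases ia : i = a
      · by_cases ib : i = b
        · exact hab (ia.symm.trans ib)
        · have jb := h2 ib
          by_cases ic : i = c
          · exact hac (ia.symm.trans ic)
          · exact hbc (jb.symm.trans (h3 ic))
      · have ja := h1 ia
        by_cases ib : i = b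
        · by_cases ic : i = c
          · exact hbc (ib.symm.trans ic)
          · exact hac (ja.symm.trans (h3 ic))
        · exact hab (ja.symm.trans (h2 ib))
    obtain ⟨k, hik, hjk⟩ := hk
    refine hu.ind i j k hij hik hjk ?_
    unfold de
    rw [h0]
    simp [dt]

end Pool.T3
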