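import Pool.Agent.Work.MP_b5407d_t3.Interface

/-!
# Block DV1: the volume is continuously differentiable on the open orthant
-/

set_option autoImplicit false

open MeasureTheory Set Filter Topology

namespace Pool.T3

theorem DV1_.aux {ι : Type} [Fintype ι] (L : ℝ → ℝ → (ι → ℝ) → ℝ)
    (hL : Continuous (fun p : ℝ × ℝ × (ι → ℝ) => L p.1 p.2.1 p.2.2)) (i j : ι) :
    Continuous (fun h : ι → ℝ => 2 * (h j * ∫ τ in (-1 : ℝ)..1, L (h i) (h j * τ) h)) := by
  refine continuous_const.mul ((continuous_apply j).mul ?_)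
  have h2 : Continuous (fun p : (ι → ℝ) × ℝ => ((p.1 i, p.1 j * p.2, p.1) :
      ℝ × ℝ × (ι → ℝ))) := by fun_prop
  have h3 : Continuous (Function.uncurry fun (h : ι → ℝ) (τ : ℝ) => L (h i) (h j * τ) h) :=
    hL.comp h2
  exact intervalIntegral.continuous_parametric_intervalIntegral_of_continuous' h3 _ _

theorem stmt_DV1 (hSF : Stmt_SF) (hLAMC : Stmt_LAMC) (hPAR : Stmt_PAR) : Stmt_DV1 := by
  intro ι _ _ u hu
  have hother : ∀ i : ι, ∃ j, i ≠ j := by
    intro i
    obtain ⟨a, b, c, hab, hac, hbc⟩ := hu.three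
    by_cases h : i = a
    · exact ⟨b, by rw [h]; exact hab⟩
    · exact ⟨a, h⟩
  have hcont : ∀ i, ContinuousOn (fun h => S u h i) {h | Pos h} := by
    intro i
    obtain ⟨j, hij⟩ := hother i
    have hL := (hLAMC ι u hu i j hij).1
    have h1 : Continuous (fun h : ι → ℝ =>
        2 * (h j * ∫ τ in (-1 : ℝ)..1, Lam u i j (h i) (h j * τ) h)) := by
      exact DV1_.aux (fun α β h => Lam u i j α β h) hL i j
    refine h1.continuousOn.congr fun h hh => ?_
    have h3 := (hSF ι u hu i j hij h hh).2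
    have h4 := intervalIntegral.mul_integral_comp_mul_left (a := (-1 : ℝ)) (b := 1)
      (f := fun β => Lam u i j (h i) β h) (h j)
    show S u h i = 2 * (h j * ∫ τ in (-1 : ℝ)..1, Lam u i j (h i) (h j * τ) h)
    rw [h3, h4, mul_neg_one, mul_one]
  refine ⟨hcont, hPAR ι (V u) (fun i h => S u h i) (fun h hh i => ?_) hcont⟩
  obtain ⟨j, hij⟩ := hother i
  obtain ⟨h1, h2⟩ := hSF ι u hu i j hij h hh
  show HasDerivAt (fun s => V u (Function.update h i s)) (S u h i) (h i)
  rw [h2]
  exact h1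

end Pool.T3
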