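import Pool.Agent.Work.MP_b5407d_t3.Interface

/-!
# MP_b5407d, block DVS: the volume is twice continuously differentiable
-/

set_option autoImplicit false

open MeasureTheory Set Filter Topology

namespace Pool.T3

namespace DVS_

variable {ι : Type} [Fintype ι]

theorem lin_apply (a f : ι → ℝ) : lin a f = ∑ i, a i * f i := by
  unfold lin
  simp

theorem lin_single [DecidableEq ι] (a : ι → ℝ) (i : ι) : lin a (Pi.single i (1 : ℝ)) = a i := by
  rw [lin_apply]
  simp [Pi.single_apply]

/-- Euler relation of a homogeneous differentiable function -/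
theorem euler {g : (ι → ℝ) → ℝ} {a h : ι → ℝ} {k : ℕ} (hg : HasFDerivAt g (lin a) h)
    (hh : ∀ c : ℝ, 0 < c → g (c • h) = c ^ k * g h) : ∑ i, a i * h i = k * g h := by
  have h1 : HasFDerivAt g (lin a) ((1 : ℝ) • h) := by rwa [one_smul]
  have h2 : HasDerivAt (fun c : ℝ => c • h) h 1 := by
    have h3 : HasDerivAt (fun c : ℝ => c • h) ((1 : ℝ) • h) 1 := (hasDerivAt_id (1 : ℝ)).smul_const h
    rwa [one_smul] at h3
  have h3 : HasDerivAt (fun c : ℝ => g (c • h)) (lin a h) 1 := h1.comp_hasDerivAt (1 : ℝ) h2
  have h4 : HasDerivAt (fun c : ℝ => c ^ k * g h) ((k : ℝ) * 1 ^ (k - 1) * g h) 1 :=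
    (hasDerivAt_pow k (1 : ℝ)).mul_const (g h)
  have h5 : (fun c : ℝ => g (c • h)) =ᶠ[𝓝 1] (fun c : ℝ => c ^ k * g h) := by
    filter_upwards [lt_mem_nhds (show (0 : ℝ) < 1 by norm_num)] with c hc
    exact hh c hc
  have h6 := h3.unique (h4.congr_of_eventuallyEq h5)
  rw [lin_apply] at h6
  rw [h6, one_pow, mul_one]

/-- coordinate derivative from the Frechet derivative -/
theorem coord [DecidableEq ι] {g : (ι → ℝ) → ℝ} {a h : ι → ℝ} (hg : HasFDerivAt g (lin a) h)
    (i : ι) : HasDerivAt (fun s => g (Function.update h i s)) (a i) (h i) := by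
  have h1 : HasFDerivAt g (lin a) (Function.update h i (h i)) := by
    rwa [Function.update_eq_self]
  have h2 : HasDerivAt (fun s : ℝ => Function.update h i s) (Pi.single i (1 : ℝ)) (h i) :=
    hasDerivAt_update h i (h i)
  have h3 := h1.comp_hasDerivAt (h i) h2
  rw [lin_single] at h3
  exact h3

theorem posSmul {h : ι → ℝ} (hp : Pos h) {c : ℝ} (hc : 0 < c) : Pos (c • h) := by
  intro i
  exact mul_pos hc (hp i)

end DVS_

open DVS_ in
theorem stmt_DVS (hHOM : Stmt_HOM) (hDV1 : Stmt_DV1) (hHF : Stmt_HF) (hLAMC : Stmt_LAMC)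
    (hPARH : Stmt_PARH) : Stmt_DVS := by
  intro ι _ _ u hu
  obtain ⟨cS, dV⟩ := hDV1 ι u hu
  have hHij : ∀ i j, i ≠ j → ∀ h, Pos h → H u h i j =
      2 * (Lam u i j (h i) (h j) h + Lam u i j (h i) (-h j) h) :=
    fun i j hij h hp => (hHF ι u hu i j hij h hp).2
  have hdH : ∀ i j, i ≠ j → ∀ h, Pos h →
      HasDerivAt (fun s => S u (Function.update h j s) i) (H u h i j) (h j) := by
    intro i j hij h hp
    rw [hHij i j hij h hp]
    exact (hHF ι u hu i j hij h hp).1
  -- continuity of the mixed derivatives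
  have cH : ∀ i j, i ≠ j → ContinuousOn (fun h => H u h i j) {h | Pos h} := by
    intro i j hij
    have hL := (hLAMC ι u hu i j hij).1
    have h1 : Continuous (fun h : ι → ℝ => Lam u i j (h i) (h j) h) :=
      hL.comp (f := fun h : ι → ℝ => (h i, h j, h)) (by fun_prop)
    have h2 : Continuous (fun h : ι → ℝ => Lam u i j (h i) (-h j) h) :=
      hL.comp (f := fun h : ι → ℝ => (h i, -h j, h)) (by fun_prop)
    refine ((h1.add h2).const_mul 2).continuousOn.congr ?_
    intro h hp
    exact hHij i j hij h hp
  -- symmetry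
  have hsym : ∀ h, Pos h → ∀ i j, H u h i j = H u h j i := by
    intro h hp i j
    by_cases hij : i = j
    · rw [hij]
    · obtain ⟨-, -, hsw, hng, -, -⟩ := hLAMC ι u hu i j hij
      rw [hHij i j hij h hp, hHij j i (Ne.symm hij) h hp]
      have e1 : Lam u j i (h j) (h i) h = Lam u i j (h i) (h j) h := hsw (h i) (h j) h
      have e2 : Lam u j i (h j) (-h i) h = Lam u i j (-h i) (h j) h := hsw (-h i) (h j) h
      have e3 : Lam u i j (-h i) (h j) h = Lam u i j (h i) (-h j) h := by
        have := hng (h i) (-h j) h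
        rw [neg_neg] at this
        exact this
      rw [e1, e2, e3]
  -- the derivative of `S i`
  have hS2 : ∀ i, ∀ h, Pos h → HasFDerivAt (fun h => S u h i)
      (lin (fun j => if j = i then
        (2 * S u h i - ∑ j ∈ Finset.univ.erase i, h j * H u h i j) / h i else H u h i j)) h := by
    intro i
    refine hPARH ι (fun h => S u h i) (fun j h => if j = i then
        (2 * S u h i - ∑ j ∈ Finset.univ.erase i, h j * H u h i j) / h i else H u h i j) i
        ?_ ?_ ?_ ?_
    · intro h hp j hj
      simp only [if_neg hj]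
      exact hdH i j (Ne.symm hj) h hp
    · intro j hj
      simp only [if_neg hj]
      exact cH i j (Ne.symm hj)
    · intro h hp c hc
      exact (hHOM ι u hu h hp c hc).2.1 i
    · intro h hp
      simp only [if_true]
      rw [mul_div_cancel₀ _ (hp i).ne']
      congr 1
      refine Finset.sum_congr rfl fun j hj => ?_
      rw [if_neg (Finset.ne_of_mem_erase hj)]
  have hHii : ∀ i, ∀ h, Pos h → H u h i i =
      (2 * S u h i - ∑ j ∈ Finset.univ.erase i, h j * H u h i j) / h i := by
    intro i h hp
    have h1 := coord (hS2 i h hp) i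
    simp only [if_true] at h1
    exact h1.deriv
  have hfun : ∀ i, ∀ h, Pos h → (fun j => if j = i then
        (2 * S u h i - ∑ j ∈ Finset.univ.erase i, h j * H u h i j) / h i else H u h i j)
        = H u h i := by
    intro i h hp
    funext j
    by_cases hj : j = i
    · rw [if_pos hj, hj, hHii i h hp]
    · rw [if_neg hj]
  have dS : ∀ h, Pos h → ∀ i, HasFDerivAt (fun h => S u h i) (lin (H u h i)) h := by
    intro h hp i
    have h1 := hS2 i h hp
    rw [hfun i h hp] at h1
    exact h1
  refine ⟨dV, dS, ?_, hsym, ?_, ?_⟩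
  · intro i j
    by_cases hij : i = j
    · subst hij
      have h1 : ContinuousOn (fun h : ι → ℝ =>
          (2 * S u h i - ∑ j ∈ Finset.univ.erase i, h j * H u h i j) / h i) {h | Pos h} := by
        refine ContinuousOn.div ?_ (continuous_apply i).continuousOn fun h hp => (hp i).ne'
        refine ContinuousOn.sub (continuousOn_const.mul (cS i)) ?_
        refine continuousOn_finsetSum _ fun j hj => ?_
        exact (continuous_apply j).continuousOn.mul (cH i j (Finset.ne_of_mem_erase hj).symm)
      exact h1.congr fun h hp => hHii i h hp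
    · exact cH i j hij
  · intro h hp
    have h1 := euler (k := 3) (dV h hp) fun c hc => (hHOM ι u hu h hp c hc).1
    rw [h1]
    norm_num
  · intro h hp i
    have h1 := euler (k := 2) (dS h hp i) fun c hc => (hHOM ι u hu h hp c hc).2.1 i
    rw [h1]
    norm_num

end Pool.T3
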