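import Pool.Agent.Work.MP_b5407d_t3.Interface

/-!
# MP_b5407d_gt, block HF: mixed second derivatives of the volume
-/

set_option autoImplicit false

open MeasureTheory Set Filter Topology

namespace Pool.T3

namespace HF_

lemma sym_deriv {G : ℝ → ℝ} (hG : Continuous G) (s : ℝ) :
    HasDerivAt (fun s => ∫ x in (-s)..s, G x) (G s + G (-s)) s := by
  have h1 : (fun s => ∫ x in (-s)..s, G x) =
      fun s => (∫ x in (0 : ℝ)..s, G x) - ∫ x in (0 : ℝ)..(-s), G x := by
    funext s
    rw [intervalIntegral.integral_interval_sub_left (hG.intervalIntegrable _ _)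
      (hG.intervalIntegrable _ _)]
  rw [h1]
  have h2 := (hG.integral_hasStrictDerivAt 0 s).hasDerivAt
  have h3 : HasDerivAt (fun s => ∫ x in (0 : ℝ)..(-s), G x) (G (-s) * (-1)) s :=
    HasDerivAt.comp s (hG.integral_hasStrictDerivAt 0 (-s)).hasDerivAt (hasDerivAt_neg s)
  have h4 := h2.sub h3
  rw [show G s - G (-s) * (-1) = G s + G (-s) by ring] at h4
  exact h4

end HF_

theorem stmt_HF (hSF : Stmt_SF) (hLAMC : Stmt_LAMC) : Stmt_HF := by
  intro ι _ _ u hu i j hij h hh
  obtain ⟨hc, -, -, -, hdep, -⟩ := hLAMC ι u hu i j hij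
  set G : ℝ → ℝ := fun β => Lam u i j (h i) β h with hG
  have hGc : Continuous G := by
    have h1 : Continuous (fun β : ℝ => ((h i, β, h) : ℝ × ℝ × (ι → ℝ))) := by fun_prop
    have h2 := hc.comp h1
    simp only [Function.comp_def] at h2
    exact h2
  have hD : HasDerivAt (fun s => S u (Function.update h j s) i)
      (2 * (Lam u i j (h i) (h j) h + Lam u i j (h i) (-h j) h)) (h j) := by
    have h1 := (HF_.sym_deriv hGc (h j)).const_mul 2
    refine h1.congr_of_eventuallyEq ?_
    filter_upwards [lt_mem_nhds (hh j)] with s hs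
    have hp : Pos (Function.update h j s) := by
      intro m
      by_cases hm : m = j
      · subst hm; rw [Function.update_self]; exact hs
      · rw [Function.update_of_ne hm]; exact hh m
    rw [(hSF ι u hu i j hij (Function.update h j s) hp).2, Function.update_self,
      Function.update_of_ne hij]
    congr 1
    refine intervalIntegral.integral_congr (fun β _ => ?_)
    refine hdep (h i) β _ _ (fun m _ hm => ?_)
    rw [Function.update_of_ne hm]
  exact ⟨hD, hD.deriv⟩

end Pool.T3
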