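import Pool.Agent.Work.MP_b5407d_t3.Interface

set_option autoImplicit false

open MeasureTheory Set Filter Topology
open scoped Pointwise

namespace Pool.T3

namespace HOM_

variable {ι : Type}

lemma dt_smul (a x : R3) (c : ℝ) : dt a (c • x) = c * dt a x := by
  unfold dt
  simp only [Pi.smul_apply, smul_eq_mul]
  ring

lemma K_smul (u : ι → R3) (h : ι → ℝ) (c : ℝ) (hc : 0 < c) : K u (c • h) = c • K u h := by
  have hcc : c ≠ 0 := hc.ne'
  ext x
  rw [Set.mem_smul_set_iff_inv_smul_mem₀ hcc]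
  unfold K
  simp only [Set.mem_ofPred_eq]
  refine forall_congr' (fun i => ?_)
  rw [dt_smul, abs_mul, abs_of_pos (inv_pos.2 hc), Pi.smul_apply, smul_eq_mul,
    inv_mul_le_iff₀ hc]

lemma V_smul (u : ι → R3) (h : ι → ℝ) (c : ℝ) (hc : 0 < c) : V u (c • h) = c ^ 3 * V u h := by
  unfold V
  rw [K_smul u h c hc, Measure.addHaar_smul, ENNReal.toReal_mul]
  have e : Module.finrank ℝ R3 = 3 := by
    simp
  rw [e, abs_of_pos (by positivity), ENNReal.toReal_ofReal (by positivity)]

lemma dcomp (f : ℝ → ℝ) (c x : ℝ) (hc : 0 < c) :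
    deriv (fun s => f (c⁻¹ * s)) (c * x) = c⁻¹ * deriv f x := by
  have h := deriv_comp_mul_left c⁻¹ f (c * x)
  rw [inv_mul_cancel_left₀ hc.ne', smul_eq_mul] at h
  exact h

lemma upd [DecidableEq ι] (h : ι → ℝ) (c : ℝ) (hc : 0 < c) (i : ι) (s : ℝ) :
    Function.update (c • h) i s = c • Function.update h i (c⁻¹ * s) := by
  ext j
  rcases eq_or_ne j i with h1 | h1
  · subst h1
    rw [Function.update_self, Pi.smul_apply, Function.update_self, smul_eq_mul]
    field_simp
  · rw [Function.update_of_ne h1, Pi.smul_apply, Pi.smul_apply, Function.update_of_ne h1]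

lemma S_smul [DecidableEq ι] (u : ι → R3) (h : ι → ℝ) (c : ℝ) (hc : 0 < c) (i : ι) :
    S u (c • h) i = c ^ 2 * S u h i := by
  unfold S
  have e : (fun s => V u (Function.update (c • h) i s))
      = fun s => c ^ 3 * V u (Function.update h i (c⁻¹ * s)) := by
    funext s
    rw [upd h c hc, V_smul u _ c hc]
  rw [e, deriv_const_mul_field, Pi.smul_apply, smul_eq_mul,
    dcomp (fun s => V u (Function.update h i s)) c (h i) hc]
  have := hc.ne'
  field_simp

lemma H_smul [DecidableEq ι] (u : ι → R3) (h : ι → ℝ) (c : ℝ) (hc : 0 < c) (i j : ι) :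
    H u (c • h) i j = c * H u h i j := by
  unfold H
  have e : (fun s => S u (Function.update (c • h) j s) i)
      = fun s => c ^ 2 * S u (Function.update h j (c⁻¹ * s)) i := by
    funext s
    rw [upd h c hc, S_smul u _ c hc]
  rw [e, deriv_const_mul_field, Pi.smul_apply, smul_eq_mul,
    dcomp (fun s => S u (Function.update h j s) i) c (h j) hc]
  have := hc.ne'
  field_simp

end HOM_

open HOM_ in
theorem stmt_HOM (_hSF : Stmt_SF) (_hHF : Stmt_HF) (_hLAMC : Stmt_LAMC) (_hBND : Stmt_BND) :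
    Stmt_HOM := by
  intro ι _ _ u _ h _ c hc
  exact ⟨V_smul u h c hc, fun i => S_smul u h c hc i, fun i j => H_smul u h c hc i j⟩

end Pool.T3
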