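import Pool.Agent.Work.MP_b5407d_t3.Interface

/-!
# MP_b5407d_gt, block LAMF: formula for the chord length
-/

set_option autoImplicit false

open MeasureTheory Set Filter Topology

namespace Pool.T3

namespace LAMF_

lemma oth_nonempty {ι : Type} [Fintype ι] [DecidableEq ι] {u : ι → R3} (hu : Fam u) (i j : ι) :
    (oth i j).Nonempty := by
  obtain ⟨a, b, c, hab, hac, hbc⟩ := hu.three
  by_cases ha : a ≠ i ∧ a ≠ j
  · exact ⟨a, by simp [oth, ha.1, ha.2]⟩
  by_cases hb : b ≠ i ∧ b ≠ j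
  · exact ⟨b, by simp [oth, hb.1, hb.2]⟩
  refine ⟨c, ?_⟩
  simp only [oth, Finset.mem_filter, Finset.mem_univ, true_and]
  constructor
  · rintro rfl
    apply ha
    refine ⟨hac, ?_⟩
    rintro rfl
    exact hb ⟨hbc, Ne.symm hab⟩
  · rintro rfl
    apply ha
    refine ⟨?_, hac⟩
    rintro rfl
    exact hb ⟨Ne.symm hab, hbc⟩

lemma iff_aux {A D h c : ℝ} (hD : D ≠ 0) :
    |A + c * D| ≤ h ↔ -(A / D) - h / |D| ≤ c ∧ c ≤ -(A / D) + h / |D| := by
  have hD' : 0 < |D| := abs_pos.2 hD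
  have h1 : A + c * D = (c - -(A / D)) * D := by field_simp; ring
  rw [h1, abs_mul, ← le_div_iff₀ hD', abs_le]
  constructor
  · rintro ⟨h2, h3⟩
    exact ⟨by linarith, by linarith⟩
  · rintro ⟨h2, h3⟩
    exact ⟨by linarith, by linarith⟩

end LAMF_

theorem stmt_LAMF : Stmt_LAMF := by
  intro ι _ _ u hu i j hij
  refine ⟨LAMF_.oth_nonempty hu i j, ?_⟩
  intro hM α β h
  have hset : {c : ℝ | ∀ m, m ≠ i → m ≠ j →
      |dt (u m) (pt u i j α β) + c * de (u i) (u j) (u m)| ≤ h m} =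
      Icc ((oth i j).sup' hM (fun m => mid u i j α β m - rad u i j h m))
        ((oth i j).inf' hM (fun m => mid u i j α β m + rad u i j h m)) := by
    ext c
    simp only [mem_setOf_eq, mem_Icc, Finset.sup'_le_iff, Finset.le_inf'_iff]
    constructor
    · intro hc
      refine ⟨fun m hm => ?_, fun m hm => ?_⟩
      · simp only [oth, Finset.mem_filter, Finset.mem_univ, true_and] at hm
        exact ((LAMF_.iff_aux (hu.ind i j m hij hm.1.symm hm.2.symm)).1 (hc m hm.1 hm.2)).1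
      · simp only [oth, Finset.mem_filter, Finset.mem_univ, true_and] at hm
        exact ((LAMF_.iff_aux (hu.ind i j m hij hm.1.symm hm.2.symm)).1 (hc m hm.1 hm.2)).2
    · rintro ⟨h1, h2⟩ m hmi hmj
      have hm : m ∈ oth i j := by simp [oth, hmi, hmj]
      exact (LAMF_.iff_aux (hu.ind i j m hij hmi.symm hmj.symm)).2 ⟨h1 m hm, h2 m hm⟩
  unfold Lam
  rw [hset, Real.volume_Icc, ENNReal.toReal_ofReal', max_comm]

end Pool.T3
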