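import Pool.Agent.Work.MP_b5407d_t3.Interface

set_option autoImplicit false

open MeasureTheory Set Filter Topology

namespace Pool.T3

namespace PAR_

variable {ι : Type}

lemma lin_apply [Fintype ι] (a x : ι → ℝ) : lin a x = ∑ i, a i * x i := by
  simp [lin]

/-- One coordinate. -/
lemma one [DecidableEq ι] (g : (ι → ℝ) → ℝ) (g' : ι → (ι → ℝ) → ℝ)
    (hg : ∀ h, Pos h → ∀ i, HasDerivAt (fun s => g (Function.update h i s)) (g' i h) (h i))
    (y : ι → ℝ) (i : ι) (a b c ε : ℝ)
    (hp : ∀ t ∈ uIcc a b, Pos (Function.update y i t))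
    (hb : ∀ t ∈ uIcc a b, |g' i (Function.update y i t) - c| ≤ ε) :
    |g (Function.update y i b) - g (Function.update y i a) - c * (b - a)| ≤ ε * |b - a| := by
  have hd : ∀ t ∈ uIcc a b, HasDerivWithinAt (fun s => g (Function.update y i s) - c * s)
      (g' i (Function.update y i t) - c) (uIcc a b) t := by
    intro t ht
    have h1 := hg _ (hp t ht) i
    rw [Function.update_self] at h1
    simp only [Function.update_idem] at h1
    have h2 := h1.sub ((hasDerivAt_id t).const_mul c)
    rw [mul_one] at h2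
    exact h2.hasDerivWithinAt
  have h3 := Convex.norm_image_sub_le_of_norm_hasDerivWithin_le (C := ε) hd
    (fun t ht => by rw [Real.norm_eq_abs]; exact hb t ht) (convex_uIcc a b) left_mem_uIcc
    right_mem_uIcc
  rw [Real.norm_eq_abs, Real.norm_eq_abs] at h3
  have e : g (Function.update y i b) - g (Function.update y i a) - c * (b - a)
      = g (Function.update y i b) - c * b - (g (Function.update y i a) - c * a) := by ring
  rw [e]
  exact h3

/-- All coordinates, one after the other. -/
lemma all [DecidableEq ι] (g : (ι → ℝ) → ℝ) (g' : ι → (ι → ℝ) → ℝ)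
    (hg : ∀ h, Pos h → ∀ i, HasDerivAt (fun s => g (Function.update h i s)) (g' i h) (h i))
    (h x : ι → ℝ) (δ ε : ℝ) (hp : ∀ y : ι → ℝ, (∀ i, |y i - h i| ≤ δ) → Pos y)
    (hb : ∀ y : ι → ℝ, (∀ i, |y i - h i| ≤ δ) → ∀ i, |g' i y - g' i h| ≤ ε)
    (hx : ∀ i, |x i - h i| ≤ δ) (hδ : 0 ≤ δ) (s : Finset ι) :
    |g (s.piecewise x h) - g h - ∑ i ∈ s, g' i h * (x i - h i)| ≤ ε * ∑ i ∈ s, |x i - h i| := by
  have hpw : ∀ (t : Finset ι) (i : ι), |t.piecewise x h i - h i| ≤ δ := by
    intro t i
    by_cases hi : i ∈ t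
    · rw [Finset.piecewise_eq_of_mem _ _ _ hi]
      exact hx i
    · rw [Finset.piecewise_eq_of_notMem _ _ _ hi, sub_self, abs_zero]
      exact hδ
  induction s using Finset.induction_on with
  | empty => simp
  | insert a s ha ih =>
    have hya : s.piecewise x h a = h a := Finset.piecewise_eq_of_notMem _ _ _ ha
    have hbox : ∀ t ∈ uIcc (h a) (x a), ∀ i,
        |Function.update (s.piecewise x h) a t i - h i| ≤ δ := by
      intro t ht i
      rcases eq_or_ne i a with h1 | h1
      · subst h1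
        rw [Function.update_self]
        have h2 := abs_sub_left_of_mem_uIcc ht
        exact h2.trans (hx i)
      · rw [Function.update_of_ne h1]
        exact hpw s i
    have h1 := one g g' hg (s.piecewise x h) a (h a) (x a) (g' a h) ε
      (fun t ht => hp _ (hbox t ht)) (fun t ht => hb _ (hbox t ht) a)
    have h2 : Function.update (s.piecewise x h) a (h a) = s.piecewise x h := by
      rw [← hya, Function.update_eq_self]
    rw [h2, ← Finset.piecewise_insert] at h1
    rw [Finset.sum_insert ha, Finset.sum_insert ha]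
    have e : g ((insert a s).piecewise x h) - g h
        - (g' a h * (x a - h a) + ∑ i ∈ s, g' i h * (x i - h i))
        = (g ((insert a s).piecewise x h) - g (s.piecewise x h) - g' a h * (x a - h a))
          + (g (s.piecewise x h) - g h - ∑ i ∈ s, g' i h * (x i - h i)) := by ring
    rw [e]
    refine (abs_add_le _ _).trans ?_
    linarith

end PAR_

open PAR_ in
theorem stmt_PAR : Stmt_PAR := by
  intro ι _ _ g g' hg hc h hpos
  have hopen : IsOpen {h : ι → ℝ | Pos h} := by
    have e : {h : ι → ℝ | Pos h} = ⋂ i, {h : ι → ℝ | 0 < h i} := by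
      ext y
      simp only [Pos, Set.mem_ofPred_eq, Set.mem_iInter]
    rw [e]
    exact isOpen_iInter_of_finite (fun i => isOpen_lt continuous_const (continuous_apply i))
  rw [hasFDerivAt_iff_isLittleO_nhds_zero, Asymptotics.isLittleO_iff]
  intro c hc0
  set N : ℝ := (Fintype.card ι : ℝ) with hN
  have hN0 : 0 ≤ N := Nat.cast_nonneg _
  set ε : ℝ := c / (N + 1) with hε
  have hε0 : 0 < ε := by positivity
  have hev : ∀ᶠ y in 𝓝 h, Pos y ∧ ∀ i, |g' i y - g' i h| ≤ ε := by
    have h0 : ∀ᶠ y in 𝓝 h, Pos y := hopen.mem_nhds hpos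
    refine h0.and (Filter.eventually_all.2 (fun i => ?_))
    have h1 : ContinuousAt (g' i) h := (hc i).continuousAt (hopen.mem_nhds hpos)
    have h2 := Metric.continuousAt_iff'.1 h1 ε hε0
    filter_upwards [h2] with y hy
    rw [Real.dist_eq] at hy
    exact hy.le
  obtain ⟨δ, hδ, hball⟩ := Metric.nhds_basis_closedBall.mem_iff.1 hev
  have hbox : ∀ y : ι → ℝ, (∀ i, |y i - h i| ≤ δ) → y ∈ Metric.closedBall h δ := by
    intro y hy
    rw [Metric.mem_closedBall, dist_pi_le_iff hδ.le]
    intro i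
    rw [Real.dist_eq]
    exact hy i
  have hnh : ∀ᶠ k : ι → ℝ in 𝓝 0, ‖k‖ ≤ δ := by
    filter_upwards [Metric.closedBall_mem_nhds (0 : ι → ℝ) hδ] with k hk
    rwa [mem_closedBall_zero_iff] at hk
  filter_upwards [hnh] with k hk
  have hki : ∀ i, |(h + k) i - h i| ≤ ‖k‖ := by
    intro i
    rw [Pi.add_apply, add_sub_cancel_left]
    exact norm_le_pi_norm k i
  have h3 := all g g' hg h (h + k) δ ε (fun y hy => (hball (hbox y hy)).1)
    (fun y hy => (hball (hbox y hy)).2) (fun i => (hki i).trans hk) hδ.le Finset.univ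
  rw [Finset.piecewise_univ] at h3
  have e1 : ∑ i, g' i h * ((h + k) i - h i) = lin (fun i => g' i h) k := by
    rw [lin_apply]
    refine Finset.sum_congr rfl (fun i _ => ?_)
    rw [Pi.add_apply, add_sub_cancel_left]
  rw [e1] at h3
  have h4 : ∑ i, |(h + k) i - h i| ≤ N * ‖k‖ := by
    refine (Finset.sum_le_card_nsmul Finset.univ _ ‖k‖ (fun i _ => hki i)).trans ?_
    rw [Finset.card_univ, nsmul_eq_mul]
  rw [Real.norm_eq_abs]
  refine h3.trans ?_
  calc ε * ∑ i, |(h + k) i - h i| ≤ ε * (N * ‖k‖) := mul_le_mul_of_nonneg_left h4 hε0.le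
    _ = (ε * N) * ‖k‖ := by ring
    _ ≤ c * ‖k‖ := by
      refine mul_le_mul_of_nonneg_right ?_ (norm_nonneg _)
      rw [hε, div_mul_eq_mul_div, div_le_iff₀ (by positivity)]
      nlinarith

end Pool.T3
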