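import Pool.Agent.Work.MP_b5407d_t3.Interface

/-!
# MP_b5407d_gt, block SF: first coordinate derivatives of the volume
-/

set_option autoImplicit false

open MeasureTheory Set Filter Topology

namespace Pool.T3

namespace SF_

lemma sym_deriv {G : ℝ → ℝ} (hG : Continuous G) (s : ℝ) :
    HasDerivAt (fun s => ∫ x in (-s)..s, G x) (G s + G (-s)) s := by
  have h1 : (fun s => ∫ x in (-s)..s, G x) =
      fun s => (∫ x in (0 : ℝ)..s, G x) - ∫ x in (0 : ℝ)..(-s), G x := by
    funext s
    rw [intervalIntegral.integral_interval_sub_left (hG.intervalIntegrable _ _)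
      (hG.intervalIntegrable _ _)]
  rw [h1]
  have h2 := (hG.integral_hasStrictDerivAt 0 s).hasDerivAt
  have h3 : HasDerivAt (fun s => ∫ x in (0 : ℝ)..(-s), G x) (G (-s) * (-1)) s :=
    HasDerivAt.comp s (hG.integral_hasStrictDerivAt 0 (-s)).hasDerivAt (hasDerivAt_neg s)
  have h4 := h2.sub h3
  rw [show G s - G (-s) * (-1) = G s + G (-s) by ring] at h4
  exact h4

end SF_

theorem stmt_SF (hVIN : Stmt_VIN) (hLAMC : Stmt_LAMC) : Stmt_SF := by
  intro ι _ _ u hu i j hij h hh
  obtain ⟨hc, -, -, hodd, hdep, -⟩ := hLAMC ι u hu i j hij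
  have hc2 : Continuous (Function.uncurry fun α β => Lam u i j α β h) := by
    have h1 : Continuous (fun p : ℝ × ℝ => ((p.1, p.2, h) : ℝ × ℝ × (ι → ℝ))) := by fun_prop
    have h2 := hc.comp h1
    simp only [Function.comp_def] at h2
    exact h2
  set g : ℝ → ℝ := fun α => ∫ β in (-h j)..(h j), Lam u i j α β h with hg
  have hgc : Continuous g :=
    intervalIntegral.continuous_parametric_intervalIntegral_of_continuous' hc2 _ _
  have hge : ∀ α, g (-α) = g α := by
    intro α
    have h1 : ∀ β, Lam u i j (-α) β h = Lam u i j α (-β) h := by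
      intro β
      have := hodd α (-β) h
      rwa [neg_neg] at this
    simp only [hg, h1]
    rw [intervalIntegral.integral_comp_neg (fun β => Lam u i j α β h), neg_neg]
  have hD : HasDerivAt (fun s => V u (Function.update h i s))
      (2 * ∫ β in (-h j)..(h j), Lam u i j (h i) β h) (h i) := by
    have h1 := SF_.sym_deriv hgc (h i)
    rw [hge, ← two_mul] at h1
    refine h1.congr_of_eventuallyEq ?_
    filter_upwards [lt_mem_nhds (hh i)] with s hs
    rw [hVIN ι u hu i j hij (Function.update h i s) ?_]
    · rw [Function.update_self, Function.update_of_ne hij.symm]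
      refine intervalIntegral.integral_congr (fun α _ => ?_)
      refine intervalIntegral.integral_congr (fun β _ => ?_)
      refine hdep α β _ _ (fun m hm _ => ?_)
      rw [Function.update_of_ne hm]
    · intro m
      by_cases hm : m = i
      · subst hm; rw [Function.update_self]; exact hs.le
      · rw [Function.update_of_ne hm]; exact (hh m).le
  exact ⟨hD, hD.deriv⟩

end Pool.T3
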