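import Pool.Agent.Work.MP_b5407d_t3.Interface

/-!
MP_b5407d, T3, block VIN (helper81): the volume as an iterated integral of chord lengths.
-/

set_option autoImplicit false

open MeasureTheory Set Filter Topology

namespace Pool.T3
namespace VIN_

/-- the chord -/
def Ls {ι : Type} (u : ι → R3) (i j : ι) (α β : ℝ) (h : ι → ℝ) : Set ℝ :=
  {c : ℝ | ∀ m, m ≠ i → m ≠ j → |dt (u m) (pt u i j α β) + c * de (u i) (u j) (u m)| ≤ h m}

theorem third {ι : Type} (u : ι → R3) (hu : Fam u) (i j : ι) (hij : i ≠ j) :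
    ∃ m, m ≠ i ∧ m ≠ j ∧ de (u i) (u j) (u m) ≠ 0 := by
  obtain ⟨a, b, c, hab, hac, hbc⟩ := hu.three
  have key : ∃ m, m ≠ i ∧ m ≠ j := by
    by_contra hcon
    push Not at hcon
    by_cases ha : a = i
    · by_cases hb : b = j
      · have h1 : c ≠ i := fun h => hac (ha.trans h.symm)
        exact hbc (hb.trans (hcon c h1).symm)
      · have h1 : b ≠ i := fun h => hab (ha.trans h.symm)
        exact hb (hcon b h1)
    · have h1 : a = j := hcon a ha
      by_cases hb : b = i
      · have h2 : c ≠ i := fun h => hbc (hb.trans h.symm)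
        exact hac (h1.trans (hcon c h2).symm)
      · exact hab (h1.trans (hcon b hb).symm)
  obtain ⟨m, h1, h2⟩ := key
  exact ⟨m, h1, h2, hu.ind i j m hij (Ne.symm h1) (Ne.symm h2)⟩

theorem Ls_finite {ι : Type} (u : ι → R3) (hu : Fam u) (i j : ι) (hij : i ≠ j) (α β : ℝ)
    (h : ι → ℝ) : volume (Ls u i j α β h) ≠ ⊤ := by
  obtain ⟨m, hmi, hmj, hD⟩ := third u hu i j hij
  set A := dt (u m) (pt u i j α β) with hA
  set D := de (u i) (u j) (u m) with hDdef
  have hsub : Ls u i j α β h ⊆ Icc (-((h m + |A|) / |D|)) ((h m + |A|) / |D|) := by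
    intro c hc
    have h1 := hc m hmi hmj
    rw [← hA, ← hDdef] at h1
    have hDp : 0 < |D| := abs_pos.2 hD
    have h2 : |c| * |D| ≤ h m + |A| := by
      rw [← abs_mul]
      have : c * D = (A + c * D) - A := by ring
      calc |c * D| = |(A + c * D) - A| := by rw [← this]
        _ ≤ |A + c * D| + |A| := abs_sub _ _
        _ ≤ h m + |A| := by linarith
    have h3 : |c| ≤ (h m + |A|) / |D| := by
      rw [le_div_iff₀ hDp]
      exact h2
    exact abs_le.1 h3
  exact ((measure_mono hsub).trans_lt measure_Icc_lt_top).ne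

theorem Lc1 {ι : Type} [Fintype ι] (u : ι → R3) (i j : ι)
    (hLc : Continuous (fun p : ℝ × ℝ × (ι → ℝ) => Lam u i j p.1 p.2.1 p.2.2)) (h : ι → ℝ) (α : ℝ) :
    Continuous fun β : ℝ => Lam u i j α β h := by
  have hf : Continuous (fun β : ℝ => ((α, β, h) : ℝ × ℝ × (ι → ℝ))) := by fun_prop
  have hg := hLc.comp hf
  exact hg

theorem Lc2 {ι : Type} [Fintype ι] (u : ι → R3) (i j : ι)
    (hLc : Continuous (fun p : ℝ × ℝ × (ι → ℝ) => Lam u i j p.1 p.2.1 p.2.2)) (h : ι → ℝ) :
    Continuous fun α : ℝ => ∫ β in (-h j)..(h j), Lam u i j α β h := by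
  have hf : Continuous (fun p : ℝ × ℝ => ((p.1, p.2, h) : ℝ × ℝ × (ι → ℝ))) := by fun_prop
  have hg := hLc.comp hf
  exact intervalIntegral.continuous_parametric_intervalIntegral_of_continuous'
    (f := fun α β => Lam u i j α β h) hg _ _

end VIN_

open VIN_ in
theorem stmt_VIN (hCOO : Stmt_COO) (hBND : Stmt_BND) (hLAMC : Stmt_LAMC) : Stmt_VIN := by
  intro ι _ _ u hu i j hij h hh
  obtain ⟨hC1, hC2⟩ := hCOO
  have hcr := hC2 ι u i j hu hij
  obtain ⟨hmp, hval⟩ := hC1 ι u i j hcr
  obtain ⟨hB, -⟩ := hBND ι u hu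
  have hKm : MeasurableSet (K u h) := (hB h).1.measurableSet
  obtain ⟨hLc, hL0, -⟩ := hLAMC ι u hu i j hij
  have hcβ := Lc1 u i j hLc h
  set Φ := fun p : ℝ × ℝ × ℝ => pt u i j p.1 p.2.1 + p.2.2 • cr (u i) (u j) with hΦ
  have hvol : volume (K u h) = volume (Φ ⁻¹' K u h) :=
    (hmp.measure_preimage hKm.nullMeasurableSet).symm
  have hTm : MeasurableSet (Φ ⁻¹' K u h) := hmp.measurable hKm
  set T := Φ ⁻¹' K u h with hT
  -- membership
  have hmem : ∀ α β c : ℝ, (α, β, c) ∈ T ↔ (|α| ≤ h i ∧ |β| ≤ h j ∧ c ∈ Ls u i j α β h) := by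
    intro α β c
    obtain ⟨h1, h2, h3⟩ := hval α β c
    have e : (α, β, c) ∈ T ↔ ∀ m, |dt (u m) (pt u i j α β + c • cr (u i) (u j))| ≤ h m := Iff.rfl
    rw [e]
    constructor
    · intro H
      refine ⟨?_, ?_, ?_⟩
      · have := H i
        rwa [h1] at this
      · have := H j
        rwa [h2] at this
      · intro m _ _
        have := H m
        rwa [h3 m] at this
    · rintro ⟨H1, H2, H3⟩ m
      by_cases hmi : m = i
      · subst hmi
        rwa [h1]
      · by_cases hmj : m = j
        · subst hmj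
          rwa [h2]
        · rw [h3 m]
          exact H3 m hmi hmj
  have hsec1 : ∀ α β : ℝ, |α| ≤ h i → |β| ≤ h j →
      Prod.mk β ⁻¹' (Prod.mk α ⁻¹' T) = Ls u i j α β h := by
    intro α β ha hb
    ext c
    have := hmem α β c
    constructor
    · intro H
      exact (this.1 H).2.2
    · intro H
      exact this.2 ⟨ha, hb, H⟩
  have hsec2 : ∀ α β : ℝ, ¬ |β| ≤ h j → Prod.mk β ⁻¹' (Prod.mk α ⁻¹' T) = ∅ := by
    intro α β hb
    ext c
    simp only [mem_preimage, mem_empty_iff_false, iff_false]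
    intro H
    exact hb ((hmem α β c).1 H).2.1
  have hsec3 : ∀ α : ℝ, ¬ |α| ≤ h i → Prod.mk α ⁻¹' T = ∅ := by
    intro α ha
    ext p
    obtain ⟨β, c⟩ := p
    simp only [mem_preimage, mem_empty_iff_false, iff_false]
    intro H
    exact ha ((hmem α β c).1 H).1
  have hLam : ∀ α β : ℝ, volume (Ls u i j α β h) = ENNReal.ofReal (Lam u i j α β h) := by
    intro α β
    have e : Lam u i j α β h = (volume (Ls u i j α β h)).toReal := rfl
    rw [e, ENNReal.ofReal_toReal (Ls_finite u hu i j hij α β h)]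
  -- the inner integral
  have hin : ∀ α : ℝ, |α| ≤ h i → volume (Prod.mk α ⁻¹' T)
      = ENNReal.ofReal (∫ β in (-h j)..(h j), Lam u i j α β h) := by
    intro α ha
    rw [Measure.volume_eq_prod, Measure.prod_apply (measurable_prodMk_left hTm)]
    have e1 : ∀ β : ℝ, volume (Prod.mk β ⁻¹' (Prod.mk α ⁻¹' T))
        = (Icc (-h j) (h j)).indicator (fun β => ENNReal.ofReal (Lam u i j α β h)) β := by
      intro β
      by_cases hb : |β| ≤ h j
      · rw [hsec1 α β ha hb, hLam, indicator_of_mem (show β ∈ Icc (-h j) (h j) from abs_le.1 hb)]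
      · rw [hsec2 α β hb, measure_empty, indicator_of_notMem]
        intro hmem'
        exact hb (abs_le.2 hmem')
    rw [lintegral_congr e1, lintegral_indicator measurableSet_Icc]
    have hle : -h j ≤ h j := by linarith [hh j]
    have hint : IntegrableOn (fun β : ℝ => Lam u i j α β h) (Icc (-h j) (h j)) volume :=
      (hcβ α).continuousOn.integrableOn_Icc
    have e2 := ofReal_integral_eq_lintegral_ofReal hint (ae_of_all _ fun β => hL0 α β h)
    rw [intervalIntegral.integral_of_le hle, ← integral_Icc_eq_integral_Ioc]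
    exact e2.symm
  -- the outer integral
  have hcα := Lc2 u i j hLc h
  have hg0 : ∀ α : ℝ, 0 ≤ ∫ β in (-h j)..(h j), Lam u i j α β h := by
    intro α
    have hle : -h j ≤ h j := by linarith [hh j]
    exact intervalIntegral.integral_nonneg hle fun β _ => hL0 α β h
  have hle : -h i ≤ h i := by linarith [hh i]
  have hI0 : 0 ≤ ∫ α in (-h i)..(h i), ∫ β in (-h j)..(h j), Lam u i j α β h :=
    intervalIntegral.integral_nonneg hle fun α _ => hg0 α
  have hout : volume T = ENNReal.ofReal
      (∫ α in (-h i)..(h i), ∫ β in (-h j)..(h j), Lam u i j α β h) := by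
    rw [Measure.volume_eq_prod, Measure.prod_apply hTm]
    have e1 : ∀ α : ℝ, volume (Prod.mk α ⁻¹' T)
        = (Icc (-h i) (h i)).indicator
          (fun α => ENNReal.ofReal (∫ β in (-h j)..(h j), Lam u i j α β h)) α := by
      intro α
      by_cases ha : |α| ≤ h i
      · rw [hin α ha, indicator_of_mem (show α ∈ Icc (-h i) (h i) from abs_le.1 ha)]
      · rw [hsec3 α ha, measure_empty, indicator_of_notMem]
        intro hmem'
        exact ha (abs_le.2 hmem')
    rw [lintegral_congr e1, lintegral_indicator measurableSet_Icc]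
    have hint : IntegrableOn (fun α : ℝ => ∫ β in (-h j)..(h j), Lam u i j α β h)
        (Icc (-h i) (h i)) volume := hcα.continuousOn.integrableOn_Icc
    have e2 := ofReal_integral_eq_lintegral_ofReal hint (ae_of_all _ fun α => hg0 α)
    rw [intervalIntegral.integral_of_le hle, ← integral_Icc_eq_integral_Ioc]
    exact e2.symm
  show (volume (K u h)).toReal = _
  rw [hvol, hout, ENNReal.toReal_ofReal hI0]

end Pool.T3
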