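import Pool.Agent.Work.MP_b5407d_t3.InterfaceL

/-!
# T3, block `USC`: upper semicontinuity of the volume (helper54)
-/

set_option autoImplicit false

open MeasureTheory Set Filter Topology

namespace Pool.T3

namespace USC_

lemma dt_cont (a : R3) : Continuous fun x : R3 => dt a x := by
  unfold dt
  exact ((continuous_const.mul (continuous_apply 0)).add
    (continuous_const.mul (continuous_apply 1))).add (continuous_const.mul (continuous_apply 2))

lemma K_closed {N : ℕ} (u : Fin N → R3) (h : Fin N → ℝ) : IsClosed (K u h) := by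
  have : K u h = ⋂ i, {x | |dt (u i) x| ≤ h i} := by
    ext x; simp [K]
  rw [this]
  exact isClosed_iInter fun i => isClosed_le (dt_cont (u i)).abs continuous_const

lemma dt_sub_bound (a b x : R3) (η : ℝ) (hη : ∀ k, |a k - b k| < η) :
    |dt b x| ≤ |dt a x| + 3 * η * ‖x‖ := by
  have hx : ∀ k, |x k| ≤ ‖x‖ := fun k => by
    have := norm_le_pi_norm x k
    rwa [Real.norm_eq_abs] at this
  have h1 : ∀ k, |(b k - a k) * x k| ≤ η * ‖x‖ := by
    intro k
    rw [abs_mul]
    have := hη k
    rw [abs_sub_comm] at this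
    exact mul_le_mul this.le (hx k) (abs_nonneg _) ((abs_nonneg _).trans this.le)
  have h2 : dt b x = dt a x + ((b 0 - a 0) * x 0 + (b 1 - a 1) * x 1 + (b 2 - a 2) * x 2) := by
    simp only [dt]; ring
  rw [h2]
  have h3 := abs_add_le (dt a x) ((b 0 - a 0) * x 0 + (b 1 - a 1) * x 1 + (b 2 - a 2) * x 2)
  have h4 := abs_add_le ((b 0 - a 0) * x 0 + (b 1 - a 1) * x 1) ((b 2 - a 2) * x 2)
  have h5 := abs_add_le ((b 0 - a 0) * x 0) ((b 1 - a 1) * x 1)
  have := h1 0
  have := h1 1
  have := h1 2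
  linarith

/-- the sets `K θ (m + s)` are contained in a fixed ball -/
lemma K_bounded {N : ℕ} (θ : Fin N → R3) (m : Fin N → ℝ) (c M : ℝ) (hc : 0 < c)
    (hcx : ∀ x : R3, ∃ i, c * ‖x‖ ≤ |dt (θ i) x|) (hM : ∀ i, m i ≤ M) :
    K θ m ⊆ Metric.closedBall (0 : R3) (M / c) := by
  intro x hx
  obtain ⟨i, hi⟩ := hcx x
  rw [mem_closedBall_zero_iff, le_div_iff₀ hc]
  have := hx i
  have := hM i
  linarith

end USC_

open USC_ in
theorem stmt_USC : Stmt_USC := by
  intro N θ m c hc hcx ε hε
  obtain ⟨M0, hM0⟩ := (Set.finite_range m).bddAbove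
  obtain ⟨M, hM, hM1⟩ : ∃ M : ℝ, (∀ i, m i ≤ M) ∧ 0 ≤ M :=
    ⟨max M0 0, fun i => (hM0 ⟨i, rfl⟩).trans (le_max_left _ _), le_max_right _ _⟩
  -- a sequence of outer approximations
  let A : ℕ → Set R3 := fun n => K θ (fun i => m i + 1 / ((n : ℝ) + 1))
  have hAm : ∀ n, MeasurableSet (A n) := fun n => (K_closed _ _).measurableSet
  have hAanti : Antitone A := by
    intro a b hab x hx i
    refine (hx i).trans ?_
    have : 1 / ((b : ℝ) + 1) ≤ 1 / ((a : ℝ) + 1) := by
      apply one_div_le_one_div_of_le (by positivity)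
      have : (a : ℝ) ≤ b := by exact_mod_cast hab
      linarith
    dsimp only
    linarith
  have hAfin : volume (A 0) ≠ ⊤ := by
    have h1 : A 0 ⊆ Metric.closedBall (0 : R3) ((M + 1) / c) := by
      refine K_bounded θ _ c (M + 1) hc hcx ?_
      intro i
      have := hM i
      simp only [Nat.cast_zero, zero_add, div_one]
      linarith
    exact ((measure_mono h1).trans_lt measure_closedBall_lt_top).ne
  have hAi : (⋂ n, A n) = K θ m := by
    apply Subset.antisymm
    · intro x hx i
      rw [mem_iInter] at hx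
      have h1 : ∀ n : ℕ, |dt (θ i) x| ≤ m i + 1 / ((n : ℝ) + 1) := fun n => hx n i
      have h2 : Tendsto (fun n : ℕ => m i + 1 / ((n : ℝ) + 1)) atTop (𝓝 (m i + 0)) :=
        tendsto_const_nhds.add tendsto_one_div_add_atTop_nhds_zero_nat
      rw [add_zero] at h2
      exact ge_of_tendsto h2 (Filter.Eventually.of_forall h1)
    · intro x hx
      rw [mem_iInter]
      intro n i
      have : 0 < 1 / ((n : ℝ) + 1) := by positivity
      have := hx i
      dsimp only
      linarith
  have hlim : Tendsto (fun n => volume (A n)) atTop (𝓝 (volume (K θ m))) := by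
    rw [← hAi]
    exact tendsto_measure_iInter_atTop (fun n => (hAm n).nullMeasurableSet) hAanti ⟨0, hAfin⟩
  have hfinK : volume (K θ m) ≠ ⊤ := by
    rw [← hAi]
    exact ((measure_mono (iInter_subset A 0)).trans_lt hAfin.lt_top).ne
  have hlim2 : Tendsto (fun n => (volume (A n)).toReal) atTop (𝓝 (V θ m)) :=
    (ENNReal.tendsto_toReal hfinK).comp hlim
  obtain ⟨n, hn⟩ := (hlim2.eventually (gt_mem_nhds (show V θ m < V θ m + ε by linarith))).exists
  -- choice of `η`
  have hr : 0 < 1 + 3 * (2 * (M + 1) / c) := by positivity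
  refine ⟨min 1 (min (c / 6) (1 / ((n : ℝ) + 1) / (1 + 3 * (2 * (M + 1) / c)))), by positivity, ?_⟩
  intro u h hu hh
  set η : ℝ := min 1 (min (c / 6) (1 / ((n : ℝ) + 1) / (1 + 3 * (2 * (M + 1) / c)))) with hηdef
  have hη0 : 0 < η := by positivity
  have hη1 : η ≤ 1 := min_le_left _ _
  have hη2 : η ≤ c / 6 := (min_le_right _ _).trans (min_le_left _ _)
  have hη3 : η * (1 + 3 * (2 * (M + 1) / c)) ≤ 1 / ((n : ℝ) + 1) := by
    have : η ≤ 1 / ((n : ℝ) + 1) / (1 + 3 * (2 * (M + 1) / c)) :=
      (min_le_right _ _).trans (min_le_right _ _)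
    rwa [le_div_iff₀ hr] at this
  have hsub : K u h ⊆ A n := by
    intro x hx
    have hx0 : 0 ≤ ‖x‖ := norm_nonneg x
    have hb : ∀ i, |dt (θ i) x| ≤ h i + 3 * η * ‖x‖ := by
      intro i
      have := dt_sub_bound (u i) (θ i) x η (hu i)
      have := hx i
      linarith
    have hxr : ‖x‖ ≤ 2 * (M + 1) / c := by
      obtain ⟨i, hi⟩ := hcx x
      rw [le_div_iff₀ hc]
      have h1 := hb i
      have h2 := (abs_lt.mp (hh i)).2
      have h3 := hM i
      have h4 : 3 * η * ‖x‖ ≤ c / 2 * ‖x‖ := by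
        apply mul_le_mul_of_nonneg_right _ hx0
        linarith
      nlinarith
    intro i
    have h1 := hb i
    have h2 := (abs_lt.mp (hh i)).2
    have h3 : 3 * η * ‖x‖ ≤ 3 * η * (2 * (M + 1) / c) := by
      apply mul_le_mul_of_nonneg_left hxr
      positivity
    dsimp only
    nlinarith
  have hV : V u h ≤ (volume (A n)).toReal := by
    unfold V
    apply ENNReal.toReal_mono _ (measure_mono hsub)
    exact ((measure_mono (hAanti (Nat.zero_le n))).trans_lt hAfin.lt_top).ne
  linarith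

end Pool.T3
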