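import Pool.Agent.Work.MP_b5407d_t3.Interface

set_option autoImplicit false

open MeasureTheory Set Filter Topology

namespace Pool.T3

namespace PATH_

variable {ι : Type} [Fintype ι]

lemma lin_apply (a x : ι → ℝ) : lin a x = ∑ i, a i * x i := by
  unfold lin
  rw [ContinuousLinearMap.sum_apply]
  refine Finset.sum_congr rfl (fun i _ => ?_)
  rw [ContinuousLinearMap.smul_apply, ContinuousLinearMap.proj_apply, smul_eq_mul]

lemma d_lin (a b s : ℝ) : HasDerivAt (fun s : ℝ => a + s * b) b s := by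
  have h := ((hasDerivAt_id s).mul_const b).const_add a
  rw [one_mul] at h
  exact h

/-- First derivative of the path. -/
lemma d1 (p a b s : ℝ) (h : 0 < a + s * b) :
    HasDerivAt (fun s : ℝ => (a + s * b) ^ (1 / p)) ((1 / p) * b * (a + s * b) ^ (1 / p - 1)) s := by
  have h1 := (d_lin a b s).rpow_const (p := 1 / p) (Or.inl h.ne')
  have e : b * (1 / p) * (a + s * b) ^ (1 / p - 1) = (1 / p) * b * (a + s * b) ^ (1 / p - 1) := by
    ring
  rw [e] at h1
  exact h1

/-- Second derivative of the path. -/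
lemma d2 (p a b s : ℝ) (hp : 0 < p) (h : 0 < a + s * b) :
    HasDerivAt (fun s : ℝ => (1 / p) * b * (a + s * b) ^ (1 / p - 1))
      ((1 - p) * ((1 / p) * b * (a + s * b) ^ (1 / p - 1)) ^ 2 / (a + s * b) ^ (1 / p)) s := by
  have h1 := ((d_lin a b s).rpow_const (p := 1 / p - 1) (Or.inl h.ne')).const_mul ((1 / p) * b)
  have hx : 0 < (a + s * b) ^ (1 / p) := Real.rpow_pos_of_pos h _
  have e1 : (a + s * b) ^ (1 / p - 1) = (a + s * b) ^ (1 / p) / (a + s * b) :=
    Real.rpow_sub_one h.ne' _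
  have e2 : (a + s * b) ^ (1 / p - 1 - 1) = (a + s * b) ^ (1 / p) / (a + s * b) / (a + s * b) := by
    rw [Real.rpow_sub_one h.ne', Real.rpow_sub_one h.ne']
  have e : (1 / p) * b * (b * (1 / p - 1) * (a + s * b) ^ (1 / p - 1 - 1))
      = (1 - p) * ((1 / p) * b * (a + s * b) ^ (1 / p - 1)) ^ 2 / (a + s * b) ^ (1 / p) := by
    rw [e2, e1]
    have hp' := hp.ne'
    have h' := h.ne'
    have hx' := hx.ne'
    field_simp
  rw [e] at h1
  exact h1

end PATH_

open PATH_ in
theorem stmt_PATH : Stmt_PATH := by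
  intro ι _ v S H C p hp hp1 y0 y1 s hy hh ff
  have hpos : Pos (hh s) := fun i => Real.rpow_pos_of_pos (hy i) _
  have hhd : HasDerivAt hh (ff s) s := hasDerivAt_pi.2 (fun i => d1 p (y0 i) (y1 i) s (hy i))
  have hv0 : 0 < v (hh s) := C.vp _ hpos
  have hvd : HasDerivAt (fun s => v (hh s)) (∑ i, S (hh s) i * ff s i) s := by
    have h := (C.dv (hh s) hpos).comp_hasDerivAt s hhd
    rw [lin_apply] at h
    exact h
  have hSd : ∀ i, HasDerivAt (fun s => S (hh s) i) (∑ j, H (hh s) i j * ff s j) s := by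
    intro i
    have h := (C.dS (hh s) hpos i).comp_hasDerivAt s hhd
    rw [lin_apply] at h
    exact h
  have hfd : ∀ i, HasDerivAt (fun s => ff s i) ((1 - p) * ff s i ^ 2 / hh s i) s :=
    fun i => d2 p (y0 i) (y1 i) s hp (hy i)
  refine ⟨?_, ?_⟩
  · have h := hvd.rpow_const (p := p / 3) (Or.inl hv0.ne')
    have e : (∑ i, S (hh s) i * ff s i) * (p / 3) * v (hh s) ^ (p / 3 - 1)
        = (p / 3) * v (hh s) ^ (p / 3 - 1) * ∑ i, S (hh s) i * ff s i := by ring
    rw [e] at h
    exact h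
  · have h1 := (hvd.rpow_const (p := p / 3 - 1) (Or.inl hv0.ne')).const_mul (p / 3)
    have h2 : HasDerivAt (fun s => ∑ i, S (hh s) i * ff s i)
        (∑ i, ((∑ j, H (hh s) i j * ff s j) * ff s i
          + S (hh s) i * ((1 - p) * ff s i ^ 2 / hh s i))) s :=
      HasDerivAt.fun_sum (fun i _ => (hSd i).mul (hfd i))
    have h3 := h1.mul h2
    have e : (p / 3) * ((∑ i, S (hh s) i * ff s i) * (p / 3 - 1) * v (hh s) ^ (p / 3 - 1 - 1))
          * (∑ i, S (hh s) i * ff s i)
        + (p / 3) * v (hh s) ^ (p / 3 - 1) * (∑ i, ((∑ j, H (hh s) i j * ff s j) * ff s i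
          + S (hh s) i * ((1 - p) * ff s i ^ 2 / hh s i)))
        = -((p / 3) * v (hh s) ^ (p / 3 - 1) *
        (J v S H (hh s) (ff s) - (1 - p) * Q v S (hh s) (ff s))) := by
      have e1 : ∑ i, ((∑ j, H (hh s) i j * ff s j) * ff s i
          + S (hh s) i * ((1 - p) * ff s i ^ 2 / hh s i))
          = (∑ i, ∑ j, H (hh s) i j * ff s i * ff s j)
            + (1 - p) * ∑ i, S (hh s) i * ff s i ^ 2 / hh s i := by
        rw [Finset.sum_add_distrib, Finset.mul_sum]
        congr 1
        · refine Finset.sum_congr rfl (fun i _ => ?_)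
          rw [Finset.sum_mul]
          refine Finset.sum_congr rfl (fun j _ => ?_)
          ring
        · refine Finset.sum_congr rfl (fun i _ => ?_)
          ring
      rw [e1, Real.rpow_sub_one hv0.ne' (p / 3 - 1)]
      unfold J Q
      have := hv0.ne'
      field_simp
      ring
    rw [e] at h3
    exact h3

end Pool.T3
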