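import Pool.Agent.Work.MP_b5407d_t3.Interface

set_option autoImplicit false

open MeasureTheory Set Filter Topology

namespace Pool.T3

namespace JQ_

variable {ι : Type} [Fintype ι]

/-- The bilinear sum. -/
def BB (H : ι → ι → ℝ) (f g : ι → ℝ) : ℝ := ∑ i, ∑ j, H i j * f i * g j

/-- The linear sum. -/
def LL (S : ι → ℝ) (f : ι → ℝ) : ℝ := ∑ i, S i * f i

/-- The weighted square sum. -/
noncomputable def WW (S h : ι → ℝ) (f : ι → ℝ) : ℝ := ∑ i, S i * f i ^ 2 / h i

lemma J_eq (v : (ι → ℝ) → ℝ) (S : (ι → ℝ) → ι → ℝ) (H : (ι → ℝ) → ι → ι → ℝ) (h f : ι → ℝ) :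
    J v S H h f = -(BB (H h) f f) + 2 / (3 * v h) * LL (S h) f ^ 2 := rfl

lemma Q_eq (v : (ι → ℝ) → ℝ) (S : (ι → ℝ) → ι → ℝ) (h f : ι → ℝ) :
    Q v S h f = WW (S h) h f - LL (S h) f ^ 2 / (3 * v h) := rfl

lemma LL_add (S f g : ι → ℝ) : LL S (f + g) = LL S f + LL S g := by
  unfold LL
  rw [← Finset.sum_add_distrib]
  refine Finset.sum_congr rfl (fun i _ => ?_)
  rw [Pi.add_apply]
  ring

lemma LL_smul (S f : ι → ℝ) (c : ℝ) : LL S (c • f) = c * LL S f := by
  unfold LL
  rw [Finset.mul_sum]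
  refine Finset.sum_congr rfl (fun i _ => ?_)
  rw [Pi.smul_apply, smul_eq_mul]
  ring

lemma BB_add_left (H : ι → ι → ℝ) (f g k : ι → ℝ) : BB H (f + g) k = BB H f k + BB H g k := by
  unfold BB
  rw [← Finset.sum_add_distrib]
  refine Finset.sum_congr rfl (fun i _ => ?_)
  rw [← Finset.sum_add_distrib]
  refine Finset.sum_congr rfl (fun j _ => ?_)
  rw [Pi.add_apply]
  ring

lemma BB_add_right (H : ι → ι → ℝ) (f g k : ι → ℝ) : BB H k (f + g) = BB H k f + BB H k g := by
  unfold BB
  rw [← Finset.sum_add_distrib]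
  refine Finset.sum_congr rfl (fun i _ => ?_)
  rw [← Finset.sum_add_distrib]
  refine Finset.sum_congr rfl (fun j _ => ?_)
  rw [Pi.add_apply]
  ring

lemma BB_smul_left (H : ι → ι → ℝ) (f k : ι → ℝ) (c : ℝ) : BB H (c • f) k = c * BB H f k := by
  unfold BB
  rw [Finset.mul_sum]
  refine Finset.sum_congr rfl (fun i _ => ?_)
  rw [Finset.mul_sum]
  refine Finset.sum_congr rfl (fun j _ => ?_)
  rw [Pi.smul_apply, smul_eq_mul]
  ring

lemma BB_smul_right (H : ι → ι → ℝ) (f k : ι → ℝ) (c : ℝ) : BB H k (c • f) = c * BB H k f := by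
  unfold BB
  rw [Finset.mul_sum]
  refine Finset.sum_congr rfl (fun i _ => ?_)
  rw [Finset.mul_sum]
  refine Finset.sum_congr rfl (fun j _ => ?_)
  rw [Pi.smul_apply, smul_eq_mul]
  ring

lemma BB_comm (H : ι → ι → ℝ) (hH : ∀ i j, H i j = H j i) (f g : ι → ℝ) : BB H f g = BB H g f := by
  unfold BB
  rw [Finset.sum_comm]
  refine Finset.sum_congr rfl (fun i _ => ?_)
  refine Finset.sum_congr rfl (fun j _ => ?_)
  rw [hH j i]
  ring

lemma BB_h (H : ι → ι → ℝ) (S h f : ι → ℝ) (h2 : ∀ i, ∑ j, H i j * h j = 2 * S i) :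
    BB H f h = 2 * LL S f := by
  unfold BB LL
  rw [Finset.mul_sum]
  refine Finset.sum_congr rfl (fun i _ => ?_)
  have e : ∑ j, H i j * f i * h j = f i * ∑ j, H i j * h j := by
    rw [Finset.mul_sum]
    refine Finset.sum_congr rfl (fun j _ => ?_)
    ring
  rw [e, h2 i]
  ring

lemma WW_add (S h f : ι → ℝ) (c : ℝ) (hp : ∀ i, 0 < h i) :
    WW S h (f + c • h) = WW S h f + 2 * c * LL S f + c ^ 2 * LL S h := by
  unfold WW LL
  rw [Finset.mul_sum, Finset.mul_sum, ← Finset.sum_add_distrib, ← Finset.sum_add_distrib]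
  refine Finset.sum_congr rfl (fun i _ => ?_)
  rw [Pi.add_apply, Pi.smul_apply, smul_eq_mul]
  have := (hp i).ne'
  field_simp
  ring

lemma WW_smul (S h f : ι → ℝ) (c : ℝ) : WW S h (c • f) = c ^ 2 * WW S h f := by
  unfold WW
  rw [Finset.mul_sum]
  refine Finset.sum_congr rfl (fun i _ => ?_)
  rw [Pi.smul_apply, smul_eq_mul]
  ring

lemma CS (S h f : ι → ℝ) (hS : ∀ i, 0 ≤ S i) (hp : ∀ i, 0 < h i) :
    LL S f ^ 2 ≤ LL S h * WW S h f := by
  unfold LL WW
  refine Finset.sum_sq_le_sum_mul_sum_of_sq_le_mul Finset.univ ?_ ?_ ?_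
  · intro i _
    exact mul_nonneg (hS i) (hp i).le
  · intro i _
    exact div_nonneg (mul_nonneg (hS i) (sq_nonneg _)) (hp i).le
  · intro i _
    have := (hp i).ne'
    refine le_of_eq ?_
    field_simp

end JQ_

open JQ_ in
theorem stmt_JQ : Stmt_JQ := by
  intro ι _ v S H C h hp
  have hv := C.vp h hp
  have he3 : LL (S h) h = 3 * v h := C.e3 h hp
  have hBh : ∀ f : ι → ℝ, BB (H h) f h = 2 * LL (S h) f :=
    fun f => BB_h (H h) (S h) h f (C.e2 h hp)
  have hsym : ∀ f g : ι → ℝ, BB (H h) f g = BB (H h) g f := BB_comm (H h) (C.Hs h hp)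
  refine ⟨?_, ?_, ?_, ?_, ?_, ?_⟩
  · intro f c
    constructor
    · rw [J_eq, J_eq, BB_add_left, BB_add_right, BB_add_right, BB_smul_left, BB_smul_right,
        BB_smul_left, BB_smul_right, hsym h f, hBh f, hBh h, LL_add, LL_smul, he3]
      field_simp
      ring
    · rw [Q_eq, Q_eq, WW_add _ _ _ _ hp, LL_add, LL_smul, he3]
      field_simp
      ring
  · intro f c
    constructor
    · rw [J_eq, J_eq, BB_smul_left, BB_smul_right, LL_smul]
      ring
    · rw [Q_eq, Q_eq, WW_smul, LL_smul]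
      ring
  · intro f c hc
    have hvc := C.hv h hp c hc
    have hSc := C.hS h hp c hc
    have hHc := C.hH h hp c hc
    have e1 : LL (S (c • h)) f = c ^ 2 * LL (S h) f := by
      unfold LL
      rw [Finset.mul_sum]
      refine Finset.sum_congr rfl (fun i _ => ?_)
      rw [hSc i]
      ring
    have e2 : BB (H (c • h)) f f = c * BB (H h) f f := by
      unfold BB
      rw [Finset.mul_sum]
      refine Finset.sum_congr rfl (fun i _ => ?_)
      rw [Finset.mul_sum]
      refine Finset.sum_congr rfl (fun j _ => ?_)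
      rw [hHc i j]
      ring
    have e3 : WW (S (c • h)) (c • h) f = c * WW (S h) h f := by
      unfold WW
      rw [Finset.mul_sum]
      refine Finset.sum_congr rfl (fun i _ => ?_)
      rw [hSc i, Pi.smul_apply, smul_eq_mul]
      have := (hp i).ne'
      field_simp
    constructor
    · rw [J_eq, J_eq, e1, e2, hvc]
      field_simp
    · rw [Q_eq, Q_eq, e1, e3, hvc]
      field_simp
  · intro f
    rw [Q_eq, sub_nonneg, div_le_iff₀ (by positivity)]
    have := CS (S h) h f (C.Sn h hp) hp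
    rw [he3] at this
    linarith
  · intro c hc
    have hS0 : 0 < ∑ i, S h i := by
      have h0 : 0 ≤ ∑ i, S h i := Finset.sum_nonneg (fun i _ => C.Sn h hp i)
      rcases h0.lt_or_eq with h1 | h1
      · exact h1
      · exfalso
        have h2 : ∀ i ∈ Finset.univ, S h i = 0 :=
          (Finset.sum_eq_zero_iff_of_nonneg (fun i _ => C.Sn h hp i)).1 h1.symm
        have h3 : LL (S h) h = 0 := by
          unfold LL
          refine Finset.sum_eq_zero (fun i hi => ?_)
          rw [h2 i hi, zero_mul]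
        rw [h3] at he3
        linarith
    unfold R
    have e1 : ∑ i, S (c • h) i = c ^ 2 * ∑ i, S h i := by
      rw [Finset.mul_sum]
      exact Finset.sum_congr rfl (fun i _ => C.hS h hp c hc i)
    rw [e1, C.hv h hp c hc, Real.log_mul (by positivity) hS0.ne',
      Real.log_mul (by positivity) hv.ne', Real.log_pow, Real.log_pow]
    push_cast
    ring
  · intro hJ f g
    set P : ℝ := -(BB (H h) f g) + 2 / (3 * v h) * (LL (S h) f * LL (S h) g) with hP
    have hexp : ∀ t : ℝ, J v S H h (f + t • g) = J v S H h g * (t * t) + (2 * P) * t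
        + J v S H h f := by
      intro t
      rw [J_eq, J_eq, J_eq, BB_add_left, BB_add_right, BB_add_right, BB_smul_left, BB_smul_right,
        BB_smul_left, BB_smul_right, hsym g f, LL_add, LL_smul, hP]
      ring
    have hd := discrim_le_zero (fun t => (hexp t) ▸ hJ (f + t • g))
    unfold discrim at hd
    have hJf := hJ f
    have hJg := hJ g
    have h1 : J v S H h (f + g) = J v S H h g + 2 * P + J v S H h f := by
      have := hexp 1
      rw [one_smul] at this
      rw [this]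
      ring
    have h2 : P ≤ Real.sqrt (J v S H h f) * Real.sqrt (J v S H h g) := by
      rw [← Real.sqrt_mul hJf]
      refine Real.le_sqrt_of_sq_le ?_
      linarith
    refine Real.sqrt_le_iff.2 ⟨by positivity, ?_⟩
    rw [h1]
    have h3 := Real.sq_sqrt hJf
    have h4 := Real.sq_sqrt hJg
    have h5 : (Real.sqrt (J v S H h f) + Real.sqrt (J v S H h g)) ^ 2
        = Real.sqrt (J v S H h f) ^ 2 + 2 * (Real.sqrt (J v S H h f) * Real.sqrt (J v S H h g))
          + Real.sqrt (J v S H h g) ^ 2 := by ring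
    rw [h5, h3, h4]
    linarith

end Pool.T3
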