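import Pool.Agent.Work.MP_b5407d_t3.Interface
import Pool.Agent.Work.MP_b5407d_lp.Interface

/-!
# T3, Part L: from admissible families to convex bodies of `EuclideanSpace ℝ (Fin 3)`

Uses the definitions `E`, `supp`, `Wulff`, `CBody`, `mp`, `Span`, `Pset` and the proved statements
`Stmt_CEN` (`helper23.stmt_CEN`), `Stmt_WUL` (`helper57.stmt_WUL`) of `Pool.Agent.Work.LPBM`.
-/

set_option autoImplicit false

open MeasureTheory Set Filter Topology

namespace Pool.T3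

open Pool.Agent.Work.LPBM (E supp Wulff CBody mp Span Pset)

/-- `GPD`: admissible families are dense.
Proof: `g i = (1, x i, x i ^ 2)` with distinct `x i = i`; `de (θ i + s g i) (θ j + s g j) (θ k + s g k)` is a
polynomial in `s` with the leading coefficient `de (g i) (g j) (g k) ≠ 0` (Vandermonde), so it is nonzero
except for finitely many `s`; choose `s > 0` small outside the finitely many bad values, and normalise:
`u i = (θ i + s g i)/|θ i + s g i|` is close to `θ i`. -/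
def Stmt_GPD : Prop :=
  ∀ (N : ℕ) (θ : Fin N → R3), 3 ≤ N → (∀ i, dt (θ i) (θ i) = 1) → ∀ η : ℝ, 0 < η →
    ∃ u : Fin N → R3, Fam u ∧ ∀ i k, |u i k - θ i k| < η

/-- `USC`: upper semicontinuity of the volume.
Proof: for `3 η ≤ c/2`, `x ∈ K u h`: `c ‖x‖ ≤ |dt (θ i) x| ≤ |dt (u i) x| + 3 η ‖x‖ ≤ h i + 3 η ‖x‖`
(sup norm), so `‖x‖ ≤ r` with a fixed `r`, and `|dt (θ i) x| ≤ h i + 3 η r ≤ m i + η (1 + 3 r)`:
`K u h ⊆ K θ (m + η (1 + 3 r))`.  As `s ↓ 0` the sets `K θ (m + s)` decrease to `K θ m`, all of finite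
volume; continuity from above. -/
def Stmt_USC : Prop :=
  ∀ (N : ℕ) (θ : Fin N → R3) (m : Fin N → ℝ) (c : ℝ), 0 < c → (∀ x : R3, ∃ i, c * ‖x‖ ≤ |dt (θ i) x|) →
    ∀ ε : ℝ, 0 < ε → ∃ η : ℝ, 0 < η ∧ ∀ (u : Fin N → R3) (h : Fin N → ℝ),
      (∀ i k, |u i k - θ i k| < η) → (∀ i, |h i - m i| < η) → V u h ≤ V θ m + ε

/-- `GEN3` (from `FINI`, `GPD`, `USC`, `LPBM.Stmt_CEN`, `LPBM.Stmt_WUL`): the inequality for bodies.
Proof: let `M(u) = mp p t (supp K u) (supp C u)`, continuous, positive and even on the sphere (`CEN`; the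
bodies are symmetric).  Apply `WUL` with `c = vol(K)^(1-t) vol(C)^t`.  Given `θ : Fin N → E 3`, symmetric and
spanning (so `3 ≤ N`), `Pset θ (M ∘ θ) = {x : |θ i . x| ≤ M (θ i)}` because `M` is even and `θ (σ i) = -θ i`.
For an admissible family `u` close to `θ` (`GPD`): `FINI` with `a = supp K ∘ u`, `b = supp C ∘ u`:
`V u (M ∘ u)^(p/3) ≥ (1-t) V u a^(p/3) + t V u b^(p/3) ≥ (V u a^(1-t) V u b^t)^(p/3)` (weighted
AM-GM), and `vol K ≤ V u a`, `vol C ≤ V u b` because `K ⊆ {|u i . x| ≤ supp K (u i)}`.  So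
`c ≤ V u (M ∘ u) ≤ V θ (M ∘ θ) + ε` by `USC` (continuity of `M`).  The volume on `E 3` is the one of
`Fin 3 → ℝ` (`PiLp.volume_preserving_toLp`, `EuclideanSpace.volume_preserving_...`). -/
def Stmt_GEN3 : Prop :=
  ∀ (p : ℝ) (K C : Set (E 3)), 1 / 2 ≤ p → p < 1 → CBody K → CBody C → (∀ x ∈ K, -x ∈ K) →
    (∀ x ∈ C, -x ∈ C) → ∀ t ∈ Icc (0 : ℝ) 1,
      (volume K).toReal ^ (1 - t) * (volume C).toReal ^ t ≤
        (volume (Wulff (fun u => mp p t (supp K u) (supp C u)))).toReal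

/-- `EQL3` (from `GEN3`, `LPBM.Stmt_CEN`): equality, equal volumes.
Proof: copy `Work/MP_b5407d_lp_helper68/EQL.lean` (`stmt_EQL`) with `p0 = 1/2 < p`. -/
def Stmt_EQL3 : Prop :=
  ∀ (p : ℝ) (K C : Set (E 3)), 1 / 2 < p → p < 1 → CBody K → CBody C → (∀ x ∈ K, -x ∈ K) →
    (∀ x ∈ C, -x ∈ C) → (volume K).toReal = (volume C).toReal → ∀ t ∈ Ioo (0 : ℝ) 1,
      (volume (Wulff (fun u => mp p t (supp K u) (supp C u)))).toReal = (volume K).toReal → K = C

/-- `FIN3` (from `GEN3`, `EQL3`, `LPBM.Stmt_CEN`): the theorem.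
Proof: copy `Work/MP_b5407d_lp_helper68/FIN.lean` (`stmt_FIN`); a symmetric body has centroid `0`
(`∫ x in K, x = ∫ x in K, -x`). -/
def Stmt_FIN3 : Prop :=
  ∀ (p : ℝ), 1 / 2 ≤ p → p < 1 →
  ∀ (K C : Set (EuclideanSpace ℝ (Fin 3))),
    Convex ℝ K → IsCompact K → (interior K).Nonempty → (∀ x ∈ K, -x ∈ K) →
    Convex ℝ C → IsCompact C → (interior C).Nonempty → (∀ x ∈ C, -x ∈ C) →
    ∀ (α β : ℝ), 0 < α → 0 < β →
      (α * (volume K).toReal ^ (p / 3) + β * (volume C).toReal ^ (p / 3)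
        ≤ (volume {x : EuclideanSpace ℝ (Fin 3) |
              ∀ u ∈ Metric.sphere (0 : EuclideanSpace ℝ (Fin 3)) 1,
                inner ℝ x u ≤ (α * (sSup ((fun y : EuclideanSpace ℝ (Fin 3) => inner ℝ y u) '' K)) ^ p
                    + β * (sSup ((fun y : EuclideanSpace ℝ (Fin 3) => inner ℝ y u) '' C)) ^ p) ^ (1 / p)}).toReal ^ (p / 3))
      ∧ (1 / 2 < p →
        ((volume {x : EuclideanSpace ℝ (Fin 3) |
              ∀ u ∈ Metric.sphere (0 : EuclideanSpace ℝ (Fin 3)) 1,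
                inner ℝ x u ≤ (α * (sSup ((fun y : EuclideanSpace ℝ (Fin 3) => inner ℝ y u) '' K)) ^ p
                    + β * (sSup ((fun y : EuclideanSpace ℝ (Fin 3) => inner ℝ y u) '' C)) ^ p) ^ (1 / p)}).toReal ^ (p / 3)
          = α * (volume K).toReal ^ (p / 3) + β * (volume C).toReal ^ (p / 3)
        ↔ ∃ t : ℝ, 0 < t ∧ C = (fun x : EuclideanSpace ℝ (Fin 3) => t • x) '' K))

end Pool.T3
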