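import Pool.Agent.Work.MP_b5407d_t3.Interface
import Pool.Agent.Work.MP_3892ce_static.BM
import Pool.Agent.Work.MP_3892ce_static.PLN
import Pool.Agent.Work.MP_3892ce_static.PL1

set_option autoImplicit false

open MeasureTheory Set Filter Topology
open scoped Pointwise

namespace Pool.T3

namespace BM2_

open Pool.Agent.Work.MP_3892ce_static (E)

/-- the two coordinates -/
noncomputable def psi (x : E 2) : ℝ × ℝ := (x 0, x 1)

lemma psi_mp : MeasurePreserving psi volume volume :=
  (volume_preserving_finTwoArrow ℝ).comp (PiLp.volume_preserving_ofLp (Fin 2))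

noncomputable def phi (p : ℝ × ℝ) : E 2 := WithLp.toLp 2 ![p.1, p.2]

lemma phi_cont : Continuous phi := by
  unfold phi
  refine (PiLp.continuous_toLp 2 _).comp ?_
  refine continuous_pi fun i => ?_
  fin_cases i
  · exact continuous_fst
  · exact continuous_snd

lemma psi_phi (p : ℝ × ℝ) : psi (phi p) = p := rfl

lemma phi_psi (x : E 2) : phi (psi x) = x := by
  ext i
  fin_cases i <;> rfl

lemma pre_eq (A : Set (ℝ × ℝ)) : psi ⁻¹' A = phi '' A := by
  ext x
  constructor
  · intro hx
    exact ⟨psi x, hx, phi_psi x⟩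
  · rintro ⟨p, hp, rfl⟩
    exact hp

lemma vol_smul2 (A : Set (E 2)) {r : ℝ} (hr : 0 < r) :
    (volume (r • A)).toReal = r ^ 2 * (volume A).toReal := by
  rw [Measure.addHaar_smul, finrank_euclideanSpace, Fintype.card_fin, ENNReal.toReal_mul,
    abs_of_pos (pow_pos hr 2), ENNReal.toReal_ofReal (pow_pos hr 2).le]

/-- Brunn-Minkowski in `ℝ × ℝ` -/
lemma bm_prod {A B C : Set (ℝ × ℝ)} (hA : IsCompact A) (hB : IsCompact B) (hC : IsCompact C)
    (hAn : A.Nonempty) (hBn : B.Nonempty) {t : ℝ} (ht : t ∈ Icc (0 : ℝ) 1)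
    (h : ∀ a ∈ A, ∀ b ∈ B, (1 - t) • a + t • b ∈ C) :
    (1 - t) * √(volume A).toReal + t * √(volume B).toReal ≤ √(volume C).toReal := by
  obtain ⟨h0, h1⟩ := ht
  have vA : volume (psi ⁻¹' A) = volume A :=
    psi_mp.measure_preimage hA.measurableSet.nullMeasurableSet
  have vB : volume (psi ⁻¹' B) = volume B :=
    psi_mp.measure_preimage hB.measurableSet.nullMeasurableSet
  have vC : volume (psi ⁻¹' C) = volume C :=
    psi_mp.measure_preimage hC.measurableSet.nullMeasurableSet
  rcases eq_or_lt_of_le h0 with h0 | h0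
  · subst h0
    have : A ⊆ C := fun a ha => by
      obtain ⟨b, hb⟩ := hBn
      simpa using h a ha b hb
    simp only [sub_zero, one_mul, zero_mul, add_zero]
    exact Real.sqrt_le_sqrt (ENNReal.toReal_mono hC.measure_lt_top.ne (measure_mono this))
  rcases eq_or_lt_of_le h1 with h1 | h1
  · subst h1
    have : B ⊆ C := fun b hb => by
      obtain ⟨a, ha⟩ := hAn
      simpa using h a ha b hb
    simp only [sub_self, zero_mul, one_mul, zero_add]
    exact Real.sqrt_le_sqrt (ENNReal.toReal_mono hC.measure_lt_top.ne (measure_mono this))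
  have cA : IsCompact (psi ⁻¹' A) := by rw [pre_eq]; exact hA.image phi_cont
  have cB : IsCompact (psi ⁻¹' B) := by rw [pre_eq]; exact hB.image phi_cont
  have cC : IsCompact (psi ⁻¹' C) := by rw [pre_eq]; exact hC.image phi_cont
  have nA : (psi ⁻¹' A).Nonempty := by rw [pre_eq]; exact hAn.image _
  have nB : (psi ⁻¹' B).Nonempty := by rw [pre_eq]; exact hBn.image _
  have ht1 : 0 < 1 - t := by linarith
  have key := Pool.Agent.Work.MP_3892ce_static.blk_BM
    (Pool.Agent.Work.MP_3892ce_static.blk_PLN Pool.Agent.Work.MP_3892ce_static.blk_PL1) 2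
    (by norm_num) ((1 - t) • (psi ⁻¹' A)) (t • (psi ⁻¹' B)) (cA.smul _) (cB.smul _)
    (nA.smul_set) (nB.smul_set)
  rw [vol_smul2 _ ht1, vol_smul2 _ h0, vA, vB] at key
  have e2 : ((1 : ℝ) / ((2 : ℕ) : ℝ)) = 1 / 2 := by norm_num
  rw [e2, ← Real.sqrt_eq_rpow, ← Real.sqrt_eq_rpow, ← Real.sqrt_eq_rpow,
    Real.sqrt_mul (by positivity), Real.sqrt_mul (by positivity), Real.sqrt_sq ht1.le,
    Real.sqrt_sq h0.le] at key
  refine key.trans (Real.sqrt_le_sqrt ?_)
  rw [← vC]
  refine ENNReal.toReal_mono cC.measure_lt_top.ne (measure_mono ?_)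
  rintro x ⟨y, ⟨a, ha, rfl⟩, z, ⟨b, hb, rfl⟩, rfl⟩
  exact h _ ha _ hb

/-- the facet in coordinates -/
def F {ι : Type} (u : ι → R3) (i j : ι) (h : ι → ℝ) : Set (ℝ × ℝ) :=
  {p | |p.1| ≤ h j ∧ ∀ m, m ≠ i → m ≠ j →
    |dt (u m) (pt u i j (h i) p.1) + p.2 * de (u i) (u j) (u m)| ≤ h m}

lemma dt_add (a b c : R3) : dt a (b + c) = dt a b + dt a c := by
  simp only [dt, Pi.add_apply]; ring

lemma dt_smul (r : ℝ) (a b : R3) : dt a (r • b) = r * dt a b := by
  simp only [dt, Pi.smul_apply, smul_eq_mul]; ring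

lemma pt_lin {ι : Type} (u : ι → R3) (i j : ι) (a b a' b' s t : ℝ) :
    pt u i j (s * a + t * a') (s * b + t * b') = s • pt u i j a b + t • pt u i j a' b' := by
  unfold pt
  module

lemma dt_cont (a : R3) : Continuous (fun x : R3 => dt a x) := by
  unfold dt
  fun_prop

variable {ι : Type} [Fintype ι] [DecidableEq ι] {u : ι → R3}

omit [Fintype ι] [DecidableEq ι] in
/-- third index -/
lemma third (hu : Fam u) (i : ι) : ∃ j, i ≠ j := by
  obtain ⟨a, b, c, hab, hac, hbc⟩ := hu.three
  by_cases h : i = a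
  · exact ⟨b, h ▸ hab⟩
  · exact ⟨a, h⟩

lemma F_compact (hCOO : Stmt_COO) (hBND : Stmt_BND) (hu : Fam u) {i j : ι} (hij : i ≠ j)
    {h : ι → ℝ} (hh : Pos h) : IsCompact (F u i j h) := by
  have hcr := hCOO.2 ι u i j hu hij
  obtain ⟨-, hc⟩ := hCOO.1 ι u i j hcr
  have hK := ((hBND ι u hu).1 h).1
  set n : R3 := cr (u i) (u j) with hn
  have hnn : dt n n ≠ 0 := by
    intro h0
    apply hcr
    have h1 : n 0 = 0 := by unfold dt at h0; nlinarith [sq_nonneg (n 0), sq_nonneg (n 1), sq_nonneg (n 2)]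
    have h2 : n 1 = 0 := by unfold dt at h0; nlinarith [sq_nonneg (n 0), sq_nonneg (n 1), sq_nonneg (n 2)]
    have h3 : n 2 = 0 := by unfold dt at h0; nlinarith [sq_nonneg (n 0), sq_nonneg (n 1), sq_nonneg (n 2)]
    ext l
    fin_cases l
    · exact h1
    · exact h2
    · exact h3
  have horth : ∀ α β, dt n (pt u i j α β) = 0 := by
    intro α β
    rw [hn]
    simp only [pt, dt, cr, Pi.smul_apply, Pi.add_apply, smul_eq_mul, Matrix.cons_val_zero,
      Matrix.cons_val_one, Matrix.cons_val]
    ring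
  have himg : F u i j h = (fun x : R3 => (dt (u j) x, dt n x / dt n n)) ''
      (K u h ∩ {x | dt (u i) x = h i}) := by
    ext p
    constructor
    · rintro ⟨h1, h2⟩
      obtain ⟨c1, c2, c3⟩ := hc (h i) p.1 p.2
      refine ⟨pt u i j (h i) p.1 + p.2 • n, ⟨?_, c1⟩, ?_⟩
      · intro m
        by_cases hmi : m = i
        · subst hmi
          rw [c1, abs_of_pos (hh m)]
        by_cases hmj : m = j
        · subst hmj
          rw [c2]; exact h1
        rw [c3]
        exact h2 m hmi hmj
      · refine Prod.ext c2 ?_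
        show dt n _ / dt n n = p.2
        rw [dt_add, dt_smul, horth, zero_add, mul_div_assoc, div_self hnn, mul_one]
    · rintro ⟨x, ⟨hx, hxi⟩, rfl⟩
      -- x = pt (h i) β + c n
      have hx' : x = pt u i j (h i) (dt (u j) x) + (dt n x / dt n n) • n := by
        set y := pt u i j (h i) (dt (u j) x) + (dt n x / dt n n) • n with hy
        obtain ⟨c1, c2, c3⟩ := hc (h i) (dt (u j) x) (dt n x / dt n n)
        have d1 : dt (u i) (x - y) = 0 := by
          have : dt (u i) (x - y) = dt (u i) x - dt (u i) y := by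
            simp only [dt, Pi.sub_apply]; ring
          rw [this, c1, hxi, sub_self]
        have d2 : dt (u j) (x - y) = 0 := by
          have : dt (u j) (x - y) = dt (u j) x - dt (u j) y := by
            simp only [dt, Pi.sub_apply]; ring
          rw [this, c2, sub_self]
        have d3 : dt n (x - y) = 0 := by
          have : dt n (x - y) = dt n x - dt n y := by
            simp only [dt, Pi.sub_apply]; ring
          rw [this, hy, dt_add, dt_smul, horth, zero_add, div_mul_cancel₀ _ hnn, sub_self]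
        have hz : ∀ l, (x - y) l = 0 := by
          set z := x - y with hz
          have e0 : dt n n * z 0 = 0 := by
            have : dt n n * z 0 = dt (u i) z * (cr (u j) n) 0 + dt (u j) z * (cr n (u i)) 0 +
                dt n z * n 0 := by
              rw [hn]
              simp only [dt, cr, Matrix.cons_val_zero, Matrix.cons_val_one, Matrix.cons_val]
              ring
            rw [this, d1, d2, d3]; ring
          have e1 : dt n n * z 1 = 0 := by
            have : dt n n * z 1 = dt (u i) z * (cr (u j) n) 1 + dt (u j) z * (cr n (u i)) 1 +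
                dt n z * n 1 := by
              rw [hn]
              simp only [dt, cr, Matrix.cons_val_zero, Matrix.cons_val_one, Matrix.cons_val]
              ring
            rw [this, d1, d2, d3]; ring
          have e2 : dt n n * z 2 = 0 := by
            have : dt n n * z 2 = dt (u i) z * (cr (u j) n) 2 + dt (u j) z * (cr n (u i)) 2 +
                dt n z * n 2 := by
              rw [hn]
              simp only [dt, cr, Matrix.cons_val_zero, Matrix.cons_val_one, Matrix.cons_val]
              ring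
            rw [this, d1, d2, d3]; ring
          intro l
          fin_cases l
          · exact (mul_eq_zero.mp e0).resolve_left hnn
          · exact (mul_eq_zero.mp e1).resolve_left hnn
          · exact (mul_eq_zero.mp e2).resolve_left hnn
        ext l
        have := hz l
        rw [Pi.sub_apply] at this
        linarith
      obtain ⟨c1, c2, c3⟩ := hc (h i) (dt (u j) x) (dt n x / dt n n)
      refine ⟨hx j, fun m hmi hmj => ?_⟩
      show |dt (u m) (pt u i j (h i) (dt (u j) x)) + dt n x / dt n n * de (u i) (u j) (u m)| ≤ h m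
      rw [← c3 m, ← hx']
      exact hx m
  rw [himg]
  refine (hK.inter_right (isClosed_eq (dt_cont _) continuous_const)).image ?_
  exact (dt_cont _).prodMk ((dt_cont _).div_const _)

/-- volume of a compact planar set by slices -/
lemma vol_slice {A : Set (ℝ × ℝ)} (hc : IsCompact A) {r : ℝ} (hr : 0 ≤ r) {g : ℝ → ℝ}
    (hg : Continuous g) (g0 : ∀ β, 0 ≤ g β) (h1 : ∀ p ∈ A, p.1 ∈ Icc (-r) r)
    (h2 : ∀ β ∈ Icc (-r) r, (volume (Prod.mk β ⁻¹' A)).toReal = g β) :
    (volume A).toReal = ∫ β in (-r)..r, g β := by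
  have hsec : ∀ β : ℝ, volume (Prod.mk β ⁻¹' A) =
      (Icc (-r) r).indicator (fun β => ENNReal.ofReal (g β)) β := by
    intro β
    by_cases hβ : β ∈ Icc (-r) r
    · rw [indicator_of_mem hβ, ← h2 β hβ]
      have hcl : IsClosed (Prod.mk β ⁻¹' A) := hc.isClosed.preimage (Continuous.prodMk_right β)
      have hb : Bornology.IsBounded (Prod.mk β ⁻¹' A) := by
        refine (hc.image continuous_snd).isBounded.subset ?_
        intro c hcm
        exact ⟨(β, c), hcm, rfl⟩
      have hfin : volume (Prod.mk β ⁻¹' A) ≠ ⊤ :=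
        (Metric.isCompact_of_isClosed_isBounded hcl hb).measure_lt_top.ne
      rw [ENNReal.ofReal_toReal hfin]
    · rw [indicator_of_notMem hβ]
      have : Prod.mk β ⁻¹' A = ∅ := by
        ext c
        simp only [mem_empty_iff_false, iff_false]
        intro hx
        exact hβ (h1 _ hx)
      rw [this, measure_empty]
  have e1 : volume A = ∫⁻ β, volume (Prod.mk β ⁻¹' A) := by
    rw [Measure.volume_eq_prod, Measure.prod_apply hc.measurableSet]
  have e2 : volume A = ∫⁻ β in Icc (-r) r, ENNReal.ofReal (g β) := by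
    rw [e1, lintegral_congr hsec, lintegral_indicator measurableSet_Icc]
  have e3 : ∫⁻ β in Icc (-r) r, ENNReal.ofReal (g β) = ENNReal.ofReal (∫ β in Icc (-r) r, g β) :=
    (ofReal_integral_eq_lintegral_ofReal hg.integrableOn_Icc
      (Filter.Eventually.of_forall g0)).symm
  rw [e2, e3, ENNReal.toReal_ofReal (integral_nonneg g0),
    intervalIntegral.integral_of_le (by linarith), integral_Icc_eq_integral_Ioc]

lemma Lam_cont (hLAMC : Stmt_LAMC) (hu : Fam u) {i j : ι} (hij : i ≠ j) (h : ι → ℝ) :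
    Continuous (fun β : ℝ => Lam u i j (h i) β h) := by
  have hL := hLAMC ι u hu i j hij
  have l1 := hL.1
  have hc2 : Continuous (fun β : ℝ => ((h i, β, h) : ℝ × ℝ × (ι → ℝ))) := 
    continuous_const.prodMk (continuous_id.prodMk continuous_const)
  have hc3 := l1.comp hc2
  exact hc3

lemma Lam_nn (hLAMC : Stmt_LAMC) (hu : Fam u) {i j : ι} (hij : i ≠ j) (h : ι → ℝ) (β : ℝ) :
    0 ≤ Lam u i j (h i) β h := (hLAMC ι u hu i j hij).2.1 (h i) β h

lemma F_vol (hLAMC : Stmt_LAMC) (hu : Fam u) {i j : ι} (hij : i ≠ j) {h : ι → ℝ} (hh : Pos h)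
    (hc : IsCompact (F u i j h)) :
    (volume (F u i j h)).toReal = ∫ β in (-h j)..(h j), Lam u i j (h i) β h := by
  have c1 := Lam_cont hLAMC hu hij h
  have c2 := Lam_nn hLAMC hu hij h
  have c3 : ∀ p ∈ F u i j h, p.1 ∈ Icc (-h j) (h j) := fun p hp => abs_le.mp hp.1
  have c4 : ∀ β ∈ Icc (-h j) (h j), (volume (Prod.mk β ⁻¹' F u i j h)).toReal =
      Lam u i j (h i) β h := by
    intro β hβ
    have e : Prod.mk β ⁻¹' F u i j h = {c : ℝ | ∀ m, m ≠ i → m ≠ j →
        |dt (u m) (pt u i j (h i) β) + c * de (u i) (u j) (u m)| ≤ h m} := by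
      ext c
      constructor
      · intro hx
        exact hx.2
      · intro hx
        exact ⟨abs_le.mpr hβ, hx⟩
    rw [e]
    rfl
  have c5 := vol_slice hc (hh j).le c1 c2 c3 c4
  exact c5

end BM2_

open BM2_

theorem stmt_BM2 (hSF : Stmt_SF) (hCOO : Stmt_COO) (hBND : Stmt_BND) (_hLAMF : Stmt_LAMF)
    (hLAMC : Stmt_LAMC) : Stmt_BM2 := by
  intro ι _ _ u hu h h' hh hh' i hS hS' t ht
  obtain ⟨j, hij⟩ := third hu i
  obtain ⟨ht0, ht1⟩ := ht
  set h'' : ι → ℝ := (1 - t) • h + t • h' with hh''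
  have hp'' : Pos h'' := by
    intro m
    show 0 < (1 - t) * h m + t * h' m
    rcases eq_or_lt_of_le ht0 with h0 | h0
    · rw [← h0]; simpa using hh m
    · have := mul_pos h0 (hh' m)
      have := mul_nonneg (sub_nonneg.mpr ht1) (hh m).le
      linarith
  have c := F_compact hCOO hBND hu hij hh
  have c' := F_compact hCOO hBND hu hij hh'
  have c'' := F_compact hCOO hBND hu hij hp''
  have e : S u h i = 2 * (volume (F u i j h)).toReal := by
    rw [F_vol hLAMC hu hij hh c, (hSF ι u hu i j hij h hh).2]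
  have e' : S u h' i = 2 * (volume (F u i j h')).toReal := by
    rw [F_vol hLAMC hu hij hh' c', (hSF ι u hu i j hij h' hh').2]
  have e'' : S u h'' i = 2 * (volume (F u i j h'')).toReal := by
    rw [F_vol hLAMC hu hij hp'' c'', (hSF ι u hu i j hij h'' hp'').2]
  have hne : (F u i j h).Nonempty := by
    by_contra hcon
    rw [not_nonempty_iff_eq_empty] at hcon
    rw [e, hcon] at hS
    simp at hS
  have hne' : (F u i j h').Nonempty := by
    by_contra hcon
    rw [not_nonempty_iff_eq_empty] at hcon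
    rw [e', hcon] at hS'
    simp at hS'
  have key := bm_prod c c' c'' hne hne' ⟨ht0, ht1⟩ (by
    rintro a ⟨ha1, ha2⟩ b ⟨hb1, hb2⟩
    have hs0 : 0 ≤ 1 - t := by linarith
    refine ⟨?_, fun m hmi hmj => ?_⟩
    · show |(1 - t) * a.1 + t * b.1| ≤ (1 - t) * h j + t * h' j
      refine (abs_add_le _ _).trans ?_
      rw [abs_mul, abs_mul, abs_of_nonneg hs0, abs_of_nonneg ht0]
      exact add_le_add (mul_le_mul_of_nonneg_left ha1 hs0) (mul_le_mul_of_nonneg_left hb1 ht0)
    · show |dt (u m) (pt u i j ((1 - t) * h i + t * h' i) ((1 - t) * a.1 + t * b.1)) +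
        ((1 - t) * a.2 + t * b.2) * de (u i) (u j) (u m)| ≤ (1 - t) * h m + t * h' m
      rw [pt_lin, dt_add, dt_smul, dt_smul]
      have : (1 - t) * dt (u m) (pt u i j (h i) a.1) + t * dt (u m) (pt u i j (h' i) b.1) +
          ((1 - t) * a.2 + t * b.2) * de (u i) (u j) (u m) =
          (1 - t) * (dt (u m) (pt u i j (h i) a.1) + a.2 * de (u i) (u j) (u m)) +
          t * (dt (u m) (pt u i j (h' i) b.1) + b.2 * de (u i) (u j) (u m)) := by ring
      rw [this]
      refine (abs_add_le _ _).trans ?_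
      rw [abs_mul, abs_mul, abs_of_nonneg hs0, abs_of_nonneg ht0]
      exact add_le_add (mul_le_mul_of_nonneg_left (ha2 m hmi hmj) hs0)
        (mul_le_mul_of_nonneg_left (hb2 m hmi hmj) ht0))
  rw [e, e', e'', Real.sqrt_mul (by norm_num), Real.sqrt_mul (by norm_num),
    Real.sqrt_mul (by norm_num)]
  nlinarith [Real.sqrt_nonneg 2]

end Pool.T3
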