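import Pool.Agent.Work.MP_b5407d_t3.Interface

set_option autoImplicit false

open MeasureTheory Set Filter Topology

namespace Pool.T3

theorem stmt_CALC (hDVS : Stmt_DVS) (hHOM : Stmt_HOM) (hSGN : Stmt_SGN) (hSLB : Stmt_SLB)
    (hTCH : Stmt_TCH) (hSQC : Stmt_SQC) (hKNK : Stmt_KNK) (hVAN : Stmt_VAN) (hGAP : Stmt_GAP) :
    Stmt_CALC := by
  intro ι _ _ u hu
  obtain ⟨d1, d2, d3, d4, d5, d6⟩ := hDVS ι u hu
  exact
    { dv := d1
      dS := d2
      cH := d3
      vp := fun h hh => (hSGN ι u hu h hh).1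
      Sn := fun h hh => (hSGN ι u hu h hh).2.1
      Hs := d4
      Hn := fun h hh => (hSGN ι u hu h hh).2.2.1
      Hr := fun h hh => (hSGN ι u hu h hh).2.2.2
      e3 := d5
      e2 := d6
      hv := fun h hh c hc => (hHOM ι u hu h hh c hc).1
      hS := fun h hh c hc => (hHOM ι u hu h hh c hc).2.1
      hH := fun h hh c hc => (hHOM ι u hu h hh c hc).2.2
      slb := (hSLB ι u hu).1
      bal := (hSLB ι u hu).2
      ext := (hTCH ι u hu).2
      sqc := fun h hh f i hi => hSQC ι u hu h hh f i hi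
      cub := fun h hh hS f => hKNK ι u hu h hh hS f
      van := fun h hh => hVAN ι u hu h hh
      gap := ⟨1 / 486, by norm_num, fun h hh hS f => hGAP ι u hu h hh hS f⟩ }

end Pool.T3
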