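import Pool.Agent.Work.MP_b5407d_t3.Interface

/-!
# Block CU1: the volume is a cubic polynomial on one side of a point of a line
-/

set_option autoImplicit false

open MeasureTheory Set Filter Topology

namespace Pool.T3

/-- Antiderivative of a quadratic polynomial on one side of `0`. -/
theorem CU1_.anti (F F' : ℝ → ℝ) (a b c : ℝ)
    (h1 : ∀ᶠ t : ℝ in 𝓝[≥] 0, HasDerivAt F (F' t) t)
    (h2 : ∀ᶠ t : ℝ in 𝓝[≥] 0, F' t = a + b * t + c * t ^ 2) :
    ∀ᶠ t : ℝ in 𝓝[≥] 0, F t = F 0 + a * t + b * t ^ 2 / 2 + c * t ^ 3 / 3 := by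
  obtain ⟨e, he, hs⟩ := mem_nhdsGE_iff_exists_Ico_subset.mp (h1.and h2)
  have he0 : (0 : ℝ) < e := he
  filter_upwards [Ico_mem_nhdsGE he0] with t ht
  have hsub : ∀ s ∈ Icc 0 t, HasDerivAt F (F' s) s ∧ F' s = a + b * s + c * s ^ 2 :=
    fun s hs' => hs ⟨hs'.1, hs'.2.trans_lt ht.2⟩
  have hD : ∀ s ∈ Icc 0 t, HasDerivAt
      (fun s => F s - (a * s + b * s ^ 2 / 2 + c * s ^ 3 / 3)) 0 s := by
    intro s hs'
    obtain ⟨g1, g2⟩ := hsub s hs'
    have g3 : HasDerivAt (fun s : ℝ => a * s + b * s ^ 2 / 2 + c * s ^ 3 / 3)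
        (a + b * s + c * s ^ 2) s := by
      have k1 : HasDerivAt (fun s : ℝ => a * s) (a * 1) s := (hasDerivAt_id s).const_mul a
      have k2 : HasDerivAt (fun s : ℝ => b * s ^ 2 / 2) (b * ((2 : ℕ) * s ^ (2 - 1)) / 2) s :=
        ((hasDerivAt_pow 2 s).const_mul b).div_const 2
      have k3 : HasDerivAt (fun s : ℝ => c * s ^ 3 / 3) (c * ((3 : ℕ) * s ^ (3 - 1)) / 3) s :=
        ((hasDerivAt_pow 3 s).const_mul c).div_const 3
      refine ((k1.add k2).add k3).congr_deriv ?_
      push_cast
      simp only [Nat.add_one_sub_one, pow_one, mul_one]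
      ring
    refine (g1.sub g3).congr_deriv ?_
    rw [g2]
    ring
  have hk := constant_of_has_deriv_right_zero
    (fun s hs' => (hD s hs').continuousAt.continuousWithinAt)
    (fun s hs' => (hD s ⟨hs'.1, hs'.2.le⟩).hasDerivWithinAt) t (right_mem_Icc.mpr ht.1)
  simp only [mul_zero, ne_eq, OfNat.ofNat_ne_zero, not_false_eq_true, zero_pow, zero_div,
    add_zero, sub_zero] at hk
  linarith

theorem CU1_.pos {ι : Type} [Fintype ι] (h : ι → ℝ) (hh : Pos h) (f : ι → ℝ) :
    ∀ᶠ t : ℝ in 𝓝[≥] 0, Pos (h + t • f) := by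
  unfold Pos
  rw [Filter.eventually_all]
  intro i
  have h1 : Tendsto (fun t : ℝ => (h + t • f) i) (𝓝 0) (𝓝 (h i)) := by
    have h2 : Continuous (fun t : ℝ => (h + t • f) i) := by
      simp only [Pi.add_apply, Pi.smul_apply, smul_eq_mul]
      fun_prop
    have h3 := h2.tendsto 0
    simpa using h3
  exact nhdsWithin_le_nhds (h1.eventually (lt_mem_nhds (hh i)))

theorem CU1_.lin_apply {ι : Type} [Fintype ι] (a f : ι → ℝ) : lin a f = ∑ i, a i * f i := by
  unfold lin
  simp

theorem CU1_.line {ι : Type} [Fintype ι] (g : (ι → ℝ) → ℝ) (a h f : ι → ℝ) (t : ℝ)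
    (hg : HasFDerivAt g (lin a) (h + t • f)) :
    HasDerivAt (fun t : ℝ => g (h + t • f)) (∑ i, a i * f i) t := by
  have h1 : HasDerivAt (fun t : ℝ => h + t • f) f t := by
    have h2 : HasDerivAt (fun t : ℝ => t • f) ((1 : ℝ) • f) t :=
      (hasDerivAt_id t).smul_const f
    rw [one_smul] at h2
    exact h2.const_add h
  have h3 := hg.comp_hasDerivAt t h1
  rw [CU1_.lin_apply] at h3
  exact h3

theorem stmt_CU1 (hPWL : Stmt_PWL) (hDVS : Stmt_DVS) (hHOM : Stmt_HOM) : Stmt_CU1 := by
  intro ι _ _ u hu h hh f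
  obtain ⟨dv, dS, -, -, -, e2⟩ := hDVS ι u hu
  -- the areas are quadratic polynomials
  have hquad : ∀ i, ∃ q : ℝ, ∀ᶠ t : ℝ in 𝓝[≥] 0,
      S u (h + t • f) i = S u h i + t * (∑ j, H u h i j * f j) + q * t ^ 2 := by
    intro i
    set w : ℝ := f i / h i with hw
    set g : ι → ℝ := f - w • h with hg
    have hgi : g i = 0 := by
      have : h i ≠ 0 := (hh i).ne'
      simp only [hg, hw, Pi.sub_apply, Pi.smul_apply, smul_eq_mul]
      field_simp
      ring
    have hex : ∀ j, ∃ a : ℝ, ∀ᶠ t : ℝ in 𝓝[≥] 0,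
        H u (h + t • g) i j * g j = (H u h i j + a * t) * g j := by
      intro j
      by_cases hij : i = j
      · refine ⟨0, Eventually.of_forall fun t => ?_⟩
        rw [← hij, hgi, mul_zero, mul_zero]
      · obtain ⟨a, ha⟩ := hPWL ι u hu h hh g i j hij
        refine ⟨a, ?_⟩
        filter_upwards [ha] with t ht
        rw [ht]
    choose a ha using hex
    have hS := CU1_.anti (fun t => S u (h + t • g) i) (fun t => ∑ j, H u (h + t • g) i j * g j)
      (∑ j, H u h i j * g j) (∑ j, a j * g j) 0 ?_ ?_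
    · -- change of variables
      have hτ : Tendsto (fun t : ℝ => t / (1 + t * w)) (𝓝[≥] 0) (𝓝[≥] 0) := by
        have hc : ContinuousAt (fun t : ℝ => t / (1 + t * w)) 0 := by
          refine ContinuousAt.div continuousAt_id ?_ (by simp)
          fun_prop
        have hc0 : Tendsto (fun t : ℝ => t / (1 + t * w)) (𝓝 0) (𝓝 0) := by
          have := hc.tendsto
          simpa using this
        refine tendsto_nhdsWithin_iff.mpr ⟨hc0.mono_left nhdsWithin_le_nhds, ?_⟩
        have h1 : ∀ᶠ t : ℝ in 𝓝[≥] 0, 0 < 1 + t * w := by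
          have h2 : Continuous (fun t : ℝ => 1 + t * w) := by fun_prop
          have h3 : Tendsto (fun t : ℝ => 1 + t * w) (𝓝 0) (𝓝 1) := by
            have := h2.tendsto 0
            simpa using this
          exact nhdsWithin_le_nhds (h3.eventually (lt_mem_nhds one_pos))
        filter_upwards [h1, self_mem_nhdsWithin] with t ht1 ht2
        exact div_nonneg ht2 ht1.le
      have h1w : ∀ᶠ t : ℝ in 𝓝[≥] 0, 0 < 1 + t * w := by
        have h2 : Continuous (fun t : ℝ => 1 + t * w) := by fun_prop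
        have h3 : Tendsto (fun t : ℝ => 1 + t * w) (𝓝 0) (𝓝 1) := by
          have := h2.tendsto 0
          simpa using this
        exact nhdsWithin_le_nhds (h3.eventually (lt_mem_nhds one_pos))
      refine ⟨w ^ 2 * S u h i + w * (∑ j, H u h i j * g j) + (∑ j, a j * g j) / 2, ?_⟩
      filter_upwards [hτ.eventually hS, h1w, hτ.eventually (CU1_.pos h hh g)] with t h1 h2 h3
      have h4 : h + t • f = (1 + t * w) • (h + (t / (1 + t * w)) • g) := by
        funext k
        simp only [hg, Pi.add_apply, Pi.smul_apply, Pi.sub_apply, smul_eq_mul]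
        field_simp
        ring
      have h5 := (hHOM ι u hu _ h3 (1 + t * w) h2).2.1 i
      rw [h4, h5, h1]
      have h6 : ∑ j, H u h i j * g j = (∑ j, H u h i j * f j) - w * (2 * S u h i) := by
        rw [← e2 h hh i, Finset.mul_sum, ← Finset.sum_sub_distrib]
        refine Finset.sum_congr rfl fun j _ => ?_
        simp only [hg, Pi.sub_apply, Pi.smul_apply, smul_eq_mul]
        ring
      rw [h6]
      simp only [zero_smul, add_zero]
      have h7 : 1 + t * w ≠ 0 := h2.ne'
      field_simp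
      ring
    · filter_upwards [CU1_.pos h hh g] with t ht
      exact CU1_.line (fun h => S u h i) (H u (h + t • g) i) h g t (dS _ ht i)
    · filter_upwards [Filter.eventually_all.mpr ha] with t ht
      have h1 : ∑ j, H u (h + t • g) i j * g j = ∑ j, (H u h i j + a j * t) * g j :=
        Finset.sum_congr rfl fun j _ => ht j
      rw [h1]
      simp only [add_mul, Finset.sum_add_distrib, Finset.sum_mul, zero_mul, add_zero]
      congr 1
      refine Finset.sum_congr rfl fun j _ => ?_
      ring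
  choose q hq using hquad
  have hV := CU1_.anti (fun t => V u (h + t • f)) (fun t => ∑ i, S u (h + t • f) i * f i)
    (∑ i, S u h i * f i) (∑ i, ∑ j, H u h i j * f i * f j) (∑ i, q i * f i) ?_ ?_
  · refine ⟨(∑ i, q i * f i) / 3, ?_⟩
    filter_upwards [hV] with t ht
    rw [ht]
    simp only [zero_smul, add_zero]
    ring
  · filter_upwards [CU1_.pos h hh f] with t ht
    exact CU1_.line (V u) (S u (h + t • f)) h f t (dv _ ht)
  · filter_upwards [Filter.eventually_all.mpr hq] with t ht
    have h1 : ∑ i, S u (h + t • f) i * f i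
        = ∑ i, (S u h i + t * (∑ j, H u h i j * f j) + q i * t ^ 2) * f i :=
      Finset.sum_congr rfl fun i _ => by rw [ht i]
    rw [h1]
    simp only [add_mul, Finset.sum_add_distrib, Finset.sum_mul]
    congr 1
    · congr 1
      refine Finset.sum_congr rfl fun i _ => ?_
      rw [Finset.mul_sum, Finset.sum_mul]
      refine Finset.sum_congr rfl fun j _ => ?_
      ring
    · refine Finset.sum_congr rfl fun i _ => ?_
      ring

end Pool.T3
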