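import Pool.Agent.Work.MP_b5407d_t3.Interface
import Pool.Agent.Results.MP_b5407d_gt.NearOne

/-!
# MP_b5407d_gt, theorem T3, block GAP (helper45)
-/

set_option autoImplicit false

open MeasureTheory Set Filter Topology

namespace Pool.T3

namespace GAP_

abbrev E3 : Type := EuclideanSpace ℝ (Fin 3)

/-! ### second derivative test -/

lemma second_le {G G' : ℝ → ℝ} {c : ℝ} (h1 : ∀ᶠ σ in 𝓝 (0 : ℝ), HasDerivAt G (G' σ) σ)
    (h2 : HasDerivAt G' c 0) (h3 : ∀ᶠ σ in 𝓝 (0 : ℝ), G σ + G (-σ) ≤ 2 * G 0) : c ≤ 0 := by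
  by_contra hc
  push Not at hc
  have hneg : Tendsto (fun σ : ℝ => -σ) (𝓝 0) (𝓝 0) := by
    have := (continuous_neg (G := ℝ)).tendsto 0
    simpa using this
  set F : ℝ → ℝ := fun σ => G σ + G (-σ) - 2 * G 0 with hF
  have hF' : ∀ᶠ σ in 𝓝 (0 : ℝ), HasDerivAt F (G' σ - G' (-σ)) σ := by
    filter_upwards [h1, hneg.eventually h1] with σ ha hb
    have hb' : HasDerivAt (fun σ : ℝ => G (-σ)) (G' (-σ) * (-1)) σ :=
      HasDerivAt.comp σ hb (hasDerivAt_neg σ)
    have := (ha.add hb').sub_const (2 * G 0)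
    have e : G' σ + G' (-σ) * (-1) = G' σ - G' (-σ) := by ring
    rw [e] at this
    exact this
  have hd : deriv F =ᶠ[𝓝 0] fun σ => G' σ - G' (-σ) := by
    filter_upwards [hF'] with σ hσ
    exact hσ.deriv
  have hdd : HasDerivAt (fun σ => G' σ - G' (-σ)) (c + c) 0 := by
    have hb : HasDerivAt (fun σ : ℝ => G' (-σ)) (c * (-1)) 0 := by
      have h2' : HasDerivAt G' c (-(0 : ℝ)) := by simpa using h2
      exact HasDerivAt.comp (0 : ℝ) h2' (hasDerivAt_neg (0 : ℝ))
    have := h2.sub hb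
    have e : c - c * (-1) = c + c := by ring
    rw [e] at this
    exact this
  have hdd' : deriv (deriv F) 0 = c + c := by
    rw [hd.deriv_eq]
    exact hdd.deriv
  have hd0 : deriv F 0 = 0 := by
    rw [hd.eq_of_nhds]
    simp
  have hF0 : HasDerivAt F (G' 0 - G' (-0)) 0 := hF'.self_of_nhds
  have hmin : IsLocalMin F 0 := isLocalMin_of_deriv_deriv_pos (by rw [hdd']; linarith) hd0
    hF0.continuousAt
  have hz0 : F 0 = 0 := by
    simp only [hF, neg_zero]
    ring
  have hzero : F =ᶠ[𝓝 0] fun _ => (0 : ℝ) := by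
    filter_upwards [hmin, h3] with σ ha hb
    rw [hz0] at ha
    have : F σ ≤ 0 := by
      simp only [hF]
      linarith
    exact le_antisymm this ha
  have h5 : deriv F =ᶠ[𝓝 0] fun _ => (0 : ℝ) := by
    have := hzero.deriv
    refine this.trans ?_
    filter_upwards with σ
    simp
  have h6 : deriv (deriv F) 0 = 0 := by
    rw [h5.deriv_eq]
    simp
  rw [hdd'] at h6
  linarith

/-! ### transport to the Euclidean space -/

/-- The body in the Euclidean space. -/
def KE {ι : Type} (u : ι → R3) (h : ι → ℝ) : Set E3 := (fun x : E3 => x.ofLp) ⁻¹' K u h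

lemma dt_eq_inner (v : R3) (x : E3) : inner ℝ x (WithLp.toLp 2 v : E3) = dt v x.ofLp := by
  simp [PiLp.inner_apply, Fin.sum_univ_three, dt]

lemma dt_neg (v x : R3) : dt v (-x) = -dt v x := by
  simp only [dt, Pi.neg_apply]
  ring

lemma KE_vol {ι : Type} (u : ι → R3) (h : ι → ℝ) (hm : MeasurableSet (K u h)) :
    (volume (KE u h)).toReal = V u h := by
  unfold V KE
  rw [(PiLp.volume_preserving_ofLp (Fin 3)).measure_preimage hm.nullMeasurableSet]

lemma KE_convex {ι : Type} (u : ι → R3) (h : ι → ℝ) (hc : Convex ℝ (K u h)) :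
    Convex ℝ (KE u h) := by
  have : KE u h = (WithLp.linearEquiv 2 ℝ R3).toLinearMap ⁻¹' K u h := rfl
  rw [this]
  exact hc.linear_preimage _

lemma KE_compact {ι : Type} (u : ι → R3) (h : ι → ℝ) (hc : IsCompact (K u h)) :
    IsCompact (KE u h) := by
  have : KE u h = (PiLp.homeomorph 2 (fun _ : Fin 3 => ℝ)) ⁻¹' K u h := rfl
  rw [this]
  exact (Homeomorph.isCompact_preimage _).2 hc

lemma KE_symm {ι : Type} (u : ι → R3) (h : ι → ℝ) (x : E3) : -x ∈ KE u h ↔ x ∈ KE u h := by
  show (∀ i, |dt (u i) (-x.ofLp)| ≤ h i) ↔ ∀ i, |dt (u i) x.ofLp| ≤ h i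
  simp only [dt_neg, abs_neg]

lemma KE_int {ι : Type} [Fintype ι] (u : ι → R3) (h : ι → ℝ) (hh : Pos h) :
    (interior (KE u h)).Nonempty := by
  refine ⟨0, ?_⟩
  rw [mem_interior_iff_mem_nhds]
  have h1 : ∀ i, ∀ᶠ x : E3 in 𝓝 0, |dt (u i) x.ofLp| ≤ h i := by
    intro i
    have hc : Continuous fun x : E3 => |dt (u i) x.ofLp| := by
      unfold dt
      fun_prop
    have h0 : |dt (u i) (0 : E3).ofLp| < h i := by
      have : dt (u i) (0 : E3).ofLp = 0 := by simp [dt]
      rw [this, abs_zero]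
      exact hh i
    exact (hc.continuousAt.eventually (Iio_mem_nhds h0)).mono fun x hx => le_of_lt hx
  exact Filter.eventually_all.2 h1

lemma KE_cen {ι : Type} (u : ι → R3) (h : ι → ℝ) (hm : MeasurableSet (KE u h)) :
    (∫ x in KE u h, x) = 0 := by
  have h1 : ∫ x in KE u h, x = ∫ x, (KE u h).indicator (fun y : E3 => y) x := by
    rw [integral_indicator hm]
  have h2 := integral_neg_eq_self (fun x : E3 => (KE u h).indicator (fun y : E3 => y) x) volume
  have h3 : ∀ x : E3, (KE u h).indicator (fun y : E3 => y) (-x) =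
      -((KE u h).indicator (fun y : E3 => y) x) := by
    intro x
    by_cases hx : x ∈ KE u h
    · rw [indicator_of_mem hx, indicator_of_mem ((KE_symm u h x).2 hx)]
    · rw [indicator_of_notMem hx, indicator_of_notMem (fun hh => hx ((KE_symm u h x).1 hh)),
        neg_zero]
  simp only [h3, integral_neg] at h2
  rw [h1]
  have h4 : (2 : ℝ) • (∫ x, (KE u h).indicator (fun y : E3 => y) x) = 0 := by
    rw [two_smul]
    nth_rewrite 1 [← h2]
    exact neg_add_cancel _
  exact (smul_eq_zero.1 h4).resolve_left two_ne_zero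

lemma ssup_bound {ι : Type} (u : ι → R3) (h : ι → ℝ) (hh : Pos h) (v : R3) (i : ι)
    (hv : v = u i ∨ v = -u i) :
    0 ≤ sSup ((fun y : E3 => inner ℝ y (WithLp.toLp 2 v : E3)) '' KE u h) ∧
      sSup ((fun y : E3 => inner ℝ y (WithLp.toLp 2 v : E3)) '' KE u h) ≤ h i := by
  have hle : ∀ z ∈ (fun y : E3 => inner ℝ y (WithLp.toLp 2 v : E3)) '' KE u h, z ≤ h i := by
    rintro z ⟨y, hy, rfl⟩
    simp only [dt_eq_inner]
    have h1 : |dt (u i) y.ofLp| ≤ h i := hy i
    rcases hv with rfl | rfl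
    · exact le_trans (le_abs_self _) h1
    · have : dt (-u i) y.ofLp = -dt (u i) y.ofLp := by
        simp only [dt, Pi.neg_apply]
        ring
      rw [this]
      exact le_trans (neg_le_abs _) h1
  have h0 : (0 : E3) ∈ KE u h := by
    intro j
    have : dt (u j) (0 : E3).ofLp = 0 := by simp [dt]
    rw [this, abs_zero]
    exact (hh j).le
  have hz : (0 : ℝ) ∈ (fun y : E3 => inner ℝ y (WithLp.toLp 2 v : E3)) '' KE u h :=
    ⟨0, h0, by simp⟩
  refine ⟨le_csSup ⟨h i, hle⟩ hz, csSup_le ⟨0, hz⟩ hle⟩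

/-- The inequality for the volume function. -/
lemma geo {ι : Type} [Fintype ι] (hBND : Stmt_BND) (u : ι → R3) (hu : Fam u)
    (p : ℝ) (hp : p = 485 / 486) (a b h : ι → ℝ) (ha : Pos a) (hb : Pos b) (hh : Pos h)
    (hab : ∀ i, 1 / 2 * a i ^ p + 1 / 2 * b i ^ p = h i ^ p) :
    1 / 2 * V u a ^ (p / 3) + 1 / 2 * V u b ^ (p / 3) ≤ V u h ^ (p / 3) := by
  have hp0 : 0 < p := by rw [hp]; norm_num
  have hp1 : p < 1 := by rw [hp]; norm_num
  obtain ⟨hB1, _⟩ := hBND ι u hu
  have hmK : ∀ g : ι → ℝ, MeasurableSet (K u g) := fun g => (hB1 g).1.isClosed.measurableSet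
  have hmE : ∀ g : ι → ℝ, MeasurableSet (KE u g) := fun g =>
    (KE_compact u g (hB1 g).1).isClosed.measurableSet
  have key := (Pool.Agent.Results.MP_b5407d_gt.NearOne.result 3 (by norm_num) p hp0 hp1
    (by rw [hp]; norm_num) (KE u a) (KE u b)
    (KE_convex u a (hB1 a).2) (KE_compact u a (hB1 a).1) (KE_int u a ha)
    (KE_convex u b (hB1 b).2) (KE_compact u b (hB1 b).1) (KE_int u b hb)
    (KE_cen u a (hmE a)) (KE_cen u b (hmE b)) (1 / 2) (1 / 2) (by norm_num) (by norm_num)).1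
  rw [KE_vol u a (hmK a), KE_vol u b (hmK b)] at key
  have h3 : p / ((3 : ℕ) : ℝ) = p / 3 := by norm_num
  rw [h3] at key
  refine le_trans key ?_
  have hsub : {x : E3 | ∀ w ∈ Metric.sphere (0 : E3) 1,
      inner ℝ x w ≤ (1 / 2 * (sSup ((fun y : E3 => inner ℝ y w) '' KE u a)) ^ p
        + 1 / 2 * (sSup ((fun y : E3 => inner ℝ y w) '' KE u b)) ^ p) ^ (1 / p)} ⊆ KE u h := by
    intro x hx i
    have hnorm : ∀ v : R3, (v = u i ∨ v = -u i) →
        (WithLp.toLp 2 v : E3) ∈ Metric.sphere (0 : E3) 1 := by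
      intro v hv
      rw [mem_sphere_zero_iff_norm, EuclideanSpace.norm_eq, Real.sqrt_eq_one]
      have hun := hu.unit i
      simp only [dt] at hun
      rcases hv with rfl | rfl
      · simp only [Fin.sum_univ_three, Real.norm_eq_abs, sq_abs]
        nlinarith
      · simp only [Fin.sum_univ_three, Real.norm_eq_abs, sq_abs, Pi.neg_apply]
        nlinarith
    have hbd : ∀ v : R3, (v = u i ∨ v = -u i) → dt v x.ofLp ≤ h i := by
      intro v hv
      have h1 := hx _ (hnorm v hv)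
      rw [dt_eq_inner] at h1
      obtain ⟨ha0, ha1⟩ := ssup_bound u a ha v i hv
      obtain ⟨hb0, hb1⟩ := ssup_bound u b hb v i hv
      refine le_trans h1 ?_
      have h2 : 1 / 2 * (sSup ((fun y : E3 => inner ℝ y (WithLp.toLp 2 v : E3)) '' KE u a)) ^ p
          + 1 / 2 * (sSup ((fun y : E3 => inner ℝ y (WithLp.toLp 2 v : E3)) '' KE u b)) ^ p ≤
          h i ^ p := by
        rw [← hab i]
        have e1 := Real.rpow_le_rpow ha0 ha1 hp0.le
        have e2 := Real.rpow_le_rpow hb0 hb1 hp0.le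
        linarith
      have h4 : 0 ≤ 1 / 2 * (sSup ((fun y : E3 => inner ℝ y (WithLp.toLp 2 v : E3)) '' KE u a)) ^ p
          + 1 / 2 * (sSup ((fun y : E3 => inner ℝ y (WithLp.toLp 2 v : E3)) '' KE u b)) ^ p := by
        have e1 := Real.rpow_nonneg ha0 p
        have e2 := Real.rpow_nonneg hb0 p
        linarith
      refine le_trans (Real.rpow_le_rpow h4 h2 (by positivity)) ?_
      rw [← Real.rpow_mul (hh i).le]
      have : p * (1 / p) = 1 := by field_simp
      rw [this, Real.rpow_one]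
    show |dt (u i) x.ofLp| ≤ h i
    rw [abs_le]
    constructor
    · have h1 := hbd (-u i) (Or.inr rfl)
      have h2 : dt (-u i) x.ofLp = -dt (u i) x.ofLp := by
        simp only [dt, Pi.neg_apply]
        ring
      rw [h2] at h1
      linarith
    · exact hbd (u i) (Or.inl rfl)
  have hfin : volume (KE u h) ≠ ⊤ := (KE_compact u h (hB1 h).1).measure_lt_top.ne
  have hmono := ENNReal.toReal_mono hfin (measure_mono hsub)
  rw [KE_vol u h (hmK h)] at hmono
  exact Real.rpow_le_rpow ENNReal.toReal_nonneg hmono (by positivity)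

/-! ### the path -/

lemma lin_apply {ι : Type} [Fintype ι] (a x : ι → ℝ) : lin a x = ∑ i, a i * x i := by
  simp [lin]

end GAP_

open GAP_ in
theorem stmt_GAP (hDVS : Stmt_DVS) (_hTCH : Stmt_TCH) (hSGN : Stmt_SGN) (hBND : Stmt_BND) :
    Stmt_GAP := by
  intro ι _ _ u hu h hh _ f
  obtain ⟨dV, dS, -, -, -, -⟩ := hDVS ι u hu
  have hVpos : ∀ g, Pos g → 0 < V u g := fun g hg => (hSGN ι u hu g hg).1
  set p : ℝ := 485 / 486 with hp
  have hp0 : 0 < p := by rw [hp]; norm_num
  -- the path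
  set g : ι → ℝ := fun i => p * h i ^ (p - 1) * f i with hg
  set y : ℝ → ι → ℝ := fun σ i => h i ^ p + σ * g i with hy
  set a : ℝ → ι → ℝ := fun σ i => (y σ i) ^ (1 / p) with ha
  set a' : ℝ → ι → ℝ := fun σ i => 1 / p * (y σ i) ^ (1 / p - 1) * g i with ha'
  have hypos : ∀ᶠ σ in 𝓝 (0 : ℝ), ∀ i, 0 < y σ i := by
    rw [Filter.eventually_all]
    intro i
    have hc : Continuous fun σ : ℝ => h i ^ p + σ * g i := by fun_prop
    have h0 : 0 < h i ^ p + (0 : ℝ) * g i := by
      rw [zero_mul, add_zero]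
      exact Real.rpow_pos_of_pos (hh i) p
    exact hc.continuousAt.eventually (Ioi_mem_nhds h0)
  have hy0 : ∀ i, y 0 i = h i ^ p := by
    intro i
    simp only [hy]
    ring
  have hdy : ∀ i σ, HasDerivAt (fun σ => y σ i) (g i) σ := by
    intro i σ
    have := ((hasDerivAt_id σ).mul_const (g i)).const_add (h i ^ p)
    rw [one_mul] at this
    exact this
  have hapos : ∀ᶠ σ in 𝓝 (0 : ℝ), Pos (a σ) := by
    filter_upwards [hypos] with σ hσ i
    exact Real.rpow_pos_of_pos (hσ i) _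
  have ha0 : a 0 = h := by
    funext i
    simp only [ha]
    rw [hy0, ← Real.rpow_mul (hh i).le]
    have : p * (1 / p) = 1 := by field_simp
    rw [this, Real.rpow_one]
  have ha'0 : a' 0 = f := by
    funext i
    simp only [ha']
    rw [hy0, ← Real.rpow_mul (hh i).le]
    simp only [hg]
    have e1 : 1 / p * h i ^ (p * (1 / p - 1)) * (p * h i ^ (p - 1) * f i) =
        (h i ^ (p * (1 / p - 1)) * h i ^ (p - 1)) * f i := by
      field_simp
    rw [e1, ← Real.rpow_add (hh i)]
    have e2 : p * (1 / p - 1) + (p - 1) = 0 := by field_simp; ring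
    rw [e2, Real.rpow_zero, one_mul]
  have hda : ∀ᶠ σ in 𝓝 (0 : ℝ), HasDerivAt a (a' σ) σ := by
    filter_upwards [hypos] with σ hσ
    rw [hasDerivAt_pi]
    intro i
    have h1 := (hdy i σ).rpow_const (p := 1 / p) (Or.inl (hσ i).ne')
    have e : g i * (1 / p) * y σ i ^ (1 / p - 1) = a' σ i := by
      simp only [ha']
      ring
    rw [e] at h1
    exact h1
  set a'' : ι → ℝ := fun i => (1 - p) * f i ^ 2 / h i with ha''
  have hda' : HasDerivAt a' a'' 0 := by
    rw [hasDerivAt_pi]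
    intro i
    have h1 := ((hdy i 0).rpow_const (p := 1 / p - 1)
      (Or.inl (by rw [hy0]; exact (Real.rpow_pos_of_pos (hh i) p).ne'))).const_mul (1 / p)
    have h2 := h1.mul_const (g i)
    have e : 1 / p * (g i * (1 / p - 1) * y 0 i ^ (1 / p - 1 - 1)) * g i = a'' i := by
      rw [hy0, ← Real.rpow_mul (hh i).le]
      simp only [hg, ha'']
      have e1 : 1 / p * (p * h i ^ (p - 1) * f i * (1 / p - 1) * h i ^ (p * (1 / p - 1 - 1))) *
          (p * h i ^ (p - 1) * f i) =
          (p * (1 / p - 1)) * f i ^ 2 *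
            (h i ^ (p - 1) * h i ^ (p * (1 / p - 1 - 1)) * h i ^ (p - 1)) := by
        field_simp
      rw [e1, ← Real.rpow_add (hh i), ← Real.rpow_add (hh i)]
      have e2 : p - 1 + p * (1 / p - 1 - 1) + (p - 1) = -1 := by field_simp; ring
      rw [e2, Real.rpow_neg_one]
      have e3 : p * (1 / p - 1) = 1 - p := by field_simp
      rw [e3]
      ring
    rw [e] at h2
    exact h2
  -- the function G
  set G : ℝ → ℝ := fun σ => V u (a σ) ^ (p / 3) with hG
  set T : ℝ → ℝ := fun σ => ∑ i, S u (a σ) i * a' σ i with hT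
  set G' : ℝ → ℝ := fun σ => p / 3 * (V u (a σ) ^ (p / 3 - 1) * T σ) with hG'
  have hdV : ∀ᶠ σ in 𝓝 (0 : ℝ), HasDerivAt (fun σ => V u (a σ)) (T σ) σ := by
    filter_upwards [hda, hapos] with σ h1 h2
    have h3 := (dV (a σ) h2).comp_hasDerivAt σ h1
    rw [lin_apply] at h3
    exact h3
  have hdG : ∀ᶠ σ in 𝓝 (0 : ℝ), HasDerivAt G (G' σ) σ := by
    filter_upwards [hdV, hapos] with σ h1 h2
    have h3 := h1.rpow_const (p := p / 3) (Or.inl (hVpos _ h2).ne')
    have e : T σ * (p / 3) * V u (a σ) ^ (p / 3 - 1) = G' σ := by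
      simp only [hG']
      ring
    rw [e] at h3
    exact h3
  have hv0 : 0 < V u h := hVpos h hh
  have hdT : HasDerivAt T (∑ i, ((∑ j, H u h i j * f j) * f i + S u h i * a'' i)) 0 := by
    have : ∀ i ∈ (Finset.univ : Finset ι), HasDerivAt (fun σ => S u (a σ) i * a' σ i)
        ((∑ j, H u h i j * f j) * f i + S u h i * a'' i) 0 := by
      intro i _
      have h1 : HasDerivAt a f 0 := by
        have := hda.self_of_nhds
        rwa [ha'0] at this
      have h2 : HasFDerivAt (fun h => S u h i) (lin (H u h i)) (a 0) := by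
        rw [ha0]
        exact dS h hh i
      have h3 := h2.comp_hasDerivAt (0 : ℝ) h1
      rw [lin_apply] at h3
      have h4 : HasDerivAt (fun σ => a' σ i) (a'' i) 0 := (hasDerivAt_pi.1 hda') i
      have h5 := h3.mul h4
      have e1 : (a' 0) i = f i := by rw [ha'0]
      have e2 : ((fun h => S u h i) ∘ a) 0 = S u h i := by
        simp only [Function.comp, ha0]
      rw [e1, e2] at h5
      exact h5
    exact HasDerivAt.fun_sum this
  have hT0 : T 0 = ∑ i, S u h i * f i := by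
    simp only [hT, ha0, ha'0]
  have hdG' : HasDerivAt G' (p / 3 * ((T 0 * (p / 3 - 1) * V u (a 0) ^ (p / 3 - 1 - 1)) * T 0 +
      V u (a 0) ^ (p / 3 - 1) *
        (∑ i, ((∑ j, H u h i j * f j) * f i + S u h i * a'' i)))) 0 := by
    have h1 := hdV.self_of_nhds.rpow_const (p := p / 3 - 1)
      (Or.inl (by rw [ha0]; exact hv0.ne'))
    exact (h1.mul hdT).const_mul (p / 3)
  have hconc : ∀ᶠ σ in 𝓝 (0 : ℝ), G σ + G (-σ) ≤ 2 * G 0 := by
    have hneg : Tendsto (fun σ : ℝ => -σ) (𝓝 0) (𝓝 0) := by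
      have := (continuous_neg (G := ℝ)).tendsto 0
      simpa using this
    filter_upwards [hypos, hneg.eventually hypos, hapos, hneg.eventually hapos] with σ h1 h2 h3 h4
    have hkey := geo hBND u hu p hp (a σ) (a (-σ)) h h3 h4 hh (by
      intro i
      simp only [ha]
      rw [← Real.rpow_mul (h1 i).le, ← Real.rpow_mul (h2 i).le]
      have : 1 / p * p = 1 := by field_simp
      rw [this, Real.rpow_one, Real.rpow_one]
      simp only [hy]
      ring)
    simp only [hG, ha0]
    linarith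
  have hfinal := second_le hdG hdG' hconc
  rw [ha0, hT0] at hfinal
  -- algebra
  set A : ℝ := ∑ i, S u h i * f i with hA
  set v : ℝ := V u h with hv
  have hpow : v ^ (p / 3 - 1 - 1) = v ^ (p / 3 - 1) / v := by
    rw [Real.rpow_sub hv0, Real.rpow_one]
  rw [hpow] at hfinal
  have hw : 0 < v ^ (p / 3 - 1) := Real.rpow_pos_of_pos hv0 _
  have hfac : p / 3 * ((A * (p / 3 - 1) * (v ^ (p / 3 - 1) / v)) * A + v ^ (p / 3 - 1) *
      (∑ i, ((∑ j, H u h i j * f j) * f i + S u h i * a'' i))) =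
      (p / 3 * v ^ (p / 3 - 1)) * ((p / 3 - 1) * A ^ 2 / v +
        ∑ i, ((∑ j, H u h i j * f j) * f i + S u h i * a'' i)) := by
    ring
  rw [hfac] at hfinal
  have hpos2 : 0 < p / 3 * v ^ (p / 3 - 1) := by positivity
  have hin : (p / 3 - 1) * A ^ 2 / v +
      ∑ i, ((∑ j, H u h i j * f j) * f i + S u h i * a'' i) ≤ 0 := by
    by_contra hcon
    push Not at hcon
    have := mul_pos hpos2 hcon
    linarith
  have hsum : ∑ i, ((∑ j, H u h i j * f j) * f i + S u h i * a'' i) =
      (∑ i, ∑ j, H u h i j * f i * f j) + (1 - p) * ∑ i, S u h i * f i ^ 2 / h i := by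
    rw [Finset.sum_add_distrib, Finset.mul_sum]
    congr 1
    · refine Finset.sum_congr rfl fun i _ => ?_
      rw [Finset.sum_mul]
      refine Finset.sum_congr rfl fun j _ => ?_
      ring
    · refine Finset.sum_congr rfl fun i _ => ?_
      simp only [ha'']
      ring
  rw [hsum] at hin
  unfold Q J
  rw [← hA, ← hv]
  have e1 : (p / 3 - 1) * A ^ 2 / v = (p / 3 - 1) * (A ^ 2 / v) := by ring
  have e2 : A ^ 2 / (3 * v) = A ^ 2 / v / 3 := by
    rw [mul_comm, div_mul_eq_div_div]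
  have e3 : 2 / (3 * v) * A ^ 2 = 2 / 3 * (A ^ 2 / v) := by
    field_simp
  rw [e1] at hin
  rw [e2, e3]
  have e4 : 1 - p = 1 / 486 := by rw [hp]; norm_num
  have e5 : p / 3 - 1 = -(2 / 3) - 1 / 486 / 3 := by rw [hp]; norm_num
  rw [e4, e5] at hin
  nlinarith [hin]

end Pool.T3
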