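import Pool.Agent.Work.MP_b5407d_t3.KN1

/-!
# MP_b5407d_t3: block KN0 (no kink in two cases)
-/

set_option autoImplicit false

open MeasureTheory Set Filter Topology

namespace Pool.T3

theorem KN0_inf {ι κ : Type} [Fintype ι] (P : Finset κ) (hP : P.Nonempty)
    (l : κ → (ι → ℝ) →L[ℝ] ℝ) (h₀ : ι → ℝ)
    (hs : ∀ p ∈ P, ∀ q ∈ P, p ≠ q → l p h₀ = l q h₀ → (∀ r ∈ P, l p h₀ ≤ l r h₀) → False) :
    ∃ p₀ ∈ P, (∀ q ∈ P, l p₀ h₀ ≤ l q h₀) ∧
      ∀ᶠ h in 𝓝 h₀, P.inf' hP (fun p => l p h) = l p₀ h := by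
  classical
  obtain ⟨p₀, hp₀, hmin⟩ := Finset.exists_min_image P (fun p => l p h₀) hP
  refine ⟨p₀, hp₀, hmin, ?_⟩
  have hlt : ∀ q ∈ P, q ≠ p₀ → l p₀ h₀ < l q h₀ := by
    intro q hq hne
    refine lt_of_le_of_ne (hmin q hq) fun he => ?_
    exact hs p₀ hp₀ q hq hne.symm he hmin
  have hfar : ∀ᶠ h in 𝓝 h₀, ∀ q ∈ P.filter (fun q => q ≠ p₀), l p₀ h < l q h := by
    rw [Filter.eventually_all_finset]
    intro q hq
    obtain ⟨hq1, hq2⟩ := Finset.mem_filter.1 hq
    exact ((l p₀).continuous.tendsto h₀).eventually_lt ((l q).continuous.tendsto h₀)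
      (hlt q hq1 hq2)
  filter_upwards [hfar] with h hh
  refine le_antisymm (Finset.inf'_le _ hp₀) (Finset.le_inf' _ _ fun q hq => ?_)
  by_cases hqp : q = p₀
  · rw [hqp]
  · exact (hh q (Finset.mem_filter.2 ⟨hq, hqp⟩)).le

theorem KN0_sup {ι κ : Type} [Fintype ι] (P : Finset κ) (hP : P.Nonempty)
    (l : κ → (ι → ℝ) →L[ℝ] ℝ) (h₀ : ι → ℝ)
    (hs : ∀ p ∈ P, ∀ q ∈ P, p ≠ q → l p h₀ = l q h₀ → (∀ r ∈ P, l r h₀ ≤ l p h₀) → False) :
    ∃ p₀ ∈ P, (∀ q ∈ P, l q h₀ ≤ l p₀ h₀) ∧
      ∀ᶠ h in 𝓝 h₀, P.sup' hP (fun p => l p h) = l p₀ h := by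
  classical
  obtain ⟨p₀, hp₀, hmax⟩ := Finset.exists_max_image P (fun p => l p h₀) hP
  refine ⟨p₀, hp₀, hmax, ?_⟩
  have hlt : ∀ q ∈ P, q ≠ p₀ → l q h₀ < l p₀ h₀ := by
    intro q hq hne
    refine lt_of_le_of_ne (hmax q hq) fun he => ?_
    exact hs p₀ hp₀ q hq hne.symm he.symm hmax
  have hfar : ∀ᶠ h in 𝓝 h₀, ∀ q ∈ P.filter (fun q => q ≠ p₀), l q h < l p₀ h := by
    rw [Filter.eventually_all_finset]
    intro q hq
    obtain ⟨hq1, hq2⟩ := Finset.mem_filter.1 hq
    exact ((l q).continuous.tendsto h₀).eventually_lt ((l p₀).continuous.tendsto h₀)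
      (hlt q hq1 hq2)
  filter_upwards [hfar] with h hh
  refine le_antisymm (Finset.sup'_le _ _ fun q hq => ?_) (Finset.le_sup' (fun p => l p h) hp₀)
  by_cases hqp : q = p₀
  · rw [hqp]
  · exact (hh q (Finset.mem_filter.2 ⟨hq, hqp⟩)).le

theorem KN0_main {ι κ : Type} [Fintype ι] [DecidableEq ι] (P : Finset κ) (hP : P.Nonempty)
    (U L : κ → (ι → ℝ) →L[ℝ] ℝ) (h₀ : ι → ℝ)
    (hs : (∃ p ∈ P, ∃ q ∈ P, U p h₀ < L q h₀) ∨
      ((∀ p ∈ P, ∀ q ∈ P, p ≠ q → U p h₀ = U q h₀ → (∀ r ∈ P, U p h₀ ≤ U r h₀) → False) ∧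
       (∀ p ∈ P, ∀ q ∈ P, p ≠ q → L p h₀ = L q h₀ → (∀ r ∈ P, L r h₀ ≤ L p h₀) → False) ∧
       (∀ p ∈ P, ∀ q ∈ P, U p h₀ = L q h₀ → False))) :
    ∃ a : ι → ℝ, ∀ᶠ h in 𝓝 h₀,
      max 0 (P.inf' hP (fun m => U m h) - P.sup' hP (fun m => L m h)) =
      max 0 (P.inf' hP (fun m => U m h₀) - P.sup' hP (fun m => L m h₀)) + lin a (h - h₀) := by
  rcases hs with ⟨p, hp, q, hq, hlt⟩ | ⟨hU, hL, hUL⟩
  · refine ⟨0, ?_⟩
    have h1 : ∀ h : ι → ℝ, U p h < L q h →
        max 0 (P.inf' hP (fun m => U m h) - P.sup' hP (fun m => L m h)) = 0 := by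
      intro h hh
      have e1 : P.inf' hP (fun m => U m h) ≤ U p h := Finset.inf'_le (fun m => U m h) hp
      have e2 : L q h ≤ P.sup' hP (fun m => L m h) := Finset.le_sup' (fun m => L m h) hq
      exact max_eq_left (by linarith)
    have h2 : ∀ᶠ h in 𝓝 h₀, U p h < L q h :=
      ((U p).continuous.tendsto h₀).eventually_lt ((L q).continuous.tendsto h₀) hlt
    filter_upwards [h2] with h hh
    rw [h1 h hh, h1 h₀ hlt]
    simp [KN1_lin_apply]
  · obtain ⟨p, hp, -, hev1⟩ := KN0_inf P hP U h₀ hU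
    obtain ⟨q, hq, -, hev2⟩ := KN0_sup P hP L h₀ hL
    have hne : U p h₀ - L q h₀ ≠ 0 := fun h => hUL p hp q hq (by linarith)
    have hW : ∀ᶠ h in 𝓝 h₀,
        P.inf' hP (fun m => U m h) - P.sup' hP (fun m => L m h) = (U p - L q) h := by
      filter_upwards [hev1, hev2] with h h1 h2
      rw [h1, h2, sub_apply]
    have hW0 := hW.self_of_nhds
    have hφ0 : (U p - L q) h₀ = U p h₀ - L q h₀ := sub_apply _ _ _
    rcases lt_or_gt_of_ne hne with hneg | hposi
    · refine ⟨0, ?_⟩
      have h1 : ∀ᶠ h in 𝓝 h₀, (U p - L q) h < 0 := by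
        have : Tendsto (U p - L q) (𝓝 h₀) (𝓝 ((U p - L q) h₀)) :=
          (U p - L q).continuous.tendsto h₀
        exact this.eventually_lt_const (by rw [hφ0]; exact hneg)
      filter_upwards [hW, h1] with h h2 h3
      rw [h2, hW0, max_eq_left h3.le, max_eq_left (by rw [hφ0]; exact hneg.le)]
      simp [KN1_lin_apply]
    · obtain ⟨a, ha⟩ := KN1_exists_lin (U p - L q)
      refine ⟨a, ?_⟩
      have h1 : ∀ᶠ h in 𝓝 h₀, 0 < (U p - L q) h := by
        have : Tendsto (U p - L q) (𝓝 h₀) (𝓝 ((U p - L q) h₀)) :=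
          (U p - L q).continuous.tendsto h₀
        exact this.eventually_const_lt (by rw [hφ0]; exact hposi)
      filter_upwards [hW, h1] with h h2 h3
      rw [h2, hW0, max_eq_right h3.le, max_eq_right (by rw [hφ0]; exact hposi.le), ha, map_sub]
      ring

/-- a tie between two bounds determines the signs -/
theorem KN0_tie {ι : Type} [Fintype ι] [DecidableEq ι] (hKNC : Stmt_KNC) (u : ι → R3)
    (h₀ c : ι → ℝ) (v0 : R3) (hpos : Pos h₀)
    (hO : One u h₀ c) (hC : Conc u h₀ c v0) (hu : Fam u) (i j k m : ι) (hij : i ≠ j)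
    (hik : i ≠ k) (him : i ≠ m)
    (hjk : j ≠ k) (hjm : j ≠ m) (hkm : k ≠ m) (hci : c i ≠ 0) (hcj : c j ≠ 0)
    (hvi : dt (u i) v0 = h₀ i)
    (ht : dt (cr (u i) (u j)) (cr (u i) (u j)) ≠ 0) (s e e' : ℝ) (hs : s = 1 ∨ s = -1)
    (he : e = 1 ∨ e = -1) (he' : e' = 1 ∨ e' = -1)
    (heq : KN1_b u i j s k e h₀ = KN1_b u i j s m e' h₀) :
    s = dt (u j) v0 / h₀ j ∧ dt (u k) v0 = e * h₀ k := by
  have hk := hu.ind i j k hij hik hjk
  have hm := hu.ind i j m hij him hjm
  have hjkm := hu.ind j k m hjk hjm hkm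
  have hd := KN1_diff u i j k m ht hk hm s e e'
  have h0 : lin (fv u i j k m s e e') h₀ = 0 := by
    have h1 := hd h₀
    rw [heq, sub_self] at h1
    have h2 : 1 / (de (u i) (u j) (u k) * de (u i) (u j) (u m)) ≠ 0 :=
      one_div_ne_zero (mul_ne_zero hk hm)
    exact (mul_eq_zero.1 h1.symm).resolve_left h2
  obtain ⟨r, hr⟩ := hO.only _ ⟨i, j, k, m, s, e, e', hij, hik, him, hjk, hjm, hkm, hs, he, he', rfl⟩ h0
  have hs2 : s * s = 1 := by rcases hs with h | h <;> rw [h] <;> norm_num
  have he2 : e * e = 1 := by rcases he with h | h <;> rw [h] <;> norm_num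
  have he2' : e' * e' = 1 := by rcases he' with h | h <;> rw [h] <;> norm_num
  -- values of the two forms
  have fvi : ∀ a b d : ℝ, fv u i j k m a b d i = de (u j) (u k) (u m) := by
    intro a b d
    simp [fv, hij, hik, him]
  have fvj : ∀ a b d : ℝ, fv u i j k m a b d j = -(a * de (u i) (u k) (u m)) := by
    intro a b d
    simp [fv, hij.symm, hjk, hjm]
  have fvk : ∀ a b d : ℝ, fv u i j k m a b d k = b * de (u i) (u j) (u m) := by
    intro a b d
    simp [fv, hik.symm, hjk.symm, hkm]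
  have fvm : ∀ a b d : ℝ, fv u i j k m a b d m = -(d * de (u i) (u j) (u k)) := by
    intro a b d
    simp [fv, him.symm, hjm.symm, hkm.symm]
  have fvo : ∀ a b d : ℝ, ∀ x, x ≠ i → x ≠ j → x ≠ k → x ≠ m → fv u i j k m a b d x = 0 := by
    intro a b d x h1 h2 h3 h4
    simp [fv, h1, h2, h3, h4]
  have ri : de (u j) (u k) (u m) = r * c i := by
    have := congrFun hr i
    rw [fvi] at this
    simpa using this
  have rj : -(s * de (u i) (u k) (u m)) = r * c j := by
    have := congrFun hr j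
    rw [fvj] at this
    simpa using this
  have rk : e * de (u i) (u j) (u m) = r * c k := by
    have := congrFun hr k
    rw [fvk] at this
    simpa using this
  have rm : -(e' * de (u i) (u j) (u k)) = r * c m := by
    have := congrFun hr m
    rw [fvm] at this
    simpa using this
  have hr0 : r ≠ 0 := by
    rintro rfl
    rw [zero_mul] at ri
    exact hjkm ri
  have hne1 : ∀ x : ℝ, x * x = 1 → x ≠ 0 := by
    intro x hx h
    rw [h] at hx
    norm_num at hx
  have hck : c k ≠ 0 := by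
    intro h
    rw [h, mul_zero] at rk
    exact (mul_ne_zero (hne1 e he2) hm) rk
  have hcm : c m ≠ 0 := by
    intro h
    rw [h, mul_zero, neg_eq_zero] at rm
    exact (mul_ne_zero (hne1 e' he2') hk) rm
  -- uniqueness of the relation
  obtain ⟨r', hr'⟩ := (hKNC ι u hu).2.2.2 c hC.form (fun a => c a * (dt (u a) v0 / h₀ a))
    (fv u i j k m 1 1 1)
    (fun a ha => by simp only [ha, zero_mul])
    (fun a ha => by
      refine fvo 1 1 1 a ?_ ?_ ?_ ?_
      · rintro rfl; exact hci ha
      · rintro rfl; exact hcj ha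
      · rintro rfl; exact hck ha
      · rintro rfl; exact hcm ha)
    (fun h => by
      have := congrFun h i
      simp only [Pi.zero_apply] at this
      rw [hvi, div_self (hpos i).ne', mul_one] at this
      exact hci this)
    hC.rel
    (fun x => by
      have h1 := KN1_fv u i j k m 1 1 1 (fun a => dt (u a) x)
      rw [KN1_lin_apply] at h1
      rw [h1]
      have h2 := KN1_ident (u i) (u j) (u k) (u m) x
      linarith)
  have qi : de (u j) (u k) (u m) = r' * c i := by
    have := congrFun hr' i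
    rw [fvi] at this
    simp only [Pi.smul_apply, smul_eq_mul] at this
    rw [hvi, div_self (hpos i).ne', mul_one] at this
    exact this
  have hrr : r' = r := mul_right_cancel₀ hci (by rw [← qi, ← ri])
  have qj : -(1 * de (u i) (u k) (u m)) = r * (c j * (dt (u j) v0 / h₀ j)) := by
    have := congrFun hr' j
    rw [fvj] at this
    simp only [Pi.smul_apply, smul_eq_mul] at this
    rw [hrr] at this
    exact this
  have qk : 1 * de (u i) (u j) (u m) = r * (c k * (dt (u k) v0 / h₀ k)) := by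
    have := congrFun hr' k
    rw [fvk] at this
    simp only [Pi.smul_apply, smul_eq_mul] at this
    rw [hrr] at this
    exact this
  constructor
  · have h1 : r * c j * (dt (u j) v0 / h₀ j - s) = 0 := by
      have e1 : r * c j * (dt (u j) v0 / h₀ j) = -(1 * de (u i) (u k) (u m)) := by
        rw [qj]; ring
      have e2 : r * c j * s = -(s * s * de (u i) (u k) (u m)) := by
        rw [← rj]; ring
      rw [mul_sub, e1, e2, hs2]
      ring
    have h2 := (mul_eq_zero.1 h1).resolve_left (mul_ne_zero hr0 hcj)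
    linarith
  · have h1 : r * c k * (dt (u k) v0 / h₀ k - e) = 0 := by
      have e1 : r * c k * (dt (u k) v0 / h₀ k) = 1 * de (u i) (u j) (u m) := by
        rw [qk]; ring
      have e2 : r * c k * e = e * e * de (u i) (u j) (u m) := by
        rw [← rk]; ring
      rw [mul_sub, e1, e2, he2]
      ring
    have h2 := (mul_eq_zero.1 h1).resolve_left (mul_ne_zero hr0 hck)
    have h3 : dt (u k) v0 / h₀ k = e := by linarith
    rw [← h3, div_mul_cancel₀ _ (hpos k).ne']

theorem stmt_KN0 (hLAMF : Stmt_LAMF) (hKNC : Stmt_KNC) : Stmt_KN0 := by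
  intro ι _ _ u hu h₀ c v0 hpos hO hC i j hij hci hcj hvi
  obtain ⟨hM, hL⟩ := hLAMF ι u hu i j hij
  have hL' := hL hM
  set P := oth i j with hP
  have hmem : ∀ m ∈ P, i ≠ m ∧ j ≠ m := by
    intro m hm
    have := (Finset.mem_filter.1 hm).2
    exact ⟨this.1.symm, this.2.symm⟩
  have hmem' : ∀ m, m ≠ i → m ≠ j → m ∈ P := by
    intro m h1 h2
    exact Finset.mem_filter.2 ⟨Finset.mem_univ _, h1, h2⟩
  have ht : dt (cr (u i) (u j)) (cr (u i) (u j)) ≠ 0 := by
    obtain ⟨k, hk⟩ := hM
    obtain ⟨h1, h2⟩ := hmem k hk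
    have hd := hu.ind i j k hij h1 h2
    intro h0
    apply hd
    have hz : ∀ x : ℝ, 0 ≤ x * x := fun x => mul_self_nonneg x
    simp only [dt] at h0
    have z0 := hz (cr (u i) (u j) 0)
    have z1 := hz (cr (u i) (u j) 1)
    have z2 := hz (cr (u i) (u j) 2)
    have y0 : cr (u i) (u j) 0 = 0 := mul_self_eq_zero.1 (by linarith)
    have y1 : cr (u i) (u j) 1 = 0 := mul_self_eq_zero.1 (by linarith)
    have y2 : cr (u i) (u j) 2 = 0 := mul_self_eq_zero.1 (by linarith)
    simp only [de, dt, y0, y1, y2]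
    ring
  set σ : ℝ := dt (u j) v0 / h₀ j with hσ
  have hσc : σ = 1 ∨ σ = -1 := by
    have h1 := hC.tight j hcj
    rcases abs_choice (dt (u j) v0) with h | h
    · left
      rw [hσ, ← h1, h, div_self]
      intro h0
      rw [h0, abs_zero] at h1
      exact (hpos j).ne h1
    · right
      rw [hσ, ← h1, h, div_neg, div_self]
      intro h0
      rw [h0, abs_zero] at h1
      exact (hpos j).ne h1
  set D : ι → ℝ := fun m => de (u i) (u j) (u m) with hD
  have hDne : ∀ m ∈ P, D m ≠ 0 := fun m hm => hu.ind i j m hij (hmem m hm).1 (hmem m hm).2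
  have neg_cases : ∀ x : ℝ, (x = 1 ∨ x = -1) → (-x = 1 ∨ -x = -1) := by
    rintro x (h | h)
    · right; rw [h]
    · left; rw [h]; norm_num
  -- general facts for a sign `s`
  have hUv : ∀ s : ℝ, ∀ m ∈ P, ∀ h : ι → ℝ,
      mid u i j (h i) (s * h j) m + rad u i j h m = KN1_b u i j s m (KN1_sg (D m)) h := by
    intro s m hm h
    have h1 := KN1_sg_div (D m) (hDne m hm)
    have h2 : KN1_b u i j s m (KN1_sg (D m)) h = KN1_sg (D m) / D m * h m
        - dt (u m) (pt u i j (h i) (s * h j)) / D m := by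
      rw [KN1_b_apply]
      ring
    rw [h2, h1]
    simp only [mid, rad, hD]
    ring
  have hLv : ∀ s : ℝ, ∀ m ∈ P, ∀ h : ι → ℝ,
      mid u i j (h i) (s * h j) m - rad u i j h m = KN1_b u i j s m (-KN1_sg (D m)) h := by
    intro s m hm h
    have h1 := KN1_sg_div (D m) (hDne m hm)
    have h2 : KN1_b u i j s m (-KN1_sg (D m)) h = -(KN1_sg (D m) / D m * h m)
        - dt (u m) (pt u i j (h i) (s * h j)) / D m := by
      rw [KN1_b_apply]
      ring
    rw [h2, h1]
    simp only [mid, rad, hD]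
    ring
  have hLam : ∀ s : ℝ, ∀ h : ι → ℝ, Lam u i j (h i) (s * h j) h =
      max 0 (P.inf' hM (fun m => KN1_b u i j s m (KN1_sg (D m)) h) -
        P.sup' hM (fun m => KN1_b u i j s m (-KN1_sg (D m)) h)) := by
    intro s h
    rw [hL']
    have e1 : P.inf' hM (fun m => mid u i j (h i) (s * h j) m + rad u i j h m)
        = P.inf' hM (fun m => KN1_b u i j s m (KN1_sg (D m)) h) :=
      Finset.inf'_congr hM rfl fun m hm => hUv s m hm h
    have e2 : P.sup' hM (fun m => mid u i j (h i) (s * h j) m - rad u i j h m)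
        = P.sup' hM (fun m => KN1_b u i j s m (-KN1_sg (D m)) h) :=
      Finset.sup'_congr hM rfl fun m hm => hLv s m hm h
    rw [e1, e2]
  have hrad : ∀ s : ℝ, ∀ m ∈ P, KN1_b u i j s m (-KN1_sg (D m)) h₀
      < KN1_b u i j s m (KN1_sg (D m)) h₀ := by
    intro s m hm
    rw [← hUv s m hm, ← hLv s m hm]
    have hr : 0 < rad u i j h₀ m := by
      unfold rad
      exact div_pos (hpos m) (abs_pos.2 (hDne m hm))
    linarith
  -- ties
  have tie : ∀ s : ℝ, (s = 1 ∨ s = -1) → ∀ p ∈ P, ∀ q ∈ P, p ≠ q → ∀ e e' : ℝ,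
      (e = 1 ∨ e = -1) → (e' = 1 ∨ e' = -1) →
      KN1_b u i j s p e h₀ = KN1_b u i j s q e' h₀ →
      s = σ ∧ dt (u p) v0 = e * h₀ p := by
    intro s hs p hp q hq hpq e e' he he' heq
    exact KN0_tie hKNC u h₀ c v0 hpos hO hC hu i j p q hij (hmem p hp).1 (hmem q hq).1
      (hmem p hp).2 (hmem q hq).2 hpq hci hcj hvi ht s e e' hs he he' heq
  constructor
  · -- the sign `-σ`
    have hns : -σ = 1 ∨ -σ = -1 := neg_cases σ hσc
    have hno : ∀ p ∈ P, ∀ q ∈ P, p ≠ q → ∀ e e' : ℝ,
        (e = 1 ∨ e = -1) → (e' = 1 ∨ e' = -1) →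
        KN1_b u i j (-σ) p e h₀ = KN1_b u i j (-σ) q e' h₀ → False := by
      intro p hp q hq hpq e e' he he' heq
      have h1 := (tie (-σ) hns p hp q hq hpq e e' he he' heq).1
      rcases hσc with h | h <;> rw [h] at h1 <;> norm_num at h1
    obtain ⟨a, ha⟩ := KN0_main P hM (fun m => KN1_b u i j (-σ) m (KN1_sg (D m)))
      (fun m => KN1_b u i j (-σ) m (-KN1_sg (D m))) h₀ (by
        right
        refine ⟨?_, ?_, ?_⟩
        · intro p hp q hq hpq he _
          exact hno p hp q hq hpq _ _ (KN1_sg_cases _) (KN1_sg_cases _) he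
        · intro p hp q hq hpq he _
          exact hno p hp q hq hpq _ _ (neg_cases _ (KN1_sg_cases _))
            (neg_cases _ (KN1_sg_cases _)) he
        · intro p hp q hq he
          by_cases hpq : p = q
          · subst hpq
            have := hrad (-σ) p hp
            exact this.ne he.symm
          · exact hno p hp q hq hpq _ _ (KN1_sg_cases _) (neg_cases _ (KN1_sg_cases _)) he)
    refine ⟨a, ?_⟩
    filter_upwards [ha] with h hh
    rw [hLam (-σ) h, hLam (-σ) h₀]
    exact hh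
  · -- the sign `σ`
    intro hK
    -- the parameter of `v0`
    obtain ⟨p1, p2⟩ := KN1_pt u i j (h₀ i) (σ * h₀ j) ht
    set x0 := pt u i j (h₀ i) (σ * h₀ j) with hx0
    have hvj : dt (u j) v0 = σ * h₀ j := by
      rw [hσ, div_mul_cancel₀ _ (hpos j).ne']
    have hcr : ∀ k m : ι, D m * (dt (u k) v0 - dt (u k) x0) = D k * (dt (u m) v0 - dt (u m) x0) := by
      intro k m
      have h1 := KN1_ident (u i) (u j) (u k) (u m) v0
      have h2 := KN1_ident (u i) (u j) (u k) (u m) x0
      rw [hvi, hvj] at h1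
      rw [p1, p2] at h2
      simp only [hD]
      linarith
    obtain ⟨m₀, hm₀⟩ := id hM
    set c0 : ℝ := (dt (u m₀) v0 - dt (u m₀) x0) / D m₀ with hc0
    have hpar : ∀ m : ι, dt (u m) v0 = dt (u m) x0 + c0 * D m := by
      intro m
      have h1 := hcr m m₀
      have h2 := hDne m₀ hm₀
      have h3 : c0 * D m₀ = dt (u m₀) v0 - dt (u m₀) x0 := by
        rw [hc0, div_mul_cancel₀ _ h2]
      have h4 : D m₀ * (dt (u m) v0 - dt (u m) x0 - c0 * D m) = 0 := by
        rw [mul_sub, h1, ← h3]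
        ring
      have h5 := (mul_eq_zero.1 h4).resolve_left h2
      linarith
    have tie0 : ∀ p ∈ P, ∀ q ∈ P, p ≠ q → ∀ e e' : ℝ,
        (e = 1 ∨ e = -1) → (e' = 1 ∨ e' = -1) →
        KN1_b u i j σ p e h₀ = KN1_b u i j σ q e' h₀ → KN1_b u i j σ p e h₀ = c0 := by
      intro p hp q hq hpq e e' he he' heq
      have h1 := (tie σ hσc p hp q hq hpq e e' he he' heq).2
      rw [KN1_b_apply, ← h1, hpar p, ← hx0]
      have h2 := hDne p hp
      change (dt (u p) x0 + c0 * D p - dt (u p) x0) / D p = c0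
      rw [add_sub_cancel_left, mul_div_cancel_right₀ _ h2]
    -- the violated constraint
    have hl : ∃ l ∈ P, KN1_b u i j σ l (KN1_sg (D l)) h₀ < c0 ∨
        c0 < KN1_b u i j σ l (-KN1_sg (D l)) h₀ := by
      have : ∃ l, h₀ l < |dt (u l) v0| := by
        by_contra hcon
        exact hK fun l => not_lt.1 fun h => hcon ⟨l, h⟩
      obtain ⟨l, hl⟩ := this
      have hli : l ≠ i := by
        rintro rfl
        rw [hC.tight l hci] at hl
        exact lt_irrefl _ hl
      have hlj : l ≠ j := by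
        rintro rfl
        rw [hC.tight l hcj] at hl
        exact lt_irrefl _ hl
      have hlP := hmem' l hli hlj
      refine ⟨l, hlP, ?_⟩
      rw [← hUv σ l hlP, ← hLv σ l hlP]
      have hDl := hDne l hlP
      have hDa : 0 < |D l| := abs_pos.2 hDl
      have e1 : |dt (u l) v0| = |c0 - mid u i j (h₀ i) (σ * h₀ j) l| * |D l| := by
        rw [← abs_mul, hpar l]
        congr 1
        simp only [mid]
        rw [← hx0]
        change _ = (c0 - -(dt (u l) x0 / D l)) * D l
        field_simp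
        ring
      have e2 : h₀ l = rad u i j h₀ l * |D l| := by
        unfold rad
        rw [div_mul_cancel₀ _ hDa.ne']
      rw [e1, e2] at hl
      have hl' := lt_of_mul_lt_mul_right hl hDa.le
      rcases lt_abs.1 hl' with h | h
      · left; linarith
      · right; linarith
    obtain ⟨l, hlP, hl⟩ := hl
    obtain ⟨a, ha⟩ := KN0_main P hM (fun m => KN1_b u i j σ m (KN1_sg (D m)))
      (fun m => KN1_b u i j σ m (-KN1_sg (D m))) h₀ (by
        by_cases hlt : ∃ p ∈ P, ∃ q ∈ P, KN1_b u i j σ p (KN1_sg (D p)) h₀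
            < KN1_b u i j σ q (-KN1_sg (D q)) h₀
        · exact Or.inl hlt
        · right
          have hlt : ∀ p ∈ P, ∀ q ∈ P, KN1_b u i j σ q (-KN1_sg (D q)) h₀
              ≤ KN1_b u i j σ p (KN1_sg (D p)) h₀ :=
            fun p hp q hq => not_lt.1 fun h => hlt ⟨p, hp, q, hq, h⟩
          refine ⟨?_, ?_, ?_⟩
          · intro p hp q hq hpq he hmin
            have h1 := tie0 p hp q hq hpq _ _ (KN1_sg_cases _) (KN1_sg_cases _) he
            rcases hl with h | h
            · have h2 := hmin l hlP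
              linarith
            · have h2 := hlt p hp l hlP
              linarith
          · intro p hp q hq hpq he hmax
            have h1 := tie0 p hp q hq hpq _ _ (neg_cases _ (KN1_sg_cases _))
              (neg_cases _ (KN1_sg_cases _)) he
            rcases hl with h | h
            · have h2 := hlt l hlP p hp
              linarith
            · have h2 := hmax l hlP
              linarith
          · intro p hp q hq he
            by_cases hpq : p = q
            · subst hpq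
              have := hrad σ p hp
              exact this.ne he.symm
            · have h1 := tie0 p hp q hq hpq _ _ (KN1_sg_cases _)
                (neg_cases _ (KN1_sg_cases _)) he
              rcases hl with h | h
              · have h2 := hlt l hlP q hq
                have h3 : KN1_b u i j σ p (KN1_sg (D p)) h₀ =
                    KN1_b u i j σ q (-KN1_sg (D q)) h₀ := he
                linarith
              · have h2 := hlt p hp l hlP
                linarith)
    refine ⟨a, ?_⟩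
    filter_upwards [ha] with h hh
    rw [hLam σ h, hLam σ h₀]
    exact hh

end Pool.T3
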