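import Pool.Agent.Work.MP_b5407d_t3.Interface

/-!
# MP_b5407d_t3: block KN1 (chord lengths near a point with one coincidence)
-/

set_option autoImplicit false

open MeasureTheory Set Filter Topology

namespace Pool.T3

theorem KN1_lin_apply {ι : Type} [Fintype ι] (a h : ι → ℝ) : lin a h = ∑ i, a i * h i := by
  simp [lin]

theorem KN1_exists_lin {ι : Type} [Fintype ι] [DecidableEq ι] (φ : (ι → ℝ) →L[ℝ] ℝ) :
    ∃ a : ι → ℝ, lin a = φ := by
  refine ⟨fun k => φ (Pi.single k 1), ?_⟩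
  ext h
  rw [KN1_lin_apply]
  have e : h = ∑ k, h k • (Pi.single k (1 : ℝ) : ι → ℝ) := by
    ext j
    simp [Finset.sum_apply, Pi.single_apply]
  conv_rhs => rw [e]
  rw [map_sum]
  refine Finset.sum_congr rfl fun k _ => ?_
  rw [map_smul, smul_eq_mul, mul_comm]

theorem KN1_lin_smul {ι : Type} [Fintype ι] (r : ℝ) (a : ι → ℝ) : lin (r • a) = r • lin a := by
  ext h
  simp [KN1_lin_apply, Finset.mul_sum, mul_assoc]

/-! ### Minimum of finitely many linear functions near a point -/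

theorem KN1_inf {ι κ : Type} [Fintype ι] (P : Finset κ) (hP : P.Nonempty)
    (l : κ → (ι → ℝ) →L[ℝ] ℝ) (g : (ι → ℝ) →L[ℝ] ℝ) (h₀ : ι → ℝ) (hg : g h₀ = 0)
    (tie : ∀ p ∈ P, ∀ q ∈ P, l p h₀ = l q h₀ → ∃ r : ℝ, l p - l q = r • g) :
    ∃ p₀ ∈ P, ∃ r n : ℝ, (∀ q ∈ P, l p₀ h₀ ≤ l q h₀) ∧
      ∀ᶠ h in 𝓝 h₀, P.inf' hP (fun p => l p h) = l p₀ h + r * g h + n * |g h| := by
  classical
  obtain ⟨p₀, hp₀, hmin⟩ := Finset.exists_min_image P (fun p => l p h₀) hP
  have hr : ∀ p : κ, ∃ r : ℝ, p ∈ P → l p h₀ = l p₀ h₀ → l p - l p₀ = r • g := by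
    intro p
    by_cases hp : p ∈ P
    · by_cases he : l p h₀ = l p₀ h₀
      · obtain ⟨r, hr⟩ := tie p hp p₀ hp₀ he
        exact ⟨r, fun _ _ => hr⟩
      · exact ⟨0, fun _ h => absurd h he⟩
    · exact ⟨0, fun h => absurd h hp⟩
  choose rr hrr using hr
  set P₀ : Finset κ := P.filter (fun p => l p h₀ = l p₀ h₀) with hP₀
  have hne : P₀.Nonempty := ⟨p₀, Finset.mem_filter.2 ⟨hp₀, rfl⟩⟩
  obtain ⟨pm, hpm, hpm'⟩ := Finset.exists_min_image P₀ rr hne
  obtain ⟨pM, hpM, hpM'⟩ := Finset.exists_max_image P₀ rr hne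
  have hval : ∀ p ∈ P₀, ∀ h, l p h = l p₀ h + rr p * g h := by
    intro p hp h
    have h1 := hrr p (Finset.mem_filter.1 hp).1 (Finset.mem_filter.1 hp).2
    have h2 := congrArg (fun φ : (ι → ℝ) →L[ℝ] ℝ => φ h) h1
    simp only [sub_apply, smul_apply, smul_eq_mul] at h2
    linarith
  refine ⟨p₀, hp₀, (rr pm + rr pM) / 2, (rr pm - rr pM) / 2, hmin, ?_⟩
  set v : (ι → ℝ) → ℝ := fun h =>
    l p₀ h + (rr pm + rr pM) / 2 * g h + (rr pm - rr pM) / 2 * |g h| with hv
  have hvc : Continuous v := by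
    rw [hv]
    have h1 := (l p₀).continuous
    have h2 := g.continuous
    fun_prop
  have hv0 : v h₀ = l p₀ h₀ := by
    simp only [hv]
    rw [hg]
    simp
  have hfar : ∀ᶠ h in 𝓝 h₀, ∀ p ∈ P, p ∉ P₀ → v h < l p h := by
    have : ∀ᶠ h in 𝓝 h₀, ∀ p ∈ P.filter (fun p => p ∉ P₀), v h < l p h := by
      rw [Filter.eventually_all_finset]
      intro p hp
      obtain ⟨hp1, hp2⟩ := Finset.mem_filter.1 hp
      have hlt : v h₀ < l p h₀ := by
        rw [hv0]
        refine lt_of_le_of_ne (hmin p hp1) fun he => hp2 ?_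
        exact Finset.mem_filter.2 ⟨hp1, he.symm⟩
      exact (hvc.tendsto h₀).eventually_lt ((l p).continuous.tendsto h₀) hlt
    filter_upwards [this] with h hh p hp hp'
    exact hh p (Finset.mem_filter.2 ⟨hp, hp'⟩)
  filter_upwards [hfar] with h hh
  refine le_antisymm ?_ ?_
  · rcases le_total 0 (g h) with hg0 | hg0
    · refine (Finset.inf'_le _ (Finset.mem_filter.1 hpm).1).trans ?_
      rw [hval pm hpm h, abs_of_nonneg hg0]
      linarith
    · refine (Finset.inf'_le _ (Finset.mem_filter.1 hpM).1).trans ?_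
      rw [hval pM hpM h, abs_of_nonpos hg0]
      linarith
  · refine Finset.le_inf' _ _ fun p hp => ?_
    by_cases hp0 : p ∈ P₀
    · rw [hval p hp0 h]
      rcases le_total 0 (g h) with hg0 | hg0
      · rw [abs_of_nonneg hg0]
        have := mul_le_mul_of_nonneg_right (hpm' p hp0) hg0
        linarith
      · rw [abs_of_nonpos hg0]
        have := mul_le_mul_of_nonpos_right (hpM' p hp0) hg0
        linarith
    · exact (hh p hp hp0).le

theorem KN1_sup {ι κ : Type} [Fintype ι] (P : Finset κ) (hP : P.Nonempty)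
    (l : κ → (ι → ℝ) →L[ℝ] ℝ) (g : (ι → ℝ) →L[ℝ] ℝ) (h₀ : ι → ℝ) (hg : g h₀ = 0)
    (tie : ∀ p ∈ P, ∀ q ∈ P, l p h₀ = l q h₀ → ∃ r : ℝ, l p - l q = r • g) :
    ∃ p₀ ∈ P, ∃ r n : ℝ, (∀ q ∈ P, l q h₀ ≤ l p₀ h₀) ∧
      ∀ᶠ h in 𝓝 h₀, P.sup' hP (fun p => l p h) = l p₀ h + r * g h + n * |g h| := by
  obtain ⟨p₀, hp₀, r, n, h1, h2⟩ := KN1_inf P hP (fun p => -l p) g h₀ hg (by
    intro p hp q hq he
    have he' : l q h₀ = l p h₀ := by
      simp only [neg_apply] at he
      linarith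
    obtain ⟨r, hr⟩ := tie q hq p hp he'
    exact ⟨r, by rw [← hr]; abel⟩)
  refine ⟨p₀, hp₀, -r, -n, ?_, ?_⟩
  · intro q hq
    have := h1 q hq
    simp only [neg_apply] at this
    linarith
  · filter_upwards [h2] with h hh
    have e : P.sup' hP (fun p => l p h) = -(P.inf' hP (fun p => (-l p) h)) := by
      refine le_antisymm (Finset.sup'_le _ _ fun p hp => ?_) ?_
      · have := Finset.inf'_le (fun p => (-l p) h) hp
        simp only [neg_apply] at this ⊢
        linarith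
      · rw [neg_le]
        refine Finset.le_inf' _ _ fun p hp => ?_
        have := Finset.le_sup' (fun p => l p h) hp
        simp only [neg_apply] at this ⊢
        linarith
    rw [e, hh]
    simp only [neg_apply]
    ring

/-! ### Algebra of the bounds -/

theorem KN1_ident (a b c d x : R3) :
    de b c d * dt a x - de a c d * dt b x + de a b d * dt c x - de a b c * dt d x = 0 := by
  simp only [de, dt, cr, Matrix.cons_val_zero, Matrix.cons_val_one, Matrix.cons_val_two,
    Matrix.head_cons, Matrix.tail_cons]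
  ring

theorem KN1_pt {ι : Type} (u : ι → R3) (i j : ι) (α β : ℝ)
    (ht : dt (cr (u i) (u j)) (cr (u i) (u j)) ≠ 0) :
    dt (u i) (pt u i j α β) = α ∧ dt (u j) (pt u i j α β) = β := by
  have e1 : dt (u i) (cr (u j) (cr (u i) (u j))) = dt (cr (u i) (u j)) (cr (u i) (u j)) := by
    simp only [dt, cr, Matrix.cons_val_zero, Matrix.cons_val_one, Matrix.cons_val_two,
      Matrix.head_cons, Matrix.tail_cons]
    ring
  have e2 : dt (u i) (cr (cr (u i) (u j)) (u i)) = 0 := by
    simp only [dt, cr, Matrix.cons_val_zero, Matrix.cons_val_one, Matrix.cons_val_two,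
      Matrix.head_cons, Matrix.tail_cons]
    ring
  have e3 : dt (u j) (cr (u j) (cr (u i) (u j))) = 0 := by
    simp only [dt, cr, Matrix.cons_val_zero, Matrix.cons_val_one, Matrix.cons_val_two,
      Matrix.head_cons, Matrix.tail_cons]
    ring
  have e4 : dt (u j) (cr (cr (u i) (u j)) (u i)) = dt (cr (u i) (u j)) (cr (u i) (u j)) := by
    simp only [dt, cr, Matrix.cons_val_zero, Matrix.cons_val_one, Matrix.cons_val_two,
      Matrix.head_cons, Matrix.tail_cons]
    ring
  have lin1 : ∀ (a x y : R3) (p q r : ℝ), dt a (r • (p • x + q • y)) = r * (p * dt a x + q * dt a y) := by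
    intro a x y p q r
    simp only [dt, Pi.smul_apply, Pi.add_apply, smul_eq_mul]
    ring
  constructor
  · unfold pt
    rw [lin1, e1, e2]
    field_simp
    ring
  · unfold pt
    rw [lin1, e3, e4]
    field_simp
    ring

/-- bound number `m`, sign `e`, as a linear function of `h` -/
noncomputable def KN1_b {ι : Type} [Fintype ι] (u : ι → R3) (i j : ι) (s : ℝ) (m : ι) (e : ℝ) :
    (ι → ℝ) →L[ℝ] ℝ :=
  (e / de (u i) (u j) (u m)) • (ContinuousLinearMap.proj m : (ι → ℝ) →L[ℝ] ℝ)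
    - (dt (u m) (pt u i j 1 0) / de (u i) (u j) (u m)) • (ContinuousLinearMap.proj i : (ι → ℝ) →L[ℝ] ℝ)
    - (s * dt (u m) (pt u i j 0 1) / de (u i) (u j) (u m)) •
        (ContinuousLinearMap.proj j : (ι → ℝ) →L[ℝ] ℝ)

theorem KN1_dt_pt {ι : Type} (u : ι → R3) (i j : ι) (α β : ℝ) (x : R3) :
    dt x (pt u i j α β) = α * dt x (pt u i j 1 0) + β * dt x (pt u i j 0 1) := by
  simp only [pt, dt, Pi.smul_apply, Pi.add_apply, smul_eq_mul]
  ring

theorem KN1_b_apply {ι : Type} [Fintype ι] (u : ι → R3) (i j : ι) (s : ℝ) (m : ι) (e : ℝ)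
    (h : ι → ℝ) : KN1_b u i j s m e h =
      (e * h m - dt (u m) (pt u i j (h i) (s * h j))) / de (u i) (u j) (u m) := by
  rw [KN1_dt_pt]
  simp only [KN1_b, sub_apply, smul_apply,
    ContinuousLinearMap.proj_apply, smul_eq_mul]
  ring

theorem KN1_fv {ι : Type} [Fintype ι] [DecidableEq ι] (u : ι → R3) (i j k m : ι)
    (e1 e2 e3 : ℝ) (h : ι → ℝ) : lin (fv u i j k m e1 e2 e3) h =
      de (u j) (u k) (u m) * h i - e1 * de (u i) (u k) (u m) * h j
        + e2 * de (u i) (u j) (u m) * h k - e3 * de (u i) (u j) (u k) * h m := by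
  rw [KN1_lin_apply]
  simp only [fv, Pi.add_apply, Pi.single_apply, add_mul, Finset.sum_add_distrib, ite_mul, zero_mul,
    Finset.sum_ite_eq', Finset.mem_univ, if_true]
  ring

theorem KN1_diff {ι : Type} [Fintype ι] [DecidableEq ι] (u : ι → R3) (i j k m : ι)
    (ht : dt (cr (u i) (u j)) (cr (u i) (u j)) ≠ 0) (hk : de (u i) (u j) (u k) ≠ 0)
    (hm : de (u i) (u j) (u m) ≠ 0) (s e e' : ℝ) (h : ι → ℝ) :
    KN1_b u i j s k e h - KN1_b u i j s m e' h
      = 1 / (de (u i) (u j) (u k) * de (u i) (u j) (u m)) * lin (fv u i j k m s e e') h := by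
  obtain ⟨p1, p2⟩ := KN1_pt u i j (h i) (s * h j) ht
  have hid := KN1_ident (u i) (u j) (u k) (u m) (pt u i j (h i) (s * h j))
  rw [p1, p2] at hid
  rw [KN1_b_apply, KN1_b_apply, KN1_fv]
  field_simp
  linear_combination (-1 : ℝ) * hid

theorem KN1_tie {ι : Type} [Fintype ι] [DecidableEq ι] (u : ι → R3) (h₀ c : ι → ℝ)
    (hO : One u h₀ c) (hu : Fam u) (i j k m : ι) (hij : i ≠ j) (hik : i ≠ k) (him : i ≠ m)
    (hjk : j ≠ k) (hjm : j ≠ m) (hkm : k ≠ m)
    (ht : dt (cr (u i) (u j)) (cr (u i) (u j)) ≠ 0) (s e e' : ℝ) (hs : s = 1 ∨ s = -1)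
    (he : e = 1 ∨ e = -1) (he' : e' = 1 ∨ e' = -1)
    (heq : KN1_b u i j s k e h₀ = KN1_b u i j s m e' h₀) :
    ∃ r : ℝ, KN1_b u i j s k e - KN1_b u i j s m e' = r • lin c := by
  have hk := hu.ind i j k hij hik hjk
  have hm := hu.ind i j m hij him hjm
  have hd := KN1_diff u i j k m ht hk hm s e e'
  have h0 : lin (fv u i j k m s e e') h₀ = 0 := by
    have h1 := hd h₀
    rw [heq, sub_self] at h1
    have h2 : 1 / (de (u i) (u j) (u k) * de (u i) (u j) (u m)) ≠ 0 :=
      one_div_ne_zero (mul_ne_zero hk hm)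
    exact (mul_eq_zero.1 h1.symm).resolve_left h2
  obtain ⟨r, hr⟩ := hO.only _ ⟨i, j, k, m, s, e, e', hij, hik, him, hjk, hjm, hkm, hs, he, he', rfl⟩ h0
  refine ⟨1 / (de (u i) (u j) (u k) * de (u i) (u j) (u m)) * r, ?_⟩
  ext h
  rw [sub_apply, hd h, hr, KN1_lin_smul]
  simp only [smul_apply, smul_eq_mul]
  ring

/-- the sign of `D m` -/
noncomputable def KN1_sg (x : ℝ) : ℝ := if 0 < x then 1 else -1

theorem KN1_sg_cases (x : ℝ) : KN1_sg x = 1 ∨ KN1_sg x = -1 := by
  unfold KN1_sg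
  split_ifs
  · exact Or.inl rfl
  · exact Or.inr rfl

theorem KN1_sg_div (x : ℝ) (hx : x ≠ 0) : KN1_sg x / x = 1 / |x| := by
  unfold KN1_sg
  split_ifs with h
  · rw [abs_of_pos h]
  · have hx' : x < 0 := lt_of_le_of_ne (not_lt.1 h) hx
    rw [abs_of_neg hx', neg_div, div_neg]

theorem stmt_KN1 (hLAMF : Stmt_LAMF) : Stmt_KN1 := by
  intro ι _ _ u hu h₀ c hpos hO i j hij s hs
  obtain ⟨hM, hL⟩ := hLAMF ι u hu i j hij
  have hL' := hL hM
  set P := oth i j with hP
  have hmem : ∀ m ∈ P, i ≠ m ∧ j ≠ m := by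
    intro m hm
    have := (Finset.mem_filter.1 hm).2
    exact ⟨this.1.symm, this.2.symm⟩
  have ht : dt (cr (u i) (u j)) (cr (u i) (u j)) ≠ 0 := by
    obtain ⟨k, hk⟩ := hM
    obtain ⟨h1, h2⟩ := hmem k hk
    have hd := hu.ind i j k hij h1 h2
    intro h0
    apply hd
    have hz : ∀ x : ℝ, 0 ≤ x * x := fun x => mul_self_nonneg x
    simp only [dt] at h0
    have z0 := hz (cr (u i) (u j) 0)
    have z1 := hz (cr (u i) (u j) 1)
    have z2 := hz (cr (u i) (u j) 2)
    have y0 : cr (u i) (u j) 0 = 0 := mul_self_eq_zero.1 (by linarith)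
    have y1 : cr (u i) (u j) 1 = 0 := mul_self_eq_zero.1 (by linarith)
    have y2 : cr (u i) (u j) 2 = 0 := mul_self_eq_zero.1 (by linarith)
    simp only [de, dt, y0, y1, y2]
    ring
  set D : ι → ℝ := fun m => de (u i) (u j) (u m) with hD
  have hDne : ∀ m ∈ P, D m ≠ 0 := fun m hm => hu.ind i j m hij (hmem m hm).1 (hmem m hm).2
  set U : ι → (ι → ℝ) →L[ℝ] ℝ := fun m => KN1_b u i j s m (KN1_sg (D m)) with hU
  set L : ι → (ι → ℝ) →L[ℝ] ℝ := fun m => KN1_b u i j s m (-KN1_sg (D m)) with hLd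
  have hUv : ∀ m ∈ P, ∀ h : ι → ℝ,
      mid u i j (h i) (s * h j) m + rad u i j h m = U m h := by
    intro m hm h
    have h1 := KN1_sg_div (D m) (hDne m hm)
    have h2 : U m h = KN1_sg (D m) / D m * h m
        - dt (u m) (pt u i j (h i) (s * h j)) / D m := by
      simp only [hU]
      rw [KN1_b_apply]
      ring
    rw [h2, h1]
    simp only [mid, rad, hD]
    ring
  have hLv : ∀ m ∈ P, ∀ h : ι → ℝ,
      mid u i j (h i) (s * h j) m - rad u i j h m = L m h := by
    intro m hm h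
    have h1 := KN1_sg_div (D m) (hDne m hm)
    have h2 : L m h = -(KN1_sg (D m) / D m * h m)
        - dt (u m) (pt u i j (h i) (s * h j)) / D m := by
      simp only [hLd]
      rw [KN1_b_apply]
      ring
    rw [h2, h1]
    simp only [mid, rad, hD]
    ring
  have hLam : ∀ h : ι → ℝ, Lam u i j (h i) (s * h j) h =
      max 0 (P.inf' hM (fun m => U m h) - P.sup' hM (fun m => L m h)) := by
    intro h
    rw [hL']
    have e1 : P.inf' hM (fun m => mid u i j (h i) (s * h j) m + rad u i j h m)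
        = P.inf' hM (fun m => U m h) := Finset.inf'_congr hM rfl fun m hm => hUv m hm h
    have e2 : P.sup' hM (fun m => mid u i j (h i) (s * h j) m - rad u i j h m)
        = P.sup' hM (fun m => L m h) := Finset.sup'_congr hM rfl fun m hm => hLv m hm h
    rw [e1, e2]
  set g := lin c with hg
  have hg0 : g h₀ = 0 := hO.zero
  have neg_cases : ∀ x : ℝ, (x = 1 ∨ x = -1) → (-x = 1 ∨ -x = -1) := by
    rintro x (h | h)
    · right; rw [h]
    · left; rw [h]; norm_num
  have tieU : ∀ p ∈ P, ∀ q ∈ P, U p h₀ = U q h₀ → ∃ r : ℝ, U p - U q = r • g := by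
    intro p hp q hq he
    by_cases hpq : p = q
    · exact ⟨0, by rw [hpq]; simp⟩
    · exact KN1_tie u h₀ c hO hu i j p q hij (hmem p hp).1 (hmem q hq).1 (hmem p hp).2
        (hmem q hq).2 hpq ht s _ _ hs (KN1_sg_cases _) (KN1_sg_cases _) he
  have tieL : ∀ p ∈ P, ∀ q ∈ P, L p h₀ = L q h₀ → ∃ r : ℝ, L p - L q = r • g := by
    intro p hp q hq he
    by_cases hpq : p = q
    · exact ⟨0, by rw [hpq]; simp⟩
    · exact KN1_tie u h₀ c hO hu i j p q hij (hmem p hp).1 (hmem q hq).1 (hmem p hp).2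
        (hmem q hq).2 hpq ht s _ _ hs (neg_cases _ (KN1_sg_cases _))
        (neg_cases _ (KN1_sg_cases _)) he
  have tieUL : ∀ p ∈ P, ∀ q ∈ P, U p h₀ = L q h₀ → ∃ r : ℝ, U p - L q = r • g := by
    intro p hp q hq he
    by_cases hpq : p = q
    · exfalso
      rw [hpq, ← hUv q hq, ← hLv q hq] at he
      have hr : 0 < rad u i j h₀ q := by
        unfold rad
        exact div_pos (hpos q) (abs_pos.2 (hDne q hq))
      linarith
    · exact KN1_tie u h₀ c hO hu i j p q hij (hmem p hp).1 (hmem q hq).1 (hmem p hp).2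
        (hmem q hq).2 hpq ht s _ _ hs (KN1_sg_cases _) (neg_cases _ (KN1_sg_cases _)) he
  obtain ⟨p, hp, r1, n1, -, hev1⟩ := KN1_inf P hM U g h₀ hg0 tieU
  obtain ⟨q, hq, r2, n2, -, hev2⟩ := KN1_sup P hM L g h₀ hg0 tieL
  -- the difference
  set W : (ι → ℝ) → ℝ := fun h => P.inf' hM (fun m => U m h) - P.sup' hM (fun m => L m h) with hW
  have hWev : ∀ᶠ h in 𝓝 h₀, W h = (U p - L q) h + (r1 - r2) * g h + (n1 - n2) * |g h| := by
    filter_upwards [hev1, hev2] with h h1 h2
    simp only [hW]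
    rw [h1, h2, sub_apply]
    ring
  have hW0 : W h₀ = (U p - L q) h₀ := by
    have := hWev.self_of_nhds
    rw [this, hg0]
    simp
  set φ : (ι → ℝ) →L[ℝ] ℝ := U p - L q with hφ
  set F : (ι → ℝ) → ℝ := fun h => φ h + (r1 - r2) * g h + (n1 - n2) * |g h| with hF
  have hFc : Continuous F := by
    have h1 := φ.continuous
    have h2 := g.continuous
    rw [hF]
    fun_prop
  have hF0 : F h₀ = φ h₀ := by
    simp only [hF]
    rw [hg0]
    simp
  have hLam' : ∀ᶠ h in 𝓝 h₀, Lam u i j (h i) (s * h j) h = max 0 (F h) := by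
    filter_upwards [hWev] with h h1
    rw [hLam h]
    change max 0 (W h) = _
    rw [h1]
  have hLam0 : Lam u i j (h₀ i) (s * h₀ j) h₀ = max 0 (φ h₀) := by
    rw [hLam'.self_of_nhds, hF0]
  rcases lt_trichotomy (φ h₀) 0 with hneg | hzero | hposi
  · -- negative: the chord is empty
    refine ⟨0, 0, ?_, fun _ _ => le_refl _, fun _ => rfl⟩
    have h1 : ∀ᶠ h in 𝓝 h₀, F h < 0 := by
      have : Tendsto F (𝓝 h₀) (𝓝 (φ h₀)) := by
        rw [← hF0]
        exact hFc.tendsto h₀
      exact this.eventually_lt_const hneg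
    filter_upwards [hLam', h1] with h h2 h3
    rw [h2, hLam0, max_eq_left h3.le, max_eq_left hneg.le]
    simp [KN1_lin_apply]
  · -- tie between the upper and the lower bounds
    have hUL : U p h₀ = L q h₀ := by
      have : φ h₀ = U p h₀ - L q h₀ := by rw [hφ, sub_apply]
      linarith
    obtain ⟨r3, hr3'⟩ := tieUL p hp q hq hUL
    have hr3 : φ = r3 • g := hr3'
    set ρ : ℝ := r3 + (r1 - r2) with hρ
    set n : ℝ := n1 - n2 with hn
    have hFval : ∀ h, F h = ρ * g h + n * |g h| := by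
      intro h
      simp only [hF]
      rw [hr3, smul_apply, smul_eq_mul]
      ring
    set A : ℝ := max 0 (ρ + n) with hA
    set B : ℝ := max 0 (n - ρ) with hB
    have hA0 : 0 ≤ A := le_max_left _ _
    have hB0 : 0 ≤ B := le_max_left _ _
    have hmax : ∀ h, max 0 (F h) = (A - B) / 2 * g h + (A + B) / 2 * |g h| := by
      intro h
      rw [hFval h]
      rcases le_total 0 (g h) with h0 | h0
      · rw [abs_of_nonneg h0]
        have e1 : ρ * g h + n * g h = (ρ + n) * g h := by ring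
        have e2 : (A - B) / 2 * g h + (A + B) / 2 * g h = A * g h := by ring
        rw [e1, e2, hA, max_mul_of_nonneg _ _ h0, zero_mul]
      · rw [abs_of_nonpos h0]
        have e1 : ρ * g h + n * -g h = (n - ρ) * (-g h) := by ring
        have e2 : (A - B) / 2 * g h + (A + B) / 2 * -g h = B * (-g h) := by ring
        rw [e1, e2, hB, max_mul_of_nonneg _ _ (neg_nonneg.2 h0), zero_mul]
    by_cases hc : c = 0
    · -- no form at all
      have hgz : ∀ h, g h = 0 := by
        intro h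
        rw [hg, hc, KN1_lin_apply]
        simp
      refine ⟨0, 0, ?_, fun _ h => absurd hc h, fun _ => rfl⟩
      filter_upwards [hLam'] with h h2
      rw [h2, hLam0, hmax h, hgz h, hzero]
      simp [KN1_lin_apply]
    · refine ⟨((A - B) / 2) • c, (A + B) / 2, ?_, fun _ _ => by positivity, fun h => absurd h hc⟩
      filter_upwards [hLam'] with h h2
      rw [h2, hLam0, hmax h, hzero, KN1_lin_smul, smul_apply, map_sub,
        ← hg, hg0, smul_eq_mul]
      simp
  · -- positive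
    have h1 : ∀ᶠ h in 𝓝 h₀, 0 < F h := by
      have : Tendsto F (𝓝 h₀) (𝓝 (φ h₀)) := by
        rw [← hF0]
        exact hFc.tendsto h₀
      exact this.eventually_const_lt hposi
    have hne : Lam u i j (h₀ i) (s * h₀ j) h₀ ≠ 0 := by
      rw [hLam0, max_eq_right hposi.le]
      exact hposi.ne'
    obtain ⟨a, ha⟩ := KN1_exists_lin (φ + (r1 - r2) • g)
    by_cases hc : c = 0
    · have hgz : ∀ h, g h = 0 := by
        intro h
        rw [hg, hc, KN1_lin_apply]
        simp
      refine ⟨a, 0, ?_, fun h => absurd h hne, fun _ => rfl⟩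
      filter_upwards [hLam', h1] with h h2 h3
      rw [h2, hLam0, max_eq_right h3.le, max_eq_right hposi.le, ha]
      simp only [hF, hgz, add_apply, smul_apply, map_sub,
        smul_eq_mul]
      ring
    · refine ⟨a, n1 - n2, ?_, fun h => absurd h hne, fun h => absurd h hc⟩
      filter_upwards [hLam', h1] with h h2 h3
      rw [h2, hLam0, max_eq_right h3.le, max_eq_right hposi.le, ha]
      simp only [hF, add_apply, smul_apply, map_sub,
        smul_eq_mul, hg0]
      ring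

end Pool.T3
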