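import Pool.Agent.Work.MP_b5407d_t3.Interface

/-!
# Block `KN2` (helper3): symmetry of third derivatives at a point with one coincidence
-/

set_option autoImplicit false

open MeasureTheory Set Filter Topology

namespace Pool.T3.KN2_

open Pool.T3

variable {ι : Type} [Fintype ι]

lemma lin_apply (a v : ι → ℝ) : lin a v = ∑ i, a i * v i := by
  simp [lin]

lemma lin_add_left (a b v : ι → ℝ) : lin (a + b) v = lin a v + lin b v := by
  simp [lin_apply, add_mul, Finset.sum_add_distrib]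

lemma lin_smul_left (r : ℝ) (b v : ι → ℝ) : lin (r • b) v = r * lin b v := by
  simp [lin_apply, mul_assoc, Finset.mul_sum]

lemma lin_self_pos (c : ι → ℝ) (hc : c ≠ 0) : 0 < lin c c := by
  rw [lin_apply]
  obtain ⟨i, hi⟩ := Function.ne_iff.mp hc
  refine Finset.sum_pos' (fun j _ => mul_self_nonneg (c j)) ⟨i, Finset.mem_univ i, ?_⟩
  have : c i ≠ 0 := hi
  exact mul_self_pos.mpr this

/-- a direction with value one -/
lemma exists_dir (c : ι → ℝ) (hc : c ≠ 0) : ∃ g : ι → ℝ, lin c g = 1 := by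
  refine ⟨(1 / lin c c) • c, ?_⟩
  have h := lin_self_pos c hc
  rw [map_smul]
  simp [h.ne']

/-- the kink coefficient is unique -/
lemma kink_unique (h₀ c a b : ι → ℝ) (x y : ℝ) (hc : c ≠ 0) (h0 : lin c h₀ = 0)
    (he : ∀ᶠ h in 𝓝 h₀, lin a (h - h₀) + x * |lin c h| = lin b (h - h₀) + y * |lin c h|) :
    x = y := by
  obtain ⟨g, hg⟩ := exists_dir c hc
  have ht : Tendsto (fun t : ℝ => h₀ + t • g) (𝓝 0) (𝓝 h₀) := by
    have : Continuous (fun t : ℝ => h₀ + t • g) := by fun_prop
    have h2 := this.tendsto 0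
    simpa using h2
  have h1 := ht.eventually he
  have hneg : Tendsto (fun t : ℝ => -t) (𝓝 0) (𝓝 0) := by
    have : Continuous (fun t : ℝ => -t) := by fun_prop
    have h2 := this.tendsto 0
    simpa using h2
  have h2 := hneg.eventually h1
  have h3 : ∀ᶠ t : ℝ in 𝓝[>] 0, 0 < t := self_mem_nhdsWithin
  have h4 := (h1.filter_mono nhdsWithin_le_nhds).and
    ((h2.filter_mono nhdsWithin_le_nhds).and h3)
  obtain ⟨t, e1, e2, e3⟩ := h4.exists
  have l1 : ∀ s : ℝ, lin c (h₀ + s • g) = s := by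
    intro s
    rw [map_add, map_smul, h0, hg]
    simp
  simp only [add_sub_cancel_left, l1, map_smul, abs_neg, smul_eq_mul] at e1 e2
  rw [abs_of_pos e3] at e1 e2
  have : t * x = t * y := by linarith
  exact mul_left_cancel₀ e3.ne' this

/-- mixed derivatives of an explicit `C²` function of two variables are equal -/
lemma mix (f : ℝ × ℝ → ℝ) (A a1 a2 B b1 b2 : ℝ)
    (hf : ∀ᶠ y : ℝ × ℝ in 𝓝 0, HasFDerivAt f
      ((A + a1 * y.1 + a2 * y.2) • ContinuousLinearMap.fst ℝ ℝ ℝ +
        (B + b1 * y.1 + b2 * y.2) • ContinuousLinearMap.snd ℝ ℝ ℝ) y) : a2 = b1 := by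
  set f' : ℝ × ℝ → (ℝ × ℝ →L[ℝ] ℝ) := fun y =>
      (A + a1 * y.1 + a2 * y.2) • ContinuousLinearMap.fst ℝ ℝ ℝ +
        (B + b1 * y.1 + b2 * y.2) • ContinuousLinearMap.snd ℝ ℝ ℝ with hf'
  have h1 : ∀ (P p1 p2 : ℝ), HasFDerivAt (fun y : ℝ × ℝ => P + p1 * y.1 + p2 * y.2)
      (p1 • ContinuousLinearMap.fst ℝ ℝ ℝ + p2 • ContinuousLinearMap.snd ℝ ℝ ℝ) 0 := by
    intro P p1 p2
    have e1 : HasFDerivAt (fun y : ℝ × ℝ => y.1) (ContinuousLinearMap.fst ℝ ℝ ℝ) (0 : ℝ × ℝ) :=
      hasFDerivAt_fst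
    have e2 : HasFDerivAt (fun y : ℝ × ℝ => y.2) (ContinuousLinearMap.snd ℝ ℝ ℝ) (0 : ℝ × ℝ) :=
      hasFDerivAt_snd
    have e3 := ((e1.const_mul p1).const_add P).add (e2.const_mul p2)
    exact e3
  have h2 : HasFDerivAt f'
      ((a1 • ContinuousLinearMap.fst ℝ ℝ ℝ + a2 • ContinuousLinearMap.snd ℝ ℝ ℝ).smulRight
        (ContinuousLinearMap.fst ℝ ℝ ℝ) +
       (b1 • ContinuousLinearMap.fst ℝ ℝ ℝ + b2 • ContinuousLinearMap.snd ℝ ℝ ℝ).smulRight
        (ContinuousLinearMap.snd ℝ ℝ ℝ)) 0 :=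
    ((h1 A a1 a2).smul_const (ContinuousLinearMap.fst ℝ ℝ ℝ)).add
      ((h1 B b1 b2).smul_const (ContinuousLinearMap.snd ℝ ℝ ℝ))
  have h3 := second_derivative_symmetric_of_eventually (f := f) (f' := f') (x := (0 : ℝ × ℝ))
    hf h2 ((0 : ℝ), (1 : ℝ)) ((1 : ℝ), (0 : ℝ))
  simpa using h3

variable [DecidableEq ι]

lemma lin_single (a : ι → ℝ) (i : ι) (x : ℝ) : lin a (Pi.single i x) = a i * x := by
  rw [lin_apply, Finset.sum_eq_single i]
  · simp
  · intro j _ hj
    simp [Pi.single_eq_of_ne hj]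
  · intro hi
    exact absurd (Finset.mem_univ i) hi

/-- equality of third derivatives at a point where the functions are affine nearby -/
lemma third (u : ι → R3) (h₁ : ι → ℝ) (i j k : ι) (a b : ι → ℝ) (A B : ℝ)
    (hS : ∀ᶠ h in 𝓝 h₁, HasFDerivAt (fun h => S u h j) (lin (H u h j)) h)
    (hsym : ∀ᶠ h in 𝓝 h₁, H u h j i = H u h i j ∧ H u h j k = H u h k j)
    (ha : ∀ᶠ h in 𝓝 h₁, H u h i j = A + lin a (h - h₁))
    (hb : ∀ᶠ h in 𝓝 h₁, H u h k j = B + lin b (h - h₁)) : a k = b i := by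
  set P : ℝ × ℝ → ι → ℝ := fun y => h₁ + y.1 • Pi.single i (1 : ℝ) + y.2 • Pi.single k (1 : ℝ)
    with hP
  have hPc : Continuous P := by
    rw [hP]
    fun_prop
  have hP0 : P 0 = h₁ := by
    simp [hP]
  have hT : Tendsto P (𝓝 0) (𝓝 h₁) := by
    have := hPc.tendsto 0
    rwa [hP0] at this
  have hPd : ∀ y, HasFDerivAt P
      ((ContinuousLinearMap.fst ℝ ℝ ℝ).smulRight (Pi.single i (1 : ℝ) : ι → ℝ) +
        (ContinuousLinearMap.snd ℝ ℝ ℝ).smulRight (Pi.single k (1 : ℝ) : ι → ℝ)) y := by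
    intro y
    have e1 : HasFDerivAt (fun y : ℝ × ℝ => y.1) (ContinuousLinearMap.fst ℝ ℝ ℝ) y :=
      hasFDerivAt_fst
    have e2 : HasFDerivAt (fun y : ℝ × ℝ => y.2) (ContinuousLinearMap.snd ℝ ℝ ℝ) y :=
      hasFDerivAt_snd
    exact ((e1.smul_const (Pi.single i (1 : ℝ) : ι → ℝ)).const_add h₁).add
      (e2.smul_const (Pi.single k (1 : ℝ) : ι → ℝ))
  have hev := (hT.eventually hS).and ((hT.eventually hsym).and
    ((hT.eventually ha).and (hT.eventually hb)))
  have key : ∀ᶠ y : ℝ × ℝ in 𝓝 0, HasFDerivAt (fun y => S u (P y) j)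
      ((A + a i * y.1 + a k * y.2) • ContinuousLinearMap.fst ℝ ℝ ℝ +
        (B + b i * y.1 + b k * y.2) • ContinuousLinearMap.snd ℝ ℝ ℝ) y := by
    filter_upwards [hev] with y hy
    obtain ⟨y1, ⟨y2, y3⟩, y4, y5⟩ := hy
    have hd := y1.comp y (hPd y)
    have e0 : P y - h₁ = y.1 • Pi.single i (1 : ℝ) + y.2 • Pi.single k (1 : ℝ) := by
      simp only [hP]
      abel
    rw [e0] at y4 y5
    rw [map_add, map_smul, map_smul, lin_single, lin_single] at y4 y5
    refine HasFDerivAt.congr_fderiv hd ?_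
    refine ContinuousLinearMap.ext (fun v => ?_)
    have ev : ((lin (H u (P y) j)).comp
        ((ContinuousLinearMap.fst ℝ ℝ ℝ).smulRight (Pi.single i (1 : ℝ) : ι → ℝ) +
        (ContinuousLinearMap.snd ℝ ℝ ℝ).smulRight (Pi.single k (1 : ℝ) : ι → ℝ))) v =
        H u (P y) j i * v.1 + H u (P y) j k * v.2 := by
      simp only [ContinuousLinearMap.comp_apply, _root_.add_apply,
        ContinuousLinearMap.smulRight_apply, ContinuousLinearMap.coe_fst',
        ContinuousLinearMap.coe_snd', map_add, map_smul, lin_single, smul_eq_mul, mul_one]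
      ring
    rw [ev, y2, y3, y4, y5]
    simp only [_root_.add_apply, _root_.smul_apply,
        ContinuousLinearMap.coe_fst', ContinuousLinearMap.coe_snd', smul_eq_mul]
    ring
  exact mix _ _ _ _ _ _ _ key

/-- the set of positive vectors is open -/
lemma pos_eventually (h₀ : ι → ℝ) (hp : Pos h₀) : ∀ᶠ h in 𝓝 h₀, Pos h := by
  have : ∀ᶠ h : ι → ℝ in 𝓝 h₀, ∀ i, 0 < h i := by
    rw [eventually_all]
    intro i
    exact (continuous_apply i).continuousAt.eventually (lt_mem_nhds (hp i))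
  exact this

end Pool.T3.KN2_

namespace Pool.T3

open KN2_ in
theorem stmt_KN2 (hKN1 : Stmt_KN1) (hHF : Stmt_HF) (hDVS : Stmt_DVS) : Stmt_KN2 := by
  intro ι _ _ u hu h₀ c hp hone
  have hpe := pos_eventually h₀ hp
  refine ⟨?_, ?_⟩
  · -- existence
    have key : ∀ i j : ι, ∃ x : ℝ, i ≠ j → ∃ a : ι → ℝ, ∀ᶠ h in 𝓝 h₀,
        H u h i j = H u h₀ i j + lin a (h - h₀) + x * |lin c h| := by
      intro i j
      by_cases hij : i = j
      · exact ⟨0, fun h => absurd hij h⟩
      · obtain ⟨a1, n1, e1, -, -⟩ := hKN1 ι u hu h₀ c hp hone i j hij 1 (Or.inl rfl)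
        obtain ⟨a2, n2, e2, -, -⟩ := hKN1 ι u hu h₀ c hp hone i j hij (-1) (Or.inr rfl)
        refine ⟨2 * (n1 + n2), fun _ => ⟨(2 : ℝ) • (a1 + a2), ?_⟩⟩
        filter_upwards [e1, e2, hpe] with h k1 k2 k3
        rw [(hHF ι u hu i j hij h k3).2, (hHF ι u hu i j hij h₀ hp).2, lin_smul_left, lin_add_left]
        rw [one_mul, one_mul] at k1
        rw [neg_one_mul, neg_one_mul] at k2
        rw [k1, k2]
        ring
    choose n hn using key
    exact ⟨n, fun i j hij => hn i j hij⟩
  · intro n hn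
    refine ⟨?_, ?_⟩
    · intro i j k hij hik hjk
      by_cases hc : c = 0
      · subst hc
        simp
      · obtain ⟨a, ha⟩ := hn i j hij
        obtain ⟨b, hb⟩ := hn k j (Ne.symm hjk)
        obtain ⟨g, hg⟩ := exists_dir c hc
        -- on each side
        have side : ∀ σ : ℝ, (σ = 1 ∨ σ = -1) →
            (a + (σ * n i j) • c) k = (b + (σ * n k j) • c) i := by
          intro σ hσ
          have hσ2 : σ * σ = 1 := by
            rcases hσ with rfl | rfl <;> norm_num
          have ht : Tendsto (fun t : ℝ => h₀ + (σ * t) • g) (𝓝[>] 0) (𝓝 h₀) := by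
            have : Continuous (fun t : ℝ => h₀ + (σ * t) • g) := by fun_prop
            have h2 := this.tendsto 0
            simp only [mul_zero, zero_smul, add_zero] at h2
            exact h2.mono_left nhdsWithin_le_nhds
          have h3 : ∀ᶠ t : ℝ in 𝓝[>] 0, 0 < t := self_mem_nhdsWithin
          have h4 := (ht.eventually (ha.and (hb.and hpe)).eventually_nhds).and h3
          obtain ⟨t, hev, ht0⟩ := h4.exists
          set h₁ : ι → ℝ := h₀ + (σ * t) • g with hh₁
          have hl1 : lin c h₁ = σ * t := by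
            rw [hh₁, map_add, map_smul, hone.zero, hg]
            simp
          have hsg : ∀ᶠ h in 𝓝 h₁, |lin c h| = σ * lin c h := by
            have hcont : ContinuousAt (fun h => σ * lin c h) h₁ := by
              have : Continuous (fun h => σ * lin c h) := by fun_prop
              exact this.continuousAt
            have hpos : 0 < σ * lin c h₁ := by
              rw [hl1, ← mul_assoc, hσ2, one_mul]
              exact ht0
            filter_upwards [hcont.eventually (lt_mem_nhds hpos)] with h hh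
            rcases hσ with rfl | rfl
            · rw [one_mul] at hh ⊢
              exact abs_of_pos hh
            · rw [neg_one_mul] at hh ⊢
              exact abs_of_neg (by linarith)
          refine third u h₁ i j k (a + (σ * n i j) • c) (b + (σ * n k j) • c)
            (H u h₀ i j + lin a (h₁ - h₀) + n i j * (σ * lin c h₁))
            (H u h₀ k j + lin b (h₁ - h₀) + n k j * (σ * lin c h₁)) ?_ ?_ ?_ ?_
          · filter_upwards [hev] with h hh
            exact (hDVS ι u hu).2.1 h hh.2.2 j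
          · filter_upwards [hev] with h hh
            exact ⟨(hDVS ι u hu).2.2.2.1 h hh.2.2 j i, (hDVS ι u hu).2.2.2.1 h hh.2.2 j k⟩
          · filter_upwards [hev, hsg] with h hh hh2
            rw [hh.1, hh2, lin_add_left, lin_smul_left, map_sub, map_sub, map_sub, map_sub]
            ring
          · filter_upwards [hev, hsg] with h hh hh2
            rw [hh.2.1, hh2, lin_add_left, lin_smul_left, map_sub, map_sub, map_sub, map_sub]
            ring
        have s1 := side 1 (Or.inl rfl)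
        have s2 := side (-1) (Or.inr rfl)
        simp only [Pi.add_apply, Pi.smul_apply, smul_eq_mul] at s1 s2
        linarith
    · intro hc i j hij
      obtain ⟨a, ha⟩ := hn i j hij
      obtain ⟨b, hb⟩ := hn j i (Ne.symm hij)
      refine kink_unique h₀ c a b _ _ hc hone.zero ?_
      filter_upwards [ha, hb, hpe] with h k1 k2 k3
      have e1 := (hDVS ι u hu).2.2.2.1 h k3 i j
      have e2 := (hDVS ι u hu).2.2.2.1 h₀ hp i j
      linarith

end Pool.T3
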