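import Pool.Agent.Work.MP_b5407d_t3.Interface

/-!
# Block `KN3` (helper3): the kink coefficients have rank one and the right sign
-/

set_option autoImplicit false

open MeasureTheory Set Filter Topology

namespace Pool.T3.KN3_

open Pool.T3

variable {ι : Type} [Fintype ι]

lemma lin_apply (a v : ι → ℝ) : lin a v = ∑ i, a i * v i := by
  simp [lin]

lemma lin_add_left (a b v : ι → ℝ) : lin (a + b) v = lin a v + lin b v := by
  simp [lin_apply, add_mul, Finset.sum_add_distrib]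

lemma lin_smul_left (r : ℝ) (b v : ι → ℝ) : lin (r • b) v = r * lin b v := by
  simp [lin_apply, mul_assoc, Finset.mul_sum]

lemma lin_self_pos (c : ι → ℝ) (hc : c ≠ 0) : 0 < lin c c := by
  rw [lin_apply]
  obtain ⟨i, hi⟩ := Function.ne_iff.mp hc
  refine Finset.sum_pos' (fun j _ => mul_self_nonneg (c j)) ⟨i, Finset.mem_univ i, ?_⟩
  have : c i ≠ 0 := hi
  exact mul_self_pos.mpr this

/-- a direction with value one -/
lemma exists_dir (c : ι → ℝ) (hc : c ≠ 0) : ∃ g : ι → ℝ, lin c g = 1 := by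
  refine ⟨(1 / lin c c) • c, ?_⟩
  have h := lin_self_pos c hc
  rw [map_smul]
  simp [h.ne']

/-- the kink coefficient is unique -/
lemma kink_unique (h₀ c a b : ι → ℝ) (x y : ℝ) (hc : c ≠ 0) (h0 : lin c h₀ = 0)
    (he : ∀ᶠ h in 𝓝 h₀, lin a (h - h₀) + x * |lin c h| = lin b (h - h₀) + y * |lin c h|) :
    x = y := by
  obtain ⟨g, hg⟩ := exists_dir c hc
  have ht : Tendsto (fun t : ℝ => h₀ + t • g) (𝓝 0) (𝓝 h₀) := by
    have : Continuous (fun t : ℝ => h₀ + t • g) := by fun_prop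
    have h2 := this.tendsto 0
    simpa using h2
  have h1 := ht.eventually he
  have hneg : Tendsto (fun t : ℝ => -t) (𝓝 0) (𝓝 0) := by
    have : Continuous (fun t : ℝ => -t) := by fun_prop
    have h2 := this.tendsto 0
    simpa using h2
  have h2 := hneg.eventually h1
  have h3 : ∀ᶠ t : ℝ in 𝓝[>] 0, 0 < t := self_mem_nhdsWithin
  have h4 := (h1.filter_mono nhdsWithin_le_nhds).and
    ((h2.filter_mono nhdsWithin_le_nhds).and h3)
  obtain ⟨t, e1, e2, e3⟩ := h4.exists
  have l1 : ∀ s : ℝ, lin c (h₀ + s • g) = s := by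
    intro s
    rw [map_add, map_smul, h0, hg]
    simp
  simp only [add_sub_cancel_left, l1, map_smul, abs_neg, smul_eq_mul] at e1 e2
  rw [abs_of_pos e3] at e1 e2
  have : t * x = t * y := by linarith
  exact mul_left_cancel₀ e3.ne' this

/-- the set of positive vectors is open -/
lemma pos_eventually (h₀ : ι → ℝ) (hp : Pos h₀) : ∀ᶠ h in 𝓝 h₀, Pos h := by
  have : ∀ᶠ h : ι → ℝ in 𝓝 h₀, ∀ i, 0 < h i := by
    rw [eventually_all]
    intro i
    exact (continuous_apply i).continuousAt.eventually (lt_mem_nhds (hp i))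
  exact this

/-- rank one from the exchange relation -/
lemma rank_one {κ : Type} (c : κ → ℝ) (n : κ → κ → ℝ) (i j k m : κ)
    (hij : i ≠ j) (hik : i ≠ k) (him : i ≠ m) (hjk : j ≠ k) (hjm : j ≠ m) (hkm : k ≠ m)
    (hsup : ∀ a, c a ≠ 0 ↔ (a = i ∨ a = j ∨ a = k ∨ a = m))
    (htr : ∀ a b d, a ≠ b → a ≠ d → b ≠ d → n a b * c d = n d b * c a)
    (hsym : ∀ a b, a ≠ b → n a b = n b a) :
    ∀ a b, a ≠ b → n a b = n i j / (c i * c j) * c a * c b := by
  have ci : c i ≠ 0 := (hsup i).mpr (Or.inl rfl)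
  have cj : c j ≠ 0 := (hsup j).mpr (Or.inr (Or.inl rfl))
  have ck : c k ≠ 0 := (hsup k).mpr (Or.inr (Or.inr (Or.inl rfl)))
  have cm : c m ≠ 0 := (hsup m).mpr (Or.inr (Or.inr (Or.inr rfl)))
  -- zero if the first is outside the support
  have z1 : ∀ a b, a ≠ b → c a = 0 → n a b = 0 := by
    intro a b hab ha
    obtain ⟨d, hd, hdb⟩ : ∃ d, c d ≠ 0 ∧ b ≠ d := by
      by_cases hbi : b = i
      · exact ⟨j, cj, by rw [hbi]; exact hij⟩
      · exact ⟨i, ci, hbi⟩
    have had : a ≠ d := by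
      rintro rfl
      exact hd ha
    have := htr a b d hab had hdb
    rw [ha, mul_zero] at this
    rcases mul_eq_zero.mp this with h | h
    · exact h
    · exact absurd h hd
  -- quotient function
  have q1 : ∀ a b d, c a ≠ 0 → c b ≠ 0 → c d ≠ 0 → a ≠ b → d ≠ b →
      n a b / (c a * c b) = n d b / (c d * c b) := by
    intro a b d ha hb hd hab hdb
    by_cases had : a = d
    · rw [had]
    · have := htr a b d hab had (Ne.symm hdb)
      rw [div_eq_div_iff (mul_ne_zero ha hb) (mul_ne_zero hd hb)]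
      linear_combination (c b) * this
  have q2 : ∀ a b, c a ≠ 0 → c b ≠ 0 → a ≠ b → n a b / (c a * c b) = n b a / (c b * c a) := by
    intro a b ha hb hab
    rw [hsym a b hab, mul_comm (c a)]
  have q3 : ∀ a b, c a ≠ 0 → c b ≠ 0 → a ≠ b → n a b / (c a * c b) = n i j / (c i * c j) := by
    intro a b ha hb hab
    by_cases hib : b = i
    · -- b = i : n a i ~ n j i ~ n i j
      subst hib
      rw [q1 a b j ha hb cj hab (Ne.symm hij), q2 j b cj hb (Ne.symm hij)]
    · -- n a b ~ n i b ~ n b i ~ n j i ~ n i j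
      rw [q1 a b i ha hb ci hab (Ne.symm hib), q2 i b ci hb (Ne.symm hib),
        q1 b i j hb ci cj hib (Ne.symm hij), q2 j i cj ci (Ne.symm hij)]
  intro a b hab
  by_cases ha : c a = 0
  · rw [z1 a b hab ha, ha]
    ring
  · by_cases hb : c b = 0
    · rw [hsym a b hab, z1 b a (Ne.symm hab) hb, hb]
      ring
    · rw [← q3 a b ha hb hab]
      field_simp

/-- two of three nonzero numbers have the same sign -/
lemma same_sign {κ : Type} (c : κ → ℝ) (i j k : κ) (hij : i ≠ j) (hik : i ≠ k) (hjk : j ≠ k)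
    (ci : c i ≠ 0) (cj : c j ≠ 0) (ck : c k ≠ 0) :
    ∃ a b, a ≠ b ∧ 0 < c a * c b := by
  rcases lt_or_gt_of_ne ci with h1 | h1 <;> rcases lt_or_gt_of_ne cj with h2 | h2 <;>
    rcases lt_or_gt_of_ne ck with h3 | h3
  · exact ⟨i, j, hij, mul_pos_of_neg_of_neg h1 h2⟩
  · exact ⟨i, j, hij, mul_pos_of_neg_of_neg h1 h2⟩
  · exact ⟨i, k, hik, mul_pos_of_neg_of_neg h1 h3⟩
  · exact ⟨j, k, hjk, mul_pos h2 h3⟩
  · exact ⟨j, k, hjk, mul_pos_of_neg_of_neg h2 h3⟩
  · exact ⟨i, k, hik, mul_pos h1 h3⟩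
  · exact ⟨i, j, hij, mul_pos h1 h2⟩
  · exact ⟨i, j, hij, mul_pos h1 h2⟩

end Pool.T3.KN3_

namespace Pool.T3

open KN3_ in
theorem stmt_KN3 (hKNC : Stmt_KNC) (hKN0 : Stmt_KN0) (hKN1 : Stmt_KN1) (hKNG : Stmt_KNG)
    (hKN2 : Stmt_KN2) (hHF : Stmt_HF) : Stmt_KN3 := by
  intro ι _ _ u hu h₀ c hp hcF hone hS n hn
  obtain ⟨i0, j0, k0, m0, hij, hik, him, hjk, hjm, hkm, hsup⟩ := (hKNC ι u hu).1 c hcF
  have ci : c i0 ≠ 0 := (hsup i0).mpr (Or.inl rfl)
  have cj : c j0 ≠ 0 := (hsup j0).mpr (Or.inr (Or.inl rfl))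
  have ck : c k0 ≠ 0 := (hsup k0).mpr (Or.inr (Or.inr (Or.inl rfl)))
  have hc : c ≠ 0 := by
    intro h
    apply ci
    rw [h]
    rfl
  obtain ⟨-, hK2⟩ := hKN2 ι u hu h₀ c hp hone
  obtain ⟨htr, hsym⟩ := hK2 n hn
  have hsym := hsym hc
  have hrank := rank_one c n i0 j0 k0 m0 hij hik him hjk hjm hkm hsup htr hsym
  refine ⟨n i0 j0 / (c i0 * c j0), ?_, hrank⟩
  obtain ⟨i, j, hne, hpos⟩ := same_sign c i0 j0 k0 hij hik hjk ci cj ck
  have cia : c i ≠ 0 := by
    intro h
    rw [h, zero_mul] at hpos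
    exact lt_irrefl _ hpos
  have cja : c j ≠ 0 := by
    intro h
    rw [h, mul_zero] at hpos
    exact lt_irrefl _ hpos
  -- it is enough that `n i j` is nonnegative
  suffices hnn : 0 ≤ n i j by
    have h1 := hrank i j hne
    by_contra hneg
    push Not at hneg
    have : n i0 j0 / (c i0 * c j0) * (c i * c j) < 0 := mul_neg_of_neg_of_pos hneg hpos
    rw [mul_assoc] at h1
    linarith
  -- the common point
  obtain ⟨v1, hv1⟩ := (hKNC ι u hu).2.1 h₀ hp c hcF hone.zero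
  obtain ⟨v0, hv0, hv0i⟩ : ∃ v0, Conc u h₀ c v0 ∧ dt (u i) v0 = h₀ i := by
    have habs := hv1.tight i cia
    rcases abs_choice (dt (u i) v1) with h | h
    · exact ⟨v1, hv1, by rw [← h]; exact habs⟩
    · refine ⟨-v1, (hKNC ι u hu).2.2.1 h₀ hp c v1 hv1, ?_⟩
      have : dt (u i) (-v1) = -dt (u i) v1 := by
        simp only [dt, Pi.neg_apply]
        ring
      rw [this, ← h]
      exact habs
  obtain ⟨k1, k2⟩ := hKN0 ι u hu h₀ c v0 hp hone hv0 i j hne cia cja hv0i
  have hjp : 0 < h₀ j := hp j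
  have hje := hv0.tight j cja
  set e : ℝ := dt (u j) v0 / h₀ j with he
  have hes : e = 1 ∨ e = -1 := by
    rcases abs_choice (dt (u j) v0) with h | h
    · left
      rw [he, ← h, hje]
      exact div_self hjp.ne'
    · right
      have : dt (u j) v0 = -h₀ j := by linarith
      rw [he, this]
      field_simp
  have hpe := pos_eventually h₀ hp
  -- the sum of both chords in terms of `e`
  have hsum : ∀ h : ι → ℝ, Lam u i j (h i) (h j) h + Lam u i j (h i) (-h j) h =
      Lam u i j (h i) (-e * h j) h + Lam u i j (h i) (e * h j) h := by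
    intro h
    rcases hes with h1 | h1
    · rw [h1, neg_one_mul, one_mul, add_comm]
    · rw [h1, neg_neg, neg_one_mul, one_mul]
  obtain ⟨a, ha⟩ := hn i j hne
  obtain ⟨a1, ha1⟩ := k1
  by_cases hvK : v0 ∈ K u h₀
  · have hz := hKNG ι u hu h₀ c v0 hp hS hv0 hvK i j hne hpos hv0i
    obtain ⟨a2, n2, ha2, hn2, -⟩ := hKN1 ι u hu h₀ c hp hone i j hne e hes
    have hej : e * h₀ j = dt (u j) v0 := by
      rw [he]
      exact div_mul_cancel₀ _ hjp.ne'
    have hn2' : 0 ≤ n2 := hn2 (by rw [hej]; exact hz) hc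
    have : n i j = 2 * n2 := by
      refine kink_unique h₀ c a ((2 : ℝ) • (a1 + a2)) _ _ hc hone.zero ?_
      filter_upwards [ha, ha1, ha2, hpe] with h e1 e2 e3 e4
      have f1 := (hHF ι u hu i j hne h e4).2
      have f2 := (hHF ι u hu i j hne h₀ hp).2
      rw [hsum] at f1 f2
      rw [lin_smul_left, lin_add_left]
      rw [f1, f2, e2, e3] at e1
      linarith
    rw [this]
    linarith
  · obtain ⟨a2, ha2⟩ := k2 hvK
    have : n i j = 0 := by
      refine kink_unique h₀ c a ((2 : ℝ) • (a1 + a2)) _ _ hc hone.zero ?_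
      filter_upwards [ha, ha1, ha2, hpe] with h e1 e2 e3 e4
      have f1 := (hHF ι u hu i j hne h e4).2
      have f2 := (hHF ι u hu i j hne h₀ hp).2
      rw [hsum] at f1 f2
      rw [lin_smul_left, lin_add_left]
      rw [f1, f2, e2, e3] at e1
      linarith
    rw [this]

end Pool.T3
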