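import Pool.Agent.Work.MP_b5407d_t3.Interface

/-!
# MP_b5407d, block KN4: support line of the second derivative at a point with one coincidence
-/

set_option autoImplicit false

open MeasureTheory Set Filter Topology

namespace Pool.T3

namespace KN4_

variable {ι : Type} [Fintype ι]

theorem lin_apply (a f : ι → ℝ) : lin a f = ∑ i, a i * f i := by
  unfold lin
  simp [ContinuousLinearMap.sum_apply]

theorem tend (h f : ι → ℝ) : Tendsto (fun t : ℝ => h + t • f) (𝓝 0) (𝓝 h) := by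
  have hc : Continuous (fun t : ℝ => h + t • f) := by fun_prop
  exact hc.tendsto' 0 h (by simp)

theorem pos_near {h : ι → ℝ} (hp : Pos h) (f : ι → ℝ) : ∀ᶠ t : ℝ in 𝓝 0, Pos (h + t • f) := by
  have h1 : ∀ i, ∀ᶠ t : ℝ in 𝓝 0, 0 < (h + t • f) i := by
    intro i
    have hc : Continuous (fun t : ℝ => (h + t • f) i) := by
      simp only [Pi.add_apply, Pi.smul_apply, smul_eq_mul]
      fun_prop
    exact hc.tendsto' 0 (h i) (by simp) |>.eventually_const_lt (hp i)
  exact eventually_all.2 h1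

/-- algebraic identity for the quadratic form -/
theorem quad (Hm : ι → ι → ℝ) (Sv h f : ι → ℝ) (hp : Pos h) (hs : ∀ i j, Hm i j = Hm j i)
    (he : ∀ i, ∑ j, Hm i j * h j = 2 * Sv i) :
    ∑ i, ∑ j, Hm i j * f i * f j = 2 * ∑ i, Sv i * f i ^ 2 / h i
      - 1 / 2 * ∑ i, ∑ j, Hm i j * (f i * h j - f j * h i) ^ 2 / (h i * h j) := by
  have h1 : ∀ i j, Hm i j * (f i * h j - f j * h i) ^ 2 / (h i * h j)
      = (f i ^ 2 / h i) * (Hm i j * h j) + (f j ^ 2 / h j) * (Hm i j * h i)
        - 2 * (Hm i j * f i * f j) := by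
    intro i j
    have hi := (hp i).ne'
    have hj := (hp j).ne'
    field_simp
    ring
  have h2 : ∑ i, ∑ j, Hm i j * (f i * h j - f j * h i) ^ 2 / (h i * h j)
      = (∑ i, ∑ j, (f i ^ 2 / h i) * (Hm i j * h j))
        + (∑ i, ∑ j, (f j ^ 2 / h j) * (Hm i j * h i))
        - 2 * ∑ i, ∑ j, Hm i j * f i * f j := by
    rw [Finset.mul_sum, ← Finset.sum_add_distrib, ← Finset.sum_sub_distrib]
    refine Finset.sum_congr rfl fun i _ => ?_
    rw [Finset.mul_sum, ← Finset.sum_add_distrib, ← Finset.sum_sub_distrib]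
    exact Finset.sum_congr rfl fun j _ => h1 i j
  have h3 : ∑ i, ∑ j, (f i ^ 2 / h i) * (Hm i j * h j) = 2 * ∑ i, Sv i * f i ^ 2 / h i := by
    rw [Finset.mul_sum]
    refine Finset.sum_congr rfl fun i _ => ?_
    rw [← Finset.mul_sum, he i]
    ring
  have h4 : ∑ i, ∑ j, (f j ^ 2 / h j) * (Hm i j * h i) = 2 * ∑ i, Sv i * f i ^ 2 / h i := by
    rw [Finset.sum_comm, ← h3]
    refine Finset.sum_congr rfl fun i _ => Finset.sum_congr rfl fun j _ => ?_
    rw [hs j i]
  rw [h2, h3, h4]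
  ring

/-- the rank one kink -/
theorem rankone (c h f : ι → ℝ) (hp : Pos h) (h0 : lin c h = 0) :
    ∑ i, ∑ j, (c i * c j) * (f i * h j - f j * h i) ^ 2 / (h i * h j) = -2 * (lin c f) ^ 2 := by
  rw [lin_apply] at h0 ⊢
  have h1 : ∀ i j, (c i * c j) * (f i * h j - f j * h i) ^ 2 / (h i * h j)
      = (c i * f i ^ 2 / h i) * (c j * h j) + (c i * h i) * (c j * f j ^ 2 / h j)
        - 2 * ((c i * f i) * (c j * f j)) := by
    intro i j
    have hi := (hp i).ne'
    have hj := (hp j).ne'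
    field_simp
    ring
  have h2 : ∑ i, ∑ j, (c i * c j) * (f i * h j - f j * h i) ^ 2 / (h i * h j)
      = (∑ i, c i * f i ^ 2 / h i) * (∑ j, c j * h j) + (∑ i, c i * h i) * (∑ j, c j * f j ^ 2 / h j)
        - 2 * ((∑ i, c i * f i) * (∑ j, c j * f j)) := by
    rw [Finset.sum_mul_sum, Finset.sum_mul_sum, Finset.sum_mul_sum, Finset.mul_sum,
      ← Finset.sum_add_distrib, ← Finset.sum_sub_distrib]
    refine Finset.sum_congr rfl fun i _ => ?_
    rw [Finset.mul_sum, ← Finset.sum_add_distrib, ← Finset.sum_sub_distrib]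
    exact Finset.sum_congr rfl fun j _ => h1 i j
  rw [h2, h0]
  ring

end KN4_

open KN4_ in
theorem stmt_KN4 (hKN2 : Stmt_KN2) (hKN3 : Stmt_KN3) (hCU1 : Stmt_CU1) (hDVS : Stmt_DVS) :
    Stmt_KN4 := by
  intro ι _ _ u hu h₀ c hpos hone hS f
  obtain ⟨⟨n, hn⟩, -⟩ := hKN2 ι u hu h₀ c hpos hone
  obtain ⟨dV, dS, cH, Hsym, e3, e2⟩ := hDVS ι u hu
  have hpn := pos_near hpos f
  have hten := tend h₀ f
  -- the slopes of the mixed derivatives
  have hex : ∀ i j, ∃ α : ℝ, i ≠ j → ∀ᶠ t : ℝ in 𝓝 0,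
      H u (h₀ + t • f) i j = H u h₀ i j + t * α + n i j * (|t| * |lin c f|) := by
    intro i j
    by_cases hij : i = j
    · exact ⟨0, fun h => absurd hij h⟩
    · obtain ⟨a, ha⟩ := hn i j hij
      refine ⟨lin a f, fun _ => ?_⟩
      filter_upwards [hten.eventually ha] with t ht
      rw [ht]
      have e1 : h₀ + t • f - h₀ = t • f := by abel
      have e2 : lin c (h₀ + t • f) = t * lin c f := by
        rw [map_add, hone.zero, map_smul, zero_add, smul_eq_mul]
      rw [e1, e2, map_smul, smul_eq_mul, abs_mul]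
  choose α hα using hex
  set q : ι → ι → ℝ := fun i j => f i * h₀ j - f j * h₀ i with hq
  set Φ : ℝ → ℝ := fun t => ∑ i, ∑ j, H u (h₀ + t • f) i j * f i * f j with hΦ
  set L := |lin c f| with hL
  -- the smooth part
  set A : ℝ → ℝ := fun t => 2 * (∑ i, S u (h₀ + t • f) i * f i ^ 2 / (h₀ i + t * f i))
    - 1 / 2 * ∑ i, ∑ j, (H u h₀ i j + t * α i j) * q i j ^ 2 /
      ((h₀ i + t * f i) * (h₀ j + t * f j)) with hA
  set B : ℝ → ℝ := fun t => 1 / 2 * ∑ i, ∑ j, (n i j * L) * q i j ^ 2 /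
      ((h₀ i + t * f i) * (h₀ j + t * f j)) with hB
  have hAB : ∀ᶠ t : ℝ in 𝓝 0, Φ t = A t - |t| * B t := by
    have hall : ∀ᶠ t : ℝ in 𝓝 0, ∀ i j, i ≠ j →
        H u (h₀ + t • f) i j = H u h₀ i j + t * α i j + n i j * (|t| * L) := by
      rw [eventually_all]
      intro i
      rw [eventually_all]
      intro j
      by_cases hij : i = j
      · exact Eventually.of_forall fun t h => absurd hij h
      · filter_upwards [hα i j hij] with t ht _
        exact ht
    filter_upwards [hpn, hall] with t hp ht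
    have h1 := quad (H u (h₀ + t • f)) (S u (h₀ + t • f)) (h₀ + t • f) f hp (Hsym _ hp) (e2 _ hp)
    have e0 : ∀ i, (h₀ + t • f) i = h₀ i + t * f i := fun i => rfl
    simp only [e0] at h1
    have h2 : ∑ i, ∑ j, H u (h₀ + t • f) i j *
          (f i * (h₀ j + t * f j) - f j * (h₀ i + t * f i)) ^ 2 /
            ((h₀ i + t * f i) * (h₀ j + t * f j))
        = (∑ i, ∑ j, (H u h₀ i j + t * α i j) * q i j ^ 2 /
            ((h₀ i + t * f i) * (h₀ j + t * f j)))
          + |t| * ∑ i, ∑ j, (n i j * L) * q i j ^ 2 /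
            ((h₀ i + t * f i) * (h₀ j + t * f j)) := by
      rw [Finset.mul_sum, ← Finset.sum_add_distrib]
      refine Finset.sum_congr rfl fun i _ => ?_
      rw [Finset.mul_sum, ← Finset.sum_add_distrib]
      refine Finset.sum_congr rfl fun j _ => ?_
      have e1 : f i * (h₀ j + t * f j) - f j * (h₀ i + t * f i) = q i j := by
        simp only [hq]
        ring
      rw [e1]
      by_cases hij : i = j
      · have hz : q i j = 0 := by
          simp only [hq, hij]
          ring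
        rw [hz]
        simp
      · rw [ht i j hij]
        ring
    simp only [hΦ, hA, hB]
    rw [h1, h2]
    ring
  -- `A` is differentiable at zero
  have hdS : ∀ i, DifferentiableAt ℝ (fun t : ℝ => S u (h₀ + t • f) i) 0 := by
    intro i
    have h1 : HasFDerivAt (fun h => S u h i) (lin (H u h₀ i)) (h₀ + (0 : ℝ) • f) := by
      rw [zero_smul, add_zero]
      exact dS h₀ hpos i
    have h2 : DifferentiableAt ℝ (fun t : ℝ => h₀ + t • f) 0 := by fun_prop
    exact h1.differentiableAt.comp (0 : ℝ) h2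
  have hne : ∀ i, h₀ i + 0 * f i ≠ 0 := by
    intro i
    rw [zero_mul, add_zero]
    exact (hpos i).ne'
  have hdA : DifferentiableAt ℝ A 0 := by
    refine DifferentiableAt.sub ?_ ?_
    · refine DifferentiableAt.const_mul ?_ _
      refine DifferentiableAt.fun_sum fun i _ => ?_
      refine DifferentiableAt.div ((hdS i).mul_const _) (by fun_prop) (hne i)
    · refine DifferentiableAt.const_mul ?_ _
      refine DifferentiableAt.fun_sum fun i _ => DifferentiableAt.fun_sum fun j _ => ?_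
      refine DifferentiableAt.div (by fun_prop) (by fun_prop) (mul_ne_zero (hne i) (hne j))
  have hcB : ContinuousAt B 0 := by
    refine ContinuousAt.mul continuousAt_const ?_
    refine tendsto_finsetSum _ fun i _ => tendsto_finsetSum _ fun j _ => ?_
    refine ContinuousAt.div (by fun_prop) (by fun_prop) (mul_ne_zero (hne i) (hne j))
  have hB0 : B 0 ≤ 0 := by
    have hB1 : B 0 = 1 / 2 * ∑ i, ∑ j, (n i j * L) * q i j ^ 2 / (h₀ i * h₀ j) := by
      simp only [hB, zero_mul, add_zero]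
    rcases hone.form with h0 | h0
    · have hL0 : L = 0 := by
        rw [hL, lin_apply, h0]
        simp
      rw [hB1, hL0]
      simp
    · obtain ⟨ν, hν, hnn⟩ := hKN3 ι u hu h₀ c hpos h0 hone hS n hn
      have h1 : ∑ i, ∑ j, (n i j * L) * q i j ^ 2 / (h₀ i * h₀ j)
          = ν * L * ∑ i, ∑ j, (c i * c j) * (f i * h₀ j - f j * h₀ i) ^ 2 / (h₀ i * h₀ j) := by
        rw [Finset.mul_sum]
        refine Finset.sum_congr rfl fun i _ => ?_
        rw [Finset.mul_sum]
        refine Finset.sum_congr rfl fun j _ => ?_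
        by_cases hij : i = j
        · have hz : q i j = 0 := by
            simp only [hq, hij]
            ring
          have hz2 : f i * h₀ j - f j * h₀ i = 0 := hz
          rw [hz, hz2]
          simp
        · rw [hnn i j hij]
          simp only [hq]
          ring
      rw [hB1, h1, rankone c h₀ f hpos hone.zero]
      have hL0 : 0 ≤ L := abs_nonneg _
      have h2 : 0 ≤ ν * L * (lin c f) ^ 2 := by positivity
      nlinarith
  -- one-sided formulas
  have hv1 : ∀ᶠ t : ℝ in 𝓝 0, HasDerivAt (fun t : ℝ => V u (h₀ + t • f))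
      (∑ i, S u (h₀ + t • f) i * f i) t := by
    filter_upwards [hpn] with t hp
    have h1 := dV _ hp
    have h2 : HasDerivAt (fun t : ℝ => h₀ + t • f) f t := by
      have h3 : HasDerivAt (fun t : ℝ => t • f) ((1 : ℝ) • f) t := (hasDerivAt_id t).smul_const f
      rw [one_smul] at h3
      exact h3.const_add h₀
    have h4 := h1.comp_hasDerivAt t h2
    rw [lin_apply] at h4
    exact h4
  have hv2 : ∀ᶠ t : ℝ in 𝓝 0, HasDerivAt (fun t : ℝ => ∑ i, S u (h₀ + t • f) i * f i)
      (Φ t) t := by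
    filter_upwards [hpn] with t hp
    have h2 : HasDerivAt (fun t : ℝ => h₀ + t • f) f t := by
      have h3 : HasDerivAt (fun t : ℝ => t • f) ((1 : ℝ) • f) t := (hasDerivAt_id t).smul_const f
      rw [one_smul] at h3
      exact h3.const_add h₀
    have h4 : ∀ i ∈ (Finset.univ : Finset ι),
        HasDerivAt (fun t : ℝ => S u (h₀ + t • f) i * f i)
          ((∑ j, H u (h₀ + t • f) i j * f j) * f i) t := by
      intro i _
      have h5 := (dS _ hp i).comp_hasDerivAt t h2
      rw [lin_apply] at h5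
      exact h5.mul_const (f i)
    have h6 := HasDerivAt.fun_sum h4
    refine h6.congr_deriv ?_
    simp only [hΦ]
    refine Finset.sum_congr rfl fun i _ => ?_
    rw [Finset.sum_mul]
    exact Finset.sum_congr rfl fun j _ => by ring
  have hΦ0 : Φ 0 = ∑ i, ∑ j, H u h₀ i j * f i * f j := by
    simp only [hΦ, zero_smul, add_zero]
  -- from a one-sided cubic formula to the second derivative
  have hcub : ∀ (s : Set ℝ), IsOpen s → ∀ (v0 v1 v2 v3 : ℝ), (∀ t ∈ s,
      HasDerivAt (fun t : ℝ => V u (h₀ + t • f)) (∑ i, S u (h₀ + t • f) i * f i) t ∧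
      HasDerivAt (fun t : ℝ => ∑ i, S u (h₀ + t • f) i * f i) (Φ t) t ∧
      V u (h₀ + t • f) = v0 + t * v1 + t ^ 2 / 2 * v2 + v3 * t ^ 3) →
      ∀ t ∈ s, Φ t = v2 + 6 * v3 * t := by
    intro s hs v0 v1 v2 v3 hall
    have h1 : ∀ t ∈ s, ∑ i, S u (h₀ + t • f) i * f i = v1 + t * v2 + 3 * v3 * t ^ 2 := by
      intro t ht
      have hP : HasDerivAt (fun t : ℝ => v0 + t * v1 + t ^ 2 / 2 * v2 + v3 * t ^ 3)
          (v1 + t * v2 + 3 * v3 * t ^ 2) t := by
        have := ((((hasDerivAt_id t).mul_const v1).const_add v0).add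
          (((hasDerivAt_pow 2 t).div_const 2).mul_const v2)).add
          ((hasDerivAt_pow 3 t).const_mul v3)
        refine this.congr_deriv ?_
        norm_num
        ring
      have hE : (fun t : ℝ => V u (h₀ + t • f)) =ᶠ[𝓝 t]
          (fun t : ℝ => v0 + t * v1 + t ^ 2 / 2 * v2 + v3 * t ^ 3) := by
        filter_upwards [hs.mem_nhds ht] with t' ht'
        exact (hall t' ht').2.2
      exact (hall t ht).1.unique (hP.congr_of_eventuallyEq hE)
    intro t ht
    have hP : HasDerivAt (fun t : ℝ => v1 + t * v2 + 3 * v3 * t ^ 2) (v2 + 6 * v3 * t) t := by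
      have := (((hasDerivAt_id t).mul_const v2).const_add v1).add
        ((hasDerivAt_pow 2 t).const_mul (3 * v3))
      refine this.congr_deriv ?_
      norm_num
      ring
    have hE : (fun t : ℝ => ∑ i, S u (h₀ + t • f) i * f i) =ᶠ[𝓝 t]
        (fun t : ℝ => v1 + t * v2 + 3 * v3 * t ^ 2) := by
      filter_upwards [hs.mem_nhds ht] with t' ht'
      exact h1 t' ht'
    exact (hall t ht).2.1.unique (hP.congr_of_eventuallyEq hE)
  obtain ⟨cp, hcp⟩ := hCU1 ι u hu h₀ hpos f
  obtain ⟨cm, hcm⟩ := hCU1 ι u hu h₀ hpos (-f)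
  have hcm' : ∀ᶠ t : ℝ in 𝓝[≤] 0, V u (h₀ + t • f) = V u h₀ + t * (∑ i, S u h₀ i * f i) +
      t ^ 2 / 2 * (∑ i, ∑ j, H u h₀ i j * f i * f j) + (-cm) * t ^ 3 := by
    have hneg : Tendsto (fun t : ℝ => -t) (𝓝[≤] 0) (𝓝[≥] 0) := by
      have h1 : Tendsto (fun t : ℝ => -t) (𝓝 0) (𝓝 0) := by
        have : Continuous (fun t : ℝ => -t) := continuous_neg
        exact this.tendsto' 0 0 neg_zero
      refine tendsto_nhdsWithin_of_tendsto_nhds_of_eventually_within _
        (h1.mono_left nhdsWithin_le_nhds) ?_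
      filter_upwards [self_mem_nhdsWithin] with t ht
      have : t ≤ 0 := ht
      show (0 : ℝ) ≤ -t
      linarith
    filter_upwards [hneg.eventually hcm] with t ht
    have e1 : h₀ + (-t) • (-f) = h₀ + t • f := by rw [smul_neg, neg_smul, neg_neg]
    rw [e1] at ht
    rw [ht]
    have e2 : ∑ i, S u h₀ i * (-f) i = -∑ i, S u h₀ i * f i := by
      rw [← Finset.sum_neg_distrib]
      refine Finset.sum_congr rfl fun i _ => ?_
      simp
    have e3 : ∑ i, ∑ j, H u h₀ i j * (-f) i * (-f) j = ∑ i, ∑ j, H u h₀ i j * f i * f j := by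
      refine Finset.sum_congr rfl fun i _ => Finset.sum_congr rfl fun j _ => ?_
      simp
    rw [e2, e3]
    ring
  -- the second derivative on both sides
  have hright : ∀ᶠ t : ℝ in 𝓝[>] 0, Φ t = Φ 0 + 6 * cp * t := by
    have h1 : ∀ᶠ t : ℝ in 𝓝 0, (HasDerivAt (fun t : ℝ => V u (h₀ + t • f))
        (∑ i, S u (h₀ + t • f) i * f i) t ∧
        HasDerivAt (fun t : ℝ => ∑ i, S u (h₀ + t • f) i * f i) (Φ t) t) := hv1.and hv2
    have h2 : ∀ᶠ t : ℝ in 𝓝 0, t ∈ Ici (0 : ℝ) → V u (h₀ + t • f) =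
        V u h₀ + t * (∑ i, S u h₀ i * f i) +
          t ^ 2 / 2 * (∑ i, ∑ j, H u h₀ i j * f i * f j) + cp * t ^ 3 :=
      eventually_nhdsWithin_iff.1 hcp
    obtain ⟨r, hr, hr2⟩ := Metric.eventually_nhds_iff.1 (h1.and h2)
    have h3 := hcub (Ioo 0 r) isOpen_Ioo (V u h₀) (∑ i, S u h₀ i * f i)
      (∑ i, ∑ j, H u h₀ i j * f i * f j) cp (by
        intro t ht
        have hd : dist t 0 < r := by
          rw [Real.dist_eq, sub_zero, abs_of_pos ht.1]
          exact ht.2
        have := hr2 hd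
        exact ⟨this.1.1, this.1.2, this.2 ht.1.le⟩)
    filter_upwards [Ioo_mem_nhdsGT hr] with t ht
    rw [h3 t ht, hΦ0]
  have hleft : ∀ᶠ t : ℝ in 𝓝[<] 0, Φ t = Φ 0 + 6 * (-cm) * t := by
    have h1 : ∀ᶠ t : ℝ in 𝓝 0, (HasDerivAt (fun t : ℝ => V u (h₀ + t • f))
        (∑ i, S u (h₀ + t • f) i * f i) t ∧
        HasDerivAt (fun t : ℝ => ∑ i, S u (h₀ + t • f) i * f i) (Φ t) t) := hv1.and hv2
    have h2 : ∀ᶠ t : ℝ in 𝓝 0, t ∈ Iic (0 : ℝ) → V u (h₀ + t • f) =
        V u h₀ + t * (∑ i, S u h₀ i * f i) +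
          t ^ 2 / 2 * (∑ i, ∑ j, H u h₀ i j * f i * f j) + (-cm) * t ^ 3 :=
      eventually_nhdsWithin_iff.1 hcm'
    obtain ⟨r, hr, hr2⟩ := Metric.eventually_nhds_iff.1 (h1.and h2)
    have h3 := hcub (Ioo (-r) 0) isOpen_Ioo (V u h₀) (∑ i, S u h₀ i * f i)
      (∑ i, ∑ j, H u h₀ i j * f i * f j) (-cm) (by
        intro t ht
        have hd : dist t 0 < r := by
          rw [Real.dist_eq, sub_zero, abs_of_neg ht.2]
          linarith [ht.1]
        have := hr2 hd
        exact ⟨this.1.1, this.1.2, this.2 ht.2.le⟩)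
    filter_upwards [Ioo_mem_nhdsLT (neg_lt_zero.2 hr)] with t ht
    rw [h3 t ht, hΦ0]
  -- slopes
  have hA0 : A 0 = Φ 0 := by
    have := hAB.self_of_nhds
    rw [abs_zero, zero_mul, sub_zero] at this
    exact this.symm
  have hslope := hasDerivAt_iff_tendsto_slope.1 hdA.hasDerivAt
  set D := deriv A 0 with hD
  have hsR : Tendsto (slope A 0) (𝓝[>] 0) (𝓝 D) :=
    hslope.mono_left (nhdsWithin_mono _ fun t ht => ne_of_gt ht)
  have hsL : Tendsto (slope A 0) (𝓝[<] 0) (𝓝 D) :=
    hslope.mono_left (nhdsWithin_mono _ fun t ht => ne_of_lt ht)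
  have hR2 : Tendsto (slope A 0) (𝓝[>] 0) (𝓝 (6 * cp + B 0)) := by
    have h1 : Tendsto (fun t => 6 * cp + B t) (𝓝[>] 0) (𝓝 (6 * cp + B 0)) :=
      tendsto_const_nhds.add (hcB.tendsto.mono_left nhdsWithin_le_nhds)
    refine h1.congr' ?_
    filter_upwards [hright, nhdsWithin_le_nhds hAB, self_mem_nhdsWithin] with t h2 h3 h4
    have ht : 0 < t := h4
    have h5 : A t = Φ 0 + 6 * cp * t + t * B t := by
      rw [abs_of_pos ht] at h3
      linarith
    rw [slope_def_field, h5, hA0, sub_zero]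
    field_simp
    ring
  have hL2 : Tendsto (slope A 0) (𝓝[<] 0) (𝓝 (6 * (-cm) - B 0)) := by
    have h1 : Tendsto (fun t => 6 * (-cm) - B t) (𝓝[<] 0) (𝓝 (6 * (-cm) - B 0)) :=
      tendsto_const_nhds.sub (hcB.tendsto.mono_left nhdsWithin_le_nhds)
    refine h1.congr' ?_
    filter_upwards [hleft, nhdsWithin_le_nhds hAB, self_mem_nhdsWithin] with t h2 h3 h4
    have ht : t < 0 := h4
    have h5 : A t = Φ 0 + 6 * (-cm) * t - t * B t := by
      rw [abs_of_neg ht] at h3
      linarith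
    rw [slope_def_field, h5, hA0, sub_zero]
    have ht0 : t ≠ 0 := ht.ne
    field_simp
    ring
  have e1 := tendsto_nhds_unique hsR hR2
  have e2 := tendsto_nhds_unique hsL hL2
  have hcc : -cm ≤ cp := by linarith
  refine ⟨6 * (-cm), ?_⟩
  have hR3 := eventually_nhdsWithin_iff.1 hright
  have hL3 := eventually_nhdsWithin_iff.1 hleft
  filter_upwards [hR3, hL3] with t h1 h2
  rw [← hΦ0]
  show Φ 0 + 6 * -cm * t ≤ Φ t
  rcases lt_trichotomy t 0 with ht | ht | ht
  · rw [h2 ht]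
  · rw [ht]
    simp
  · rw [h1 ht]
    nlinarith

end Pool.T3
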