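import Pool.Agent.Work.MP_b5407d_t3.Interface

open MeasureTheory Set Filter Topology

namespace Pool.T3

namespace KN5_

theorem lin_apply {ι : Type} [Fintype ι] (a x : ι → ℝ) : lin a x = ∑ i, a i * x i := by
  unfold lin
  simp

theorem lin_self {ι : Type} [Fintype ι] (a : ι → ℝ) (h : lin a a = 0) : a = 0 := by
  rw [lin_apply] at h
  have h2 := (Finset.sum_eq_zero_iff_of_nonneg (fun i _ => mul_self_nonneg (a i))).mp h
  funext i
  exact mul_self_eq_zero.mp (h2 i (Finset.mem_univ i))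

theorem lin_sub_smul {ι : Type} [Fintype ι] (a b : ι → ℝ) (x y : ℝ) (v : ι → ℝ) :
    lin (x • a - y • b) v = x * lin a v - y * lin b v := by
  simp only [lin_apply, Pi.sub_apply, Pi.smul_apply, smul_eq_mul, Finset.mul_sum]
  rw [← Finset.sum_sub_distrib]
  refine Finset.sum_congr rfl fun i _ => ?_
  ring

theorem dense_ne {ι : Type} [Fintype ι] (c : ι → ℝ) (hc : c ≠ 0) :
    Dense {g : ι → ℝ | lin c g ≠ 0} := by
  have h1 : {g : ι → ℝ | lin c g ≠ 0} = ((LinearMap.ker (lin c).toLinearMap : Submodule ℝ (ι → ℝ)) :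
      Set (ι → ℝ))ᶜ := by
    ext g
    simp
  rw [h1, ← interior_eq_empty_iff_dense_compl]
  by_contra hne
  have h2 := Submodule.eq_top_of_nonempty_interior' _ (nonempty_iff_ne_empty.mpr hne)
  apply hc
  apply lin_self
  have : c ∈ (LinearMap.ker (lin c).toLinearMap : Submodule ℝ (ι → ℝ)) := by
    rw [h2]; trivial
  simpa using this

theorem open_ne {ι : Type} [Fintype ι] (c : ι → ℝ) : IsOpen {g : ι → ℝ | lin c g ≠ 0} :=
  isOpen_ne_fun (lin c).continuous continuous_const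

theorem frm_finite {ι : Type} [Fintype ι] [DecidableEq ι] (u : ι → R3) : (Frm u).Finite := by
  refine (Set.finite_range (fun p : ι × ι × ι × ι × Bool × Bool × Bool =>
    fv u p.1 p.2.1 p.2.2.1 p.2.2.2.1 (if p.2.2.2.2.1 then 1 else -1)
      (if p.2.2.2.2.2.1 then 1 else -1) (if p.2.2.2.2.2.2 then 1 else -1))).subset ?_
  rintro c ⟨i, j, k, m, e1, e2, e3, -, -, -, -, -, -, h1, h2, h3, rfl⟩
  have key : ∀ e : ℝ, (e = 1 ∨ e = -1) → ∃ b : Bool, (if b then (1 : ℝ) else -1) = e := by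
    rintro e (rfl | rfl)
    · exact ⟨true, by simp⟩
    · exact ⟨false, by simp⟩
  obtain ⟨b1, hb1⟩ := key e1 h1
  obtain ⟨b2, hb2⟩ := key e2 h2
  obtain ⟨b3, hb3⟩ := key e3 h3
  refine ⟨(i, j, k, m, b1, b2, b3), ?_⟩
  simp only
  rw [hb1, hb2, hb3]

theorem frm_ne {ι : Type} [Fintype ι] [DecidableEq ι] (u : ι → R3) (hu : Fam u) (c : ι → ℝ)
    (hc : c ∈ Frm u) : c ≠ 0 := by
  obtain ⟨i, j, k, m, e1, e2, e3, hij, hik, him, hjk, hjm, hkm, h1, h2, h3, rfl⟩ := hc
  intro h0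
  have h4 := congrFun h0 i
  unfold fv at h4
  simp only [Pi.add_apply, Pi.single_eq_same, Pi.single_eq_of_ne hij, Pi.single_eq_of_ne hik,
    Pi.single_eq_of_ne him, add_zero, Pi.zero_apply] at h4
  exact hu.ind j k m hjk hjm hkm h4

end KN5_

open KN5_

theorem stmt_KN5 : Stmt_KN5 := by
  intro ι _ _ u hu h f ε hε
  set T : Set (ι → ℝ) := Frm u ∪ ((fun p : (ι → ℝ) × (ι → ℝ) =>
    (lin p.1 f) • p.2 - (lin p.2 f) • p.1) '' (Frm u ×ˢ Frm u) \ {0}) with hT
  have hTf : T.Finite := by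
    refine (frm_finite u).union ?_
    exact (((frm_finite u).prod (frm_finite u)).image _).subset Set.sdiff_subset
  have hT0 : ∀ c ∈ T, c ≠ 0 := by
    rintro c (hc | hc)
    · exact frm_ne u hu c hc
    · exact hc.2
  have hd : Dense (⋂ c ∈ T, {g : ι → ℝ | lin c g ≠ 0}) :=
    dense_biInter_of_isOpen (fun c _ => open_ne c) hTf.countable (fun c hc => dense_ne c (hT0 c hc))
  obtain ⟨h', hh'T, hh'⟩ := hd.exists_dist_lt h hε
  rw [mem_iInter₂] at hh'T
  refine ⟨h', by rw [← dist_eq_norm, dist_comm]; exact hh', ?_⟩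
  intro t
  by_cases hZ : ∃ c ∈ Frm u, lin c (h' + t • f) = 0
  · obtain ⟨c, hc, hc0⟩ := hZ
    refine ⟨c, Or.inr hc, hc0, ?_⟩
    intro c' hc' hc'0
    have e1 : lin c h' = -(t * lin c f) := by
      rw [map_add, map_smul, smul_eq_mul] at hc0; linarith
    have e2 : lin c' h' = -(t * lin c' f) := by
      rw [map_add, map_smul, smul_eq_mul] at hc'0; linarith
    have hcf : lin c f ≠ 0 := by
      intro h0
      rw [h0, mul_zero, neg_zero] at e1
      exact hh'T c (Or.inl hc) e1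
    have hw : (lin c f) • c' - (lin c' f) • c = 0 := by
      by_contra hne
      have hmem : (lin c f) • c' - (lin c' f) • c ∈ T :=
        Or.inr ⟨⟨(c, c'), ⟨hc, hc'⟩, rfl⟩, hne⟩
      apply hh'T _ hmem
      show lin ((lin c f) • c' - (lin c' f) • c) h' = 0
      rw [lin_sub_smul, e1, e2]
      ring
    refine ⟨lin c' f / lin c f, ?_⟩
    have h3 := sub_eq_zero.mp hw
    rw [div_eq_inv_mul, mul_smul, ← h3, smul_smul, inv_mul_cancel₀ hcf, one_smul]
  · push Not at hZ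
    refine ⟨0, Or.inl rfl, ?_, ?_⟩
    · rw [lin_apply]; simp
    · intro c' hc' h0
      exact absurd h0 (hZ c' hc')

end Pool.T3
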