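import Pool.Agent.Work.MP_b5407d_t3.Interface

/-!
# MP_b5407d, block KNG: the edge of two planes of equal sign is a point
-/

set_option autoImplicit false

open MeasureTheory Set Filter Topology

namespace Pool.T3

namespace KNG_

theorem dt_sub (a x y : R3) : dt a (x - y) = dt a x - dt a y := by
  simp only [dt, Pi.sub_apply]
  ring

theorem dt_smul (a x : R3) (s : ℝ) : dt a (s • x) = s * dt a x := by
  simp only [dt, Pi.smul_apply, smul_eq_mul]
  ring

/-- three independent vectors separate points -/
theorem zero_of_three {a b c y : R3} (h : de a b c ≠ 0) (ha : dt a y = 0) (hb : dt b y = 0)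
    (hc : dt c y = 0) : y = 0 := by
  have key : ∀ l : Fin 3, de a b c * y l =
      dt a y * cr b c l + dt b y * cr c a l + dt c y * cr a b l := by
    intro l
    fin_cases l <;> simp [de, dt, cr] <;> ring
  funext l
  have h1 := key l
  rw [ha, hb, hc] at h1
  have h2 : de a b c * y l = 0 := by rw [h1]; ring
  rcases mul_eq_zero.1 h2 with h3 | h3
  · exact absurd h3 h
  · exact h3

variable {ι : Type} [Fintype ι] [DecidableEq ι]

/-- sum over a support of four elements -/
theorem sum4 {c : ι → ℝ} {i j k m : ι} (hij : i ≠ j) (hik : i ≠ k) (him : i ≠ m) (hjk : j ≠ k)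
    (hjm : j ≠ m) (hkm : k ≠ m) (hc : ∀ a, c a ≠ 0 → (a = i ∨ a = j ∨ a = k ∨ a = m))
    (X : ι → ℝ) : ∑ a, c a * X a = c i * X i + c j * X j + c k * X k + c m * X m := by
  have h1 : ∑ a, c a * X a = ∑ a ∈ ({i, j, k, m} : Finset ι), c a * X a := by
    symm
    apply Finset.sum_subset (Finset.subset_univ _)
    intro a _ ha
    have h0 : c a = 0 := by
      by_contra h
      apply ha
      simp only [Finset.mem_insert, Finset.mem_singleton]
      exact hc a h
    rw [h0, zero_mul]
  rw [h1, Finset.sum_insert (by simp [hij, hik, him]), Finset.sum_insert (by simp [hjk, hjm]),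
    Finset.sum_insert (by simp [hkm]), Finset.sum_singleton]
  ring

/-- a chord through points which are all equal has length zero -/
theorem lam_zero {u : ι → R3} (hu : Fam u) (hCOO : Stmt_COO) {i j : ι} (hij : i ≠ j)
    {α β : ℝ} {h : ι → ℝ} (hi : |α| ≤ h i) (hj : |β| ≤ h j) {y : R3}
    (hy : ∀ x ∈ K u h, dt (u i) x = α → dt (u j) x = β → x = y) : Lam u i j α β h = 0 := by
  have hne := hCOO.2 ι u i j hu hij
  have hf := (hCOO.1 ι u i j hne).2
  unfold Lam
  have hs : {c : ℝ | ∀ m, m ≠ i → m ≠ j →
      |dt (u m) (pt u i j α β) + c * de (u i) (u j) (u m)| ≤ h m}.Subsingleton := by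
    have key : ∀ c : ℝ, (∀ m, m ≠ i → m ≠ j →
        |dt (u m) (pt u i j α β) + c * de (u i) (u j) (u m)| ≤ h m) →
        pt u i j α β + c • cr (u i) (u j) = y := by
      intro c hc
      obtain ⟨h1, h2, h3⟩ := hf α β c
      refine hy _ ?_ h1 h2
      intro m
      show |dt (u m) (pt u i j α β + c • cr (u i) (u j))| ≤ h m
      by_cases hmi : m = i
      · rw [hmi, h1]
        exact hi
      · by_cases hmj : m = j
        · rw [hmj, h2]
          exact hj
        · rw [h3 m]
          exact hc m hmi hmj
    intro c hc c' hc'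
    have e : pt u i j α β + c • cr (u i) (u j) = pt u i j α β + c' • cr (u i) (u j) := by
      rw [key c hc, key c' hc']
    have e2 : c • cr (u i) (u j) = c' • cr (u i) (u j) := add_left_cancel e
    have e3 : (c - c') • cr (u i) (u j) = 0 := by rw [sub_smul, e2, sub_self]
    rcases smul_eq_zero.1 e3 with h4 | h4
    · linarith
    · exact absurd h4 hne
  rw [hs.measure_zero]
  simp

/-- three against one: the facet is a point -/
theorem facet {u : ι → R3} (hu : Fam u) (hCOO : Stmt_COO) (hSF : Stmt_SF) {h : ι → ℝ}
    (hp : Pos h) {p e : ι → ℝ} {v0 : R3} {i j k m : ι} (hij : i ≠ j) (hik : i ≠ k) (him : i ≠ m)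
    (hjk : j ≠ k) (hpi : 0 < p i) (hpj : 0 < p j) (hpk : 0 < p k)
    (he : ∀ a, (a = i ∨ a = j ∨ a = k ∨ a = m) → e a ^ 2 = 1 ∧ dt (u a) v0 = e a * h a)
    (hrel : ∀ x : R3, p i * (e i * dt (u i) x) + p j * (e j * dt (u j) x) +
      p k * (e k * dt (u k) x) + p m * (e m * dt (u m) x) = 0) : S u h m = 0 := by
  have hmi : m ≠ i := him.symm
  rw [(hSF ι u hu m i hmi h hp).2]
  have hz : ∀ β ∈ Set.uIcc (-h i) (h i), Lam u m i (h m) β h = 0 := by
    intro β hβ
    have hhi := hp i
    rw [Set.uIcc_of_le (by linarith)] at hβ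
    have hβ' : |β| ≤ h i := abs_le.2 hβ
    refine lam_zero hu hCOO hmi (y := e m • v0) (by rw [abs_of_pos (hp m)]) hβ' ?_
    intro x hx hxm _
    obtain ⟨ei, di⟩ := he i (by simp)
    obtain ⟨ej, dj⟩ := he j (by simp)
    obtain ⟨ek, dk⟩ := he k (by simp)
    obtain ⟨em, dm⟩ := he m (by simp)
    have r0 := hrel v0
    have rx := hrel x
    rw [di, dj, dk, dm] at r0
    rw [hxm] at rx
    have bound : ∀ a, e a ^ 2 = 1 → e a * (e m * dt (u a) x) ≤ h a := by
      intro a ea
      have h1 := hx a
      have h2 : |e a * (e m * dt (u a) x)| ≤ h a := by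
        rw [abs_mul, abs_mul]
        have h3 : |e a| = 1 := by
          rw [← abs_one, ← sq_eq_sq_iff_abs_eq_abs, ea]; norm_num
        have h4 : |e m| = 1 := by
          rw [← abs_one, ← sq_eq_sq_iff_abs_eq_abs, em]; norm_num
        rw [h3, h4, one_mul, one_mul]
        exact h1
      exact (le_abs_self _).trans h2
    have bi := bound i ei
    have bj := bound j ej
    have bk := bound k ek
    have r0' : p i * h i + p j * h j + p k * h k + p m * h m = 0 := by
      have : p i * (e i * (e i * h i)) + p j * (e j * (e j * h j)) + p k * (e k * (e k * h k)) +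
          p m * (e m * (e m * h m)) = p i * (e i ^ 2 * h i) + p j * (e j ^ 2 * h j) +
          p k * (e k ^ 2 * h k) + p m * (e m ^ 2 * h m) := by ring
      rw [this, ei, ej, ek, em] at r0
      linarith
    have rx' : p i * (e i * (e m * dt (u i) x)) + p j * (e j * (e m * dt (u j) x)) +
        p k * (e k * (e m * dt (u k) x)) + p m * h m = 0 := by
      have h1 : e m * (p i * (e i * dt (u i) x) + p j * (e j * dt (u j) x) +
          p k * (e k * dt (u k) x) + p m * (e m * h m)) = 0 := by rw [rx, mul_zero]
      have h2 : e m * (p i * (e i * dt (u i) x) + p j * (e j * dt (u j) x) +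
          p k * (e k * dt (u k) x) + p m * (e m * h m)) =
          p i * (e i * (e m * dt (u i) x)) + p j * (e j * (e m * dt (u j) x)) +
          p k * (e k * (e m * dt (u k) x)) + p m * (e m ^ 2 * h m) := by ring
      rw [h2, em, one_mul] at h1
      exact h1
    -- all three are equalities
    have s1 : 0 ≤ p i * (h i - e i * (e m * dt (u i) x)) :=
      mul_nonneg hpi.le (by linarith)
    have s2 : 0 ≤ p j * (h j - e j * (e m * dt (u j) x)) :=
      mul_nonneg hpj.le (by linarith)
    have s3 : 0 ≤ p k * (h k - e k * (e m * dt (u k) x)) :=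
      mul_nonneg hpk.le (by linarith)
    have sum0 : p i * (h i - e i * (e m * dt (u i) x)) + p j * (h j - e j * (e m * dt (u j) x)) +
        p k * (h k - e k * (e m * dt (u k) x)) = 0 := by linarith
    have z1 : p i * (h i - e i * (e m * dt (u i) x)) = 0 := by linarith
    have z2 : p j * (h j - e j * (e m * dt (u j) x)) = 0 := by linarith
    have z3 : p k * (h k - e k * (e m * dt (u k) x)) = 0 := by linarith
    have fin : ∀ a, e a ^ 2 = 1 → dt (u a) v0 = e a * h a → 0 < p a →
        p a * (h a - e a * (e m * dt (u a) x)) = 0 → dt (u a) (x - e m • v0) = 0 := by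
      intro a ea da pa za
      rcases mul_eq_zero.1 za with h1 | h1
      · exact absurd h1 pa.ne'
      · rw [dt_sub, dt_smul, da]
        have h2 : h a = e a * (e m * dt (u a) x) := by linarith
        have h3 : e m * (e a * h a) = dt (u a) x := by
          calc e m * (e a * h a) = e m * (e a * (e a * (e m * dt (u a) x))) := by rw [← h2]
            _ = e a ^ 2 * e m ^ 2 * dt (u a) x := by ring
            _ = dt (u a) x := by rw [ea, em]; ring
        rw [h3, sub_self]
    have hz := zero_of_three (hu.ind i j k hij hik hjk) (fin i ei di hpi z1)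
      (fin j ej dj hpj z2) (fin k ek dk hpk z3)
    exact sub_eq_zero.1 hz
  rw [intervalIntegral.integral_congr (g := fun _ => (0 : ℝ)) hz]
  simp

end KNG_

open KNG_ in
theorem stmt_KNG (hKNC : Stmt_KNC) (hSF : Stmt_SF) (hCOO : Stmt_COO) : Stmt_KNG := by
  intro ι _ _ u hu h c v0 hp hS hC hK i j hij hcij hvi
  obtain ⟨i0, j0, k0, m0, h1, h2, h3, h4, h5, h6, hsup⟩ := (hKNC ι u hu).1 c hC.form
  -- the support
  set T : Finset ι := {i0, j0, k0, m0} with hT
  have hTm : ∀ a, a ∈ T ↔ c a ≠ 0 := by
    intro a
    rw [hsup a]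
    simp [hT]
  have hTc : T.card = 4 := by
    rw [hT, Finset.card_insert_of_notMem (by simp [h1, h2, h3]),
      Finset.card_insert_of_notMem (by simp [h4, h5]),
      Finset.card_insert_of_notMem (by simp [h6]), Finset.card_singleton]
  have hci : c i ≠ 0 := by
    intro h0
    rw [h0, zero_mul] at hcij
    exact lt_irrefl _ hcij
  have hcj : c j ≠ 0 := by
    intro h0
    rw [h0, mul_zero] at hcij
    exact lt_irrefl _ hcij
  have hiT : i ∈ T := (hTm i).2 hci
  have hjT : j ∈ T.erase i := Finset.mem_erase.2 ⟨hij.symm, (hTm j).2 hcj⟩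
  have hc2 : ((T.erase i).erase j).card = 2 := by
    rw [Finset.card_erase_of_mem hjT, Finset.card_erase_of_mem hiT, hTc]
  obtain ⟨k, m, hkm, hkmT⟩ := Finset.card_eq_two.1 hc2
  have hkT : k ∈ (T.erase i).erase j := by rw [hkmT]; simp
  have hmT : m ∈ (T.erase i).erase j := by rw [hkmT]; simp
  rw [Finset.mem_erase, Finset.mem_erase] at hkT hmT
  have hik : i ≠ k := fun h => hkT.2.1 h.symm
  have him : i ≠ m := fun h => hmT.2.1 h.symm
  have hjk : j ≠ k := fun h => hkT.1 h.symm
  have hjm : j ≠ m := fun h => hmT.1 h.symm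
  have hck : c k ≠ 0 := (hTm k).1 hkT.2.2
  have hcm : c m ≠ 0 := (hTm m).1 hmT.2.2
  have hall : ∀ a, c a ≠ 0 → (a = i ∨ a = j ∨ a = k ∨ a = m) := by
    intro a ha
    by_contra hno
    simp only [not_or] at hno
    have : a ∈ (T.erase i).erase j :=
      Finset.mem_erase.2 ⟨hno.2.1, Finset.mem_erase.2 ⟨hno.1, (hTm a).2 ha⟩⟩
    rw [hkmT] at this
    simp only [Finset.mem_insert, Finset.mem_singleton] at this
    rcases this with h | h
    · exact hno.2.2.1 h
    · exact hno.2.2.2 h
  set e : ι → ℝ := fun a => dt (u a) v0 / h a with he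
  set p : ι → ℝ := fun a => c i * c a with hpdef
  have hea : ∀ a, c a ≠ 0 → e a ^ 2 = 1 ∧ dt (u a) v0 = e a * h a := by
    intro a ha
    have h1 := hC.tight a ha
    have hh := hp a
    constructor
    · simp only [he]
      rw [div_pow, ← sq_abs, h1]
      field_simp
    · simp only [he]
      field_simp
  have hrel4 : ∀ x : R3, p i * (e i * dt (u i) x) + p j * (e j * dt (u j) x) +
      p k * (e k * dt (u k) x) + p m * (e m * dt (u m) x) = 0 := by
    intro x
    have h1 := hC.rel x
    have h2 : ∑ a, c a * (dt (u a) v0 / h a) * dt (u a) x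
        = ∑ a, c a * (e a * dt (u a) x) := by
      refine Finset.sum_congr rfl fun a _ => ?_
      simp only [he]
      ring
    rw [h2, sum4 hij hik him hjk hjm hkm hall] at h1
    simp only [hpdef]
    have h3 : c i * c i * (e i * dt (u i) x) + c i * c j * (e j * dt (u j) x) +
        c i * c k * (e k * dt (u k) x) + c i * c m * (e m * dt (u m) x)
        = c i * (c i * (e i * dt (u i) x) + c j * (e j * dt (u j) x) + c k * (e k * dt (u k) x) +
          c m * (e m * dt (u m) x)) := by ring
    rw [h3, h1, mul_zero]
  have hpi : 0 < p i := by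
    simp only [hpdef]
    exact mul_self_pos.2 hci
  have hpj : 0 < p j := hcij
  have hpk0 : p k ≠ 0 := mul_ne_zero hci hck
  have hpm0 : p m ≠ 0 := mul_ne_zero hci hcm
  obtain ⟨ei, di⟩ := hea i hci
  obtain ⟨ej, dj⟩ := hea j hcj
  obtain ⟨ek, dk⟩ := hea k hck
  obtain ⟨em, dm⟩ := hea m hcm
  have r0 : p i * h i + p j * h j + p k * h k + p m * h m = 0 := by
    have r := hrel4 v0
    rw [di, dj, dk, dm] at r
    have : p i * (e i * (e i * h i)) + p j * (e j * (e j * h j)) + p k * (e k * (e k * h k)) +
        p m * (e m * (e m * h m)) = p i * (e i ^ 2 * h i) + p j * (e j ^ 2 * h j) +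
        p k * (e k ^ 2 * h k) + p m * (e m ^ 2 * h m) := by ring
    rw [this, ei, ej, ek, em] at r
    linarith
  have hhi := hp i
  have hhj := hp j
  have hhk := hp k
  have hhm := hp m
  rcases lt_or_gt_of_ne hpk0 with hpk | hpk
  · rcases lt_or_gt_of_ne hpm0 with hpm | hpm
    · -- two and two
      have hvj : |dt (u j) v0| ≤ h j := hK j
      refine lam_zero hu hCOO hij (y := v0) (by rw [abs_of_pos hhi]) hvj ?_
      intro x hx hxi hxj
      have rx := hrel4 x
      rw [hxi, hxj] at rx
      have rv := hrel4 v0
      rw [hvi] at rv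
      -- differences
      have bk : e k * dt (u k) x ≤ e k * dt (u k) v0 := by
        have h1 : e k * dt (u k) v0 = h k := by
          rw [dk]
          calc e k * (e k * h k) = e k ^ 2 * h k := by ring
            _ = h k := by rw [ek, one_mul]
        rw [h1]
        have h2 : |e k * dt (u k) x| ≤ h k := by
          rw [abs_mul]
          have h3 : |e k| = 1 := by
            rw [← abs_one, ← sq_eq_sq_iff_abs_eq_abs, ek]; norm_num
          rw [h3, one_mul]
          exact hx k
        exact (le_abs_self _).trans h2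
      have bm : e m * dt (u m) x ≤ e m * dt (u m) v0 := by
        have h1 : e m * dt (u m) v0 = h m := by
          rw [dm]
          calc e m * (e m * h m) = e m ^ 2 * h m := by ring
            _ = h m := by rw [em, one_mul]
        rw [h1]
        have h2 : |e m * dt (u m) x| ≤ h m := by
          rw [abs_mul]
          have h3 : |e m| = 1 := by
            rw [← abs_one, ← sq_eq_sq_iff_abs_eq_abs, em]; norm_num
          rw [h3, one_mul]
          exact hx m
        exact (le_abs_self _).trans h2
      have s1 : 0 ≤ (-p k) * (e k * dt (u k) v0 - e k * dt (u k) x) :=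
        mul_nonneg (by linarith) (by linarith)
      have s2 : 0 ≤ (-p m) * (e m * dt (u m) v0 - e m * dt (u m) x) :=
        mul_nonneg (by linarith) (by linarith)
      have z1 : (-p k) * (e k * dt (u k) v0 - e k * dt (u k) x) = 0 := by linarith
      have z2 : e k * dt (u k) v0 - e k * dt (u k) x = 0 := by
        rcases mul_eq_zero.1 z1 with h | h
        · exact absurd (neg_eq_zero.1 h) hpk0
        · exact h
      have z3 : dt (u k) (x - v0) = 0 := by
        rw [dt_sub]
        have h1 : e k * (dt (u k) x - dt (u k) v0) = 0 := by linarith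
        rcases mul_eq_zero.1 h1 with h | h
        · rw [h] at ek
          norm_num at ek
        · exact h
      have z4 : dt (u i) (x - v0) = 0 := by rw [dt_sub, hxi, hvi, sub_self]
      have z5 : dt (u j) (x - v0) = 0 := by rw [dt_sub, hxj, sub_self]
      exact sub_eq_zero.1 (zero_of_three (hu.ind i j k hij hik hjk) z4 z5 z3)
    · -- `k` alone
      exfalso
      have h0 := facet hu hCOO hSF hp (p := p) (e := e) (v0 := v0) (i := i) (j := j) (k := m)
        (m := k) hij him hik hjm hpi hpj hpm (by
          intro a ha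
          refine hea a ?_
          rcases ha with h | h | h | h
          · rw [h]; exact hci
          · rw [h]; exact hcj
          · rw [h]; exact hcm
          · rw [h]; exact hck) (fun x => by
            have := hrel4 x
            linarith)
      have := hS k
      rw [h0] at this
      exact lt_irrefl _ this
  · rcases lt_or_gt_of_ne hpm0 with hpm | hpm
    · exfalso
      have h0 := facet hu hCOO hSF hp (p := p) (e := e) (v0 := v0) (i := i) (j := j) (k := k)
        (m := m) hij hik him hjk hpi hpj hpk (by
          intro a ha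
          refine hea a ?_
          rcases ha with h | h | h | h
          · rw [h]; exact hci
          · rw [h]; exact hcj
          · rw [h]; exact hck
          · rw [h]; exact hcm) hrel4
      have := hS m
      rw [h0] at this
      exact lt_irrefl _ this
    · exfalso
      have q1 := mul_pos hpi hhi
      have q2 := mul_pos hpj hhj
      have q3 := mul_pos hpk hhk
      have q4 := mul_pos hpm hhm
      linarith

end Pool.T3
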