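import Pool.Agent.Work.MP_b5407d_t3.Interface

open MeasureTheory Set Filter Topology

namespace Pool.T3

namespace KNK_

theorem ev_ge (P : ℝ → Prop) (h : ∀ᶠ t : ℝ in 𝓝[≥] 0, P t) :
    ∃ δ : ℝ, 0 < δ ∧ ∀ t, 0 ≤ t → t < δ → P t := by
  rw [eventually_nhdsWithin_iff, Metric.eventually_nhds_iff] at h
  obtain ⟨δ, hδ, h⟩ := h
  refine ⟨δ, hδ, fun t h0 h1 => h ?_ h0⟩
  rw [Real.dist_eq, sub_zero, abs_of_nonneg h0]
  exact h1

theorem ev_le (P : ℝ → Prop) (δ : ℝ) (hδ : 0 < δ) (h : ∀ t, t ≤ 0 → -δ < t → P t) :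
    ∀ᶠ t : ℝ in 𝓝[≤] 0, P t := by
  rw [eventually_nhdsWithin_iff, Metric.eventually_nhds_iff]
  refine ⟨δ, hδ, fun t ht h0 => h t h0 ?_⟩
  rw [Real.dist_eq, sub_zero] at ht
  exact (abs_lt.mp ht).1

/-- A continuous function with local support lines has the midpoint property. -/
theorem midpoint (φ : ℝ → ℝ) (T : ℝ) (hT : 0 < T) (hc : ContinuousOn φ (Icc (-T) T))
    (hs : ∀ t ∈ Icc (-T) T, ∃ a : ℝ, ∀ᶠ s : ℝ in 𝓝 0, φ t + a * s ≤ φ (t + s)) :
    2 * φ 0 ≤ φ T + φ (-T) := by
  by_contra hlt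
  push Not at hlt
  set k : ℝ := (φ T - φ (-T)) / (2 * T) with hk
  set m : ℝ := (φ T + φ (-T)) / 2 with hm
  set D : ℝ → ℝ := fun s => φ s - (m + k * s) with hD
  have hkT : k * T = (φ T - φ (-T)) / 2 := by rw [hk]; field_simp
  have hDT : D T = 0 := by
    show φ T - (m + k * T) = 0
    rw [hkT, hm]; ring
  have hDT' : D (-T) = 0 := by
    show φ (-T) - (m + k * (-T)) = 0
    rw [mul_neg, hkT, hm]; ring
  have hD0 : 0 < D 0 := by
    show 0 < φ 0 - (m + k * 0)
    rw [hm]; linarith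
  have hDc : ContinuousOn D (Icc (-T) T) := by
    apply hc.sub
    fun_prop
  have hcomp : IsCompact (Icc (-T) T) := isCompact_Icc
  obtain ⟨x0, hx0, hmax⟩ := hcomp.exists_isMaxOn ⟨0, by constructor <;> linarith⟩ hDc
  have hM : 0 < D x0 := lt_of_lt_of_le hD0 (hmax (show (0 : ℝ) ∈ Icc (-T) T by constructor <;> linarith))
  have hA : IsCompact (Icc (-T) T ∩ D ⁻¹' {D x0}) := by
    apply hcomp.of_isClosed_subset _ inter_subset_left
    exact hDc.preimage_isClosed_of_isClosed isClosed_Icc isClosed_singleton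
  obtain ⟨y, hy, hyg⟩ := hA.exists_isGreatest ⟨x0, hx0, rfl⟩
  have hyM : D y = D x0 := hy.2
  have hyT : y < T := by
    rcases lt_or_eq_of_le hy.1.2 with h1 | h1
    · exact h1
    · rw [h1, hDT] at hyM; linarith
  have hyT' : -T < y := by
    rcases lt_or_eq_of_le hy.1.1 with h1 | h1
    · exact h1
    · rw [← h1, hDT'] at hyM; linarith
  obtain ⟨a, ha⟩ := hs y hy.1
  rw [Metric.eventually_nhds_iff] at ha
  obtain ⟨δ, hδ, ha⟩ := ha
  -- choose a small step
  obtain ⟨s, hs0, hs1, hs2, hs3⟩ : ∃ s : ℝ, 0 < s ∧ s < δ ∧ y + s < T ∧ -T < y - s := by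
    refine ⟨min (δ / 2) (min ((T - y) / 2) ((y + T) / 2)), ?_, ?_, ?_, ?_⟩
    · apply lt_min (by linarith) (lt_min (by linarith) (by linarith))
    · exact lt_of_le_of_lt (min_le_left _ _) (by linarith)
    · have := (min_le_right (δ / 2) (min ((T - y) / 2) ((y + T) / 2))).trans (min_le_left _ _)
      linarith
    · have := (min_le_right (δ / 2) (min ((T - y) / 2) ((y + T) / 2))).trans (min_le_right _ _)
      linarith
  have h1 := ha (y := s) (by rw [Real.dist_eq, sub_zero, abs_of_pos hs0]; exact hs1)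
  have h2 := ha (y := -s) (by rw [Real.dist_eq, sub_zero, abs_neg, abs_of_pos hs0]; exact hs1)
  have m1 : D (y + s) ≤ D x0 := hmax (show y + s ∈ Icc (-T) T by constructor <;> linarith)
  have m2 : D (y + -s) ≤ D x0 := hmax (show y + -s ∈ Icc (-T) T by constructor <;> linarith)
  have m1' : D (y + s) = φ (y + s) - (m + k * (y + s)) := rfl
  have m2' : D (y + -s) = φ (y + -s) - (m + k * (y + -s)) := rfl
  have m3' : D y = φ y - (m + k * y) := rfl
  -- the point y + s is in the set as well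
  have hge : D x0 ≤ D (y + s) := by
    rw [← hyM, m1', m3']
    nlinarith
  have : y + s ≤ y := hyg ⟨⟨by linarith, by linarith⟩, le_antisymm m1 hge⟩
  linarith

theorem second (g g1 g2 : ℝ → ℝ) (c0 c1 c2 c3 δ : ℝ)
    (h1 : ∀ t ∈ Ioo 0 δ, HasDerivAt g (g1 t) t) (h2 : ∀ t ∈ Ioo 0 δ, HasDerivAt g1 (g2 t) t)
    (h3 : ∀ t ∈ Ioo 0 δ, g t = c0 + t * c1 + t ^ 2 / 2 * c2 + c3 * t ^ 3) :
    ∀ t ∈ Ioo 0 δ, g2 t = c2 + 6 * c3 * t := by
  have e1 : ∀ t ∈ Ioo 0 δ, g1 t = c1 + t * c2 + 3 * c3 * t ^ 2 := by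
    intro t ht
    have hd : HasDerivAt (fun t : ℝ => c0 + t * c1 + t ^ 2 / 2 * c2 + c3 * t ^ 3)
        (c1 + t * c2 + 3 * c3 * t ^ 2) t := by
      have d1 := (hasDerivAt_id t).mul_const c1
      have d2 := ((hasDerivAt_pow 2 t).div_const 2).mul_const c2
      have d3 := (hasDerivAt_pow 3 t).const_mul c3
      have d := (((hasDerivAt_const t c0).add d1).add d2).add d3
      refine HasDerivAt.congr_deriv (f' := _) (d.congr_of_eventuallyEq ?_) ?_
      · exact Eventually.of_forall fun x => rfl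
      · simp only [Nat.cast_ofNat]; ring
    have hev : g =ᶠ[𝓝 t] (fun t : ℝ => c0 + t * c1 + t ^ 2 / 2 * c2 + c3 * t ^ 3) := by
      filter_upwards [isOpen_Ioo.mem_nhds ht] with x hx using h3 x hx
    exact (h1 t ht).unique (hd.congr_of_eventuallyEq hev)
  intro t ht
  have hd : HasDerivAt (fun t : ℝ => c1 + t * c2 + 3 * c3 * t ^ 2) (c2 + 6 * c3 * t) t := by
    have d1 := (hasDerivAt_id t).mul_const c2
    have d2 := (hasDerivAt_pow 2 t).const_mul (3 * c3)
    have d := ((hasDerivAt_const t c1).add d1).add d2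
    refine HasDerivAt.congr_deriv (f' := _) (d.congr_of_eventuallyEq ?_) ?_
    · exact Eventually.of_forall fun x => rfl
    · simp only [Nat.cast_ofNat]; ring
  have hev : g1 =ᶠ[𝓝 t] (fun t : ℝ => c1 + t * c2 + 3 * c3 * t ^ 2) := by
    filter_upwards [isOpen_Ioo.mem_nhds ht] with x hx using e1 x hx
  exact (h2 t ht).unique (hd.congr_of_eventuallyEq hev)

theorem lin_apply {ι : Type} [Fintype ι] (a x : ι → ℝ) : lin a x = ∑ i, a i * x i := by
  unfold lin
  simp

theorem line_deriv {ι : Type} [Fintype ι] (h f : ι → ℝ) (t : ℝ) :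
    HasDerivAt (fun s : ℝ => h + s • f) f t := by
  have := ((hasDerivAt_id t).smul_const f).const_add h
  simpa using this

/-- the second derivative of the volume near a point on the positive side -/
theorem phi_eq (hDVS : Stmt_DVS) {ι : Type} [Fintype ι] [DecidableEq ι] (u : ι → R3) (hu : Fam u)
    (h f : ι → ℝ) (T c : ℝ) (hT : 0 < T) (hP : ∀ t, 0 ≤ t → t < T → Pos (h + t • f))
    (hc : ∀ᶠ t : ℝ in 𝓝[≥] 0, V u (h + t • f) = V u h + t * (∑ i, S u h i * f i) +
      t ^ 2 / 2 * (∑ i, ∑ j, H u h i j * f i * f j) + c * t ^ 3) :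
    ∃ δ : ℝ, 0 < δ ∧ ∀ t, 0 < t → t < δ → ∑ i, ∑ j, H u (h + t • f) i j * f i * f j
      = (∑ i, ∑ j, H u h i j * f i * f j) + 6 * c * t := by
  obtain ⟨dV, dS, -, -, -, -⟩ := hDVS ι u hu
  obtain ⟨δ, hδ, h3⟩ := ev_ge _ hc
  refine ⟨min δ T, lt_min hδ hT, ?_⟩
  have key := second (fun t => V u (h + t • f)) (fun t => ∑ i, S u (h + t • f) i * f i)
    (fun t => ∑ i, ∑ j, H u (h + t • f) i j * f i * f j) (V u h) (∑ i, S u h i * f i)
    (∑ i, ∑ j, H u h i j * f i * f j) c (min δ T) ?_ ?_ ?_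
  · intro t h0 h1
    exact key t ⟨h0, h1⟩
  · intro t ht
    have hp := hP t ht.1.le (lt_of_lt_of_le ht.2 (min_le_right _ _))
    have := (dV _ hp).comp_hasDerivAt t (line_deriv h f t)
    rw [lin_apply] at this
    exact this
  · intro t ht
    have hp := hP t ht.1.le (lt_of_lt_of_le ht.2 (min_le_right _ _))
    have h4 : ∀ i ∈ (Finset.univ : Finset ι), HasDerivAt (fun t => S u (h + t • f) i * f i)
        (∑ j, H u (h + t • f) i j * f i * f j) t := by
      intro i _
      have h5 := ((dS _ hp i).comp_hasDerivAt t (line_deriv h f t)).mul_const (f i)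
      rw [lin_apply] at h5
      refine h5.congr_deriv ?_
      rw [Finset.sum_mul]
      exact Finset.sum_congr rfl fun j _ => by ring
    exact HasDerivAt.fun_sum h4
  · intro t ht
    exact h3 t ht.1.le (lt_of_lt_of_le ht.2 (min_le_left _ _))

end KNK_

open KNK_

theorem stmt_KNK (hCU1 : Stmt_CU1) (hKN4 : Stmt_KN4) (hKN5 : Stmt_KN5) (hDVS : Stmt_DVS) :
    Stmt_KNK := by
  intro ι _ _ u hu h hh hS f
  obtain ⟨-, dS, cH, -, -, -⟩ := hDVS ι u hu
  set φ : (ι → ℝ) → ℝ := fun x => ∑ i, ∑ j, H u x i j * f i * f j with hφ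
  have hPo : IsOpen {x : ι → ℝ | Pos x} := by
    have : {x : ι → ℝ | Pos x} = ⋂ i, {x : ι → ℝ | 0 < x i} := by
      ext x; simp [Pos]
    rw [this]
    exact isOpen_iInter_of_finite fun i => isOpen_lt continuous_const (continuous_apply i)
  have hcφ : ∀ x, Pos x → ContinuousAt φ x := by
    intro x hx
    have : ContinuousOn φ {x | Pos x} := by
      apply continuousOn_finsetSum
      intro i _
      apply continuousOn_finsetSum
      intro j _
      exact ((cH i j).mul continuousOn_const).mul continuousOn_const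
    exact this.continuousAt (hPo.mem_nhds hx)
  have hUo : ∀ᶠ x in 𝓝 h, Pos x ∧ ∀ i, 0 < S u x i := by
    refine Filter.Eventually.and (hPo.mem_nhds hh) ?_
    rw [eventually_all]
    intro i
    exact (dS h hh i).continuousAt.eventually (lt_mem_nhds (hS i))
  rw [Metric.eventually_nhds_iff] at hUo
  obtain ⟨r, hr, hrU⟩ := hUo
  set T : ℝ := r / (2 * (‖f‖ + 1)) with hTdef
  have hT : 0 < T := by positivity
  have hTf : T * ‖f‖ < r / 2 := by
    have h1 : T * (‖f‖ + 1) = r / 2 := by rw [hTdef]; field_simp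
    nlinarith
  have hseg : ∀ h' : ι → ℝ, ‖h' - h‖ < r / 2 → ∀ t, |t| ≤ T →
      Pos (h' + t • f) ∧ ∀ i, 0 < S u (h' + t • f) i := by
    intro h' hh' t ht
    apply hrU
    rw [dist_eq_norm]
    have e : h' + t • f - h = (h' - h) + t • f := by abel
    rw [e]
    refine lt_of_le_of_lt (norm_add_le _ _) ?_
    rw [norm_smul, Real.norm_eq_abs]
    have : |t| * ‖f‖ ≤ T * ‖f‖ := mul_le_mul_of_nonneg_right ht (norm_nonneg _)
    linarith
  have hmid : ∀ t, 0 < t → t ≤ T → 2 * φ h ≤ φ (h + t • f) + φ (h + (-t) • f) := by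
    intro t ht0 htT
    by_contra hlt
    push Not at hlt
    have hP1 : Pos (h + t • f) := (hseg h (by simp; linarith) t (by rw [abs_of_pos ht0]; exact htT)).1
    have hP2 : Pos (h + (-t) • f) :=
      (hseg h (by simp; linarith) (-t) (by rw [abs_neg, abs_of_pos ht0]; exact htT)).1
    have hc1 : ContinuousAt (fun x : ι → ℝ => φ (x + t • f)) h :=
      ContinuousAt.comp (g := φ) (hcφ _ hP1) (by fun_prop)
    have hc2 : ContinuousAt (fun x : ι → ℝ => φ (x + (-t) • f)) h :=
      ContinuousAt.comp (g := φ) (hcφ _ hP2) (by fun_prop)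
    have hc3 : ContinuousAt (fun x : ι → ℝ => 2 * φ x - (φ (x + t • f) + φ (x + (-t) • f))) h :=
      ((hcφ h hh).const_mul 2 |>.sub (hc1.add hc2))
    have hev : ∀ᶠ x in 𝓝 h, 0 < 2 * φ x - (φ (x + t • f) + φ (x + (-t) • f)) :=
      hc3.eventually (lt_mem_nhds (by linarith))
    rw [Metric.eventually_nhds_iff] at hev
    obtain ⟨ε, hε, hev⟩ := hev
    obtain ⟨h', hh', hone⟩ := hKN5 ι u hu h f (min ε (r / 2)) (lt_min hε (by linarith))
    have h1 := hev (y := h') (by rw [dist_eq_norm]; exact lt_of_lt_of_le hh' (min_le_left _ _))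
    have hh2 : ‖h' - h‖ < r / 2 := lt_of_lt_of_le hh' (min_le_right _ _)
    have h2 := midpoint (fun s => φ (h' + s • f)) t ht0 ?_ ?_
    · simp only [zero_smul, add_zero] at h2
      linarith
    · intro s hs
      have hp := (hseg h' hh2 s (by rw [abs_le]; constructor <;> linarith [hs.1, hs.2])).1
      exact (ContinuousAt.comp (f := fun s : ℝ => h' + s • f) (g := φ) (hcφ _ hp)
        (by fun_prop)).continuousWithinAt
    · intro s hs
      obtain ⟨hp, hSp⟩ := hseg h' hh2 s (by rw [abs_le]; constructor <;> linarith [hs.1, hs.2])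
      obtain ⟨c, hc⟩ := hone s
      obtain ⟨a, ha⟩ := hKN4 ι u hu _ c hp hc hSp f
      refine ⟨a, ?_⟩
      filter_upwards [ha] with τ hτ
      have e : h' + (s + τ) • f = h' + s • f + τ • f := by rw [add_smul]; abel
      show φ (h' + s • f) + a * τ ≤ φ (h' + (s + τ) • f)
      rw [e]
      exact hτ
  obtain ⟨cp, hcp⟩ := hCU1 ι u hu h hh f
  obtain ⟨cq, hcq⟩ := hCU1 ι u hu h hh (-f)
  obtain ⟨δ1, hδ1, e1⟩ := phi_eq hDVS u hu h f T cp hT (fun t h0 h1 =>
    (hseg h (by simp; linarith) t (by rw [abs_of_nonneg h0]; exact h1.le)).1) hcp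
  obtain ⟨δ2, hδ2, e2⟩ := phi_eq hDVS u hu h (-f) T cq hT (fun t h0 h1 => by
    have := (hseg h (by simp; linarith) (-t) (by rw [abs_neg, abs_of_nonneg h0]; exact h1.le)).1
    rwa [neg_smul, ← smul_neg] at this) hcq
  refine ⟨-cq, cp, ?_, hcp, ?_⟩
  · set t : ℝ := min (min δ1 δ2) T / 2 with ht
    have hm : 0 < min (min δ1 δ2) T := lt_min (lt_min hδ1 hδ2) hT
    have ht0 : 0 < t := by linarith
    have a1 : t < δ1 := by
      have := (min_le_left (min δ1 δ2) T).trans (min_le_left _ _); linarith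
    have a2 : t < δ2 := by
      have := (min_le_left (min δ1 δ2) T).trans (min_le_right _ _); linarith
    have a3 : t ≤ T := by
      have := min_le_right (min δ1 δ2) T; linarith
    have f1 : φ (h + t • f) = φ h + 6 * cp * t := e1 t ht0 a1
    have f2 : φ (h + (-t) • f) = φ h + 6 * cq * t := by
      have := e2 t ht0 a2
      have e3 : ∀ x, (∑ i, ∑ j, H u x i j * (-f) i * (-f) j) = φ x := by
        intro x
        show _ = ∑ i, ∑ j, H u x i j * f i * f j
        refine Finset.sum_congr rfl fun i _ => Finset.sum_congr rfl fun j _ => ?_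
        simp only [Pi.neg_apply]; ring
      rw [e3, e3] at this
      rw [← this]
      congr 2
      rw [neg_smul, smul_neg]
    have := hmid t ht0 a3
    rw [f1, f2] at this
    nlinarith
  · obtain ⟨δ, hδ, h5⟩ := ev_ge _ hcq
    refine ev_le _ δ hδ ?_
    intro t h0 h1
    have h6 := h5 (-t) (by linarith) (by linarith)
    have e4 : h + (-t) • (-f) = h + t • f := by simp
    rw [e4] at h6
    rw [h6]
    have e5 : (∑ i, S u h i * (-f) i) = -(∑ i, S u h i * f i) := by
      rw [← Finset.sum_neg_distrib]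
      exact Finset.sum_congr rfl fun i _ => by simp
    have e6 : (∑ i, ∑ j, H u h i j * (-f) i * (-f) j) = ∑ i, ∑ j, H u h i j * f i * f j := by
      refine Finset.sum_congr rfl fun i _ => Finset.sum_congr rfl fun j _ => ?_
      simp only [Pi.neg_apply]; ring
    rw [e5, e6]
    ring

end Pool.T3
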