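import Pool.Agent.Work.MP_b5407d_t3.Interface

/-!
# Block `PWL`: the mixed derivatives are affine on one side of a point of a line
-/

set_option autoImplicit false

open MeasureTheory Set Filter Topology

namespace Pool.T3

namespace PWL_

/-- affine on some `[0, t0]` -/
def PA (g : ℝ → ℝ) : Prop := ∃ a b : ℝ, ∀ᶠ t : ℝ in 𝓝[≥] 0, g t = b + a * t

lemma PA.aff (a b : ℝ) : PA (fun t => b + a * t) := ⟨a, b, Eventually.of_forall fun _ => rfl⟩

lemma PA.congr {g1 g2 : ℝ → ℝ} (h1 : PA g1) (h : ∀ᶠ t : ℝ in 𝓝[≥] 0, g2 t = g1 t) : PA g2 := by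
  obtain ⟨a, b, hab⟩ := h1
  refine ⟨a, b, ?_⟩
  filter_upwards [hab, h] with t h1 h2
  rw [h2, h1]

lemma PA.add {g1 g2 : ℝ → ℝ} (h1 : PA g1) (h2 : PA g2) : PA (fun t => g1 t + g2 t) := by
  obtain ⟨a, b, hab⟩ := h1
  obtain ⟨a', b', hab'⟩ := h2
  refine ⟨a + a', b + b', ?_⟩
  filter_upwards [hab, hab'] with t h1 h2
  rw [h1, h2]; ring

lemma PA.sub {g1 g2 : ℝ → ℝ} (h1 : PA g1) (h2 : PA g2) : PA (fun t => g1 t - g2 t) := by
  obtain ⟨a, b, hab⟩ := h1
  obtain ⟨a', b', hab'⟩ := h2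
  refine ⟨a - a', b - b', ?_⟩
  filter_upwards [hab, hab'] with t h1 h2
  rw [h1, h2]; ring

lemma PA.smul {g1 : ℝ → ℝ} (c : ℝ) (h1 : PA g1) : PA (fun t => c * g1 t) := by
  obtain ⟨a, b, hab⟩ := h1
  refine ⟨c * a, c * b, ?_⟩
  filter_upwards [hab] with t h1
  rw [h1]; ring

/-- one of two affine functions is the smaller one on `[0, t0]` -/
lemma comp (a1 b1 a2 b2 : ℝ) : (∀ᶠ t : ℝ in 𝓝[≥] 0, b1 + a1 * t ≤ b2 + a2 * t) ∨
    (∀ᶠ t : ℝ in 𝓝[≥] 0, b2 + a2 * t ≤ b1 + a1 * t) := by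
  have key : ∀ a1 b1 a2 b2 : ℝ, b1 < b2 → ∀ᶠ t : ℝ in 𝓝[≥] 0, b1 + a1 * t ≤ b2 + a2 * t := by
    intro a1 b1 a2 b2 hb
    have h1 : Tendsto (fun t : ℝ => b1 + a1 * t) (𝓝 0) (𝓝 (b1 + a1 * 0)) :=
      (by fun_prop : Continuous (fun t : ℝ => b1 + a1 * t)).tendsto 0
    have h2 : Tendsto (fun t : ℝ => b2 + a2 * t) (𝓝 0) (𝓝 (b2 + a2 * 0)) :=
      (by fun_prop : Continuous (fun t : ℝ => b2 + a2 * t)).tendsto 0
    have h3 := h1.eventually_lt h2 (by simpa using hb)
    exact (h3.filter_mono nhdsWithin_le_nhds).mono fun t ht => ht.le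
  rcases lt_trichotomy b1 b2 with hb | hb | hb
  · exact Or.inl (key _ _ _ _ hb)
  · subst hb
    rcases le_total a1 a2 with ha | ha
    · left
      filter_upwards [self_mem_nhdsWithin] with t ht
      have := mul_le_mul_of_nonneg_right ha (show (0 : ℝ) ≤ t from ht)
      linarith
    · right
      filter_upwards [self_mem_nhdsWithin] with t ht
      have := mul_le_mul_of_nonneg_right ha (show (0 : ℝ) ≤ t from ht)
      linarith
  · exact Or.inr (key _ _ _ _ hb)

lemma PA.max {g1 g2 : ℝ → ℝ} (h1 : PA g1) (h2 : PA g2) : PA (g1 ⊔ g2) := by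
  obtain ⟨a, b, hab⟩ := h1
  obtain ⟨a', b', hab'⟩ := h2
  rcases comp a b a' b' with hc | hc
  · refine ⟨a', b', ?_⟩
    filter_upwards [hab, hab', hc] with t h1 h2 h3
    rw [Pi.sup_apply, h1, h2, sup_eq_right.2 h3]
  · refine ⟨a, b, ?_⟩
    filter_upwards [hab, hab', hc] with t h1 h2 h3
    rw [Pi.sup_apply, h1, h2, sup_eq_left.2 h3]

lemma PA.min {g1 g2 : ℝ → ℝ} (h1 : PA g1) (h2 : PA g2) : PA (g1 ⊓ g2) := by
  obtain ⟨a, b, hab⟩ := h1
  obtain ⟨a', b', hab'⟩ := h2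
  rcases comp a b a' b' with hc | hc
  · refine ⟨a, b, ?_⟩
    filter_upwards [hab, hab', hc] with t h1 h2 h3
    rw [Pi.inf_apply, h1, h2, inf_eq_left.2 h3]
  · refine ⟨a', b', ?_⟩
    filter_upwards [hab, hab', hc] with t h1 h2 h3
    rw [Pi.inf_apply, h1, h2, inf_eq_right.2 h3]

lemma PA.inf' {κ : Type} {s : Finset κ} (hs : s.Nonempty) {F : κ → ℝ → ℝ} (h : ∀ m ∈ s, PA (F m)) :
    PA (fun t => s.inf' hs (fun m => F m t)) := by
  have h1 : PA (s.inf' hs F) :=
    Finset.inf'_induction (p := PA) hs F (fun _ h1 _ h2 => PA.min h1 h2) h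
  refine h1.congr (Eventually.of_forall fun t => ?_)
  rw [Finset.inf'_apply]

lemma PA.sup' {κ : Type} {s : Finset κ} (hs : s.Nonempty) {F : κ → ℝ → ℝ} (h : ∀ m ∈ s, PA (F m)) :
    PA (fun t => s.sup' hs (fun m => F m t)) := by
  have h1 : PA (s.sup' hs F) :=
    Finset.sup'_induction (p := PA) hs F (fun _ h1 _ h2 => PA.max h1 h2) h
  refine h1.congr (Eventually.of_forall fun t => ?_)
  rw [Finset.sup'_apply]

lemma dt_pt {ι : Type} (u : ι → R3) (i j : ι) (a : R3) (α β : ℝ) :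
    dt a (pt u i j α β) = (1 / dt (cr (u i) (u j)) (cr (u i) (u j))) *
      (α * dt a (cr (u j) (cr (u i) (u j))) + β * dt a (cr (cr (u i) (u j)) (u i))) := by
  simp only [dt, pt, Pi.smul_apply, Pi.add_apply, smul_eq_mul]
  ring

/-- the chord length along a line -/
lemma PA_Lam {ι : Type} [Fintype ι] [DecidableEq ι] (hLAMF : Stmt_LAMF) (u : ι → R3) (hu : Fam u)
    (h f : ι → ℝ) (i j : ι) (hij : i ≠ j) (s : ℝ) :
    PA (fun t => Lam u i j ((h + t • f) i) (s * (h + t • f) j) (h + t • f)) := by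
  obtain ⟨hM, hF⟩ := hLAMF ι u hu i j hij
  have hmid : ∀ m, PA (fun t => mid u i j ((h + t • f) i) (s * (h + t • f) j) m) := by
    intro m
    refine PA.congr (PA.aff
      (-((1 / dt (cr (u i) (u j)) (cr (u i) (u j))) *
        (f i * dt (u m) (cr (u j) (cr (u i) (u j))) +
          s * f j * dt (u m) (cr (cr (u i) (u j)) (u i))) / de (u i) (u j) (u m)))
      (-((1 / dt (cr (u i) (u j)) (cr (u i) (u j))) *
        (h i * dt (u m) (cr (u j) (cr (u i) (u j))) +
          s * h j * dt (u m) (cr (cr (u i) (u j)) (u i))) / de (u i) (u j) (u m))))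
      (Eventually.of_forall fun t => ?_)
    simp only [mid, dt_pt, Pi.add_apply, Pi.smul_apply, smul_eq_mul]
    ring
  have hrad : ∀ m, PA (fun t => rad u i j (h + t • f) m) := by
    intro m
    refine PA.congr (PA.aff (f m / |de (u i) (u j) (u m)|) (h m / |de (u i) (u j) (u m)|))
      (Eventually.of_forall fun t => ?_)
    simp only [rad, Pi.add_apply, Pi.smul_apply, smul_eq_mul]
    ring
  have h1 : PA (fun t => (oth i j).inf' hM (fun m =>
      mid u i j ((h + t • f) i) (s * (h + t • f) j) m + rad u i j (h + t • f) m)) :=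
    PA.inf' hM (F := fun m t => mid u i j ((h + t • f) i) (s * (h + t • f) j) m +
      rad u i j (h + t • f) m) fun m _ => (hmid m).add (hrad m)
  have h2 : PA (fun t => (oth i j).sup' hM (fun m =>
      mid u i j ((h + t • f) i) (s * (h + t • f) j) m - rad u i j (h + t • f) m)) :=
    PA.sup' hM (F := fun m t => mid u i j ((h + t • f) i) (s * (h + t • f) j) m -
      rad u i j (h + t • f) m) fun m _ => (hmid m).sub (hrad m)
  refine ((PA.aff 0 0).max (h1.sub h2)).congr (Eventually.of_forall fun t => ?_)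
  rw [hF hM, Pi.sup_apply]
  simp

end PWL_

open PWL_ in
theorem stmt_PWL (hLAMF : Stmt_LAMF) (hHF : Stmt_HF) : Stmt_PWL := by
  intro ι _ _ u hu h hh f i j hij
  have hpos : ∀ᶠ t : ℝ in 𝓝[≥] 0, Pos (h + t • f) := by
    refine Filter.Eventually.filter_mono nhdsWithin_le_nhds ?_
    refine eventually_all.2 fun m => ?_
    have hc : Tendsto (fun t : ℝ => (h + t • f) m) (𝓝 0) (𝓝 ((h + (0 : ℝ) • f) m)) := by
      refine (Continuous.tendsto ?_ 0)
      simp only [Pi.add_apply, Pi.smul_apply, smul_eq_mul]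
      fun_prop
    refine hc.eventually_const_lt ?_
    simpa using hh m
  have h1 := PA_Lam hLAMF u hu h f i j hij 1
  have h2 := PA_Lam hLAMF u hu h f i j hij (-1)
  have h3 : PA (fun t => H u (h + t • f) i j) := by
    refine ((h1.add h2).smul 2).congr ?_
    filter_upwards [hpos] with t ht
    rw [(hHF ι u hu i j hij _ ht).2]
    simp only [one_mul, neg_one_mul]
  obtain ⟨a, b, hab⟩ := h3
  have h0 := hab.self_of_nhdsWithin (show (0 : ℝ) ∈ Ici (0 : ℝ) from le_refl (0 : ℝ))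
  refine ⟨a, ?_⟩
  filter_upwards [hab] with t ht
  rw [ht]
  simp only [zero_smul, add_zero, mul_zero] at h0
  rw [h0]

end Pool.T3
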