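import Pool.Agent.Work.MP_b5407d_t3.Interface

set_option autoImplicit false

open MeasureTheory Set Filter Topology

namespace Pool.T3

namespace RED_

/-- decomposition of a vector in the coordinates of `COO` -/
theorem decomp (a b y : R3) (ht : dt (cr a b) (cr a b) ≠ 0) :
    y = (1 / dt (cr a b) (cr a b)) •
      (dt a y • cr b (cr a b) + dt b y • cr (cr a b) a) +
      (dt (cr a b) y / dt (cr a b) (cr a b)) • cr a b := by
  have key : dt (cr a b) (cr a b) • y =
      (dt a y • cr b (cr a b) + dt b y • cr (cr a b) a) + (dt (cr a b) y) • cr a b := by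
    funext l
    fin_cases l <;>
      simp only [dt, cr, Pi.smul_apply, Pi.add_apply, smul_eq_mul, Matrix.cons_val_zero,
        Matrix.cons_val_one, Matrix.cons_val, Fin.zero_eta, Fin.mk_one, Fin.reduceFinMk] <;> ring
  funext l
  have h1 := congrFun key l
  simp only [Pi.smul_apply, Pi.add_apply, smul_eq_mul] at h1 ⊢
  field_simp
  linarith

theorem dt_self_ne (a : R3) (ha : a ≠ 0) : dt a a ≠ 0 := by
  intro h0
  apply ha
  unfold dt at h0
  have h1 : a 0 = 0 := by nlinarith [sq_nonneg (a 0), sq_nonneg (a 1), sq_nonneg (a 2)]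
  have h2 : a 1 = 0 := by nlinarith [sq_nonneg (a 0), sq_nonneg (a 1), sq_nonneg (a 2)]
  have h3 : a 2 = 0 := by nlinarith [sq_nonneg (a 0), sq_nonneg (a 1), sq_nonneg (a 2)]
  funext l
  fin_cases l
  · exact h1
  · exact h2
  · exact h3

theorem dt_smul (a x : R3) (c : ℝ) : dt a (c • x) = c * dt a x := by
  simp only [dt, Pi.smul_apply, smul_eq_mul]; ring

theorem dt_neg (a x : R3) : dt a (-x) = -dt a x := by
  simp only [dt, Pi.neg_apply]; ring

/-- a point of the open facet gives a positive chord -/
theorem Lam_pos (hLAMF : Stmt_LAMF) (hCOO : Stmt_COO) {ι : Type} [Fintype ι] [DecidableEq ι]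
    (u : ι → R3) (hu : Fam u) (h : ι → ℝ) (i j : ι) (hij : i ≠ j) (y : R3)
    (hy : ∀ m, m ≠ i → m ≠ j → |dt (u m) y| < h m) :
    0 < Lam u i j (dt (u i) y) (dt (u j) y) h := by
  obtain ⟨hM, hL⟩ := hLAMF ι u hu i j hij
  rw [hL hM]
  have hcr := hCOO.2 ι u i j hu hij
  have hne := dt_self_ne _ hcr
  have hco := (hCOO.1 ι u i j hcr).2
  set c0 : ℝ := dt (cr (u i) (u j)) y / dt (cr (u i) (u j)) (cr (u i) (u j)) with hc0
  have hdec : y = pt u i j (dt (u i) y) (dt (u j) y) + c0 • cr (u i) (u j) := by
    have := decomp (u i) (u j) y hne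
    unfold pt
    exact this
  have hm : ∀ m, m ≠ i → m ≠ j →
      mid u i j (dt (u i) y) (dt (u j) y) m - rad u i j h m < c0 ∧
      c0 < mid u i j (dt (u i) y) (dt (u j) y) m + rad u i j h m := by
    intro m hmi hmj
    have hD : de (u i) (u j) (u m) ≠ 0 := hu.ind i j m hij hmi.symm hmj.symm
    have h1 : dt (u m) y = dt (u m) (pt u i j (dt (u i) y) (dt (u j) y)) +
        c0 * de (u i) (u j) (u m) := by
      have := (hco (dt (u i) y) (dt (u j) y) c0).2.2 m
      rw [← hdec] at this
      exact this
    have h2 := hy m hmi hmj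
    rw [h1] at h2
    have hDp : 0 < |de (u i) (u j) (u m)| := abs_pos.mpr hD
    have h3 : |c0 - mid u i j (dt (u i) y) (dt (u j) y) m| < rad u i j h m := by
      unfold rad
      rw [lt_div_iff₀ hDp, ← abs_mul]
      have : (c0 - mid u i j (dt (u i) y) (dt (u j) y) m) * de (u i) (u j) (u m) =
          dt (u m) (pt u i j (dt (u i) y) (dt (u j) y)) + c0 * de (u i) (u j) (u m) := by
        unfold mid
        field_simp
        ring
      rw [this]
      exact h2
    have h4 := abs_lt.mp h3
    exact ⟨by linarith [h4.1, h4.2], by linarith [h4.1, h4.2]⟩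
  have h5 : (oth i j).sup' hM (fun m => mid u i j (dt (u i) y) (dt (u j) y) m - rad u i j h m)
      < c0 := by
    rw [Finset.sup'_lt_iff]
    intro m hm'
    simp only [oth, Finset.mem_filter, Finset.mem_univ, true_and] at hm'
    exact (hm m hm'.1 hm'.2).1
  have h6 : c0 < (oth i j).inf' hM
      (fun m => mid u i j (dt (u i) y) (dt (u j) y) m + rad u i j h m) := by
    rw [Finset.lt_inf'_iff]
    intro m hm'
    simp only [oth, Finset.mem_filter, Finset.mem_univ, true_and] at hm'
    exact (hm m hm'.1 hm'.2).2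
  exact lt_max_of_lt_right (by linarith)

theorem Lam_cont {ι : Type} (u : ι → R3) (k j : ι)
    (hcont : Continuous (fun p : ℝ × ℝ × (ι → ℝ) => Lam u k j p.1 p.2.1 p.2.2))
    (a : ℝ) (h : ι → ℝ) : Continuous (fun β : ℝ => Lam u k j a β h) := by
  generalize Lam u k j = L at hcont ⊢
  have h1 : Continuous (fun β : ℝ => ((a, β, h) : ℝ × ℝ × (ι → ℝ))) :=
    continuous_const.prodMk (continuous_id.prodMk continuous_const)
  exact hcont.comp h1

/-- redundancy -/
theorem redund (hSF : Stmt_SF) (hLAMF : Stmt_LAMF) (hLAMC : Stmt_LAMC) (hCOO : Stmt_COO)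
    {ι : Type} [Fintype ι] [DecidableEq ι]
    (u : ι → R3) (hu : Fam u) (h : ι → ℝ) (hh : Pos h) (k : ι) (hk : S u h k = 0) (x : R3)
    (hx : ∀ i, i ≠ k → |dt (u i) x| ≤ h i) : |dt (u k) x| ≤ h k := by
  -- it is enough to treat positive values
  have main : ∀ x : R3, (∀ i, i ≠ k → |dt (u i) x| ≤ h i) → ¬ h k < dt (u k) x := by
    intro x hx hlt
    obtain ⟨j, hjk⟩ : ∃ j, j ≠ k := by
      obtain ⟨a, b, c, hab, -, -⟩ := hu.three
      by_cases hak : a = k
      · exact ⟨b, fun hb => hab (hak.trans hb.symm)⟩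
      · exact ⟨a, hak⟩
    have hpos : 0 < dt (u k) x := lt_trans (hh k) hlt
    set τ : ℝ := h k / dt (u k) x with hτ
    have hτ0 : 0 < τ := div_pos (hh k) hpos
    have hτ1 : τ < 1 := by rw [hτ, div_lt_one hpos]; exact hlt
    set y : R3 := τ • x with hy
    have hyk : dt (u k) y = h k := by
      rw [hy, dt_smul, hτ]; field_simp
    have hyi : ∀ i, i ≠ k → |dt (u i) y| < h i := by
      intro i hik
      rw [hy, dt_smul, abs_mul, abs_of_pos hτ0]
      calc τ * |dt (u i) x| ≤ τ * h i := mul_le_mul_of_nonneg_left (hx i hik) hτ0.le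
        _ < 1 * h i := mul_lt_mul_of_pos_right hτ1 (hh i)
        _ = h i := one_mul _
    have hL := Lam_pos hLAMF hCOO u hu h k j hjk.symm y (fun m hm _ => hyi m hm)
    rw [hyk] at hL
    obtain ⟨hcont, hnn, -⟩ := hLAMC ι u hu k j hjk.symm
    have hS := (hSF ι u hu k j hjk.symm h hh).2
    rw [hk] at hS
    have hβ := abs_lt.mp (hyi j hjk)
    have hc : Continuous (fun β : ℝ => Lam u k j (h k) β h) :=
      Lam_cont u k j hcont (h k) h
    have hint : 0 < ∫ β in (-h j)..(h j), Lam u k j (h k) β h := by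
      apply intervalIntegral.integral_pos (by linarith [hh j]) hc.continuousOn
      · intro β _
        exact hnn _ _ _
      · exact ⟨dt (u j) y, ⟨hβ.1.le, hβ.2.le⟩, hL⟩
    linarith
  rw [abs_le]
  constructor
  · by_contra hcon
    push Not at hcon
    refine main (-x) ?_ ?_
    · intro i hik
      rw [dt_neg, abs_neg]
      exact hx i hik
    · rw [dt_neg]; linarith
  · by_contra hcon
    push Not at hcon
    exact main x hx hcon

end RED_

open RED_ in
theorem stmt_RED (hSF : Stmt_SF) (hHF : Stmt_HF) (hLAMF : Stmt_LAMF) (hLAMC : Stmt_LAMC)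
    (hDVS : Stmt_DVS) (hSGN : Stmt_SGN) (hCOO : Stmt_COO) (hBND : Stmt_BND) : Stmt_RED := by
  intro ι _ _ u hu h hh k hk
  have hred := fun x hx => redund hSF hLAMF hLAMC hCOO u hu h hh k hk x hx
  -- at least three other indices
  have hthree : ∃ a b c : ι, a ≠ k ∧ b ≠ k ∧ c ≠ k ∧ a ≠ b ∧ a ≠ c ∧ b ≠ c := by
    -- two other indices
    obtain ⟨a, b, hak, hbk, hab⟩ : ∃ a b : ι, a ≠ k ∧ b ≠ k ∧ a ≠ b := by
      obtain ⟨a, b, c, hab, hac, hbc⟩ := hu.three
      by_cases hak : a = k
      · subst hak
        exact ⟨b, c, hab.symm, hac.symm, hbc⟩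
      · by_cases hbk : b = k
        · subst hbk
          exact ⟨a, c, hak, hbc.symm, hac⟩
        · exact ⟨a, b, hak, hbk, hab⟩
    by_contra hcon
    push Not at hcon
    have hall : ∀ c, c ≠ k → c = a ∨ c = b := by
      intro c hck
      by_cases h1 : c = a
      · exact Or.inl h1
      · by_cases h2 : c = b
        · exact Or.inr h2
        · exact absurd (hcon a b c hak hbk hck hab (Ne.symm h1)) (by simpa using Ne.symm h2)
    have hD : de (u a) (u b) (u k) ≠ 0 := hu.ind a b k hab hak hbk
    have e1 : dt (u a) (cr (u a) (u b)) = 0 := by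
      simp only [dt, cr, Matrix.cons_val_zero, Matrix.cons_val_one, Matrix.cons_val]; ring
    have e2 : dt (u b) (cr (u a) (u b)) = 0 := by
      simp only [dt, cr, Matrix.cons_val_zero, Matrix.cons_val_one, Matrix.cons_val]; ring
    have e3 : dt (u k) (cr (u a) (u b)) = de (u a) (u b) (u k) := by
      unfold de
      simp only [dt]; ring
    have := hred (((h k + 1) / de (u a) (u b) (u k)) • cr (u a) (u b)) (by
      intro i hik
      rcases hall i hik with rfl | rfl
      · rw [dt_smul, e1, mul_zero, abs_zero]; exact (hh _).le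
      · rw [dt_smul, e2, mul_zero, abs_zero]; exact (hh _).le)
    rw [dt_smul, e3, div_mul_cancel₀ _ hD] at this
    have h2 := le_abs_self (h k + 1)
    linarith
  have hFam : Fam (fun i : {i // i ≠ k} => u i) := by
    refine ⟨fun i => hu.unit i, fun i j l hij hil hjl => ?_, ?_⟩
    · exact hu.ind i j l (fun e => hij (Subtype.ext e)) (fun e => hil (Subtype.ext e))
        (fun e => hjl (Subtype.ext e))
    · obtain ⟨a, b, c, hak, hbk, hck, hab, hac, hbc⟩ := hthree
      exact ⟨⟨a, hak⟩, ⟨b, hbk⟩, ⟨c, hck⟩, fun e => hab (congrArg Subtype.val e),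
        fun e => hac (congrArg Subtype.val e), fun e => hbc (congrArg Subtype.val e)⟩
  have hpos' : Pos (fun i : {i // i ≠ k} => h i) := fun i => hh i
  have hV : V (fun i : {i // i ≠ k} => u i) (fun i => h i) = V u h := by
    unfold V
    have : K (fun i : {i // i ≠ k} => u i) (fun i => h i) = K u h := by
      ext x
      simp only [K, mem_ofPred_eq]
      constructor
      · intro hx i
        by_cases hik : i = k
        · subst hik
          exact hred x (fun i hi => hx ⟨i, hi⟩)
        · exact hx ⟨i, hik⟩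
      · intro hx i
        exact hx i
    rw [this]
  -- equality of the chords
  have hLam : ∀ (i j : {i // i ≠ k}) (α β : ℝ), i ≠ j → |α| ≤ h i → |β| ≤ h j →
      Lam (fun i : {i // i ≠ k} => u i) i j α β (fun i => h i) = Lam u i j α β h := by
    intro i j α β hij hα hβ
    have hij' : (i : ι) ≠ j := fun e => hij (Subtype.ext e)
    have hcr := hCOO.2 ι u i j hu hij'
    have hco := (hCOO.1 ι u i j hcr).2
    unfold Lam
    congr 2
    ext c
    simp only [mem_ofPred_eq]
    have hpt : pt (fun i : {i // i ≠ k} => u i) i j α β = pt u i j α β := rfl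
    rw [hpt]
    constructor
    · intro hc m hmi hmj
      by_cases hmk : m = k
      · subst hmk
        have := hred (pt u i j α β + c • cr (u i) (u j)) (by
          intro l hl
          by_cases hli : l = i
          · subst hli
            rw [(hco α β c).1]; exact hα
          · by_cases hlj : l = j
            · subst hlj
              rw [(hco α β c).2.1]; exact hβ
            · rw [(hco α β c).2.2 l]
              exact hc ⟨l, hl⟩ (fun e => hli (congrArg Subtype.val e))
                (fun e => hlj (congrArg Subtype.val e)))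
        rw [(hco α β c).2.2 m] at this
        exact this
      · exact hc ⟨m, hmk⟩ (fun e => hmi (congrArg Subtype.val e))
          (fun e => hmj (congrArg Subtype.val e))
    · intro hc m hmi hmj
      exact hc m (fun e => hmi (Subtype.ext e)) (fun e => hmj (Subtype.ext e))
  -- vanishing of the row `k`
  have hDV := hDVS ι u hu
  have hH0 : ∀ j, H u h k j = 0 := by
    have hmin : IsLocalMin (fun h => S u h k) h := by
      have hopen : ∀ᶠ h' in 𝓝 h, Pos h' := by
        have : IsOpen {h' : ι → ℝ | Pos h'} := by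
          have e : {h' : ι → ℝ | Pos h'} = ⋂ i, {h' : ι → ℝ | 0 < h' i} := by
            ext h'; simp [Pos]
          rw [e]
          exact isOpen_iInter_of_finite (fun i => isOpen_lt continuous_const (continuous_apply i))
        exact this.mem_nhds hh
      filter_upwards [hopen] with h' hh'
      rw [hk]
      exact (hSGN ι u hu h' hh').2.1 k
    have hz := hmin.hasFDerivAt_eq_zero (hDV.2.1 h hh k)
    intro j
    have h1 := congrArg (fun L : (ι → ℝ) →L[ℝ] ℝ => L (Pi.single j 1)) hz
    simp only [lin, _root_.sum_apply, _root_.smul_apply,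
      ContinuousLinearMap.proj_apply, smul_eq_mul, _root_.zero_apply] at h1
    rw [Finset.sum_eq_single j (fun b _ hb => by rw [Pi.single_eq_of_ne hb, mul_zero])
      (fun hj => absurd (Finset.mem_univ j) hj)] at h1
    rw [Pi.single_eq_same, mul_one] at h1
    exact h1
  have hSeq : ∀ i : {i // i ≠ k},
      S (fun i : {i // i ≠ k} => u i) (fun i => h i) i = S u h i := by
    intro i
    obtain ⟨j, hji⟩ : ∃ j : {i // i ≠ k}, j ≠ i := by
      obtain ⟨a, b, c, hab, -, -⟩ := hFam.three
      by_cases hai : a = i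
      · exact ⟨b, fun hb => hab (hai.trans hb.symm)⟩
      · exact ⟨a, hai⟩
    have hij' : (i : ι) ≠ j := fun e => hji (Subtype.ext e.symm)
    rw [(hSF _ _ hFam i j hji.symm _ hpos').2, (hSF ι u hu i j hij' h hh).2]
    congr 1
    apply intervalIntegral.integral_congr
    intro β hβ
    rw [uIcc_of_le (by linarith [hh j])] at hβ
    exact hLam i j (h i) β hji.symm (by rw [abs_of_pos (hh i)]) (abs_le.mpr ⟨hβ.1, hβ.2⟩)
  have hHoff : ∀ i j : {i // i ≠ k}, i ≠ j →
      H (fun i : {i // i ≠ k} => u i) (fun i => h i) i j = H u h i j := by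
    intro i j hij
    have hij' : (i : ι) ≠ j := fun e => hij (Subtype.ext e)
    rw [(hHF _ _ hFam i j hij _ hpos').2, (hHF ι u hu i j hij' h hh).2]
    rw [hLam i j (h i) (h j) hij (by rw [abs_of_pos (hh i)]) (by rw [abs_of_pos (hh j)]),
      hLam i j (h i) (-h j) hij (by rw [abs_of_pos (hh i)]) (by rw [abs_neg, abs_of_pos (hh j)])]
  refine ⟨hFam, hV, hSeq, ?_, hH0⟩
  intro i j
  by_cases hij : i = j
  · subst hij
    have hE' := (hDVS _ _ hFam).2.2.2.2.2 (fun i : {i // i ≠ k} => h i) hpos' i
    have hE := hDV.2.2.2.2.2 h hh i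
    have hsymm := hDV.2.2.2.1 h hh
    rw [hSeq] at hE'
    have e0 : ∑ j, H u h i j * h j = ∑ j : {j // j ≠ k}, H u h i j * h j := by
      rw [Fintype.sum_eq_add_sum_subtype_ne (fun j => H u h i j * h j) k, hsymm i k, hH0,
        zero_mul, zero_add]
    rw [e0] at hE
    rw [← hE] at hE'
    rw [← Finset.add_sum_erase _ _ (Finset.mem_univ i),
      ← Finset.add_sum_erase (Finset.univ : Finset {j // j ≠ k}) (fun j => H u h i j * h j)
        (Finset.mem_univ i)] at hE'
    have e1 : ∑ x ∈ Finset.univ.erase i,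
        H (fun i : {i // i ≠ k} => u i) (fun i => h i) i x * h x =
        ∑ x ∈ (Finset.univ : Finset {j // j ≠ k}).erase i, H u h i x * h x := by
      refine Finset.sum_congr rfl fun x hx => ?_
      rw [hHoff i x (Finset.ne_of_mem_erase hx).symm]
    rw [e1] at hE'
    have h3 : H (fun i : {i // i ≠ k} => u i) (fun i => h i) i i * h i = H u h i i * h i := by
      linarith
    exact mul_right_cancel₀ (hh i).ne' h3
  · exact hHoff i j hij

end Pool.T3
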