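import Pool.Agent.Work.MP_b5407d_t3.Interface

/-!
# Block `SGN`: signs
-/

set_option autoImplicit false

open MeasureTheory Set Filter Topology

namespace Pool.T3

namespace SGN_

lemma cramer (a b c x : R3) (l : Fin 3) :
    de a b c * x l = dt a x * cr b c l + dt b x * cr c a l + dt c x * cr a b l := by
  fin_cases l <;> simp [de, dt, cr] <;> ring

lemma finite_vol {ι : Type} (u : ι → R3) (hu : Fam u) (h : ι → ℝ) : volume (K u h) < ⊤ := by
  obtain ⟨i, j, k, hij, hik, hjk⟩ := hu.three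
  have hD := hu.ind i j k hij hik hjk
  set D := de (u i) (u j) (u k) with hDdef
  let M : Fin 3 → ℝ := fun l => (h i * |cr (u j) (u k) l| + h j * |cr (u k) (u i) l| +
    h k * |cr (u i) (u j) l|) / |D|
  have hsub : K u h ⊆ Icc (-M) M := by
    intro x hx
    have hb : ∀ l, |x l| ≤ M l := by
      intro l
      have h1 := cramer (u i) (u j) (u k) x l
      have h2 : |D| * |x l| ≤ h i * |cr (u j) (u k) l| + h j * |cr (u k) (u i) l| +
          h k * |cr (u i) (u j) l| := by
        rw [← abs_mul, h1]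
        refine (abs_add_three _ _ _).trans ?_
        rw [abs_mul, abs_mul, abs_mul]
        have := mul_le_mul_of_nonneg_right (hx i) (abs_nonneg (cr (u j) (u k) l))
        have := mul_le_mul_of_nonneg_right (hx j) (abs_nonneg (cr (u k) (u i) l))
        have := mul_le_mul_of_nonneg_right (hx k) (abs_nonneg (cr (u i) (u j) l))
        linarith
      have hDp : 0 < |D| := abs_pos.2 hD
      show |x l| ≤ _ / |D|
      rw [le_div_iff₀ hDp]
      linarith
    exact ⟨fun l => (abs_le.1 (hb l)).1, fun l => (abs_le.1 (hb l)).2⟩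
  exact (measure_mono hsub).trans_lt isCompact_Icc.measure_lt_top

lemma V_pos {ι : Type} [Fintype ι] (u : ι → R3) (hu : Fam u) (h : ι → ℝ) (hh : Pos h) :
    0 < V u h := by
  have hopen : IsOpen {x : R3 | ∀ i, |dt (u i) x| < h i} := by
    have : {x : R3 | ∀ i, |dt (u i) x| < h i} = ⋂ i, {x : R3 | |dt (u i) x| < h i} := by
      ext x; simp
    rw [this]
    refine isOpen_iInter_of_finite fun i => ?_
    refine isOpen_lt ?_ continuous_const
    simp only [dt]
    fun_prop
  have hne : ({x : R3 | ∀ i, |dt (u i) x| < h i}).Nonempty :=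
    ⟨0, fun i => by simpa [dt] using hh i⟩
  have h1 := hopen.measure_pos volume hne
  have h2 : 0 < volume (K u h) := h1.trans_le (measure_mono fun x hx i => (hx i).le)
  exact ENNReal.toReal_pos h2.ne' (finite_vol u hu h).ne

lemma exists_ne {ι : Type} (u : ι → R3) (hu : Fam u) (i : ι) : ∃ j, i ≠ j := by
  obtain ⟨a, b, -, hab, -, -⟩ := hu.three
  by_cases h : i = a
  · exact ⟨b, by rw [h]; exact hab⟩
  · exact ⟨a, h⟩

lemma cs (a b : R3) (ha : dt a a = 1) (hb : dt b b = 1) : |dt a b| ≤ 1 := by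
  rw [abs_le]
  simp only [dt] at *
  constructor
  · nlinarith [sq_nonneg (a 0 + b 0), sq_nonneg (a 1 + b 1), sq_nonneg (a 2 + b 2)]
  · nlinarith [sq_nonneg (a 0 - b 0), sq_nonneg (a 1 - b 1), sq_nonneg (a 2 - b 2)]

lemma nrm_pos (t : R3) (ht : t ≠ 0) : 0 < dt t t := by
  by_contra hcon
  apply ht
  have h0 : dt t t = t 0 * t 0 + t 1 * t 1 + t 2 * t 2 := rfl
  have h1 := mul_self_nonneg (t 0)
  have h2 := mul_self_nonneg (t 1)
  have h3 := mul_self_nonneg (t 2)
  have e0 : t 0 * t 0 = 0 := by linarith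
  have e1 : t 1 * t 1 = 0 := by linarith
  have e2 : t 2 * t 2 = 0 := by linarith
  ext l
  fin_cases l
  · exact mul_self_eq_zero.1 e0
  · exact mul_self_eq_zero.1 e1
  · exact mul_self_eq_zero.1 e2

/-- the shift by `τ u i` in the coordinates `(α, β)` -/
lemma dt_shift {ι : Type} (u : ι → R3) (hu : Fam u) (i j : ι) (hc : cr (u i) (u j) ≠ 0) (a : R3)
    (α β τ : ℝ) :
    dt a (pt u i j (α + τ) (β + τ * dt (u i) (u j))) = dt a (pt u i j α β) + τ * dt a (u i) := by
  have hN := (nrm_pos _ hc).ne'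
  have key : ∀ l, dt (u i) (u i) * cr (u j) (cr (u i) (u j)) l +
      dt (u i) (u j) * cr (cr (u i) (u j)) (u i) l =
      dt (cr (u i) (u j)) (cr (u i) (u j)) * u i l := by
    intro l
    fin_cases l <;> simp [dt, cr] <;> ring
  rw [hu.unit i] at key
  have h2 : ∀ l, pt u i j (α + τ) (β + τ * dt (u i) (u j)) l = pt u i j α β l + τ * u i l := by
    intro l
    have h3 := key l
    set N := dt (cr (u i) (u j)) (cr (u i) (u j)) with hNdef
    have h4 : u i l = (1 / N) * (1 * cr (u j) (cr (u i) (u j)) l +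
      dt (u i) (u j) * cr (cr (u i) (u j)) (u i) l) := by
      rw [h3]; field_simp
    rw [h4]
    simp only [pt, Pi.smul_apply, Pi.add_apply, smul_eq_mul, ← hNdef]
    ring
  simp only [dt] at *
  rw [h2, h2, h2]
  ring

/-- the chord is finite -/
lemma chord_fin {ι : Type} [Fintype ι] [DecidableEq ι] (u : ι → R3) (hu : Fam u) (i j : ι)
    (hij : i ≠ j) (hM : (oth i j).Nonempty) (α β : ℝ) (h : ι → ℝ) :
    volume {c : ℝ | ∀ m, m ≠ i → m ≠ j →
      |dt (u m) (pt u i j α β) + c * de (u i) (u j) (u m)| ≤ h m} < ⊤ := by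
  obtain ⟨m, hm⟩ := hM
  simp only [oth, Finset.mem_filter, Finset.mem_univ, true_and] at hm
  have hD := hu.ind i j m hij hm.1.symm hm.2.symm
  set D := de (u i) (u j) (u m)
  set A := dt (u m) (pt u i j α β)
  have hDp : 0 < |D| := abs_pos.2 hD
  refine (measure_mono (t := Icc (-((h m + |A|) / |D|)) ((h m + |A|) / |D|)) ?_).trans_lt
    isCompact_Icc.measure_lt_top
  intro c hc
  have h1 := hc m hm.1 hm.2
  have h2 : |c * D| ≤ h m + |A| := by
    have h3 : c * D = (A + c * D) - A := by ring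
    rw [h3]
    refine (abs_sub _ _).trans ?_
    linarith
  rw [abs_mul, ← le_div_iff₀ hDp] at h2
  exact ⟨(abs_le.1 h2).1, (abs_le.1 h2).2⟩

lemma Lam_mono {ι : Type} [Fintype ι] [DecidableEq ι] (hLAMF : Stmt_LAMF) (hCOO : Stmt_COO)
    (u : ι → R3) (hu : Fam u) (i j : ι) (hij : i ≠ j) (α β τ : ℝ) (hτ : 0 ≤ τ) (h h' : ι → ℝ)
    (hh' : ∀ m, h' m = h m + τ) :
    Lam u i j α β h ≤ Lam u i j (α + τ) (β + τ * dt (u i) (u j)) h' := by
  obtain ⟨hM, -⟩ := hLAMF ι u hu i j hij
  have hc := hCOO.2 ι u i j hu hij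
  refine ENNReal.toReal_mono (chord_fin u hu i j hij hM _ _ _).ne (measure_mono ?_)
  intro c hcm m hmi hmj
  have h1 := hcm m hmi hmj
  rw [dt_shift u hu i j hc, hh']
  have h2 := cs (u m) (u i) (hu.unit m) (hu.unit i)
  have h3 : |τ * dt (u m) (u i)| ≤ τ := by
    rw [abs_mul, abs_of_nonneg hτ]
    have := mul_le_mul_of_nonneg_left h2 hτ
    linarith
  have h4 : dt (u m) (pt u i j α β) + τ * dt (u m) (u i) + c * de (u i) (u j) (u m) =
      (dt (u m) (pt u i j α β) + c * de (u i) (u j) (u m)) + τ * dt (u m) (u i) := by ring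
  rw [h4]
  exact (abs_add_le _ _).trans (add_le_add h1 h3)

lemma Lam_cont {ι : Type} [Fintype ι] [DecidableEq ι] (hLAMC : Stmt_LAMC) (u : ι → R3) (hu : Fam u)
    (i j : ι) (hij : i ≠ j) (α : ℝ) (h : ι → ℝ) : Continuous (fun β => Lam u i j α β h) := by
  have h1 := (hLAMC ι u hu i j hij).1
  have h2 : Continuous (fun β : ℝ => ((α, β, h) : ℝ × ℝ × (ι → ℝ))) := by fun_prop
  have h3 := h1.comp h2
  exact h3

lemma S_mono {ι : Type} [Fintype ι] [DecidableEq ι] (hSF : Stmt_SF) (hLAMC : Stmt_LAMC)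
    (hLAMF : Stmt_LAMF) (hCOO : Stmt_COO) (u : ι → R3) (hu : Fam u) (h : ι → ℝ) (hh : Pos h) (i : ι)
    (τ : ℝ) (hτ : 0 ≤ τ) : S u h i ≤ S u (h + τ • (1 : ι → ℝ)) i := by
  obtain ⟨j, hij⟩ := exists_ne u hu i
  have hh' : ∀ m, (h + τ • (1 : ι → ℝ)) m = h m + τ := by
    intro m; simp
  have hpos : Pos (h + τ • (1 : ι → ℝ)) := by
    intro m
    rw [hh']
    have := hh m
    linarith
  rw [(hSF ι u hu i j hij h hh).2, (hSF ι u hu i j hij _ hpos).2, hh', hh']
  set h' := h + τ • (1 : ι → ℝ)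
  have he : |τ * dt (u i) (u j)| ≤ τ := by
    rw [abs_mul, abs_of_nonneg hτ]
    have := mul_le_mul_of_nonneg_left (cs (u i) (u j) (hu.unit i) (hu.unit j)) hτ
    linarith
  have hj := hh j
  have step1 : ∫ β in (-h j)..(h j), Lam u i j (h i) β h ≤
      ∫ β in (-h j)..(h j), Lam u i j (h i + τ) (β + τ * dt (u i) (u j)) h' := by
    refine intervalIntegral.integral_mono_on (by linarith)
      ((Lam_cont hLAMC u hu i j hij _ _).intervalIntegrable _ _)
      (((Lam_cont hLAMC u hu i j hij (h i + τ) h').comp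
        (by fun_prop : Continuous (fun β : ℝ => β + τ * dt (u i) (u j)))).intervalIntegrable _ _)
      fun β _ => Lam_mono hLAMF hCOO u hu i j hij _ _ τ hτ h h' hh'
  have step2 : ∫ β in (-h j)..(h j), Lam u i j (h i + τ) (β + τ * dt (u i) (u j)) h' =
      ∫ β in (-h j + τ * dt (u i) (u j))..(h j + τ * dt (u i) (u j)),
        Lam u i j (h i + τ) β h' :=
    intervalIntegral.integral_comp_add_right (fun β => Lam u i j (h i + τ) β h') _
  have step3 : ∫ β in (-h j + τ * dt (u i) (u j))..(h j + τ * dt (u i) (u j)),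
        Lam u i j (h i + τ) β h' ≤
      ∫ β in (-(h j + τ))..(h j + τ), Lam u i j (h i + τ) β h' := by
    obtain ⟨he1, he2⟩ := abs_le.1 he
    refine intervalIntegral.integral_mono_interval (by linarith) (by linarith) (by linarith)
      (Eventually.of_forall fun β => (hLAMC ι u hu i j hij).2.1 _ _ _)
      ((Lam_cont hLAMC u hu i j hij _ _).intervalIntegrable _ _)
  linarith

end SGN_

open SGN_ in
theorem stmt_SGN (hSF : Stmt_SF) (hHF : Stmt_HF) (hLAMC : Stmt_LAMC) (hLAMF : Stmt_LAMF)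
    (hCOO : Stmt_COO) (hDVS : Stmt_DVS) : Stmt_SGN := by
  intro ι _ _ u hu h hh
  refine ⟨V_pos u hu h hh, ?_, ?_, ?_⟩
  · intro i
    obtain ⟨j, hij⟩ := exists_ne u hu i
    rw [(hSF ι u hu i j hij h hh).2]
    have hj := hh j
    have := intervalIntegral.integral_nonneg (μ := volume) (f := fun β => Lam u i j (h i) β h)
      (show -h j ≤ h j by linarith) fun β _ => (hLAMC ι u hu i j hij).2.1 _ _ _
    linarith
  · intro i j hij
    rw [(hHF ι u hu i j hij h hh).2]
    have h1 := (hLAMC ι u hu i j hij).2.1 (h i) (h j) h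
    have h2 := (hLAMC ι u hu i j hij).2.1 (h i) (-h j) h
    linarith
  · intro i
    obtain ⟨-, hdS, -⟩ := hDVS ι u hu
    have h1 := hdS h hh i
    have h2 : HasDerivAt (fun t : ℝ => h + t • (1 : ι → ℝ)) ((1 : ℝ) • (1 : ι → ℝ)) 0 :=
      ((hasDerivAt_id (0 : ℝ)).smul_const (1 : ι → ℝ)).const_add h
    have h1' : HasFDerivAt (fun h => S u h i) (lin (H u h i)) (h + (0 : ℝ) • (1 : ι → ℝ)) := by
      simpa using h1
    have h3 := h1'.comp_hasDerivAt (0 : ℝ) h2
    have h4 : lin (H u h i) ((1 : ℝ) • (1 : ι → ℝ)) = ∑ j, H u h i j := by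
      simp [lin]
    rw [h4] at h3
    have h5 := h3.tendsto_slope_zero_right
    refine ge_of_tendsto h5 ?_
    filter_upwards [self_mem_nhdsWithin] with t ht
    have ht' : (0 : ℝ) < t := ht
    have h6 := S_mono hSF hLAMC hLAMF hCOO u hu h hh i t ht'.le
    simp only [Function.comp, zero_add, zero_smul, add_zero, smul_eq_mul]
    exact mul_nonneg (inv_nonneg.2 ht'.le) (sub_nonneg.2 h6)

end Pool.T3
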