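import Pool.Agent.Work.MP_b5407d_t3.Interface

set_option autoImplicit false

open MeasureTheory Set Filter Topology

namespace Pool.T3

namespace SLB_

/-- Cauchy-Schwarz inequality for `dt` -/
lemma cs (a b : R3) : dt a b ^ 2 ≤ dt a a * dt b b := by
  unfold dt
  nlinarith [sq_nonneg (a 0 * b 1 - a 1 * b 0), sq_nonneg (a 0 * b 2 - a 2 * b 0),
    sq_nonneg (a 1 * b 2 - a 2 * b 1)]

lemma abs_le_one (a b : R3) (ha : dt a a = 1) (hb : dt b b = 1) : |dt a b| ≤ 1 := by
  have h := cs a b
  rw [ha, hb, mul_one] at h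
  exact abs_le_one_iff_mul_self_le_one.2 (by nlinarith)

/-- the matrix of `x ↦ x + c (v . x) v` -/
def M (v : R3) (c : ℝ) : Matrix (Fin 3) (Fin 3) ℝ :=
  !![1 + c * v 0 * v 0, c * v 0 * v 1, c * v 0 * v 2;
     c * v 1 * v 0, 1 + c * v 1 * v 1, c * v 1 * v 2;
     c * v 2 * v 0, c * v 2 * v 1, 1 + c * v 2 * v 2]

lemma M_det (v : R3) (c : ℝ) (hv : dt v v = 1) : (M v c).det = 1 + c := by
  rw [Matrix.det_fin_three]
  unfold dt at hv
  simp [M]
  linear_combination c * hv

lemma M_apply (v : R3) (c : ℝ) (x : R3) (w : R3) :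
    dt w (Matrix.toLin' (M v c) x) = dt w x + c * dt v x * dt w v := by
  rw [Matrix.toLin'_apply]
  simp [M, Matrix.mulVec, dotProduct, Fin.sum_univ_three, dt]
  ring

end SLB_

open SLB_ in
theorem stmt_SLB (hDVS : Stmt_DVS) (hBND : Stmt_BND) : Stmt_SLB := by
  intro ι _ _ u hu
  refine ⟨?_, ?_⟩
  · intro h hpos i
    obtain ⟨hd, -⟩ := hDVS ι u hu
    have hhi : 0 < h i := hpos i
    -- the inequality for the volumes
    have hvol : ∀ τ : ℝ, 0 ≤ τ → (1 + τ / h i) * V u h ≤ V u (h + τ • (fun _ => (1 : ℝ))) := by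
      intro τ hτ
      have hc0 : 0 ≤ τ / h i := div_nonneg hτ hhi.le
      have hsub : (Matrix.toLin' (M (u i) (τ / h i))) '' (K u h) ⊆
          K u (h + τ • (fun _ => (1 : ℝ))) := by
        rintro _ ⟨x, hx, rfl⟩ j
        rw [M_apply]
        have h1 := hx j
        have h2 := hx i
        have h3 : |dt (u j) (u i)| ≤ 1 := abs_le_one _ _ (hu.unit j) (hu.unit i)
        have h4 : |τ / h i * dt (u i) x * dt (u j) (u i)| ≤ τ := by
          rw [abs_mul, abs_mul, abs_of_nonneg hc0]
          calc τ / h i * |dt (u i) x| * |dt (u j) (u i)|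
              ≤ τ / h i * h i * 1 := by gcongr
            _ = τ := by field_simp
        have h5 := abs_add_le (dt (u j) x) (τ / h i * dt (u i) x * dt (u j) (u i))
        simp only [Pi.add_apply, Pi.smul_apply, smul_eq_mul, mul_one]
        linarith
      have hfin : volume (K u (h + τ • (fun _ => (1 : ℝ)))) ≠ ⊤ :=
        ((hBND ι u hu).1 _).1.measure_lt_top.ne
      have hm := measure_mono (μ := (volume : Measure R3)) hsub
      rw [Measure.addHaar_image_linearMap, LinearMap.det_toLin', M_det _ _ (hu.unit i)] at hm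
      have hm2 := ENNReal.toReal_mono hfin hm
      rw [ENNReal.toReal_mul, ENNReal.toReal_ofReal (abs_nonneg _),
        abs_of_nonneg (by positivity)] at hm2
      exact hm2
    -- the derivative
    have hline : HasDerivAt (fun τ : ℝ => h + τ • (fun _ : ι => (1 : ℝ))) (fun _ : ι => (1 : ℝ)) 0 := by
      have := ((hasDerivAt_id (0 : ℝ)).smul_const (fun _ : ι => (1 : ℝ))).const_add h
      simpa using this
    have hF : HasFDerivAt (V u) (lin (S u h)) (h + (0 : ℝ) • (fun _ : ι => (1 : ℝ))) := by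
      rw [zero_smul, add_zero]
      exact hd h hpos
    have hder := hF.comp_hasDerivAt (0 : ℝ) hline
    have hval : (lin (S u h)) (fun _ : ι => (1 : ℝ)) = ∑ j, S u h j := by
      simp [lin]
    rw [hval] at hder
    -- g(τ) = V(h + τ 1) - (1 + τ/h i) V h ≥ 0 for τ ≥ 0, = 0 at 0, so the derivative is ≥ 0
    have hg : HasDerivAt (fun τ : ℝ => (V u ∘ fun τ : ℝ => h + τ • (fun _ : ι => (1 : ℝ))) τ -
        (1 + τ / h i) * V u h) ((∑ j, S u h j) - (1 / h i) * V u h) 0 := by
      refine hder.sub ?_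
      have : HasDerivAt (fun τ : ℝ => 1 + τ / h i) (1 / h i) 0 :=
        ((hasDerivAt_id (0 : ℝ)).div_const (h i)).const_add 1
      exact this.mul_const _
    have hge : 0 ≤ (∑ j, S u h j) - (1 / h i) * V u h := by
      have hs := hg.hasDerivWithinAt (s := Ioi (0 : ℝ))
      have hslope := hasDerivWithinAt_iff_tendsto_slope' (by simp) |>.1 hs
      refine ge_of_tendsto hslope ?_
      filter_upwards [self_mem_nhdsWithin] with τ hτ
      have hτ' : 0 < τ := hτ
      rw [slope_def_field]
      refine div_nonneg ?_ (by linarith)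
      have h1 := hvol τ hτ'.le
      simp only [Function.comp]
      simp only [zero_smul, add_zero, zero_div, one_mul, sub_self, sub_zero]
      linarith
    have : (1 / h i) * V u h ≤ ∑ j, S u h j := by linarith
    calc V u h = h i * ((1 / h i) * V u h) := by field_simp
      _ ≤ h i * ∑ j, S u h j := by gcongr
  · intro h ρ hρ hle
    have hfin : volume (K u h) ≠ ⊤ := ((hBND ι u hu).1 _).1.measure_lt_top.ne
    have hsub : Set.pi univ (fun _ : Fin 3 => Icc (-(ρ / 2)) (ρ / 2)) ⊆ K u h := by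
      intro x hx i
      have hx' : ∀ l, |x l| ≤ ρ / 2 := fun l => abs_le.2 (hx l (mem_univ l))
      have hsq : ∀ l, x l ^ 2 ≤ (ρ / 2) ^ 2 := fun l => by
        rw [← sq_abs (x l)]
        exact pow_le_pow_left₀ (abs_nonneg _) (hx' l) 2
      have h1 := cs (u i) x
      rw [hu.unit i, one_mul] at h1
      have h2 : dt x x ≤ ρ ^ 2 := by
        unfold dt
        nlinarith [hsq 0, hsq 1, hsq 2]
      have h3 : |dt (u i) x| ≤ ρ := abs_le_of_sq_le_sq (h1.trans h2) hρ.le
      exact h3.trans (hle i)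
    have hm := measure_mono (μ := (volume : Measure R3)) hsub
    have hm2 := ENNReal.toReal_mono hfin hm
    have hv : (volume (Set.pi univ (fun _ : Fin 3 => Icc (-(ρ / 2)) (ρ / 2)))).toReal = ρ ^ 3 := by
      rw [volume_pi_pi]
      simp only [Real.volume_Icc, Finset.prod_const, Finset.card_univ, Fintype.card_fin]
      rw [ENNReal.toReal_pow, ENNReal.toReal_ofReal (by linarith)]
      ring
    rw [hv] at hm2
    exact hm2

end Pool.T3
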