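import Pool.Agent.Work.MP_b5407d_t3.Interface

/-!
# Block `SQC`: the square root of `S` lies below its tangent
-/

set_option autoImplicit false

open MeasureTheory Set Filter Topology

namespace Pool.T3

namespace SQC_

/-- a concave function on a ball lies below its tangent at the centre -/
theorem tangent {g : ℝ → ℝ} {r g' : ℝ} (hg : ConcaveOn ℝ (Metric.ball (0 : ℝ) r) g)
    (hd : HasDerivAt g g' 0) (hr : 0 < r) {t : ℝ} (ht : t ∈ Metric.ball (0 : ℝ) r) :
    g t ≤ g 0 + t * g' := by
  have h0 : (0 : ℝ) ∈ Metric.ball (0 : ℝ) r := Metric.mem_ball_self hr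
  rcases lt_trichotomy t 0 with h | h | h
  · have h1 := hg.le_slope_of_hasDerivAt ht h0 h hd
    rw [slope_def_field, le_div_iff₀ (by linarith)] at h1
    nlinarith
  · subst h; simp
  · have h1 := hg.slope_le_of_hasDerivAt h0 ht h hd
    rw [slope_def_field, div_le_iff₀ (by linarith)] at h1
    nlinarith

end SQC_

theorem stmt_SQC (hBM2 : Stmt_BM2) (hDVS : Stmt_DVS) : Stmt_SQC := by
  intro ι _ _ u hu h hh f i hS
  obtain ⟨-, hdS, -, -, -, -⟩ := hDVS ι u hu
  have h0 : h + (0 : ℝ) • f = h := by simp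
  have hline : HasDerivAt (fun t : ℝ => h + t • f) f 0 := by
    have h1 := (((hasDerivAt_id (0 : ℝ)).smul_const f).const_add h)
    simpa using h1
  have hd : HasDerivAt (fun t : ℝ => S u (h + t • f) i) (∑ j, H u h i j * f j) 0 := by
    have h1 : HasFDerivAt (fun h => S u h i) (lin (H u h i)) (h + (0 : ℝ) • f) := by
      rw [h0]; exact hdS h hh i
    have h2 := h1.comp_hasDerivAt (0 : ℝ) hline
    have h3 : (lin (H u h i)) f = ∑ j, H u h i j * f j := by
      simp [lin]
    rw [h3] at h2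
    exact h2
  have hposev : ∀ᶠ t : ℝ in 𝓝 0, Pos (h + t • f) := by
    unfold Pos
    rw [eventually_all]
    intro j
    have hc : ContinuousAt (fun t : ℝ => (h + t • f) j) 0 := by
      simp only [Pi.add_apply, Pi.smul_apply, smul_eq_mul]
      fun_prop
    have h1 : 0 < (h + (0 : ℝ) • f) j := by rw [h0]; exact hh j
    exact hc.eventually (lt_mem_nhds h1)
  have hSev : ∀ᶠ t : ℝ in 𝓝 0, 0 < S u (h + t • f) i := by
    have h1 : 0 < S u (h + (0 : ℝ) • f) i := by rw [h0]; exact hS
    exact hd.continuousAt.eventually (lt_mem_nhds h1)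
  obtain ⟨r, hr, hball⟩ := Metric.eventually_nhds_iff_ball.1 (hposev.and hSev)
  have hconc : ConcaveOn ℝ (Metric.ball (0 : ℝ) r)
      (fun t : ℝ => Real.sqrt (S u (h + t • f) i)) := by
    refine ⟨convex_ball 0 r, ?_⟩
    intro x hx y hy a b ha hb hab
    have h1 := hBM2 ι u hu (h + x • f) (h + y • f) (hball x hx).1 (hball y hy).1 i
      (hball x hx).2 (hball y hy).2 b ⟨hb, by linarith⟩
    have ha' : a = 1 - b := by linarith
    subst ha'
    have e : (1 - b) • (h + x • f) + b • (h + y • f) = h + ((1 - b) • x + b • y) • f := by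
      ext j
      simp only [Pi.add_apply, Pi.smul_apply, smul_eq_mul]
      ring
    rw [e] at h1
    simpa only [smul_eq_mul] using h1
  have hs0 : 0 < Real.sqrt (S u h i) := Real.sqrt_pos.2 hS
  have hgd : HasDerivAt (fun t : ℝ => Real.sqrt (S u (h + t • f) i))
      ((∑ j, H u h i j * f j) / (2 * Real.sqrt (S u h i))) 0 := by
    have h1 := hd.sqrt (by rw [h0]; exact hS.ne')
    rw [h0] at h1
    exact h1
  filter_upwards [Metric.ball_mem_nhds (0 : ℝ) hr] with t ht
  have h1 := SQC_.tangent hconc hgd hr ht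
  simp only [h0] at h1
  have h2 : S u (h + t • f) i = Real.sqrt (S u (h + t • f) i) ^ 2 :=
    (Real.sq_sqrt (hball t ht).2.le).symm
  have h3 : Real.sqrt (S u h i) ^ 2 = S u h i := Real.sq_sqrt hS.le
  have h4 : Real.sqrt (S u (h + t • f) i) ^ 2 ≤
      (Real.sqrt (S u h i) +
        t * ((∑ j, H u h i j * f j) / (2 * Real.sqrt (S u h i)))) ^ 2 :=
    pow_le_pow_left₀ (Real.sqrt_nonneg _) h1 2
  rw [h2]
  refine h4.trans (le_of_eq ?_)
  rw [← h3]
  rw [Real.sqrt_sq hs0.le]
  field_simp
  ring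

end Pool.T3
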