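import Pool.Agent.Work.MP_b5407d_t3.Interface

/-!
# MP_b5407d_gt, theorem T3, block TCH (helper45)
-/

set_option autoImplicit false

open MeasureTheory Set Filter Topology

namespace Pool.T3

namespace TCH_

lemma dt_add (v x y : R3) : dt v (x + y) = dt v x + dt v y := by
  simp only [dt, Pi.add_apply]
  ring

lemma dt_smul (v x : R3) (c : ℝ) : dt v (c • x) = c * dt v x := by
  simp only [dt, Pi.smul_apply, smul_eq_mul]
  ring

/-- first claim -/
lemma touch {ι : Type} [Fintype ι] [DecidableEq ι] (hSF : Stmt_SF) (hCOO : Stmt_COO)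
    (u : ι → R3) (hu : Fam u) (h : ι → ℝ) (hh : Pos h) (i : ι) (hS : 0 < S u h i) :
    ∃ x ∈ K u h, dt (u i) x = h i := by
  by_contra hcon
  push Not at hcon
  obtain ⟨j, hij⟩ : ∃ j, i ≠ j := by
    obtain ⟨a, b, c, hab, -, -⟩ := hu.three
    by_cases hia : i = a
    · exact ⟨b, by rw [hia]; exact hab⟩
    · exact ⟨a, hia⟩
  have hcr := hCOO.2 ι u i j hu hij
  obtain ⟨-, hcoo⟩ := hCOO.1 ι u i j hcr
  have h1 := (hSF ι u hu i j hij h hh).2
  have h2 : ∫ β in (-h j)..(h j), Lam u i j (h i) β h = 0 := by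
    have h3 : ∀ β ∈ uIcc (-h j) (h j), Lam u i j (h i) β h = 0 := by
      intro β hβ
      rw [uIcc_of_le (by linarith [hh j])] at hβ
      unfold Lam
      have h4 : {c : ℝ | ∀ m, m ≠ i → m ≠ j →
          |dt (u m) (pt u i j (h i) β) + c * de (u i) (u j) (u m)| ≤ h m} = ∅ := by
        rw [Set.eq_empty_iff_forall_notMem]
        intro c hc
        obtain ⟨e1, e2, e3⟩ := hcoo (h i) β c
        refine hcon (pt u i j (h i) β + c • cr (u i) (u j)) ?_ e1
        intro m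
        by_cases hmi : m = i
        · rw [hmi, e1, abs_of_pos (hh i)]
        · by_cases hmj : m = j
          · rw [hmj, e2]
            exact abs_le.2 hβ
          · rw [e3 m]
            exact hc m hmi hmj
      rw [h4, measure_empty]
      rfl
    rw [intervalIntegral.integral_congr h3]
    simp
  rw [h1, h2] at hS
  simp at hS

/-- the matrix of the shear -/
noncomputable def Mt (ρ : ℝ) (x v : R3) : Matrix (Fin 3) (Fin 3) ℝ :=
  fun k l => (if k = l then 1 else 0) + 1 / ρ * x k * v l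

lemma Mt_det (ρ : ℝ) (x v : R3) : (Mt ρ x v).det = 1 + 1 / ρ * dt v x := by
  rw [Matrix.det_fin_three]
  simp only [Mt, dt]
  simp only [Fin.reduceEq, if_true, if_false]
  ring

lemma Mt_apply (ρ : ℝ) (x v y : R3) :
    Matrix.toLin' (Mt ρ x v) y = y + (1 / ρ * dt v y) • x := by
  funext k
  rw [Matrix.toLin'_apply]
  simp only [Matrix.mulVec, dotProduct, Fin.sum_univ_three, Mt, Pi.add_apply, Pi.smul_apply,
    smul_eq_mul, dt]
  fin_cases k <;> simp <;> ring

end TCH_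

open TCH_ in
theorem stmt_TCH (hSF : Stmt_SF) (hCOO : Stmt_COO) (hBND : Stmt_BND) : Stmt_TCH := by
  intro ι _ _ u hu
  refine ⟨fun h hh i hS => touch hSF hCOO u hu h hh i hS, ?_⟩
  intro h ρ hρ hle i hS
  have hh : Pos h := fun m => lt_of_lt_of_le hρ (hle m)
  obtain ⟨x, hx, hxi⟩ := touch hSF hCOO u hu h hh i hS
  set a : ℝ := 7 / 25 * ρ with ha
  have ha0 : 0 < a := by rw [ha]; positivity
  set C : Set R3 := Icc (fun _ => -a) (fun _ => a) with hC
  have hCS : ∀ y ∈ C, ∀ m, |dt (u m) y| ≤ ρ / 2 := by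
    intro y hy m
    have hb : ∀ k, y k ^ 2 ≤ a ^ 2 := by
      intro k
      have h1 : |y k| ≤ a := abs_le.2 ⟨hy.1 k, hy.2 k⟩
      exact sq_le_sq' (by linarith [(abs_le.1 h1).1]) (abs_le.1 h1).2
    have hun := hu.unit m
    have h2 : dt (u m) y ^ 2 ≤ (ρ / 2) ^ 2 := by
      have h3 : dt (u m) y ^ 2 ≤ dt (u m) (u m) * (y 0 ^ 2 + y 1 ^ 2 + y 2 ^ 2) := by
        simp only [dt]
        nlinarith [sq_nonneg (u m 0 * y 1 - u m 1 * y 0), sq_nonneg (u m 0 * y 2 - u m 2 * y 0),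
          sq_nonneg (u m 1 * y 2 - u m 2 * y 1)]
      rw [hun, one_mul] at h3
      have h4 : y 0 ^ 2 + y 1 ^ 2 + y 2 ^ 2 ≤ 3 * a ^ 2 := by linarith [hb 0, hb 1, hb 2]
      have h5 : 3 * a ^ 2 ≤ (ρ / 2) ^ 2 := by
        rw [ha]
        nlinarith [sq_nonneg ρ]
      linarith
    exact abs_le_of_sq_le_sq h2 (by positivity)
  have hsub : (Matrix.toLin' (Mt ρ x (u i))) '' C ⊆ K u h := by
    rintro _ ⟨y, hy, rfl⟩ m
    rw [Mt_apply, dt_add, dt_smul]
    have h1 := hCS y hy m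
    have h2 := hCS y hy i
    have h3 : |dt (u m) x| ≤ h m := hx m
    have h4 : |1 / ρ * dt (u i) y| ≤ 1 / 2 := by
      rw [abs_mul, abs_of_pos (by positivity : (0 : ℝ) < 1 / ρ)]
      calc 1 / ρ * |dt (u i) y| ≤ 1 / ρ * (ρ / 2) := by gcongr
        _ = 1 / 2 := by field_simp
    calc |dt (u m) y + 1 / ρ * dt (u i) y * dt (u m) x|
        ≤ |dt (u m) y| + |1 / ρ * dt (u i) y * dt (u m) x| := abs_add_le _ _
      _ = |dt (u m) y| + |1 / ρ * dt (u i) y| * |dt (u m) x| := by rw [abs_mul (1 / ρ * dt (u i) y)]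
      _ ≤ ρ / 2 + 1 / 2 * h m := by gcongr
      _ ≤ h m := by linarith [hle m]
  have hfin : volume (K u h) ≠ ⊤ := ((hBND ι u hu).1 h).1.measure_lt_top.ne
  have hmono := ENNReal.toReal_mono hfin (measure_mono hsub)
  rw [Measure.addHaar_image_linearMap, LinearMap.det_toLin', Mt_det, hxi, hC,
    Real.volume_Icc_pi] at hmono
  have hhi := hh i
  have hdet : |1 + 1 / ρ * h i| = 1 + 1 / ρ * h i := abs_of_pos (by positivity)
  rw [hdet, ENNReal.toReal_mul, ENNReal.toReal_ofReal (by positivity), ENNReal.toReal_prod] at hmono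
  simp only [Fin.prod_univ_three] at hmono
  rw [ENNReal.toReal_ofReal (by linarith)] at hmono
  have hV : (volume (K u h)).toReal = V u h := rfl
  rw [hV] at hmono
  have e1 : (1 + 1 / ρ * h i) * ((a - -a) * (a - -a) * (a - -a)) =
      (1 + 1 / ρ * h i) * (14 / 25 * ρ) ^ 3 := by
    rw [ha]
    ring
  rw [e1] at hmono
  have e2 : (1 + 1 / ρ * h i) * (14 / 25 * ρ) ^ 3 =
      (14 / 25) ^ 3 * ρ ^ 3 + (14 / 25) ^ 3 * (h i * ρ ^ 2) := by
    field_simp
  rw [e2] at hmono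
  have e3 : 0 < ρ ^ 3 := by positivity
  have e4 : 0 < h i * ρ ^ 2 := by positivity
  nlinarith

end Pool.T3
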