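import Pool.Agent.Work.MP_b5407d_t3.Interface

/-!
# MP_b5407d_gt, T3: block VA1 (helper9)

A face of area zero is at most one point.
-/

set_option autoImplicit false

open MeasureTheory Set Filter Topology

namespace Pool.T3

namespace VA1_

theorem vec_ext {a b : R3} (h0 : a 0 = b 0) (h1 : a 1 = b 1) (h2 : a 2 = b 2) : a = b := by
  funext k
  fin_cases k
  · exact h0
  · exact h1
  · exact h2

/-- Cramer -/
theorem zero_of_three {a b c d : R3} (h : de a b c ≠ 0) (ha : dt a d = 0) (hb : dt b d = 0)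
    (hc : dt c d = 0) : d = 0 := by
  have e : ∀ k, de a b c * d k = dt a d * cr b c k + dt b d * cr c a k + dt c d * cr a b k := by
    intro k
    fin_cases k
    · simp [de, dt, cr]
      ring
    · simp [de, dt, cr]
      ring
    · simp [de, dt, cr]
      ring
  funext k
  have ek := e k
  rw [ha, hb, hc] at ek
  have h0 : de a b c * d k = 0 := by
    rw [ek]
    ring
  rcases mul_eq_zero.mp h0 with h1 | h1
  · exact absurd h1 h
  · exact h1

theorem dt_sub (a x y : R3) : dt a (x - y) = dt a x - dt a y := by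
  simp [dt]
  ring

theorem dt_half (a x y : R3) : dt a ((1 / 2 : ℝ) • (x + y)) = (dt a x + dt a y) / 2 := by
  simp [dt]
  ring

theorem dt_cr_left (a b : R3) : dt a (cr a b) = 0 := by
  simp [dt, cr]
  ring

theorem dt_cr_right (a b : R3) : dt b (cr a b) = 0 := by
  simp [dt, cr]
  ring

theorem cr_ne {a b c : R3} (h : de a b c ≠ 0) : cr a b ≠ 0 := by
  intro h0
  apply h
  rw [de, h0]
  simp [dt]

theorem dt_self_pos {t : R3} (h : t ≠ 0) : 0 < dt t t := by
  have h1 : 0 ≤ dt t t := by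
    unfold dt
    have a0 := mul_self_nonneg (t 0)
    have a1 := mul_self_nonneg (t 1)
    have a2 := mul_self_nonneg (t 2)
    linarith
  rcases h1.lt_or_eq with h2 | h2
  · exact h2
  · exfalso
    apply h
    unfold dt at h2
    have a0 : t 0 = 0 := by nlinarith [sq_nonneg (t 0), sq_nonneg (t 1), sq_nonneg (t 2)]
    have a1 : t 1 = 0 := by nlinarith [sq_nonneg (t 0), sq_nonneg (t 1), sq_nonneg (t 2)]
    have a2 : t 2 = 0 := by nlinarith [sq_nonneg (t 0), sq_nonneg (t 1), sq_nonneg (t 2)]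
    exact vec_ext a0 a1 a2

/-- the coordinates of a point -/
theorem coord {ι : Type} (u : ι → R3) (i j : ι) (hne : cr (u i) (u j) ≠ 0)
    (hcoo : ∀ α β c : ℝ, dt (u i) (pt u i j α β + c • cr (u i) (u j)) = α ∧
      dt (u j) (pt u i j α β + c • cr (u i) (u j)) = β) (z : R3) :
    z = pt u i j (dt (u i) z) (dt (u j) z) +
      (dt (cr (u i) (u j)) z / dt (cr (u i) (u j)) (cr (u i) (u j))) • cr (u i) (u j) := by
  set t := cr (u i) (u j) with ht
  have hpos := dt_self_pos hne
  set c := dt t z / dt t t with hc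
  obtain ⟨h1, h2⟩ := hcoo (dt (u i) z) (dt (u j) z) c
  have hpt : dt t (pt u i j (dt (u i) z) (dt (u j) z)) = 0 := by
    rw [pt, ← ht]
    simp [dt, cr]
    ring
  have h3 : dt t (pt u i j (dt (u i) z) (dt (u j) z) + c • t) = dt t z := by
    have e1 : dt t (pt u i j (dt (u i) z) (dt (u j) z) + c • t)
        = dt t (pt u i j (dt (u i) z) (dt (u j) z)) + c * dt t t := by
      simp [dt]
      ring
    rw [e1, hpt, hc, zero_add, div_mul_cancel₀ _ hpos.ne']
  have hde : de (u i) (u j) t ≠ 0 := by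
    rw [de, ← ht]
    exact hpos.ne'
  have h4 := zero_of_three (d := z - (pt u i j (dt (u i) z) (dt (u j) z) + c • t)) hde
    (by rw [dt_sub, h1, sub_self]) (by rw [dt_sub, h2, sub_self])
    (by rw [dt_sub, h3, sub_self])
  exact sub_eq_zero.mp h4

/-- a strictly interior point of the chord gives a positive length -/
theorem chord_pos {ι : Type} [Fintype ι] [DecidableEq ι] (hLAMF : Stmt_LAMF) (u : ι → R3)
    (hu : Fam u) (i j : ι) (hij : i ≠ j) (α β c0 : ℝ) (h : ι → ℝ)
    (H : ∀ m, m ≠ i → m ≠ j → |dt (u m) (pt u i j α β) + c0 * de (u i) (u j) (u m)| < h m) :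
    0 < Lam u i j α β h := by
  obtain ⟨hne, hlam⟩ := hLAMF ι u hu i j hij
  rw [hlam hne]
  refine lt_max_of_lt_right ?_
  have hb : ∀ m ∈ oth i j, mid u i j α β m - rad u i j h m < c0 ∧
      c0 < mid u i j α β m + rad u i j h m := by
    intro m hm
    rw [oth, Finset.mem_filter] at hm
    obtain ⟨_, hmi, hmj⟩ := hm
    have hD : de (u i) (u j) (u m) ≠ 0 := hu.ind i j m hij (Ne.symm hmi) (Ne.symm hmj)
    have h1 := H m hmi hmj
    rw [mid, rad]
    generalize dt (u m) (pt u i j α β) = A at h1 ⊢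
    generalize de (u i) (u j) (u m) = D at h1 hD ⊢
    have hDp : 0 < |D| := abs_pos.mpr hD
    have h4 : |c0 + A / D| < h m / |D| := by
      rw [lt_div_iff₀ hDp, ← abs_mul]
      have h5 : (c0 + A / D) * D = A + c0 * D := by
        field_simp
        ring
      rw [h5]
      exact h1
    have h6 := abs_lt.mp h4
    constructor
    · linarith [h6.1, h6.2]
    · linarith [h6.1, h6.2]
  have h7 : (oth i j).sup' hne (fun m => mid u i j α β m - rad u i j h m) < c0 :=
    (Finset.sup'_lt_iff hne).mpr fun m hm => (hb m hm).1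
  have h8 : c0 < (oth i j).inf' hne (fun m => mid u i j α β m + rad u i j h m) :=
    (Finset.lt_inf'_iff hne).mpr fun m hm => (hb m hm).2
  linarith

/-- a positive chord gives a positive area -/
theorem area_pos {ι : Type} [Fintype ι] [DecidableEq ι] (hSF : Stmt_SF) (hLAMC : Stmt_LAMC)
    (u : ι → R3) (hu : Fam u) (i j : ι) (hij : i ≠ j) (h : ι → ℝ) (hpos : Pos h) (β0 : ℝ)
    (hβ : |β0| ≤ h j) (hL : 0 < Lam u i j (h i) β0 h) : 0 < S u h i := by
  have hC := hLAMC ι u hu i j hij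
  have hcont := hC.1
  have hnn := hC.2.1
  have hSeq := (hSF ι u hu i j hij h hpos).2
  have hcβ : Continuous (fun β : ℝ => Lam u i j (h i) β h) := by
    have h1 : Continuous (fun β : ℝ => ((h i, β, h) : ℝ × ℝ × (ι → ℝ))) := by fun_prop
    have h2 := hcont.comp h1
    simp only [Function.comp_def] at h2
    exact h2
  have hjp := hpos j
  have hint : 0 < ∫ β in (-h j)..(h j), Lam u i j (h i) β h :=
    intervalIntegral.integral_pos (by linarith) hcβ.continuousOn
      (fun β _ => hnn (h i) β h) ⟨β0, abs_le.mp hβ, hL⟩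
  rw [hSeq]
  linarith

/-- choice of the second index -/
theorem choose_j {ι : Type} (u : ι → R3) (hu : Fam u) (h : ι → ℝ) (i : ι) (x y : R3)
    (hx : x ∈ K u h) (hy : y ∈ K u h) (hxi : dt (u i) x = h i) (hyi : dt (u i) y = h i)
    (hxy : x ≠ y) :
    ∃ j, i ≠ j ∧ ∀ m, m ≠ i → m ≠ j → |dt (u m) ((1 / 2 : ℝ) • (x + y))| < h m := by
  have hzle : ∀ m, |dt (u m) ((1 / 2 : ℝ) • (x + y))| ≤ h m := by
    intro m
    have h1 := abs_le.mp (hx m)
    have h2 := abs_le.mp (hy m)
    rw [dt_half, abs_le]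
    constructor <;> linarith [h1.1, h1.2, h2.1, h2.2]
  have hact : ∀ m, |dt (u m) ((1 / 2 : ℝ) • (x + y))| = h m → dt (u m) (x - y) = 0 := by
    intro m hm
    have h1 := abs_le.mp (hx m)
    have h2 := abs_le.mp (hy m)
    rw [dt_half] at hm
    rw [dt_sub]
    rcases abs_choice ((dt (u m) x + dt (u m) y) / 2) with h3 | h3
    · rw [h3] at hm
      linarith [h1.1, h1.2, h2.1, h2.2]
    · rw [h3] at hm
      linarith [h1.1, h1.2, h2.1, h2.2]
  have hdi : dt (u i) (x - y) = 0 := by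
    rw [dt_sub, hxi, hyi]
    ring
  have hd : x - y ≠ 0 := sub_ne_zero.mpr hxy
  by_cases hex : ∃ m, m ≠ i ∧ |dt (u m) ((1 / 2 : ℝ) • (x + y))| = h m
  · obtain ⟨m0, hm0, hm1⟩ := hex
    refine ⟨m0, hm0.symm, ?_⟩
    intro m hmi hmm
    refine lt_of_le_of_ne (hzle m) ?_
    intro hm2
    apply hd
    exact zero_of_three (hu.ind i m0 m hm0.symm (Ne.symm hmi) (Ne.symm hmm)) hdi
      (hact m0 hm1) (hact m hm2)
  · have hex' : ∀ m, m ≠ i → |dt (u m) ((1 / 2 : ℝ) • (x + y))| ≠ h m := by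
      intro m hmi he
      exact hex ⟨m, hmi, he⟩
    obtain ⟨a, b, c, hab, hac, hbc⟩ := hu.three
    have hj : ∃ j, i ≠ j := by
      by_cases hia : i = a
      · exact ⟨b, fun h => hab (hia.symm.trans h)⟩
      · exact ⟨a, hia⟩
    obtain ⟨j, hj⟩ := hj
    exact ⟨j, hj, fun m hmi _ => lt_of_le_of_ne (hzle m) (hex' m hmi)⟩

end VA1_

open VA1_ in
theorem stmt_VA1 (hSF : Stmt_SF) (hCOO : Stmt_COO) (hLAMF : Stmt_LAMF) (hLAMC : Stmt_LAMC) :
    Stmt_VA1 := by
  intro ι _ _ u hu h hpos i hS x hx y hy hxi hyi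
  by_contra hxy
  obtain ⟨j, hij, hj⟩ := choose_j u hu h i x y hx hy hxi hyi hxy
  have hcr : cr (u i) (u j) ≠ 0 := hCOO.2 ι u i j hu hij
  have hcoo := (hCOO.1 ι u i j hcr).2
  have h1 := coord u i j hcr (fun α β c => ⟨(hcoo α β c).1, (hcoo α β c).2.1⟩)
    ((1 / 2 : ℝ) • (x + y))
  have hzi : dt (u i) ((1 / 2 : ℝ) • (x + y)) = h i := by
    rw [dt_half, hxi, hyi]
    ring
  have hzj : |dt (u j) ((1 / 2 : ℝ) • (x + y))| ≤ h j := by
    have h1 := abs_le.mp (hx j)
    have h2 := abs_le.mp (hy j)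
    rw [dt_half, abs_le]
    constructor <;> linarith [h1.1, h1.2, h2.1, h2.2]
  generalize (1 / 2 : ℝ) • (x + y) = z at hj h1 hzi hzj
  rw [hzi] at h1
  have hL : 0 < Lam u i j (h i) (dt (u j) z) h := by
    refine chord_pos hLAMF u hu i j hij (h i) (dt (u j) z)
      (dt (cr (u i) (u j)) z / dt (cr (u i) (u j)) (cr (u i) (u j))) h ?_
    intro m hmi hmj
    have h2 := hj m hmi hmj
    have h3 := (hcoo (h i) (dt (u j) z)
      (dt (cr (u i) (u j)) z / dt (cr (u i) (u j)) (cr (u i) (u j)))).2.2 m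
    rw [← h1] at h3
    rw [← h3]
    exact h2
  have hS2 := area_pos hSF hLAMC u hu i j hij h hpos _ hzj hL
  linarith

end Pool.T3
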