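import Pool.Agent.Work.MP_b5407d_t3.Interface

/-!
# MP_b5407d_gt, T3: block VA2 (helper9)

Faces of nearby bodies are close to a face of area zero.
-/

set_option autoImplicit false

open MeasureTheory Set Filter Topology

namespace Pool.T3

namespace VA2_

theorem cont_dt (a : R3) : Continuous (fun x : R3 => dt a x) := by
  unfold dt
  fun_prop

/-- limits of points in the faces -/
theorem lim_point {ι : Type} [Fintype ι] (hBND : Stmt_BND) (u : ι → R3) (hu : Fam u)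
    (h : ι → ℝ) (i : ι) (v : R3) (η : ℝ)
    (hf : ∃ᶠ h' in 𝓝 h, ∃ x ∈ K u h', dt (u i) x = h' i ∧ η ≤ ‖x - v‖) :
    ∃ x ∈ K u h, dt (u i) x = h i ∧ η ≤ ‖x - v‖ := by
  obtain ⟨C, hC, hb⟩ := (hBND ι u hu).2
  set M : ℝ := ‖h‖ + 1 with hM
  have hev : ∀ᶠ h' in 𝓝 h, ∀ k, h' k ≤ M := by
    have h1 : ∀ᶠ h' in 𝓝 h, ‖h' - h‖ < 1 := by
      have h2 : Tendsto (fun h' : ι → ℝ => ‖h' - h‖) (𝓝 h) (𝓝 0) := by
        have h3 : Continuous (fun h' : ι → ℝ => ‖h' - h‖) := by fun_prop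
        have h4 := h3.tendsto h
        simpa using h4
      exact h2.eventually (gt_mem_nhds one_pos)
    filter_upwards [h1] with h' h1 k
    have h2 : |(h' - h) k| ≤ ‖h' - h‖ := by
      rw [← Real.norm_eq_abs]
      exact norm_le_pi_norm (h' - h) k
    have h3 : |h k| ≤ ‖h‖ := by
      rw [← Real.norm_eq_abs]
      exact norm_le_pi_norm h k
    rw [Pi.sub_apply] at h2
    have h4 := (abs_le.mp h2).2
    have h5 := (abs_le.mp h3).2
    linarith
  obtain ⟨hn, hlim, hP⟩ := exists_seq_forall_of_frequently (hf.and_eventually hev)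
  choose xn hxK hxi using fun n => (hP n).1
  have hbd : ∀ n, xn n ∈ Metric.closedBall (0 : R3) (C * M) := by
    intro n
    rw [mem_closedBall_zero_iff]
    refine (pi_norm_le_iff_of_nonneg (by positivity)).mpr ?_
    intro l
    rw [Real.norm_eq_abs]
    exact hb (hn n) M (hP n).2 (xn n) (hxK n) l
  obtain ⟨x, _, φ, hφ, hx⟩ := (isCompact_closedBall (0 : R3) (C * M)).tendsto_subseq hbd
  have hlim2 : Tendsto (hn ∘ φ) atTop (𝓝 h) := hlim.comp hφ.tendsto_atTop
  refine ⟨x, ?_, ?_, ?_⟩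
  · intro m
    have h1 : Tendsto (fun n => |dt (u m) ((xn ∘ φ) n)|) atTop (𝓝 |dt (u m) x|) :=
      (((cont_dt (u m)).tendsto x).comp hx).abs
    have h2 : Tendsto (fun n => (hn ∘ φ) n m) atTop (𝓝 (h m)) :=
      ((continuous_apply m).tendsto h).comp hlim2
    exact le_of_tendsto_of_tendsto' h1 h2 (fun n => hxK (φ n) m)
  · have h1 : Tendsto (fun n => dt (u i) ((xn ∘ φ) n)) atTop (𝓝 (dt (u i) x)) :=
      ((cont_dt (u i)).tendsto x).comp hx
    have h2 : Tendsto (fun n => (hn ∘ φ) n i) atTop (𝓝 (h i)) :=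
      ((continuous_apply i).tendsto h).comp hlim2
    have h3 : (fun n => dt (u i) ((xn ∘ φ) n)) = fun n => (hn ∘ φ) n i := by
      funext n
      exact (hxi (φ n)).1
    rw [h3] at h1
    exact tendsto_nhds_unique h1 h2
  · have h1 : Tendsto (fun n => ‖(xn ∘ φ) n - v‖) atTop (𝓝 ‖x - v‖) :=
      (hx.sub_const v).norm
    exact ge_of_tendsto' h1 (fun n => (hxi (φ n)).2)

end VA2_

open VA2_ in
theorem stmt_VA2 (hBND : Stmt_BND) (hVA1 : Stmt_VA1) : Stmt_VA2 := by
  intro ι _ _ u hu h hpos i hS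
  refine ⟨?_, ?_⟩
  · intro v hv hvi η hη
    by_contra hcon
    rw [not_eventually] at hcon
    have hf : ∃ᶠ h' in 𝓝 h, ∃ x ∈ K u h', dt (u i) x = h' i ∧ η ≤ ‖x - v‖ := by
      refine hcon.mono ?_
      intro h' h1
      by_contra h2
      apply h1
      intro x hx hxi k
      have h3 : ¬ η ≤ ‖x - v‖ := fun h4 => h2 ⟨x, hx, hxi, h4⟩
      have h4 : ‖(x - v) k‖ ≤ ‖x - v‖ := norm_le_pi_norm (x - v) k
      rw [Real.norm_eq_abs, Pi.sub_apply] at h4
      exact lt_of_le_of_lt h4 (not_le.mp h3)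
    obtain ⟨x, hx, hxi, hxv⟩ := lim_point hBND u hu h i v η hf
    have h5 := hVA1 ι u hu h hpos i hS x hx v hv hxi hvi
    rw [h5, sub_self, norm_zero] at hxv
    linarith
  · intro hno
    by_contra hcon
    rw [not_eventually] at hcon
    have hf : ∃ᶠ h' in 𝓝 h, ∃ x ∈ K u h', dt (u i) x = h' i ∧ (0 : ℝ) ≤ ‖x - 0‖ := by
      refine hcon.mono ?_
      intro h' h1
      by_contra h2
      apply h1
      intro x hx hxi
      exact h2 ⟨x, hx, hxi, norm_nonneg _⟩
    obtain ⟨x, hx, hxi, _⟩ := lim_point hBND u hu h i 0 0 hf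
    exact hno x hx hxi

end Pool.T3
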