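import Pool.Agent.Work.MP_b5407d_t3.Interface

/-!
# MP_b5407d_t3, block VA3: translation of a vanishing facet
-/

set_option autoImplicit false

open MeasureTheory Set Filter Topology

namespace Pool.T3

namespace VA3_

theorem unit_le {a : R3} (h : dt a a = 1) (k : Fin 3) : |a k| ≤ 1 := by
  unfold dt at h
  have h0 := mul_self_nonneg (a 0)
  have h1 := mul_self_nonneg (a 1)
  have h2 := mul_self_nonneg (a 2)
  rw [← sq_le_one_iff_abs_le_one]
  fin_cases k
  · show a 0 ^ 2 ≤ 1
    nlinarith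
  · show a 1 ^ 2 ≤ 1
    nlinarith
  · show a 2 ^ 2 ≤ 1
    nlinarith

theorem dt_close {a x v : R3} (ha : dt a a = 1) {η : ℝ} (h : ∀ k, |x k - v k| < η) :
    |dt a x - dt a v| ≤ 3 * η := by
  have e : dt a x - dt a v = a 0 * (x 0 - v 0) + a 1 * (x 1 - v 1) + a 2 * (x 2 - v 2) := by
    unfold dt
    ring
  have hk : ∀ k, |a k * (x k - v k)| ≤ η := by
    intro k
    rw [abs_mul]
    calc |a k| * |x k - v k| ≤ 1 * |x k - v k| :=
          mul_le_mul_of_nonneg_right (unit_le ha k) (abs_nonneg _)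
      _ ≤ η := by
          rw [one_mul]
          exact (h k).le
  rw [e]
  have h1 := abs_add_le (a 0 * (x 0 - v 0) + a 1 * (x 1 - v 1)) (a 2 * (x 2 - v 2))
  have h2 := abs_add_le (a 0 * (x 0 - v 0)) (a 1 * (x 1 - v 1))
  linarith [hk 0, hk 1, hk 2]

theorem dt_self_ne {w : R3} (hw : w ≠ 0) : dt w w ≠ 0 := by
  intro h
  apply hw
  unfold dt at h
  have h0 := mul_self_nonneg (w 0)
  have h1 := mul_self_nonneg (w 1)
  have h2 := mul_self_nonneg (w 2)
  funext k
  fin_cases k
  · show w 0 = 0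
    exact mul_self_eq_zero.1 (by linarith)
  · show w 1 = 0
    exact mul_self_eq_zero.1 (by linarith)
  · show w 2 = 0
    exact mul_self_eq_zero.1 (by linarith)

theorem dt_add (a x y : R3) (t : ℝ) : dt a (x + t • y) = dt a x + t * dt a y := by
  unfold dt
  simp only [Pi.add_apply, Pi.smul_apply, smul_eq_mul]
  ring

theorem rec {ι : Type} (u : ι → R3) (i j : ι) (hw : cr (u i) (u j) ≠ 0) (v : R3) :
    v = pt u i j (dt (u i) v) (dt (u j) v) +
      (dt (cr (u i) (u j)) v / dt (cr (u i) (u j)) (cr (u i) (u j))) • cr (u i) (u j) := by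
  have hn := dt_self_ne hw
  have key : ∀ k, dt (cr (u i) (u j)) (cr (u i) (u j)) * v k =
      (dt (u i) v * cr (u j) (cr (u i) (u j)) k + dt (u j) v * cr (cr (u i) (u j)) (u i) k) +
        dt (cr (u i) (u j)) v * cr (u i) (u j) k := by
    intro k
    fin_cases k <;> simp [cr, dt] <;> ring
  funext k
  simp only [pt, Pi.add_apply, Pi.smul_apply, smul_eq_mul]
  have := key k
  field_simp
  linarith

theorem pt_lin {ι : Type} (u : ι → R3) (i j : ι) (α β α' β' t : ℝ) :
    pt u i j (α + t * α') (β + t * β') = pt u i j α β + t • pt u i j α' β' := by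
  funext k
  simp only [pt, Pi.add_apply, Pi.smul_apply, smul_eq_mul]
  ring

/-- Translation in the coordinates. -/
theorem transl {ι : Type} (u : ι → R3) (i j : ι) (hw : cr (u i) (u j) ≠ 0) (v : R3)
    (α β c t : ℝ) :
    pt u i j α β + c • cr (u i) (u j) + t • v =
      pt u i j (α + t * dt (u i) v) (β + t * dt (u j) v) +
        (c + t * (dt (cr (u i) (u j)) v / dt (cr (u i) (u j)) (cr (u i) (u j)))) •
          cr (u i) (u j) := by
  rw [pt_lin]
  conv_lhs => rw [rec u i j hw v]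
  rw [smul_add, add_smul, smul_smul]
  abel

/-- The elementary inequality. -/
theorem elem {y b t Hh : ℝ} (h1 : |y| ≤ Hh) (h2 : |y - b| ≤ Hh / 2) (h3 : 2 * |t| * |b| ≤ Hh / 2) :
    |y + t * b| ≤ Hh + t * |b| := by
  have h1' := abs_le.1 h1
  have h2' := abs_le.1 h2
  have h4 : |t * b| ≤ Hh / 4 := by
    rw [abs_mul]
    linarith
  have h4' := abs_le.1 h4
  rcases le_or_gt 0 b with hb | hb
  · rw [abs_of_nonneg hb, abs_le]
    constructor
    · linarith
    · linarith
  · rw [abs_of_neg hb, abs_le]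
    constructor
    · linarith
    · linarith

/-- Length of the chords of the body. -/
noncomputable def G {ι : Type} (u : ι → R3) (i j : ι) (h : ι → ℝ) (β : ℝ) : ℝ :=
  (volume {c : ℝ | pt u i j (h i) β + c • cr (u i) (u j) ∈ K u h}).toReal

theorem G_in {ι : Type} [Fintype ι] (hCOO : Stmt_COO) {u : ι → R3} (hu : Fam u) {i j : ι}
    (hij : i ≠ j) {h : ι → ℝ} (hp : Pos h) {β : ℝ} (hβ : |β| ≤ h j) :
    G u i j h β = Lam u i j (h i) β h := by
  have hw := hCOO.2 ι u i j hu hij
  have hc := (hCOO.1 ι u i j hw).2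
  unfold G Lam
  congr 2
  ext c
  obtain ⟨e1, e2, e3⟩ := hc (h i) β c
  simp only [mem_ofPred_eq, K]
  constructor
  · intro hx m _ _
    rw [← e3]
    exact hx m
  · intro hx m
    by_cases hmi : m = i
    · rw [hmi, e1, abs_of_pos (hp i)]
    · by_cases hmj : m = j
      · rw [hmj, e2]
        exact hβ
      · rw [e3]
        exact hx m hmi hmj

theorem G_out {ι : Type} [Fintype ι] (hCOO : Stmt_COO) {u : ι → R3} (hu : Fam u) {i j : ι}
    (hij : i ≠ j) {h : ι → ℝ} {β : ℝ} (hβ : h j < |β|) : G u i j h β = 0 := by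
  have hw := hCOO.2 ι u i j hu hij
  have hc := (hCOO.1 ι u i j hw).2
  have : {c : ℝ | pt u i j (h i) β + c • cr (u i) (u j) ∈ K u h} = ∅ := by
    ext c
    simp only [mem_ofPred_eq, K, mem_empty_iff_false, iff_false, not_forall, not_le]
    refine ⟨j, ?_⟩
    rw [(hc (h i) β c).2.1]
    exact hβ
  unfold G
  rw [this]
  simp

theorem S_eq {ι : Type} [Fintype ι] [DecidableEq ι] (hCOO : Stmt_COO) (hSF : Stmt_SF)
    {u : ι → R3} (hu : Fam u) {i j : ι} (hij : i ≠ j) {h : ι → ℝ} (hp : Pos h) :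
    S u h i = 2 * ∫ β, G u i j h β := by
  rw [(hSF ι u hu i j hij h hp).2]
  congr 1
  have hj := hp j
  rw [intervalIntegral.integral_of_le (by linarith), ← integral_Icc_eq_integral_Ioc,
    ← integral_indicator measurableSet_Icc]
  refine integral_congr_ae (Eventually.of_forall fun β => ?_)
  by_cases hβ : β ∈ Icc (-h j) (h j)
  · simp only [indicator_of_mem hβ]
    rw [G_in hCOO hu hij hp (abs_le.2 hβ)]
  · simp only [indicator_of_notMem hβ]
    rw [G_out hCOO hu hij]
    by_contra hn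
    exact hβ (abs_le.1 (not_lt.1 hn))

/-- All points of the face of `K u h` are close to `v`. -/
def Cl {ι : Type} (u : ι → R3) (i : ι) (v : R3) (h : ι → ℝ) : Prop :=
  Pos h ∧ ∀ x ∈ K u h, dt (u i) x = h i → ∀ j, |dt (u j) x - dt (u j) v| ≤ h j / 2

theorem shift_mem {ι : Type} {u : ι → R3} {i : ι} {v : R3} {h : ι → ℝ} (hc : Cl u i v h) {t : ℝ}
    (ht : ∀ j, 2 * |t| * |dt (u j) v| ≤ h j / 2) {x : R3} (hx : x ∈ K u h) (hxi : dt (u i) x = h i) :
    x + t • v ∈ K u (h + t • fun j => |dt (u j) v|) := by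
  intro j
  rw [dt_add]
  simp only [Pi.add_apply, Pi.smul_apply, smul_eq_mul]
  exact elem (hx j) (hc.2 x hx hxi j) (ht j)

theorem G_shift {ι : Type} [Fintype ι] (hCOO : Stmt_COO) {u : ι → R3} (hu : Fam u) {i j : ι}
    (hij : i ≠ j) {v : R3} {h h2 : ι → ℝ} {t : ℝ} (hiv : 0 ≤ dt (u i) v)
    (he : h2 = h + t • fun j => |dt (u j) v|) (hc : Cl u i v h) (hc2 : Cl u i v h2)
    (ht : ∀ j, 2 * |t| * |dt (u j) v| ≤ h j / 2) (ht2 : ∀ j, 2 * |t| * |dt (u j) v| ≤ h2 j / 2)
    (β : ℝ) : G u i j h2 (β + t * dt (u j) v) = G u i j h β := by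
  have hw := hCOO.2 ι u i j hu hij
  have hcc := (hCOO.1 ι u i j hw).2
  set q := dt (cr (u i) (u j)) v / dt (cr (u i) (u j)) (cr (u i) (u j)) with hq
  have h2i : h2 i = h i + t * dt (u i) v := by
    rw [he]
    simp only [Pi.add_apply, Pi.smul_apply, smul_eq_mul]
    rw [abs_of_nonneg hiv]
  have hset : {c : ℝ | pt u i j (h2 i) (β + t * dt (u j) v) + c • cr (u i) (u j) ∈ K u h2}
      = (fun c => c + (-(t * q))) ⁻¹' {c : ℝ | pt u i j (h i) β + c • cr (u i) (u j) ∈ K u h} := by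
    ext c
    simp only [mem_ofPred_eq, mem_preimage]
    set x := pt u i j (h i) β + (c + (-(t * q))) • cr (u i) (u j) with hx
    have hy : pt u i j (h2 i) (β + t * dt (u j) v) + c • cr (u i) (u j) = x + t • v := by
      rw [hx, transl u i j hw, h2i, ← hq]
      congr 2
      ring
    rw [hy]
    have hxi : dt (u i) x = h i := (hcc (h i) β _).1
    constructor
    · intro hk
      have hyi : dt (u i) (x + t • v) = h2 i := by
        rw [dt_add, hxi, h2i]
      have := shift_mem hc2 (t := -t) (by simpa using ht2) hk hyi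
      have e1 : x + t • v + (-t) • v = x := by
        rw [neg_smul]
        abel
      have e2 : h2 + (-t) • (fun j => |dt (u j) v|) = h := by
        rw [he, neg_smul]
        abel
      rwa [e1, e2] at this
    · intro hk
      rw [he]
      exact shift_mem hc ht hk hxi
  unfold G
  rw [hset, measure_preimage_add_right]

theorem S_shift {ι : Type} [Fintype ι] [DecidableEq ι] (hCOO : Stmt_COO) (hSF : Stmt_SF)
    {u : ι → R3} (hu : Fam u) {i : ι} {v : R3} {h h2 : ι → ℝ} {t : ℝ} (hiv : 0 ≤ dt (u i) v)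
    (he : h2 = h + t • fun j => |dt (u j) v|) (hc : Cl u i v h) (hc2 : Cl u i v h2)
    (ht : ∀ j, 2 * |t| * |dt (u j) v| ≤ h j / 2) (ht2 : ∀ j, 2 * |t| * |dt (u j) v| ≤ h2 j / 2) :
    S u h2 i = S u h i := by
  obtain ⟨j, hij⟩ : ∃ j, i ≠ j := by
    obtain ⟨a, b, _, hab, _, _⟩ := hu.three
    by_cases h1 : i = a
    · exact ⟨b, by rw [h1]; exact hab⟩
    · exact ⟨a, h1⟩
  rw [S_eq hCOO hSF hu hij hc2.1, S_eq hCOO hSF hu hij hc.1]
  congr 1
  rw [← integral_add_right_eq_self (fun β => G u i j h2 β) (t * dt (u j) v)]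
  exact integral_congr_ae (Eventually.of_forall fun β =>
    G_shift hCOO hu hij hiv he hc hc2 ht ht2 β)

theorem ev_pos {ι : Type} [Fintype ι] {h : ι → ℝ} (hp : Pos h) {g : ι → ℝ}
    (hg : ∀ j, g j < h j) : ∀ᶠ h' in 𝓝 h, ∀ j, g j < h' j := by
  rw [Filter.eventually_all]
  intro j
  exact (continuous_apply j).continuousAt.eventually (lt_mem_nhds (hg j))

theorem ev_pos' {ι : Type} [Fintype ι] {h : ι → ℝ} (hp : Pos h) : ∀ᶠ h' in 𝓝 h, Pos h' :=
  (ev_pos hp (g := fun _ => 0) hp).mono fun _ hh => hh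

theorem Cl_ev {ι : Type} [Fintype ι] [DecidableEq ι] (hVA2 : Stmt_VA2) {u : ι → R3} (hu : Fam u)
    {h : ι → ℝ} (hp : Pos h) {i : ι} (hS : S u h i = 0) {v : R3} (hv : v ∈ K u h)
    (hvi : dt (u i) v = h i) : ∀ᶠ h' in 𝓝 h, Cl u i v h' := by
  obtain ⟨η, hη, hη2⟩ : ∃ η : ℝ, 0 < η ∧ ∀ j, 3 * η ≤ h j / 4 := by
    have : Nonempty ι := ⟨i⟩
    obtain ⟨j0, hj0⟩ := Finite.exists_min h
    exact ⟨h j0 / 12, by have := hp j0; positivity, fun j => by linarith [hj0 j]⟩
  have h1 := (hVA2 ι u hu h hp i hS).1 v hv hvi η hη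
  have h2 := ev_pos hp (g := fun j => h j / 2) (fun j => by
    have := hp j
    linarith)
  filter_upwards [h1, h2] with h' h1' h2'
  refine ⟨fun j => by
    have := hp j
    have := h2' j
    linarith, fun x hx hxi j => ?_⟩
  have := dt_close (hu.unit j) (h1' x hx hxi)
  have := h2' j
  have := hη2 j
  linarith

theorem lin_apply {ι : Type} [Fintype ι] (a f : ι → ℝ) : lin a f = ∑ i, a i * f i := by
  unfold lin
  simp

/-- A nonzero chord contains a point. -/
theorem Lam_point {ι : Type} [Fintype ι] (hCOO : Stmt_COO) {u : ι → R3} (hu : Fam u) {i j : ι}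
    (hij : i ≠ j) {h : ι → ℝ} (hp : Pos h) {β : ℝ} (hβ : |β| ≤ h j)
    (hL : Lam u i j (h i) β h ≠ 0) :
    ∃ x ∈ K u h, dt (u i) x = h i ∧ dt (u j) x = β := by
  have hw := hCOO.2 ι u i j hu hij
  have hcc := (hCOO.1 ι u i j hw).2
  rw [← G_in hCOO hu hij hp hβ] at hL
  unfold G at hL
  have hne : {c : ℝ | pt u i j (h i) β + c • cr (u i) (u j) ∈ K u h}.Nonempty := by
    by_contra hn
    rw [Set.not_nonempty_iff_eq_empty] at hn
    rw [hn] at hL
    simp at hL
  obtain ⟨c, hc⟩ := hne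
  exact ⟨_, hc, (hcc (h i) β c).1, (hcc (h i) β c).2.1⟩

end VA3_

open VA3_ in
theorem stmt_VA3 (hVA2 : Stmt_VA2) (hSF : Stmt_SF) (hHF : Stmt_HF) (hDVS : Stmt_DVS)
    (hCOO : Stmt_COO) (_hLAMC : Stmt_LAMC) : Stmt_VA3 := by
  intro ι _ _ u hu h hp i hS
  obtain ⟨_, dS, _, _, _, e2⟩ := hDVS ι u hu
  refine ⟨fun v hv hvi => ⟨?_, ?_⟩, ?_⟩
  · -- first claim
    have hiv : 0 ≤ dt (u i) v := by
      rw [hvi]
      exact (hp i).le
    filter_upwards [(Cl_ev hVA2 hu hp hS hv hvi).eventually_nhds] with h' hN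
    have hC := hN.self_of_nhds
    set a : ι → ℝ := fun j => |dt (u j) v| with ha
    have hcont : ContinuousAt (fun t : ℝ => h' + t • a) 0 := by fun_prop
    have h00 : h' + (0 : ℝ) • a = h' := by simp
    have ev1 : ∀ᶠ t : ℝ in 𝓝 0, Cl u i v (h' + t • a) := by
      have : Tendsto (fun t : ℝ => h' + t • a) (𝓝 0) (𝓝 h') := by
        have := hcont.tendsto
        rwa [h00] at this
      exact this.eventually hN
    have ev2 : ∀ᶠ t : ℝ in 𝓝 0, ∀ j, 2 * |t| * |dt (u j) v| ≤ h' j / 2 := by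
      rw [Filter.eventually_all]
      intro j
      have hc : ContinuousAt (fun t : ℝ => 2 * |t| * |dt (u j) v|) 0 := by fun_prop
      have hlt : (fun t : ℝ => 2 * |t| * |dt (u j) v|) 0 < h' j / 2 := by
        have := hC.1 j
        simp
        exact this
      exact (hc.eventually (gt_mem_nhds hlt)).mono fun t ht => ht.le
    have ev3 : ∀ᶠ t : ℝ in 𝓝 0, ∀ j, 2 * |t| * |dt (u j) v| ≤ (h' + t • a) j / 2 := by
      rw [Filter.eventually_all]
      intro j
      have hc : ContinuousAt (fun t : ℝ => (h' + t • a) j / 2 - 2 * |t| * |dt (u j) v|) 0 := by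
        simp only [Pi.add_apply, Pi.smul_apply, smul_eq_mul]
        fun_prop
      have hlt : 0 < (fun t : ℝ => (h' + t • a) j / 2 - 2 * |t| * |dt (u j) v|) 0 := by
        have := hC.1 j
        simp
        exact this
      exact (hc.eventually (lt_mem_nhds hlt)).mono fun t ht => by linarith
    have hconst : (fun t : ℝ => S u (h' + t • a) i) =ᶠ[𝓝 0] fun _ => S u h' i := by
      filter_upwards [ev1, ev2, ev3] with t t1 t2 t3
      exact S_shift hCOO hSF hu hiv rfl hC t1 t2 t3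
    have hd1 : HasDerivAt (fun t : ℝ => S u (h' + t • a) i) 0 0 :=
      (hasDerivAt_const (0 : ℝ) (S u h' i)).congr_of_eventuallyEq hconst
    have hl : HasDerivAt (fun t : ℝ => h' + t • a) a 0 := by
      have := ((hasDerivAt_id (0 : ℝ)).smul_const a).const_add h'
      simpa using this
    have hd2 : HasDerivAt (fun t : ℝ => S u (h' + t • a) i) (lin (H u h' i) a) 0 := by
      have hF := dS h' hC.1 i
      have hF' : HasFDerivAt (fun h => S u h i) (lin (H u h' i)) (h' + (0 : ℝ) • a) := by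
        rw [h00]
        exact hF
      exact hF'.comp_hasDerivAt 0 hl
    have := hd1.unique hd2
    rw [lin_apply] at this
    exact this.symm
  · -- second claim
    intro j hji hlt
    obtain ⟨η, hη, hη2⟩ : ∃ η : ℝ, 0 < η ∧ 3 * η ≤ (h j - |dt (u j) v|) / 4 :=
      ⟨(h j - |dt (u j) v|) / 12, by linarith, by linarith⟩
    have h1 := (hVA2 ι u hu h hp i hS).1 v hv hvi η hη
    have h2 : ∀ᶠ h' in 𝓝 h, h j - (h j - |dt (u j) v|) / 4 < h' j :=
      (continuous_apply j).continuousAt.eventually (lt_mem_nhds (by linarith))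
    filter_upwards [h1, h2, ev_pos' hp] with h' h1' h2' hp'
    rw [(hHF ι u hu i j (Ne.symm hji) h' hp').2]
    have hz : ∀ β : ℝ, |β| = h' j → Lam u i j (h' i) β h' = 0 := by
      intro β hβ
      by_contra hn
      obtain ⟨x, hx, hxi, hxj⟩ := Lam_point hCOO hu (Ne.symm hji) hp' hβ.le hn
      have h3 := dt_close (hu.unit j) (h1' x hx hxi)
      rw [hxj] at h3
      have h4 := abs_sub_abs_le_abs_sub β (dt (u j) v)
      rw [hβ] at h4
      linarith
    rw [hz (h' j) (abs_of_pos (hp' j)), hz (-h' j) (by rw [abs_neg, abs_of_pos (hp' j)])]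
    norm_num
  · -- third claim
    intro hno
    have h1 := (hVA2 ι u hu h hp i hS).2 hno
    filter_upwards [h1, ev_pos' hp] with h' h1' hp'
    have hz : ∀ j, i ≠ j → ∀ β : ℝ, |β| ≤ h' j → Lam u i j (h' i) β h' = 0 := by
      intro j hij β hβ
      by_contra hn
      obtain ⟨x, hx, hxi, _⟩ := Lam_point hCOO hu hij hp' hβ hn
      exact h1' x hx hxi
    have hS0 : S u h' i = 0 := by
      obtain ⟨j, hij⟩ : ∃ j, i ≠ j := by
        obtain ⟨a, b, _, hab, _, _⟩ := hu.three
        by_cases h1 : i = a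
        · exact ⟨b, by rw [h1]; exact hab⟩
        · exact ⟨a, h1⟩
      rw [(hSF ι u hu i j hij h' hp').2]
      have : ∫ β in (-h' j)..(h' j), Lam u i j (h' i) β h' = ∫ β in (-h' j)..(h' j), (0 : ℝ) := by
        refine intervalIntegral.integral_congr fun β hβ => ?_
        rw [uIcc_of_le (by linarith [hp' j])] at hβ
        exact hz j hij β (abs_le.2 hβ)
      rw [this]
      simp
    have hH0 : ∀ j, j ≠ i → H u h' i j = 0 := by
      intro j hji
      rw [(hHF ι u hu i j (Ne.symm hji) h' hp').2,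
        hz j (Ne.symm hji) (h' j) (abs_of_pos (hp' j)).le,
        hz j (Ne.symm hji) (-h' j) (by rw [abs_neg]; exact (abs_of_pos (hp' j)).le)]
      norm_num
    refine ⟨hS0, fun j => ?_⟩
    by_cases hji : j = i
    · rw [hji]
      have h3 := e2 h' hp' i
      rw [hS0, mul_zero, Finset.sum_eq_single i (fun b _ hb => by rw [hH0 b hb, zero_mul])
        (fun hn => absurd (Finset.mem_univ i) hn)] at h3
      exact (mul_eq_zero.1 h3).resolve_right (ne_of_gt (hp' i))
    · exact hH0 j hji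

end Pool.T3
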