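import Pool.Agent.Work.MP_b5407d_t3.Interface

set_option autoImplicit false

open MeasureTheory Set Filter Topology

namespace Pool.T3

namespace VA4_

lemma abs_comp_le_one (a : R3) (ha : dt a a = 1) (l : Fin 3) : |a l| ≤ 1 := by
  refine abs_le_one_iff_mul_self_le_one.2 ?_
  unfold dt at ha
  fin_cases l <;> simp <;> nlinarith [mul_self_nonneg (a 0), mul_self_nonneg (a 1),
    mul_self_nonneg (a 2)]

lemma dt_sub_le (a x y : R3) (ha : dt a a = 1) (η : ℝ) (h : ∀ l, |x l - y l| < η) :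
    |dt a x - dt a y| ≤ 3 * η := by
  have h1 : dt a x - dt a y = a 0 * (x 0 - y 0) + a 1 * (x 1 - y 1) + a 2 * (x 2 - y 2) := by
    unfold dt
    ring
  rw [h1]
  have h2 : ∀ l, |a l * (x l - y l)| ≤ η := fun l => by
    rw [abs_mul]
    calc |a l| * |x l - y l| ≤ 1 * |x l - y l| := by
          gcongr
          exact abs_comp_le_one a ha l
      _ ≤ η := by rw [one_mul]; exact (h l).le
  have h3 := abs_add_le (a 0 * (x 0 - y 0) + a 1 * (x 1 - y 1)) (a 2 * (x 2 - y 2))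
  have h4 := abs_add_le (a 0 * (x 0 - y 0)) (a 1 * (x 1 - y 1))
  linarith [h2 0, h2 1, h2 2]

/-- a chord of nonzero length contains a point of the body -/
lemma point {ι : Type} [Fintype ι] [DecidableEq ι] (u : ι → R3) (i j : ι) (hcr : cr (u i) (u j) ≠ 0)
    (hCOO : Stmt_COO) (h : ι → ℝ) (hpos : Pos h) (s : ℝ) (hs : s = 1 ∨ s = -1)
    (hL : Lam u i j (h i) (s * h j) h ≠ 0) :
    ∃ x ∈ K u h, dt (u i) x = h i ∧ dt (u j) x = s * h j := by
  have hne : {c : ℝ | ∀ m, m ≠ i → m ≠ j →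
      |dt (u m) (pt u i j (h i) (s * h j)) + c * de (u i) (u j) (u m)| ≤ h m}.Nonempty := by
    by_contra hempty
    rw [Set.not_nonempty_iff_eq_empty] at hempty
    apply hL
    unfold Lam
    rw [hempty]
    simp
  obtain ⟨c, hc⟩ := hne
  obtain ⟨-, hco⟩ := hCOO.1 ι u i j hcr
  obtain ⟨h1, h2, h3⟩ := hco (h i) (s * h j) c
  refine ⟨_, ?_, h1, h2⟩
  intro m
  by_cases hmi : m = i
  · subst hmi
    rw [h1, abs_of_pos (hpos m)]
  · by_cases hmj : m = j
    · subst hmj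
      rw [h2, abs_mul, abs_of_pos (hpos m)]
      rcases hs with rfl | rfl <;> simp
    · rw [h3 m]
      exact hc m hmi hmj

end VA4_

open VA4_ in
theorem stmt_VA4 (hVA2 : Stmt_VA2) (hHF : Stmt_HF) (hCOO : Stmt_COO) : Stmt_VA4 := by
  intro ι _ _ u hu h hpos i j hij hSi hSj v hv v' hv' hvi hvj hfreq k
  by_contra hne
  have hγ : 0 < |(|dt (u k) v| - |dt (u k) v'|)| := abs_pos.2 (sub_ne_zero.2 hne)
  set γ := |(|dt (u k) v| - |dt (u k) v'|)| with hγdef
  have hη : 0 < γ / 7 := by positivity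
  have e1 := (hVA2 ι u hu h hpos i hSi).1 v hv hvi (γ / 7) hη
  have e2 := (hVA2 ι u hu h hpos j hSj).1 v' hv' hvj (γ / 7) hη
  have e3 : ∀ᶠ h' in 𝓝 h, Pos h' := by
    have : ∀ i, ∀ᶠ h' in 𝓝 h, 0 < (h' : ι → ℝ) i := fun i =>
      (continuous_apply i).continuousAt.eventually (lt_mem_nhds (hpos i))
    exact eventually_all.2 this
  obtain ⟨h', hH, hh1, hh2, hpos'⟩ := (hfreq.and_eventually (e1.and (e2.and e3))).exists
  have hcr : cr (u i) (u j) ≠ 0 := hCOO.2 ι u i j hu hij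
  have hform := (hHF ι u hu i j hij h' hpos').2
  rw [hform] at hH
  have hx : ∃ s : ℝ, (s = 1 ∨ s = -1) ∧ ∃ x ∈ K u h', dt (u i) x = h' i ∧
      dt (u j) x = s * h' j := by
    by_cases h0 : Lam u i j (h' i) (h' j) h' = 0
    · refine ⟨-1, Or.inr rfl, ?_⟩
      refine point u i j hcr hCOO h' hpos' (-1) (Or.inr rfl) ?_
      intro h00
      apply hH
      rw [h0]
      rw [neg_one_mul] at h00
      rw [h00]
      simp
    · refine ⟨1, Or.inl rfl, ?_⟩
      refine point u i j hcr hCOO h' hpos' 1 (Or.inl rfl) ?_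
      rw [one_mul]
      exact h0
  obtain ⟨s, hs, x, hxK, hxi, hxj⟩ := hx
  have hss : s * s = 1 := by rcases hs with rfl | rfl <;> norm_num
  have habs : |s| = 1 := by rcases hs with rfl | rfl <;> norm_num
  have hdts : ∀ a : R3, dt a (s • x) = s * dt a x := fun a => by
    unfold dt
    simp only [Pi.smul_apply, smul_eq_mul]
    ring
  have b1 := dt_sub_le (u k) x v (hu.unit k) (γ / 7) (hh1 x hxK hxi)
  have hsxK : s • x ∈ K u h' := fun m => by
    rw [hdts, abs_mul, habs, one_mul]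
    exact hxK m
  have hsxj : dt (u j) (s • x) = h' j := by
    rw [hdts, hxj, ← mul_assoc, hss, one_mul]
  have b2 := dt_sub_le (u k) (s • x) v' (hu.unit k) (γ / 7) (hh2 (s • x) hsxK hsxj)
  have b3 : |dt (u k) (s • x)| = |dt (u k) x| := by
    rw [hdts, abs_mul, habs, one_mul]
  have c1 := abs_abs_sub_abs_le (dt (u k) x) (dt (u k) v)
  have c2 := abs_abs_sub_abs_le (dt (u k) (s • x)) (dt (u k) v')
  rw [b3] at c2
  have c3 : γ ≤ |(|dt (u k) x| - |dt (u k) v|)| + |(|dt (u k) x| - |dt (u k) v'|)| := by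
    rw [hγdef, ← abs_neg (|dt (u k) x| - |dt (u k) v|)]
    refine le_trans (le_of_eq ?_) (abs_add_le _ _)
    congr 1
    ring
  linarith

end Pool.T3
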