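import Pool.Agent.Work.MP_b5407d_t3.Interface

set_option autoImplicit false

open MeasureTheory Set Filter Topology

namespace Pool.T3

theorem stmt_ABS (hMIN : Stmt_MIN) (hKEY : Stmt_KEY) : Stmt_ABS := by
  intro ι _ v S H hC hne hb h hh f
  by_contra hcon
  push Not at hcon
  obtain ⟨δ, ε, h', f', hδ, hε, hs, ha, he, hl⟩ :=
    hMIN ι v S H hC hne hb ⟨h, f, hh, hcon⟩
  exact hKEY ι v S H δ ε h' f' ⟨hC, hδ, hε, hs, ha, he, hl⟩

end Pool.T3
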