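import Pool.Agent.Work.MP_b5407d_t3.Interface

/-!
# Block CMP: bounded penalty means bounded shape
-/

set_option autoImplicit false

open MeasureTheory Set Filter Topology

namespace Pool.T3

namespace CMP_

lemma basic {ι : Type} [Fintype ι] {v : (ι → ℝ) → ℝ} {S : (ι → ℝ) → ι → ℝ}
    {H : (ι → ℝ) → ι → ι → ℝ} (hC : Calc v S H) (i0 : ι) (h : ι → ℝ) (hp : Pos h) :
    0 < ∑ i, S h i ∧ (∀ i, v h / (∑ i, S h i) ≤ h i) ∧ (v h / (∑ i, S h i)) ^ 3 ≤ v h := by
  have hv := hC.vp h hp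
  have hs : 0 < ∑ i, S h i := by
    have h1 := hC.slb h hp i0
    have h2 : 0 < h i0 * ∑ i, S h i := lt_of_lt_of_le hv h1
    exact (pos_iff_pos_of_mul_pos h2).1 (hp i0)
  have h3 : ∀ i, v h / (∑ i, S h i) ≤ h i := by
    intro i
    rw [div_le_iff₀ hs]
    exact hC.slb h hp i
  exact ⟨hs, h3, hC.bal h _ (div_pos hv hs) h3⟩

end CMP_

open CMP_ in
theorem stmt_CMP (_hJQ : Stmt_JQ) : Stmt_CMP := by
  intro ι _ v S H hC hne
  obtain ⟨i0⟩ := hne
  refine ⟨?_, ?_⟩
  · intro h hp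
    obtain ⟨hs, _, h2⟩ := basic hC i0 h hp
    have hv := hC.vp h hp
    have h4 : v h ^ 2 ≤ (∑ i, S h i) ^ 3 := by
      rw [div_pow, div_le_iff₀ (by positivity)] at h2
      have h5 : v h * v h ^ 2 ≤ v h * (∑ i, S h i) ^ 3 := by
        calc v h * v h ^ 2 = v h ^ 3 := by ring
          _ ≤ _ := h2
      exact le_of_mul_le_mul_left h5 hv
    have h6 := Real.log_le_log (by positivity) h4
    rw [Real.log_pow, Real.log_pow] at h6
    push_cast at h6
    unfold R
    linarith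
  · intro C
    have hE : 0 < Real.exp (2 * C / 3) := Real.exp_pos _
    refine ⟨1 / (6 * Real.exp (2 * C / 3) ^ 2), by positivity, ?_⟩
    intro h hp hv1 hSp hR i
    obtain ⟨hs, h1, h2⟩ := basic hC i0 h hp
    rw [hv1] at h1 h2
    have hs1 : 1 ≤ ∑ i, S h i := by
      by_contra hlt
      push Not at hlt
      have h3 : 1 < 1 / ∑ i, S h i := by
        rw [lt_div_iff₀ hs]; linarith
      have h4 : 1 < (1 / ∑ i, S h i) ^ 3 := one_lt_pow₀ h3 (by norm_num)
      linarith
    have hsE : ∑ i, S h i ≤ Real.exp (2 * C / 3) := by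
      have h5 : Real.log (∑ i, S h i) ≤ 2 * C / 3 := by
        unfold R at hR
        rw [hv1, Real.log_one] at hR
        linarith
      calc ∑ i, S h i = Real.exp (Real.log (∑ i, S h i)) := (Real.exp_log hs).symm
        _ ≤ _ := Real.exp_le_exp.2 h5
    set E : ℝ := Real.exp (2 * C / 3)
    set s : ℝ := ∑ i, S h i
    have hE1 : 1 ≤ E := hs1.trans hsE
    refine ⟨?_, ?_⟩
    · refine le_trans ?_ (h1 i)
      have h7 : s ≤ 6 * E ^ 2 := by nlinarith
      exact one_div_le_one_div_of_le hs h7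
    · rw [one_div_one_div]
      have h8 := hC.ext h (1 / s) (by positivity) h1 i (hSp i)
      rw [hv1, div_pow, one_pow, mul_one_div, div_le_iff₀ (by positivity)] at h8
      have h9 : s ^ 2 ≤ E ^ 2 := pow_le_pow_left₀ hs.le hsE 2
      linarith

end Pool.T3
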