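import Pool.Agent.Work.MP_b5407d_t3.Interface

/-!
# MP_b5407d, T3, block EST: bound for `- (J - ε Q)` along the path
-/

set_option autoImplicit false

open MeasureTheory Set Filter Topology

namespace Pool.T3

namespace EST_

theorem abs_mul_le (x y a b : ℝ) (hx : |x| ≤ a) (hy : |y| ≤ b) : |x * y| ≤ a * b := by
  rw [abs_mul]
  exact mul_le_mul hx hy (abs_nonneg _) ((abs_nonneg _).trans hx)

/-- the final estimate in real numbers -/
theorem fin (ε δ a m3 M s t C η e Qv D Vf X : ℝ) (hε : 0 < ε) (hε2 : ε < 1 / 2) (hδ : 0 < δ)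
    (hδ2 : 28 * δ < 1) (ha : a ^ 2 ≤ 3) (hm : m3 ^ 2 ≤ M) (hM : 1 ≤ M) (hs : 0 ≤ s) (hs1 : s ≤ 1)
    (ht : |t| ≤ 1) (hC : 0 ≤ C) (he : 0 < e) (he1 : e ≤ 1) (he2 : 4 * e ≤ η)
    (hD : D ≤ -(3 / 2 * ε * s * a * t) + (33 / 16 * ε + e) * t ^ 2)
    (hQ : |Qv - (3 * t ^ 2 - 3 * (ε + s * (1 - ε)) * m3 * t ^ 3)| ≤ e * |t| ^ 3) (hQ0 : 0 ≤ Qv)
    (hV : |Vf - 1| ≤ C * t ^ 2) (hV1 : C * t ^ 2 ≤ 1) (hX : X ≤ δ * D * Qv)
    (hsm : (M + 2 * M * C) * |t| ≤ η / 2) :
    Vf * X ≤ δ * (-(9 / 2 * ε * a * s * t ^ 3) + 14 * ε * M * t ^ 4) + η * t ^ 4 := by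
  have ha' : |a| ≤ 1733 / 1000 := by
    apply abs_le_of_sq_le_sq _ (by norm_num)
    nlinarith
  have hm' : |m3| ≤ M := by
    apply abs_le_of_sq_le_sq _ (by linarith)
    nlinarith
  have t0 : 0 ≤ |t| := abs_nonneg t
  have t2 : |t| ^ 2 = t ^ 2 := sq_abs t
  have t4 : |t| ^ 4 = t ^ 4 := by
    have : |t| ^ 4 = (|t| ^ 2) ^ 2 := by ring
    rw [this, t2]; ring
  have t4' : 0 ≤ t ^ 4 := by positivity
  set k : ℝ := ε + s * (1 - ε) with hk
  have k0 : 0 ≤ k := by
    have : 0 ≤ s * (1 - ε) := mul_nonneg hs (by linarith)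
    linarith
  have k1 : k ≤ 1 := by
    have : s * (1 - ε) ≤ 1 * (1 - ε) := mul_le_mul_of_nonneg_right hs1 (by linarith)
    linarith
  have hkabs : |k| ≤ 1 := by rw [abs_of_nonneg k0]; exact k1
  have hsabs : |s| ≤ 1 := by rw [abs_of_nonneg hs]; exact hs1
  have heabs : |ε| ≤ ε := by rw [abs_of_pos hε]
  set c : ℝ := -(3 / 2 * ε * s * a * t) + (33 / 16 * ε + e) * t ^ 2 with hc
  -- bound of c
  have c1 : |ε * s * a * t| ≤ 1 / 2 * 1 * (1733 / 1000) * |t| := by
    apply abs_mul_le _ _ _ _ _ le_rfl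
    apply abs_mul_le _ _ _ _ _ ha'
    apply abs_mul_le _ _ _ _ _ hsabs
    linarith
  have c2 : (33 / 16 * ε + e) * t ^ 2 ≤ 3 * |t| := by
    have h1 : (33 / 16 * ε + e) ≤ 3 := by linarith
    have h2 : t ^ 2 ≤ |t| := by
      rw [← t2]; nlinarith
    have h3 : 0 ≤ t ^ 2 := sq_nonneg t
    have h4 : (33 / 16 * ε + e) * t ^ 2 ≤ 3 * t ^ 2 := mul_le_mul_of_nonneg_right h1 h3
    linarith
  have c3 : 0 ≤ (33 / 16 * ε + e) * t ^ 2 := by positivity
  have hcabs : |c| ≤ 9 / 2 * |t| := by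
    rw [abs_le]
    have h1 := abs_le.mp c1
    have e1 : 3 / 2 * ε * s * a * t = 3 / 2 * (ε * s * a * t) := by ring
    constructor
    · rw [hc, e1]; linarith [h1.2]
    · rw [hc, e1]; linarith [h1.1]
  -- bound of Q
  have q1 : |k * m3 * t ^ 3| ≤ 1 * M * |t| ^ 3 := by
    apply abs_mul_le _ _ _ _ _ (by rw [abs_pow])
    exact abs_mul_le _ _ _ _ hkabs hm'
  have t3le : |t| ^ 3 ≤ t ^ 2 := by
    have : |t| ^ 3 = |t| ^ 2 * |t| := by ring
    rw [this, t2]
    nlinarith [sq_nonneg t]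
  have t3nn : 0 ≤ |t| ^ 3 := by positivity
  obtain ⟨r, hr⟩ : ∃ r, r = Qv - (3 * t ^ 2 - 3 * k * m3 * t ^ 3) := ⟨_, rfl⟩
  rw [← hr] at hQ
  have hQe : Qv = 3 * t ^ 2 - 3 * (k * m3 * t ^ 3) + r := by rw [hr]; ring
  have hQle : Qv ≤ 7 * M * t ^ 2 := by
    have h1 := abs_le.mp q1
    have h2 := abs_le.mp hQ
    have h3 : e * |t| ^ 3 ≤ 1 * t ^ 2 := mul_le_mul he1 t3le t3nn (by norm_num)
    have h4 : 1 * M * |t| ^ 3 ≤ M * t ^ 2 := by
      rw [one_mul]; exact mul_le_mul_of_nonneg_left t3le (by linarith)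
    have h5 : t ^ 2 ≤ M * t ^ 2 := by nlinarith [sq_nonneg t]
    rw [hQe]
    linarith [h1.1, h2.2]
  -- Y
  have hY1 : X ≤ δ * c * Qv := by
    have : δ * D * Qv ≤ δ * c * Qv :=
      mul_le_mul_of_nonneg_right (mul_le_mul_of_nonneg_left hD hδ.le) hQ0
    linarith
  have hYabs : |δ * c * Qv| ≤ 2 * M * |t| ^ 3 := by
    have h1 : |δ * c| ≤ δ * (9 / 2 * |t|) := abs_mul_le _ _ _ _ (by rw [abs_of_pos hδ]) hcabs
    have h2 : |δ * c * Qv| ≤ δ * (9 / 2 * |t|) * (7 * M * t ^ 2) :=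
      abs_mul_le _ _ _ _ h1 (by rw [abs_of_nonneg hQ0]; exact hQle)
    have h3 : δ * (9 / 2 * |t|) * (7 * M * t ^ 2) = 63 / 2 * δ * (M * |t| ^ 3) := by
      rw [← t2]; ring
    have h4 : 0 ≤ M * |t| ^ 3 := mul_nonneg (by linarith) t3nn
    have h5 : 63 / 2 * δ * (M * |t| ^ 3) ≤ 2 * (M * |t| ^ 3) :=
      mul_le_mul_of_nonneg_right (by linarith) h4
    linarith
  have hV0 : 0 ≤ Vf := by linarith [(abs_le.mp hV).1]
  have hVX : Vf * X ≤ δ * c * Qv + C * t ^ 2 * (2 * M * |t| ^ 3) := by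
    have h1 : Vf * X ≤ Vf * (δ * c * Qv) := mul_le_mul_of_nonneg_left hY1 hV0
    have h2 : (Vf - 1) * (δ * c * Qv) ≤ C * t ^ 2 * (2 * M * |t| ^ 3) :=
      (le_abs_self _).trans (abs_mul_le _ _ _ _ hV hYabs)
    have h3 : Vf * (δ * c * Qv) = δ * c * Qv + (Vf - 1) * (δ * c * Qv) := by ring
    linarith
  have hlast : C * t ^ 2 * (2 * M * |t| ^ 3) = 2 * M * C * |t| * t ^ 4 := by
    rw [← t4, ← t2]; ring
  -- expansion of c * Q
  have cQ : c * Qv ≤ -(9 / 2 * ε * a * s * t ^ 3) + (14 * ε * M + 15 / 2 * e) * t ^ 4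
      + 7 * M * |t| * t ^ 4 := by
    have h1 : c * Qv = -(9 / 2 * ε * a * s * t ^ 3) + (99 / 16 * ε + 3 * e) * t ^ 4
        + 9 / 2 * (ε * (s * (k * (a * m3)))) * t ^ 4
        - 3 * (33 / 16 * ε + e) * (k * m3 * t ^ 5) + c * r := by
      rw [hQe, hc]; ring
    have h2 : ε * (s * (k * (a * m3))) ≤ ε * (1 * (1 * (1733 / 1000 * M))) := by
      apply (le_abs_self _).trans
      apply abs_mul_le _ _ _ _ heabs
      apply abs_mul_le _ _ _ _ hsabs
      apply abs_mul_le _ _ _ _ hkabs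
      exact abs_mul_le _ _ _ _ ha' hm'
    have h3 : |c * r| ≤ 9 / 2 * |t| * (e * |t| ^ 3) := abs_mul_le _ _ _ _ hcabs hQ
    have h3' : 9 / 2 * |t| * (e * |t| ^ 3) = 9 / 2 * e * t ^ 4 := by rw [← t4]; ring
    have h4 : |(33 / 16 * ε + e) * (k * m3 * t ^ 5)| ≤ 7 / 3 * (1 * M * |t| ^ 5) := by
      apply abs_mul_le
      · rw [abs_of_nonneg (by positivity)]; linarith
      · apply abs_mul_le _ _ _ _ _ (by rw [abs_pow])
        exact abs_mul_le _ _ _ _ hkabs hm'
    have h4' : |t| ^ 5 = |t| * t ^ 4 := by rw [← t4]; ring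
    rw [h4'] at h4
    have h5 : 99 / 16 * ε ≤ 99 / 16 * (ε * M) := by nlinarith
    have h6 : 9 / 2 * (ε * (s * (k * (a * m3)))) * t ^ 4
        ≤ 9 / 2 * (ε * (1 * (1 * (1733 / 1000 * M)))) * t ^ 4 :=
      mul_le_mul_of_nonneg_right (by linarith) t4'
    have h7 : (99 / 16 * ε) * t ^ 4 ≤ (99 / 16 * (ε * M)) * t ^ 4 :=
      mul_le_mul_of_nonneg_right h5 t4'
    have h8 : 0 ≤ ε * M * t ^ 4 := by
      have : 0 ≤ M := by linarith
      positivity
    rw [h1]
    have h9 := (abs_le.mp h4).1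
    have h10 := (abs_le.mp h3).2
    have h11 : -(3 * (33 / 16 * ε + e) * (k * m3 * t ^ 5))
        = -3 * ((33 / 16 * ε + e) * (k * m3 * t ^ 5)) := by ring
    linarith
  have hfin : δ * c * Qv ≤ δ * (-(9 / 2 * ε * a * s * t ^ 3) + 14 * ε * M * t ^ 4)
      + e * t ^ 4 + M * |t| * t ^ 4 := by
    have h1 : δ * c * Qv = δ * (c * Qv) := by ring
    rw [h1]
    have h2 := mul_le_mul_of_nonneg_left cQ hδ.le
    have h3 : δ * (15 / 2 * e * t ^ 4) ≤ e * t ^ 4 := by
      have h : 0 ≤ e * t ^ 4 := by positivity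
      have : δ * (15 / 2 * e * t ^ 4) = (15 / 2 * δ) * (e * t ^ 4) := by ring
      rw [this]
      have : (15 / 2 * δ) * (e * t ^ 4) ≤ 1 * (e * t ^ 4) :=
        mul_le_mul_of_nonneg_right (by linarith) h
      linarith
    have h4 : δ * (7 * M * |t| * t ^ 4) ≤ M * |t| * t ^ 4 := by
      have h : 0 ≤ M * |t| * t ^ 4 := by
        have : 0 ≤ M := by linarith
        positivity
      have : δ * (7 * M * |t| * t ^ 4) = (7 * δ) * (M * |t| * t ^ 4) := by ring
      rw [this]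
      have : (7 * δ) * (M * |t| * t ^ 4) ≤ 1 * (M * |t| * t ^ 4) :=
        mul_le_mul_of_nonneg_right (by linarith) h
      linarith
    linarith
  have hsm2 : (M + 2 * M * C) * |t| * t ^ 4 ≤ η / 2 * t ^ 4 := mul_le_mul_of_nonneg_right hsm t4'
  have he3 : e * t ^ 4 ≤ η / 2 * t ^ 4 := mul_le_mul_of_nonneg_right (by linarith) t4'
  rw [hlast] at hVX
  linarith

end EST_

open EST_ in
theorem stmt_EST (hJQ : Stmt_JQ) (hRUP : Stmt_RUP) (hQEX : Stmt_QEX) : Stmt_EST := by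
  intro ι _ v S H δ ε h f hc η hη
  have hε := hc.epos
  have hδ := hc.dpos
  have hε1 : ε < 1 / 2 := by linarith [hc.small]
  have hδ1 : 28 * δ < 1 := by linarith [hc.small]
  have hpos := hc.adm.hpos
  have hcal := hc.cal
  -- moments
  have hsum : ∑ i, S h i * h i = 3 := by rw [hcal.e3 h hpos, hc.adm.vol, mul_one]
  have hvar := hc.adm.var
  have hSn := hcal.Sn h hpos
  have hm4 : 1 ≤ mo S h f 4 := by
    have h1 := Finset.sum_sq_le_sum_mul_sum_of_sq_eq_mul Finset.univ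
      (r := fun i => S h i * h i * (f i / h i) ^ 2) (f := fun i => S h i * h i)
      (g := fun i => S h i * h i * (f i / h i) ^ 4)
      (fun i _ => mul_nonneg (hSn i) (hpos i).le)
      (fun i _ => mul_nonneg (mul_nonneg (hSn i) (hpos i).le) (by positivity))
      (fun i _ => by ring)
    have h2 : ∑ i, S h i * h i * (f i / h i) ^ 2 = 3 := by
      rw [← hvar]
      apply Finset.sum_congr rfl
      intro i _
      have := (hpos i).ne'
      field_simp
    rw [h2, hsum] at h1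
    unfold mo
    linarith
  have hm3 : (mo S h f 3) ^ 2 ≤ mo S h f 4 := by
    have h1 := Finset.sum_sq_le_sum_mul_sum_of_sq_eq_mul Finset.univ
      (r := fun i => S h i * h i * (f i / h i) ^ 3) (f := fun i => S h i * h i * (f i / h i) ^ 2)
      (g := fun i => S h i * h i * (f i / h i) ^ 4)
      (fun i _ => mul_nonneg (mul_nonneg (hSn i) (hpos i).le) (by positivity))
      (fun i _ => mul_nonneg (mul_nonneg (hSn i) (hpos i).le) (by positivity))
      (fun i _ => by ring)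
    have h2 : ∑ i, S h i * h i * (f i / h i) ^ 2 = 3 := by
      rw [← hvar]
      apply Finset.sum_congr rfl
      intro i _
      have := (hpos i).ne'
      field_simp
    rw [h2] at h1
    unfold mo
    nlinarith
  have hSsum : 0 < ∑ i, S h i := by
    by_contra hcon
    push Not at hcon
    have h0 : ∑ i, S h i = 0 := le_antisymm hcon (Finset.sum_nonneg fun i _ => hSn i)
    have h1 : ∀ i ∈ Finset.univ, S h i = 0 :=
      (Finset.sum_eq_zero_iff_of_nonneg fun i _ => hSn i).mp h0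
    have h2 : ∑ i, S h i * h i = 0 := Finset.sum_eq_zero fun i hi => by rw [h1 i hi, zero_mul]
    rw [hsum] at h2
    norm_num at h2
  have haa : (aa S h f) ^ 2 ≤ 3 := by
    have h1 := Finset.sum_sq_le_sum_mul_sum_of_sq_eq_mul Finset.univ
      (r := fun i => S h i * (f i / h i)) (f := fun i => S h i)
      (g := fun i => S h i * (f i / h i) ^ 2)
      (fun i _ => hSn i) (fun i _ => mul_nonneg (hSn i) (by positivity))
      (fun i _ => by ring)
    have h2 : ∑ i, S h i * (f i / h i) ^ 2 ≤ (∑ j, S h j) * 3 := by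
      rw [← hvar, Finset.mul_sum]
      apply Finset.sum_le_sum
      intro i _
      have hs := hcal.slb h hpos i
      rw [hc.adm.vol] at hs
      have e1 : (∑ j, S h j) * (S h i * f i ^ 2 / h i)
          = (h i * ∑ j, S h j) * (S h i * (f i / h i) ^ 2) := by
        have := (hpos i).ne'
        field_simp
      rw [e1]
      have : 0 ≤ S h i * (f i / h i) ^ 2 := mul_nonneg (hSn i) (by positivity)
      nlinarith
    unfold aa
    rw [div_pow, div_le_iff₀ (by positivity)]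
    nlinarith
  -- the path stays in the good set
  have hgood : ∀ᶠ h' in 𝓝 h, Pos h' ∧ ∀ i, 0 < S h' i := by
    have h1 : ∀ᶠ h' in 𝓝 h, ∀ i, 0 < h' i := by
      rw [Filter.eventually_all]
      intro i
      exact (continuous_apply i).continuousAt.eventually (lt_mem_nhds (hpos i))
    have h2 : ∀ᶠ h' in 𝓝 h, ∀ i, 0 < S h' i := by
      rw [Filter.eventually_all]
      intro i
      exact (hcal.dS h hpos i).continuousAt.eventually (lt_mem_nhds (hc.adm.spos i))
    filter_upwards [h1, h2] with h' a b using ⟨a, b⟩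
  have hpath : ∀ᶠ t : ℝ in 𝓝 0, ∀ s ∈ Icc (0 : ℝ) 1,
      Pos (hp (1 - ε) h f t s) ∧ ∀ i, 0 < S (hp (1 - ε) h f t s) i := by
    apply isCompact_Icc.eventually_forall_of_forall_eventually
    intro s hs
    have hval : hp (1 - ε) h f 0 s = h := by
      funext i
      unfold hp zz
      simp
    have hcont : ContinuousAt (fun z : ℝ × ℝ => hp (1 - ε) h f z.1 z.2) (0, s) := by
      rw [continuousAt_pi]
      intro i
      unfold hp zz
      apply ContinuousAt.mul continuousAt_const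
      apply ContinuousAt.rpow_const
      · apply ContinuousAt.add continuousAt_const
        apply ContinuousAt.mul continuousAt_snd
        apply ContinuousAt.sub _ continuousAt_const
        apply ContinuousAt.rpow_const
        · fun_prop
        · left; simp
      · left; simp
    have := hcont.tendsto
    simp only [hval] at this
    exact this.eventually hgood
  obtain ⟨hQ1, C, hC⟩ := hQEX ι v S H δ ε h f hc
  set e : ℝ := min (η / 4) 1 with he
  have he0 : 0 < e := lt_min (by linarith) one_pos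
  have he1 : e ≤ 1 := min_le_right _ _
  have he4 : 4 * e ≤ η := by
    have := min_le_left (η / 4) (1 : ℝ)
    rw [← he] at this
    linarith
  set C' : ℝ := |C| with hC'
  have hC0 : 0 ≤ C' := abs_nonneg _
  have ht1 : ∀ᶠ t : ℝ in 𝓝 0, |t| ≤ 1 := by
    have : Tendsto (fun t : ℝ => |t|) (𝓝 0) (𝓝 |(0 : ℝ)|) := continuous_abs.tendsto 0
    rw [abs_zero] at this
    filter_upwards [this.eventually (gt_mem_nhds one_pos)] with t ht using ht.le
  have ht2 : ∀ᶠ t : ℝ in 𝓝 0, (mo S h f 4 + 2 * mo S h f 4 * C') * |t| ≤ η / 2 := by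
    have hcont : Continuous (fun t : ℝ => (mo S h f 4 + 2 * mo S h f 4 * C') * |t|) := by fun_prop
    have := hcont.tendsto 0
    rw [abs_zero, mul_zero] at this
    filter_upwards [this.eventually (gt_mem_nhds (by linarith : (0 : ℝ) < η / 2))] with t ht using ht.le
  have ht3 : ∀ᶠ t : ℝ in 𝓝 0, C' * t ^ 2 ≤ 1 := by
    have hcont : Continuous (fun t : ℝ => C' * t ^ 2) := by fun_prop
    have := hcont.tendsto 0
    rw [zero_pow two_ne_zero, mul_zero] at this
    filter_upwards [this.eventually (gt_mem_nhds one_pos)] with t ht using ht.le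
  filter_upwards [hpath, hQ1 e he0, hC, hRUP ι v S H δ ε h f hc e he0, ht1, ht2, ht3]
    with t a1 a2 a3 a4 a5 a6 a7
  intro s hs
  obtain ⟨b1, b2⟩ := a1 s hs
  have b3 := a2 s hs
  have b4 := a3 s hs
  have b5 := a4 s hs
  have hQ0 : 0 ≤ Q v S (hp (1 - ε) h f t s) (fp (1 - ε) h f t s) :=
    (hJQ ι v S H hcal _ b1).2.2.2.1 _
  have hloc := hc.loc _ b1 b2 (fp (1 - ε) h f t s)
  have hb4 : |v (hp (1 - ε) h f t s) ^ ((1 - ε) / 3 - 1) - 1| ≤ C' * t ^ 2 := by
    refine b4.trans ?_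
    exact mul_le_mul_of_nonneg_right (le_abs_self C) (sq_nonneg t)
  have key := fin ε δ (aa S h f) (mo S h f 3) (mo S h f 4) s t C' η e
    (Q v S (hp (1 - ε) h f t s) (fp (1 - ε) h f t s))
    (R v S (hp (1 - ε) h f t s) - R v S h) (v (hp (1 - ε) h f t s) ^ ((1 - ε) / 3 - 1))
    (-(J v S H (hp (1 - ε) h f t s) (fp (1 - ε) h f t s) -
          ε * Q v S (hp (1 - ε) h f t s) (fp (1 - ε) h f t s)))
    hε hε1 hδ hδ1 haa hm3 hm4 hs.1 hs.2 a5 hC0 he0 he1 he4 b5 b3 hQ0 hb4 a7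
    (by
      have : (ε - δ * (R v S (hp (1 - ε) h f t s) - R v S h)) *
          Q v S (hp (1 - ε) h f t s) (fp (1 - ε) h f t s)
          = ε * Q v S (hp (1 - ε) h f t s) (fp (1 - ε) h f t s)
            - δ * (R v S (hp (1 - ε) h f t s) - R v S h) *
              Q v S (hp (1 - ε) h f t s) (fp (1 - ε) h f t s) := by ring
      rw [this] at hloc
      linarith) a6
  calc _ = v (hp (1 - ε) h f t s) ^ ((1 - ε) / 3 - 1) *
        -(J v S H (hp (1 - ε) h f t s) (fp (1 - ε) h f t s) -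
          ε * Q v S (hp (1 - ε) h f t s) (fp (1 - ε) h f t s)) := by ring
    _ ≤ _ := key

end Pool.T3
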