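import Pool.Agent.Work.MP_b5407d_t3.Interface

set_option autoImplicit false

open MeasureTheory Set Filter Topology

namespace Pool.T3

theorem stmt_FINI (hLOC : Stmt_LOC) (hCALC : Stmt_CALC) (hSUP : Stmt_SUP) : Stmt_FINI := by
  intro ι _ _ u hu p hp hp1 a b ha hb s hs
  exact hSUP ι (V u) (S u) (H u) (hCALC ι u hu) (hLOC ι u hu) p hp hp1 a b ha hb s hs

end Pool.T3
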