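import Pool.Agent.Work.MP_b5407d_t3.InterfaceL
import Pool.Agent.Work.MP_b5407d_lp_helper23.CEN
import Pool.Agent.Work.MP_b5407d_lp_helper57.WUL

set_option autoImplicit false

open MeasureTheory Set Filter Topology

namespace Pool.T3

open Pool.Agent.Work.LPBM (E supp Wulff CBody mp Span Pset)

namespace GEN3_

/-- coordinates -/
def co (x : E 3) : R3 := WithLp.ofLp x

/-- back -/
noncomputable def em (v : R3) : E 3 := WithLp.toLp 2 v

lemma co_mp : MeasurePreserving co volume volume := PiLp.volume_preserving_ofLp (Fin 3)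

lemma co_em (v : R3) : co (em v) = v := rfl

lemma em_co (x : E 3) : em (co x) = x := rfl

lemma co_neg (x : E 3) : co (-x) = -co x := rfl

lemma em_cont : Continuous em := PiLp.continuous_toLp 2 _

lemma inner_dt (x y : E 3) : inner ℝ x y = dt (co x) (co y) := by
  simp only [PiLp.inner_apply, Fin.sum_univ_three, dt, co, RCLike.inner_apply, conj_trivial]
  ring

lemma dt_self_norm (x : E 3) : dt (co x) (co x) = ‖x‖ ^ 2 := by
  rw [← inner_dt, real_inner_self_eq_norm_sq]

lemma sup_le_norm (x : R3) : ‖x‖ ≤ ‖em x‖ := by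
  refine (pi_norm_le_iff_of_nonneg (norm_nonneg _)).mpr fun k => ?_
  exact PiLp.norm_apply_le (em x) k

lemma supp_even {K : Set (E 3)} (hs : ∀ x ∈ K, -x ∈ K) (u : E 3) : supp K (-u) = supp K u := by
  unfold supp
  congr 1
  ext r
  constructor
  · rintro ⟨y, hy, rfl⟩
    exact ⟨-y, hs y hy, by simp⟩
  · rintro ⟨y, hy, rfl⟩
    exact ⟨-y, hs y hy, by simp⟩

lemma three_le {N : ℕ} {θ : Fin N → E 3} (h : Span θ) : 3 ≤ N := by
  by_contra hN
  push Not at hN
  obtain ⟨c, hc, hx⟩ := h
  let L : E 3 →ₗ[ℝ] (Fin N → ℝ) := LinearMap.pi fun i => (innerₛₗ ℝ (θ i))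
  have hlt : Module.finrank ℝ (Fin N → ℝ) < Module.finrank ℝ (E 3) := by
    rw [finrank_euclideanSpace, Fintype.card_fin, Module.finrank_fin_fun]
    exact hN
  have hk := LinearMap.ker_ne_bot_of_finrank_lt (f := L) hlt
  obtain ⟨x, hx1, hx2⟩ := (Submodule.ne_bot_iff _).mp hk
  obtain ⟨i, hi⟩ := hx x
  have h0 : inner ℝ (θ i) x = 0 := by
    have := congrFun (LinearMap.mem_ker.mp hx1) i
    exact this
  rw [h0] at hi
  have := mul_pos hc (norm_pos_iff.mpr hx2)
  linarith

lemma dt_cont2 (a : R3) : Continuous (fun x : R3 => dt a x) := by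
  unfold dt
  fun_prop

lemma K_closed {ι : Type} (u : ι → R3) (h : ι → ℝ) : IsClosed (Pool.T3.K u h) := by
  have : Pool.T3.K u h = ⋂ i, {x | |dt (u i) x| ≤ h i} := by
    ext x; simp [Pool.T3.K]
  rw [this]
  exact isClosed_iInter fun i => isClosed_le (continuous_abs.comp (dt_cont2 _)) continuous_const

end GEN3_

open GEN3_

theorem stmt_GEN3 (hFINI : Stmt_FINI) (hGPD : Stmt_GPD) (hUSC : Stmt_USC) : Stmt_GEN3 := by
  intro p K C hp hp1 hK hC hKs hCs t ht
  have hp0 : 0 < p := by linarith
  obtain ⟨_, hKpos, hKc, hKn, hKi, _⟩ :=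
    Pool.Agent.Work.LPBM.helper23.stmt_CEN 3 K (by norm_num) hK
  obtain ⟨_, hCpos, hCc, hCn, hCi, _⟩ :=
    Pool.Agent.Work.LPBM.helper23.stmt_CEN 3 C (by norm_num) hC
  have hsph : ∀ u ∈ Metric.sphere (0 : E 3) 1, u ≠ 0 := by
    intro u hu h0
    rw [h0] at hu
    simp at hu
  have hpos : ∀ a b : ℝ, 0 < a → 0 < b → 0 < (1 - t) * a ^ p + t * b ^ p := by
    intro a b ha hb
    have h1 : 0 < a ^ p := Real.rpow_pos_of_pos ha p
    have h2 : 0 < b ^ p := Real.rpow_pos_of_pos hb p
    rcases eq_or_lt_of_le ht.1 with h | h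
    · rw [← h]; simpa using h1
    · have : 0 ≤ (1 - t) * a ^ p := mul_nonneg (by linarith [ht.2]) h1.le
      have : 0 < t * b ^ p := mul_pos h h2
      linarith
  set M : E 3 → ℝ := fun u => mp p t (supp K u) (supp C u) with hM
  have hMc : ∀ u : E 3, u ≠ 0 → ContinuousAt M u := by
    intro u hu0
    have c1 : ContinuousAt (fun u => supp K u ^ p) u :=
      hKc.continuousAt.rpow_const (Or.inl (hKpos u hu0).ne')
    have c2 : ContinuousAt (fun u => supp C u ^ p) u :=
      hCc.continuousAt.rpow_const (Or.inl (hCpos u hu0).ne')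
    have c3 : ContinuousAt (fun u => (1 - t) * supp K u ^ p + t * supp C u ^ p) u :=
      (c1.const_mul (1 - t)).add (c2.const_mul t)
    exact c3.rpow_const (Or.inl (hpos _ _ (hKpos u hu0) (hCpos u hu0)).ne')
  have hMe : ∀ u, M (-u) = M u := by
    intro u
    simp only [hM, supp_even hKs, supp_even hCs]
  have hvK : 0 < (volume K).toReal :=
    ENNReal.toReal_pos ((isOpen_interior.measure_pos volume hK.2.2.1).trans_le
      (measure_mono interior_subset)).ne' hK.2.1.measure_lt_top.ne
  have hvC : 0 < (volume C).toReal :=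
    ENNReal.toReal_pos ((isOpen_interior.measure_pos volume hC.2.2.1).trans_le
      (measure_mono interior_subset)).ne' hC.2.1.measure_lt_top.ne
  refine Pool.Agent.Work.LPBM.helper57.stmt_WUL 3 M _ (by norm_num) ?_ ?_ ?_
  · intro u hu
    exact (hMc u (hsph u hu)).continuousWithinAt
  · intro u hu
    have hu0 := hsph u hu
    exact Real.rpow_pos_of_pos (hpos _ _ (hKpos u hu0) (hCpos u hu0)) _
  intro N θ σ hθ hσ hspan
  have hN := three_le hspan
  obtain ⟨c, hc, hspan'⟩ := hspan
  set th : Fin N → R3 := fun i => co (θ i) with hth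
  set m : Fin N → ℝ := fun i => M (θ i) with hm
  -- the polytope
  have hP : Pset θ m = co ⁻¹' (Pool.T3.K th m) := by
    ext x
    constructor
    · intro hx i
      have h1 : inner ℝ (θ i) x ≤ m i := hx i
      have h2 : inner ℝ (θ (σ i)) x ≤ m (σ i) := hx (σ i)
      rw [hσ, inner_neg_left] at h2
      have h3 : m (σ i) = m i := by
        show M (θ (σ i)) = M (θ i)
        rw [hσ, hMe]
      rw [h3] at h2
      show |dt (co (θ i)) (co x)| ≤ m i
      rw [← inner_dt]
      exact abs_le.mpr ⟨by linarith, h1⟩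
    · intro hx i
      have h1 : |dt (co (θ i)) (co x)| ≤ m i := hx i
      rw [← inner_dt] at h1
      exact (le_abs_self _).trans h1
  have hvP : (volume (Pset θ m)).toReal = V th m := by
    rw [hP, co_mp.measure_preimage (K_closed th m).measurableSet.nullMeasurableSet]
    rfl
  have hgoal : (volume K).toReal ^ (1 - t) * (volume C).toReal ^ t ≤ V th m := by
    refine le_of_forall_pos_le_add fun ε hε => ?_
    have hspR : ∀ x : R3, ∃ i, c * ‖x‖ ≤ |dt (th i) x| := by
      intro x
      obtain ⟨i, hi⟩ := hspan' (em x)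
      refine ⟨i, ?_⟩
      have h1 : c * ‖x‖ ≤ c * ‖em x‖ := mul_le_mul_of_nonneg_left (sup_le_norm x) hc.le
      rw [inner_dt, co_em] at hi
      exact (h1.trans hi).trans (le_abs_self _)
    obtain ⟨η, hη, hU⟩ := hUSC N th m c hc hspR ε hε
    -- continuity of M along the family
    have hcont : ContinuousAt (fun u : Fin N → R3 => fun i => M (em (u i))) th := by
      rw [continuousAt_pi]
      intro i
      have h1 : ContinuousAt (fun u : Fin N → R3 => em (u i)) th :=
        (em_cont.comp (continuous_apply i)).continuousAt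
      have h2 : ContinuousAt M (em (th i)) := hMc _ (hsph _ (hθ i))
      exact ContinuousAt.comp (f := fun u : Fin N → R3 => em (u i)) (g := M) h2 h1
    obtain ⟨η1, hη1, hη1'⟩ := Metric.continuousAt_iff.mp hcont η hη
    set η2 : ℝ := min (min η (η1 / 2)) (c / 6) with hη2
    have hη2p : 0 < η2 := lt_min (lt_min hη (by linarith)) (by linarith)
    obtain ⟨u, hu, hclose⟩ := hGPD N th hN (by
      intro i
      show dt (co (θ i)) (co (θ i)) = 1
      rw [dt_self_norm, mem_sphere_zero_iff_norm.mp (hθ i), one_pow]) η2 hη2p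
    have hdist : dist u th < η1 := by
      refine lt_of_le_of_lt ?_ (half_lt_self hη1)
      refine (dist_pi_le_iff (by linarith)).mpr fun i => ?_
      refine (dist_pi_le_iff (by linarith)).mpr fun k => ?_
      rw [Real.dist_eq]
      exact (hclose i k).le.trans ((min_le_left _ _).trans (min_le_right _ _))
    have hMclose := hη1' hdist
    have hne : ∀ i, em (u i) ≠ 0 := by
      intro i h0
      have h1 := hu.unit i
      have h2 : u i = 0 := by
        have := congrArg co h0
        exact this
      rw [h2] at h1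
      simp [dt] at h1
    have hUv := hU u (fun i => M (em (u i)))
      (fun i k => (hclose i k).trans_le ((min_le_left _ _).trans (min_le_left _ _)))
      (fun i => by
        have h1 := (dist_pi_lt_iff hη).mp hMclose i
        rw [Real.dist_eq] at h1
        exact h1)
    refine le_trans ?_ hUv
    set a : Fin N → ℝ := fun i => supp K (em (u i)) with ha
    set b : Fin N → ℝ := fun i => supp C (em (u i)) with hb
    have hap : Pos a := fun i => hKpos _ (hne i)
    have hbp : Pos b := fun i => hCpos _ (hne i)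
    have hF := hFINI (Fin N) u hu p hp hp1 a b hap hbp t ht
    -- volumes
    have hbd : ∀ h : Fin N → ℝ, volume (Pool.T3.K u h) ≠ ⊤ := by
      intro h
      have hb2 : ∃ B, ∀ i, h i ≤ B := by
        refine ⟨∑ i, |h i|, fun i => (le_abs_self _).trans ?_⟩
        exact Finset.single_le_sum (f := fun i => |h i|) (fun j _ => abs_nonneg _)
          (Finset.mem_univ i)
      obtain ⟨B, hB⟩ := hb2
      have hsub : Pool.T3.K u h ⊆ Metric.closedBall 0 (2 * B / c) := by
        intro x hx
        rw [mem_closedBall_zero_iff]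
        obtain ⟨i, hi⟩ := hspR x
        have h1 : |dt (u i) x| ≤ h i := hx i
        have h2 : dt (th i) x = dt (u i) x - ((u i 0 - th i 0) * x 0 + (u i 1 - th i 1) * x 1 +
            (u i 2 - th i 2) * x 2) := by
          simp only [dt]; ring
        have hc6 : ∀ k, |(u i k - th i k) * x k| ≤ c / 6 * ‖x‖ := by
          intro k
          rw [abs_mul]
          refine mul_le_mul ((hclose i k).le.trans (min_le_right _ _)) (norm_le_pi_norm x k)
            (abs_nonneg _) (by linarith)
        have h3 : |dt (th i) x| ≤ |dt (u i) x| + c / 2 * ‖x‖ := by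
          rw [h2]
          have e1 := hc6 0
          have e2 := hc6 1
          have e3 := hc6 2
          rw [abs_le] at *
          refine ⟨?_, ?_⟩
          · linarith [abs_nonneg (dt (u i) x), neg_abs_le (dt (u i) x), le_abs_self (dt (u i) x)]
          · linarith [abs_nonneg (dt (u i) x), neg_abs_le (dt (u i) x), le_abs_self (dt (u i) x)]
        have h4 := hB i
        rw [le_div_iff₀ hc]
        nlinarith
      exact ((measure_mono hsub).trans_lt (isCompact_closedBall _ _).measure_lt_top).ne
    have hvol : ∀ B : Set (E 3), IsCompact B → (∀ x ∈ B, -x ∈ B) →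
        (∀ u : E 3, ∀ x ∈ B, inner ℝ x u ≤ supp B u) →
        (volume B).toReal ≤ V u (fun i => supp B (em (u i))) := by
      intro B hBc hBs hBi
      have hsub : B ⊆ co ⁻¹' (Pool.T3.K u (fun i => supp B (em (u i)))) := by
        intro x hx i
        show |dt (u i) (co x)| ≤ supp B (em (u i))
        have e : dt (u i) (co x) = inner ℝ x (em (u i)) := by
          rw [inner_dt, co_em]
          simp only [dt]; ring
        rw [e, abs_le]
        have h1 := hBi (em (u i)) x hx
        have h2 := hBi (em (u i)) (-x) (hBs x hx)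
        rw [inner_neg_left] at h2
        exact ⟨by linarith, h1⟩
      have h1 := measure_mono (μ := volume) hsub
      rw [co_mp.measure_preimage (K_closed _ _).measurableSet.nullMeasurableSet] at h1
      exact ENNReal.toReal_mono (hbd _) h1
    have hVa : (volume K).toReal ≤ V u a := hvol K hK.2.1 hKs hKi
    have hVb : (volume C).toReal ≤ V u b := hvol C hC.2.1 hCs hCi
    have hVa0 : 0 < V u a := hvK.trans_le hVa
    have hVb0 : 0 < V u b := hvC.trans_le hVb
    have hVM0 : 0 ≤ V u (fun i => M (em (u i))) := ENNReal.toReal_nonneg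
    have hag := Real.geom_mean_le_arith_mean2_weighted (w₁ := 1 - t) (w₂ := t)
      (p₁ := V u a ^ (p / 3)) (p₂ := V u b ^ (p / 3)) (by linarith [ht.2]) ht.1
      (Real.rpow_nonneg hVa0.le _) (Real.rpow_nonneg hVb0.le _) (by ring)
    have hfin : (V u a ^ (1 - t) * V u b ^ t) ^ (p / 3) ≤ V u (fun i => M (em (u i))) ^ (p / 3) := by
      refine le_trans (le_of_eq ?_) (hag.trans hF)
      rw [Real.mul_rpow (Real.rpow_nonneg hVa0.le _) (Real.rpow_nonneg hVb0.le _),
        ← Real.rpow_mul hVa0.le, ← Real.rpow_mul hVb0.le, ← Real.rpow_mul hVa0.le,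
        ← Real.rpow_mul hVb0.le, mul_comm (1 - t) (p / 3), mul_comm t (p / 3)]
    have hfin2 := (Real.rpow_le_rpow_iff (by positivity) hVM0 (by positivity)).mp hfin
    refine le_trans ?_ hfin2
    exact mul_le_mul (Real.rpow_le_rpow hvK.le hVa (by linarith [ht.2]))
      (Real.rpow_le_rpow hvC.le hVb ht.1) (Real.rpow_nonneg hvC.le _) (Real.rpow_nonneg hVa0.le _)
  rw [← hvP] at hgoal
  exact hgoal

end Pool.T3
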