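import Pool.Agent.Work.MP_b5407d_t3.Interface

/-!
# MP_b5407d, T3, block INE: the integrated inequality
-/

set_option autoImplicit false

open MeasureTheory Set Filter Topology

namespace Pool.T3

namespace INE_

/-- one variable lemma -/
theorem taylor2 (G G1 G2 : ℝ → ℝ) (A B : ℝ) (h1 : ∀ s ∈ Icc (0 : ℝ) 1, HasDerivAt G (G1 s) s)
    (h2 : ∀ s ∈ Icc (0 : ℝ) 1, HasDerivAt G1 (G2 s) s)
    (h3 : ∀ s ∈ Icc (0 : ℝ) 1, G2 s ≤ A * s + B) : G 1 ≤ G 0 + G1 0 + (A / 6 + B / 2) := by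
  set P1 : ℝ → ℝ := fun s => G1 s - G1 0 - A / 2 * s ^ 2 - B * s with hP1
  set P0 : ℝ → ℝ := fun s => G s - G 0 - G1 0 * s - A / 6 * s ^ 3 - B / 2 * s ^ 2 with hP0
  have d1 : ∀ s ∈ Icc (0 : ℝ) 1, HasDerivAt P1 (G2 s - A * s - B) s := by
    intro s hs
    have e1 : HasDerivAt (fun s : ℝ => A / 2 * s ^ 2) (A / 2 * (2 * s)) s := by
      have := (hasDerivAt_pow 2 s).const_mul (A / 2)
      simpa using this
    have e2 : HasDerivAt (fun s : ℝ => B * s) (B * 1) s := (hasDerivAt_id s).const_mul B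
    have := (((h2 s hs).sub_const (G1 0)).sub e1).sub e2
    have h : G2 s - A * s - B = G2 s - A / 2 * (2 * s) - B * 1 := by ring
    rw [h]; exact this
  have d0 : ∀ s ∈ Icc (0 : ℝ) 1, HasDerivAt P0 (P1 s) s := by
    intro s hs
    have e1 : HasDerivAt (fun s : ℝ => A / 6 * s ^ 3) (A / 6 * (3 * s ^ 2)) s := by
      have := (hasDerivAt_pow 3 s).const_mul (A / 6)
      simpa using this
    have e2 : HasDerivAt (fun s : ℝ => B / 2 * s ^ 2) (B / 2 * (2 * s)) s := by
      have := (hasDerivAt_pow 2 s).const_mul (B / 2)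
      simpa using this
    have e3 : HasDerivAt (fun s : ℝ => G1 0 * s) (G1 0 * 1) s := (hasDerivAt_id s).const_mul (G1 0)
    have := ((((h1 s hs).sub_const (G 0)).sub e3).sub e1).sub e2
    have h : P1 s = G1 s - G1 0 * 1 - A / 6 * (3 * s ^ 2) - B / 2 * (2 * s) := by
      rw [hP1]; ring
    rw [h]; exact this
  have a1 : AntitoneOn P1 (Icc 0 1) := by
    apply antitoneOn_of_deriv_nonpos (convex_Icc 0 1)
    · exact fun s hs => (d1 s hs).continuousAt.continuousWithinAt
    · exact fun s hs => (d1 s (interior_subset hs)).differentiableAt.differentiableWithinAt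
    · intro s hs
      rw [(d1 s (interior_subset hs)).deriv]
      linarith [h3 s (interior_subset hs)]
  have z1 : P1 0 = 0 := by rw [hP1]; ring
  have n1 : ∀ s ∈ Icc (0 : ℝ) 1, P1 s ≤ 0 := by
    intro s hs
    rw [← z1]
    exact a1 (left_mem_Icc.mpr zero_le_one) hs hs.1
  have a0 : AntitoneOn P0 (Icc 0 1) := by
    apply antitoneOn_of_deriv_nonpos (convex_Icc 0 1)
    · exact fun s hs => (d0 s hs).continuousAt.continuousWithinAt
    · exact fun s hs => (d0 s (interior_subset hs)).differentiableAt.differentiableWithinAt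
    · intro s hs
      rw [(d0 s (interior_subset hs)).deriv]
      exact n1 s (interior_subset hs)
  have fin := a0 (left_mem_Icc.mpr zero_le_one) (right_mem_Icc.mpr zero_le_one) zero_le_one
  rw [hP0] at fin
  simp only at fin
  linarith

/-- the point of the path -/
theorem pt_eq (p h x s : ℝ) (hp : 0 < p) (hh : 0 < h) (hY : 0 < 1 + s * ((1 + x) ^ p - 1)) :
    0 < h ^ p + s * (h ^ p * ((1 + x) ^ p - 1)) ∧
    (h ^ p + s * (h ^ p * ((1 + x) ^ p - 1))) ^ (1 / p) = h * zz p x s ∧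
    (1 / p) * (h ^ p * ((1 + x) ^ p - 1)) * (h ^ p + s * (h ^ p * ((1 + x) ^ p - 1))) ^ (1 / p - 1)
      = h * zz p x s * ee p x s := by
  have hhp : 0 < h ^ p := Real.rpow_pos_of_pos hh p
  have e : h ^ p + s * (h ^ p * ((1 + x) ^ p - 1)) = h ^ p * (1 + s * ((1 + x) ^ p - 1)) := by ring
  have e1 : (h ^ p) ^ (1 / p) = h := by
    rw [← Real.rpow_mul hh.le, mul_one_div_cancel hp.ne', Real.rpow_one]
  have e2 : (h ^ p) ^ (1 / p - 1) = h * (h ^ p)⁻¹ := by
    rw [Real.rpow_sub_one hhp.ne', e1]; rfl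
  refine ⟨?_, ?_, ?_⟩
  · rw [e]; exact mul_pos hhp hY
  · rw [e, Real.mul_rpow hhp.le hY.le, e1]; rfl
  · rw [e, Real.mul_rpow hhp.le hY.le, e2, Real.rpow_sub_one hY.ne']
    unfold zz ee
    field_simp

end INE_

open INE_ in
theorem stmt_INE (hPATH : Stmt_PATH) (hUEX : Stmt_UEX) (hEST : Stmt_EST) : Stmt_INE := by
  intro ι _ v S H δ ε h f hc η hη
  have hε : 0 < ε := hc.epos
  have hε1 : ε < 1 / 2 := by linarith [hc.small, hc.dpos]
  set p : ℝ := 1 - ε with hpe
  have hp0 : 0 < p := by linarith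
  have hp1 : p < 1 := by linarith
  obtain ⟨C, x0, -, hx0, hx1, hU⟩ := hUEX p hp0 hp1
  have hpos := hc.adm.hpos
  have hsmall : ∀ᶠ t : ℝ in 𝓝 0, ∀ i, |t * (f i / h i)| ≤ x0 := by
    rw [Filter.eventually_all]
    intro i
    have : Tendsto (fun t : ℝ => |t * (f i / h i)|) (𝓝 0) (𝓝 |0 * (f i / h i)|) := by
      apply Continuous.tendsto
      fun_prop
    rw [zero_mul, abs_zero] at this
    filter_upwards [this.eventually (gt_mem_nhds hx0)] with t ht using ht.le
  filter_upwards [hsmall, hEST ι v S H δ ε h f hc η hη] with t ht hE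
  set w : ι → ℝ := fun i => f i / h i with hw
  have hY : ∀ s ∈ Icc (0 : ℝ) 1, ∀ i, 0 < 1 + s * ((1 + t * w i) ^ p - 1) :=
    fun s hs i => (hU (t * w i) (ht i) s hs).1
  have hP : ∀ s ∈ Icc (0 : ℝ) 1, _ := fun s hs => hPATH ι v S H hc.cal p hp0 hp1 (fun i => h i ^ p)
    (fun i => h i ^ p * ((1 + t * w i) ^ p - 1)) s
    (fun i => (pt_eq p (h i) (t * w i) s hp0 (hpos i) (hY s hs i)).1)
  simp only at hP
  set G : ℝ → ℝ := fun s => v (fun i => (h i ^ p + s * (h i ^ p * ((1 + t * w i) ^ p - 1))) ^ (1 / p))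
    ^ (p / 3) with hG
  set G1 : ℝ → ℝ := fun s => (p / 3) *
    v (fun i => (h i ^ p + s * (h i ^ p * ((1 + t * w i) ^ p - 1))) ^ (1 / p)) ^ (p / 3 - 1) *
    ∑ i, S (fun i => (h i ^ p + s * (h i ^ p * ((1 + t * w i) ^ p - 1))) ^ (1 / p)) i *
      ((1 / p) * (h i ^ p * ((1 + t * w i) ^ p - 1)) *
        (h i ^ p + s * (h i ^ p * ((1 + t * w i) ^ p - 1))) ^ (1 / p - 1)) with hG1
  have hH : ∀ s ∈ Icc (0 : ℝ) 1,
      (fun i => (h i ^ p + s * (h i ^ p * ((1 + t * w i) ^ p - 1))) ^ (1 / p)) = hp p h f t s := by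
    intro s hs
    funext i
    rw [(pt_eq p (h i) (t * w i) s hp0 (hpos i) (hY s hs i)).2.1]
    rfl
  have hF : ∀ s ∈ Icc (0 : ℝ) 1,
      (fun i => (1 / p) * (h i ^ p * ((1 + t * w i) ^ p - 1)) *
        (h i ^ p + s * (h i ^ p * ((1 + t * w i) ^ p - 1))) ^ (1 / p - 1)) = fp p h f t s := by
    intro s hs
    funext i
    rw [(pt_eq p (h i) (t * w i) s hp0 (hpos i) (hY s hs i)).2.2]
    rfl
  have key := taylor2 G G1 (fun s => -((p / 3) * v (hp p h f t s) ^ (p / 3 - 1) *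
      (J v S H (hp p h f t s) (fp p h f t s) - (1 - p) * Q v S (hp p h f t s) (fp p h f t s))))
    ((p / 3) * (δ * (-(9 / 2 * ε * aa S h f * t ^ 3))))
    ((p / 3) * (δ * (14 * ε * mo S h f 4 * t ^ 4) + η * t ^ 4))
    (fun s hs => (hP s hs).1)
    (fun s hs => by
      have := (hP s hs).2
      rw [hH s hs, hF s hs] at this
      exact this)
    (fun s hs => by
      have e := hE s hs
      have h1p : 1 - p = ε := by rw [hpe]; ring
      rw [h1p]
      have hpp : 0 ≤ p / 3 := by positivity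
      have := mul_le_mul_of_nonneg_left e hpp
      calc _ = p / 3 * -(v (hp p h f t s) ^ (p / 3 - 1) *
            (J v S H (hp p h f t s) (fp p h f t s) -
              ε * Q v S (hp p h f t s) (fp p h f t s))) := by ring
        _ ≤ _ := this
        _ = _ := by ring)
  -- end points
  have hsum : ∑ i, S h i * h i = 3 := by
    rw [hc.cal.e3 h hpos, hc.adm.vol, mul_one]
  have hw1 : ∀ i, 0 < 1 + t * w i := by
    intro i
    have := (abs_le.mp (ht i)).1
    have hh : t * (f i / h i) = t * w i := rfl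
    rw [hh] at this
    linarith
  have hp0' : hp p h f t 0 = h := by
    funext i
    unfold hp zz
    simp
  have hfp0 : ∀ i, fp p h f t 0 i = h i * (((1 + t * w i) ^ p - 1) / p) := by
    intro i
    unfold fp
    rw [hp0']
    unfold ee
    simp [hw]
  have hp1' : hp p h f t 1 = h + t • f := by
    funext i
    unfold hp zz
    have hne := (hpos i).ne'
    have h1 : (1 + 1 * ((1 + t * (f i / h i)) ^ p - 1)) ^ (1 / p) = 1 + t * (f i / h i) := by
      rw [one_mul, add_sub_cancel, ← Real.rpow_mul (hw1 i).le, mul_one_div_cancel hp0.ne',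
        Real.rpow_one]
    rw [h1]
    simp only [Pi.add_apply, Pi.smul_apply, smul_eq_mul]
    field_simp
  have m0 : (0 : ℝ) ∈ Icc (0 : ℝ) 1 := left_mem_Icc.mpr zero_le_one
  have m1 : (1 : ℝ) ∈ Icc (0 : ℝ) 1 := right_mem_Icc.mpr zero_le_one
  have g1 : G 1 = v (h + t • f) ^ (p / 3) := by
    rw [hG]; simp only
    rw [hH 1 m1, hp1']
  have g0 : G 0 = 1 := by
    rw [hG]; simp only
    rw [hH 0 m0, hp0', hc.adm.vol, Real.one_rpow]
  have g10 : G1 0 = (1 / 3) * ∑ i, S h i * h i * (1 + t * (f i / h i)) ^ p - 1 := by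
    have e1 : G1 0 = (p / 3) * v (hp p h f t 0) ^ (p / 3 - 1) *
        ∑ i, S (hp p h f t 0) i * fp p h f t 0 i := by
      rw [hG1]; simp only
      rw [hH 0 m0]
      congr 1
      apply Finset.sum_congr rfl
      intro i _
      rw [← hF 0 m0]
    rw [e1, hp0', hc.adm.vol, Real.one_rpow, mul_one]
    have e2 : ∑ i, S h i * fp p h f t 0 i
        = (1 / p) * (∑ i, S h i * h i * (1 + t * (f i / h i)) ^ p - ∑ i, S h i * h i) := by
      rw [← Finset.sum_sub_distrib, Finset.mul_sum]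
      apply Finset.sum_congr rfl
      intro i _
      rw [hfp0 i]
      have : w i = f i / h i := rfl
      rw [this]
      field_simp
    rw [e2, hsum]
    field_simp
  rw [g1, g0, g10] at key
  have hpp : p / 3 * (η * t ^ 4) / 2 ≤ η * t ^ 4 := by
    have : 0 ≤ η * t ^ 4 := by positivity
    nlinarith
  calc v (h + t • f) ^ (p / 3) ≤ _ := key
    _ ≤ _ := by linarith

end Pool.T3
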