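import Mathlib

/-!
# `L_p`-Brunn-Minkowski inequality for origin symmetric bodies of `ℝ³`, all `p ≥ 1/2`

Interface for MP_b5407d_gt (theorem T3 of helper57, fourth order test of helper9, written up by
helper97).  Every block is a proposition `Stmt_X`; its proof is in the docstring.

GENERAL IDEA.  Fix unit vectors `u i` of `ℝ³`, any three independent.  For `h > 0` let
`K u h = {x : |u i . x| ≤ h i}`, `V u h` its volume, `S i = ∂V/∂h i`, `H i j = ∂ S i/∂ h j`.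
Local inequality with constant `c`: `c * Q ≤ J`, where `w = f/h`, `Q = Σ S f²/h - (Σ S f)²/(3V)`,
`J = - f^T H f + (2/(3V)) (Σ S f)²`.  `J ≥ (1-p) Q` for all `h`, `f` is the concavity of
`y ↦ V(y^(1/p))^(p/3)`.  Suppose `J < Q/2` somewhere, with the smallest number of vectors.  Minimise
`J/Q + δ R`, `R = (3/2) log ΣS - log V` (penalty against degeneration of the shape, no other effect).
Facets cannot vanish in the limit (ground state inequality `van`).  At the minimiser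
`(H f) i = - ε S i w i`, `0 < ε < 1/2`, and the local inequality with constant
`ε - δ (R(h') - R(h))` holds for all `h'`.  Integrate it along the `L_p` path (`p = 1 - ε`) from `h`
to `h + t f`: up to errors `O(δ)`, `(V(h+tf)/V(h))^(p/3) ≤ E (1+tw)^p`.  `t ↦ V(h+tf)` is a cubic
polynomial on both sides of `0`; the terms `t³` must agree, the terms `t⁴` give
`(1+ε) E w⁴ ≤ 3 ε (E w²)² + O(δ)`, so `1 + ε ≤ 3 ε + O(δ)`, a contradiction.
-/

set_option autoImplicit false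

open MeasureTheory Set Filter Topology

namespace Pool.T3

/-! ## Definitions -/

abbrev R3 : Type := Fin 3 → ℝ

/-- scalar product -/
def dt (a b : R3) : ℝ := a 0 * b 0 + a 1 * b 1 + a 2 * b 2

/-- cross product -/
def cr (a b : R3) : R3 :=
  ![a 1 * b 2 - a 2 * b 1, a 2 * b 0 - a 0 * b 2, a 0 * b 1 - a 1 * b 0]

/-- determinant -/
def de (a b c : R3) : ℝ := dt (cr a b) c

/-- the symmetric polytope -/
def K {ι : Type} (u : ι → R3) (h : ι → ℝ) : Set R3 := {x | ∀ i, |dt (u i) x| ≤ h i}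

/-- its volume -/
noncomputable def V {ι : Type} (u : ι → R3) (h : ι → ℝ) : ℝ := (volume (K u h)).toReal

/-- first coordinate derivatives of the volume (twice the area of the facet `i`) -/
noncomputable def S {ι : Type} [DecidableEq ι] (u : ι → R3) (h : ι → ℝ) (i : ι) : ℝ :=
  deriv (fun s => V u (Function.update h i s)) (h i)

/-- second coordinate derivatives of the volume -/
noncomputable def H {ι : Type} [DecidableEq ι] (u : ι → R3) (h : ι → ℝ) (i j : ι) : ℝ :=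
  deriv (fun s => S u (Function.update h j s) i) (h j)

/-- admissible families: unit vectors, at least three, any three independent -/
structure Fam {ι : Type} (u : ι → R3) : Prop where
  unit : ∀ i, dt (u i) (u i) = 1
  ind : ∀ i j k, i ≠ j → i ≠ k → j ≠ k → de (u i) (u j) (u k) ≠ 0
  three : ∃ i j k : ι, i ≠ j ∧ i ≠ k ∧ j ≠ k

/-- positive vectors -/
def Pos {ι : Type} (h : ι → ℝ) : Prop := ∀ i, 0 < h i

/-- the point of `span (u i, u j)` with `u i . x = α`, `u j . x = β` -/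
noncomputable def pt {ι : Type} (u : ι → R3) (i j : ι) (α β : ℝ) : R3 :=
  (1 / dt (cr (u i) (u j)) (cr (u i) (u j))) •
    (α • cr (u j) (cr (u i) (u j)) + β • cr (cr (u i) (u j)) (u i))

/-- chord length: length of `{c : pt i j α β + c • (u i × u j) satisfies the constraints m ≠ i, j}`.
It does not depend on `h i`, `h j`. -/
noncomputable def Lam {ι : Type} (u : ι → R3) (i j : ι) (α β : ℝ) (h : ι → ℝ) : ℝ :=
  (volume {c : ℝ | ∀ m, m ≠ i → m ≠ j →
    |dt (u m) (pt u i j α β) + c * de (u i) (u j) (u m)| ≤ h m}).toReal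

/-- `Q = Σ S f²/h - (Σ S f)²/(3v)` (variance with respect to the cone measure) -/
noncomputable def Q {ι : Type} [Fintype ι] (v : (ι → ℝ) → ℝ) (S : (ι → ℝ) → ι → ℝ)
    (h f : ι → ℝ) : ℝ :=
  (∑ i, S h i * f i ^ 2 / h i) - (∑ i, S h i * f i) ^ 2 / (3 * v h)

/-- `J = - f^T H f + (2/(3v)) (Σ S f)²` -/
noncomputable def J {ι : Type} [Fintype ι] (v : (ι → ℝ) → ℝ) (S : (ι → ℝ) → ι → ℝ)
    (H : (ι → ℝ) → ι → ι → ℝ) (h f : ι → ℝ) : ℝ :=
  -(∑ i, ∑ j, H h i j * f i * f j) + 2 / (3 * v h) * (∑ i, S h i * f i) ^ 2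

/-- the penalty -/
noncomputable def R {ι : Type} [Fintype ι] (v : (ι → ℝ) → ℝ) (S : (ι → ℝ) → ι → ℝ)
    (h : ι → ℝ) : ℝ :=
  3 / 2 * Real.log (∑ i, S h i) - Real.log (v h)

/-- linear functional with coefficients `a` -/
noncomputable def lin {ι : Type} [Fintype ι] (a : ι → ℝ) : (ι → ℝ) →L[ℝ] ℝ :=
  ∑ i, a i • (ContinuousLinearMap.proj i : (ι → ℝ) →L[ℝ] ℝ)

/-- The properties of the volume function which are used by the abstract part. -/
structure Calc {ι : Type} [Fintype ι] (v : (ι → ℝ) → ℝ) (S : (ι → ℝ) → ι → ℝ)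
    (H : (ι → ℝ) → ι → ι → ℝ) : Prop where
  dv : ∀ h, Pos h → HasFDerivAt v (lin (S h)) h
  dS : ∀ h, Pos h → ∀ i, HasFDerivAt (fun h => S h i) (lin (H h i)) h
  cH : ∀ i j, ContinuousOn (fun h => H h i j) {h | Pos h}
  vp : ∀ h, Pos h → 0 < v h
  Sn : ∀ h, Pos h → ∀ i, 0 ≤ S h i
  Hs : ∀ h, Pos h → ∀ i j, H h i j = H h j i
  Hn : ∀ h, Pos h → ∀ i j, i ≠ j → 0 ≤ H h i j
  Hr : ∀ h, Pos h → ∀ i, 0 ≤ ∑ j, H h i j
  e3 : ∀ h, Pos h → ∑ i, S h i * h i = 3 * v h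
  e2 : ∀ h, Pos h → ∀ i, ∑ j, H h i j * h j = 2 * S h i
  hv : ∀ h, Pos h → ∀ c : ℝ, 0 < c → v (c • h) = c ^ 3 * v h
  hS : ∀ h, Pos h → ∀ c : ℝ, 0 < c → ∀ i, S (c • h) i = c ^ 2 * S h i
  hH : ∀ h, Pos h → ∀ c : ℝ, 0 < c → ∀ i j, H (c • h) i j = c * H h i j
  slb : ∀ h, Pos h → ∀ i, v h ≤ h i * ∑ j, S h j
  bal : ∀ (h : ι → ℝ) (ρ : ℝ), 0 < ρ → (∀ i, ρ ≤ h i) → ρ ^ 3 ≤ v h
  ext : ∀ (h : ι → ℝ) (ρ : ℝ), 0 < ρ → (∀ i, ρ ≤ h i) → ∀ i, 0 < S h i → h i * ρ ^ 2 ≤ 6 * v h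
  sqc : ∀ h, Pos h → ∀ (f : ι → ℝ) (i : ι), 0 < S h i → ∀ᶠ t : ℝ in 𝓝 0,
    S (h + t • f) i ≤ S h i + t * (∑ j, H h i j * f j) +
      t ^ 2 * (∑ j, H h i j * f j) ^ 2 / (4 * S h i)
  cub : ∀ h, Pos h → (∀ i, 0 < S h i) → ∀ f : ι → ℝ, ∃ cm cp : ℝ, cm ≤ cp ∧
    (∀ᶠ t : ℝ in 𝓝[≥] 0, v (h + t • f) =
      v h + t * (∑ i, S h i * f i) + t ^ 2 / 2 * (∑ i, ∑ j, H h i j * f i * f j) + cp * t ^ 3) ∧
    (∀ᶠ t : ℝ in 𝓝[≤] 0, v (h + t • f) =
      v h + t * (∑ i, S h i * f i) + t ^ 2 / 2 * (∑ i, ∑ j, H h i j * f i * f j) + cm * t ^ 3)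
  van : ∀ h, Pos h → ∃ c : ℝ, 0 < c ∧ ∀ Λ : ℝ, ∀ᶠ h' in 𝓝 h, ∀ b : ι → ℝ,
    (∀ i, 0 < S h i → b i = 0) →
    Λ * (∑ i, S h' i * b i ^ 2 / h' i) +
      c * (∑ i, ∑ j, if 0 < S h j then H h' i j * b i ^ 2 else 0) ≤
      -(∑ i, ∑ j, H h' i j * b i * b j)
  gap : ∃ ε : ℝ, 0 < ε ∧ ∀ h, Pos h → (∀ i, 0 < S h i) → ∀ f : ι → ℝ, ε * Q v S h f ≤ J v S H h f

/-! ## Part A: abstract part (everything from `Calc`) -/

/-- `JQ` (algebra, for all `h` with `Pos h`, under `Calc`): invariance `f ↦ f + c h`, scaling, the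
seminorm property of `J`, `0 ≤ Q`.
Proof: expand; use `e2`, `e3`, `Hs` (`h^T H f = 2 Σ S f`).  `0 ≤ Q` is Cauchy-Schwarz with weights
`S h i * h i` whose sum is `3 v h`.  The triangle inequality for the square root of `J` holds whenever
`J h` is nonnegative on all vectors (a nonnegative quadratic form). -/
def Stmt_JQ : Prop :=
  ∀ (ι : Type) [Fintype ι] (v : (ι → ℝ) → ℝ) (S : (ι → ℝ) → ι → ℝ) (H : (ι → ℝ) → ι → ι → ℝ),
    Calc v S H → ∀ h, Pos h →
    (∀ (f : ι → ℝ) (c : ℝ), J v S H h (f + c • h) = J v S H h f ∧ Q v S h (f + c • h) = Q v S h f) ∧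
    (∀ (f : ι → ℝ) (c : ℝ), J v S H h (c • f) = c ^ 2 * J v S H h f ∧
      Q v S h (c • f) = c ^ 2 * Q v S h f) ∧
    (∀ (f : ι → ℝ) (c : ℝ), 0 < c → J v S H (c • h) f = c * J v S H h f ∧
      Q v S (c • h) f = c * Q v S h f) ∧
    (∀ f : ι → ℝ, 0 ≤ Q v S h f) ∧
    (∀ c : ℝ, 0 < c → R v S (c • h) = R v S h) ∧
    ((∀ f : ι → ℝ, 0 ≤ J v S H h f) → ∀ f g : ι → ℝ,
      Real.sqrt (J v S H h (f + g)) ≤ Real.sqrt (J v S H h f) + Real.sqrt (J v S H h g))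

/-- `PATH`: second derivative of `G(s) = v(h(s))^(p/3)` along an `L_p` path
`h(s) i = (y0 i + s * y1 i)^(1/p)` (with `f(s) i = dh i/ds`).
Proof: `f i = (1/p) y1 i (y0 i + s y1 i)^(1/p - 1)`, `f' i = (1-p) f i ^2 / h i`;
`G' = (p/3) v^(p/3-1) Σ S f`, `(Σ S f)' = Σ Σ H f f + (1-p) Σ S f²/h` by `dv`, `dS`, chain rule;
`G'' = (p/3) v^(p/3-1) [ΣΣ H f f + (1-p) Σ S f²/h - ((3-p)/3) (Σ S f)²/v]` and the bracket is
`-(J - (1-p) Q)` because `2/3 + (1-p)/3 = (3-p)/3`. -/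
def Stmt_PATH : Prop :=
  ∀ (ι : Type) [Fintype ι] (v : (ι → ℝ) → ℝ) (S : (ι → ℝ) → ι → ℝ) (H : (ι → ℝ) → ι → ι → ℝ),
    Calc v S H → ∀ (p : ℝ), 0 < p → p < 1 → ∀ (y0 y1 : ι → ℝ) (s : ℝ), (∀ i, 0 < y0 i + s * y1 i) →
    let hh : ℝ → ι → ℝ := fun s i => (y0 i + s * y1 i) ^ (1 / p)
    let ff : ℝ → ι → ℝ := fun s i => (1 / p) * y1 i * (y0 i + s * y1 i) ^ (1 / p - 1)
    HasDerivAt (fun s => v (hh s) ^ (p / 3))
      ((p / 3) * v (hh s) ^ (p / 3 - 1) * ∑ i, S (hh s) i * ff s i) s ∧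
    HasDerivAt (fun s => (p / 3) * v (hh s) ^ (p / 3 - 1) * ∑ i, S (hh s) i * ff s i)
      (-((p / 3) * v (hh s) ^ (p / 3 - 1) *
        (J v S H (hh s) (ff s) - (1 - p) * Q v S (hh s) (ff s)))) s

/-- `SUP` (from `PATH`, `JQ`): local inequality gives superadditivity.
Proof: `p` in `[1/2, 1)`.  `J ≥ Q/2 ≥ (1-p) Q` (`Q ≥ 0`).  `g(s) = v(((1-s) a^p + s b^p)^(1/p))^(p/3)` has
`g'' ≤ 0` on a neighbourhood of `[0,1]` (apply `PATH` with `y0 = a^p`, `y1 = b^p - a^p`), so `g` is concave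
on `[0,1]`: `g(s) ≥ (1-s) g(0) + s g(1)`. -/
def Stmt_SUP : Prop :=
  ∀ (ι : Type) [Fintype ι] (v : (ι → ℝ) → ℝ) (S : (ι → ℝ) → ι → ℝ) (H : (ι → ℝ) → ι → ι → ℝ),
    Calc v S H → (∀ h, Pos h → ∀ f : ι → ℝ, 1 / 2 * Q v S h f ≤ J v S H h f) →
    ∀ p : ℝ, 1 / 2 ≤ p → p < 1 → ∀ a b : ι → ℝ, Pos a → Pos b → ∀ s ∈ Icc (0 : ℝ) 1,
      (1 - s) * v a ^ (p / 3) + s * v b ^ (p / 3) ≤
        v (fun i => ((1 - s) * a i ^ p + s * b i ^ p) ^ (1 / p)) ^ (p / 3)

/-- `CMP`: bounded penalty means bounded shape.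
Proof: let `s = Σ S h i`, `v h = 1`.  `slb`: `1/s ≤ h i` for all `i`.  So `bal` with `ρ = 1/s` gives
`1/s³ ≤ 1`, hence `1 ≤ s`.  `R = (3/2) log s ≤ C` gives `s ≤ exp (2C/3)`.
`ext` with `ρ = 1/s`: `h i ≤ 6 s²`.  In particular `R ≥ 0` always (`JQ`: `R` is scale invariant, so
normalise `v h = 1`). -/
def Stmt_CMP : Prop :=
  ∀ (ι : Type) [Fintype ι] (v : (ι → ℝ) → ℝ) (S : (ι → ℝ) → ι → ℝ) (H : (ι → ℝ) → ι → ι → ℝ),
    Calc v S H → Nonempty ι → (∀ h, Pos h → 0 ≤ R v S h) ∧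
    ∀ C : ℝ, ∃ r : ℝ, 0 < r ∧ ∀ h, Pos h → v h = 1 → (∀ i, 0 < S h i) → R v S h ≤ C →
      ∀ i, r ≤ h i ∧ h i ≤ 1 / r

/-- `LSC`: no mass escapes to vanishing facets; lower semicontinuity of `J`.
Proof: let `Z = {i : S h i = 0}` (limit point `h`), `f n = a n + b n` with `b n` supported on `Z`, `a n` off
`Z`.  For `i` not in `Z`, `S (hn n) i → S h i > 0` so `a n` is bounded (from `Σ S f²/h = 3`); pass to a
subsequence with `a n → a`.  `J` is nonnegative at `hn n` (`gap` and `Q ≥ 0`), so by the triangle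
inequality in `JQ`, `J(b n) ≤ (sqrt J(f n) + sqrt J(a n))² ≤ C'`.  `- b^T H b ≤ J(b)`.  With `van`:
`Λ Σ S b²/h + c Σ_{i∈Z, j∉Z} H i j b i² ≤ C'` for `n ≥ n(Λ)`.  So `Σ S b²/h → 0`; then
`Σ S a²/h → 3`, `|Σ S b| ≤ (Σ_Z S h)^(1/2) (Σ S b²/h)^(1/2) → 0`, so `Σ S(h) a = 0`,
`Σ S(h) a²/h = 3`.  `J(f n) = - f^T H f = - a^T H a - 2 a^T H b - b^T H b ≥ - a^T H a - 2 a^T H b`
(`-b^T H b ≥ 0` by `van`), `|a^T H b| ≤ A Σ_{i∈Z, j∉Z} H i j |b i| ≤
A (Σ_{i∈Z,j∉Z} H i j)^(1/2) (Σ_{i∈Z,j∉Z} H i j b i²)^(1/2) → 0`, since `H (hn n) i j → H h i j = 0` for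
`i` in `Z`, `j ≠ i` (if `S h i = 0` then `h` minimises the nonnegative `C¹` function `S · i` on the open set
`Pos`, so its derivative `H h i ·` vanishes).  And `- a^T H(hn) a → - a^T H(h) a = J h a`. -/
def Stmt_LSC : Prop :=
  ∀ (ι : Type) [Fintype ι] (v : (ι → ℝ) → ℝ) (S : (ι → ℝ) → ι → ℝ) (H : (ι → ℝ) → ι → ι → ℝ),
    Calc v S H → ∀ (hn : ℕ → ι → ℝ) (fn : ℕ → ι → ℝ) (h : ι → ℝ) (C : ℝ), Pos h →
    Tendsto hn atTop (𝓝 h) → (∀ n, Pos (hn n)) → (∀ n i, 0 < S (hn n) i) →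
    (∀ n, ∑ i, S (hn n) i * fn n i = 0) → (∀ n, ∑ i, S (hn n) i * fn n i ^ 2 / hn n i = 3) →
    (∀ n, J v S H (hn n) (fn n) ≤ C) →
    ∃ (φ : ℕ → ℕ) (a : ι → ℝ), StrictMono φ ∧ (∀ i, S h i = 0 → a i = 0) ∧
      (∑ i, S h i * a i = 0) ∧ (∑ i, S h i * a i ^ 2 / h i = 3) ∧
      ∀ ε : ℝ, 0 < ε → ∀ᶠ n in atTop, J v S H h a ≤ J v S H (hn (φ n)) (fn (φ n)) + ε

/-- normalised pairs -/
structure Adm {ι : Type} [Fintype ι] (v : (ι → ℝ) → ℝ) (S : (ι → ℝ) → ι → ℝ) (h f : ι → ℝ) :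
    Prop where
  hpos : Pos h
  spos : ∀ i, 0 < S h i
  vol : v h = 1
  mean : ∑ i, S h i * f i = 0
  var : ∑ i, S h i * f i ^ 2 / h i = 3

/-- `MN1` (from `JQ`, `CMP`, `LSC`): existence of the minimiser of `Ψ(h, f) = J h f / 3 + δ R h` on the
normalised pairs, if the infimum is less than `1/2`.
Proof: `Ψ ≥ 0` on `Adm` (`gap`, `Q ≥ 0`, `CMP`).  Minimising sequence `(hn, fn)`: `J(hn)(fn)` and `R(hn)` are
bounded (both terms are nonnegative), `CMP`: the `hn` stay in a compact subset `{r ≤ h i ≤ 1/r}` of `Pos`; a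
subsequence converges to `h`, `Pos h`, `v h = 1`.  `LSC`: a further subsequence and `a`.  `R` is continuous at
`h` (`Σ S h > 0`, because `3 v = Σ S h`), so `J h a/3 + δ R h ≤ inf Ψ < 1/2`.  If some `S h i = 0`: by the
hypothesis `J h a ≥ Q h a/2 = 3/2`, and `R ≥ 0`, so `inf Ψ ≥ 1/2`, contradiction.  So `(h, a)` is in `Adm` and
is a minimiser. -/
def Stmt_MN1 : Prop :=
  ∀ (ι : Type) [Fintype ι] (v : (ι → ℝ) → ℝ) (S : (ι → ℝ) → ι → ℝ) (H : (ι → ℝ) → ι → ι → ℝ),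
    Calc v S H → Nonempty ι →
    (∀ h, Pos h → (∃ i, S h i = 0) → ∀ f : ι → ℝ, 1 / 2 * Q v S h f ≤ J v S H h f) →
    ∀ δ : ℝ, 0 < δ → (∃ h f, Adm v S h f ∧ J v S H h f / 3 + δ * R v S h < 1 / 2) →
    ∃ h f, Adm v S h f ∧ ∀ h' f', Adm v S h' f' →
      J v S H h f / 3 + δ * R v S h ≤ J v S H h' f' / 3 + δ * R v S h'

/-- `MIN` (from `JQ`, `CMP`, `MN1`): the minimiser and its properties.
Proof: let `(h0, f0)` be a counterexample: `J h0 f0 < Q h0 f0 / 2`.  All `S h0 i > 0` (otherwise it contradicts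
the hypothesis on vanishing facets), and `Q h0 f0 > 0` (if `Q = 0` then `J < 0`, against `gap`).  Put
`κ0 = J/Q < 1/2`.  By `JQ` (replace `f0` by `f0 + c h0`, `c = - Σ S f0/(3 v)`, scale `f0` and `h0`) we may
assume `Adm`, `J h0 f0/3 = κ0`.  Choose `δ > 0` with `δ R(h0) ≤ (1/2 - κ0)/4` (`R ≥ 0`) and
`28 δ < 1/2 - κ0`.  `MN1` gives the minimiser `(h, f)`.  Put `ε = J h f/3`:
`ε ≤ κ0 + δ R(h0) ≤ κ0 + (1/2 - κ0)/4`, so `1 - 2 ε ≥ (3/2)(1/2 - κ0) > 28 δ`.  `ε > 0`: `gap`, `Q h f = 3`.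
Last claim: `Q h' f' = 0`: `J ≥ 0` by `gap`.  Otherwise normalise `(h', f')` to an `Adm` pair (`JQ`).
Eigenvector equation: for fixed `h' = h` the quadratic form `f' ↦ J h f' - ε Q h f' ≥ 0` vanishes at `f`, so
its derivative there is zero: `- Σ_j H i j f j + (2/(3v)) (Σ S f) S i = ε (S i f i/h i - (Σ S f) S i/(3v))`
(use `Hs`), and `Σ S f = 0`. -/
def Stmt_MIN : Prop :=
  ∀ (ι : Type) [Fintype ι] (v : (ι → ℝ) → ℝ) (S : (ι → ℝ) → ι → ℝ) (H : (ι → ℝ) → ι → ι → ℝ),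
    Calc v S H → Nonempty ι →
    (∀ h, Pos h → (∃ i, S h i = 0) → ∀ f : ι → ℝ, 1 / 2 * Q v S h f ≤ J v S H h f) →
    (∃ h f : ι → ℝ, Pos h ∧ J v S H h f < 1 / 2 * Q v S h f) →
    ∃ (δ ε : ℝ) (h f : ι → ℝ), 0 < δ ∧ 0 < ε ∧ 28 * δ < 1 - 2 * ε ∧ Adm v S h f ∧
      (∀ i, ∑ j, H h i j * f j = -(ε * (S h i * f i / h i))) ∧
      ∀ h', Pos h' → (∀ i, 0 < S h' i) → ∀ f' : ι → ℝ,
        (ε - δ * (R v S h' - R v S h)) * Q v S h' f' ≤ J v S H h' f'

/-- the `L_p` path from `1` to `1 + x` (`p = 1 - ε`): position -/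
noncomputable def zz (p x s : ℝ) : ℝ := (1 + s * ((1 + x) ^ p - 1)) ^ (1 / p)

/-- logarithmic velocity of the path -/
noncomputable def ee (p x s : ℝ) : ℝ := ((1 + x) ^ p - 1) / (p * (1 + s * ((1 + x) ^ p - 1)))

/-- `UEX`: uniform expansions of the `L_p` path from `1` to `1 + x`, `x → 0`.
Proof: elementary.  `(1+x)^p - 1 = p x - p(1-p)/2 x² + O(x³)`; with `y = s ((1+x)^p - 1)`,
`(1+y)^(1/p) = 1 + y/p + (1/p)(1/p-1)/2 y² + O(y³) = 1 + s x - (1-p)/2 s x² + (1-p)/2 s² x² + O(x³)`;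
`ee = (x - (1-p)/2 x² + O(x³)) (1 - s p x + O(x²))`.  `zz ≤ 1 + s x`: the function `y ↦ y^(1/p)` is convex, so
`(1 - s + s (1+x)^p)^(1/p) ≤ (1-s) 1 + s (1+x)`. -/
def Stmt_UEX : Prop :=
  ∀ p : ℝ, 0 < p → p < 1 → ∃ C x0 : ℝ, 0 < C ∧ 0 < x0 ∧ x0 < 1 ∧ ∀ x : ℝ, |x| ≤ x0 →
    ∀ s ∈ Icc (0 : ℝ) 1,
      0 < 1 + s * ((1 + x) ^ p - 1) ∧ zz p x s ≤ 1 + s * x ∧
      |zz p x s - (1 + s * x - (1 - p) / 2 * s * (1 - s) * x ^ 2)| ≤ C * |x| ^ 3 ∧
      |ee p x s - (x - ((1 - p) / 2 + s * p) * x ^ 2)| ≤ C * |x| ^ 3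

/-- data at the minimiser: the conclusion of `MIN` -/
structure Crit {ι : Type} [Fintype ι] (v : (ι → ℝ) → ℝ) (S : (ι → ℝ) → ι → ℝ)
    (H : (ι → ℝ) → ι → ι → ℝ) (δ ε : ℝ) (h f : ι → ℝ) : Prop where
  cal : Calc v S H
  dpos : 0 < δ
  epos : 0 < ε
  small : 28 * δ < 1 - 2 * ε
  adm : Adm v S h f
  eig : ∀ i, ∑ j, H h i j * f j = -(ε * (S h i * f i / h i))
  loc : ∀ h', Pos h' → (∀ i, 0 < S h' i) → ∀ f' : ι → ℝ,
    (ε - δ * (R v S h' - R v S h)) * Q v S h' f' ≤ J v S H h' f'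

/-- `a = Σ S w / Σ S` -/
noncomputable def aa {ι : Type} [Fintype ι] (S : (ι → ℝ) → ι → ℝ) (h f : ι → ℝ) : ℝ :=
  (∑ i, S h i * (f i / h i)) / ∑ i, S h i

/-- `E w^k` -/
noncomputable def mo {ι : Type} [Fintype ι] (S : (ι → ℝ) → ι → ℝ) (h f : ι → ℝ) (k : ℕ) : ℝ :=
  (1 / 3) * ∑ i, S h i * h i * (f i / h i) ^ k

/-- position on the path from `h` to `h + t f` -/
noncomputable def hp {ι : Type} (p : ℝ) (h f : ι → ℝ) (t s : ℝ) : ι → ℝ :=
  fun i => h i * zz p (t * (f i / h i)) s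

/-- velocity on the path from `h` to `h + t f` -/
noncomputable def fp {ι : Type} (p : ℝ) (h f : ι → ℝ) (t s : ℝ) : ι → ℝ :=
  fun i => hp p h f t s i * ee p (t * (f i / h i)) s

/-- `RUP` (from `UEX`): upper bound for the increase of the penalty along the path.
Proof: `w = f/h`, `x = hp - h = s t f - (ε/2) s (1-s) t² h w² + O(t³)`, `hp ≤ h + s t f` (`UEX`).
`Σ S(hp) ≤ Σ S(h + s t f)` for small `t`: the gradient of `h ↦ Σ_i S h i` has the components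
`Σ_i H i j ≥ 0` (`Hr`, `Hs`), segment in `Pos`.  By `sqc` and `eig`, for small `t` uniformly in `s`
(apply `sqc` with the vector `f` at the time `s t`):
`Σ S(h + s t f) ≤ ΣS - ε s t ΣS w + (ε² s² t²/4) Σ S w²`.  By `slb`, `S i ≤ (ΣS) h i S i` (`v = 1`), so
`Σ S w² ≤ (ΣS) Σ S h w² = 3 ΣS`.  So `log ΣS(hp) - log ΣS ≤ - ε s t a + (3/4) ε² s² t²`
(`log (1+x) ≤ x`).  `v(hp) = 1 + lin S (x) + (1/2) x^T H x + o(t²)`, `lin S x = - (ε/2) s (1-s) t² 3 + O(t³)`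
(`Σ S h w² = 3`, `Σ S f = 0`), `x^T H x = s² t² f^T H f + O(t³) = - 3 ε s² t² + O(t³)`; sum
`1 - (3 ε/2) s t² + o(t²)`; `- log` of it is `(3 ε/2) s t² + o(t²)`.  Total:
`-(3/2) ε s a t + ((9/8) ε² s² + (3/2) ε s) t² + o(t²)` and `(9/8) ε² s² ≤ (9/16) ε`. -/
def Stmt_RUP : Prop :=
  ∀ (ι : Type) [Fintype ι] (v : (ι → ℝ) → ℝ) (S : (ι → ℝ) → ι → ℝ) (H : (ι → ℝ) → ι → ι → ℝ)
    (δ ε : ℝ) (h f : ι → ℝ), Crit v S H δ ε h f → ∀ η : ℝ, 0 < η → ∀ᶠ t : ℝ in 𝓝 0,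
    ∀ s ∈ Icc (0 : ℝ) 1,
      R v S (hp (1 - ε) h f t s) - R v S h ≤
        -(3 / 2 * ε * s * aa S h f * t) + (33 / 16 * ε + η) * t ^ 2

/-- `QEX` (from `UEX`): expansion of `Q` along the path, and of `v`.
Proof: `S(hp) i = S i + s t (H f) i + o(t) = S i (1 - ε s t w i) + o(t)` uniformly in `s`;
`hp i = h i (1 + s t w i + O(t²))`; `ee² = t² w² (1 - 2 t w (ε/2 + s p)) + O(t⁴)`, `p = 1 - ε`.
`Σ S(hp) fp²/hp = Σ S(hp) hp ee² = t² Σ S h w² (1 + p s t w - ε t w - 2 s p t w) + o(t³)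
= 3 t² - 3 (ε + s p) m3 t³ + o(t³)`.  `Σ S(hp) fp = Σ S(hp) hp ee = t Σ S h w + O(t²) = O(t²)`, so its
square is `O(t⁴)`.  `|v(hp) - 1| ≤ C t²` from the expansion in `RUP`, so `|v^(p/3-1) - 1| ≤ C t²`. -/
def Stmt_QEX : Prop :=
  ∀ (ι : Type) [Fintype ι] (v : (ι → ℝ) → ℝ) (S : (ι → ℝ) → ι → ℝ) (H : (ι → ℝ) → ι → ι → ℝ)
    (δ ε : ℝ) (h f : ι → ℝ), Crit v S H δ ε h f →
    (∀ η : ℝ, 0 < η → ∀ᶠ t : ℝ in 𝓝 0, ∀ s ∈ Icc (0 : ℝ) 1,
      |Q v S (hp (1 - ε) h f t s) (fp (1 - ε) h f t s) -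
        (3 * t ^ 2 - 3 * (ε + s * (1 - ε)) * mo S h f 3 * t ^ 3)| ≤ η * |t| ^ 3) ∧
    ∃ C : ℝ, ∀ᶠ t : ℝ in 𝓝 0, ∀ s ∈ Icc (0 : ℝ) 1,
      |v (hp (1 - ε) h f t s) ^ ((1 - ε) / 3 - 1) - 1| ≤ C * t ^ 2

/-- `EST` (from `JQ`, `RUP`, `QEX`): bound for `- (J - ε Q)` along the path.
Proof: for small `t` all points `hp` are in `Pos` with `S(hp) i > 0` (continuity, uniform in `s` because
`|hp - h| ≤ C |t|`).  `Crit.loc`: `-(J - ε Q) ≤ δ (R(hp) - R(h)) Q`.  Multiply `RUP` by `Q ≥ 0` and insert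
`QEX`: `(-(3/2) ε s a t + (33/16 ε + η) t²)(3 t² - 3 (ε + s p) m3 t³ + ..)
= -(9/2) ε s a t³ + [99/16 ε + (9/2) ε s a (ε + s p) m3] t⁴ + o(t⁴)`.  Bounds: `a² ≤ 3` (Cauchy-Schwarz and
`Σ S w² ≤ 3 Σ S`, see `RUP`), `m3² ≤ m2 m4 = m4` (`m2 = 1`), `1 = m2² ≤ m4`, `0 ≤ ε + s p ≤ 1`, so the bracket
is `≤ ε (99/16 + (9/2) √3) m4 ≤ 14 ε m4`.  The factor `v^(p/3-1) = 1 + O(t²)` changes this by `O(t⁵)`. -/
def Stmt_EST : Prop :=
  ∀ (ι : Type) [Fintype ι] (v : (ι → ℝ) → ℝ) (S : (ι → ℝ) → ι → ℝ) (H : (ι → ℝ) → ι → ι → ℝ)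
    (δ ε : ℝ) (h f : ι → ℝ), Crit v S H δ ε h f → ∀ η : ℝ, 0 < η → ∀ᶠ t : ℝ in 𝓝 0,
    ∀ s ∈ Icc (0 : ℝ) 1,
      -(v (hp (1 - ε) h f t s) ^ ((1 - ε) / 3 - 1) *
        (J v S H (hp (1 - ε) h f t s) (fp (1 - ε) h f t s) -
          ε * Q v S (hp (1 - ε) h f t s) (fp (1 - ε) h f t s))) ≤
      δ * (-(9 / 2 * ε * aa S h f * s * t ^ 3) + 14 * ε * mo S h f 4 * t ^ 4) + η * t ^ 4

/-- `INE` (from `PATH`, `UEX`, `EST`): the integrated inequality.
Proof: fix a small `t`; `p = 1 - ε`.  `PATH` with `y0 = h^p`, `y1 = h^p ((1 + t w)^p - 1)`: then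
`(y0 + s y1)^(1/p) = hp` and its velocity is `fp` (on a neighbourhood of `[0,1]`).
`G(s) = v(hp)^(p/3)`, `G(0) = 1`, `G(1) = v(h + t f)^(p/3)` (`1 + t w > 0`),
`G'(0) = (p/3) Σ S h ((1+tw)^p - 1)/p = (1/3) Σ S h ((1+tw)^p - 1)`,
`G'' ≤ (p/3) (A s + B)` with `A = -(9/2) δ ε a t³`, `B = 14 δ ε m4 t⁴ + η t⁴`, so
`G - (p/3)(A s³/6 + B s²/2)` is concave and lies below its tangent at `0`:
`G(1) ≤ G(0) + G'(0) + (p/3)(A/6 + B/2)`. -/
def Stmt_INE : Prop :=
  ∀ (ι : Type) [Fintype ι] (v : (ι → ℝ) → ℝ) (S : (ι → ℝ) → ι → ℝ) (H : (ι → ℝ) → ι → ι → ℝ)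
    (δ ε : ℝ) (h f : ι → ℝ), Crit v S H δ ε h f → ∀ η : ℝ, 0 < η → ∀ᶠ t : ℝ in 𝓝 0,
      v (h + t • f) ^ ((1 - ε) / 3) ≤
        (1 / 3) * ∑ i, S h i * h i * (1 + t * (f i / h i)) ^ (1 - ε) +
        (1 - ε) / 3 * (-(3 / 4 * δ * ε * aa S h f * t ^ 3) + 7 * δ * ε * mo S h f 4 * t ^ 4) +
        η * t ^ 4

/-- `TAY`: Taylor polynomials of degree four.
Proof: binomial series; `(1 + y)^q = 1 + q y + q(q-1)/2 y² + O(y³)` with `y = b t² + c t³`. -/
def Stmt_TAY : Prop :=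
  (∀ (p w : ℝ), ∀ η : ℝ, 0 < η → ∀ᶠ t : ℝ in 𝓝 0,
    |(1 + t * w) ^ p - (1 + p * w * t + p * (p - 1) / 2 * w ^ 2 * t ^ 2 +
      p * (p - 1) * (p - 2) / 6 * w ^ 3 * t ^ 3 +
      p * (p - 1) * (p - 2) * (p - 3) / 24 * w ^ 4 * t ^ 4)| ≤ η * t ^ 4) ∧
  (∀ (q b c : ℝ), ∀ η : ℝ, 0 < η → ∀ᶠ t : ℝ in 𝓝 0,
    |(1 + b * t ^ 2 + c * t ^ 3) ^ q - (1 + q * b * t ^ 2 + q * c * t ^ 3 +
      q * (q - 1) / 2 * b ^ 2 * t ^ 4)| ≤ η * t ^ 4)

/-- `KEY` (from `INE`, `TAY`): the contradiction.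
Proof: `p = 1 - ε`, `k = mo 4`, `m3 = mo 3`, `a = aa`; `(1/3) Σ S h = 1`, `(1/3) Σ S h w = 0`,
`(1/3) Σ S h w² = 1`.  `cub`: `v(h + t f) = 1 - (3ε/2) t² + cp t³` (`t ≥ 0` small), `... + cm t³` (`t ≤ 0`),
`cm ≤ cp`, because `f^T H f = - ε Σ S f²/h = - 3 ε` (`eig`).  Insert in `INE` with `TAY` (`q = p/3`,
`b = -3ε/2`); the terms of order `0` and `2` agree (`(p/3)(-3ε/2) = p(p-1)/2`).  Divide by `p`:
`(cp/3) t³ - (2+ε) ε²/8 t⁴ ≤ X t³ + [- ε(1+ε)(2+ε) k/24 + (7/3) δ ε k] t⁴ + o(t⁴)` for `t > 0`, with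
`X = ε(1+ε) m3/6 - δ ε a/4`; the same with `cm` for `t < 0`.
(Here `(p/3)(p/3-1)/2 (9ε²/4) = - p (2+ε) ε²/8`, as `p/3 - 1 = -(2+ε)/3`.)
Divide by `t³`, `t → 0`: `cp/3 ≤ X` and `cm/3 ≥ X`, so `cp/3 = X`.  Then for `t > 0` divide by `t⁴`:
`-(2+ε) ε²/8 ≤ - ε(1+ε)(2+ε) k/24 + (7/3) δ ε k`.  Multiply by `24/ε`:
`k ((1+ε)(2+ε) - 56 δ) ≤ 3 ε (2+ε)`.  `k ≥ 1` (Cauchy-Schwarz) and `56 δ < 2 (1 - 2ε) < 2`, so
`(1+ε)(2+ε) - 56 δ ≤ 3 ε (2+ε)`, i.e. `(2+ε)(1-2ε) ≤ 56 δ < 2 (1 - 2ε)`, contradiction. -/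
def Stmt_KEY : Prop :=
  ∀ (ι : Type) [Fintype ι] (v : (ι → ℝ) → ℝ) (S : (ι → ℝ) → ι → ℝ) (H : (ι → ℝ) → ι → ι → ℝ)
    (δ ε : ℝ) (h f : ι → ℝ), ¬ Crit v S H δ ε h f

/-- `ABS` (from `MIN`, `KEY`): the abstract theorem. -/
def Stmt_ABS : Prop :=
  ∀ (ι : Type) [Fintype ι] (v : (ι → ℝ) → ℝ) (S : (ι → ℝ) → ι → ℝ) (H : (ι → ℝ) → ι → ι → ℝ),
    Calc v S H → Nonempty ι →
    (∀ h, Pos h → (∃ i, S h i = 0) → ∀ f : ι → ℝ, 1 / 2 * Q v S h f ≤ J v S H h f) →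
    ∀ h, Pos h → ∀ f : ι → ℝ, 1 / 2 * Q v S h f ≤ J v S H h f

/-! ## Part G: geometry -/

/-- the other indices -/
def oth {ι : Type} [Fintype ι] [DecidableEq ι] (i j : ι) : Finset ι :=
  Finset.univ.filter (fun m => m ≠ i ∧ m ≠ j)

/-- midpoint of the interval `{c : |u m . (pt + c • (u i × u j))| ≤ h m}` -/
noncomputable def mid {ι : Type} (u : ι → R3) (i j : ι) (α β : ℝ) (m : ι) : ℝ :=
  -(dt (u m) (pt u i j α β) / de (u i) (u j) (u m))

/-- its half length -/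
noncomputable def rad {ι : Type} (u : ι → R3) (i j : ι) (h : ι → ℝ) (m : ι) : ℝ :=
  h m / |de (u i) (u j) (u m)|

/-- `COO`: coordinates `(α, β, c)` with Jacobian 1.
Proof: `t = u i × u j`, `|t|² = dt t t`.  `u i . (u j × t) = |t|² = u j . (t × u i)`,
`u j . (u j × t) = 0 = u i . (t × u i)`, `u m . t = de (u i) (u j) (u m)`.  The linear map
`(α, β, c) ↦ pt + c • t` has the determinant
`t . ((u j × t) × (t × u i)) / |t|⁴ = 1` (ring / field_simp after expanding), and a linear map of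
determinant `±1` preserves Lebesgue measure (go through `Fin 3 → ℝ`, `ℝ × ℝ × ℝ`;
`MeasureTheory.Measure.addHaar_image_linearMap`, `Real.map_matrix_volume_pi_eq_smul_volume_pi`).  For a
`Fam`, `cr (u i) (u j) ≠ 0` because a third index `k` exists and `de (u i) (u j) (u k) ≠ 0`. -/
def Stmt_COO : Prop :=
  (∀ (ι : Type) (u : ι → R3) (i j : ι), cr (u i) (u j) ≠ 0 →
    MeasurePreserving (fun p : ℝ × ℝ × ℝ => pt u i j p.1 p.2.1 + p.2.2 • cr (u i) (u j))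
      volume volume ∧
    ∀ α β c : ℝ, dt (u i) (pt u i j α β + c • cr (u i) (u j)) = α ∧
      dt (u j) (pt u i j α β + c • cr (u i) (u j)) = β ∧
      ∀ m, dt (u m) (pt u i j α β + c • cr (u i) (u j)) =
        dt (u m) (pt u i j α β) + c * de (u i) (u j) (u m)) ∧
  (∀ (ι : Type) (u : ι → R3) (i j : ι), Fam u → i ≠ j → cr (u i) (u j) ≠ 0)

/-- `BND`: `K u h` is compact and convex, with a linear bound.
Proof: with three independent `u i, u j, u k`, `x` is a fixed linear function of the three scalar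
products (Cramer), so `|x l| ≤ C max h`.  Closed and convex as an intersection. -/
def Stmt_BND : Prop :=
  ∀ (ι : Type) [Fintype ι] (u : ι → R3), Fam u →
    (∀ h : ι → ℝ, IsCompact (K u h) ∧ Convex ℝ (K u h)) ∧
    ∃ C : ℝ, 0 < C ∧ ∀ (h : ι → ℝ) (M : ℝ), (∀ i, h i ≤ M) → ∀ x ∈ K u h, ∀ l, |x l| ≤ C * M

/-- `LAMF`: formula for the chord length.
Proof: `|A + c D| ≤ h` with `D ≠ 0` is `mid - rad ≤ c ≤ mid + rad` (an empty interval if `h < 0`, consistent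
with the formula: then `mid + rad < mid - rad`).  So the set is
`[sup' (mid - rad), inf' (mid + rad)]`, of length `max 0 (inf' - sup')`. -/
def Stmt_LAMF : Prop :=
  ∀ (ι : Type) [Fintype ι] [DecidableEq ι] (u : ι → R3), Fam u → ∀ i j : ι, i ≠ j →
    (oth i j).Nonempty ∧ ∀ (hM : (oth i j).Nonempty) (α β : ℝ) (h : ι → ℝ),
      Lam u i j α β h = max 0
        ((oth i j).inf' hM (fun m => mid u i j α β m + rad u i j h m) -
          (oth i j).sup' hM (fun m => mid u i j α β m - rad u i j h m))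

/-- `LAMC` (from `LAMF`): continuity and symmetries of the chord length.
Proof: `LAMF` (`mid` is linear in `(α, β)`, `rad` linear in `h`).  Exchange of `i` and `j`: `cr` changes sign,
`pt u j i β α = pt u i j α β`, the set is reflected `c ↦ -c`.  `pt` is odd in `(α, β)`, the set is
reflected.  The length depends only on `h m`, `m ≠ i, j`. -/
def Stmt_LAMC : Prop :=
  ∀ (ι : Type) [Fintype ι] [DecidableEq ι] (u : ι → R3), Fam u → ∀ i j : ι, i ≠ j →
    Continuous (fun p : ℝ × ℝ × (ι → ℝ) => Lam u i j p.1 p.2.1 p.2.2) ∧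
    (∀ α β h, 0 ≤ Lam u i j α β h) ∧
    (∀ α β h, Lam u j i β α h = Lam u i j α β h) ∧
    (∀ α β h, Lam u i j (-α) (-β) h = Lam u i j α β h) ∧
    (∀ α β h h', (∀ m, m ≠ i → m ≠ j → h m = h' m) → Lam u i j α β h = Lam u i j α β h') ∧
    (∀ α β h c, 0 < c → Lam u i j (c * α) (c * β) (c • h) = c * Lam u i j α β h)

/-- `VIN` (from `COO`, `BND`, `LAMC`): the volume as an iterated integral.
Proof: the preimage of `K u h` under the map of `COO` is
`{(α, β, c) : |α| ≤ h i, |β| ≤ h j, |A m + c D m| ≤ h m for m ≠ i, j}`; `Measure.prod_apply` twice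
(or `measureReal`), the inner sections have finite length, everything is bounded. -/
def Stmt_VIN : Prop :=
  ∀ (ι : Type) [Fintype ι] [DecidableEq ι] (u : ι → R3), Fam u → ∀ i j : ι, i ≠ j →
    ∀ h : ι → ℝ, (∀ m, 0 ≤ h m) →
      V u h = ∫ α in (-h i)..(h i), ∫ β in (-h j)..(h j), Lam u i j α β h

/-- `SF` (from `VIN`, `LAMC`): first coordinate derivatives.
Proof: `V (update h i s) = ∫_{-s}^{s} g`, `g(α) = ∫_{-h j}^{h j} Lam α β dβ` (independent of `h i`),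
continuous and even (substitute `β ↦ -β`), so the derivative at `s = h i > 0` is `2 g(h i)`. -/
def Stmt_SF : Prop :=
  ∀ (ι : Type) [Fintype ι] [DecidableEq ι] (u : ι → R3), Fam u → ∀ i j : ι, i ≠ j →
    ∀ h : ι → ℝ, Pos h →
      HasDerivAt (fun s => V u (Function.update h i s))
        (2 * ∫ β in (-h j)..(h j), Lam u i j (h i) β h) (h i) ∧
      S u h i = 2 * ∫ β in (-h j)..(h j), Lam u i j (h i) β h

/-- `HF` (from `SF`, `LAMC`): mixed second derivatives. -/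
def Stmt_HF : Prop :=
  ∀ (ι : Type) [Fintype ι] [DecidableEq ι] (u : ι → R3), Fam u → ∀ i j : ι, i ≠ j →
    ∀ h : ι → ℝ, Pos h →
      HasDerivAt (fun s => S u (Function.update h j s) i)
        (2 * (Lam u i j (h i) (h j) h + Lam u i j (h i) (-h j) h)) (h j) ∧
      H u h i j = 2 * (Lam u i j (h i) (h j) h + Lam u i j (h i) (-h j) h)

/-- `PAR`: continuous coordinate derivatives on the open orthant give Fréchet differentiability.
Proof: change the coordinates one after the other, mean value theorem. -/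
def Stmt_PAR : Prop :=
  ∀ (ι : Type) [Fintype ι] [DecidableEq ι] (g : (ι → ℝ) → ℝ) (g' : ι → (ι → ℝ) → ℝ),
    (∀ h, Pos h → ∀ i, HasDerivAt (fun s => g (Function.update h i s)) (g' i h) (h i)) →
    (∀ i, ContinuousOn (g' i) {h | Pos h}) →
    ∀ h, Pos h → HasFDerivAt g (lin (fun i => g' i h)) h

/-- `PARH` (from `PAR`): the same when the derivative in the direction `i0` is replaced by homogeneity of
degree two.
Proof: on `{j // j ≠ i0}` the function `G(y) = g(y, 1)` (coordinate `i0` equal to `1`) satisfies the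
hypotheses of `PAR`; `g(h) = h(i0)² G(h/h(i0))`, chain rule; `g' j` is homogeneous of degree one (from the
homogeneity of `g` and uniqueness of derivatives). -/
def Stmt_PARH : Prop :=
  ∀ (ι : Type) [Fintype ι] [DecidableEq ι] (g : (ι → ℝ) → ℝ) (g' : ι → (ι → ℝ) → ℝ) (i0 : ι),
    (∀ h, Pos h → ∀ i, i ≠ i0 →
      HasDerivAt (fun s => g (Function.update h i s)) (g' i h) (h i)) →
    (∀ i, i ≠ i0 → ContinuousOn (g' i) {h | Pos h}) →
    (∀ h, Pos h → ∀ c : ℝ, 0 < c → g (c • h) = c ^ 2 * g h) →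
    (∀ h, Pos h → h i0 * g' i0 h = 2 * g h - ∑ i ∈ Finset.univ.erase i0, h i * g' i h) →
    ∀ h, Pos h → HasFDerivAt g (lin (fun i => g' i h)) h

/-- `HOM` (from `SF`, `HF`, `LAMC`, `BND`): homogeneity.
Proof: `K (c • h) = c • K h`, so `V (c • h) = c³ V h`; `S` and the off-diagonal `H` from the formulas `SF`, `HF` and
the scaling in `LAMC` (or from `deriv` of `s ↦ V u (update (c • h) i s)` with `s = c s'`);
`H i i` by `deriv` under scaling: `S u (update (c • h) i (c s)) i = c² S u (update h i s) i` for `s > 0`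
near `h i`. -/
def Stmt_HOM : Prop :=
  ∀ (ι : Type) [Fintype ι] [DecidableEq ι] (u : ι → R3), Fam u → ∀ h, Pos h → ∀ c : ℝ, 0 < c →
    V u (c • h) = c ^ 3 * V u h ∧ (∀ i, S u (c • h) i = c ^ 2 * S u h i) ∧
    ∀ i j, H u (c • h) i j = c * H u h i j

/-- `DV1` (from `SF`, `LAMC`, `PAR`): the volume is `C¹` on `Pos`.
Proof: `PAR` with `SF`; continuity of `h ↦ S u h i`: parametric integral of a jointly continuous function with
continuous limits (substitute `β = h j τ`, `τ ∈ [-1, 1]`). -/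
def Stmt_DV1 : Prop :=
  ∀ (ι : Type) [Fintype ι] [DecidableEq ι] (u : ι → R3), Fam u →
    (∀ i, ContinuousOn (fun h => S u h i) {h | Pos h}) ∧
    (∀ h, Pos h → HasFDerivAt (V u) (lin (S u h)) h)

/-- `DVS` (from `HOM`, `DV1`, `HF`, `LAMC`, `PARH`): the volume is `C²` on `Pos`.
Proof: `S i`: `PARH` with `i0 = i` and `HF` (define the `i`-th coordinate derivative by the formula
`(2 S i - Σ_{j≠i} H i j h j)/h i`; it equals `H u h i i` because a Fréchet derivative gives the coordinate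
derivative).  Euler relations: derivative of `HOM` at `c = 1`.  Continuity of `H i j` from `HF`, `LAMC`, and of
`H i i` from the Euler relation.  Symmetry from `HF` and `LAMC`
(`Lam u j i (h j) (-h i) = Lam u i j (-h i) (h j) = Lam u i j (h i) (-h j)`). -/
def Stmt_DVS : Prop :=
  ∀ (ι : Type) [Fintype ι] [DecidableEq ι] (u : ι → R3), Fam u →
    (∀ h, Pos h → HasFDerivAt (V u) (lin (S u h)) h) ∧
    (∀ h, Pos h → ∀ i, HasFDerivAt (fun h => S u h i) (lin (H u h i)) h) ∧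
    (∀ i j, ContinuousOn (fun h => H u h i j) {h | Pos h}) ∧
    (∀ h, Pos h → ∀ i j, H u h i j = H u h j i) ∧
    (∀ h, Pos h → ∑ i, S u h i * h i = 3 * V u h) ∧
    (∀ h, Pos h → ∀ i, ∑ j, H u h i j * h j = 2 * S u h i)

/-- `SGN` (from `SF`, `HF`, `LAMC`, `DVS`): signs.
Proof: `V > 0`: a small ball around `0` is in `K`.  `S i ≥ 0`, `H i j ≥ 0` (`i ≠ j`) from the formulas.
Row sums: `S u (h + τ 1) i ≥ S u h i` for `τ ≥ 0` and then differentiate (`DVS`): in the coordinates of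
`COO` (any `j ≠ i`) the points `(β, c)` of the section `α = h i` of `K u h` satisfy
`|β| ≤ h j`, `|A m(h i, β) + c D m| ≤ h m`; the shift `x ↦ x + τ u i` sends `(h i, β, c)` to
`(h i + τ, β + τ (u i . u j), c)` and changes every `u m . x` by `τ (u m . u i)`, of absolute value
`≤ τ`; so the chord at `β` for `h` is contained in the chord at `β + τ (u i . u j)` for `h + τ 1`, and
`∫` over `|β| ≤ h j` is at most `∫` over `|β'| ≤ h j + τ`. -/
def Stmt_SGN : Prop :=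
  ∀ (ι : Type) [Fintype ι] [DecidableEq ι] (u : ι → R3), Fam u → ∀ h, Pos h →
    0 < V u h ∧ (∀ i, 0 ≤ S u h i) ∧ (∀ i j, i ≠ j → 0 ≤ H u h i j) ∧ (∀ i, 0 ≤ ∑ j, H u h i j)

/-- `SLB` (from `DVS`): `V ≤ h i * Σ S`, and the ball.
Proof: for `τ ≥ 0` the linear map `T x = x + (τ/h i)(u i . x) u i`, of determinant `1 + τ/h i`
(`|u i| = 1`), maps `K u h` into `K u (h + τ 1)` (`|u j . T x| ≤ h j + τ |u j . u i| ≤ h j + τ`).  So
`V (h + τ 1) ≥ (1 + τ/h i) V h`, with equality at `τ = 0`; differentiate at `0`.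
`bal`: the cube `[-ρ/√3, ρ/√3]³` is in `K u h` (`|u i . x| ≤ |x|₂ ≤ ρ`), of volume `8/(3√3) ρ³ ≥ ρ³`. -/
def Stmt_SLB : Prop :=
  ∀ (ι : Type) [Fintype ι] [DecidableEq ι] (u : ι → R3), Fam u →
    (∀ h, Pos h → ∀ i, V u h ≤ h i * ∑ j, S u h j) ∧
    (∀ (h : ι → ℝ) (ρ : ℝ), 0 < ρ → (∀ i, ρ ≤ h i) → ρ ^ 3 ≤ V u h)

/-- `TCH` (from `SF`): facets of positive area are touched; bound for `h i`.
Proof: if no point of `K u h` satisfies `u i . x = h i` then all `Lam u i j (h i) β h`, `|β| ≤ h j`, vanish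
(empty chord), so `S i = 0`.  Let `x` be such a point, `ρ ≤ h m` for all `m`: the map
`T y = y + (1/ρ)(u i . y) x` has the determinant `1 + h i/ρ` and maps the ball of radius `ρ/2` into
`K u h`: `T y = (1/2)(2 y) + (1/2)(θ x)` with `|2y| ≤ ρ`, `θ = 2 (u i . y)/ρ`, `|θ| ≤ 1`, and `2 y`,
`θ x` are in `K u h`.  Take the cube `[-ρ/(2√3), ρ/(2√3)]³`, of volume `ρ³/(3√3)`:
`V ≥ (1 + h i/ρ) ρ³/(3√3) ≥ h i ρ²/6`. -/
def Stmt_TCH : Prop :=
  ∀ (ι : Type) [Fintype ι] [DecidableEq ι] (u : ι → R3), Fam u →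
    (∀ h, Pos h → ∀ i, 0 < S u h i → ∃ x ∈ K u h, dt (u i) x = h i) ∧
    (∀ (h : ι → ℝ) (ρ : ℝ), 0 < ρ → (∀ i, ρ ≤ h i) → ∀ i, 0 < S u h i →
      h i * ρ ^ 2 ≤ 6 * V u h)

/-- `BM2` (from `SF`): planar Brunn-Minkowski inequality in the facets.
Proof: `S u h i = 2 vol₂ {(β, c) : |β| ≤ h j, |A m(h i, β) + c D m| ≤ h m for m ≠ i, j}` (Fubini),
nonempty compact convex if the area is positive; the set for `(1-t) h + t h'` contains
`(1-t) A + t A'`.  Brunn-Minkowski in the plane: `Pool.Agent.Work.MP_3892ce_static.blk_BM` with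
`blk_PLN blk_PL1` (Work/MP_3892ce_static/BM.lean, PLN.lean, PL1.lean). -/
def Stmt_BM2 : Prop :=
  ∀ (ι : Type) [Fintype ι] [DecidableEq ι] (u : ι → R3), Fam u → ∀ h h' : ι → ℝ, Pos h → Pos h' →
    ∀ i, 0 < S u h i → 0 < S u h' i → ∀ t ∈ Icc (0 : ℝ) 1,
      (1 - t) * Real.sqrt (S u h i) + t * Real.sqrt (S u h' i) ≤
        Real.sqrt (S u ((1 - t) • h + t • h') i)

/-- `SQC` (from `BM2`, `DVS`): `sqrt S` lies below its tangent.
Proof: for `|t|` small `S (h + t f) i > 0`; `t ↦ sqrt (S (h + t f) i)` is concave near `0` with derivative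
`(Σ H f)/(2 sqrt S)` at `0`, so it is `≤ sqrt S + t (Σ H f)/(2 sqrt S)`, which is positive for small `t`;
square. -/
def Stmt_SQC : Prop :=
  ∀ (ι : Type) [Fintype ι] [DecidableEq ι] (u : ι → R3), Fam u → ∀ h, Pos h → ∀ (f : ι → ℝ) (i : ι),
    0 < S u h i → ∀ᶠ t : ℝ in 𝓝 0,
      S u (h + t • f) i ≤ S u h i + t * (∑ j, H u h i j * f j) +
        t ^ 2 * (∑ j, H u h i j * f j) ^ 2 / (4 * S u h i)

/-- `PWL` (from `LAMF`, `HF`): the mixed derivatives are affine on one side of a point of a line.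
Proof: `t ↦ mid`, `rad` are affine along the line (`α = h i + t f i`, `β = ±(h j + t f j)`); a minimum of
finitely many affine functions, and `max 0` of an affine function, is affine on some `[0, t0]`. -/
def Stmt_PWL : Prop :=
  ∀ (ι : Type) [Fintype ι] [DecidableEq ι] (u : ι → R3), Fam u → ∀ h, Pos h → ∀ (f : ι → ℝ)
    (i j : ι), i ≠ j → ∃ a : ℝ, ∀ᶠ t : ℝ in 𝓝[≥] 0, H u (h + t • f) i j = H u h i j + a * t

/-- `CU1` (from `PWL`, `DVS`): the volume is a cubic polynomial on one side of a point of a line.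
Proof: fix `i` and put `w = f i/h i`, `g = f - w h`, so `g i = 0` and
`h + t f = (1 + t w)(h + τ g)`, `τ = t/(1 + t w)`.  `d/dτ S(h + τ g) i = Σ_{j ≠ i} H(h + τ g) i j g j`
is affine for small `τ ≥ 0` (`PWL`), so `S(h + τ g) i` is a quadratic polynomial `s0 + s1 τ + s2 τ²`, and
by homogeneity `S(h + t f) i = s0 (1 + t w)² + s1 t (1 + t w) + s2 t²`, a quadratic polynomial in `t`.
Then `d/dt V(h + t f) = Σ S(h + t f) i f i` is quadratic and `V(h + t f)` cubic on some `[0, t0]`; the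
coefficients up to `t²` are given by `DVS` (values at `0` of the function and its first two derivatives,
one-sided). -/
def Stmt_CU1 : Prop :=
  ∀ (ι : Type) [Fintype ι] [DecidableEq ι] (u : ι → R3), Fam u → ∀ h, Pos h → ∀ f : ι → ℝ,
    ∃ c : ℝ, ∀ᶠ t : ℝ in 𝓝[≥] 0, V u (h + t • f) = V u h + t * (∑ i, S u h i * f i) +
      t ^ 2 / 2 * (∑ i, ∑ j, H u h i j * f i * f j) + c * t ^ 3

/-! ### The sign of the jump of the third derivative -/

/-- coincidence form of the planes `u i . x = h i`, `u j . x = e1 h j`, `u k . x = e2 h k`,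
`u m . x = e3 h m` -/
noncomputable def fv {ι : Type} [DecidableEq ι] (u : ι → R3) (i j k m : ι) (e1 e2 e3 : ℝ) : ι → ℝ :=
  Pi.single i (de (u j) (u k) (u m)) + Pi.single j (-(e1 * de (u i) (u k) (u m))) +
    Pi.single k (e2 * de (u i) (u j) (u m)) + Pi.single m (-(e3 * de (u i) (u j) (u k)))

/-- all coincidence forms -/
def Frm {ι : Type} [DecidableEq ι] (u : ι → R3) : Set (ι → ℝ) :=
  {c | ∃ (i j k m : ι) (e1 e2 e3 : ℝ), i ≠ j ∧ i ≠ k ∧ i ≠ m ∧ j ≠ k ∧ j ≠ m ∧ k ≠ m ∧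
    (e1 = 1 ∨ e1 = -1) ∧ (e2 = 1 ∨ e2 = -1) ∧ (e3 = 1 ∨ e3 = -1) ∧ c = fv u i j k m e1 e2 e3}

/-- at `h` at most one coincidence form (up to a factor) vanishes, namely `c` (or none, `c = 0`) -/
structure One {ι : Type} [Fintype ι] [DecidableEq ι] (u : ι → R3) (h c : ι → ℝ) : Prop where
  form : c = 0 ∨ c ∈ Frm u
  zero : lin c h = 0
  only : ∀ c' ∈ Frm u, lin c' h = 0 → ∃ r : ℝ, c' = r • c

/-- `KN1` (from `LAMF`): chord lengths near a point with one coincidence.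
Proof: `s = ±1`; write `A m = u m . pt u i j (h i) (s h j)`, `D m = de (u i) (u j) (u m)`.  The bounds
`mid + rad`, `mid - rad` are `(e h m - A m)/D m` with `e = ±1`.  For `k ≠ m` (both `≠ i, j`)
`(e h k - A k)/D k - (e' h m - A m)/D m = lin (fv u i j k m s e e') h / (D k D m)` because
`de(j,k,m) u i - de(i,k,m) u j + de(i,j,m) u k - de(i,j,k) u m = 0` (ring), and for `k = m` two different
bounds differ by `2 rad > 0`.  So all ties among the bounds at `h₀` come from vanishing forms, which are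
multiples of `c`: the upper bounds which attain the minimum at `h₀` differ by multiples of `lin c h`, so
near `h₀` the minimum is an affine function plus `n |lin c h|`; the same for the maximum of the lower
bounds; if the difference `W` is positive (negative) at `h₀` then `Lam = W` (`Lam = 0`) near `h₀`, and if
`W(h₀) = 0` this is a tie, `W` is a function of `x = lin c h` of the form `r x + n |x|`, and so is
`max 0 W`.  If `Lam = 0` at `h₀` and `c ≠ 0` then `n ≥ 0`: `lin a v + n |lin c v| ≥ 0` for small `v` and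
`-v`. -/
def Stmt_KN1 : Prop :=
  ∀ (ι : Type) [Fintype ι] [DecidableEq ι] (u : ι → R3), Fam u → ∀ h₀ c : ι → ℝ, Pos h₀ →
    One u h₀ c → ∀ i j : ι, i ≠ j → ∀ s : ℝ, s = 1 ∨ s = -1 → ∃ (a : ι → ℝ) (n : ℝ),
      (∀ᶠ h in 𝓝 h₀, Lam u i j (h i) (s * h j) h =
        Lam u i j (h₀ i) (s * h₀ j) h₀ + lin a (h - h₀) + n * |lin c h|) ∧
      (Lam u i j (h₀ i) (s * h₀ j) h₀ = 0 → c ≠ 0 → 0 ≤ n) ∧ (c = 0 → n = 0)

/-- `v0` is a common point of the four planes of the form `c` (with signs `e a = dt (u a) v0 / h a = ±1`),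
and `rel` is the linear relation `Σ c a e a u a = 0`. -/
structure Conc {ι : Type} [Fintype ι] [DecidableEq ι] (u : ι → R3) (h c : ι → ℝ) (v0 : R3) :
    Prop where
  form : c ∈ Frm u
  tight : ∀ a, c a ≠ 0 → |dt (u a) v0| = h a
  rel : ∀ x : R3, ∑ a, c a * (dt (u a) v0 / h a) * dt (u a) x = 0

/-- `KNC`: the common point of a vanishing form; support of a form.
Proof: `c = fv u i j k m e1 e2 e3`; all four coefficients are nonzero (`Fam.ind`, `e = ±1`), so the support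
of `c` is `{i, j, k, m}`.  Let `v0` solve `u i . v0 = h i`, `u j . v0 = e1 h j`, `u k . v0 = e2 h k` (Cramer).
The identity `de(j,k,m) u i - de(i,k,m) u j + de(i,j,m) u k - de(i,j,k) u m = 0` (ring) applied to `v0`, and
`lin c h = 0`, give `u m . v0 = e3 h m`; the same identity is `rel`.  If `v0` works then so does `-v0` with the
form `c` (the relation changes sign).  Uniqueness of the relation: three of the four vectors are
independent. -/
def Stmt_KNC : Prop :=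
  ∀ (ι : Type) [Fintype ι] [DecidableEq ι] (u : ι → R3), Fam u →
    (∀ c ∈ Frm u, ∃ i j k m : ι, i ≠ j ∧ i ≠ k ∧ i ≠ m ∧ j ≠ k ∧ j ≠ m ∧ k ≠ m ∧
      ∀ a, c a ≠ 0 ↔ (a = i ∨ a = j ∨ a = k ∨ a = m)) ∧
    (∀ h : ι → ℝ, Pos h → ∀ c ∈ Frm u, lin c h = 0 → ∃ v0 : R3, Conc u h c v0) ∧
    (∀ h : ι → ℝ, Pos h → ∀ (c : ι → ℝ) (v0 : R3), Conc u h c v0 → Conc u h c (-v0)) ∧
    (∀ c ∈ Frm u, ∀ b b' : ι → ℝ, (∀ a, c a = 0 → b a = 0) → (∀ a, c a = 0 → b' a = 0) → b ≠ 0 →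
      (∀ x : R3, ∑ a, b a * dt (u a) x = 0) → (∀ x : R3, ∑ a, b' a * dt (u a) x = 0) →
      ∃ r : ℝ, b' = r • b)

/-- `KN0` (from `LAMF`, `KNC`): no kink in two cases.  Here `i, j` are in the support of `c`, normalised by
`dt (u i) v0 = h₀ i`; `e = dt (u j) v0 / h₀ j = ±1` is the sign of the line through `v0`.
The chord length with the sign `-e` is affine near `h₀`; the one with the sign `e` too if `v0 ∉ K u h₀`.
Proof: (see `KN1` for the formulas) a tie between two bounds `(e' h k' - A k')/D k'`, `(e'' h m' - A m')/D m'` on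
the line `(i, j, s)` at `h₀` gives a vanishing form `c' = fv u i j k' m' s e' e''`, so `c' = r c`; so
`{i, j, k', m'}` is the support of `c`.  Both `Σ c a (e a) u a = 0` (`Conc.rel`) and
`Σ c' a ε a u a = 0` with `ε = (1, s, e', e'')`; by uniqueness (`KNC`) `ε = ± e`, and `ε i = 1 = e i`, so
`s = e j = e`, and the two bounds are both equal to the parameter `c0` of `v0 = pt + c0 t`.  So for `s = -e` there
are no ties: minimum, maximum and `max 0` are all affine near `h₀`.  For `s = e` and `v0 ∉ K`: some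
constraint `l` is violated at `v0`, `l` not in the support (`tight`): `c0 > mid l + rad l` or
`c0 < mid l - rad l`, strictly, also near `h₀`.  First case: an upper bound equal to `c0` is not minimal,
and if a lower bound equals `c0` then max lower `>` min upper, `Lam = 0` near `h₀`; second case symmetric. -/
def Stmt_KN0 : Prop :=
  ∀ (ι : Type) [Fintype ι] [DecidableEq ι] (u : ι → R3), Fam u → ∀ (h₀ c : ι → ℝ) (v0 : R3), Pos h₀ →
    One u h₀ c → Conc u h₀ c v0 → ∀ i j, i ≠ j → c i ≠ 0 → c j ≠ 0 → dt (u i) v0 = h₀ i →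
    (∃ a : ι → ℝ, ∀ᶠ h in 𝓝 h₀, Lam u i j (h i) (-(dt (u j) v0 / h₀ j) * h j) h =
        Lam u i j (h₀ i) (-(dt (u j) v0 / h₀ j) * h₀ j) h₀ + lin a (h - h₀)) ∧
    (v0 ∉ K u h₀ → ∃ a : ι → ℝ, ∀ᶠ h in 𝓝 h₀, Lam u i j (h i) (dt (u j) v0 / h₀ j * h j) h =
        Lam u i j (h₀ i) (dt (u j) v0 / h₀ j * h₀ j) h₀ + lin a (h - h₀))

/-- `KNG` (from `KNC`, `SF`, `LAMF`): the edge of two planes of equal sign is a point.
Proof: put `n a = (dt (u a) v0 / h₀ a) u a` for the four indices of the support: `Σ c a n a = 0`,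
`n a . v0 = h₀ a`, and `n a . x ≤ h₀ a` on `K`.  Not all `c a` have the same sign: `0 = Σ c a n a . v0 =
Σ c a h₀ a`.  Not three of one sign and one (index `m`) of the other: then `n m = Σ_{a≠m} (-c a/c m) n a` with
positive coefficients and `h₀ m = Σ (-c a/c m) h₀ a`, so `x ∈ K`, `n m . x = h₀ m` forces
`n a . x = h₀ a` for the other three, `x = v0` (independent): the face of `n m` is one point, so all chords
`Lam u m j (± h₀ m) β` with `|β| ≤ h₀ j` are null sets, `S m = 0` by `SF` (and evenness): contradiction with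
`0 < S`.  So two and two: `i, j` of one sign, `k, m` of the other.  On the line of `i, j` through `v0`,
direction `t`: `n i . t = n j . t = 0`, `c k (n k . t) + c m (n m . t) = 0`, both nonzero (`Fam.ind`),
`c k c m > 0`, so `n k . t`, `n m . t` have opposite signs and every point `v0 + τ t`, `τ ≠ 0`, violates `k`
or `m`: the chord is `{c0}`, of length `0`. -/
def Stmt_KNG : Prop :=
  ∀ (ι : Type) [Fintype ι] [DecidableEq ι] (u : ι → R3), Fam u → ∀ (h₀ c : ι → ℝ) (v0 : R3), Pos h₀ →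
    (∀ i, 0 < S u h₀ i) → Conc u h₀ c v0 → v0 ∈ K u h₀ → ∀ i j, i ≠ j → 0 < c i * c j →
    dt (u i) v0 = h₀ i → Lam u i j (h₀ i) (dt (u j) v0) h₀ = 0

/-- kink coefficients `n` of the mixed derivatives at `h₀` -/
def Kink {ι : Type} [Fintype ι] [DecidableEq ι] (u : ι → R3) (h₀ c : ι → ℝ) (n : ι → ι → ℝ) :
    Prop :=
  ∀ i j, i ≠ j → ∃ a : ι → ℝ, ∀ᶠ h in 𝓝 h₀,
    H u h i j = H u h₀ i j + lin a (h - h₀) + n i j * |lin c h|

/-- `KN2` (from `KN1`, `HF`, `DVS`): symmetry of third derivatives.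
Proof: existence of `n` by `KN1` and `HF`.  For distinct `i, j, k`: `S j` is `C¹` with
`∂_i S j = H i j`, `∂_k S j = H k j` (`H` symmetric).  On each side `lin c h > 0`, `< 0` both are affine near
`h₀`, so the mixed differences of `S j` over small rectangles in the directions `e_i, e_k` give
`∂_k H i j = ∂_i H k j` there: `a_k ± n i j c k = b_i ± n k j c i`.  Subtract.  (If `c k = c i = 0` nothing
to prove.)  Uniqueness of `n` (if `c ≠ 0`) gives `n i j = n j i`; for `c = 0` take `n = 0`: the claims are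
only for the given `n`, and they are trivial for `c = 0`. -/
def Stmt_KN2 : Prop :=
  ∀ (ι : Type) [Fintype ι] [DecidableEq ι] (u : ι → R3), Fam u → ∀ h₀ c : ι → ℝ, Pos h₀ →
    One u h₀ c → (∃ n, Kink u h₀ c n) ∧ ∀ n, Kink u h₀ c n →
      (∀ i j k, i ≠ j → i ≠ k → j ≠ k → n i j * c k = n k j * c i) ∧
      (c ≠ 0 → ∀ i j, i ≠ j → n i j = n j i)

/-- `KN3` (from `KNC`, `KN0`, `KN1`, `KNG`, `KN2`, `HF`): rank one and sign.
Proof: `c` has exactly four nonzero entries (`KNC`).  By `KN2` `n a b/(c a c b)` does not depend on the pair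
`a ≠ b` inside the support, and `n a b = 0` if `a` or `b` is outside the support (use a third index in the
support, and the symmetry of `n`).  So `n a b = ν c a c b`.  Two of the four entries have the same sign,
say `c i c j > 0`; let `v0` be as in `KNC`; replacing `v0` by `-v0` assume `dt (u i) v0 = h₀ i`; let
`e = dt (u j) v0/h₀ j = ±1`.  `H i j = 2 (Lam u i j (h i) (h j) h + Lam u i j (h i) (-h j) h)` (`HF`).  The
chord with sign `-e` has no kink (`KN0`).  If `v0 ∉ K` neither has the other one: `n i j = 0`.  If `v0 ∈ K`, the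
other chord is zero at `h₀` (`KNG`) and its kink coefficient is `≥ 0` (`KN1`).  Hence `n i j ≥ 0`
(coefficients of `|lin c h|` are unique because `c ≠ 0`), and `ν ≥ 0`. -/
def Stmt_KN3 : Prop :=
  ∀ (ι : Type) [Fintype ι] [DecidableEq ι] (u : ι → R3), Fam u → ∀ h₀ c : ι → ℝ, Pos h₀ →
    c ∈ Frm u → One u h₀ c → (∀ i, 0 < S u h₀ i) → ∀ n, Kink u h₀ c n →
      ∃ ν : ℝ, 0 ≤ ν ∧ ∀ i j, i ≠ j → n i j = ν * c i * c j

/-- `KN4` (from `KN2`, `KN3`, `CU1`, `DVS`): the second derivative along a line has a support line at a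
point with at most one coincidence.
Proof: let `φ(t) = Σ Σ H(h₀ + t f) i j f i f j = d²/dt² V(h₀ + t f)`; by `CU1` (for `f` and `-f`)
`φ(t) = φ(0) + 6 cp t` for small `t ≥ 0` and `φ(0) + 6 cm t` for small `t ≤ 0` (second derivative of a
cubic polynomial).  With `w = f/h` at the moving point `h = h₀ + t f` and `H i i = (2 S i - Σ_{j≠i} H i j h j)/h i`:
`φ(t) = 2 Σ S i f i²/h i - (1/2) Σ_{i≠j} H i j h i h j (f i/h i - f j/h j)²`.  `S i` and `h i` are
differentiable in `t`, `H i j` (`i ≠ j`) has right minus left derivative `2 n i j |lin c f|`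
(`lin c (h₀ + t f) = t lin c f`).  So
`6 (cp - cm) = - Σ_{i≠j} n i j |lin c f| h i h j (w i - w j)²
= - ν |lin c f| Σ_{i,j} c i h i c j h j (w i - w j)² = 2 ν |lin c f| (lin c f)² ≥ 0`, as
`Σ c i h i = lin c h₀ = 0` (if `c = 0` it is `0`).  So `cm ≤ cp`. -/
def Stmt_KN4 : Prop :=
  ∀ (ι : Type) [Fintype ι] [DecidableEq ι] (u : ι → R3), Fam u → ∀ h₀ c : ι → ℝ, Pos h₀ →
    One u h₀ c → (∀ i, 0 < S u h₀ i) → ∀ f : ι → ℝ, ∃ a : ℝ, ∀ᶠ t : ℝ in 𝓝 0,
      (∑ i, ∑ j, H u h₀ i j * f i * f j) + a * t ≤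
        ∑ i, ∑ j, H u (h₀ + t • f) i j * f i * f j

/-- `KN5`: generic points.
Proof: `Frm u` is a finite set of nonzero vectors (`Fam.ind`).  If `c1, c2` are forms which are not
proportional and `(lin c1 f, lin c2 f) ≠ 0` then the vector `(lin c1 f) c2 - (lin c2 f) c1` is not zero.
Finitely many nonzero linear functionals: there is `h'` near `h` on which none of them vanishes (choose `g`
with all of them nonzero at `g`, for example `g = (1, x, x², ..)`, and `h' = h + s g`, `s` small).  Take all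
`c ∈ Frm u` and all these vectors.  If two non proportional forms vanish at `h' + t f` then
`lin c1 h' = - t lin c1 f`, `lin c2 h' = - t lin c2 f`; if `(lin c1 f, lin c2 f) ≠ 0` the combination
vanishes at `h'`, otherwise `lin c1 h' = 0`: contradiction.  So all forms vanishing at `h' + t f` are
proportional to one of them (which is not zero). -/
def Stmt_KN5 : Prop :=
  ∀ (ι : Type) [Fintype ι] [DecidableEq ι] (u : ι → R3), Fam u → ∀ (h f : ι → ℝ) (ε : ℝ), 0 < ε →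
    ∃ h' : ι → ℝ, ‖h' - h‖ < ε ∧ ∀ t : ℝ, ∃ c : ι → ℝ, One u (h' + t • f) c

/-- `KNK` (from `CU1`, `KN4`, `KN5`, `DVS`): the jump has the right sign.
Proof: choose `t0 > 0`, a neighbourhood `N` of `h` such that `h' + t f` is in `Pos` with all `S i > 0` for
`h' ∈ N`, `|t| ≤ t0`.  For generic `h'` (`KN5`) `φ(t) = Σ Σ H(h' + t f) f f` is continuous on `[-t0, t0]`
and has a support line at every point (`KN4`), hence `2 φ(0) ≤ φ(t) + φ(-t)` for `0 ≤ t ≤ t0`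
(`Stmt_SCH` of Work/MP_b5407d_lbm, or: a continuous function with local support lines is convex: otherwise
subtract the chord and look at the maximum).  Let `h' → h` (`H` continuous): the same at `h`.  By `CU1`,
`φ(t) = φ(0) + 6 cp t`, `φ(-t) = φ(0) - 6 cm t` for small `t ≥ 0`.  So `cm ≤ cp`. -/
def Stmt_KNK : Prop :=
  ∀ (ι : Type) [Fintype ι] [DecidableEq ι] (u : ι → R3), Fam u → ∀ h, Pos h → (∀ i, 0 < S u h i) →
    ∀ f : ι → ℝ, ∃ cm cp : ℝ, cm ≤ cp ∧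
    (∀ᶠ t : ℝ in 𝓝[≥] 0, V u (h + t • f) = V u h + t * (∑ i, S u h i * f i) +
      t ^ 2 / 2 * (∑ i, ∑ j, H u h i j * f i * f j) + cp * t ^ 3) ∧
    (∀ᶠ t : ℝ in 𝓝[≤] 0, V u (h + t • f) = V u h + t * (∑ i, S u h i * f i) +
      t ^ 2 / 2 * (∑ i, ∑ j, H u h i j * f i * f j) + cm * t ^ 3)

/-! ### Vanishing facets -/

/-- `VA1` (from `SF`): a face of area zero is at most one point.
Proof: suppose `x ≠ y` in `K`, `u i . x = h i = u i . y`, `z` the midpoint.  If `|u m . z| = h m`, `m ≠ i`, then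
`u m . (x - y) = 0` (both ends are on the same side).  Two different such `m` are impossible (`Fam.ind`:
`u i, u m, u m'` would be orthogonal to `x - y ≠ 0`).  Choose `j ≠ i` such that all `m ≠ i, j` are not active at
`z`.  In the coordinates `(h i, β, c)` of `z` (`|β| ≤ h j`) all other constraints hold strictly near `z`, so
`Lam u i j (h i) β' h > 0` for `β'` near `β` in `[-h j, h j]`, and `S i > 0` by `SF`. -/
def Stmt_VA1 : Prop :=
  ∀ (ι : Type) [Fintype ι] [DecidableEq ι] (u : ι → R3), Fam u → ∀ h, Pos h → ∀ i, S u h i = 0 →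
    ∀ x ∈ K u h, ∀ y ∈ K u h, dt (u i) x = h i → dt (u i) y = h i → x = y

/-- `VA2` (from `BND`, `VA1`): faces of nearby bodies are close.
Proof: otherwise there are `h_n → h` and `x_n ∈ K u h_n`, `u i . x_n = h_n i`, not close to `v`; bounded
(`BND`), a limit point is in `K u h` on the plane `i`, so it is `v` by `VA1`.  If there is no point in the
face then for `h'` near `h` there is none either. -/
def Stmt_VA2 : Prop :=
  ∀ (ι : Type) [Fintype ι] [DecidableEq ι] (u : ι → R3), Fam u → ∀ h, Pos h → ∀ i, S u h i = 0 →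
    (∀ v ∈ K u h, dt (u i) v = h i → ∀ η : ℝ, 0 < η → ∀ᶠ h' in 𝓝 h, ∀ x ∈ K u h',
      dt (u i) x = h' i → ∀ k, |x k - v k| < η) ∧
    ((∀ v ∈ K u h, dt (u i) v ≠ h i) → ∀ᶠ h' in 𝓝 h, ∀ x ∈ K u h', dt (u i) x ≠ h' i)

/-- `VA3` (from `VA2`, `SF`, `HF`, `DVS`): translation.
Proof: first claim: let `a j = |u j . v|`; for `h'` near `h` and `|t| ≤ t0` (uniform `t0`),
`S u (h' + t a) i = S u h' i`; then the derivative at `t = 0` vanishes (`DVS`).  In the coordinates of `COO`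
`S u h' i` is twice the area of `{(β, c)}` with `pt u i j (h' i) β + c • t ∈ K u h'`, and
`x ↦ x + t v` maps the facet of `h'` onto the facet of `h' + t a` (a translation in `(β, c)`): let `x` be in
the facet, so `x` is close to `v` (`VA2`); `s = sign (u j . v)`: `s u j . (x + t v) = s u j . x + t a j ≤
h' j + t a j`; and `- s u j . (x + t v) ≤ h' j + t a j` because `s u j . x` is close to `a j ≥ 0` and `h' j`
is bounded below (`t` small); if `u j . v = 0` trivial.  The inverse is the translation by `- t v`.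
Second claim: if `H u h' i j ≠ 0` then by `HF` one of the two chords is not a null set, so there is
`x ∈ K u h'` with `u i . x = h' i`, `|u j . x| = h' j`; `x` is close to `v` and `|u j . v| < h j`:
impossible for `h'` near `h`.
Third claim: no point in the facet of `h'`, all chords are empty (`SF`, `HF`, Euler for `H i i`). -/
def Stmt_VA3 : Prop :=
  ∀ (ι : Type) [Fintype ι] [DecidableEq ι] (u : ι → R3), Fam u → ∀ h, Pos h → ∀ i, S u h i = 0 →
    (∀ v ∈ K u h, dt (u i) v = h i →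
      (∀ᶠ h' in 𝓝 h, ∑ j, H u h' i j * |dt (u j) v| = 0) ∧
      ∀ j, j ≠ i → |dt (u j) v| < h j → ∀ᶠ h' in 𝓝 h, H u h' i j = 0) ∧
    ((∀ v ∈ K u h, dt (u i) v ≠ h i) → ∀ᶠ h' in 𝓝 h, S u h' i = 0 ∧ ∀ j, H u h' i j = 0)

/-- `VA4` (from `VA2`, `HF`): two vanishing facets which are neighbours vanish at the same point (up to
sign).
Proof: if `H u h' i j ≠ 0` for `h'` arbitrarily close to `h` there is `x ∈ K u h'` with `u i . x = h' i`
and `s u j . x = h' j`, `s = ±1`; `x` is close to `v`, and `s x` (in `K u h'`, `u j . (s x) = h' j`) is close to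
`v'`.  So `v' = s v` in the limit (finitely many signs, pass to a sequence). -/
def Stmt_VA4 : Prop :=
  ∀ (ι : Type) [Fintype ι] [DecidableEq ι] (u : ι → R3), Fam u → ∀ h, Pos h → ∀ i j, i ≠ j →
    S u h i = 0 → S u h j = 0 → ∀ v ∈ K u h, ∀ v' ∈ K u h, dt (u i) v = h i → dt (u j) v' = h j →
    (∃ᶠ h' in 𝓝 h, H u h' i j ≠ 0) → ∀ k, |dt (u k) v| = |dt (u k) v'|

/-- `VAN` (from `VA3`, `VA4`, `SGN`, `DVS`): ground state inequality.
Proof: `Z = {i : S u h i = 0}`.  For `i ∈ Z` whose face has a point `v i` (unique), put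
`d i k (h') = (1+τ) |u k . v i| - h' k`, `τ = 1/(2(|Λ|+1))`.  If `|u k . v i| = h k` then `d i k → τ h k`,
so near `h`: `τ h k/2 ≤ d i k ≤ 2 τ h k`; in particular for `k = i`.  If `|u k . v i| < h k`, `k ≠ i`, then
`H h' i k = 0` near `h` (`VA3`).  Row identity: `Σ_k H h' i k d i k = 0 - 2 S h' i` (`VA3`, Euler), so
`- H i i = (2 S i + Σ_{k≠i} H i k d i k)/d i i`.  Hence for `b` supported on `Z`
`- b^T H b = Σ_Z (2 S i/d i i) b i² + Σ_{i∈Z} Σ_{k≠i} H i k (d i k/d i i) b i² - Σ_{i≠k∈Z} H i k b i b k`.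
For `i ≠ k` in `Z` with `H h' i k ≠ 0`: `d i · = d k ·` near `h` (`VA4`: choose the neighbourhood such
that either `H i k = 0` on it or the conclusion of `VA4` holds), so these terms are together
`(1/2) Σ H i k [(d k/d i) b i² + (d i/d k) b k² - 2 b i b k] ≥ 0`.  For `k ∉ Z`:
`d i k/d i i ≥ h k/(4 h i) ≥ c`.  And `2/d i i ≥ 1/(τ h i) ≥ Λ/h' i` near `h`.  Indices of `Z` without a
point in the face: `S h' i = 0`, `H h' i k = 0` near `h` (`VA3`). -/
def Stmt_VAN : Prop :=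
  ∀ (ι : Type) [Fintype ι] [DecidableEq ι] (u : ι → R3), Fam u → ∀ h, Pos h → ∃ c : ℝ, 0 < c ∧
    ∀ Λ : ℝ, ∀ᶠ h' in 𝓝 h, ∀ b : ι → ℝ, (∀ i, 0 < S u h i → b i = 0) →
      Λ * (∑ i, S u h' i * b i ^ 2 / h' i) +
        c * (∑ i, ∑ j, if 0 < S u h j then H u h' i j * b i ^ 2 else 0) ≤
        -(∑ i, ∑ j, H u h' i j * b i * b j)

/-- `RED` (from `SF`, `HF`, `LAMF`, `DVS`, `SGN`): a constraint with `S k = 0` is redundant.
Proof: (1) there are at least four indices: if `ι = {k, j, m}` then by `LAMF` `Lam u k j (h k) β h =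
2 h m/|D|` is positive, so `S k > 0` by `SF`.
(2) `K u h = {x : |u i . x| ≤ h i for i ≠ k} =: K'`: suppose `x ∈ K'`, `u k . x > h k` (or `-x`).  `K'` contains a
ball around `0`, so the convex hull of this ball and `x` meets the plane `u k . y = h k` in a relatively
open set, contained in `K u h`: some `Lam u k j (h k) β h` with `|β| < h j` are positive on an interval of
`β`, so `S k > 0`.
(3) For `i, j ≠ k` and `|α| ≤ h i`, `|β| ≤ h j` the chords for `u` and for the subfamily are equal by (2)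
(`COO`), so `SF` and `HF` (choose the second index `≠ k`, possible by (1)) give `S`, `H i j` (`i ≠ j`), `V`
(as volume of the same set).  `H i i` from Euler (`DVS`), with `H i k = H k i = 0` because `S k` is a
nonnegative differentiable function with a minimum at `h`. -/
def Stmt_RED : Prop :=
  ∀ (ι : Type) [Fintype ι] [DecidableEq ι] (u : ι → R3), Fam u → ∀ h, Pos h → ∀ k, S u h k = 0 →
    Fam (fun i : {i // i ≠ k} => u i) ∧
    V (fun i : {i // i ≠ k} => u i) (fun i => h i) = V u h ∧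
    (∀ i : {i // i ≠ k}, S (fun i : {i // i ≠ k} => u i) (fun i => h i) i = S u h i) ∧
    (∀ i j : {i // i ≠ k}, H (fun i : {i // i ≠ k} => u i) (fun i => h i) i j = H u h i j) ∧
    (∀ j, H u h k j = 0)

/-- `GAP` (from `DVS`, `TCH`, `SGN`, `BND`): spectral gap from the theorem
`Pool.Agent.Results.MP_b5407d_gt.NearOne.result` (import `Pool.Agent.Results.MP_b5407d_gt.NearOne`), with
`n = 3`, `p = 1 - 1/486`, `α = β = 1/2`, `ε = 1/486`.
Proof: fix `h`, `f`, all `S h i > 0`.  For small `σ > 0` put `a± i = (h i^p ± σ p h i^(p-1) f i)^(1/p)`; then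
`(a+^p + a-^p)/2 = h^p` and `S(a±) > 0`.  Apply the theorem to the symmetric bodies `K u a+`, `K u a-`
transported to `EuclideanSpace ℝ (Fin 3)` (volume preserving, centroid `0` by symmetry); their support
numbers in the directions `u i` are `a± i` (`TCH`: touched), so the `L_p` combination is contained in
`K u h`, and `V(h)^(p/3) ≥ (1/2) V(a+)^(p/3) + (1/2) V(a-)^(p/3)`.  The function
`g(σ) = V((h^p + σ p h^(p-1) f)^(1/p))^(p/3)` is twice differentiable at `0` with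
`g''(0) = -(p/3) V^(p/3-1) (J - (1-p) Q)` (the computation of `Stmt_PATH`, which may be used as a
hypothesis through `DVS`, or redone at one point), and `g(0) ≥ (g(σ) + g(-σ))/2`, so `g''(0) ≤ 0`. -/
def Stmt_GAP : Prop :=
  ∀ (ι : Type) [Fintype ι] [DecidableEq ι] (u : ι → R3), Fam u → ∀ h, Pos h → (∀ i, 0 < S u h i) →
    ∀ f : ι → ℝ, 1 / 486 * Q (V u) (S u) h f ≤ J (V u) (S u) (H u) h f

/-- `CALC` (from `DVS`, `HOM`, `SGN`, `SLB`, `TCH`, `SQC`, `KNK`, `VAN`, `GAP`): the geometric volume function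
satisfies `Calc`. -/
def Stmt_CALC : Prop :=
  ∀ (ι : Type) [Fintype ι] [DecidableEq ι] (u : ι → R3), Fam u → Calc (V u) (S u) (H u)

/-- `LOC` (from `CALC`, `ABS`, `RED`): the local inequality.
Proof: induction on the number of elements of `ι`.  `ABS`; the hypothesis on `h` with some `S h k = 0` follows
from `RED` and the induction hypothesis: in `J`, `Q` the terms with index `k` vanish (`S k = 0`,
`H k j = H j k = 0`). -/
def Stmt_LOC : Prop :=
  ∀ (ι : Type) [Fintype ι] [DecidableEq ι] (u : ι → R3), Fam u → ∀ h, Pos h → ∀ f : ι → ℝ,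
    1 / 2 * Q (V u) (S u) h f ≤ J (V u) (S u) (H u) h f

/-- `FINI` (from `LOC`, `CALC`, `SUP`): the inequality for admissible families. -/
def Stmt_FINI : Prop :=
  ∀ (ι : Type) [Fintype ι] [DecidableEq ι] (u : ι → R3), Fam u → ∀ p : ℝ, 1 / 2 ≤ p → p < 1 →
    ∀ a b : ι → ℝ, Pos a → Pos b → ∀ s ∈ Icc (0 : ℝ) 1,
      (1 - s) * V u a ^ (p / 3) + s * V u b ^ (p / 3) ≤
        V u (fun i => ((1 - s) * a i ^ p + s * b i ^ p) ^ (1 / p)) ^ (p / 3)

end Pool.T3
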