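import Pool.Agent.Work.MP_b5407d_t3.Interface

set_option autoImplicit false

open MeasureTheory Set Filter Topology

namespace Pool.T3

namespace KEY_

theorem right_lim (A B : ℝ)
    (h : ∀ η : ℝ, 0 < η → ∀ᶠ t : ℝ in 𝓝[>] 0, A * t ^ 3 ≤ (B + η) * t ^ 4) :
    A ≤ 0 ∧ (A = 0 → 0 ≤ B) := by
  constructor
  · by_contra hA
    push Not at hA
    have h1 := h 1 one_pos
    have h2 : ∀ᶠ t : ℝ in 𝓝[>] 0, t * (|B| + 1) < A := by
      have h3 : ∀ᶠ t : ℝ in 𝓝 0, t * (|B| + 1) < A := by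
        have : Tendsto (fun t : ℝ => t * (|B| + 1)) (𝓝 0) (𝓝 (0 * (|B| + 1))) :=
          (continuous_id.mul continuous_const).tendsto 0
        rw [zero_mul] at this
        exact this.eventually (gt_mem_nhds hA)
      exact h3.filter_mono nhdsWithin_le_nhds
    obtain ⟨t, ⟨ht1, ht2⟩, ht⟩ := ((h1.and h2).and self_mem_nhdsWithin).exists
    have ht' : (0 : ℝ) < t := ht
    have ht3 : 0 < t ^ 3 := by positivity
    have : (B + 1) * t ^ 4 ≤ (t * (|B| + 1)) * t ^ 3 := by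
      have hb : B ≤ |B| := le_abs_self B
      have : (B + 1) * t ^ 4 = (t * (B + 1)) * t ^ 3 := by ring
      rw [this]
      apply mul_le_mul_of_nonneg_right _ ht3.le
      nlinarith
    have h5 : (t * (|B| + 1)) * t ^ 3 < A * t ^ 3 := mul_lt_mul_of_pos_right ht2 ht3
    linarith
  · intro hA
    by_contra hB
    push Not at hB
    have h1 := h (-B / 2) (by linarith)
    obtain ⟨t, ht1, ht⟩ := (h1.and self_mem_nhdsWithin).exists
    have ht' : (0 : ℝ) < t := ht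
    have ht4 : 0 < t ^ 4 := by positivity
    rw [hA] at ht1
    nlinarith

theorem left_lim (A B : ℝ)
    (h : ∀ η : ℝ, 0 < η → ∀ᶠ t : ℝ in 𝓝[<] 0, A * t ^ 3 ≤ (B + η) * t ^ 4) :
    0 ≤ A := by
  have h2 : ∀ η : ℝ, 0 < η → ∀ᶠ t : ℝ in 𝓝[>] 0, (-A) * t ^ 3 ≤ (B + η) * t ^ 4 := by
    intro η hη
    have h1 := h η hη
    have h3 : Tendsto (fun t : ℝ => -t) (𝓝[>] 0) (𝓝[<] 0) := by
      have := tendsto_neg_nhdsGT (a := (0 : ℝ))
      simpa using this
    have h4 := h3.eventually h1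
    filter_upwards [h4] with t ht
    have e1 : (-t) ^ 3 = -(t ^ 3) := by ring
    have e2 : (-t) ^ 4 = t ^ 4 := by ring
    rw [e1, e2] at ht
    linarith
  have := (right_lim (-A) B h2).1
  linarith

end KEY_

open KEY_ in
theorem stmt_KEY (hINE : Stmt_INE) (hTAY : Stmt_TAY) : Stmt_KEY := by
  intro ι _ v S H δ ε h f hc
  obtain ⟨hcal, hδ, hε, hsm, hadm, heig, hloc⟩ := hc
  have hcrit : Crit v S H δ ε h f := ⟨hcal, hδ, hε, hsm, hadm, heig, hloc⟩
  obtain ⟨hpos, hspos, hvol, hmean, hvar⟩ := hadm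
  have hε2 : ε < 1 / 2 := by linarith
  set p : ℝ := 1 - ε with hp
  set k : ℝ := mo S h f 4 with hk
  set m3 : ℝ := mo S h f 3 with hm3
  set a : ℝ := aa S h f with ha
  -- moments
  have hh0 : ∀ i, h i ≠ 0 := fun i => (hpos i).ne'
  have hM0 : (1 / 3) * ∑ i, S h i * h i = 1 := by
    rw [hcal.e3 h hpos, hvol]; norm_num
  have hM1 : (1 / 3) * ∑ i, S h i * h i * (f i / h i) = 0 := by
    have : ∑ i, S h i * h i * (f i / h i) = ∑ i, S h i * f i := by
      refine Finset.sum_congr rfl fun i _ => ?_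
      have := hh0 i
      field_simp
    rw [this, hmean, mul_zero]
  have hM2 : (1 / 3) * ∑ i, S h i * h i * (f i / h i) ^ 2 = 1 := by
    have : ∑ i, S h i * h i * (f i / h i) ^ 2 = ∑ i, S h i * f i ^ 2 / h i := by
      refine Finset.sum_congr rfl fun i _ => ?_
      have := hh0 i
      field_simp
    rw [this, hvar]; norm_num
  have hk1 : 1 ≤ k := by
    have h1 : 0 ≤ (1 / 3) * ∑ i, S h i * h i * ((f i / h i) ^ 2 - 1) ^ 2 := by
      apply mul_nonneg (by norm_num)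
      exact Finset.sum_nonneg fun i _ =>
        mul_nonneg (mul_nonneg (hspos i).le (hpos i).le) (sq_nonneg _)
    have h2 : (1 / 3) * ∑ i, S h i * h i * ((f i / h i) ^ 2 - 1) ^ 2 =
        k - 2 * ((1 / 3) * ∑ i, S h i * h i * (f i / h i) ^ 2) +
          (1 / 3) * ∑ i, S h i * h i := by
      rw [hk]
      unfold mo
      rw [Finset.mul_sum, Finset.mul_sum, Finset.mul_sum, Finset.mul_sum, Finset.mul_sum,
        ← Finset.sum_sub_distrib, ← Finset.sum_add_distrib]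
      refine Finset.sum_congr rfl fun i _ => ?_
      ring
    rw [h2, hM2, hM0] at h1
    linarith
  -- quadratic coefficient
  have hquad : ∑ i, ∑ j, H h i j * f i * f j = -(3 * ε) := by
    have : ∀ i, ∑ j, H h i j * f i * f j = -(ε * (S h i * f i ^ 2 / h i)) := by
      intro i
      have h1 : ∑ j, H h i j * f i * f j = f i * ∑ j, H h i j * f j := by
        rw [Finset.mul_sum]
        refine Finset.sum_congr rfl fun j _ => ?_
        ring
      rw [h1, heig i]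
      ring
    rw [Finset.sum_congr rfl fun i _ => this i, Finset.sum_neg_distrib, ← Finset.mul_sum, hvar]
    ring
  obtain ⟨cm, cp, hcc, hplus, hminus⟩ := hcal.cub h hpos hspos f
  rw [hmean, hquad, hvol] at hplus hminus
  -- the main inequality on one side
  have main : ∀ (c : ℝ) (t : ℝ) (η : ℝ), 0 < η →
      v (h + t • f) = 1 + t * 0 + t ^ 2 / 2 * -(3 * ε) + c * t ^ 3 →
      v (h + t • f) ^ ((1 - ε) / 3) ≤
        (1 / 3) * ∑ i, S h i * h i * (1 + t * (f i / h i)) ^ (1 - ε) +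
        (1 - ε) / 3 * (-(3 / 4 * δ * ε * aa S h f * t ^ 3) + 7 * δ * ε * mo S h f 4 * t ^ 4) +
        η * t ^ 4 →
      (∀ i, |(1 + t * (f i / h i)) ^ p - (1 + p * (f i / h i) * t +
        p * (p - 1) / 2 * (f i / h i) ^ 2 * t ^ 2 +
        p * (p - 1) * (p - 2) / 6 * (f i / h i) ^ 3 * t ^ 3 +
        p * (p - 1) * (p - 2) * (p - 3) / 24 * (f i / h i) ^ 4 * t ^ 4)| ≤ η * t ^ 4) →
      |(1 + (-(3 * ε) / 2) * t ^ 2 + c * t ^ 3) ^ (p / 3) - (1 + p / 3 * (-(3 * ε) / 2) * t ^ 2 +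
        p / 3 * c * t ^ 3 + p / 3 * (p / 3 - 1) / 2 * (-(3 * ε) / 2) ^ 2 * t ^ 4)| ≤ η * t ^ 4 →
      (p / 3 * c - (p * (p - 1) * (p - 2) / 6 * m3 - p / 4 * δ * ε * a)) * t ^ 3 ≤
        (p * (p - 1) * (p - 2) * (p - 3) / 24 * k + 7 / 3 * p * δ * ε * k -
          p / 3 * (p / 3 - 1) / 2 * (-(3 * ε) / 2) ^ 2 + 3 * η) * t ^ 4 := by
    intro c t η hη hv hine ht1 ht2
    have hv' : v (h + t • f) = 1 + (-(3 * ε) / 2) * t ^ 2 + c * t ^ 3 := by rw [hv]; ring
    rw [hv', ← hp, ← ha, ← hk] at hine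
    have hsum : (1 / 3) * ∑ i, S h i * h i * (1 + t * (f i / h i)) ^ p ≤
        1 + p * (p - 1) / 2 * t ^ 2 + p * (p - 1) * (p - 2) / 6 * m3 * t ^ 3 +
          p * (p - 1) * (p - 2) * (p - 3) / 24 * k * t ^ 4 + η * t ^ 4 := by
      have h1 : ∀ i, S h i * h i * (1 + t * (f i / h i)) ^ p ≤
          S h i * h i * ((1 + p * (f i / h i) * t +
            p * (p - 1) / 2 * (f i / h i) ^ 2 * t ^ 2 +
            p * (p - 1) * (p - 2) / 6 * (f i / h i) ^ 3 * t ^ 3 +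
            p * (p - 1) * (p - 2) * (p - 3) / 24 * (f i / h i) ^ 4 * t ^ 4) + η * t ^ 4) := by
        intro i
        apply mul_le_mul_of_nonneg_left _ (mul_nonneg (hspos i).le (hpos i).le)
        have := (abs_le.mp (ht1 i)).2
        linarith
      have h2 := Finset.sum_le_sum fun i (_ : i ∈ Finset.univ) => h1 i
      have h3 : (1 / 3) * ∑ i, S h i * h i * ((1 + p * (f i / h i) * t +
            p * (p - 1) / 2 * (f i / h i) ^ 2 * t ^ 2 +
            p * (p - 1) * (p - 2) / 6 * (f i / h i) ^ 3 * t ^ 3 +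
            p * (p - 1) * (p - 2) * (p - 3) / 24 * (f i / h i) ^ 4 * t ^ 4) + η * t ^ 4) =
          (1 + η * t ^ 4) * ((1 / 3) * ∑ i, S h i * h i) +
          (p * t) * ((1 / 3) * ∑ i, S h i * h i * (f i / h i)) +
          (p * (p - 1) / 2 * t ^ 2) * ((1 / 3) * ∑ i, S h i * h i * (f i / h i) ^ 2) +
          (p * (p - 1) * (p - 2) / 6 * t ^ 3) * m3 +
          (p * (p - 1) * (p - 2) * (p - 3) / 24 * t ^ 4) * k := by
        rw [hm3, hk]
        unfold mo
        simp only [Finset.mul_sum]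
        rw [← Finset.sum_add_distrib, ← Finset.sum_add_distrib, ← Finset.sum_add_distrib,
          ← Finset.sum_add_distrib]
        refine Finset.sum_congr rfl fun i _ => ?_
        ring
      rw [hM0, hM1, hM2] at h3
      have h4 := mul_le_mul_of_nonneg_left h2 (by norm_num : (0 : ℝ) ≤ 1 / 3)
      linarith
    have h5 := (abs_le.mp ht2).1
    have hpe : p - 1 = -ε := by rw [hp]; ring
    have hcancel : p / 3 * (-(3 * ε) / 2) = p * (p - 1) / 2 := by rw [hpe]; ring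
    rw [hcancel] at h5
    linarith
  set A1 : ℝ := p / 3 * cp - (p * (p - 1) * (p - 2) / 6 * m3 - p / 4 * δ * ε * a) with hA1
  set A2 : ℝ := p / 3 * cm - (p * (p - 1) * (p - 2) / 6 * m3 - p / 4 * δ * ε * a) with hA2
  set B : ℝ := p * (p - 1) * (p - 2) * (p - 3) / 24 * k + 7 / 3 * p * δ * ε * k -
          p / 3 * (p / 3 - 1) / 2 * (-(3 * ε) / 2) ^ 2 with hB
  have hR : ∀ η : ℝ, 0 < η → ∀ᶠ t : ℝ in 𝓝[>] 0, A1 * t ^ 3 ≤ (B + η) * t ^ 4 := by
    intro η hη
    have hη3 : 0 < η / 3 := by positivity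
    have e1 := (hINE ι v S H δ ε h f hcrit (η / 3) hη3).filter_mono
      (nhdsWithin_le_nhds (s := Ioi (0 : ℝ)))
    have e2 : ∀ᶠ t : ℝ in 𝓝[>] 0, ∀ i, |(1 + t * (f i / h i)) ^ p - (1 + p * (f i / h i) * t +
        p * (p - 1) / 2 * (f i / h i) ^ 2 * t ^ 2 +
        p * (p - 1) * (p - 2) / 6 * (f i / h i) ^ 3 * t ^ 3 +
        p * (p - 1) * (p - 2) * (p - 3) / 24 * (f i / h i) ^ 4 * t ^ 4)| ≤ η / 3 * t ^ 4 :=
      eventually_all.mpr fun i => (hTAY.1 p (f i / h i) (η / 3) hη3).filter_mono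
        (nhdsWithin_le_nhds (s := Ioi (0 : ℝ)))
    have e3 := (hTAY.2 (p / 3) (-(3 * ε) / 2) cp (η / 3) hη3).filter_mono
      (nhdsWithin_le_nhds (s := Ioi (0 : ℝ)))
    have e4 := hplus.filter_mono (nhdsWithin_mono (0 : ℝ) Ioi_subset_Ici_self)
    filter_upwards [e1, e2, e3, e4] with t t1 t2 t3 t4
    have := main cp t (η / 3) hη3 t4 t1 t2 t3
    have e5 : B + 3 * (η / 3) = B + η := by ring
    rw [e5] at this
    exact this
  have hL : ∀ η : ℝ, 0 < η → ∀ᶠ t : ℝ in 𝓝[<] 0, A2 * t ^ 3 ≤ (B + η) * t ^ 4 := by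
    intro η hη
    have hη3 : 0 < η / 3 := by positivity
    have e1 := (hINE ι v S H δ ε h f hcrit (η / 3) hη3).filter_mono
      (nhdsWithin_le_nhds (s := Iio (0 : ℝ)))
    have e2 : ∀ᶠ t : ℝ in 𝓝[<] 0, ∀ i, |(1 + t * (f i / h i)) ^ p - (1 + p * (f i / h i) * t +
        p * (p - 1) / 2 * (f i / h i) ^ 2 * t ^ 2 +
        p * (p - 1) * (p - 2) / 6 * (f i / h i) ^ 3 * t ^ 3 +
        p * (p - 1) * (p - 2) * (p - 3) / 24 * (f i / h i) ^ 4 * t ^ 4)| ≤ η / 3 * t ^ 4 :=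
      eventually_all.mpr fun i => (hTAY.1 p (f i / h i) (η / 3) hη3).filter_mono
        (nhdsWithin_le_nhds (s := Iio (0 : ℝ)))
    have e3 := (hTAY.2 (p / 3) (-(3 * ε) / 2) cm (η / 3) hη3).filter_mono
      (nhdsWithin_le_nhds (s := Iio (0 : ℝ)))
    have e4 := hminus.filter_mono (nhdsWithin_mono (0 : ℝ) Iio_subset_Iic_self)
    filter_upwards [e1, e2, e3, e4] with t t1 t2 t3 t4
    have := main cm t (η / 3) hη3 t4 t1 t2 t3
    have e5 : B + 3 * (η / 3) = B + η := by ring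
    rw [e5] at this
    exact this
  have hp0 : 0 < p := by rw [hp]; linarith
  have r1 := right_lim A1 B hR
  have r2 := left_lim A2 B hL
  have r3 : A2 ≤ A1 := by
    rw [hA1, hA2]
    have : p / 3 * cm ≤ p / 3 * cp := mul_le_mul_of_nonneg_left hcc (by positivity)
    linarith
  have r4 : A1 = 0 := le_antisymm r1.1 (r2.trans r3)
  have r5 : 0 ≤ B := r1.2 r4
  have r6 : B = p * ε / 24 * (3 * ε * (2 + ε) - k * ((1 + ε) * (2 + ε) - 56 * δ)) := by
    rw [hB, hp]; ring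
  rw [r6] at r5
  have r7 : 0 < p * ε / 24 := by positivity
  have r8 : 0 ≤ 3 * ε * (2 + ε) - k * ((1 + ε) * (2 + ε) - 56 * δ) := by
    by_contra hneg
    push Not at hneg
    have := mul_neg_of_pos_of_neg r7 hneg
    linarith
  have r9 : 0 < (1 + ε) * (2 + ε) - 56 * δ := by nlinarith
  have r10 : (1 + ε) * (2 + ε) - 56 * δ ≤ k * ((1 + ε) * (2 + ε) - 56 * δ) := by
    nlinarith
  nlinarith

end Pool.T3
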