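import Pool.Agent.Work.MP_b5407d_t3.Interface

/-!
# MP_b5407d_t3: block KNC
-/

set_option autoImplicit false

open MeasureTheory Set Filter Topology

namespace Pool.T3

theorem KNC_ident (a b c d x : R3) :
    de b c d * dt a x - de a c d * dt b x + de a b d * dt c x - de a b c * dt d x = 0 := by
  simp only [de, dt, cr, Matrix.cons_val_zero, Matrix.cons_val_one, Matrix.cons_val_two,
    Matrix.head_cons, Matrix.tail_cons]
  ring

theorem KNC_cr1 (a b c : R3) : dt a (cr b c) = de a b c ∧ dt b (cr b c) = 0 ∧ dt c (cr b c) = 0 := by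
  refine ⟨?_, ?_, ?_⟩ <;>
  · simp only [de, dt, cr, Matrix.cons_val_zero, Matrix.cons_val_one, Matrix.cons_val_two,
      Matrix.head_cons, Matrix.tail_cons]
    ring

theorem KNC_cyc (a b c : R3) : de b c a = de a b c ∧ de c a b = de a b c := by
  refine ⟨?_, ?_⟩ <;>
  · simp only [de, dt, cr, Matrix.cons_val_zero, Matrix.cons_val_one, Matrix.cons_val_two,
      Matrix.head_cons, Matrix.tail_cons]
    ring

/-- Three independent vectors have no relation. -/
theorem KNC_indep (a b c : R3) (hd : de a b c ≠ 0) (p q r : ℝ)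
    (h : ∀ x : R3, p * dt a x + q * dt b x + r * dt c x = 0) : p = 0 ∧ q = 0 ∧ r = 0 := by
  refine ⟨?_, ?_, ?_⟩
  · have h1 := h (cr b c)
    obtain ⟨e1, e2, e3⟩ := KNC_cr1 a b c
    rw [e1, e2, e3] at h1
    have h2 : p * de a b c = 0 := by linarith
    exact (mul_eq_zero.1 h2).resolve_right hd
  · have h1 := h (cr c a)
    obtain ⟨e1, e2, e3⟩ := KNC_cr1 b c a
    rw [e1, e2, e3, (KNC_cyc a b c).1] at h1
    have h2 : q * de a b c = 0 := by linarith
    exact (mul_eq_zero.1 h2).resolve_right hd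
  · have h1 := h (cr a b)
    obtain ⟨e1, e2, e3⟩ := KNC_cr1 c a b
    rw [e1, e2, e3, (KNC_cyc a b c).2] at h1
    have h2 : r * de a b c = 0 := by linarith
    exact (mul_eq_zero.1 h2).resolve_right hd

theorem KNC_sum {ι : Type} [Fintype ι] [DecidableEq ι] (f : ι → ℝ) (i j k m : ι) (hij : i ≠ j)
    (hik : i ≠ k) (him : i ≠ m) (hjk : j ≠ k) (hjm : j ≠ m) (hkm : k ≠ m)
    (h : ∀ a, a ≠ i → a ≠ j → a ≠ k → a ≠ m → f a = 0) :
    ∑ a, f a = f i + f j + f k + f m := by
  rw [← Finset.sum_subset (Finset.subset_univ ({i, j, k, m} : Finset ι))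
    (fun a _ ha => by
      simp only [Finset.mem_insert, Finset.mem_singleton, not_or] at ha
      exact h a ha.1 ha.2.1 ha.2.2.1 ha.2.2.2)]
  rw [Finset.sum_insert (by simp [hij, hik, him]), Finset.sum_insert (by simp [hjk, hjm]),
    Finset.sum_insert (by simp [hkm]), Finset.sum_singleton]
  ring

theorem KNC_vals {ι : Type} [DecidableEq ι] (u : ι → R3) (i j k m : ι) (e1 e2 e3 : ℝ)
    (hij : i ≠ j) (hik : i ≠ k) (him : i ≠ m) (hjk : j ≠ k) (hjm : j ≠ m) (hkm : k ≠ m) :
    fv u i j k m e1 e2 e3 i = de (u j) (u k) (u m) ∧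
    fv u i j k m e1 e2 e3 j = -(e1 * de (u i) (u k) (u m)) ∧
    fv u i j k m e1 e2 e3 k = e2 * de (u i) (u j) (u m) ∧
    fv u i j k m e1 e2 e3 m = -(e3 * de (u i) (u j) (u k)) ∧
    ∀ a, a ≠ i → a ≠ j → a ≠ k → a ≠ m → fv u i j k m e1 e2 e3 a = 0 := by
  refine ⟨?_, ?_, ?_, ?_, ?_⟩
  · simp [fv, Pi.single_apply, hij, hik, him]
  · simp [fv, Pi.single_apply, hij.symm, hjk, hjm]
  · simp [fv, Pi.single_apply, hik.symm, hjk.symm, hkm]
  · simp [fv, Pi.single_apply, him.symm, hjm.symm, hkm.symm]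
  · intro a h1 h2 h3 h4
    simp [fv, Pi.single_apply, h1, h2, h3, h4]

theorem KNC_supp {ι : Type} [Fintype ι] [DecidableEq ι] (u : ι → R3) (hu : Fam u)
    (i j k m : ι) (e1 e2 e3 : ℝ)
    (hij : i ≠ j) (hik : i ≠ k) (him : i ≠ m) (hjk : j ≠ k) (hjm : j ≠ m) (hkm : k ≠ m)
    (h1 : e1 = 1 ∨ e1 = -1) (h2 : e2 = 1 ∨ e2 = -1) (h3 : e3 = 1 ∨ e3 = -1) :
    ∀ a, fv u i j k m e1 e2 e3 a ≠ 0 ↔ (a = i ∨ a = j ∨ a = k ∨ a = m) := by
  obtain ⟨v1, v2, v3, v4, v5⟩ := KNC_vals u i j k m e1 e2 e3 hij hik him hjk hjm hkm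
  have n1 : e1 ≠ 0 := by rcases h1 with h | h <;> rw [h] <;> norm_num
  have n2 : e2 ≠ 0 := by rcases h2 with h | h <;> rw [h] <;> norm_num
  have n3 : e3 ≠ 0 := by rcases h3 with h | h <;> rw [h] <;> norm_num
  intro a
  constructor
  · intro ha
    by_contra hc
    simp only [not_or] at hc
    exact ha (v5 a hc.1 hc.2.1 hc.2.2.1 hc.2.2.2)
  · rintro (h | h | h | h)
    · rw [h, v1]
      exact hu.ind j k m hjk hjm hkm
    · rw [h, v2]
      exact neg_ne_zero.2 (mul_ne_zero n1 (hu.ind i k m hik him hkm))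
    · rw [h, v3]
      exact mul_ne_zero n2 (hu.ind i j m hij him hjm)
    · rw [h, v4]
      exact neg_ne_zero.2 (mul_ne_zero n3 (hu.ind i j k hij hik hjk))

theorem KNC_lin {ι : Type} [Fintype ι] (a h : ι → ℝ) : lin a h = ∑ i, a i * h i := by
  simp [lin]

theorem stmt_KNC : Stmt_KNC := by
  intro ι _ _ u hu
  refine ⟨?_, ?_, ?_, ?_⟩
  · rintro c ⟨i, j, k, m, e1, e2, e3, hij, hik, him, hjk, hjm, hkm, h1, h2, h3, rfl⟩
    exact ⟨i, j, k, m, hij, hik, him, hjk, hjm, hkm,
      KNC_supp u hu i j k m e1 e2 e3 hij hik him hjk hjm hkm h1 h2 h3⟩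
  · rintro h hh c ⟨i, j, k, m, e1, e2, e3, hij, hik, him, hjk, hjm, hkm, h1, h2, h3, rfl⟩ hz
    have hd := hu.ind i j k hij hik hjk
    obtain ⟨v1, v2, v3, v4, v5⟩ := KNC_vals u i j k m e1 e2 e3 hij hik him hjk hjm hkm
    have s1 : e1 * e1 = 1 := by rcases h1 with h | h <;> rw [h] <;> norm_num
    have s2 : e2 * e2 = 1 := by rcases h2 with h | h <;> rw [h] <;> norm_num
    have s3 : e3 * e3 = 1 := by rcases h3 with h | h <;> rw [h] <;> norm_num
    have a1 : |e1| = 1 := by rcases h1 with h | h <;> rw [h] <;> norm_num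
    have a2 : |e2| = 1 := by rcases h2 with h | h <;> rw [h] <;> norm_num
    have a3 : |e3| = 1 := by rcases h3 with h | h <;> rw [h] <;> norm_num
    set d := de (u i) (u j) (u k) with hdd
    set v0 : R3 := (1 / d) • (h i • cr (u j) (u k) + (e1 * h j) • cr (u k) (u i)
      + (e2 * h k) • cr (u i) (u j)) with hv0
    have hdt : ∀ a : R3, dt a v0 = 1 / d * (h i * dt a (cr (u j) (u k))
        + e1 * h j * dt a (cr (u k) (u i)) + e2 * h k * dt a (cr (u i) (u j))) := by
      intro a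
      simp only [hv0, dt, Pi.smul_apply, Pi.add_apply, smul_eq_mul]
      ring
    obtain ⟨x1, x2, x3⟩ := KNC_cr1 (u i) (u j) (u k)
    obtain ⟨y1, y2, y3⟩ := KNC_cr1 (u j) (u k) (u i)
    obtain ⟨z1, z2, z3⟩ := KNC_cr1 (u k) (u i) (u j)
    obtain ⟨c1, c2⟩ := KNC_cyc (u i) (u j) (u k)
    rw [c1] at y1
    rw [c2] at z1
    have w1 : dt (u i) v0 = h i := by
      rw [hdt, x1, y3, z2, ← hdd]
      field_simp
      ring
    have w2 : dt (u j) v0 = e1 * h j := by
      rw [hdt, x2, y1, z3, ← hdd]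
      field_simp
      ring
    have w3 : dt (u k) v0 = e2 * h k := by
      rw [hdt, x3, y2, z1, ← hdd]
      field_simp
      ring
    have hid := KNC_ident (u i) (u j) (u k) (u m) v0
    rw [w1, w2, w3, ← hdd] at hid
    have hz' : de (u j) (u k) (u m) * h i + -(e1 * de (u i) (u k) (u m)) * h j
        + e2 * de (u i) (u j) (u m) * h k + -(e3 * d) * h m = 0 := by
      rw [KNC_lin, KNC_sum _ i j k m hij hik him hjk hjm hkm
        (fun a ha1 ha2 ha3 ha4 => by rw [v5 a ha1 ha2 ha3 ha4, zero_mul]), v1, v2, v3, v4] at hz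
      exact hz
    have w4 : dt (u m) v0 = e3 * h m := by
      have : d * dt (u m) v0 = d * (e3 * h m) := by linarith
      exact mul_left_cancel₀ hd this
    refine ⟨v0, ⟨i, j, k, m, e1, e2, e3, hij, hik, him, hjk, hjm, hkm, h1, h2, h3, rfl⟩, ?_, ?_⟩
    · intro a ha
      rcases (KNC_supp u hu i j k m e1 e2 e3 hij hik him hjk hjm hkm h1 h2 h3 a).1 ha
        with h | h | h | h
      · rw [h, w1, abs_of_pos (hh i)]
      · rw [h, w2, abs_mul, a1, abs_of_pos (hh j), one_mul]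
      · rw [h, w3, abs_mul, a2, abs_of_pos (hh k), one_mul]
      · rw [h, w4, abs_mul, a3, abs_of_pos (hh m), one_mul]
    · intro x
      rw [KNC_sum _ i j k m hij hik him hjk hjm hkm
        (fun a ha1 ha2 ha3 ha4 => by rw [v5 a ha1 ha2 ha3 ha4]; ring), v1, v2, v3, v4, w1, w2, w3, w4]
      have q1 : h i / h i = 1 := div_self (hh i).ne'
      have q2 : e1 * h j / h j = e1 := mul_div_cancel_right₀ _ (hh j).ne'
      have q3 : e2 * h k / h k = e2 := mul_div_cancel_right₀ _ (hh k).ne'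
      have q4 : e3 * h m / h m = e3 := mul_div_cancel_right₀ _ (hh m).ne'
      rw [q1, q2, q3, q4]
      have hx := KNC_ident (u i) (u j) (u k) (u m) x
      rw [← hdd] at hx
      linear_combination hx - de (u i) (u k) (u m) * dt (u j) x * s1
        + de (u i) (u j) (u m) * dt (u k) x * s2 - d * dt (u m) x * s3
  · rintro h hh c v0 ⟨hf, ht, hr⟩
    have hneg : ∀ a : R3, dt a (-v0) = -dt a v0 := by
      intro a
      simp only [dt, Pi.neg_apply]
      ring
    refine ⟨hf, ?_, ?_⟩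
    · intro a ha
      rw [hneg, abs_neg]
      exact ht a ha
    · intro x
      have h1 := hr x
      have h2 : ∑ a, c a * (dt (u a) (-v0) / h a) * dt (u a) x
          = -∑ a, c a * (dt (u a) v0 / h a) * dt (u a) x := by
        rw [← Finset.sum_neg_distrib]
        refine Finset.sum_congr rfl fun a _ => ?_
        rw [hneg]
        ring
      rw [h2, h1, neg_zero]
  · rintro c ⟨i, j, k, m, e1, e2, e3, hij, hik, him, hjk, hjm, hkm, h1, h2, h3, rfl⟩ b b' hb hb'
      hb0 hr hr'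
    obtain ⟨v1, v2, v3, v4, v5⟩ := KNC_vals u i j k m e1 e2 e3 hij hik him hjk hjm hkm
    have hd := hu.ind i j k hij hik hjk
    have supp : ∀ w : ι → ℝ, (∀ a, fv u i j k m e1 e2 e3 a = 0 → w a = 0) →
        ∀ a, a ≠ i → a ≠ j → a ≠ k → a ≠ m → w a = 0 :=
      fun w hw a ha1 ha2 ha3 ha4 => hw a (v5 a ha1 ha2 ha3 ha4)
    have expand : ∀ w : ι → ℝ, (∀ a, fv u i j k m e1 e2 e3 a = 0 → w a = 0) →
        (∀ x : R3, ∑ a, w a * dt (u a) x = 0) → ∀ x : R3,
        w i * dt (u i) x + w j * dt (u j) x + w k * dt (u k) x + w m * dt (u m) x = 0 := by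
      intro w hw hwr x
      rw [← hwr x, KNC_sum _ i j k m hij hik him hjk hjm hkm
        (fun a ha1 ha2 ha3 ha4 => by rw [supp w hw a ha1 ha2 ha3 ha4, zero_mul])]
    -- a relation with vanishing coefficient at `m` is zero
    have key : ∀ w : ι → ℝ, (∀ a, fv u i j k m e1 e2 e3 a = 0 → w a = 0) →
        (∀ x : R3, w i * dt (u i) x + w j * dt (u j) x + w k * dt (u k) x + w m * dt (u m) x = 0) →
        w m = 0 → w = 0 := by
      intro w hw hwr hm
      obtain ⟨p1, p2, p3⟩ := KNC_indep (u i) (u j) (u k) hd (w i) (w j) (w k) (fun x => by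
        have := hwr x
        rw [hm] at this
        linarith)
      funext a
      by_cases ha1 : a = i
      · rw [ha1, p1]; rfl
      by_cases ha2 : a = j
      · rw [ha2, p2]; rfl
      by_cases ha3 : a = k
      · rw [ha3, p3]; rfl
      by_cases ha4 : a = m
      · rw [ha4, hm]; rfl
      · exact supp w hw a ha1 ha2 ha3 ha4
    have hbm : b m ≠ 0 := fun hm => hb0 (key b hb (expand b hb hr) hm)
    refine ⟨b' m / b m, ?_⟩
    have hz := key (b' - (b' m / b m) • b)
      (fun a ha => by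
        simp only [Pi.sub_apply, Pi.smul_apply, smul_eq_mul]
        rw [hb a ha, hb' a ha]
        ring)
      (fun x => by
        have t1 := expand b hb hr x
        have t2 := expand b' hb' hr' x
        simp only [Pi.sub_apply, Pi.smul_apply, smul_eq_mul]
        linear_combination t2 - (b' m / b m) * t1)
      (by
        simp only [Pi.sub_apply, Pi.smul_apply, smul_eq_mul]
        field_simp
        ring)
    exact sub_eq_zero.1 hz

end Pool.T3
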