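import Pool.Agent.Work.MP_b5407d_t3.Interface

set_option autoImplicit false

open MeasureTheory Set Filter Topology

namespace Pool.T3

namespace LOC_

theorem sum_split {ι : Type} [Fintype ι] [DecidableEq ι] (g : ι → ℝ) (k : ι) (hk : g k = 0) :
    ∑ i, g i = ∑ i : {i // i ≠ k}, g i := by
  rw [Fintype.sum_eq_add_sum_subtype_ne g k, hk, zero_add]

end LOC_

open LOC_ in
theorem stmt_LOC (hCALC : Stmt_CALC) (hABS : Stmt_ABS) (hRED : Stmt_RED) (hSYM : Stmt_DVS) :
    Stmt_LOC := by
  have key : ∀ n : ℕ, ∀ (ι : Type) [Fintype ι] [DecidableEq ι] (u : ι → R3), Fintype.card ι = n →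
      Fam u → ∀ h, Pos h → ∀ f : ι → ℝ,
      1 / 2 * Q (V u) (S u) h f ≤ J (V u) (S u) (H u) h f := by
    intro n
    induction n using Nat.strong_induction_on with
    | _ n ih =>
      intro ι _ _ u hcard hu
      obtain ⟨i0, -⟩ := hu.three
      refine hABS ι (V u) (S u) (H u) (hCALC ι u hu) ⟨i0⟩ ?_
      rintro h hh ⟨k, hk⟩ f
      obtain ⟨hu', hV, hS, hH, hH0⟩ := hRED ι u hu h hh k hk
      have hsymm := (hSYM ι u hu).2.2.2.1 h hh
      have hlt : Fintype.card {i // i ≠ k} < n := by
        rw [← hcard]
        exact Fintype.card_subtype_lt (x := k) (by simp)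
      have hpos' : Pos (fun i : {i // i ≠ k} => h i) := fun i => hh i
      have h1 := ih _ hlt {i // i ≠ k} (fun i => u i) rfl hu' (fun i => h i) hpos'
        (fun i => f i)
      have e1 : ∑ i, S u h i * f i = ∑ i : {i // i ≠ k}, S u h i * f i :=
        sum_split (fun i => S u h i * f i) k (by simp [hk])
      have e2 : ∑ i, S u h i * f i ^ 2 / h i = ∑ i : {i // i ≠ k}, S u h i * f i ^ 2 / h i :=
        sum_split (fun i => S u h i * f i ^ 2 / h i) k (by simp [hk])
      have e3 : ∑ i, ∑ j, H u h i j * f i * f j =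
          ∑ i : {i // i ≠ k}, ∑ j : {j // j ≠ k}, H u h i j * f i * f j := by
        rw [sum_split (fun i => ∑ j, H u h i j * f i * f j) k
          (by simp [hH0])]
        refine Finset.sum_congr rfl fun i _ => ?_
        exact sum_split (fun j => H u h i j * f i * f j) k
          (by simp [hsymm i k, hH0])
      have hQ : Q (V u) (S u) h f =
          Q (V (fun i : {i // i ≠ k} => u i)) (S (fun i : {i // i ≠ k} => u i))
            (fun i => h i) (fun i => f i) := by
        unfold Q
        rw [e1, e2, hV]
        simp only [hS]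
      have hJ : J (V u) (S u) (H u) h f =
          J (V (fun i : {i // i ≠ k} => u i)) (S (fun i : {i // i ≠ k} => u i))
            (H (fun i : {i // i ≠ k} => u i)) (fun i => h i) (fun i => f i) := by
        unfold J
        rw [e1, e3, hV]
        simp only [hS, hH]
      rw [hQ, hJ]
      exact h1
  intro ι _ _ u hu h hh f
  exact key _ ι u rfl hu h hh f

end Pool.T3
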