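import Pool.Agent.Work.MP_b5407d_t3.Interface

/-!
# Block `LSC`: no mass escapes to vanishing facets

With `Z = {i : S h i = 0}` split `f = a + b` (`b` supported on `Z`).  The ground state inequality `van`
shows that `b` has no mass in the limit and does not interact with `a`.
-/

set_option autoImplicit false

open MeasureTheory Set Filter Topology

namespace Pool.T3

namespace LSC_

variable {ι : Type} [Fintype ι] {v : (ι → ℝ) → ℝ} {S : (ι → ℝ) → ι → ℝ}
  {H : (ι → ℝ) → ι → ι → ℝ}

lemma isOpen_Pos : IsOpen {h : ι → ℝ | Pos h} := by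
  have : {h : ι → ℝ | Pos h} = ⋂ i, {h : ι → ℝ | 0 < h i} := by
    ext h; simp [Pos]
  rw [this]
  exact isOpen_iInter_of_finite (fun i => isOpen_lt continuous_const (continuous_apply i))

lemma tv (hc : Calc v S H) {h : ι → ℝ} (hp : Pos h) : Tendsto v (𝓝 h) (𝓝 (v h)) :=
  (hc.dv h hp).continuousAt

lemma tS (hc : Calc v S H) {h : ι → ℝ} (hp : Pos h) (i : ι) :
    Tendsto (fun h => S h i) (𝓝 h) (𝓝 (S h i)) :=
  (hc.dS h hp i).continuousAt

lemma tH (hc : Calc v S H) {h : ι → ℝ} (hp : Pos h) (i j : ι) :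
    Tendsto (fun h => H h i j) (𝓝 h) (𝓝 (H h i j)) :=
  (hc.cH i j).continuousAt (isOpen_Pos.mem_nhds hp)

/-- if `S h i = 0` then the derivative of `S · i` vanishes at `h` -/
lemma H_zero (hc : Calc v S H) {h : ι → ℝ} (hp : Pos h) {i : ι} (hi : S h i = 0) (j : ι) :
    H h i j = 0 := by
  classical
  have hmin : IsLocalMin (fun h => S h i) h := by
    filter_upwards [isOpen_Pos.mem_nhds hp] with h' hh'
    rw [hi]
    exact hc.Sn h' hh' i
  have hz := hmin.hasFDerivAt_eq_zero (hc.dS h hp i)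
  have h1 : lin (H h i) (Pi.single j 1) = H h i j := by
    simp [lin, Pi.single_apply]
  rw [← h1, hz]
  simp

/-- the quadratic part -/
lemma tQF (hc : Calc v S H) {h : ι → ℝ} (hp : Pos h) {x : ℕ → ι → ℝ} {a : ℕ → ι → ℝ}
    {a0 : ι → ℝ} (hx : Tendsto x atTop (𝓝 h)) (ha : Tendsto a atTop (𝓝 a0)) :
    Tendsto (fun n => ∑ i, ∑ j, H (x n) i j * a n i * a n j) atTop
      (𝓝 (∑ i, ∑ j, H h i j * a0 i * a0 j)) := by
  have ha' : ∀ i, Tendsto (fun n => a n i) atTop (𝓝 (a0 i)) := fun i => (tendsto_pi_nhds.1 ha) i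
  refine tendsto_finsetSum _ (fun i _ => tendsto_finsetSum _ (fun j _ => ?_))
  exact (((tH hc hp i j).comp hx).mul (ha' i)).mul (ha' j)

lemma tL (hc : Calc v S H) {h : ι → ℝ} (hp : Pos h) {x : ℕ → ι → ℝ} {a : ℕ → ι → ℝ}
    {a0 : ι → ℝ} (hx : Tendsto x atTop (𝓝 h)) (ha : Tendsto a atTop (𝓝 a0)) :
    Tendsto (fun n => ∑ i, S (x n) i * a n i) atTop (𝓝 (∑ i, S h i * a0 i)) := by
  have ha' : ∀ i, Tendsto (fun n => a n i) atTop (𝓝 (a0 i)) := fun i => (tendsto_pi_nhds.1 ha) i
  exact tendsto_finsetSum _ (fun i _ => ((tS hc hp i).comp hx).mul (ha' i))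

lemma tV (hc : Calc v S H) {h : ι → ℝ} (hp : Pos h) {x : ℕ → ι → ℝ} {a : ℕ → ι → ℝ}
    {a0 : ι → ℝ} (hx : Tendsto x atTop (𝓝 h)) (ha : Tendsto a atTop (𝓝 a0)) :
    Tendsto (fun n => ∑ i, S (x n) i * a n i ^ 2 / x n i) atTop
      (𝓝 (∑ i, S h i * a0 i ^ 2 / h i)) := by
  have ha' : ∀ i, Tendsto (fun n => a n i) atTop (𝓝 (a0 i)) := fun i => (tendsto_pi_nhds.1 ha) i
  have hx' : ∀ i, Tendsto (fun n => x n i) atTop (𝓝 (h i)) := fun i => (tendsto_pi_nhds.1 hx) i
  exact tendsto_finsetSum _ (fun i _ =>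
    ((((tS hc hp i).comp hx).mul ((ha' i).pow 2)).div (hx' i) (hp i).ne'))

lemma tJ (hc : Calc v S H) {h : ι → ℝ} (hp : Pos h) {x : ℕ → ι → ℝ} {a : ℕ → ι → ℝ}
    {a0 : ι → ℝ} (hx : Tendsto x atTop (𝓝 h)) (ha : Tendsto a atTop (𝓝 a0)) :
    Tendsto (fun n => J v S H (x n) (a n)) atTop (𝓝 (J v S H h a0)) := by
  unfold J
  have hv := (tv hc hp).comp hx
  have h3 : (3 * v h) ≠ 0 := by
    have := hc.vp h hp
    positivity
  refine (tQF hc hp hx ha).neg.add (Tendsto.mul ?_ ((tL hc hp hx ha).pow 2))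
  exact tendsto_const_nhds.div (hv.const_mul 3) h3

/-- squares tending to zero -/
lemma tsq {x y : ℕ → ℝ} (hy : Tendsto y atTop (𝓝 0)) (hxy : ∀ᶠ n in atTop, x n ^ 2 ≤ y n) :
    Tendsto x atTop (𝓝 0) := by
  have h1 : Tendsto (fun n => x n ^ 2) atTop (𝓝 0) :=
    tendsto_of_tendsto_of_tendsto_of_le_of_le' tendsto_const_nhds hy
      (Eventually.of_forall fun n => sq_nonneg (x n)) hxy
  have h2 : Tendsto (fun n => Real.sqrt (x n ^ 2)) atTop (𝓝 (Real.sqrt 0)) :=
    (Real.continuous_sqrt.tendsto 0).comp h1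
  rw [Real.sqrt_zero] at h2
  simp only [Real.sqrt_sq_eq_abs] at h2
  exact (tendsto_zero_iff_abs_tendsto_zero x).2 h2

end LSC_

open LSC_ in
theorem stmt_LSC (hJQ : Stmt_JQ) : Stmt_LSC := by
  classical
  intro ι _ v S H hc hn fn h C hp hlim hpn hSn hmean hvar hJC
  -- the splitting
  set an : ℕ → ι → ℝ := fun n i => if S h i = 0 then 0 else fn n i with han
  set bn : ℕ → ι → ℝ := fun n i => if S h i = 0 then fn n i else 0 with hbn
  have hab : ∀ n, fn n = an n + bn n := by
    intro n; funext i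
    simp only [han, hbn, Pi.add_apply]
    split_ifs <;> simp
  -- boundedness of `an`
  have hlim' : ∀ i, Tendsto (fun n => hn n i) atTop (𝓝 (h i)) := fun i =>
    (tendsto_pi_nhds.1 hlim) i
  have hterm : ∀ n i, S (hn n) i * fn n i ^ 2 / hn n i ≤ 3 := by
    intro n i
    rw [← hvar n]
    refine Finset.single_le_sum (f := fun i => S (hn n) i * fn n i ^ 2 / hn n i)
      (fun k _ => ?_) (Finset.mem_univ i)
    have := hSn n k
    have := hpn n k
    positivity
  have hbd : ∃ M : ℝ, ∀ᶠ n in atTop, ∀ i, |an n i| ≤ M := by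
    have h1 : ∀ i, ∃ M : ℝ, ∀ᶠ n in atTop, |an n i| ≤ M := by
      intro i
      by_cases hi : S h i = 0
      · refine ⟨0, Eventually.of_forall fun n => ?_⟩
        simp [han, hi]
      · have hpos : 0 < S h i := lt_of_le_of_ne (hc.Sn h hp i) (Ne.symm hi)
        have hq : 0 < S h i / h i := div_pos hpos (hp i)
        have ht : Tendsto (fun n => S (hn n) i / hn n i) atTop (𝓝 (S h i / h i)) :=
          ((tS hc hp i).comp hlim).div (hlim' i) (hp i).ne'
        have he : ∀ᶠ n in atTop, S h i / h i / 2 < S (hn n) i / hn n i :=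
          ht.eventually (lt_mem_nhds (by linarith))
        refine ⟨Real.sqrt (3 / (S h i / h i / 2)), ?_⟩
        filter_upwards [he] with n hne
        have h2 := hterm n i
        have h3 : S (hn n) i * fn n i ^ 2 / hn n i = S (hn n) i / hn n i * fn n i ^ 2 := by ring
        rw [h3] at h2
        have h4 : an n i = fn n i := by simp [han, hi]
        rw [h4]
        apply Real.abs_le_sqrt
        rw [le_div_iff₀ (by positivity)]
        nlinarith [sq_nonneg (fn n i)]
    choose M hM using h1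
    refine ⟨∑ i, |M i|, ?_⟩
    filter_upwards [eventually_all.2 hM] with n hne i
    exact (hne i).trans ((le_abs_self _).trans
      (Finset.single_le_sum (f := fun i => |M i|) (fun k _ => abs_nonneg _) (Finset.mem_univ i)))
  obtain ⟨M, hM⟩ := hbd
  have hcpt : ∃ (a : ι → ℝ) (φ : ℕ → ℕ), StrictMono φ ∧ Tendsto (an ∘ φ) atTop (𝓝 a) := by
    have hs : Bornology.IsBounded (Metric.closedBall (0 : ι → ℝ) |M|) := Metric.isBounded_closedBall
    have hfr : ∃ᶠ n in atTop, an n ∈ Metric.closedBall (0 : ι → ℝ) |M| := by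
      apply Eventually.frequently
      filter_upwards [hM] with n hne
      rw [mem_closedBall_zero_iff, pi_norm_le_iff_of_nonneg (abs_nonneg M)]
      intro i
      exact (hne i).trans (le_abs_self M)
    obtain ⟨a, -, φ, hφ, hta⟩ := tendsto_subseq_of_frequently_bounded hs hfr
    exact ⟨a, φ, hφ, hta⟩
  obtain ⟨a, φ, hφ, hta⟩ := hcpt
  have hta' : ∀ i, Tendsto (fun n => an (φ n) i) atTop (𝓝 (a i)) := fun i =>
    (tendsto_pi_nhds.1 hta) i
  have ha0 : ∀ i, S h i = 0 → a i = 0 := by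
    intro i hi
    have h1 : Tendsto (fun n => an (φ n) i) atTop (𝓝 0) := by
      simp [han, hi]
    exact tendsto_nhds_unique (hta' i) h1
  have hx : Tendsto (fun n => hn (φ n)) atTop (𝓝 h) := hlim.comp hφ.tendsto_atTop
  have hx' : ∀ i, Tendsto (fun n => hn (φ n) i) atTop (𝓝 (h i)) := fun i =>
    (tendsto_pi_nhds.1 hx) i
  -- abbreviations
  set x : ℕ → ι → ℝ := fun n => hn (φ n) with hxdef
  set p : ℕ → ι → ℝ := fun n => an (φ n) with hpdef
  set b : ℕ → ι → ℝ := fun n => bn (φ n) with hbdef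
  set f : ℕ → ι → ℝ := fun n => fn (φ n) with hfdef
  have hpx : ∀ n, Pos (x n) := fun n => hpn _
  have hSx : ∀ n i, 0 < S (x n) i := fun n => hSn _
  have hfab : ∀ n, f n = p n + b n := fun n => hab _
  have hb0 : ∀ n i, 0 < S h i → b n i = 0 := by
    intro n i hi
    simp [hbdef, hbn, hi.ne']
  have hp0 : ∀ n i, S h i = 0 → p n i = 0 := by
    intro n i hi
    simp [hpdef, han, hi]
  -- nonnegativity of J along the sequence
  have hJQ' := hJQ ι v S H hc
  obtain ⟨g, hg, hgap⟩ := hc.gap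
  have hJ0 : ∀ n, ∀ q : ι → ℝ, 0 ≤ J v S H (x n) q := by
    intro n q
    have h1 := hgap (x n) (hpx n) (hSx n) q
    have h2 := (hJQ' (x n) (hpx n)).2.2.2.1 q
    have h3 : 0 ≤ g * Q v S (x n) q := mul_nonneg hg.le h2
    linarith
  have hJp : Tendsto (fun n => J v S H (x n) (p n)) atTop (𝓝 (J v S H h a)) := tJ hc hp hx hta
  have hCp : 0 ≤ C := (hJ0 0 (f 0)).trans (hJC _)
  set C' : ℝ := (Real.sqrt C + Real.sqrt (J v S H h a + 1)) ^ 2 with hC'
  have hJb : ∀ᶠ n in atTop, J v S H (x n) (b n) ≤ C' := by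
    have he : ∀ᶠ n in atTop, J v S H (x n) (p n) < J v S H h a + 1 :=
      hJp.eventually (gt_mem_nhds (by linarith))
    filter_upwards [he] with n hne
    have h1 := (hJQ' (x n) (hpx n)).2.2.2.2.2 (hJ0 n) (f n) ((-1 : ℝ) • p n)
    have h2 : f n + (-1 : ℝ) • p n = b n := by
      rw [hfab n]; funext i; simp
    rw [h2] at h1
    have h3 : J v S H (x n) ((-1 : ℝ) • p n) = J v S H (x n) (p n) := by
      rw [((hJQ' (x n) (hpx n)).2.1 (p n) (-1)).1]; ring
    rw [h3] at h1
    have h4 : Real.sqrt (J v S H (x n) (f n)) ≤ Real.sqrt C := Real.sqrt_le_sqrt (hJC _)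
    have h5 : Real.sqrt (J v S H (x n) (p n)) ≤ Real.sqrt (J v S H h a + 1) :=
      Real.sqrt_le_sqrt hne.le
    have h6 : Real.sqrt (J v S H (x n) (b n)) ≤ Real.sqrt C + Real.sqrt (J v S H h a + 1) := by
      linarith
    have h7 := Real.sq_sqrt (hJ0 n (b n))
    rw [← h7, hC']
    exact pow_le_pow_left₀ (Real.sqrt_nonneg _) h6 2
  -- the negative quadratic form
  have hqf : ∀ n, ∀ q : ι → ℝ, -(∑ i, ∑ j, H (x n) i j * q i * q j) ≤ J v S H (x n) q := by
    intro n q
    unfold J
    have := hc.vp (x n) (hpx n)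
    have h1 : 0 ≤ 2 / (3 * v (x n)) * (∑ i, S (x n) i * q i) ^ 2 := by positivity
    linarith
  obtain ⟨c, hcp, hvan⟩ := hc.van h hp
  set B : ℕ → ℝ := fun n => ∑ i, S (x n) i * b n i ^ 2 / x n i with hB
  set E : ℕ → ℝ := fun n => ∑ i, ∑ j, if 0 < S h j then H (x n) i j * b n i ^ 2 else 0 with hE
  have hB0 : ∀ n, 0 ≤ B n := by
    intro n
    refine Finset.sum_nonneg fun i _ => ?_
    have := hSx n i
    have := hpx n i
    positivity
  have hEt : ∀ n i j, 0 ≤ (if 0 < S h j then H (x n) i j * b n i ^ 2 else 0) := by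
    intro n i j
    split_ifs with hj
    · by_cases hi : 0 < S h i
      · rw [hb0 n i hi]; simp
      · have hij : i ≠ j := by
          rintro rfl; exact hi hj
        exact mul_nonneg (hc.Hn (x n) (hpx n) i j hij) (sq_nonneg _)
    · exact le_refl 0
  have hE0 : ∀ n, 0 ≤ E n := fun n =>
    Finset.sum_nonneg fun i _ => Finset.sum_nonneg fun j _ => hEt n i j
  have hvan' : ∀ Λ : ℝ, ∀ᶠ n in atTop, Λ * B n + c * E n ≤
      -(∑ i, ∑ j, H (x n) i j * b n i * b n j) := by
    intro Λ
    filter_upwards [hx.eventually (hvan Λ)] with n hne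
    exact hne (b n) (hb0 n)
  have hvC : ∀ Λ : ℝ, ∀ᶠ n in atTop, Λ * B n + c * E n ≤ C' := by
    intro Λ
    filter_upwards [hvan' Λ, hJb] with n h1 h2
    exact (h1.trans (hqf n (b n))).trans h2
  have hC'0 : 0 ≤ C' := sq_nonneg _
  have hBt : Tendsto B atTop (𝓝 0) := by
    rw [Metric.tendsto_atTop]
    intro ε hε
    obtain ⟨N, hN⟩ := eventually_atTop.1 (hvC ((C' + 1) / ε))
    refine ⟨N, fun n hne => ?_⟩
    have h1 := hN n hne
    rw [Real.dist_eq, sub_zero, abs_of_nonneg (hB0 n)]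
    have h2 : (C' + 1) / ε * B n ≤ C' := by
      have := mul_nonneg hcp.le (hE0 n)
      linarith
    by_contra hcon
    push Not at hcon
    have h3 : (C' + 1) / ε * ε ≤ (C' + 1) / ε * B n :=
      mul_le_mul_of_nonneg_left hcon (by positivity)
    rw [div_mul_cancel₀ _ hε.ne'] at h3
    linarith
  have hEb : ∀ᶠ n in atTop, E n ≤ C' / c := by
    filter_upwards [hvC 0] with n h1
    rw [le_div_iff₀ hcp]
    linarith
  have hbb : ∀ᶠ n in atTop, 0 ≤ -(∑ i, ∑ j, H (x n) i j * b n i * b n j) := by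
    filter_upwards [hvan' 0] with n h1
    have := mul_nonneg hcp.le (hE0 n)
    linarith
  -- variance
  have hpb : ∀ n i, p n i * b n i = 0 := by
    intro n i
    by_cases hi : S h i = 0
    · rw [hp0 n i hi]; simp
    · rw [hb0 n i (lt_of_le_of_ne (hc.Sn h hp i) (Ne.symm hi))]; simp
  have hvar' : ∀ n, ∑ i, S (x n) i * p n i ^ 2 / x n i = 3 - B n := by
    intro n
    have h1 : ∑ i, S (x n) i * f n i ^ 2 / x n i = 3 := hvar _
    rw [← h1, hB]
    simp only
    rw [← Finset.sum_sub_distrib]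
    refine Finset.sum_congr rfl fun i _ => ?_
    rw [hfab n]
    have := hpb n i
    simp only [Pi.add_apply]
    have h2 : (p n i + b n i) ^ 2 = p n i ^ 2 + b n i ^ 2 := by
      have : (p n i + b n i) ^ 2 = p n i ^ 2 + b n i ^ 2 + 2 * (p n i * b n i) := by ring
      rw [this, hpb n i]; ring
    rw [h2]; ring
  have hvarlim : ∑ i, S h i * a i ^ 2 / h i = 3 := by
    have h1 := tV hc hp hx hta
    have h2 : Tendsto (fun n => 3 - B n) atTop (𝓝 (3 - 0)) := tendsto_const_nhds.sub hBt
    have h3 : (fun n => ∑ i, S (x n) i * (an ∘ φ) n i ^ 2 / x n i) = fun n => 3 - B n := by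
      funext n; exact hvar' n
    rw [h3] at h1
    rw [tendsto_nhds_unique h1 h2, sub_zero]
  -- mean
  have hmean' : ∀ n, ∑ i, S (x n) i * p n i = -(∑ i, S (x n) i * b n i) := by
    intro n
    have h1 : ∑ i, S (x n) i * f n i = 0 := hmean _
    rw [eq_neg_iff_add_eq_zero, ← h1, ← Finset.sum_add_distrib]
    refine Finset.sum_congr rfl fun i _ => ?_
    rw [hfab n]; simp only [Pi.add_apply]; ring
  have hSb : Tendsto (fun n => ∑ i, S (x n) i * b n i) atTop (𝓝 0) := by
    have hy : Tendsto (fun n => 3 * v (x n) * B n) atTop (𝓝 0) := by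
      have h1 := (((tv hc hp).comp hx).const_mul 3).mul hBt
      rw [mul_zero] at h1
      exact h1
    refine tsq hy (Eventually.of_forall fun n => ?_)
    have h1 : (∑ i, S (x n) i * b n i) ^ 2 ≤
        (∑ i, S (x n) i * x n i) * ∑ i, S (x n) i * b n i ^ 2 / x n i := by
      refine Finset.sum_sq_le_sum_mul_sum_of_sq_le_mul _ (fun i _ => ?_) (fun i _ => ?_)
        (fun i _ => ?_)
      · exact (mul_pos (hSx n i) (hpx n i)).le
      · have := hSx n i
        have := hpx n i
        positivity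
      · have := (hpx n i).ne'
        apply le_of_eq
        field_simp
    rw [hc.e3 (x n) (hpx n)] at h1
    exact h1
  have hmeanlim : ∑ i, S h i * a i = 0 := by
    have h1 := tL hc hp hx hta
    have h2 : Tendsto (fun n => -(∑ i, S (x n) i * b n i)) atTop (𝓝 (-0)) := hSb.neg
    have h3 : (fun n => ∑ i, S (x n) i * (an ∘ φ) n i) = fun n => -(∑ i, S (x n) i * b n i) := by
      funext n; exact hmean' n
    rw [h3] at h1
    rw [tendsto_nhds_unique h1 h2, neg_zero]
  -- mixed term
  have hD : Tendsto (fun n => ∑ i, ∑ j, H (x n) i j * p n i * b n j) atTop (𝓝 0) := by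
    have h0 : (0 : ℝ) = ∑ i : ι, ∑ j : ι, 0 := by simp
    rw [h0]
    refine tendsto_finsetSum _ (fun i _ => tendsto_finsetSum _ (fun j _ => ?_))
    by_cases hj : S h j = 0
    · by_cases hi : S h i = 0
      · have : (fun n => H (x n) i j * p n i * b n j) = fun _ => 0 := by
          funext n; rw [hp0 n i hi]; ring
        rw [this]; exact tendsto_const_nhds
      · have hipos : 0 < S h i := lt_of_le_of_ne (hc.Sn h hp i) (Ne.symm hi)
        have hij : j ≠ i := by
          rintro rfl; exact hi hj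
        have hH : Tendsto (fun n => H (x n) j i) atTop (𝓝 0) := by
          have := (tH hc hp j i).comp hx
          rw [H_zero hc hp hj i] at this
          exact this
        have hy : Tendsto (fun n => H (x n) j i * p n i ^ 2 * (C' / c)) atTop (𝓝 0) := by
          have := (hH.mul ((hta' i).pow 2)).mul_const (C' / c)
          simp only [zero_mul] at this
          exact this
        refine tsq hy ?_
        filter_upwards [hEb] with n hne
        have hHn := hc.Hn (x n) (hpx n) j i hij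
        have h1 : H (x n) j i * b n j ^ 2 ≤ E n := by
          have h2 : (if 0 < S h i then H (x n) j i * b n j ^ 2 else 0) ≤
              ∑ k, (if 0 < S h k then H (x n) j k * b n j ^ 2 else 0) :=
            Finset.single_le_sum
              (f := fun k => if 0 < S h k then H (x n) j k * b n j ^ 2 else 0)
              (fun k _ => hEt n j k) (Finset.mem_univ i)
          have h3 : ∑ k, (if 0 < S h k then H (x n) j k * b n j ^ 2 else 0) ≤ E n :=
            Finset.single_le_sum
              (f := fun l => ∑ k, if 0 < S h k then H (x n) l k * b n l ^ 2 else 0)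
              (fun l _ => Finset.sum_nonneg fun k _ => hEt n l k) (Finset.mem_univ j)
          rw [if_pos hipos] at h2
          exact h2.trans h3
        rw [hc.Hs (x n) (hpx n) i j]
        have h4 : (H (x n) j i * p n i * b n j) ^ 2 =
            H (x n) j i * p n i ^ 2 * (H (x n) j i * b n j ^ 2) := by ring
        rw [h4]
        exact mul_le_mul_of_nonneg_left (h1.trans hne) (mul_nonneg hHn (sq_nonneg _))
    · have hjpos : 0 < S h j := lt_of_le_of_ne (hc.Sn h hp j) (Ne.symm hj)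
      have : (fun n => H (x n) i j * p n i * b n j) = fun _ => 0 := by
        funext n; rw [hb0 n j hjpos]; ring
      rw [this]; exact tendsto_const_nhds
  refine ⟨φ, a, hφ, ha0, hmeanlim, hvarlim, ?_⟩
  intro ε hε
  have hq1 : Tendsto (fun n => -(∑ i, ∑ j, H (x n) i j * p n i * p n j)) atTop
      (𝓝 (-(∑ i, ∑ j, H h i j * a i * a j))) := (tQF hc hp hx hta).neg
  have hJa : J v S H h a = -(∑ i, ∑ j, H h i j * a i * a j) := by
    unfold J; rw [hmeanlim]; ring
  have e1 : ∀ᶠ n in atTop, J v S H h a - ε / 2 < -(∑ i, ∑ j, H (x n) i j * p n i * p n j) := by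
    rw [hJa]
    exact hq1.eventually (lt_mem_nhds (by linarith))
  have e2 : ∀ᶠ n in atTop, ∑ i, ∑ j, H (x n) i j * p n i * b n j < ε / 4 :=
    hD.eventually (gt_mem_nhds (by linarith))
  filter_upwards [e1, e2, hbb] with n h1 h2 h3
  have h4 : J v S H (x n) (f n) = -(∑ i, ∑ j, H (x n) i j * p n i * p n j)
      - 2 * (∑ i, ∑ j, H (x n) i j * p n i * b n j)
      + -(∑ i, ∑ j, H (x n) i j * b n i * b n j) := by
    have h5 : ∑ i, S (x n) i * f n i = 0 := hmean _
    unfold J
    rw [h5]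
    have h6 : ∑ i, ∑ j, H (x n) i j * b n i * p n j = ∑ i, ∑ j, H (x n) i j * p n i * b n j := by
      rw [Finset.sum_comm]
      refine Finset.sum_congr rfl fun i _ => Finset.sum_congr rfl fun j _ => ?_
      rw [hc.Hs (x n) (hpx n) j i]; ring
    have h7 : ∑ i, ∑ j, H (x n) i j * f n i * f n j =
        (∑ i, ∑ j, H (x n) i j * p n i * p n j) + (∑ i, ∑ j, H (x n) i j * p n i * b n j)
        + (∑ i, ∑ j, H (x n) i j * b n i * p n j) + (∑ i, ∑ j, H (x n) i j * b n i * b n j) := by
      simp only [← Finset.sum_add_distrib]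
      refine Finset.sum_congr rfl fun i _ => Finset.sum_congr rfl fun j _ => ?_
      rw [hfab n]; simp only [Pi.add_apply]; ring
    rw [h7, h6]; ring
  change J v S H h a ≤ J v S H (x n) (f n) + ε
  rw [h4]
  linarith

end Pool.T3
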