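import Pool.Agent.Work.MP_b5407d_t3.Interface

/-! Proof of `Stmt_MIN`. -/

set_option autoImplicit false

open MeasureTheory Set Filter Topology

namespace Pool.T3

/-- normalisation of a pair -/
theorem MIN_norm (hJQ : Stmt_JQ) (ι : Type) [Fintype ι] (v : (ι → ℝ) → ℝ)
    (S : (ι → ℝ) → ι → ℝ) (H : (ι → ℝ) → ι → ι → ℝ) (hC : Calc v S H) (h f : ι → ℝ) (hh : Pos h)
    (hS : ∀ i, 0 < S h i) (hQ : 0 < Q v S h f) :
    ∃ h1 f1 : ι → ℝ, Adm v S h1 f1 ∧ J v S H h1 f1 / 3 = J v S H h f / Q v S h f ∧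
      R v S h1 = R v S h := by
  obtain ⟨q1, q2, q3, q4, q5, q6⟩ := hJQ ι v S H hC h hh
  have hv := hC.vp h hh
  set c : ℝ := -(∑ i, S h i * f i) / (3 * v h) with hc
  set f' : ι → ℝ := f + c • h with hf'
  have hm : ∑ i, S h i * f' i = 0 := by
    have e : ∀ i, S h i * f' i = S h i * f i + c * (S h i * h i) := by
      intro i
      simp only [hf', Pi.add_apply, Pi.smul_apply, smul_eq_mul]
      ring
    rw [Finset.sum_congr rfl fun i _ => e i, Finset.sum_add_distrib, ← Finset.mul_sum, hC.e3 h hh, hc]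
    field_simp
    ring
  have hJ' : J v S H h f' = J v S H h f := (q1 f c).1
  have hQ' : Q v S h f' = Q v S h f := (q1 f c).2
  set q : ℝ := Q v S h f with hq
  have hQv : ∑ i, S h i * f' i ^ 2 / h i = q := by
    have : Q v S h f' = (∑ i, S h i * f' i ^ 2 / h i) - (∑ i, S h i * f' i) ^ 2 / (3 * v h) := rfl
    rw [hm] at this
    rw [← hQ', this]
    ring
  set a : ℝ := (v h) ^ (-(1 / 3) : ℝ) with ha
  have hapos : 0 < a := Real.rpow_pos_of_pos hv _
  have ha3 : a ^ 3 * v h = 1 := by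
    rw [ha, ← Real.rpow_natCast, ← Real.rpow_mul hv.le]
    norm_num
    rw [Real.rpow_neg_one]
    exact inv_mul_cancel₀ hv.ne'
  set b : ℝ := Real.sqrt (3 / (a * q)) with hb
  have hb2 : b ^ 2 = 3 / (a * q) := Real.sq_sqrt (by positivity)
  have hah : Pos (a • h) := fun i => mul_pos hapos (hh i)
  refine ⟨a • h, b • f', ⟨hah, ?_, ?_, ?_, ?_⟩, ?_, ?_⟩
  · intro i
    rw [hC.hS h hh a hapos i]
    exact mul_pos (pow_pos hapos 2) (hS i)
  · rw [hC.hv h hh a hapos]; exact ha3
  · have e : ∀ i, S (a • h) i * (b • f') i = a ^ 2 * b * (S h i * f' i) := by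
      intro i
      rw [hC.hS h hh a hapos i]
      simp only [Pi.smul_apply, smul_eq_mul]
      ring
    rw [Finset.sum_congr rfl fun i _ => e i, ← Finset.mul_sum, hm, mul_zero]
  · have e : ∀ i, S (a • h) i * (b • f') i ^ 2 / (a • h) i = a * b ^ 2 * (S h i * f' i ^ 2 / h i) := by
      intro i
      rw [hC.hS h hh a hapos i]
      have := (hh i).ne'
      simp only [Pi.smul_apply, smul_eq_mul]
      field_simp
    rw [Finset.sum_congr rfl fun i _ => e i, ← Finset.mul_sum, hQv, hb2]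
    field_simp
  · obtain ⟨p1, p2, p3, p4, p5, p6⟩ := hJQ ι v S H hC (a • h) hah
    rw [(p2 f' b).1, (q3 f' a hapos).1, hJ', hb2]
    field_simp
  · exact q5 a hapos

/-- a quadratic polynomial without constant term which is nonnegative has no linear term -/
theorem MIN_poly (B C : ℝ) (h : ∀ t : ℝ, 0 ≤ t * B + t ^ 2 * C) : B = 0 := by
  have h1 := h (-B / (|C| + 1))
  have hC : 0 < |C| + 1 := by positivity
  have e : -B / (|C| + 1) * B + (-B / (|C| + 1)) ^ 2 * C =
      B ^ 2 * (C - |C| - 1) / (|C| + 1) ^ 2 := by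
    field_simp
    ring
  rw [e] at h1
  have h2 : 0 ≤ B ^ 2 * (C - |C| - 1) := by
    by_contra h3
    push Not at h3
    have := div_neg_of_neg_of_pos h3 (pow_pos hC 2)
    linarith
  have h3 : C - |C| - 1 ≤ -1 := by linarith [le_abs_self C]
  have h4 : B ^ 2 ≤ 0 := by nlinarith [sq_nonneg B]
  exact pow_eq_zero_iff (two_ne_zero) |>.1 (le_antisymm h4 (sq_nonneg B))

theorem stmt_MIN (hJQ : Stmt_JQ) (hCMP : Stmt_CMP) (hMN1 : Stmt_MN1) : Stmt_MIN := by
  intro ι _ v S H hC hne hvan hex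
  classical
  obtain ⟨h0, f0, hh0, hlt⟩ := hex
  obtain ⟨g, hg, hgap⟩ := hC.gap
  have hRn := (hCMP ι v S H hC hne).1
  have hS0 : ∀ i, 0 < S h0 i := by
    intro i
    rcases (hC.Sn h0 hh0 i).lt_or_eq with h | h
    · exact h
    · exact absurd (hvan h0 hh0 ⟨i, h.symm⟩ f0) (not_le.2 hlt)
  have hQ0n : 0 ≤ Q v S h0 f0 := (hJQ ι v S H hC h0 hh0).2.2.2.1 f0
  have hg0 := hgap h0 hh0 hS0 f0
  have hQ0 : 0 < Q v S h0 f0 := by
    rcases hQ0n.lt_or_eq with h | h
    · exact h
    · rw [← h] at hlt hg0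
      linarith
  obtain ⟨h1, f1, hA1, hJ1, hR1⟩ := MIN_norm hJQ ι v S H hC h0 f0 hh0 hS0 hQ0
  set κ : ℝ := J v S H h0 f0 / Q v S h0 f0 with hκ
  have hκ1 : κ < 1 / 2 := by
    rw [hκ, div_lt_iff₀ hQ0]; exact hlt
  set R0 : ℝ := R v S h0 with hR0
  have hR0n : 0 ≤ R0 := hRn h0 hh0
  set d : ℝ := 1 / 2 - κ with hd
  have hdpos : 0 < d := by rw [hd]; linarith
  set δ : ℝ := min (d / (4 * (R0 + 1))) (d / 56) with hδ
  have hδpos : 0 < δ := by positivity
  have hδ1 : δ * R0 ≤ d / 4 := by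
    have h3 : δ ≤ d / (4 * (R0 + 1)) := min_le_left _ _
    have h4 : δ * (R0 + 1) ≤ d / 4 := by
      rw [le_div_iff₀ (by positivity)] at h3
      linarith
    nlinarith
  have hδ2 : 28 * δ ≤ d / 2 := by
    have h3 : δ ≤ d / 56 := min_le_right _ _
    linarith
  obtain ⟨h, f, hA, hmin⟩ := hMN1 ι v S H hC hne hvan δ hδpos
    ⟨h1, f1, hA1, by rw [hJ1, hR1]; linarith⟩
  have hh := hA.hpos
  have hv1 := hA.vol
  have hRh : 0 ≤ R v S h := hRn h hh
  set ε : ℝ := J v S H h f / 3 with hε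
  have hQf : Q v S h f = 3 := by
    unfold Q
    rw [hA.mean, hA.var]
    ring
  have hεpos : 0 < ε := by
    have := hgap h hh hA.spos f
    rw [hQf] at this
    rw [hε]
    linarith
  have hεle : ε ≤ κ + d / 4 := by
    have := hmin h1 f1 hA1
    rw [hJ1, hR1] at this
    have h3 : 0 ≤ δ * R v S h := mul_nonneg hδpos.le hRh
    linarith
  have hlast : ∀ h', Pos h' → (∀ i, 0 < S h' i) → ∀ f' : ι → ℝ,
      (ε - δ * (R v S h' - R v S h)) * Q v S h' f' ≤ J v S H h' f' := by
    intro h' hh' hS' f'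
    have hQn : 0 ≤ Q v S h' f' := (hJQ ι v S H hC h' hh').2.2.2.1 f'
    have hg' := hgap h' hh' hS' f'
    rcases hQn.lt_or_eq with hq | hq
    · obtain ⟨h2, f2, hA2, hJ2, hR2⟩ := MIN_norm hJQ ι v S H hC h' f' hh' hS' hq
      have := hmin h2 f2 hA2
      rw [hJ2, hR2] at this
      have h3 : ε - δ * (R v S h' - R v S h) ≤ J v S H h' f' / Q v S h' f' := by linarith
      rwa [le_div_iff₀ hq] at h3
    · rw [← hq] at hg' ⊢
      linarith
  refine ⟨δ, ε, h, f, hδpos, hεpos, by linarith, hA, ?_, hlast⟩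
  intro i
  -- the eigenvector equation
  have hkey : ∀ t : ℝ, 0 ≤ t * (-(2 * ∑ j, H h i j * f j) - 2 * ε * (S h i * f i / h i)) +
      t ^ 2 * (J v S H h (Pi.single i 1) - ε * Q v S h (Pi.single i 1)) := by
    intro t
    have h3 := hlast h hh hA.spos (f + t • (Pi.single i 1 : ι → ℝ))
    rw [sub_self, mul_zero, sub_zero] at h3
    set g' : ι → ℝ := Pi.single i 1 with hg'
    have e1 : ∑ k, ∑ j, H h k j * (f + t • g') k * (f + t • g') j =
        (∑ k, ∑ j, H h k j * f k * f j) + t * (∑ k, ∑ j, H h k j * f k * g' j) +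
        t * (∑ k, ∑ j, H h k j * g' k * f j) + t ^ 2 * (∑ k, ∑ j, H h k j * g' k * g' j) := by
      simp only [Finset.mul_sum, ← Finset.sum_add_distrib]
      refine Finset.sum_congr rfl fun k _ => Finset.sum_congr rfl fun j _ => ?_
      simp only [Pi.add_apply, Pi.smul_apply, smul_eq_mul]
      ring
    have e2 : ∑ k, S h k * (f + t • g') k = (∑ k, S h k * f k) + t * ∑ k, S h k * g' k := by
      simp only [Finset.mul_sum, ← Finset.sum_add_distrib]
      refine Finset.sum_congr rfl fun k _ => ?_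
      simp only [Pi.add_apply, Pi.smul_apply, smul_eq_mul]
      ring
    have e3 : ∑ k, S h k * (f + t • g') k ^ 2 / h k = (∑ k, S h k * f k ^ 2 / h k) +
        2 * t * (∑ k, S h k * f k * g' k / h k) + t ^ 2 * ∑ k, S h k * g' k ^ 2 / h k := by
      simp only [Finset.mul_sum, ← Finset.sum_add_distrib]
      refine Finset.sum_congr rfl fun k _ => ?_
      simp only [Pi.add_apply, Pi.smul_apply, smul_eq_mul]
      ring
    have e4 : ∑ k, ∑ j, H h k j * g' k * f j = ∑ j, H h i j * f j := by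
      rw [Finset.sum_eq_single i]
      · refine Finset.sum_congr rfl fun j _ => ?_
        simp [hg']
      · intro k _ hk
        simp [hg', Pi.single_eq_of_ne hk]
      · intro hi; exact absurd (Finset.mem_univ i) hi
    have e5 : ∑ k, ∑ j, H h k j * f k * g' j = ∑ j, H h i j * f j := by
      refine Finset.sum_congr rfl fun k _ => ?_
      rw [Finset.sum_eq_single i]
      · rw [hC.Hs h hh k i]
        simp [hg']
      · intro j _ hj
        simp [hg', Pi.single_eq_of_ne hj]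
      · intro hi; exact absurd (Finset.mem_univ i) hi
    have e6 : ∑ k, S h k * f k * g' k / h k = S h i * f i / h i := by
      rw [Finset.sum_eq_single i]
      · simp [hg']
      · intro k _ hk
        simp [hg', Pi.single_eq_of_ne hk]
      · intro hi; exact absurd (Finset.mem_univ i) hi
    have hJe : J v S H h (f + t • g') = J v S H h f - 2 * t * (∑ j, H h i j * f j) +
        t ^ 2 * J v S H h g' := by
      unfold J
      rw [e1, e2, e4, e5, hA.mean]
      ring
    have hQe : Q v S h (f + t • g') = Q v S h f + 2 * t * (S h i * f i / h i) +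
        t ^ 2 * Q v S h g' := by
      unfold Q
      rw [e2, e3, e6, hA.mean]
      ring
    rw [hJe, hQe, hQf] at h3
    have h4 : J v S H h f = 3 * ε := by rw [hε]; ring
    rw [h4] at h3
    linarith
  have h5 := MIN_poly _ _ hkey
  linarith

end Pool.T3
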