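import Pool.Agent.Work.MP_b5407d_t3.Interface

/-!
# Block MN1: existence of the minimiser on the normalised pairs
-/

set_option autoImplicit false

open MeasureTheory Set Filter Topology

namespace Pool.T3

theorem stmt_MN1 (hJQ : Stmt_JQ) (hCMP : Stmt_CMP) (hLSC : Stmt_LSC) : Stmt_MN1 := by
  intro ι _ v S H hC hne hvan δ hδ hex
  obtain ⟨hR0, hR1⟩ := hCMP ι v S H hC hne
  obtain ⟨h0, f0, hA0, hlt⟩ := hex
  -- nonnegativity of `J` at normalised pairs
  have hJ0 : ∀ h f, Adm v S h f → 0 ≤ J v S H h f := by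
    intro h f hA
    obtain ⟨e, he, hg⟩ := hC.gap
    have h1 := hg h hA.hpos hA.spos f
    have h2 : 0 ≤ Q v S h f := (hJQ ι v S H hC h hA.hpos).2.2.2.1 f
    exact (mul_nonneg he.le h2).trans h1
  set T : Set ℝ := {x | ∃ h f, Adm v S h f ∧ x = J v S H h f / 3 + δ * R v S h} with hT
  have hTne : T.Nonempty := ⟨_, h0, f0, hA0, rfl⟩
  have hTb : BddBelow T := by
    refine ⟨0, ?_⟩
    rintro x ⟨h, f, hA, rfl⟩
    have h1 := hJ0 h f hA
    have h2 := mul_nonneg hδ.le (hR0 h hA.hpos)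
    linarith
  obtain ⟨x, hxa, hxt, hxm⟩ := exists_seq_tendsto_sInf hTne hTb
  set m : ℝ := sInf T with hm
  have hmlt : m < 1 / 2 := (csInf_le hTb ⟨h0, f0, hA0, rfl⟩).trans_lt hlt
  choose hn fn hAn hxn using hxm
  have hxU : ∀ n, x n ≤ x 0 := fun n => hxa (Nat.zero_le n)
  have hJb : ∀ n, J v S H (hn n) (fn n) ≤ 3 * x 0 := by
    intro n
    have h1 := mul_nonneg hδ.le (hR0 (hn n) (hAn n).hpos)
    have h2 := hxU n
    rw [hxn n] at h2
    linarith
  have hRb : ∀ n, R v S (hn n) ≤ x 0 / δ := by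
    intro n
    have h1 := hJ0 (hn n) (fn n) (hAn n)
    have h2 := hxU n
    rw [hxn n] at h2
    rw [le_div_iff₀ hδ]
    linarith
  obtain ⟨r, hr, hbd⟩ := hR1 (x 0 / δ)
  have hmem : ∀ n, hn n ∈ Icc (fun _ : ι => r) (fun _ : ι => 1 / r) := by
    intro n
    have h1 := hbd (hn n) (hAn n).hpos (hAn n).vol (hAn n).spos (hRb n)
    exact ⟨fun i => (h1 i).1, fun i => (h1 i).2⟩
  obtain ⟨h, hhm, φ, hφ, hφt⟩ := isCompact_Icc.tendsto_subseq hmem
  have hPos : Pos h := fun i => hr.trans_le (hhm.1 i)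
  obtain ⟨ψ, a, hψ, ha0, hmean, hvar, hlsc⟩ := hLSC ι v S H hC (fun n => hn (φ n))
    (fun n => fn (φ n)) h (3 * x 0) hPos hφt (fun n => (hAn (φ n)).hpos)
    (fun n => (hAn (φ n)).spos) (fun n => (hAn (φ n)).mean) (fun n => (hAn (φ n)).var)
    (fun n => hJb (φ n))
  -- continuity
  have hvt : Tendsto (fun n => v (hn (φ n))) atTop (𝓝 (v h)) :=
    ((hC.dv h hPos).continuousAt.tendsto).comp hφt
  have hv1 : v h = 1 := by
    have h1 : (fun n => v (hn (φ n))) = fun _ => (1 : ℝ) := funext fun n => (hAn (φ n)).vol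
    rw [h1] at hvt
    exact tendsto_nhds_unique hvt tendsto_const_nhds
  have hSt : Tendsto (fun n => ∑ i, S (hn (φ n)) i) atTop (𝓝 (∑ i, S h i)) :=
    tendsto_finsetSum _ fun i _ => ((hC.dS h hPos i).continuousAt.tendsto).comp hφt
  have hS0 : 0 < ∑ i, S h i := by
    rcases (Finset.sum_nonneg fun i _ => hC.Sn h hPos i :
      0 ≤ ∑ i, S h i).lt_or_eq with h1 | h1
    · exact h1
    · exfalso
      have h2 := (Finset.sum_eq_zero_iff_of_nonneg fun i _ => hC.Sn h hPos i).mp h1.symm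
      have h3 := hC.e3 h hPos
      rw [hv1] at h3
      have h4 : ∑ i, S h i * h i = 0 := Finset.sum_eq_zero fun i hi => by
        rw [h2 i hi, zero_mul]
      rw [h4] at h3
      norm_num at h3
  have hRt : Tendsto (fun n => R v S (hn (φ n))) atTop (𝓝 (R v S h)) := by
    unfold R
    refine Tendsto.sub (Tendsto.const_mul _ ?_) ?_
    · exact (Real.continuousAt_log hS0.ne').tendsto.comp hSt
    · exact (Real.continuousAt_log (by rw [hv1]; exact one_ne_zero)).tendsto.comp hvt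
  have hle : J v S H h a / 3 + δ * R v S h ≤ m := by
    refine le_of_forall_pos_le_add fun e he => ?_
    have h1 : ∀ᶠ n in atTop, J v S H h a / 3 + δ * R v S (hn (φ (ψ n))) ≤ x (φ (ψ n)) + e := by
      filter_upwards [hlsc e he] with n hn'
      have h2 := hxn (φ (ψ n))
      rw [h2]
      linarith
    have h2 : Tendsto (fun n => J v S H h a / 3 + δ * R v S (hn (φ (ψ n)))) atTop
        (𝓝 (J v S H h a / 3 + δ * R v S h)) :=
      Tendsto.const_add _ (Tendsto.const_mul _ (hRt.comp hψ.tendsto_atTop))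
    have h3 : Tendsto (fun n => x (φ (ψ n)) + e) atTop (𝓝 (m + e)) :=
      (hxt.comp (hφ.tendsto_atTop.comp hψ.tendsto_atTop)).add_const e
    exact le_of_tendsto_of_tendsto h2 h3 h1
  have hS : ∀ i, 0 < S h i := by
    intro i
    rcases (hC.Sn h hPos i).lt_or_eq with h1 | h1
    · exact h1
    · exfalso
      have h2 := hvan h hPos ⟨i, h1.symm⟩ a
      have h3 : Q v S h a = 3 := by
        unfold Q
        rw [hvar, hmean]
        norm_num
      rw [h3] at h2
      have h4 := mul_nonneg hδ.le (hR0 h hPos)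
      linarith
  refine ⟨h, a, ⟨hPos, hS, hv1, hmean, hvar⟩, fun h' f' hA' => ?_⟩
  exact hle.trans (csInf_le hTb ⟨h', f', hA', rfl⟩)

end Pool.T3
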