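import Pool.Agent.Work.MP_b5407d_t3.Interface

/-!
MP_b5407d, T3, block PARH (helper81): Fréchet differentiability of a function which is homogeneous of
degree two.
-/

set_option autoImplicit false

open MeasureTheory Set Filter Topology

namespace Pool.T3
namespace PARH_

theorem lin_apply {ι : Type} [Fintype ι] (a v : ι → ℝ) : lin a v = ∑ i, a i * v i := by
  unfold lin
  rw [ContinuousLinearMap.sum_apply]
  refine Finset.sum_congr rfl fun i _ => ?_
  rw [ContinuousLinearMap.smul_apply, ContinuousLinearMap.proj_apply, smul_eq_mul]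

/-- extension of a vector on the other coordinates by `1` -/
noncomputable def ext1 {ι : Type} [DecidableEq ι] (i0 : ι) (y : {j : ι // j ≠ i0} → ℝ) : ι → ℝ :=
  fun i => if h : i = i0 then 1 else y ⟨i, h⟩

theorem ext1_self {ι : Type} [DecidableEq ι] (i0 : ι) (y : {j : ι // j ≠ i0} → ℝ) :
    ext1 i0 y i0 = 1 := by
  unfold ext1
  rw [dif_pos rfl]

theorem ext1_ne {ι : Type} [DecidableEq ι] (i0 : ι) (y : {j : ι // j ≠ i0} → ℝ)
    (i : ι) (hi : i ≠ i0) : ext1 i0 y i = y ⟨i, hi⟩ := by
  unfold ext1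
  rw [dif_neg hi]

theorem ext1_pos {ι : Type} [DecidableEq ι] (i0 : ι) (y : {j : ι // j ≠ i0} → ℝ)
    (hy : Pos y) : Pos (ext1 i0 y) := by
  intro i
  by_cases hi : i = i0
  · subst hi
    rw [ext1_self]
    norm_num
  · rw [ext1_ne i0 y i hi]
    exact hy _

theorem ext1_update {ι : Type} [DecidableEq ι] (i0 : ι) (y : {j : ι // j ≠ i0} → ℝ)
    (j : {j : ι // j ≠ i0}) (s : ℝ) :
    ext1 i0 (Function.update y j s) = Function.update (ext1 i0 y) (j : ι) s := by
  funext i
  by_cases hi : i = i0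
  · subst hi
    rw [ext1_self, Function.update_of_ne (fun h => j.2 h.symm), ext1_self]
  · rw [ext1_ne i0 _ i hi]
    by_cases hij : i = (j : ι)
    · subst hij
      simp
    · rw [Function.update_of_ne hij, ext1_ne i0 y i hi, Function.update_of_ne]
      intro h
      exact hij (congrArg Subtype.val h)

theorem ext1_cont {ι : Type} [DecidableEq ι] (i0 : ι) :
    Continuous (ext1 i0 : ({j : ι // j ≠ i0} → ℝ) → ι → ℝ) := by
  refine continuous_pi fun i => ?_
  by_cases hi : i = i0
  · subst hi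
    have : (fun y : {j : ι // j ≠ i} → ℝ => ext1 i y i) = fun _ => (1 : ℝ) := by
      funext y
      exact ext1_self i y
    rw [this]
    exact continuous_const
  · have : (fun y : {j : ι // j ≠ i0} → ℝ => ext1 i0 y i) = fun y => y ⟨i, hi⟩ := by
      funext y
      exact ext1_ne i0 y i hi
    rw [this]
    exact continuous_apply _

theorem pos_open {ι : Type} [Fintype ι] : IsOpen {h : ι → ℝ | Pos h} := by
  have : {h : ι → ℝ | Pos h} = ⋂ i, {h : ι → ℝ | 0 < h i} := by
    ext h
    simp [Pos]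
  rw [this]
  exact isOpen_iInter_of_finite fun i => isOpen_lt continuous_const (continuous_apply i)

end PARH_

open PARH_ in
theorem stmt_PARH (hPAR : Stmt_PAR) : Stmt_PARH := by
  intro ι _ _ g g' i0 hder hcont hhom heul h hh
  have hpos0 : 0 < h i0 := hh i0
  -- homogeneity of the derivatives
  have hdeg : ∀ h : ι → ℝ, Pos h → ∀ c : ℝ, 0 < c → ∀ i, i ≠ i0 → g' i (c • h) = c * g' i h := by
    intro h hh c hc i hi
    have hch : Pos (c • h) := fun k => mul_pos hc (hh k)
    have d1 := hder (c • h) hch i hi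
    have d2 := hder h hh i hi
    -- composition with s ↦ c s
    have d3 : HasDerivAt (fun s : ℝ => g (Function.update (c • h) i (c * s)))
        (g' i (c • h) * c) (h i) := by
      have dm : HasDerivAt (fun s : ℝ => c * s) c (h i) := by
        have := (hasDerivAt_id (h i)).const_mul c
        rwa [mul_one] at this
      have e : (c • h) i = c * h i := rfl
      rw [e] at d1
      exact HasDerivAt.comp (h i) d1 dm
    have d4 : HasDerivAt (fun s : ℝ => g (Function.update (c • h) i (c * s)))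
        (c ^ 2 * g' i h) (h i) := by
      refine (d2.const_mul (c ^ 2)).congr_of_eventuallyEq ?_
      have hev : ∀ᶠ s in 𝓝 (h i), 0 < s := lt_mem_nhds (hh i)
      filter_upwards [hev] with s hs
      have hp : Pos (Function.update h i s) := by
        intro k
        by_cases hk : k = i
        · subst hk
          rw [Function.update_self]
          exact hs
        · rw [Function.update_of_ne hk]
          exact hh k
      have e : Function.update (c • h) i (c * s) = c • Function.update h i s := by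
        funext k
        by_cases hk : k = i
        · subst hk
          rw [Function.update_self, Pi.smul_apply, Function.update_self, smul_eq_mul]
        · rw [Function.update_of_ne hk, Pi.smul_apply, Pi.smul_apply, Function.update_of_ne hk]
      rw [e, hhom _ hp c hc]
    have hu := d3.unique d4
    have hc' : c ≠ 0 := hc.ne'
    field_simp at hu
    linarith
  -- the restricted function
  have hG : ∀ y : {j : ι // j ≠ i0} → ℝ, Pos y →
      HasFDerivAt (fun y => g (ext1 i0 y)) (lin (fun j => g' (j : ι) (ext1 i0 y))) y := by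
    intro y hy
    refine hPAR {j : ι // j ≠ i0} (fun y => g (ext1 i0 y)) (fun j y => g' (j : ι) (ext1 i0 y)) ?_ ?_ y hy
    · intro y hy j
      have d := hder (ext1 i0 y) (ext1_pos i0 y hy) (j : ι) j.2
      rw [ext1_ne i0 y (j : ι) j.2] at d
      have e : (fun s => (fun y => g (ext1 i0 y)) (Function.update y j s))
          = fun s => g (Function.update (ext1 i0 y) (j : ι) s) := by
        funext s
        simp only [ext1_update]
      rw [e]
      exact d
    · intro j
      refine (hcont (j : ι) j.2).comp (ext1_cont i0).continuousOn ?_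
      intro y hy
      exact ext1_pos i0 y hy
  -- chain rule
  have hY : HasFDerivAt (fun k : ι → ℝ => fun j : {j : ι // j ≠ i0} => k (j : ι) * (k i0)⁻¹)
      (ContinuousLinearMap.pi fun j : {j : ι // j ≠ i0} =>
        (h (j : ι)) • ((-((h i0) ^ 2)⁻¹) • (ContinuousLinearMap.proj i0 : (ι → ℝ) →L[ℝ] ℝ))
          + (h i0)⁻¹ • (ContinuousLinearMap.proj (j : ι) : (ι → ℝ) →L[ℝ] ℝ)) h := by
    rw [hasFDerivAt_pi]
    intro j
    have h1 : HasFDerivAt (fun k : ι → ℝ => k (j : ι))
      (ContinuousLinearMap.proj (j : ι) : (ι → ℝ) →L[ℝ] ℝ) h :=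
      (ContinuousLinearMap.proj (j : ι) : (ι → ℝ) →L[ℝ] ℝ).hasFDerivAt
    have h2 : HasFDerivAt (fun k : ι → ℝ => k i0)
      (ContinuousLinearMap.proj i0 : (ι → ℝ) →L[ℝ] ℝ) h :=
      (ContinuousLinearMap.proj i0 : (ι → ℝ) →L[ℝ] ℝ).hasFDerivAt
    have h3 : HasFDerivAt (fun k : ι → ℝ => (k i0)⁻¹)
      ((-((h i0) ^ 2)⁻¹) • (ContinuousLinearMap.proj i0 : (ι → ℝ) →L[ℝ] ℝ)) h :=
      (hasDerivAt_inv hpos0.ne').comp_hasFDerivAt h h2
    exact h1.mul h3
  have hYpos : Pos (fun j : {j : ι // j ≠ i0} => h (j : ι) * (h i0)⁻¹) := by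
    intro j
    exact mul_pos (hh _) (inv_pos.2 hpos0)
  have hcomp := (hG _ hYpos).comp h hY
  have hsq : HasFDerivAt (fun k : ι → ℝ => k i0 ^ 2)
      ((2 * h i0) • (ContinuousLinearMap.proj i0 : (ι → ℝ) →L[ℝ] ℝ)) h := by
    have h2 : HasFDerivAt (fun k : ι → ℝ => k i0)
      (ContinuousLinearMap.proj i0 : (ι → ℝ) →L[ℝ] ℝ) h :=
      (ContinuousLinearMap.proj i0 : (ι → ℝ) →L[ℝ] ℝ).hasFDerivAt
    have h4 : HasDerivAt (fun x : ℝ => x ^ 2) (2 * h i0) (h i0) := by
      have := hasDerivAt_pow 2 (h i0)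
      norm_num at this
      exact this
    exact h4.comp_hasFDerivAt h h2
  have hprod := hsq.mul hcomp
  -- the point
  have hpt : ∀ k : ι → ℝ, Pos k →
      k = (k i0) • ext1 i0 (fun j : {j : ι // j ≠ i0} => k (j : ι) * (k i0)⁻¹) := by
    intro k hk
    have hk0 : k i0 ≠ 0 := (hk i0).ne'
    funext i
    rw [Pi.smul_apply, smul_eq_mul]
    by_cases hi : i = i0
    · subst hi
      rw [ext1_self, mul_one]
    · rw [ext1_ne i0 _ i hi]
      field_simp
  have hgk : ∀ k : ι → ℝ, Pos k →
      g k = k i0 ^ 2 * g (ext1 i0 (fun j : {j : ι // j ≠ i0} => k (j : ι) * (k i0)⁻¹)) := by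
    intro k hk
    have hp : Pos (ext1 i0 (fun j : {j : ι // j ≠ i0} => k (j : ι) * (k i0)⁻¹)) := by
      refine ext1_pos i0 _ ?_
      intro j
      exact mul_pos (hk _) (inv_pos.2 (hk i0))
    have := hhom _ hp (k i0) (hk i0)
    rw [← hpt k hk] at this
    exact this
  have hev : ∀ᶠ k in 𝓝 h, g k = k i0 ^ 2 *
      g (ext1 i0 (fun j : {j : ι // j ≠ i0} => k (j : ι) * (k i0)⁻¹)) := by
    filter_upwards [pos_open.mem_nhds hh] with k hk
    exact hgk k hk
  have hfin := hprod.congr_of_eventuallyEq (f₁ := g) hev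
  refine hfin.congr_fderiv ?_
  -- equality of the linear maps
  set Y := (fun j : {j : ι // j ≠ i0} => h (j : ι) * (h i0)⁻¹) with hYdef
  have hE : Pos (ext1 i0 Y) := ext1_pos i0 Y hYpos
  have hg'j : ∀ i, i ≠ i0 → g' i h = h i0 * g' i (ext1 i0 Y) := by
    intro i hi
    have := hdeg (ext1 i0 Y) hE (h i0) hpos0 i hi
    rw [← hpt h hh] at this
    exact this
  have hgh : g h = h i0 ^ 2 * g (ext1 i0 Y) := hgk h hh
  have hEul := heul h hh
  refine ContinuousLinearMap.ext fun v => ?_
  rw [lin_apply]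
  have hsplit : ∑ i, g' i h * v i = g' i0 h * v i0 + ∑ i ∈ Finset.univ.erase i0, g' i h * v i := by
    exact (Finset.add_sum_erase Finset.univ (fun i => g' i h * v i) (Finset.mem_univ i0)).symm
  rw [hsplit]
  simp only [ContinuousLinearMap.add_apply, ContinuousLinearMap.smul_apply,
    ContinuousLinearMap.comp_apply, ContinuousLinearMap.proj_apply, smul_eq_mul,
    Function.comp_apply, lin_apply, ContinuousLinearMap.pi_apply]
  have hsub : ∀ F : ι → ℝ, ∑ j : {j : ι // j ≠ i0}, F (j : ι) = ∑ i ∈ Finset.univ.erase i0, F i := by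
    intro F
    exact (Finset.sum_subtype (Finset.univ.erase i0) (by intro x; simp) F).symm
  rw [hsub (fun i => g' i (ext1 i0 Y) * (h i * (-(h i0 ^ 2)⁻¹ * v i0) + (h i0)⁻¹ * v i))]
  have h0 : h i0 ≠ 0 := hpos0.ne'
  rw [show (fun j : {j : ι // j ≠ i0} => h (j : ι) * (h i0)⁻¹) = Y from rfl]
  have e1 : ∑ i ∈ Finset.univ.erase i0,
        g' i (ext1 i0 Y) * (h i * (-(h i0 ^ 2)⁻¹ * v i0) + (h i0)⁻¹ * v i)
      = (h i0 ^ 2)⁻¹ * (∑ i ∈ Finset.univ.erase i0, g' i h * v i)
        - (h i0 ^ 2)⁻¹ * (v i0 / h i0) * (∑ i ∈ Finset.univ.erase i0, h i * g' i h) := by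
    rw [Finset.mul_sum, Finset.mul_sum, ← Finset.sum_sub_distrib]
    refine Finset.sum_congr rfl fun i hi => ?_
    rw [hg'j i (Finset.ne_of_mem_erase hi)]
    field_simp
    ring
  rw [e1]
  have e2 : g' i0 h = (2 * g h - ∑ i ∈ Finset.univ.erase i0, h i * g' i h) / h i0 := by
    field_simp
    linarith
  rw [e2, hgh]
  generalize ∑ i ∈ Finset.univ.erase i0, g' i h * v i = A1
  generalize ∑ i ∈ Finset.univ.erase i0, h i * g' i h = A2
  field_simp
  ring

end Pool.T3
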