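import Pool.Agent.Work.MP_b5407d_t3.RUP

/-!
# Block QEX (helper84)

Expansion of `Q` along the path.
-/

set_option autoImplicit false

open MeasureTheory Set Filter Topology Asymptotics

namespace Pool.T3

namespace QEX_

open RUP_

variable {ι : Type} [Fintype ι]
variable {v : (ι → ℝ) → ℝ} {S : (ι → ℝ) → ι → ℝ} {H : (ι → ℝ) → ι → ι → ℝ}

theorem bigO_e {p : ℝ} (hU : Stmt_UEX) (h0 : 0 < p) (h1 : p < 1) (w : ℝ) :
    (fun x : ℝ × ℝ => ee p (x.1 * w) x.2) =O[fl] (fun x => x.1 ^ 1) := by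
  have a1 := (eexp hU h0 h1 w).trans (pow_big (by norm_num : 1 ≤ 3))
  have a2 := mono w 0 1
  have a3 := (mono (-((1 - p) / 2 * w ^ 2)) 0 2).trans (pow_big (by norm_num : 1 ≤ 2))
  have a4 := (mono (-(p * w ^ 2)) 1 2).trans (pow_big (by norm_num : 1 ≤ 2))
  refine (((a1.add a2).add a3).add a4).congr_left fun x => ?_
  ring

theorem e1_exp {p : ℝ} (hU : Stmt_UEX) (h0 : 0 < p) (h1 : p < 1) (w : ℝ) :
    (fun x : ℝ × ℝ => ee p (x.1 * w) x.2 - x.1 * w) =O[fl] (fun x => x.1 ^ 2) := by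
  have a1 := (eexp hU h0 h1 w).trans (pow_big (by norm_num : 2 ≤ 3))
  have a3 := mono (-((1 - p) / 2 * w ^ 2)) 0 2
  have a4 := mono (-(p * w ^ 2)) 1 2
  refine ((a1.add a3).add a4).congr_left fun x => ?_
  ring

theorem e2_exp {p : ℝ} (hU : Stmt_UEX) (h0 : 0 < p) (h1 : p < 1) (w : ℝ) :
    (fun x : ℝ × ℝ => ee p (x.1 * w) x.2 ^ 2 - ((x.1 * w) ^ 2 -
      2 * ((1 - p) / 2 + x.2 * p) * (x.1 * w) ^ 3)) =O[fl] (fun x => x.1 ^ 4) := by
  have a1 := (eexp hU h0 h1 w).mul (bigO_e hU h0 h1 w)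
  have a1' := a1.congr_right (g₂ := fun x : ℝ × ℝ => x.1 ^ 4) (fun x => by ring)
  have a2 : (fun x : ℝ × ℝ => x.1 * w - ((1 - p) / 2 + x.2 * p) * (x.1 * w) ^ 2) =O[fl]
      (fun x => x.1 ^ 1) := by
    have b2 := mono w 0 1
    have b3 := (mono (-((1 - p) / 2 * w ^ 2)) 0 2).trans (pow_big (by norm_num : 1 ≤ 2))
    have b4 := (mono (-(p * w ^ 2)) 1 2).trans (pow_big (by norm_num : 1 ≤ 2))
    refine ((b2.add b3).add b4).congr_left fun x => ?_
    ring
  have a3 := (eexp hU h0 h1 w).mul a2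
  have a3' := a3.congr_right (g₂ := fun x : ℝ × ℝ => x.1 ^ 4) (fun x => by ring)
  have a4 := mono (((1 - p) / 2) ^ 2 * w ^ 4) 0 4
  have a5 := mono ((1 - p) * p * w ^ 4) 1 4
  have a6 := mono (p ^ 2 * w ^ 4) 2 4
  refine ((((a1'.add a3').add a4).add a5).add a6).congr_left fun x => ?_
  ring

/-- expansion of `S(hp) i * hp i` -/
theorem sh_exp (hU : Stmt_UEX) {δ ε : ℝ} {h f : ι → ℝ} (hc : Crit v S H δ ε h f) (i : ι) :
    (fun x : ℝ × ℝ => S (hp (1 - ε) h f x.1 x.2) i * hp (1 - ε) h f x.1 x.2 i -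
      S h i * h i * (1 + x.2 * x.1 * (f i / h i) * (1 - ε))) =o[fl] (fun x => x.1 ^ 1) := by
  have hε := hc.epos
  have hε2 : ε < 1 / 2 := by linarith [hc.small, hc.dpos]
  have h0 : 0 < 1 - ε := by linarith
  have h1 : 1 - ε < 1 := by linarith
  have hh := hc.adm.hpos
  have a1 := S_exp hU h0 h1 hc.cal h f hh i
  have a2 := hp_exp1 hU h0 h1 h f i (hh i)
  have a0 := hp_exp0 hU h0 h1 h f i (hh i)
  have b0 : (fun x : ℝ × ℝ => hp (1 - ε) h f x.1 x.2 i) =O[fl] (fun x => x.1 ^ 0) := by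
    have c1 := a0.trans (pow_big (by norm_num : 0 ≤ 1))
    have c2 := mono (h i) 0 0
    refine (c1.add c2).congr_left fun x => ?_
    ring
  have b1 := a1.mul_isBigO b0
  have b1' := b1.congr_right (g₂ := fun x : ℝ × ℝ => x.1 ^ 1) (fun x => by ring)
  have b2 := (a2.const_mul_left (S h i)).trans_isLittleO (pow_little (by norm_num : 1 < 2))
  have b3 := ((mono (∑ j, H h i j * f j) 1 1).mul a0).congr_right
    (g₂ := fun x : ℝ × ℝ => x.1 ^ 2) (fun x => by ring)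
  have b3' := b3.trans_isLittleO (pow_little (by norm_num : 1 < 2))
  refine ((b1'.add b2).add b3').congr_left fun x => ?_
  rw [hc.eig i]
  have := (hh i).ne'
  field_simp
  ring

theorem sh_big (hU : Stmt_UEX) {δ ε : ℝ} {h f : ι → ℝ} (hc : Crit v S H δ ε h f) (i : ι) :
    (fun x : ℝ × ℝ => S (hp (1 - ε) h f x.1 x.2) i * hp (1 - ε) h f x.1 x.2 i *
      ee (1 - ε) (x.1 * (f i / h i)) x.2 - x.1 * (S h i * f i)) =O[fl] (fun x => x.1 ^ 2) := by
  have hε := hc.epos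
  have hε2 : ε < 1 / 2 := by linarith [hc.small, hc.dpos]
  have h0 : 0 < 1 - ε := by linarith
  have h1 : 1 - ε < 1 := by linarith
  have hh := hc.adm.hpos
  have a1 := ((sh_exp hU hc i).isBigO.mul (bigO_e hU h0 h1 (f i / h i))).congr_right
    (g₂ := fun x : ℝ × ℝ => x.1 ^ 2) (fun x => by ring)
  have a2 := (e1_exp hU h0 h1 (f i / h i)).const_mul_left (S h i * h i)
  have a3 := ((mono (S h i * h i * (f i / h i) * (1 - ε)) 1 1).mul
    (bigO_e hU h0 h1 (f i / h i))).congr_right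
    (g₂ := fun x : ℝ × ℝ => x.1 ^ 2) (fun x => by ring)
  refine ((a1.add a2).add a3).congr_left fun x => ?_
  have e : S h i * f i = S h i * h i * (f i / h i) := by
    have := (hh i).ne'
    field_simp
  rw [e]
  ring

theorem q_exp (hU : Stmt_UEX) {δ ε : ℝ} {h f : ι → ℝ} (hc : Crit v S H δ ε h f) (i : ι) :
    (fun x : ℝ × ℝ => S (hp (1 - ε) h f x.1 x.2) i * hp (1 - ε) h f x.1 x.2 i *
      ee (1 - ε) (x.1 * (f i / h i)) x.2 ^ 2 - (x.1 ^ 2 * (S h i * f i ^ 2 / h i) -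
      x.1 ^ 3 * (ε + x.2 * (1 - ε)) * (S h i * h i * (f i / h i) ^ 3))) =o[fl]
      (fun x => x.1 ^ 3) := by
  have hε := hc.epos
  have hε2 : ε < 1 / 2 := by linarith [hc.small, hc.dpos]
  have h0 : 0 < 1 - ε := by linarith
  have h1 : 1 - ε < 1 := by linarith
  have hh := hc.adm.hpos
  set w := f i / h i with hw
  have a0 := ((bigO_e hU h0 h1 w).pow 2).congr_right
    (g₂ := fun x : ℝ × ℝ => x.1 ^ 2) (fun x => by ring)
  have a1 := ((sh_exp hU hc i).mul_isBigO a0).congr_right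
    (g₂ := fun x : ℝ × ℝ => x.1 ^ 3) (fun x => by ring)
  have b1 : (fun x : ℝ × ℝ => S h i * h i * (1 + x.2 * x.1 * w * (1 - ε))) =O[fl]
      (fun x => x.1 ^ 0) := by
    have c1 := mono (S h i * h i) 0 0
    have c2 := (mono (S h i * h i * w * (1 - ε)) 1 1).trans (pow_big (by norm_num : 0 ≤ 1))
    refine (c1.add c2).congr_left fun x => ?_
    ring
  have a2 := (b1.mul (e2_exp hU h0 h1 w)).congr_right
    (g₂ := fun x : ℝ × ℝ => x.1 ^ 4) (fun x => by ring)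
  have a2' := a2.trans_isLittleO (pow_little (by norm_num : 3 < 4))
  have a3 := (mono (-(S h i * h i * w ^ 4 * (1 - ε) * ε)) 1 4).trans_isLittleO
    (pow_little (by norm_num : 3 < 4))
  have a4 := (mono (-(2 * S h i * h i * w ^ 4 * (1 - ε) ^ 2)) 2 4).trans_isLittleO
    (pow_little (by norm_num : 3 < 4))
  refine (((a1.add a2').add a3).add a4).congr_left fun x => ?_
  have e : S h i * f i ^ 2 / h i = S h i * h i * w ^ 2 := by
    rw [hw]
    have := (hh i).ne'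
    field_simp
  rw [e]
  ring

end QEX_

open RUP_ QEX_ in
theorem stmt_QEX (hUEX : Stmt_UEX) : Stmt_QEX := by
  intro ι _ v S H δ ε h f hc
  have hε := hc.epos
  have hε2 : ε < 1 / 2 := by linarith [hc.small, hc.dpos]
  have h0 : 0 < 1 - ε := by linarith
  have h1 : 1 - ε < 1 := by linarith
  have hh := hc.adm.hpos
  have t1 : ∀ᶠ x : ℝ × ℝ in fl, Pos (hp (1 - ε) h f x.1 x.2) :=
    (hp_tend hUEX h0 h1 h f hh).eventually (ev_pos h hh)
  -- the volume
  have v1 : (fun x : ℝ × ℝ => v (hp (1 - ε) h f x.1 x.2) - 1) =O[fl] (fun x => x.1 ^ 2) := by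
    have a1 := (v_exp hUEX hc).isBigO
    have a2 := mono (-(3 * ε / 2)) 1 2
    refine (a1.add a2).congr_left fun x => ?_
    ring
  have v2 : Tendsto (fun x : ℝ × ℝ => v (hp (1 - ε) h f x.1 x.2)) fl (𝓝 1) := by
    have a1 : (fun x : ℝ × ℝ => v (hp (1 - ε) h f x.1 x.2) - 1) =o[fl] (fun _ => (1 : ℝ)) := by
      refine v1.trans_isLittleO ?_
      have := pow_little (by norm_num : 0 < 2)
      simpa using this
    have a2 := ((isLittleO_one_iff ℝ).1 a1).add_const 1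
    simpa using a2
  constructor
  · intro η hη
    have q1 : (fun x : ℝ × ℝ => ∑ i, (S (hp (1 - ε) h f x.1 x.2) i * hp (1 - ε) h f x.1 x.2 i *
        ee (1 - ε) (x.1 * (f i / h i)) x.2 ^ 2 - (x.1 ^ 2 * (S h i * f i ^ 2 / h i) -
        x.1 ^ 3 * (ε + x.2 * (1 - ε)) * (S h i * h i * (f i / h i) ^ 3)))) =o[fl]
        (fun x => x.1 ^ 3) := IsLittleO.fun_sum fun i _ => q_exp hUEX hc i
    have q2 : (fun x : ℝ × ℝ => ∑ i, (S (hp (1 - ε) h f x.1 x.2) i * hp (1 - ε) h f x.1 x.2 i *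
        ee (1 - ε) (x.1 * (f i / h i)) x.2 - x.1 * (S h i * f i))) =O[fl] (fun x => x.1 ^ 2) :=
      IsBigO.fun_sum fun i _ => sh_big hUEX hc i
    have q3 : (fun x : ℝ × ℝ => ∑ i, S (hp (1 - ε) h f x.1 x.2) i * hp (1 - ε) h f x.1 x.2 i *
        ee (1 - ε) (x.1 * (f i / h i)) x.2) =O[fl] (fun x => x.1 ^ 2) := by
      refine q2.congr_left fun x => ?_
      rw [Finset.sum_sub_distrib, ← Finset.mul_sum, hc.adm.mean, mul_zero, sub_zero]
    have q4 : (fun x : ℝ × ℝ => (3 * v (hp (1 - ε) h f x.1 x.2))⁻¹) =O[fl] (fun x => x.1 ^ 0) := by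
      have a1 : Tendsto (fun x : ℝ × ℝ => (3 * v (hp (1 - ε) h f x.1 x.2))⁻¹) fl
          (𝓝 (3 * 1)⁻¹) := (v2.const_mul 3).inv₀ (by norm_num)
      have a2 := a1.isBigO_one ℝ
      simpa using a2
    have q5 := ((q3.pow 2).mul q4).congr_right
      (g₂ := fun x : ℝ × ℝ => x.1 ^ 4) (fun x => by ring)
    have q6 := q5.trans_isLittleO (pow_little (by norm_num : 3 < 4))
    have q7 := (q1.sub q6).def hη
    have main : ∀ᶠ x : ℝ × ℝ in fl, |Q v S (hp (1 - ε) h f x.1 x.2) (fp (1 - ε) h f x.1 x.2) -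
        (3 * x.1 ^ 2 - 3 * (ε + x.2 * (1 - ε)) * mo S h f 3 * x.1 ^ 3)| ≤ η * |x.1| ^ 3 := by
      filter_upwards [q7, t1] with x h7 p1
      rw [Real.norm_eq_abs, Real.norm_eq_abs, abs_pow] at h7
      refine le_of_eq_of_le ?_ h7
      congr 1
      have m1 : ∑ i, S (hp (1 - ε) h f x.1 x.2) i * fp (1 - ε) h f x.1 x.2 i ^ 2 /
          hp (1 - ε) h f x.1 x.2 i = ∑ i, S (hp (1 - ε) h f x.1 x.2) i *
          hp (1 - ε) h f x.1 x.2 i * ee (1 - ε) (x.1 * (f i / h i)) x.2 ^ 2 := by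
        refine Finset.sum_congr rfl fun i _ => ?_
        have := (p1 i).ne'
        unfold fp
        field_simp
      have m2 : ∑ i, S (hp (1 - ε) h f x.1 x.2) i * fp (1 - ε) h f x.1 x.2 i =
          ∑ i, S (hp (1 - ε) h f x.1 x.2) i * hp (1 - ε) h f x.1 x.2 i *
          ee (1 - ε) (x.1 * (f i / h i)) x.2 := by
        refine Finset.sum_congr rfl fun i _ => ?_
        unfold fp
        ring
      unfold Q
      rw [m1, m2, Finset.sum_sub_distrib, Finset.sum_sub_distrib, ← Finset.mul_sum,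
        ← Finset.mul_sum, hc.adm.var]
      unfold mo
      ring
    filter_upwards [eventually_prod_principal_iff.1 main] with t ht s hs
    exact ht s hs
  · have r1 : (fun y : ℝ => y ^ ((1 - ε) / 3 - 1) - 1) =O[𝓝 1] (fun y => y - 1) := by
      have a1 := (Real.hasDerivAt_rpow_const (p := (1 - ε) / 3 - 1) (Or.inl one_ne_zero)).isBigO_sub
      simpa using a1
    have r2 := (r1.comp_tendsto v2).trans v1
    obtain ⟨C, hC⟩ := r2.bound
    refine ⟨C, ?_⟩
    have main : ∀ᶠ x : ℝ × ℝ in fl,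
        |v (hp (1 - ε) h f x.1 x.2) ^ ((1 - ε) / 3 - 1) - 1| ≤ C * x.1 ^ 2 := by
      filter_upwards [hC] with x hx
      rw [Real.norm_eq_abs, Real.norm_eq_abs, abs_of_nonneg (sq_nonneg x.1)] at hx
      exact hx
    filter_upwards [eventually_prod_principal_iff.1 main] with t ht s hs
    exact ht s hs

end Pool.T3
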