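import Pool.Agent.Work.MP_b5407d_t3.Interface

/-!
# Block RUP (helper84)

Upper bound for the increase of the penalty along the path, and the uniform expansions used by
RUP and QEX.
-/

set_option autoImplicit false

open MeasureTheory Set Filter Topology Asymptotics

namespace Pool.T3

namespace RUP_

/-- uniform filter -/
def fl : Filter (ℝ × ℝ) := 𝓝 (0 : ℝ) ×ˢ 𝓟 (Icc (0 : ℝ) 1)

theorem ev_s : ∀ᶠ x : ℝ × ℝ in fl, x.2 ∈ Icc (0 : ℝ) 1 := by
  unfold fl
  rw [eventually_prod_principal_iff]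
  exact Eventually.of_forall fun _ _ h => h

theorem tend_t : Tendsto (fun x : ℝ × ℝ => x.1) fl (𝓝 0) := tendsto_fst

theorem s_bdd : (fun x : ℝ × ℝ => x.2) =O[fl] (fun _ => (1 : ℝ)) := by
  refine IsBigO.of_bound 1 ?_
  filter_upwards [ev_s] with x hx
  rw [Real.norm_eq_abs, abs_of_nonneg hx.1, norm_one, one_mul]
  exact hx.2

theorem t_little : (fun x : ℝ × ℝ => x.1) =o[fl] (fun _ => (1 : ℝ)) :=
  (isLittleO_one_iff ℝ).2 tend_t

theorem t_big : (fun x : ℝ × ℝ => x.1) =O[fl] (fun _ => (1 : ℝ)) := t_little.isBigO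

theorem st_little : (fun x : ℝ × ℝ => x.2 * x.1) =o[fl] (fun _ => (1 : ℝ)) := by
  have := s_bdd.mul_isLittleO t_little
  simpa using this

theorem tend_st : Tendsto (fun x : ℝ × ℝ => x.2 * x.1) fl (𝓝 0) :=
  (isLittleO_one_iff ℝ).1 st_little

theorem pow_big {m n : ℕ} (h : n ≤ m) :
    (fun x : ℝ × ℝ => x.1 ^ m) =O[fl] (fun x => x.1 ^ n) := by
  obtain ⟨k, rfl⟩ := Nat.exists_eq_add_of_le h
  have h1 : (fun x : ℝ × ℝ => x.1 ^ k) =O[fl] (fun _ => (1 : ℝ)) := by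
    have := t_big.pow k
    simpa using this
  have h2 := (isBigO_refl (fun x : ℝ × ℝ => x.1 ^ n) fl).mul h1
  simpa [pow_add] using h2

theorem pow_little {m n : ℕ} (h : n < m) :
    (fun x : ℝ × ℝ => x.1 ^ m) =o[fl] (fun x => x.1 ^ n) := by
  have h1 : (fun x : ℝ × ℝ => x.1 ^ (n + 1)) =o[fl] (fun x => x.1 ^ n) := by
    have h2 := (isBigO_refl (fun x : ℝ × ℝ => x.1 ^ n) fl).mul_isLittleO t_little
    simpa [pow_succ] using h2
  exact (pow_big h).trans_isLittleO h1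

theorem fst_eq : (fun x : ℝ × ℝ => x.1) = fun x => x.1 ^ 1 := by
  funext x
  rw [pow_one]

/-- bounded coefficients -/
theorem cst (c : ℝ) : (fun _ : ℝ × ℝ => c) =O[fl] (fun _ => (1 : ℝ)) :=
  isBigO_const_const c one_ne_zero fl

theorem zexp (hU : Stmt_UEX) {p : ℝ} (h0 : 0 < p) (h1 : p < 1) (w : ℝ) :
    (fun x : ℝ × ℝ => zz p (x.1 * w) x.2 - (1 + x.2 * (x.1 * w) -
      (1 - p) / 2 * x.2 * (1 - x.2) * (x.1 * w) ^ 2)) =O[fl] (fun x => x.1 ^ 3) := by
  obtain ⟨C, x0, hC, hx0, -, hU⟩ := hU p h0 h1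
  have htw : Tendsto (fun x : ℝ × ℝ => |x.1 * w|) fl (𝓝 0) := by
    have := (tend_t.mul_const w).abs
    simpa using this
  refine IsBigO.of_bound (C * |w| ^ 3) ?_
  filter_upwards [ev_s, htw.eventually (eventually_le_nhds hx0)] with x hx hx2
  have := (hU (x.1 * w) hx2 x.2 hx).2.2.1
  rw [Real.norm_eq_abs, Real.norm_eq_abs, abs_pow]
  refine this.trans (le_of_eq ?_)
  rw [abs_mul, mul_pow]
  ring

theorem eexp (hU : Stmt_UEX) {p : ℝ} (h0 : 0 < p) (h1 : p < 1) (w : ℝ) :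
    (fun x : ℝ × ℝ => ee p (x.1 * w) x.2 - (x.1 * w -
      ((1 - p) / 2 + x.2 * p) * (x.1 * w) ^ 2)) =O[fl] (fun x => x.1 ^ 3) := by
  obtain ⟨C, x0, hC, hx0, -, hU⟩ := hU p h0 h1
  have htw : Tendsto (fun x : ℝ × ℝ => |x.1 * w|) fl (𝓝 0) := by
    have := (tend_t.mul_const w).abs
    simpa using this
  refine IsBigO.of_bound (C * |w| ^ 3) ?_
  filter_upwards [ev_s, htw.eventually (eventually_le_nhds hx0)] with x hx hx2
  have := (hU (x.1 * w) hx2 x.2 hx).2.2.2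
  rw [Real.norm_eq_abs, Real.norm_eq_abs, abs_pow]
  refine this.trans (le_of_eq ?_)
  rw [abs_mul, mul_pow]
  ring

theorem zle (hU : Stmt_UEX) {p : ℝ} (h0 : 0 < p) (h1 : p < 1) (w : ℝ) :
    ∀ᶠ x : ℝ × ℝ in fl, zz p (x.1 * w) x.2 ≤ 1 + x.2 * (x.1 * w) := by
  obtain ⟨C, x0, hC, hx0, -, hU⟩ := hU p h0 h1
  have htw : Tendsto (fun x : ℝ × ℝ => |x.1 * w|) fl (𝓝 0) := by
    have := (tend_t.mul_const w).abs
    simpa using this
  filter_upwards [ev_s, htw.eventually (eventually_le_nhds hx0)] with x hx hx2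
  exact (hU (x.1 * w) hx2 x.2 hx).2.1

/-- polynomial expressions `c * s^a * t^b` -/
theorem mono (c : ℝ) (a b : ℕ) :
    (fun x : ℝ × ℝ => c * x.2 ^ a * x.1 ^ b) =O[fl] (fun x => x.1 ^ b) := by
  have h1 : (fun x : ℝ × ℝ => c * x.2 ^ a) =O[fl] (fun _ => (1 : ℝ)) := by
    have := (cst c).mul (s_bdd.pow a)
    simpa using this
  have := h1.mul (isBigO_refl (fun x : ℝ × ℝ => x.1 ^ b) fl)
  simpa using this

variable {ι : Type}

theorem hp_exp (hU : Stmt_UEX) {p : ℝ} (h0 : 0 < p) (h1 : p < 1) (h f : ι → ℝ) (i : ι)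
    (hi : 0 < h i) :
    (fun x : ℝ × ℝ => hp p h f x.1 x.2 i - h i - (x.2 * x.1 * f i -
      (1 - p) / 2 * x.2 * (1 - x.2) * x.1 ^ 2 * (h i * (f i / h i) ^ 2))) =O[fl]
      (fun x => x.1 ^ 3) := by
  refine ((zexp hU h0 h1 (f i / h i)).const_mul_left (h i)).congr_left fun x => ?_
  unfold hp
  field_simp
  ring

theorem hp_exp1 (hU : Stmt_UEX) {p : ℝ} (h0 : 0 < p) (h1 : p < 1) (h f : ι → ℝ) (i : ι)
    (hi : 0 < h i) :
    (fun x : ℝ × ℝ => hp p h f x.1 x.2 i - h i - x.2 * x.1 * f i) =O[fl]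
      (fun x => x.1 ^ 2) := by
  have e1 := (hp_exp hU h0 h1 h f i hi).trans (pow_big (by norm_num : 2 ≤ 3))
  have e2 := mono (-((1 - p) / 2 * (h i * (f i / h i) ^ 2))) 1 2
  have e3 := mono ((1 - p) / 2 * (h i * (f i / h i) ^ 2)) 2 2
  refine ((e1.add e2).add e3).congr_left fun x => ?_
  ring

theorem hp_exp0 (hU : Stmt_UEX) {p : ℝ} (h0 : 0 < p) (h1 : p < 1) (h f : ι → ℝ) (i : ι)
    (hi : 0 < h i) :
    (fun x : ℝ × ℝ => hp p h f x.1 x.2 i - h i) =O[fl] (fun x => x.1 ^ 1) := by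
  have e1 := (hp_exp1 hU h0 h1 h f i hi).trans (pow_big (by norm_num : 1 ≤ 2))
  have e2 := mono (f i) 1 1
  refine (e1.add e2).congr_left fun x => ?_
  ring

variable [Fintype ι]

theorem hp_sub (hU : Stmt_UEX) {p : ℝ} (h0 : 0 < p) (h1 : p < 1) (h f : ι → ℝ) (hh : Pos h) :
    (fun x : ℝ × ℝ => hp p h f x.1 x.2 - h) =O[fl] (fun x => x.1 ^ 1) :=
  isBigO_pi.2 fun i => hp_exp0 hU h0 h1 h f i (hh i)

theorem hp_tend (hU : Stmt_UEX) {p : ℝ} (h0 : 0 < p) (h1 : p < 1) (h f : ι → ℝ) (hh : Pos h) :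
    Tendsto (fun x : ℝ × ℝ => hp p h f x.1 x.2) fl (𝓝 h) := by
  have e1 : (fun x : ℝ × ℝ => hp p h f x.1 x.2 - h) =o[fl] (fun _ => (1 : ℝ)) := by
    refine (hp_sub hU h0 h1 h f hh).trans_isLittleO ?_
    simpa using t_little
  have e2 := (isLittleO_one_iff ℝ).1 e1
  simpa using e2.add_const h

theorem ev_pos (h : ι → ℝ) (hh : Pos h) : ∀ᶠ y in 𝓝 h, Pos y := by
  have : ∀ i, ∀ᶠ y in 𝓝 h, 0 < y i := fun i =>
    (continuous_apply i).continuousAt.eventually (lt_mem_nhds (hh i))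
  exact eventually_all.2 this

theorem lin_apply (a x : ι → ℝ) : lin a x = ∑ i, a i * x i := by
  simp [lin]

theorem lin_norm (a : ι → ℝ) : ‖lin a‖ ≤ ∑ i, |a i| := by
  refine ContinuousLinearMap.opNorm_le_bound _ (Finset.sum_nonneg fun i _ => abs_nonneg _) ?_
  intro x
  rw [lin_apply, Real.norm_eq_abs, Finset.sum_mul]
  refine (Finset.abs_sum_le_sum_abs _ _).trans (Finset.sum_le_sum fun i _ => ?_)
  rw [abs_mul]
  exact mul_le_mul_of_nonneg_left (norm_le_pi_norm x i) (abs_nonneg _)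

variable {v : (ι → ℝ) → ℝ} {S : (ι → ℝ) → ι → ℝ} {H : (ι → ℝ) → ι → ι → ℝ}

/-- first order expansion of `S` along the path -/
theorem S_exp (hU : Stmt_UEX) {p : ℝ} (h0 : 0 < p) (h1 : p < 1) (hc : Calc v S H) (h f : ι → ℝ)
    (hh : Pos h) (i : ι) :
    (fun x : ℝ × ℝ => S (hp p h f x.1 x.2) i - S h i - x.2 * x.1 * ∑ j, H h i j * f j) =o[fl]
      (fun x => x.1 ^ 1) := by
  have e1 := ((hc.dS h hh i).isLittleO.comp_tendsto (hp_tend hU h0 h1 h f hh)).trans_isBigO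
    (hp_sub hU h0 h1 h f hh)
  have e2 : (fun x : ℝ × ℝ => ∑ j, H h i j * (hp p h f x.1 x.2 j - h j - x.2 * x.1 * f j)) =O[fl]
      (fun x => x.1 ^ 2) :=
    IsBigO.fun_sum fun j _ => (hp_exp1 hU h0 h1 h f j (hh j)).const_mul_left _
  refine (e1.add (e2.trans_isLittleO (pow_little (by norm_num : 1 < 2)))).congr_left fun x => ?_
  simp only [Function.comp_apply, lin_apply, Pi.sub_apply, mul_sub, Finset.sum_sub_distrib,
    Finset.mul_sum]
  have : ∑ j, H h i j * (x.2 * x.1 * f j) = ∑ j, x.2 * x.1 * (H h i j * f j) :=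
    Finset.sum_congr rfl fun j _ => by ring
  rw [this]
  ring

/-- second order Taylor expansion of `v` -/
theorem tay2 (hc : Calc v S H) (h : ι → ℝ) (hh : Pos h) :
    (fun y => v y - v h - (∑ i, S h i * (y i - h i)) -
      1 / 2 * ∑ i, ∑ j, H h i j * (y i - h i) * (y j - h j)) =o[𝓝 h] (fun y => ‖y - h‖ ^ 2) := by
  set φ : (ι → ℝ) → ℝ := fun y => v y - v h - (∑ i, S h i * (y i - h i)) -
      1 / 2 * ∑ i, ∑ j, H h i j * (y i - h i) * (y j - h j) with hφ
  have hd : ∀ y, Pos y → HasFDerivAt φ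
      (lin fun i => S y i - S h i - ∑ j, H h i j * (y j - h j)) y := by
    intro y hy
    have a1 := hc.dv y hy
    have pr : ∀ i : ι, HasFDerivAt (fun y : ι → ℝ => y i - h i)
        (ContinuousLinearMap.proj i : (ι → ℝ) →L[ℝ] ℝ) y := fun i =>
      (hasFDerivAt_apply i y).sub_const _
    have a2 : HasFDerivAt (fun y : ι → ℝ => ∑ i, S h i * (y i - h i))
        (∑ i, S h i • (ContinuousLinearMap.proj i : (ι → ℝ) →L[ℝ] ℝ)) y :=
      HasFDerivAt.fun_sum fun i _ => (pr i).const_mul (S h i)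
    have a3 : HasFDerivAt (fun y : ι → ℝ => ∑ i, ∑ j, H h i j * (y i - h i) * (y j - h j))
        (∑ i, ∑ j, ((H h i j * (y i - h i)) • (ContinuousLinearMap.proj j : (ι → ℝ) →L[ℝ] ℝ) +
          (y j - h j) • (H h i j • (ContinuousLinearMap.proj i : (ι → ℝ) →L[ℝ] ℝ)))) y :=
      HasFDerivAt.fun_sum fun i _ => HasFDerivAt.fun_sum fun j _ =>
        ((pr i).const_mul (H h i j)).mul (pr j)
    have a4 := ((a1.sub_const (v h)).sub a2).sub (a3.const_mul (1 / 2))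
    refine a4.congr_fderiv ?_
    ext z
    simp only [sub_apply, smul_apply, sum_apply, add_apply, ContinuousLinearMap.proj_apply,
      lin_apply, smul_eq_mul, Finset.sum_add_distrib]
    have s1 : ∑ i, ∑ j, H h i j * (y i - h i) * z j = ∑ i, ∑ j, H h i j * (y j - h j) * z i := by
      rw [Finset.sum_comm]
      refine Finset.sum_congr rfl fun i _ => Finset.sum_congr rfl fun j _ => ?_
      rw [hc.Hs h hh j i]
    have s2 : ∑ i, ∑ j, (y j - h j) * (H h i j * z i) =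
        ∑ i, ∑ j, H h i j * (y j - h j) * z i :=
      Finset.sum_congr rfl fun i _ => Finset.sum_congr rfl fun j _ => by ring
    rw [s1, s2]
    simp only [sub_mul, Finset.sum_sub_distrib, Finset.sum_mul]
    ring
  have h00 : φ h = 0 := by simp [hφ]
  refine isLittleO_iff.2 fun c hc0 => ?_
  have hcard : (0 : ℝ) < Fintype.card ι + 1 := by positivity
  have b1 : ∀ i, ∀ᶠ y in 𝓝 h, |S y i - S h i - ∑ j, H h i j * (y j - h j)| ≤
      c / (Fintype.card ι + 1) * ‖y - h‖ := by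
    intro i
    filter_upwards [(hc.dS h hh i).isLittleO.def (div_pos hc0 hcard)] with y hy
    simpa [lin_apply] using hy
  have b2 := (ev_pos h hh).and (eventually_all.2 b1)
  obtain ⟨r, hr, hb⟩ := Metric.eventually_nhds_iff_ball.1 b2
  refine Metric.eventually_nhds_iff_ball.2 ⟨r, hr, fun y hy => ?_⟩
  have hyr : ‖y - h‖ < r := by rwa [← dist_eq_norm]
  have hsub : Metric.closedBall h ‖y - h‖ ⊆ Metric.ball h r := fun z hz =>
    lt_of_le_of_lt hz hyr
  have key := (convex_closedBall h ‖y - h‖).norm_image_sub_le_of_norm_hasFDerivWithin_le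
    (f := φ) (f' := fun y => lin fun i => S y i - S h i - ∑ j, H h i j * (y j - h j))
    (C := c * ‖y - h‖) (x := h) (y := y)
    (fun z hz => (hd z (hb z (hsub hz)).1).hasFDerivWithinAt) (fun z hz => ?_)
    (Metric.mem_closedBall_self (norm_nonneg _)) (by rw [Metric.mem_closedBall, dist_eq_norm])
  · rw [h00, sub_zero] at key
    rw [norm_pow, norm_norm, pow_two, ← mul_assoc]
    exact key
  · refine (lin_norm _).trans ?_
    have hz2 : ‖z - h‖ ≤ ‖y - h‖ := by rw [← dist_eq_norm]; exact hz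
    have : ∑ i, |S z i - S h i - ∑ j, H h i j * (z j - h j)| ≤
        ∑ _i : ι, c / (Fintype.card ι + 1) * ‖y - h‖ :=
      Finset.sum_le_sum fun i _ => ((hb z (hsub hz)).2 i).trans
        (mul_le_mul_of_nonneg_left hz2 (by positivity))
    refine this.trans ?_
    rw [Finset.sum_const, Finset.card_univ, nsmul_eq_mul, ← mul_assoc]
    refine mul_le_mul_of_nonneg_right ?_ (norm_nonneg _)
    rw [mul_div_assoc', div_le_iff₀ hcard]
    nlinarith

/-- expansion of the volume along the path -/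
theorem v_exp (hU : Stmt_UEX) {δ ε : ℝ} {h f : ι → ℝ} (hc : Crit v S H δ ε h f) :
    (fun x : ℝ × ℝ => v (hp (1 - ε) h f x.1 x.2) - (1 - 3 * ε / 2 * x.2 * x.1 ^ 2)) =o[fl]
      (fun x => x.1 ^ 2) := by
  have hε := hc.epos
  have hε2 : ε < 1 / 2 := by linarith [hc.small, hc.dpos]
  have h0 : 0 < 1 - ε := by linarith
  have h1 : 1 - ε < 1 := by linarith
  have hh := hc.adm.hpos
  set P := fun x : ℝ × ℝ => hp (1 - ε) h f x.1 x.2 with hP
  have e1 : (fun x : ℝ × ℝ => v (P x) - v h - (∑ i, S h i * (P x i - h i)) -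
      1 / 2 * ∑ i, ∑ j, H h i j * (P x i - h i) * (P x j - h j)) =o[fl] (fun x => x.1 ^ 2) := by
    refine ((tay2 hc.cal h hh).comp_tendsto (hp_tend hU h0 h1 h f hh)).trans_isBigO ?_
    have := ((hp_sub hU h0 h1 h f hh).norm_left).pow 2
    simpa [Function.comp_def] using this
  have e2 : (fun x : ℝ × ℝ => ∑ i, S h i * (P x i - h i - (x.2 * x.1 * f i -
      (1 - (1 - ε)) / 2 * x.2 * (1 - x.2) * x.1 ^ 2 * (h i * (f i / h i) ^ 2)))) =O[fl]
      (fun x => x.1 ^ 3) :=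
    IsBigO.fun_sum fun i _ => (hp_exp hU h0 h1 h f i (hh i)).const_mul_left _
  have e3 : ∀ i j, (fun x : ℝ × ℝ => (P x i - h i) * (P x j - h j) -
      x.2 ^ 2 * x.1 ^ 2 * f i * f j) =O[fl] (fun x => x.1 ^ 3) := by
    intro i j
    have a1 := (hp_exp1 hU h0 h1 h f i (hh i)).mul (hp_exp0 hU h0 h1 h f j (hh j))
    have a2 := (mono (f i) 1 1).mul (hp_exp1 hU h0 h1 h f j (hh j))
    have a1' := a1.congr_right (g₂ := fun x : ℝ × ℝ => x.1 ^ 3) (fun x => by ring)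
    have a2' := a2.congr_right (g₂ := fun x : ℝ × ℝ => x.1 ^ 3) (fun x => by ring)
    refine (a1'.add a2').congr_left fun x => ?_
    simp only [hP]
    ring
  have e4 : (fun x : ℝ × ℝ => ∑ i, ∑ j, H h i j * ((P x i - h i) * (P x j - h j) -
      x.2 ^ 2 * x.1 ^ 2 * f i * f j)) =O[fl] (fun x => x.1 ^ 3) :=
    IsBigO.fun_sum fun i _ => IsBigO.fun_sum fun j _ => (e3 i j).const_mul_left _
  have e5 := (e1.add (e2.trans_isLittleO (pow_little (by norm_num : 2 < 3)))).add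
    ((e4.const_mul_left (1 / 2)).trans_isLittleO (pow_little (by norm_num : 2 < 3)))
  refine e5.congr_left fun x => ?_
  have m1 : ∑ i, S h i * (P x i - h i - (x.2 * x.1 * f i -
      (1 - (1 - ε)) / 2 * x.2 * (1 - x.2) * x.1 ^ 2 * (h i * (f i / h i) ^ 2))) =
      ∑ i, S h i * (P x i - h i) - x.2 * x.1 * (∑ i, S h i * f i) +
      ε / 2 * x.2 * (1 - x.2) * x.1 ^ 2 * ∑ i, S h i * f i ^ 2 / h i := by
    rw [Finset.mul_sum, Finset.mul_sum, ← Finset.sum_sub_distrib, ← Finset.sum_add_distrib]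
    refine Finset.sum_congr rfl fun i _ => ?_
    have := (hh i).ne'
    field_simp
    ring
  have m2 : ∑ i, ∑ j, H h i j * ((P x i - h i) * (P x j - h j) - x.2 ^ 2 * x.1 ^ 2 * f i * f j) =
      (∑ i, ∑ j, H h i j * (P x i - h i) * (P x j - h j)) +
      x.2 ^ 2 * x.1 ^ 2 * (ε * ∑ i, S h i * f i ^ 2 / h i) := by
    have q : ∀ i, ∑ j, H h i j * ((P x i - h i) * (P x j - h j) - x.2 ^ 2 * x.1 ^ 2 * f i * f j) =
        (∑ j, H h i j * (P x i - h i) * (P x j - h j)) -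
          x.2 ^ 2 * x.1 ^ 2 * (f i * ∑ j, H h i j * f j) := by
      intro i
      rw [Finset.mul_sum, Finset.mul_sum, ← Finset.sum_sub_distrib]
      exact Finset.sum_congr rfl fun j _ => by ring
    rw [Finset.sum_congr rfl fun i _ => q i, Finset.sum_sub_distrib, ← Finset.mul_sum,
      sub_eq_add_neg, ← mul_neg, ← Finset.sum_neg_distrib]
    congr 2
    rw [Finset.mul_sum]
    refine Finset.sum_congr rfl fun i _ => ?_
    rw [hc.eig i]
    ring
  rw [m1, m2, hc.adm.mean, hc.adm.var, hc.adm.vol]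
  ring

theorem S_mono (hc : Calc v S H) {a b : ι → ℝ} (ha : Pos a) (hab : ∀ i, a i ≤ b i) :
    ∑ i, S a i ≤ ∑ i, S b i := by
  have hpos : ∀ τ : ℝ, 0 ≤ τ → Pos (a + τ • (b - a)) := fun τ hτ i => by
    have := mul_nonneg hτ (sub_nonneg.2 (hab i))
    have := ha i
    simp only [Pi.add_apply, Pi.smul_apply, Pi.sub_apply, smul_eq_mul]
    linarith
  have hd : ∀ τ : ℝ, 0 ≤ τ → HasDerivAt (fun τ : ℝ => ∑ i, S (a + τ • (b - a)) i)
      (∑ i, ∑ j, H (a + τ • (b - a)) i j * (b j - a j)) τ := by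
    intro τ hτ
    refine HasDerivAt.fun_sum fun i _ => ?_
    have h1 := hc.dS _ (hpos τ hτ) i
    have h2 : HasDerivAt (fun τ : ℝ => a + τ • (b - a)) (b - a) τ := by
      have := ((hasDerivAt_id τ).smul_const (b - a)).const_add a
      simpa using this
    have h3 := h1.comp_hasDerivAt τ h2
    rw [lin_apply] at h3
    exact h3
  have hm : MonotoneOn (fun τ : ℝ => ∑ i, S (a + τ • (b - a)) i) (Icc (0 : ℝ) 1) := by
    refine monotoneOn_of_deriv_nonneg (convex_Icc 0 1)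
      (fun τ hτ => (hd τ hτ.1).continuousAt.continuousWithinAt)
      (fun τ hτ => ?_) (fun τ hτ => ?_)
    · rw [interior_Icc] at hτ
      exact (hd τ hτ.1.le).differentiableAt.differentiableWithinAt
    · rw [interior_Icc] at hτ
      rw [(hd τ hτ.1.le).deriv, Finset.sum_comm]
      refine Finset.sum_nonneg fun j _ => ?_
      rw [← Finset.sum_mul]
      refine mul_nonneg ?_ (sub_nonneg.2 (hab j))
      rw [Finset.sum_congr rfl fun i _ => hc.Hs _ (hpos τ hτ.1.le) i j]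
      exact hc.Hr _ (hpos τ hτ.1.le) j
  have := hm (left_mem_Icc.2 zero_le_one) (right_mem_Icc.2 zero_le_one) zero_le_one
  simpa using this

theorem neglog {y u : ℝ} (_hu0 : 0 ≤ u) (hu : u ≤ 1 / 2) (hy : 1 - u ≤ y) :
    -Real.log y ≤ u + 2 * u ^ 2 := by
  have hy0 : 0 < 1 - u := by linarith
  have h1 := Real.one_sub_inv_le_log_of_pos (hy0.trans_le hy)
  have h2 : y⁻¹ ≤ (1 - u)⁻¹ := inv_anti₀ hy0 hy
  have h3 : (1 - u)⁻¹ ≤ 1 + u + 2 * u ^ 2 := by
    rw [inv_eq_one_div, div_le_iff₀ hy0]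
    nlinarith [mul_nonneg (sq_nonneg u) (by linarith : (0 : ℝ) ≤ 1 - 2 * u)]
  linarith

end RUP_

open RUP_ in
theorem stmt_RUP (hUEX : Stmt_UEX) : Stmt_RUP := by
  intro ι _ v S H δ ε h f hc η hη
  have hε := hc.epos
  have hε2 : ε < 1 / 2 := by linarith [hc.small, hc.dpos]
  have h0 : 0 < 1 - ε := by linarith
  have h1 : 1 - ε < 1 := by linarith
  have hh := hc.adm.hpos
  have hne : Nonempty ι := by
    by_contra hcon
    rw [not_nonempty_iff] at hcon
    have := hc.adm.var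
    rw [Finset.univ_eq_empty, Finset.sum_empty] at this
    norm_num at this
  obtain ⟨i0⟩ := hne
  have sp : 0 < ∑ i, S h i :=
    Finset.sum_pos (fun i _ => hc.adm.spos i) ⟨i0, Finset.mem_univ _⟩
  have sw : ∑ i, S h i * (f i / h i) ^ 2 ≤ 3 * ∑ i, S h i := by
    rw [← hc.adm.var, Finset.sum_mul]
    refine Finset.sum_le_sum fun i _ => ?_
    have h2 := hc.cal.slb h hh i
    rw [hc.adm.vol] at h2
    have h3 := hh i
    have h4 : S h i * f i ^ 2 / h i * ∑ j, S h j =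
        S h i * (f i / h i) ^ 2 * (h i * ∑ j, S h j) := by
      field_simp
    rw [h4]
    exact le_mul_of_one_le_right (mul_nonneg (hc.adm.spos i).le (sq_nonneg _)) h2
  have t1 : ∀ᶠ x : ℝ × ℝ in fl, Pos (hp (1 - ε) h f x.1 x.2) :=
    (hp_tend hUEX h0 h1 h f hh).eventually (ev_pos h hh)
  have t2 : ∀ᶠ x : ℝ × ℝ in fl, ∀ i, zz (1 - ε) (x.1 * (f i / h i)) x.2 ≤
      1 + x.2 * (x.1 * (f i / h i)) := eventually_all.2 fun i => zle hUEX h0 h1 _
  have t4 : ∀ᶠ x : ℝ × ℝ in fl, ∀ i, S (h + (x.2 * x.1) • f) i ≤ S h i +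
      (x.2 * x.1) * (∑ j, H h i j * f j) +
      (x.2 * x.1) ^ 2 * (∑ j, H h i j * f j) ^ 2 / (4 * S h i) :=
    eventually_all.2 fun i => tend_st.eventually (hc.cal.sqc h hh f i (hc.adm.spos i))
  have t5 := (v_exp hUEX hc).def (half_pos hη)
  have t6 : ∀ᶠ x : ℝ × ℝ in fl, (3 / 2 + η) * x.1 ^ 2 ≤ 1 / 2 := by
    have : Tendsto (fun x : ℝ × ℝ => (3 / 2 + η) * x.1 ^ 2) fl (𝓝 ((3 / 2 + η) * 0 ^ 2)) :=
      (tend_t.pow 2).const_mul _
    rw [zero_pow two_ne_zero, mul_zero] at this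
    exact this.eventually (eventually_le_nhds (by norm_num))
  have t7 : ∀ᶠ x : ℝ × ℝ in fl, 2 * (3 / 2 + η) ^ 2 * x.1 ^ 2 ≤ η / 2 := by
    have : Tendsto (fun x : ℝ × ℝ => 2 * (3 / 2 + η) ^ 2 * x.1 ^ 2) fl
        (𝓝 (2 * (3 / 2 + η) ^ 2 * 0 ^ 2)) := (tend_t.pow 2).const_mul _
    rw [zero_pow two_ne_zero, mul_zero] at this
    exact this.eventually (eventually_le_nhds (by positivity))
  have main : ∀ᶠ x : ℝ × ℝ in fl, R v S (hp (1 - ε) h f x.1 x.2) - R v S h ≤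
        -(3 / 2 * ε * x.2 * aa S h f * x.1) + (33 / 16 * ε + η) * x.1 ^ 2 := by
    filter_upwards [t1, t2, t4, t5, t6, t7, ev_s] with x p1 p2 p4 p5 p6 p7 p8
    obtain ⟨t, s⟩ := x
    simp only at p1 p2 p4 p5 p6 p7 p8 ⊢
    obtain ⟨s0, s1⟩ := p8
    set P := hp (1 - ε) h f t s with hP
    have c1 : ∀ i, P i ≤ (h + (s * t) • f) i := by
      intro i
      have := mul_le_mul_of_nonneg_left (p2 i) (hh i).le
      refine this.trans (le_of_eq ?_)
      have := (hh i).ne'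
      simp only [Pi.add_apply, Pi.smul_apply, smul_eq_mul]
      field_simp
    have c2 := S_mono hc.cal p1 c1
    have c3 : ∑ i, S (h + (s * t) • f) i ≤ (∑ i, S h i) -
        ε * s * t * (∑ i, S h i * (f i / h i)) +
        ε ^ 2 * s ^ 2 * t ^ 2 / 4 * ∑ i, S h i * (f i / h i) ^ 2 := by
      rw [Finset.mul_sum, Finset.mul_sum, ← Finset.sum_sub_distrib, ← Finset.sum_add_distrib]
      refine Finset.sum_le_sum fun i _ => (p4 i).trans (le_of_eq ?_)
      rw [hc.eig i]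
      have := (hc.adm.spos i).ne'
      have := (hh i).ne'
      field_simp
      ring
    have vpos := hc.cal.vp P p1
    have spos : 0 < ∑ i, S P i := by
      have := vpos.trans_le (hc.cal.slb P p1 i0)
      exact (pos_iff_pos_of_mul_pos this).1 (p1 i0)
    have c4 : Real.log (∑ i, S P i) - Real.log (∑ i, S h i) ≤
        -(ε * s * t * aa S h f) + 3 / 4 * ε ^ 2 * s ^ 2 * t ^ 2 := by
      rw [← Real.log_div spos.ne' sp.ne']
      refine (Real.log_le_sub_one_of_pos (div_pos spos sp)).trans ?_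
      rw [sub_le_iff_le_add, div_le_iff₀ sp]
      refine (c2.trans c3).trans ?_
      have c5 : ε ^ 2 * s ^ 2 * t ^ 2 / 4 * ∑ i, S h i * (f i / h i) ^ 2 ≤
          ε ^ 2 * s ^ 2 * t ^ 2 / 4 * (3 * ∑ i, S h i) :=
        mul_le_mul_of_nonneg_left sw (by positivity)
      have c6 : aa S h f * ∑ i, S h i = ∑ i, S h i * (f i / h i) := by
        unfold aa
        rw [div_mul_cancel₀ _ sp.ne']
      rw [← c6]
      refine (add_le_add_right c5 _).trans (le_of_eq ?_)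
      ring
    have c7 : -Real.log (v P) ≤ (3 * ε / 2 * s + η / 2) * t ^ 2 +
        2 * ((3 * ε / 2 * s + η / 2) * t ^ 2) ^ 2 := by
      refine neglog (by positivity) ?_ ?_
      · refine le_trans (mul_le_mul_of_nonneg_right ?_ (sq_nonneg t)) p6
        nlinarith
      · rw [Real.norm_eq_abs, Real.norm_eq_abs, abs_of_nonneg (sq_nonneg t)] at p5
        have := (abs_le.1 p5).1
        nlinarith
    have c8 : 2 * ((3 * ε / 2 * s + η / 2) * t ^ 2) ^ 2 ≤ η / 2 * t ^ 2 := by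
      have d1 : (3 * ε / 2 * s + η / 2) ≤ 3 / 2 + η := by nlinarith
      have d2 : (3 * ε / 2 * s + η / 2) ^ 2 ≤ (3 / 2 + η) ^ 2 :=
        pow_le_pow_left₀ (by positivity) d1 2
      have d3 := mul_le_mul_of_nonneg_right d2 (by positivity : 0 ≤ 2 * t ^ 2 * t ^ 2)
      have d4 := mul_le_mul_of_nonneg_right p7 (sq_nonneg t)
      nlinarith
    have c9 : Real.log (v h) = 0 := by rw [hc.adm.vol, Real.log_one]
    unfold R
    rw [c9]
    have d5 : 9 / 8 * ε ^ 2 * s ^ 2 * t ^ 2 + 3 * ε / 2 * s * t ^ 2 ≤ 33 / 16 * ε * t ^ 2 := by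
      rw [← add_mul]
      refine mul_le_mul_of_nonneg_right ?_ (sq_nonneg t)
      have : s ^ 2 ≤ 1 := pow_le_one₀ s0 s1
      have e1 : ε ^ 2 * s ^ 2 ≤ 1 / 2 * ε := by nlinarith [sq_nonneg ε]
      nlinarith
    linarith
  filter_upwards [eventually_prod_principal_iff.1 main] with t ht s hs
  exact ht s hs

end Pool.T3
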