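import Pool.Agent.Work.MP_b5407d_t3.Interface

/-!
# Block SUP: the local inequality gives superadditivity along `L_p` paths
-/

set_option autoImplicit false

open MeasureTheory Set Filter Topology

namespace Pool.T3

theorem stmt_SUP (hPATH : Stmt_PATH) (hJQ : Stmt_JQ) : Stmt_SUP := by
  intro ι _ v S H hC hloc p hp hp1 a b ha hb s hs
  have hp0 : 0 < p := by linarith
  set y0 : ι → ℝ := fun i => a i ^ p with hy0
  set y1 : ι → ℝ := fun i => b i ^ p - a i ^ p with hy1
  have hpos : ∀ s ∈ Icc (0 : ℝ) 1, ∀ i, 0 < y0 i + s * y1 i := by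
    intro s hs i
    have h1 : 0 < a i ^ p := Real.rpow_pos_of_pos (ha i) p
    have h2 : 0 < b i ^ p := Real.rpow_pos_of_pos (hb i) p
    have h3 : y0 i + s * y1 i = (1 - s) * a i ^ p + s * b i ^ p := by
      simp only [hy0, hy1]
      ring
    rw [h3]
    rcases hs.1.eq_or_lt with h | h
    · rw [← h]
      simpa using h1
    · have h4 : 0 ≤ (1 - s) * a i ^ p := mul_nonneg (by linarith [hs.2]) h1.le
      have h5 : 0 < s * b i ^ p := mul_pos h h2
      linarith
  set hh : ℝ → ι → ℝ := fun s i => (y0 i + s * y1 i) ^ (1 / p) with hhh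
  set ff : ℝ → ι → ℝ := fun s i => (1 / p) * y1 i * (y0 i + s * y1 i) ^ (1 / p - 1) with hff
  have hPos : ∀ s ∈ Icc (0 : ℝ) 1, Pos (hh s) := fun s hs i =>
    Real.rpow_pos_of_pos (hpos s hs i) _
  have hD : ∀ s ∈ Icc (0 : ℝ) 1, HasDerivAt (fun s => v (hh s) ^ (p / 3))
      ((p / 3) * v (hh s) ^ (p / 3 - 1) * ∑ i, S (hh s) i * ff s i) s ∧
    HasDerivAt (fun s => (p / 3) * v (hh s) ^ (p / 3 - 1) * ∑ i, S (hh s) i * ff s i)
      (-((p / 3) * v (hh s) ^ (p / 3 - 1) *
        (J v S H (hh s) (ff s) - (1 - p) * Q v S (hh s) (ff s)))) s := fun s hs =>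
    hPATH ι v S H hC p hp0 hp1 y0 y1 s (hpos s hs)
  have hint : interior (Icc (0 : ℝ) 1) ⊆ Icc (0 : ℝ) 1 := interior_subset
  have hconc : ConcaveOn ℝ (Icc (0 : ℝ) 1) (fun s => v (hh s) ^ (p / 3)) := by
    refine concaveOn_of_hasDerivWithinAt2_nonpos (convex_Icc 0 1)
      (f' := fun s => (p / 3) * v (hh s) ^ (p / 3 - 1) * ∑ i, S (hh s) i * ff s i)
      (f'' := fun s => -((p / 3) * v (hh s) ^ (p / 3 - 1) *
        (J v S H (hh s) (ff s) - (1 - p) * Q v S (hh s) (ff s))))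
      (fun s hs => (hD s hs).1.continuousAt.continuousWithinAt)
      (fun s hs => (hD s (hint hs)).1.hasDerivWithinAt)
      (fun s hs => (hD s (hint hs)).2.hasDerivWithinAt) ?_
    intro s hs
    have hP := hPos s (hint hs)
    have h1 : 0 < v (hh s) := hC.vp _ hP
    have h2 : 0 ≤ (p / 3) * v (hh s) ^ (p / 3 - 1) :=
      mul_nonneg (by linarith) (Real.rpow_pos_of_pos h1 _).le
    have h3 := hloc _ hP (ff s)
    have h4 : 0 ≤ Q v S (hh s) (ff s) := (hJQ ι v S H hC _ hP).2.2.2.1 (ff s)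
    have h5 : 0 ≤ J v S H (hh s) (ff s) - (1 - p) * Q v S (hh s) (ff s) := by
      have : (1 - p) * Q v S (hh s) (ff s) ≤ 1 / 2 * Q v S (hh s) (ff s) :=
        mul_le_mul_of_nonneg_right (by linarith) h4
      linarith
    have h6 := mul_nonneg h2 h5
    show -((p / 3) * v (hh s) ^ (p / 3 - 1) *
        (J v S H (hh s) (ff s) - (1 - p) * Q v S (hh s) (ff s))) ≤ 0
    linarith
  have hk := hconc.2 (left_mem_Icc.mpr (zero_le_one' ℝ)) (right_mem_Icc.mpr (zero_le_one' ℝ))
    (sub_nonneg.mpr hs.2) hs.1 (by ring)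
  have hinv : ∀ x : ℝ, 0 < x → (x ^ p) ^ (1 / p) = x := by
    intro x hx
    rw [← Real.rpow_mul hx.le, mul_one_div_cancel hp0.ne', Real.rpow_one]
  have e0 : hh 0 = a := by
    funext i
    simp only [hhh, hy0, zero_mul, add_zero]
    exact hinv _ (ha i)
  have e1 : hh 1 = b := by
    funext i
    simp only [hhh, hy0, hy1, one_mul, add_sub_cancel]
    exact hinv _ (hb i)
  have e2 : hh s = fun i => ((1 - s) * a i ^ p + s * b i ^ p) ^ (1 / p) := by
    funext i
    simp only [hhh, hy0, hy1]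
    congr 1
    ring
  simp only [smul_eq_mul, mul_zero, mul_one, zero_add, e0, e1] at hk
  rw [e2] at hk
  exact hk

end Pool.T3
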