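import Pool.Agent.Work.MP_b5407d_t3.Interface

/-!
`TAY`: Taylor polynomials of degree four.
-/

set_option autoImplicit false

open MeasureTheory Set Filter Topology

namespace Pool.T3

namespace TAY_

/-- Integration of a little-o bound. -/
theorem step {n : ℕ} {g g' : ℝ → ℝ} (h0 : g 0 = 0) (hd : ∀ᶠ x : ℝ in 𝓝 0, HasDerivAt g (g' x) x)
    (hg : ∀ η : ℝ, 0 < η → ∀ᶠ x : ℝ in 𝓝 0, |g' x| ≤ η * |x| ^ n) :
    ∀ η : ℝ, 0 < η → ∀ᶠ x : ℝ in 𝓝 0, |g x| ≤ η * |x| ^ (n + 1) := by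
  intro η hη
  obtain ⟨δ, hδ, hb⟩ := Metric.eventually_nhds_iff_ball.1 (hd.and (hg η hη))
  refine Metric.eventually_nhds_iff_ball.2 ⟨δ, hδ, fun x hx => ?_⟩
  have hsub : ∀ y ∈ Metric.closedBall (0 : ℝ) |x|, y ∈ Metric.ball (0 : ℝ) δ := by
    intro y hy
    have h1 : |y| ≤ |x| := by simpa [Real.dist_eq] using hy
    have h2 : |x| < δ := by simpa [Real.dist_eq] using hx
    have : |y| < δ := lt_of_le_of_lt h1 h2
    simpa [Real.dist_eq] using this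
  have key := Convex.norm_image_sub_le_of_norm_hasDerivWithin_le (f := g) (f' := g')
    (s := Metric.closedBall (0 : ℝ) |x|) (x := 0) (y := x) (C := η * |x| ^ n)
    (fun y hy => (hb y (hsub y hy)).1.hasDerivWithinAt)
    (fun y hy => by
      have h1 : |y| ≤ |x| := by simpa [Real.dist_eq] using hy
      have h2 := (hb y (hsub y hy)).2
      rw [Real.norm_eq_abs]
      refine h2.trans ?_
      exact mul_le_mul_of_nonneg_left (pow_le_pow_left₀ (abs_nonneg _) h1 n) hη.le)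
    (convex_closedBall _ _) (by simp) (by simp)
  rw [h0, sub_zero, sub_zero, Real.norm_eq_abs, Real.norm_eq_abs] at key
  refine key.trans (le_of_eq ?_)
  rw [pow_succ, mul_assoc]

/-- Induction step for the binomial expansion. -/
theorem stepP {n : ℕ} {p : ℝ} {P Q : ℝ → ℝ} (hP0 : P 0 = 1)
    (hP : ∀ x, HasDerivAt P (p * Q x) x)
    (hQ : ∀ η : ℝ, 0 < η → ∀ᶠ x : ℝ in 𝓝 0, |(1 + x) ^ (p - 1) - Q x| ≤ η * |x| ^ n) :
    ∀ η : ℝ, 0 < η → ∀ᶠ x : ℝ in 𝓝 0, |(1 + x) ^ p - P x| ≤ η * |x| ^ (n + 1) := by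
  refine step (g := fun x => (1 + x) ^ p - P x) (g' := fun x => p * ((1 + x) ^ (p - 1) - Q x))
    ?_ ?_ ?_
  · simp [hP0]
  · have h1 : ∀ᶠ x : ℝ in 𝓝 0, 0 < 1 + x := by
      have : Tendsto (fun x : ℝ => 1 + x) (𝓝 0) (𝓝 (1 + 0)) :=
        (continuous_const.add continuous_id).tendsto 0
      exact this.eventually (lt_mem_nhds (by norm_num))
    filter_upwards [h1] with x hx
    have h2 : HasDerivAt (fun x : ℝ => 1 + x) 1 x := by
      simpa using (hasDerivAt_id x).const_add 1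
    have h3 := h2.rpow_const (p := p) (Or.inl hx.ne')
    refine (h3.sub (hP x)).congr_deriv ?_
    ring
  · intro η hη
    have hη' : 0 < η / (|p| + 1) := by positivity
    filter_upwards [hQ _ hη'] with x hx
    rw [abs_mul]
    have h1 : |p| * |(1 + x) ^ (p - 1) - Q x| ≤ (|p| + 1) * (η / (|p| + 1) * |x| ^ n) :=
      mul_le_mul (by linarith) hx (abs_nonneg _) (by positivity)
    refine h1.trans (le_of_eq ?_)
    field_simp

theorem e0 (p : ℝ) : ∀ η : ℝ, 0 < η → ∀ᶠ x : ℝ in 𝓝 0, |(1 + x) ^ p - 1| ≤ η * |x| ^ 0 := by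
  intro η hη
  have hc : ContinuousAt (fun x : ℝ => (1 + x) ^ p) 0 := by
    refine ContinuousAt.rpow_const (continuous_const.add continuous_id).continuousAt (Or.inl ?_)
    norm_num
  have h1 : Tendsto (fun x : ℝ => (1 + x) ^ p) (𝓝 0) (𝓝 1) := by
    have := hc.tendsto
    simpa using this
  have h2 := (Metric.tendsto_nhds.1 h1) η hη
  filter_upwards [h2] with x hx
  rw [pow_zero, mul_one]
  exact (le_of_lt (by simpa [Real.dist_eq] using hx))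

theorem e1 (p : ℝ) : ∀ η : ℝ, 0 < η → ∀ᶠ x : ℝ in 𝓝 0, |(1 + x) ^ p - (1 + p * x)| ≤ η * |x| ^ 1 := by
  refine stepP (n := 0) (P := fun x => 1 + p * x) (Q := fun _ => 1) (by simp) (fun x => ?_)
    (e0 (p - 1))
  exact ((hasDerivAt_id x).const_mul p).const_add 1

theorem e2 (p : ℝ) : ∀ η : ℝ, 0 < η → ∀ᶠ x : ℝ in 𝓝 0,
    |(1 + x) ^ p - (1 + p * x + p * (p - 1) / 2 * x ^ 2)| ≤ η * |x| ^ 2 := by
  refine stepP (n := 1) (P := fun x => 1 + p * x + p * (p - 1) / 2 * x ^ 2)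
    (Q := fun x => 1 + (p - 1) * x) (by simp) (fun x => ?_) (e1 (p - 1))
  have h := (((hasDerivAt_id x).const_mul p).const_add 1).add
    ((hasDerivAt_pow 2 x).const_mul (p * (p - 1) / 2))
  refine h.congr_deriv ?_
  norm_num
  ring

theorem e3 (p : ℝ) : ∀ η : ℝ, 0 < η → ∀ᶠ x : ℝ in 𝓝 0,
    |(1 + x) ^ p - (1 + p * x + p * (p - 1) / 2 * x ^ 2 + p * (p - 1) * (p - 2) / 6 * x ^ 3)|
      ≤ η * |x| ^ 3 := by
  refine stepP (n := 2)
    (P := fun x => 1 + p * x + p * (p - 1) / 2 * x ^ 2 + p * (p - 1) * (p - 2) / 6 * x ^ 3)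
    (Q := fun x => 1 + (p - 1) * x + (p - 1) * (p - 1 - 1) / 2 * x ^ 2)
    (by simp) (fun x => ?_) (e2 (p - 1))
  have h := ((((hasDerivAt_id x).const_mul p).const_add 1).add
    ((hasDerivAt_pow 2 x).const_mul (p * (p - 1) / 2))).add
    ((hasDerivAt_pow 3 x).const_mul (p * (p - 1) * (p - 2) / 6))
  refine h.congr_deriv ?_
  norm_num
  ring

theorem e4 (p : ℝ) : ∀ η : ℝ, 0 < η → ∀ᶠ x : ℝ in 𝓝 0,
    |(1 + x) ^ p - (1 + p * x + p * (p - 1) / 2 * x ^ 2 + p * (p - 1) * (p - 2) / 6 * x ^ 3 +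
      p * (p - 1) * (p - 2) * (p - 3) / 24 * x ^ 4)| ≤ η * |x| ^ 4 := by
  refine stepP (n := 3)
    (P := fun x => 1 + p * x + p * (p - 1) / 2 * x ^ 2 + p * (p - 1) * (p - 2) / 6 * x ^ 3 +
      p * (p - 1) * (p - 2) * (p - 3) / 24 * x ^ 4)
    (Q := fun x => 1 + (p - 1) * x + (p - 1) * (p - 1 - 1) / 2 * x ^ 2 +
      (p - 1) * (p - 1 - 1) * (p - 1 - 2) / 6 * x ^ 3)
    (by simp) (fun x => ?_) (e3 (p - 1))
  have h := (((((hasDerivAt_id x).const_mul p).const_add 1).add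
    ((hasDerivAt_pow 2 x).const_mul (p * (p - 1) / 2))).add
    ((hasDerivAt_pow 3 x).const_mul (p * (p - 1) * (p - 2) / 6))).add
    ((hasDerivAt_pow 4 x).const_mul (p * (p - 1) * (p - 2) * (p - 3) / 24))
  refine h.congr_deriv ?_
  norm_num
  ring

theorem part1 (p w : ℝ) : ∀ η : ℝ, 0 < η → ∀ᶠ t : ℝ in 𝓝 0,
    |(1 + t * w) ^ p - (1 + p * w * t + p * (p - 1) / 2 * w ^ 2 * t ^ 2 +
      p * (p - 1) * (p - 2) / 6 * w ^ 3 * t ^ 3 +
      p * (p - 1) * (p - 2) * (p - 3) / 24 * w ^ 4 * t ^ 4)| ≤ η * t ^ 4 := by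
  intro η hη
  have hη' : 0 < η / (w ^ 4 + 1) := by positivity
  have ht : Tendsto (fun t : ℝ => t * w) (𝓝 0) (𝓝 0) := by
    have : Tendsto (fun t : ℝ => t * w) (𝓝 0) (𝓝 (0 * w)) :=
      (continuous_id.mul continuous_const).tendsto 0
    simpa using this
  filter_upwards [ht.eventually (e4 p _ hη')] with t h
  have e : (1 + p * w * t + p * (p - 1) / 2 * w ^ 2 * t ^ 2 +
      p * (p - 1) * (p - 2) / 6 * w ^ 3 * t ^ 3 +
      p * (p - 1) * (p - 2) * (p - 3) / 24 * w ^ 4 * t ^ 4) =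
      (1 + p * (t * w) + p * (p - 1) / 2 * (t * w) ^ 2 + p * (p - 1) * (p - 2) / 6 * (t * w) ^ 3 +
      p * (p - 1) * (p - 2) * (p - 3) / 24 * (t * w) ^ 4) := by ring
  rw [e]
  refine h.trans ?_
  have h4 : |t * w| ^ 4 = t ^ 4 * w ^ 4 := by
    rw [← abs_pow, mul_pow, abs_of_nonneg (by positivity)]
  rw [h4]
  have h5 : η / (w ^ 4 + 1) * (t ^ 4 * w ^ 4) ≤ η / (w ^ 4 + 1) * (t ^ 4 * (w ^ 4 + 1)) := by
    refine mul_le_mul_of_nonneg_left ?_ hη'.le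
    have : 0 ≤ t ^ 4 := by positivity
    nlinarith
  refine h5.trans (le_of_eq ?_)
  field_simp

theorem part2 (q b c : ℝ) : ∀ η : ℝ, 0 < η → ∀ᶠ t : ℝ in 𝓝 0,
    |(1 + b * t ^ 2 + c * t ^ 3) ^ q - (1 + q * b * t ^ 2 + q * c * t ^ 3 +
      q * (q - 1) / 2 * b ^ 2 * t ^ 4)| ≤ η * t ^ 4 := by
  intro η hη
  have hη' : 0 < η / 2 / ((|b| + |c|) ^ 2 + 1) := by positivity
  have ht : Tendsto (fun t : ℝ => b * t ^ 2 + c * t ^ 3) (𝓝 0) (𝓝 0) := by
    have h : Continuous (fun t : ℝ => b * t ^ 2 + c * t ^ 3) := by fun_prop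
    have := h.tendsto 0
    simpa using this
  have ht2 : Tendsto (fun t : ℝ => q * (q - 1) / 2 * (2 * b * c * t + c ^ 2 * t ^ 2)) (𝓝 0)
      (𝓝 0) := by
    have h : Continuous (fun t : ℝ => q * (q - 1) / 2 * (2 * b * c * t + c ^ 2 * t ^ 2)) := by
      fun_prop
    have := h.tendsto 0
    simpa using this
  have h3 : ∀ᶠ t : ℝ in 𝓝 0, |q * (q - 1) / 2 * (2 * b * c * t + c ^ 2 * t ^ 2)| ≤ η / 2 := by
    filter_upwards [(Metric.tendsto_nhds.1 ht2) (η / 2) (by positivity)] with t h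
    rw [Real.dist_eq, sub_zero] at h
    exact h.le
  have h4 : ∀ᶠ t : ℝ in 𝓝 0, |t| ≤ 1 := by
    filter_upwards [Metric.ball_mem_nhds (0 : ℝ) one_pos] with t h
    exact le_of_lt (by simpa [Real.dist_eq] using h)
  filter_upwards [ht.eventually (e2 q _ hη'), h3, h4] with t h1 h2 hle
  have hy : |b * t ^ 2 + c * t ^ 3| ≤ (|b| + |c|) * t ^ 2 := by
    have e : b * t ^ 2 + c * t ^ 3 = (b + c * t) * t ^ 2 := by ring
    rw [e, abs_mul, abs_of_nonneg (by positivity : (0 : ℝ) ≤ t ^ 2)]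
    refine mul_le_mul_of_nonneg_right ?_ (by positivity)
    calc |b + c * t| ≤ |b| + |c * t| := abs_add_le _ _
      _ = |b| + |c| * |t| := by rw [abs_mul]
      _ ≤ |b| + |c| * 1 := by
        have := mul_le_mul_of_nonneg_left hle (abs_nonneg c); linarith
      _ = |b| + |c| := by ring
  have hy2 : |b * t ^ 2 + c * t ^ 3| ^ 2 ≤ ((|b| + |c|) ^ 2 + 1) * t ^ 4 := by
    have h5 := pow_le_pow_left₀ (abs_nonneg _) hy 2
    have h6 : ((|b| + |c|) * t ^ 2) ^ 2 = (|b| + |c|) ^ 2 * t ^ 4 := by ring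
    rw [h6] at h5
    have : 0 ≤ t ^ 4 := by positivity
    nlinarith
  have h7 : |(1 + (b * t ^ 2 + c * t ^ 3)) ^ q - (1 + q * (b * t ^ 2 + c * t ^ 3) +
      q * (q - 1) / 2 * (b * t ^ 2 + c * t ^ 3) ^ 2)| ≤ η / 2 * t ^ 4 := by
    refine h1.trans ((mul_le_mul_of_nonneg_left hy2 hη'.le).trans (le_of_eq ?_))
    field_simp
  have h8 : |q * (q - 1) / 2 * (2 * b * c * t + c ^ 2 * t ^ 2) * t ^ 4| ≤ η / 2 * t ^ 4 := by
    rw [abs_mul, abs_of_nonneg (by positivity : (0 : ℝ) ≤ t ^ 4)]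
    exact mul_le_mul_of_nonneg_right h2 (by positivity)
  have e1' : 1 + b * t ^ 2 + c * t ^ 3 = 1 + (b * t ^ 2 + c * t ^ 3) := by ring
  have e2' : (1 + (b * t ^ 2 + c * t ^ 3)) ^ q - (1 + q * b * t ^ 2 + q * c * t ^ 3 +
      q * (q - 1) / 2 * b ^ 2 * t ^ 4) =
      ((1 + (b * t ^ 2 + c * t ^ 3)) ^ q - (1 + q * (b * t ^ 2 + c * t ^ 3) +
      q * (q - 1) / 2 * (b * t ^ 2 + c * t ^ 3) ^ 2)) +
      q * (q - 1) / 2 * (2 * b * c * t + c ^ 2 * t ^ 2) * t ^ 4 := by ring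
  rw [e1', e2']
  refine (abs_add_le _ _).trans ?_
  linarith

end TAY_

theorem stmt_TAY : Stmt_TAY := ⟨TAY_.part1, TAY_.part2⟩

end Pool.T3
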