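import Pool.Agent.Work.MP_b5407d_t3.Interface

/-! Proof of `Stmt_UEX`. -/

set_option autoImplicit false

open MeasureTheory Set Filter Topology

namespace Pool.T3

/-- second order Taylor bound for `(1+y)^a` -/
theorem UEX_tay (a : ℝ) : ∃ C r : ℝ, 0 < C ∧ 0 < r ∧ r < 1 ∧ ∀ y : ℝ, |y| ≤ r →
    |(1 + y) ^ a - (1 + a * y + a * (a - 1) / 2 * y ^ 2)| ≤ C * |y| ^ 3 := by
  have h := (Real.one_add_rpow_hasFPowerSeriesAt_zero (a := a)).isBigO_sub_partialSum_pow 3
  obtain ⟨C, hC, hb⟩ := h.exists_pos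
  rw [Asymptotics.isBigOWith_iff] at hb
  obtain ⟨ρ, hρ, hb⟩ := Metric.eventually_nhds_iff.1 hb
  refine ⟨C, min (ρ / 2) (1 / 2), hC, by positivity, lt_of_le_of_lt (min_le_right _ _) (by norm_num),
    fun y hy => ?_⟩
  have h1 := hb (y := y) (by
    rw [Real.dist_eq, sub_zero]
    exact lt_of_le_of_lt (hy.trans (min_le_left _ _)) (by linarith))
  simp only [zero_add, FormalMultilinearSeries.partialSum, Finset.sum_range_succ,
    Finset.sum_range_zero, binomialSeries_apply, norm_pow, Real.norm_eq_abs, abs_abs] at h1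
  have e2 : Ring.choose a 2 = a * (a - 1) / 2 := by
    rw [Ring.choose_eq_smul]
    have : descPochhammer ℤ 2 = Polynomial.X * (Polynomial.X - 1) := by
      simp [descPochhammer]
    rw [this]
    simp [Polynomial.smeval_mul, Polynomial.smeval_sub, Polynomial.smeval_X,
      Polynomial.smeval_one]
    ring
  simp only [List.ofFn_const, List.prod_replicate, smul_eq_mul, pow_zero, mul_one, pow_one,
    Ring.choose_zero_right, Ring.choose_one_right] at h1
  rw [e2] at h1
  exact h1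

theorem stmt_UEX : Stmt_UEX := by
  intro p hp0 hp1
  obtain ⟨C1, r1, hC1, hr1, hr1', h1⟩ := UEX_tay p
  obtain ⟨C2, r2, hC2, hr2, hr2', h2⟩ := UEX_tay (1 / p)
  set C : ℝ := C1 / p + 3 * (1 + C1) / (2 * p ^ 2) + 8 * C2 + C1 / p + 3 * (1 + C1) / p + 16 / p
    with hC
  have hCpos : 0 < C := by positivity
  set x0 : ℝ := min (min r1 (r2 / 2)) (min (1 / 4) (1 / (2 * (C1 + 1)))) with hx0
  have hx0pos : 0 < x0 := by positivity
  have hx01 : x0 ≤ r1 := (min_le_left _ _).trans (min_le_left _ _)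
  have hx02 : x0 ≤ r2 / 2 := (min_le_left _ _).trans (min_le_right _ _)
  have hx03 : x0 ≤ 1 / 4 := (min_le_right _ _).trans (min_le_left _ _)
  have hx04 : x0 ≤ 1 / (2 * (C1 + 1)) := (min_le_right _ _).trans (min_le_right _ _)
  refine ⟨C, x0, hCpos, hx0pos, by linarith, ?_⟩
  intro x hx s hs
  obtain ⟨hs0, hs1⟩ := hs
  have hax : 0 ≤ |x| := abs_nonneg x
  have hx1 : |x| ≤ 1 / 4 := hx.trans hx03
  have hxl := neg_abs_le x
  have hxu := le_abs_self x
  have hx2 : x ^ 2 = |x| ^ 2 := (sq_abs x).symm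
  have hCx : C1 * |x| ≤ 1 / 2 := by
    have h3 : |x| ≤ 1 / (2 * (C1 + 1)) := hx.trans hx04
    rw [le_div_iff₀ (by positivity)] at h3
    nlinarith
  set A : ℝ := (1 + x) ^ p - 1 with hA
  have he1 := h1 x (hx.trans hx01)
  have he1' : |A - (p * x - p * (1 - p) / 2 * x ^ 2)| ≤ C1 * |x| ^ 3 := by
    have e : A - (p * x - p * (1 - p) / 2 * x ^ 2) =
        (1 + x) ^ p - (1 + p * x + p * (p - 1) / 2 * x ^ 2) := by
      rw [hA]; ring
    rw [e]; exact he1
  set e1 : ℝ := A - (p * x - p * (1 - p) / 2 * x ^ 2) with he1d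
  have hp12 : p * (1 - p) / 2 ≤ 1 / 2 := by nlinarith
  have hp12' : 0 ≤ p * (1 - p) / 2 := by
    have : 0 ≤ 1 - p := by linarith
    positivity
  have hx3 : |x| ^ 3 ≤ |x| ^ 2 := by nlinarith [sq_nonneg |x|]
  have hx2' : |x| ^ 2 ≤ |x| / 4 := by nlinarith
  have hApx : |A - p * x| ≤ (1 + C1) * |x| ^ 2 := by
    have e : A - p * x = e1 + -(p * (1 - p) / 2 * x ^ 2) := by rw [he1d]; ring
    rw [e]
    refine (abs_add_le _ _).trans ?_
    rw [abs_neg, abs_mul, abs_of_nonneg hp12', abs_pow, sq_abs, hx2]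
    have := mul_le_mul_of_nonneg_left hx3 hC1.le
    nlinarith [sq_nonneg |x|]
  have hA2 : |A| ≤ 2 * |x| := by
    have e : A = (A - p * x) + p * x := by ring
    rw [e]
    refine (abs_add_le _ _).trans ?_
    rw [abs_mul, abs_of_pos hp0]
    have h4 : (1 + C1) * |x| ^ 2 ≤ 1 * |x| := by
      have : C1 * |x| * |x| ≤ 1 / 2 * |x| := mul_le_mul_of_nonneg_right hCx hax
      nlinarith
    nlinarith
  have hAp : |A + p * x| ≤ 3 * |x| := by
    refine (abs_add_le _ _).trans ?_
    rw [abs_mul, abs_of_pos hp0]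
    nlinarith
  have hprod : |(A - p * x) * (A + p * x)| ≤ 3 * (1 + C1) * |x| ^ 3 := by
    rw [abs_mul]
    calc |A - p * x| * |A + p * x| ≤ ((1 + C1) * |x| ^ 2) * (3 * |x|) :=
          mul_le_mul hApx hAp (abs_nonneg _) (by positivity)
      _ = 3 * (1 + C1) * |x| ^ 3 := by ring
  have hy : |s * A| ≤ 2 * |x| := by
    rw [abs_mul, abs_of_nonneg hs0]
    nlinarith [abs_nonneg A]
  have hyl := neg_abs_le (s * A)
  have hypos : 1 / 2 ≤ 1 + s * A := by linarith
  have hsl : |s| ≤ 1 := by rw [abs_of_nonneg hs0]; exact hs1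
  have hs2 : |s ^ 2| ≤ 1 := by
    rw [abs_pow]; exact pow_le_one₀ (abs_nonneg _) hsl
  refine ⟨by linarith, ?_, ?_, ?_⟩
  · -- convexity
    have hcv := convexOn_rpow (p := 1 / p) (by rw [le_div_iff₀ hp0]; linarith)
    have h1x : 0 ≤ 1 + x := by linarith
    have h5 := hcv.2 (mem_Ici.2 zero_le_one : (1 : ℝ) ∈ Ici 0)
      (mem_Ici.2 (Real.rpow_nonneg h1x p)) (by linarith : 0 ≤ 1 - s) hs0 (by ring)
    simp only [smul_eq_mul, Real.one_rpow, mul_one] at h5
    have e : ((1 + x) ^ p) ^ (1 / p) = 1 + x := by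
      rw [← Real.rpow_mul h1x, mul_one_div_cancel hp0.ne', Real.rpow_one]
    rw [e] at h5
    unfold zz
    have e2 : 1 + s * ((1 + x) ^ p - 1) = 1 - s + s * (1 + x) ^ p := by ring
    rw [e2]
    linarith
  · -- expansion of zz
    have h6 := h2 (s * A) (by linarith)
    unfold zz
    rw [← hA]
    have e : (1 + s * A) ^ (1 / p) - (1 + s * x - (1 - p) / 2 * s * (1 - s) * x ^ 2) =
        ((1 + s * A) ^ (1 / p) - (1 + 1 / p * (s * A) + 1 / p * (1 / p - 1) / 2 * (s * A) ^ 2)) +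
        (s * (e1 / p) + (1 - p) / (2 * p ^ 2) * (s ^ 2 * ((A - p * x) * (A + p * x)))) := by
      rw [he1d]
      field_simp
      ring
    rw [e]
    refine (abs_add_le _ _).trans ?_
    have h7 : C2 * |s * A| ^ 3 ≤ 8 * C2 * |x| ^ 3 := by
      have : |s * A| ^ 3 ≤ (2 * |x|) ^ 3 := pow_le_pow_left₀ (abs_nonneg _) hy 3
      nlinarith
    have h8 : |s * (e1 / p)| ≤ C1 / p * |x| ^ 3 := by
      rw [abs_mul, abs_div, abs_of_pos hp0]
      have h9 : |e1| / p ≤ C1 / p * |x| ^ 3 := by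
        rw [div_mul_eq_mul_div]
        exact div_le_div_of_nonneg_right he1' hp0.le
      calc |s| * (|e1| / p) ≤ 1 * (|e1| / p) := mul_le_mul_of_nonneg_right hsl (by positivity)
        _ ≤ _ := by rw [one_mul]; exact h9
    have h10 : |(1 - p) / (2 * p ^ 2) * (s ^ 2 * ((A - p * x) * (A + p * x)))| ≤
        3 * (1 + C1) / (2 * p ^ 2) * |x| ^ 3 := by
      have h11 : 0 ≤ (1 - p) / (2 * p ^ 2) := div_nonneg (by linarith) (by positivity)
      have h12 : (1 - p) / (2 * p ^ 2) ≤ 1 / (2 * p ^ 2) :=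
        div_le_div_of_nonneg_right (by linarith) (by positivity)
      rw [abs_mul, abs_of_nonneg h11, abs_mul]
      calc (1 - p) / (2 * p ^ 2) * (|s ^ 2| * |(A - p * x) * (A + p * x)|)
          ≤ 1 / (2 * p ^ 2) * (1 * (3 * (1 + C1) * |x| ^ 3)) := by
            apply mul_le_mul h12 _ (by positivity) (by positivity)
            exact mul_le_mul hs2 hprod (abs_nonneg _) zero_le_one
        _ = _ := by ring
    have h13 : |s * (e1 / p) + (1 - p) / (2 * p ^ 2) * (s ^ 2 * ((A - p * x) * (A + p * x)))| ≤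
        C1 / p * |x| ^ 3 + 3 * (1 + C1) / (2 * p ^ 2) * |x| ^ 3 :=
      (abs_add_le _ _).trans (add_le_add h8 h10)
    have h14 : 0 ≤ (C1 / p + 3 * (1 + C1) / p + 16 / p) * |x| ^ 3 := by positivity
    rw [hC]
    linarith [h6.trans h7]
  · -- expansion of ee
    unfold ee
    rw [← hA]
    have hne : (1 + s * A) ≠ 0 := by linarith
    have e : A / (p * (1 + s * A)) - (x - ((1 - p) / 2 + s * p) * x ^ 2) =
        (e1 / p + -(s * ((A - p * x) * (A + p * x) / p))) +
          A / p * ((s * A) ^ 2 / (1 + s * A)) := by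
      have key : A / (p * (1 + s * A)) =
          A / p - s * A ^ 2 / p + A / p * ((s * A) ^ 2 / (1 + s * A)) := by
        generalize hW : 1 + s * A = W at hne
        have hW2 : (s * A) ^ 2 = (W - 1) ^ 2 := by rw [← hW]; ring
        have hW3 : s * A ^ 2 = A * (W - 1) := by rw [← hW]; ring
        rw [hW2, hW3]
        field_simp
        ring
      rw [key, he1d]
      field_simp
      ring
    rw [e]
    refine (abs_add_le _ _).trans ?_
    have h9 : |e1 / p| ≤ C1 / p * |x| ^ 3 := by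
      rw [abs_div, abs_of_pos hp0, div_mul_eq_mul_div]
      exact div_le_div_of_nonneg_right he1' hp0.le
    have h15 : |(A - p * x) * (A + p * x) / p| ≤ 3 * (1 + C1) / p * |x| ^ 3 := by
      rw [abs_div, abs_of_pos hp0, div_mul_eq_mul_div]
      exact div_le_div_of_nonneg_right hprod hp0.le
    have h16 : |s * ((A - p * x) * (A + p * x) / p)| ≤ 3 * (1 + C1) / p * |x| ^ 3 := by
      rw [abs_mul]
      calc |s| * |(A - p * x) * (A + p * x) / p| ≤ 1 * |(A - p * x) * (A + p * x) / p| :=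
            mul_le_mul_of_nonneg_right hsl (abs_nonneg _)
        _ ≤ _ := by rw [one_mul]; exact h15
    have h17 : |A / p * ((s * A) ^ 2 / (1 + s * A))| ≤ 16 / p * |x| ^ 3 := by
      rw [abs_mul, abs_div, abs_of_pos hp0, abs_div, abs_pow, abs_of_pos (by linarith : 0 < 1 + s * A)]
      have h18 : |s * A| ^ 2 ≤ 4 * |x| ^ 2 := by
        have := pow_le_pow_left₀ (abs_nonneg _) hy 2
        linarith [this, mul_pow 2 |x| 2]
      have h19 : |s * A| ^ 2 / (1 + s * A) ≤ 8 * |x| ^ 2 := by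
        rw [div_le_iff₀ (by linarith)]
        nlinarith [sq_nonneg |x|]
      have h20 : |A| / p ≤ 2 / p * |x| := by
        rw [div_mul_eq_mul_div]
        exact div_le_div_of_nonneg_right hA2 hp0.le
      calc |A| / p * (|s * A| ^ 2 / (1 + s * A)) ≤ (2 / p * |x|) * (8 * |x| ^ 2) :=
            mul_le_mul h20 h19 (div_nonneg (by positivity) (by linarith)) (by positivity)
        _ = _ := by ring
    have h21 : |e1 / p + -(s * ((A - p * x) * (A + p * x) / p))| ≤
        C1 / p * |x| ^ 3 + 3 * (1 + C1) / p * |x| ^ 3 := by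
      refine (abs_add_le _ _).trans ?_
      rw [abs_neg]
      exact add_le_add h9 h16
    have h22 : 0 ≤ (C1 / p + 3 * (1 + C1) / (2 * p ^ 2) + 8 * C2) * |x| ^ 3 := by positivity
    rw [hC]
    linarith

end Pool.T3
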