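import Pool.Agent.Work.MP_b5407d_t3.Interface

/-!
# Block `VAN`: ground state inequality for vanishing facets

`VAN_.alg` is the algebra at a fixed point near `h`; the rest checks its hypotheses.
-/

set_option autoImplicit false

open MeasureTheory Set Filter Topology

namespace Pool.T3

namespace VAN_

/-- ground state argument for a symmetric matrix with nonnegative off-diagonal entries -/
lemma alg {ι : Type} [Fintype ι] [DecidableEq ι] (M : ι → ι → ℝ) (s x : ι → ℝ) (N P : ι → Prop)
    [DecidablePred N] (d : ι → ι → ℝ) (c Λ : ℝ)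
    (hsym : ∀ i j, M i j = M j i) (hoff : ∀ i j, i ≠ j → 0 ≤ M i j) (hs : ∀ i, 0 ≤ s i)
    (hPN : ∀ i, P i → ¬ N i)
    (hz : ∀ i, ¬ N i → ¬ P i → s i = 0 ∧ ∀ j, M i j = 0)
    (hd : ∀ i, P i → 0 < d i i)
    (hrow : ∀ i, P i → ∑ k, M i k * d i k = -(2 * s i))
    (hlam : ∀ i, P i → Λ / x i ≤ 2 / d i i)
    (hc : ∀ i k, P i → N k → i ≠ k → c * M i k ≤ M i k * (d i k / d i i))
    (hpair : ∀ i k, P i → P k → i ≠ k → M i k ≠ 0 → d i k = d k k)
    (b : ι → ℝ) (hb : ∀ i, N i → b i = 0) :
    Λ * (∑ i, s i * b i ^ 2 / x i) + c * (∑ i, ∑ j, if N j then M i j * b i ^ 2 else 0) ≤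
      -(∑ i, ∑ j, M i j * b i * b j) := by
  classical
  set g : ι → ι → ℝ := fun i k => if P i then M i k * (d i k / d i i) * b i ^ 2 else 0 with hg
  set e : ι → ℝ := fun i => if P i then 2 / d i i * (s i * b i ^ 2) else 0 with he
  -- the identity
  have hid : -(∑ i, ∑ j, M i j * b i * b j) =
      (∑ i, ∑ k, (g i k - M i k * b i * b k)) + ∑ i, e i := by
    rw [← Finset.sum_neg_distrib, ← Finset.sum_add_distrib]
    refine Finset.sum_congr rfl fun i _ => ?_
    rw [Finset.sum_sub_distrib]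
    by_cases hPi : P i
    · have h1 : ∑ k, g i k = (b i ^ 2 / d i i) * ∑ k, M i k * d i k := by
        rw [Finset.mul_sum]
        refine Finset.sum_congr rfl fun k _ => ?_
        simp only [hg, if_pos hPi]
        ring
      rw [h1, hrow i hPi]
      simp only [he, if_pos hPi]
      ring
    · have h1 : ∑ k, g i k = 0 := by
        refine Finset.sum_eq_zero fun k _ => ?_
        simp only [hg, if_neg hPi]
      rw [h1]
      simp only [he, if_neg hPi]
      ring
  have h1 : Λ * (∑ i, s i * b i ^ 2 / x i) ≤ ∑ i, e i := by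
    rw [Finset.mul_sum]
    refine Finset.sum_le_sum fun i _ => ?_
    by_cases hPi : P i
    · simp only [he, if_pos hPi]
      have h2 : Λ * (s i * b i ^ 2 / x i) = Λ / x i * (s i * b i ^ 2) := by ring
      rw [h2]
      exact mul_le_mul_of_nonneg_right (hlam i hPi) (mul_nonneg (hs i) (sq_nonneg _))
    · simp only [he, if_neg hPi]
      by_cases hNi : N i
      · rw [hb i hNi]; simp
      · rw [(hz i hNi hPi).1]; simp
  set F : ι → ι → ℝ := fun i k =>
    g i k - M i k * b i * b k - c * (if N k then M i k * b i ^ 2 else 0) with hF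
  have hsum : (∑ i, ∑ k, (g i k - M i k * b i * b k)) -
      c * (∑ i, ∑ j, if N j then M i j * b i ^ 2 else 0) = ∑ i, ∑ k, F i k := by
    rw [Finset.mul_sum, ← Finset.sum_sub_distrib]
    refine Finset.sum_congr rfl fun i _ => ?_
    rw [Finset.mul_sum, ← Finset.sum_sub_distrib]
  have hFN : ∀ i k, N i → F i k = 0 := by
    intro i k hNi
    have hPi : ¬ P i := fun h => hPN i h hNi
    simp only [hF, hg, if_neg hPi, hb i hNi]
    split_ifs <;> ring
  have hFz : ∀ i k, ¬ N i → ¬ P i → F i k = 0 := by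
    intro i k hNi hPi
    simp only [hF, hg, if_neg hPi, (hz i hNi hPi).2 k]
    split_ifs <;> ring
  have hFM : ∀ i k, M i k = 0 → F i k = 0 := by
    intro i k hM
    simp only [hF, hg, hM]
    split_ifs <;> ring
  have hpos : ∀ i k, 0 ≤ F i k + F k i := by
    intro i k
    by_cases hik : i = k
    · subst hik
      by_cases hPi : P i
      · have hNi := hPN i hPi
        have hdi := (hd i hPi).ne'
        have : F i i = 0 := by
          simp only [hF, hg, if_pos hPi, if_neg hNi, div_self hdi]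
          ring
        rw [this]; simp
      · by_cases hNi : N i
        · rw [hFN i i hNi]; simp
        · rw [hFz i i hNi hPi]; simp
    · have hki : k ≠ i := fun h => hik h.symm
      -- one of them in `N`
      have key : ∀ i k, i ≠ k → N k → 0 ≤ F i k := by
        intro i k hik hNk
        by_cases hPi : P i
        · simp only [hF, hg, if_pos hPi, if_pos hNk, hb k hNk]
          have h2 := hc i k hPi hNk hik
          have h3 := mul_le_mul_of_nonneg_right h2 (sq_nonneg (b i))
          nlinarith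
        · by_cases hNi : N i
          · rw [hFN i k hNi]
          · rw [hFz i k hNi hPi]
      by_cases hNk : N k
      · rw [hFN k i hNk]
        simpa using key i k hik hNk
      by_cases hNi : N i
      · rw [hFN i k hNi]
        simpa using key k i hki hNi
      by_cases hM : M i k = 0
      · rw [hFM i k hM, hFM k i (by rw [hsym]; exact hM)]; simp
      have hPi : P i := by
        by_contra hcon
        exact hM ((hz i hNi hcon).2 k)
      have hPk : P k := by
        by_contra hcon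
        exact hM (by rw [hsym]; exact (hz k hNk hcon).2 i)
      have h4 := hpair i k hPi hPk hik hM
      have h5 := hpair k i hPk hPi hki (by rw [hsym]; exact hM)
      have hdi := hd i hPi
      have hdk := hd k hPk
      have h6 : F i k + F k i =
          M i k / (d i i * d k k) * (d k k * b i - d i i * b k) ^ 2 := by
        simp only [hF, hg, if_pos hPi, if_pos hPk, if_neg hNi, if_neg hNk, hsym k i, h4, h5]
        field_simp
        ring
      rw [h6]
      exact mul_nonneg (div_nonneg (hoff i k hik) (mul_pos hdi hdk).le) (sq_nonneg _)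
  have hFs : 0 ≤ ∑ i, ∑ k, F i k := by
    have h2 : ∑ i, ∑ k, F i k = ∑ i, ∑ k, F k i := Finset.sum_comm
    have h3 : 2 * ∑ i, ∑ k, F i k = ∑ i, ∑ k, (F i k + F k i) := by
      simp only [Finset.sum_add_distrib]
      rw [← h2]; ring
    have h4 : 0 ≤ ∑ i, ∑ k, (F i k + F k i) :=
      Finset.sum_nonneg fun i _ => Finset.sum_nonneg fun k _ => hpos i k
    linarith
  rw [hid]
  linarith

lemma isOpen_Pos {ι : Type} [Fintype ι] : IsOpen {h : ι → ℝ | Pos h} := by
  have : {h : ι → ℝ | Pos h} = ⋂ i, {h : ι → ℝ | 0 < h i} := by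
    ext h; simp [Pos]
  rw [this]
  exact isOpen_iInter_of_finite (fun i => isOpen_lt continuous_const (continuous_apply i))

end VAN_

open VAN_ in
theorem stmt_VAN (hVA3 : Stmt_VA3) (hVA4 : Stmt_VA4) (hSGN : Stmt_SGN) (hDVS : Stmt_DVS) :
    Stmt_VAN := by
  classical
  intro ι _ _ u hu h hp
  set P : ι → Prop := fun i => S u h i = 0 ∧ ∃ v ∈ K u h, dt (u i) v = h i with hP
  have hchoose : ∀ i, ∃ v : R3, P i → v ∈ K u h ∧ dt (u i) v = h i := by
    intro i
    by_cases hPi : P i
    · obtain ⟨v, hv, hv'⟩ := hPi.2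
      exact ⟨v, fun _ => ⟨hv, hv'⟩⟩
    · exact ⟨0, fun h => absurd h hPi⟩
  choose vv hvv using hchoose
  set A : ι → ι → ℝ := fun i k => |dt (u k) (vv i)| with hA
  have hAle : ∀ i, P i → ∀ k, A i k ≤ h k := fun i hPi k => (hvv i hPi).1 k
  have hAii : ∀ i, P i → A i i = h i := by
    intro i hPi
    simp only [hA]
    rw [(hvv i hPi).2, abs_of_pos (hp i)]
  obtain ⟨i0, -, -, -⟩ := hu.three
  set T : ℝ := ∑ i, ∑ k, h i / h k with hT
  have hTle : ∀ i k, h i / h k ≤ T := by
    intro i k
    have h1 : h i / h k ≤ ∑ k, h i / h k :=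
      Finset.single_le_sum (f := fun k => h i / h k)
        (fun k _ => (div_pos (hp i) (hp k)).le) (Finset.mem_univ k)
    have h2 : ∑ k, h i / h k ≤ T :=
      Finset.single_le_sum (f := fun i => ∑ k, h i / h k)
        (fun i _ => Finset.sum_nonneg fun k _ => (div_pos (hp i) (hp k)).le) (Finset.mem_univ i)
    exact h1.trans h2
  have hTpos : 0 < T := lt_of_lt_of_le (div_pos (hp i0) (hp i0)) (hTle i0 i0)
  refine ⟨1 / (4 * T), by positivity, ?_⟩
  intro Λ
  set τ : ℝ := 1 / (2 * (|Λ| + 1)) with hτ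
  have hΛ0 := abs_nonneg Λ
  have hτpos : 0 < τ := by positivity
  have hτ2 : τ ≤ 1 / 2 := by
    rw [hτ, div_le_div_iff₀ (by positivity) (by norm_num)]
    linarith
  have hτΛ : τ * (|Λ| + 1) = 1 / 2 := by
    rw [hτ]; field_simp
  -- eventual properties
  have e0 : ∀ᶠ h' in 𝓝 h, Pos h' := isOpen_Pos.mem_nhds hp
  have e1 : ∀ᶠ h' in 𝓝 h, ∀ i, P i → ∑ j, H u h' i j * A i j = 0 := by
    rw [eventually_all]
    intro i
    by_cases hPi : P i
    · filter_upwards [((hVA3 ι u hu h hp i hPi.1).1 (vv i) (hvv i hPi).1 (hvv i hPi).2).1]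
        with h' hh' _
      exact hh'
    · exact Eventually.of_forall fun _ h => absurd h hPi
  have e2 : ∀ᶠ h' in 𝓝 h, ∀ i k, P i → k ≠ i → A i k < h k → H u h' i k = 0 := by
    rw [eventually_all]
    intro i
    rw [eventually_all]
    intro k
    by_cases hc : P i ∧ k ≠ i ∧ A i k < h k
    · obtain ⟨hPi, hki, hAk⟩ := hc
      filter_upwards [((hVA3 ι u hu h hp i hPi.1).1 (vv i) (hvv i hPi).1 (hvv i hPi).2).2
        k hki hAk] with h' hh' _ _ _
      exact hh'
    · exact Eventually.of_forall fun _ h1 h2 h3 => absurd ⟨h1, h2, h3⟩ hc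
  have e3 : ∀ᶠ h' in 𝓝 h, ∀ i, S u h i = 0 → ¬ P i → S u h' i = 0 ∧ ∀ j, H u h' i j = 0 := by
    rw [eventually_all]
    intro i
    by_cases hc : S u h i = 0 ∧ ¬ P i
    · obtain ⟨hSi, hPi⟩ := hc
      have hno : ∀ v ∈ K u h, dt (u i) v ≠ h i := by
        intro v hv hv'
        exact hPi ⟨hSi, v, hv, hv'⟩
      filter_upwards [(hVA3 ι u hu h hp i hSi).2 hno] with h' hh' _ _
      exact hh'
    · exact Eventually.of_forall fun _ h1 h2 => absurd ⟨h1, h2⟩ hc
  have e4 : ∀ᶠ h' in 𝓝 h, ∀ i k, P i → P k → i ≠ k → H u h' i k ≠ 0 → A i k = A k k := by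
    rw [eventually_all]
    intro i
    rw [eventually_all]
    intro k
    by_cases hc : P i ∧ P k ∧ i ≠ k
    · obtain ⟨hPi, hPk, hik⟩ := hc
      by_cases hf : ∃ᶠ h' in 𝓝 h, H u h' i k ≠ 0
      · have := hVA4 ι u hu h hp i k hik hPi.1 hPk.1 (vv i) (hvv i hPi).1 (vv k) (hvv k hPk).1
          (hvv i hPi).2 (hvv k hPk).2 hf k
        exact Eventually.of_forall fun _ _ _ _ _ => this
      · rw [not_frequently] at hf
        filter_upwards [hf] with h' hh' _ _ _ hne
        exact absurd hne hh'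
    · exact Eventually.of_forall fun _ h1 h2 h3 => absurd ⟨h1, h2, h3⟩ hc
  have e5 : ∀ᶠ h' in 𝓝 h, ∀ k, (1 - τ) * h k < h' k ∧ h' k < (1 + τ / 2) * h k := by
    rw [eventually_all]
    intro k
    have hk := hp k
    have ht : Tendsto (fun h' : ι → ℝ => h' k) (𝓝 h) (𝓝 (h k)) :=
      (continuous_apply k).tendsto h
    have h1 : (1 - τ) * h k < h k := by nlinarith
    have h2 : h k < (1 + τ / 2) * h k := by nlinarith
    exact (ht.eventually (lt_mem_nhds h1)).and (ht.eventually (gt_mem_nhds h2))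
  filter_upwards [e0, e1, e2, e3, e4, e5] with h' p0 p1 p2 p3 p4 p5 b hb
  obtain ⟨-, hSn, hHn, -⟩ := hSGN ι u hu h' p0
  obtain ⟨-, -, -, hsym, -, heul⟩ := hDVS ι u hu
  have hnz : ∀ i, ¬ 0 < S u h i → S u h i = 0 := by
    intro i hi
    exact le_antisymm (not_lt.1 hi) ((hSGN ι u hu h hp).2.1 i)
  have hdd : ∀ i k, P i → A i k = h k →
      τ * h k / 2 ≤ (1 + τ) * A i k - h' k ∧ (1 + τ) * A i k - h' k ≤ 2 * (τ * h k) := by
    intro i k _ hAk
    rw [hAk]
    have := p5 k
    constructor <;> nlinarith [this.1, this.2]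
  refine alg (H u h') (S u h') h' (fun i => 0 < S u h i) P
    (fun i k => (1 + τ) * A i k - h' k) (1 / (4 * T)) Λ (hsym h' p0) hHn hSn
    ?_ ?_ ?_ ?_ ?_ ?_ ?_ b hb
  · intro i hPi hcon
    rw [hPi.1] at hcon
    exact lt_irrefl _ hcon
  · intro i hNi hPi
    exact p3 i (hnz i hNi) hPi
  · intro i hPi
    have h1 := (hdd i i hPi (hAii i hPi)).1
    have h2 := hp i
    have h3 : 0 < τ * h i / 2 := by positivity
    exact lt_of_lt_of_le h3 h1
  · intro i hPi
    have h1 := p1 i hPi
    have h2 := heul h' p0 i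
    have h3 : ∑ k, H u h' i k * ((1 + τ) * A i k - h' k) =
        (1 + τ) * (∑ k, H u h' i k * A i k) - ∑ k, H u h' i k * h' k := by
      rw [Finset.mul_sum, ← Finset.sum_sub_distrib]
      refine Finset.sum_congr rfl fun k _ => ?_
      ring
    rw [h3, h1, h2]; ring
  · intro i hPi
    obtain ⟨h1, h2⟩ := hdd i i hPi (hAii i hPi)
    have hi := hp i
    have hi' := p0 i
    have h3 : 0 < τ * h i / 2 := by positivity
    have h4 : 0 < (1 + τ) * A i i - h' i := lt_of_lt_of_le h3 h1
    rw [div_le_div_iff₀ hi' h4]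
    have h5 : Λ * ((1 + τ) * A i i - h' i) ≤ |Λ| * (2 * (τ * h i)) :=
      (mul_le_mul_of_nonneg_right (le_abs_self Λ) h4.le).trans
        (mul_le_mul_of_nonneg_left h2 hΛ0)
    have h6 : |Λ| * τ ≤ 1 / 2 := by nlinarith
    have h7 : |Λ| * (2 * (τ * h i)) ≤ h i := by nlinarith
    have h8 := (p5 i).1
    nlinarith
  · intro i k hPi _ hik
    have hH := hHn i k hik
    rcases lt_or_eq_of_le (hAle i hPi k) with hlt | heq
    · rw [p2 i k hPi (Ne.symm hik) hlt]; simp
    · obtain ⟨h1, h2⟩ := hdd i i hPi (hAii i hPi)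
      obtain ⟨h3, h4⟩ := hdd i k hPi heq
      have hi := hp i
      have hk := hp k
      have h5 : 0 < (1 + τ) * A i i - h' i := lt_of_lt_of_le (by positivity) h1
      have h6 : 1 / (4 * T) ≤ ((1 + τ) * A i k - h' k) / ((1 + τ) * A i i - h' i) := by
        rw [div_le_div_iff₀ (by positivity) h5]
        have h7 := hTle i k
        rw [div_le_iff₀ hk] at h7
        have h8 : 2 * (τ * h i) ≤ 2 * τ * (T * h k) := by nlinarith
        have h9 : 2 * τ * (T * h k) = τ * h k / 2 * (4 * T) := by ring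
        have h10 : τ * h k / 2 * (4 * T) ≤ ((1 + τ) * A i k - h' k) * (4 * T) :=
          mul_le_mul_of_nonneg_right h3 (by positivity)
        linarith
      calc 1 / (4 * T) * H u h' i k = H u h' i k * (1 / (4 * T)) := by ring
        _ ≤ H u h' i k * (((1 + τ) * A i k - h' k) / ((1 + τ) * A i i - h' i)) :=
            mul_le_mul_of_nonneg_left h6 hH
  · intro i k hPi hPk hik hM
    show (1 + τ) * A i k - h' k = (1 + τ) * A k k - h' k
    rw [p4 i k hPi hPk hik hM]

end Pool.T3
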